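import Pool.Agent.P.MP_e311cd_gt.I.Q

/-! Invariant vector fields on a topological group with three one-parameter groups. -/

namespace Pool.Agent.P.MP_e311cd_gt

open Set NormedSpace

noncomputable section

section Gen

variable {G : Type} [Group G] [TopologicalSpace G] (e : Fin 3 → ℝ → G)

/-- three continuous one-parameter groups -/
structure OP : Prop where
  cont : ∀ i, Continuous (e i)
  add : ∀ i s t, e i (s + t) = e i s * e i t

/-- derivative along `e i` -/
def XD (i : Fin 3) (f : G → ℂ) : G → ℂ := fun x => deriv (fun s : ℝ => f (x * e i s)) 0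

/-- continuous and differentiable along each `e i` -/
def D1 (f : G → ℂ) : Prop :=
  Continuous f ∧ ∀ i x, DifferentiableAt ℝ (fun s : ℝ => f (x * e i s)) 0

/-- weakly of class `C²` -/
def C2 (f : G → ℂ) : Prop := D1 e f ∧ ∀ i, D1 e (XD e i f) ∧ Continuous (XD e i (XD e i f))

/-- the positive Laplacian -/
def Lap (f : G → ℂ) : G → ℂ := -∑ i, XD e i (XD e i f)

/-- a space of functions stable under the derivatives -/
def Stab (V : Submodule ℂ (G → ℂ)) : Prop := ∀ f ∈ V, D1 e f ∧ ∀ i, XD e i f ∈ V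

variable {e} {f g : G → ℂ} {V V' : Submodule ℂ (G → ℂ)}

theorem OP.zero (he : OP e) (i : Fin 3) : e i 0 = 1 := by
  have := he.add i 0 0
  rw [add_zero] at this
  exact left_eq_mul.mp this

theorem D1.hasDerivAt0 (hf : D1 e f) (i : Fin 3) (x : G) :
    HasDerivAt (fun s : ℝ => f (x * e i s)) (XD e i f x) 0 := (hf.2 i x).hasDerivAt

theorem D1.hasDerivAt (he : OP e) (hf : D1 e f) (i : Fin 3) (x : G) (t : ℝ) :
    HasDerivAt (fun s : ℝ => f (x * e i s)) (XD e i f (x * e i t)) t := by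
  have h := hf.hasDerivAt0 i (x * e i t)
  rw [← sub_self t] at h
  have h2 := h.comp_sub_const t t
  simpa only [mul_assoc, ← he.add, add_sub_cancel] using h2

omit [TopologicalSpace G] in
theorem XD_eq {i : Fin 3} {x : G} {y : ℂ} (h : HasDerivAt (fun s : ℝ => f (x * e i s)) y 0) :
    XD e i f x = y := h.deriv

theorem D1.const (c : ℂ) : D1 e fun _ => c := ⟨continuous_const, fun _ _ => differentiableAt_const _⟩
theorem D1.add (hf : D1 e f) (hg : D1 e g) : D1 e (f + g) :=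
  ⟨hf.1.add hg.1, fun i x => (hf.2 i x).add (hg.2 i x)⟩
theorem D1.smul (hf : D1 e f) (c : ℂ) : D1 e (c • f) :=
  ⟨hf.1.const_smul c, fun i x => (hf.2 i x).const_smul c⟩
theorem D1.mul (hf : D1 e f) (hg : D1 e g) : D1 e (f * g) :=
  ⟨hf.1.mul hg.1, fun i x => (hf.2 i x).mul (hg.2 i x)⟩
theorem D1.star (hf : D1 e f) : D1 e (star f) :=
  ⟨hf.1.star, fun i x => (hf.2 i x).star⟩

omit [TopologicalSpace G] in
theorem XD_const (i : Fin 3) (c : ℂ) : XD e i (fun _ => c) = 0 :=
  funext fun _ => deriv_const _ _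
theorem XD_add (hf : D1 e f) (hg : D1 e g) (i : Fin 3) : XD e i (f + g) = XD e i f + XD e i g :=
  funext fun x => XD_eq ((hf.hasDerivAt0 i x).add (hg.hasDerivAt0 i x))
theorem XD_smul (hf : D1 e f) (c : ℂ) (i : Fin 3) : XD e i (c • f) = c • XD e i f :=
  funext fun x => XD_eq ((hf.hasDerivAt0 i x).const_smul c)
theorem XD_mul (he : OP e) (hf : D1 e f) (hg : D1 e g) (i : Fin 3) :
    XD e i (f * g) = XD e i f * g + f * XD e i g :=
  funext fun x => XD_eq (by
    simpa [he.zero] using (hf.hasDerivAt0 i x).fun_mul (hg.hasDerivAt0 i x))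
theorem XD_star (hf : D1 e f) (i : Fin 3) : XD e i (star f) = star (XD e i f) :=
  funext fun x => XD_eq (hf.hasDerivAt0 i x).star

theorem C2.const (c : ℂ) : C2 e fun _ => c :=
  ⟨D1.const c, fun i => by
    rw [XD_const]
    exact ⟨D1.const 0, by rw [Pi.zero_def, XD_const]; exact continuous_zero⟩⟩
theorem C2.add (hf : C2 e f) (hg : C2 e g) : C2 e (f + g) :=
  ⟨hf.1.add hg.1, fun i => by
    rw [XD_add hf.1 hg.1, XD_add (hf.2 i).1 (hg.2 i).1]
    exact ⟨(hf.2 i).1.add (hg.2 i).1, (hf.2 i).2.add (hg.2 i).2⟩⟩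
theorem C2.smul (hf : C2 e f) (c : ℂ) : C2 e (c • f) :=
  ⟨hf.1.smul c, fun i => by
    rw [XD_smul hf.1, XD_smul (hf.2 i).1]
    exact ⟨(hf.2 i).1.smul c, (hf.2 i).2.const_smul c⟩⟩

omit [TopologicalSpace G] in
theorem Lap_const (c : ℂ) : Lap e (fun _ => c) = 0 := by
  simp only [Lap, XD_const]
  simp only [Pi.zero_def, XD_const]
  simp [← Pi.zero_def]
theorem Lap_add (hf : C2 e f) (hg : C2 e g) : Lap e (f + g) = Lap e f + Lap e g := by
  simp only [Lap, XD_add hf.1 hg.1, fun i => XD_add (hf.2 i).1 (hg.2 i).1 i,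
    Finset.sum_add_distrib, neg_add]
theorem Lap_smul (hf : C2 e f) (c : ℂ) : Lap e (c • f) = c • Lap e f := by
  simp only [Lap, XD_smul hf.1, fun i => XD_smul (hf.2 i).1 c i, Finset.smul_sum, smul_neg]
theorem C2.continuous_Lap (hf : C2 e f) : Continuous (Lap e f) := by
  unfold Lap
  rw [Fin.sum_univ_three]
  exact (((hf.2 0).2.add (hf.2 1).2).add (hf.2 2).2).neg
/-- the product rule -/
theorem Lap_mul (he : OP e) (hf : C2 e f) (hg : C2 e g) :
    Lap e (f * g) = Lap e f * g + f * Lap e g - 2 * ∑ i, XD e i f * XD e i g := by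
  simp only [Lap, XD_mul he hf.1 hg.1,
    fun i => XD_add ((hf.2 i).1.mul hg.1) (hf.1.mul (hg.2 i).1) i,
    fun i => XD_mul he (hf.2 i).1 hg.1 i, fun i => XD_mul he hf.1 (hg.2 i).1 i,
    Fin.sum_univ_three]
  ring

variable (e) in
/-- the space of weakly `C²` functions -/
def C2S : Submodule ℂ (G → ℂ) where
  carrier := {f | C2 e f}
  zero_mem' := C2.const 0
  add_mem' := C2.add
  smul_mem' c _ hf := hf.smul c

variable (e) in
/-- weak eigenfunctions -/
def WE (μ : ℝ) : Submodule ℂ (G → ℂ) where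
  carrier := {f | C2 e f ∧ Lap e f = (μ : ℂ) • f}
  zero_mem' := ⟨C2.const 0, by rw [smul_zero]; exact Lap_const 0⟩
  add_mem' hf hg := ⟨hf.1.add hg.1, by rw [Lap_add hf.1 hg.1, hf.2, hg.2, smul_add]⟩
  smul_mem' c f hf := ⟨hf.1.smul c, by rw [Lap_smul hf.1, hf.2, smul_comm]⟩

theorem mem_WE {μ : ℝ} : f ∈ WE e μ ↔ C2 e f ∧ Lap e f = (μ : ℂ) • f := Iff.rfl

theorem Stab.c2 (h : Stab e V) (hf : f ∈ V) : C2 e f :=
  ⟨(h f hf).1, fun i => ⟨(h _ ((h f hf).2 i)).1, (h _ ((h _ ((h f hf).2 i)).2 i)).1.1⟩⟩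

theorem Stab.lap_mem (h : Stab e V) (hf : f ∈ V) : Lap e f ∈ V :=
  V.neg_mem (V.sum_mem fun i _ => (h _ ((h f hf).2 i)).2 i)

/-- the Laplacian as an endomorphism of a stable space -/
def Stab.lapL (h : Stab e V) : V →ₗ[ℂ] V where
  toFun f := ⟨Lap e f, h.lap_mem f.2⟩
  map_add' f g := Subtype.ext (Lap_add (h.c2 f.2) (h.c2 g.2))
  map_smul' c f := Subtype.ext (Lap_smul (h.c2 f.2) c)

theorem stab_span {s : Set (G → ℂ)} (h : ∀ f ∈ s, D1 e f ∧ ∀ i, XD e i f ∈ Submodule.span ℂ s) :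
    Stab e (Submodule.span ℂ s) := by
  intro f hf
  induction hf using Submodule.span_induction with
  | mem f hf => exact h f hf
  | zero => exact ⟨D1.const 0, fun i => by rw [Pi.zero_def, XD_const]; exact zero_mem _⟩
  | add f g _ _ hf hg =>
    exact ⟨hf.1.add hg.1, fun i => by rw [XD_add hf.1 hg.1]; exact add_mem (hf.2 i) (hg.2 i)⟩
  | smul c f _ hf =>
    exact ⟨hf.1.smul c, fun i => by rw [XD_smul hf.1]; exact Submodule.smul_mem _ c (hf.2 i)⟩

theorem Stab.bot : Stab e ⊥ := by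
  rw [← Submodule.span_empty]
  exact stab_span (by simp)

theorem Stab.one : Stab e 1 := by
  rw [Submodule.one_eq_span]
  exact stab_span (by
    rintro _ rfl
    exact ⟨D1.const 1, fun i => by rw [Pi.one_def, XD_const]; exact zero_mem _⟩)

theorem Stab.mul (he : OP e) (h : Stab e V) (h' : Stab e V') : Stab e (V * V') := by
  intro f hf
  refine Submodule.mul_induction_on hf (fun f hf g hg => ⟨(h f hf).1.mul (h' g hg).1, fun i => ?_⟩)
    fun f g hf hg =>
      ⟨hf.1.add hg.1, fun i => by rw [XD_add hf.1 hg.1]; exact add_mem (hf.2 i) (hg.2 i)⟩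
  rw [XD_mul he (h f hf).1 (h' g hg).1]
  exact add_mem (Submodule.mul_mem_mul ((h f hf).2 i) hg) (Submodule.mul_mem_mul hf ((h' g hg).2 i))

theorem Stab.pow (he : OP e) (h : Stab e V) (d : ℕ) : Stab e (V ^ d) := by
  induction d with
  | zero => rw [pow_zero]; exact Stab.one
  | succ d ih => rw [pow_succ]; exact ih.mul he h

theorem Stab.iSup {ι : Sort*} {W : ι → Submodule ℂ (G → ℂ)} (h : ∀ j, Stab e (W j)) :
    Stab e (⨆ j, W j) := by
  intro f hf
  induction hf using Submodule.iSup_induction' with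
  | mem j f hf => exact ⟨(h j f hf).1, fun i => Submodule.mem_iSup_of_mem j ((h j f hf).2 i)⟩
  | zero => exact ⟨D1.const 0, fun i => by rw [Pi.zero_def, XD_const]; exact zero_mem _⟩
  | add f g _ _ hf hg =>
    exact ⟨hf.1.add hg.1, fun i => by rw [XD_add hf.1 hg.1]; exact add_mem (hf.2 i) (hg.2 i)⟩

end Gen

/-! ### polynomial functions on the unit quaternions -/

theorem continuous_eU : Continuous eU :=
  (((exp_analytic (𝕂 := ℝ) (𝔸 := H) · |>.continuousAt) |> continuous_iff_continuousAt.mpr).comp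
    imL.continuous_of_finiteDimensional).subtype_mk _

theorem op_eq3 : OP eq3 where
  cont i := continuous_eU.comp (continuous_id.smul continuous_const)
  add i s t := Subtype.ext (by
    rw [U.coe_mul, eq3, eq3, eq3, coe_eU, coe_eU, coe_eU, map_smul, map_smul, map_smul, add_smul,
      exp_add_of_commute (((Commute.refl _).smul_left s).smul_right t)])

/-- the complex coordinates `z₁`, `conj z₁`, `z₂`, `conj z₂` of `z₁ + z₂ j` -/
def zH : Fin 4 → H → ℂ :=
  ![fun q => ⟨c0 q, c1 q⟩, fun q => ⟨c0 q, -c1 q⟩, fun q => ⟨c2 q, c3 q⟩, fun q => ⟨c2 q, -c3 q⟩]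

/-- restrictions of real linear maps `H → ℂ` -/
def PP : Submodule ℂ (U → ℂ) where
  carrier := {f | ∃ l : H →ₗ[ℝ] ℂ, ∀ x, f x = l x}
  zero_mem' := ⟨0, fun _ => rfl⟩
  add_mem' := by
    rintro f g ⟨l, hl⟩ ⟨l', hl'⟩
    exact ⟨l + l', fun x => by simp [hl, hl']⟩
  smul_mem' := by
    rintro c f ⟨l, hl⟩
    exact ⟨c • l, fun x => by simp [hl]⟩

theorem mem_PP {f : U → ℂ} : f ∈ PP ↔ ∃ l : H →ₗ[ℝ] ℂ, ∀ x, f x = l x := Iff.rfl

theorem H.expand (q : H) : q = c0 q • (1 : H) + c1 q • qi.1 + c2 q • qj.1 + c3 q • qk.1 := by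
  apply H.ext <;> simp

theorem zH_mem (a : Fin 4) : (fun x : U => zH a x) ∈ PP := by
  refine ⟨⟨⟨zH a, fun q r => ?_⟩, fun r q => ?_⟩, fun _ => rfl⟩ <;> fin_cases a <;>
    apply Complex.ext <;> simp [zH, add_comm]

theorem PP_eq : PP = Submodule.span ℂ (range fun (a : Fin 4) (x : U) => zH a x) := by
  refine le_antisymm ?_ (Submodule.span_le.mpr (by rintro _ ⟨a, rfl⟩; exact zH_mem a))
  rintro f ⟨l, hl⟩
  rw [Submodule.mem_span_range_iff_exists_fun]
  refine ⟨![(l 1 - Complex.I * l qi) / 2, (l 1 + Complex.I * l qi) / 2,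
    (l qj - Complex.I * l qk) / 2, (l qj + Complex.I * l qk) / 2], funext fun x => ?_⟩
  rw [hl, H.expand x]
  simp only [map_add, map_smul, Fin.sum_univ_four, zH]
  apply Complex.ext <;> simp <;> ring

theorem PP_fg : PP.FG := PP_eq ▸ Submodule.fg_span (finite_range _)

instance (k : ℕ) : FiniteDimensional ℂ ↥(PP ^ k) := Module.Finite.iff_fg.mpr (PP_fg.pow k)

/-- the action of `U × U` on functions -/
def act (p : U × U) : (U → ℂ) →ₐ[ℂ] (U → ℂ) where
  toFun f x := f (p.1⁻¹ * x * p.2)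
  map_one' := rfl
  map_mul' _ _ := rfl
  map_zero' := rfl
  map_add' _ _ := rfl
  commutes' _ := rfl

theorem act_apply (p : U × U) (f : U → ℂ) (x : U) : act p f x = f (p.1⁻¹ * x * p.2) := rfl

theorem act_one (f : U → ℂ) : act 1 f = f := by
  funext x
  simp [act_apply]

theorem act_mul (p q : U × U) (f : U → ℂ) : act (p * q) f = act p (act q f) := by
  funext x
  simp [act_apply, mul_assoc]

theorem act_PP (p : U × U) {f : U → ℂ} (hf : f ∈ PP) : act p f ∈ PP := by
  obtain ⟨l, hl⟩ := hf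
  exact ⟨l ∘ₗ LinearMap.mulRight ℝ p.2.1 ∘ₗ LinearMap.mulLeft ℝ (star p.1.1), fun x => hl _⟩

theorem act_pow (p : U × U) (k : ℕ) : ∀ f ∈ PP ^ k, (act p).toLinearMap f ∈ PP ^ k := by
  intro f hf
  have h : (PP ^ k).map (act p).toLinearMap ≤ PP ^ k := by
    rw [Submodule.map_pow]
    exact pow_le_pow_left' (by rintro _ ⟨f, hf, rfl⟩; exact act_PP p hf) k
  exact h ⟨f, hf, rfl⟩

/-- the trace of the action on homogeneous polynomials of degree `k` -/
def tP (k : ℕ) (p : U × U) : ℂ :=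
  LinearMap.trace ℂ _ ((act p).toLinearMap.restrict (act_pow p k))

/-- the multiples of the norm form among polynomials of degree `k` -/
def QQ : ℕ → Submodule ℂ (U → ℂ)
  | 0 => ⊥
  | 1 => ⊥
  | k + 2 => PP ^ k

/-- invariant functions -/
def InvU (Γ : Subgroup (U × U)) : Submodule ℂ (U → ℂ) where
  carrier := {f | ∀ p ∈ Γ, act p f = f}
  zero_mem' _ _ := rfl
  add_mem' hf hg p hp := by rw [map_add, hf p hp, hg p hp]
  smul_mem' c f hf p hp := by rw [map_smul, hf p hp]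

theorem mem_InvU {Γ : Subgroup (U × U)} {f : U → ℂ} : f ∈ InvU Γ ↔ ∀ p ∈ Γ, act p f = f := Iff.rfl

end

end Pool.Agent.P.MP_e311cd_gt
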