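import Pool.Agent.P.MP_e311cd_gt.I.St

/-! Assembly of the three dimensional case. -/

namespace Pool.Agent.P.MP_e311cd_gt

open Set

theorem ikeda (hNF : S_NF) (hDP : S_DP2) (hCmp : S_Cmp) (hM2 : S_M2) (hL1 : S_Lens1)
    (hL : S_Lens) {Γ₁ Γ₂ : Subgroup (U × U)} (f₁ : FreeG Γ₁) (f₂ : FreeG Γ₂)
    (h : ∀ k, mk Γ₁ k = mk Γ₂ k) : Equi Γ₁ Γ₂ := by
  obtain ⟨Δ₁, e₁, n₁⟩ := hNF Γ₁ f₁
  obtain ⟨Δ₂, e₂, n₂⟩ := hNF Γ₂ f₂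
  have g₁ := e₁.freeG f₁
  have g₂ := e₂.freeG f₂
  have h' : ∀ k, mk Δ₁ k = mk Δ₂ k := fun k => by rw [← e₁.mk_eq, ← e₂.mk_eq, h]
  obtain ⟨c1, c2, c3⟩ := hDP Δ₁ Δ₂ g₁ g₂ h'
  have ab : ∀ Δ, FreeG Δ → Ab Δ → mk Δ 2 ≠ 0 := fun Δ g a => by
    rw [hL1 Δ g.fin a 2, Nat.cast_ne_zero]
    refine ncard_ne_zero_of_mem (a := (0, 0)) ⟨fun _ _ _ => by simp, by simp [sup2]⟩
      (((finite_Icc (-2 : ℤ) 2).prod (finite_Icc (-2 : ℤ) 2)).subset ?_)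
    rintro v ⟨-, hv, -⟩
    simp only [sup2, max_le_iff, abs_le] at hv
    exact hv
  refine e₁.trans (Equi.trans ?_ e₂.symm)
  rcases n₁ with n₁ | n₁ <;> rcases n₂ with n₂ | n₂
  · exact hL Δ₁ Δ₂ g₁ g₂ n₁ n₂ h' c1
  · exact absurd ((h' 2).trans (hM2 Δ₂ g₂ n₂)) (ab Δ₁ g₁ n₁)
  · exact absurd ((h' 2).symm.trans (hM2 Δ₁ g₁ n₁)) (ab Δ₂ g₂ n₂)
  · rw [hCmp Δ₁ Δ₂ g₁ g₂ n₁ n₂ c1 c2 (c3 _ (by norm_num)) (c3 _ (by norm_num))]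
    exact Equi.refl _

theorem asm3 (hRho : S_Rho) (hPi : S_Pi) (hIso : S_IsoK) (hLift : S_Lift) (hDesc : S_Desc)
    (hHarm : S_Harm) (hDim : S_Dim) (hP1 : S_Pull1) (hP2 : S_Pull2)
    (hI : ∀ Γ₁ Γ₂, FreeG Γ₁ → FreeG Γ₂ → (∀ k, mk Γ₁ k = mk Γ₂ k) → Equi Γ₁ Γ₂)
    {n : ℕ} {K : Subgroup (Matrix.unitaryGroup (Fin n) ℂ)} {k : Submodule ℝ (Mat n)}
    (h : IsSimpleGroup K k) (hd : Module.finrank ℝ k ≤ 3) : ¬Covers K k := by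
  rintro ⟨Γ₁, Γ₂, d₁, d₂, hs, hn⟩
  obtain ⟨ρ, c, r⟩ := hRho _ k h.sa hd
  obtain ⟨π, cv⟩ := hPi n K k h ρ c r
  have lift : ∀ Γ, IsDeck Γ → FreeG (Γ.comap (Phi π)) ∧ ∀ g ∈ Γ, ∃ p, g = Phi π p :=
    fun Γ d => hLift K π cv.surj cv.ker Γ d.finite d.free fun g hg =>
      hIso n K k h π ρ c cv g (d.isom g hg)
  obtain ⟨f₁, p₁⟩ := lift Γ₁ d₁
  obtain ⟨f₂, p₂⟩ := lift Γ₂ d₂
  refine hn (hDesc n K k h π Γ₁ Γ₂ p₁ p₂ (hI _ _ f₁ f₂ fun j => ?_))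
  have fd : ∀ W : Submodule ℂ (U → ℂ), FiniteDimensional ℂ ↥(WE eq3 (j * (j + 2)) ⊓ W) :=
    fun W => Submodule.finiteDimensional_of_le (S₂ := PP ^ j)
      (inf_le_left.trans (le_sup_left.trans (hHarm j).2.1.le))
  have fk : FiniteDimensional ℂ ↥(WE (fun i t => π (eq3 i t)) (j * (j + 2))) := by
    obtain ⟨φ⟩ := hP1 K π cv.cont cv.surj ⊥ (fun g hg => ⟨1, by rw [map_one]; exact hg⟩)
      (j * (j + 2))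
    have := fd (InvU ((⊥ : Subgroup (Equiv.Perm K)).comap (Phi π)))
    have := φ.symm.finiteDimensional
    exact Submodule.finiteDimensional_of_le (S₂ := _ ⊓ Inv ⊥)
      (le_inf le_rfl fun f _ g hg x => by rw [Subgroup.mem_bot.mp hg]; rfl)
  obtain ⟨φ₁⟩ := hP1 K π cv.cont cv.surj Γ₁ p₁ (j * (j + 2))
  obtain ⟨φ₂⟩ := hP1 K π cv.cont cv.surj Γ₂ p₂ (j * (j + 2))
  have e := hs (j * (j + 2) / c ^ 2)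
  rw [hP2 n K k h π ρ c cv _ fk, hP2 n K k h π ρ c cv _ fk] at e
  rw [← hDim _ f₁.fin, ← hDim _ f₂.fin, ← φ₁.finrank_eq, ← φ₂.finrank_eq, Module.finrank,
    Module.finrank, e]

end Pool.Agent.P.MP_e311cd_gt
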