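import Pool.Agent.P.MP_e311cd_gt.I.St

/-! Reduced bases of planar lattices. -/

namespace Pool.Agent.P.MP_e311cd_gt

namespace BasI

/-- the two vectors generate the lattice -/
def Sp (Λ : AddSubgroup (ℤ × ℤ)) (x₁ y₁ x₂ y₂ : ℤ) : Prop :=
  ∀ v, v ∈ Λ ↔ ∃ m n : ℤ, v = (m * x₁ + n * x₂, m * y₁ + n * y₂)

/-- generators whose determinant is the index -/
def Gen (Λ : AddSubgroup (ℤ × ℤ)) (x₁ y₁ x₂ y₂ : ℤ) : Prop :=
  Sp Λ x₁ y₁ x₂ y₂ ∧ |x₁ * y₂ - y₁ * x₂| = Λ.index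

theorem Sp.change {Λ : AddSubgroup (ℤ × ℤ)} {x₁ y₁ x₂ y₂ : ℤ} (h : Sp Λ x₁ y₁ x₂ y₂)
    {a b c d : ℤ} (hd : a * d - b * c = 1 ∨ a * d - b * c = -1) :
    Sp Λ (a * x₁ + b * x₂) (a * y₁ + b * y₂) (c * x₁ + d * x₂) (c * y₁ + d * y₂) := by
  intro v
  rw [h v]
  have he : (a * d - b * c) * (a * d - b * c) = 1 := by
    rcases hd with hd | hd <;> rw [hd] <;> norm_num
  constructor
  · rintro ⟨m, n, rfl⟩
    refine ⟨(a * d - b * c) * (m * d - n * c), (a * d - b * c) * (n * a - m * b), ?_⟩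
    refine Prod.ext ?_ ?_
    · show m * x₁ + n * x₂ = _
      linear_combination (-(m * x₁ + n * x₂)) * he
    · show m * y₁ + n * y₂ = _
      linear_combination (-(m * y₁ + n * y₂)) * he
  · rintro ⟨m, n, rfl⟩
    refine ⟨m * a + n * c, m * b + n * d, ?_⟩
    refine Prod.ext ?_ ?_ <;> simp only <;> ring

theorem Gen.change {Λ : AddSubgroup (ℤ × ℤ)} {x₁ y₁ x₂ y₂ : ℤ} (h : Gen Λ x₁ y₁ x₂ y₂)
    {a b c d : ℤ} (hd : a * d - b * c = 1 ∨ a * d - b * c = -1) :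
    Gen Λ (a * x₁ + b * x₂) (a * y₁ + b * y₂) (c * x₁ + d * x₂) (c * y₁ + d * y₂) := by
  refine ⟨h.1.change hd, ?_⟩
  have e : (a * x₁ + b * x₂) * (c * y₁ + d * y₂) - (a * y₁ + b * y₂) * (c * x₁ + d * x₂) =
      (a * d - b * c) * (x₁ * y₂ - y₁ * x₂) := by ring
  rw [e, abs_mul, h.2]
  rcases hd with hd | hd <;> rw [hd] <;> simp

theorem exists_gen (Λ : AddSubgroup (ℤ × ℤ)) (h : Λ.index ≠ 0) :
    ∃ x₁ y₁ x₂ y₂ : ℤ, Gen Λ x₁ y₁ x₂ y₂ := by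
  have : Λ.FiniteIndex := ⟨h⟩
  have hf : Module.Finite ℤ Λ := inferInstanceAs (Module.Finite ℤ Λ.toIntSubmodule)
  have hr : Module.finrank ℤ Λ = 2 := by
    rw [AddSubgroup.finrank_eq_of_finiteIndex Λ]
    simp
  let b : Module.Basis (Fin 2) ℤ Λ := Module.finBasisOfFinrankEq ℤ Λ hr
  refine ⟨(b 0).1.1, (b 0).1.2, (b 1).1.1, (b 1).1.2, fun v => ⟨fun hv => ?_, ?_⟩, ?_⟩
  · refine ⟨b.repr ⟨v, hv⟩ 0, b.repr ⟨v, hv⟩ 1, ?_⟩
    have h1 := congrArg Subtype.val (b.sum_repr ⟨v, hv⟩)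
    rw [Fin.sum_univ_two] at h1
    simp only [AddSubgroup.coe_add, AddSubgroupClass.coe_zsmul] at h1
    exact h1.symm
  · rintro ⟨m, n, rfl⟩
    exact Λ.add_mem (Λ.zsmul_mem (b 0).2 m) (Λ.zsmul_mem (b 1).2 n)
  · rw [AddSubgroup.index_eq_natAbs_det (Module.Basis.finTwoProd ℤ) Λ b, Int.natCast_natAbs,
      Module.Basis.det_apply, Matrix.det_fin_two]
    simp only [Module.Basis.toMatrix_apply, Module.Basis.coe_finTwoProd_repr,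
      Matrix.cons_val_zero, Matrix.cons_val_one]
    congr 1
    ring

theorem inj {x₁ y₁ x₂ y₂ : ℤ} (h : x₁ * y₂ - y₁ * x₂ ≠ 0) :
    Function.Injective fun w : ℤ × ℤ => (w.1 * x₁ + w.2 * x₂, w.1 * y₁ + w.2 * y₂) := by
  intro u w e
  have e1 : u.1 * x₁ + u.2 * x₂ = w.1 * x₁ + w.2 * x₂ := congrArg Prod.fst e
  have e2 : u.1 * y₁ + u.2 * y₂ = w.1 * y₁ + w.2 * y₂ := congrArg Prod.snd e
  refine Prod.ext (mul_right_cancel₀ h ?_) (mul_right_cancel₀ h ?_)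
  · linear_combination y₂ * e1 - x₂ * e2
  · linear_combination x₁ * e2 - y₁ * e1

theorem nm {x₁ y₁ x₂ y₂ : ℤ} (h : x₁ * y₂ - y₁ * x₂ ≠ 0)
    (r1 : max |x₁| |y₁| ≤ max |x₂| |y₂|) (r2 : max |x₂| |y₂| ≤ max |x₁ + x₂| |y₁ + y₂|)
    (r3 : max |x₁ + x₂| |y₁ + y₂| ≤ max |-x₁ + x₂| |-y₁ + y₂|) : Nm (Nv x₁ y₁ x₂ y₂) := by
  refine ⟨fun u v => ?_, fun k v => ?_, fun t => ?_, ?_, ?_, ?_⟩
  · unfold Nv
    refine max_le ?_ ?_
    · refine le_trans (le_of_eq ?_) ((abs_add_le _ _).trans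
        (add_le_add (le_max_left _ _) (le_max_left _ _)))
      congr 1
      simp only [Prod.fst_add, Prod.snd_add]
      ring
    · refine le_trans (le_of_eq ?_) ((abs_add_le _ _).trans
        (add_le_add (le_max_right _ _) (le_max_right _ _)))
      congr 1
      simp only [Prod.fst_add, Prod.snd_add]
      ring
  · unfold Nv
    rw [mul_max_of_nonneg _ _ (abs_nonneg k), ← abs_mul, ← abs_mul]
    congr 2 <;> simp only [Prod.smul_fst, Prod.smul_snd, smul_eq_mul] <;> ring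
  · refine (((Set.finite_Icc (-t) t).prod (Set.finite_Icc (-t) t)).preimage
      (inj h).injOn).subset fun w hw => ?_
    have hw' : max |w.1 * x₁ + w.2 * x₂| |w.1 * y₁ + w.2 * y₂| = t := hw
    exact ⟨abs_le.1 (hw' ▸ le_max_left _ _), abs_le.1 (hw' ▸ le_max_right _ _)⟩
  · simpa [Nv] using r1
  · simpa [Nv] using r2
  · simpa only [Nv, one_mul, neg_mul] using r3

theorem exists_min (Λ : AddSubgroup (ℤ × ℤ)) (h : Λ.index ≠ 0) :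
    ∃ x₁ y₁ x₂ y₂ : ℤ, Gen Λ x₁ y₁ x₂ y₂ ∧ max |x₁| |y₁| ≤ max |x₂| |y₂| ∧
      max |x₂| |y₂| ≤ max |x₁ + x₂| |y₁ + y₂| ∧ max |x₂| |y₂| ≤ max |-x₁ + x₂| |-y₁ + y₂| := by
  obtain ⟨s, ⟨x₁, y₁, x₂, y₂, hg, hs⟩, hmin⟩ := Int.exists_least_of_bdd
    (P := fun s => ∃ x₁ y₁ x₂ y₂ : ℤ, Gen Λ x₁ y₁ x₂ y₂ ∧ max |x₁| |y₁| + max |x₂| |y₂| = s)
    ⟨0, fun z ⟨x₁, y₁, x₂, y₂, _, hz⟩ => hz ▸ add_nonneg ((abs_nonneg _).trans (le_max_left _ _))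
      ((abs_nonneg _).trans (le_max_left _ _))⟩
    (by
      obtain ⟨x₁, y₁, x₂, y₂, hg⟩ := exists_gen Λ h
      exact ⟨_, x₁, y₁, x₂, y₂, hg, rfl⟩)
  have key : ∀ x₁ y₁ x₂ y₂ : ℤ, Gen Λ x₁ y₁ x₂ y₂ → max |x₁| |y₁| + max |x₂| |y₂| = s →
      max |x₂| |y₂| ≤ max |x₁ + x₂| |y₁ + y₂| ∧ max |x₂| |y₂| ≤ max |-x₁ + x₂| |-y₁ + y₂| := by
    intro x₁ y₁ x₂ y₂ hg hs
    have h1 := hmin _ ⟨_, _, _, _, hg.change (a := 1) (b := 0) (c := 1) (d := 1) (by norm_num), rfl⟩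
    have h2 := hmin _ ⟨_, _, _, _, hg.change (a := 1) (b := 0) (c := -1) (d := 1) (by norm_num),
      rfl⟩
    simp only [one_mul, zero_mul, add_zero, neg_mul] at h1 h2
    constructor <;> linarith
  rcases le_total (max |x₁| |y₁|) (max |x₂| |y₂|) with hle | hle
  · exact ⟨x₁, y₁, x₂, y₂, hg, hle, key _ _ _ _ hg hs⟩
  · have hg' := hg.change (a := 0) (b := 1) (c := 1) (d := 0) (by norm_num)
    simp only [one_mul, zero_mul, add_zero, zero_add] at hg'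
    exact ⟨x₂, y₂, x₁, y₁, hg', hle, key _ _ _ _ hg' (by rw [add_comm]; exact hs)⟩

theorem spc {Λ : AddSubgroup (ℤ × ℤ)} {x₁ y₁ x₂ y₂ : ℤ} (hs : Sp Λ x₁ y₁ x₂ y₂)
    (h : x₁ * y₂ - y₁ * x₂ ≠ 0) (t : ℤ) :
    {w | Nv x₁ y₁ x₂ y₂ w = t}.ncard = {v | v ∈ Λ ∧ sup2 v = t}.ncard := by
  rw [← Set.ncard_image_of_injective _ (inj h)]
  congr 1
  ext v
  constructor
  · rintro ⟨w, hw, rfl⟩
    exact ⟨(hs _).2 ⟨w.1, w.2, rfl⟩, hw⟩
  · rintro ⟨hv, ht⟩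
    obtain ⟨m, n, rfl⟩ := (hs v).1 hv
    exact ⟨(m, n), ht, rfl⟩

end BasI

open BasI

theorem bas : S_Bas := by
  intro Λ h
  obtain ⟨x₁, y₁, x₂, y₂, hg, r1, r2, r3⟩ := exists_min Λ h
  have hne : ∀ {x₁ y₁ x₂ y₂ : ℤ}, Gen Λ x₁ y₁ x₂ y₂ → x₁ * y₂ - y₁ * x₂ ≠ 0 := by
    intro x₁ y₁ x₂ y₂ hg e
    have := hg.2
    rw [e, abs_zero] at this
    exact h (by exact_mod_cast this.symm)
  rcases le_total (max |x₁ + x₂| |y₁ + y₂|) (max |-x₁ + x₂| |-y₁ + y₂|) with hle | hle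
  · exact ⟨x₁, y₁, x₂, y₂, hg.1, hg.2, nm (hne hg) r1 r2 hle⟩
  · have hg' := hg.change (a := -1) (b := 0) (c := 0) (d := 1) (by norm_num)
    simp only [one_mul, zero_mul, add_zero, zero_add, neg_mul] at hg'
    refine ⟨-x₁, -y₁, x₂, y₂, hg'.1, hg'.2, nm (hne hg') ?_ r3 ?_⟩
    · rwa [abs_neg, abs_neg]
    · rwa [neg_neg, neg_neg]

theorem lat (hB : S_Bas) (hP : S_Prim) (hC : S_Core) : S_Lat := by
  intro Λ₁ Λ₂ h₁ h₁₂ hs
  have h₂ : Λ₂.index ≠ 0 := h₁₂ ▸ h₁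
  obtain ⟨x₁, y₁, x₂, y₂, g, e, n⟩ := hB Λ₁ h₁
  obtain ⟨x₁', y₁', x₂', y₂', g', e', n'⟩ := hB Λ₂ h₂
  have d : x₁ * y₂ - y₁ * x₂ ≠ 0 := fun z => by
    rw [z, abs_zero] at e
    exact h₁ (by exact_mod_cast e.symm)
  have d' : x₁' * y₂' - y₁' * x₂' ≠ 0 := fun z => by
    rw [z, abs_zero] at e'
    exact h₂ (by exact_mod_cast e'.symm)
  have hS : Spc (Nv x₁ y₁ x₂ y₂) (Nv x₁' y₁' x₂' y₂') := fun t => by
    rw [spc g d t, spc g' d' t, hs t]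
  obtain ⟨a, b, c, d, s, t, hd, hs1, ht1, hh⟩ := hC _ _ _ _ _ _ _ _ n n' (hP _ _ n n' hS)
    (by rw [e, e', h₁₂])
  have g2 := Sp.change g hd
  have hs0 : s ≠ 0 := by rcases hs1 with rfl | rfl <;> norm_num
  have ht0 : t ≠ 0 := by rcases ht1 with rfl | rfl <;> norm_num
  refine ⟨s, t, hs1, ht1, ?_⟩
  rcases hh with ⟨e1, e2, e3, e4⟩ | ⟨e1, e2, e3, e4⟩
  · left
    intro j l
    rw [g2, g', e1, e2, e3, e4]
    refine exists_congr fun m => exists_congr fun n => ?_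
    simp only [Prod.mk.injEq]
    constructor
    · rintro ⟨rfl, rfl⟩
      constructor <;> ring
    · rintro ⟨p, q⟩
      exact ⟨mul_left_cancel₀ hs0 (by linear_combination p),
        mul_left_cancel₀ ht0 (by linear_combination q)⟩
  · right
    intro j l
    rw [g2, g', e1, e2, e3, e4]
    refine exists_congr fun m => exists_congr fun n => ?_
    simp only [Prod.mk.injEq]
    constructor
    · rintro ⟨rfl, rfl⟩
      constructor <;> ring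
    · rintro ⟨p, q⟩
      exact ⟨mul_left_cancel₀ hs0 (by linear_combination q),
        mul_left_cancel₀ ht0 (by linear_combination p)⟩

end Pool.Agent.P.MP_e311cd_gt
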