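import Pool.Agent.P.MP_e311cd_gt.I.St

/-! Classification: dihedral and tetrahedral types, the quaternion frame. -/

namespace Pool.Agent.P.MP_e311cd_gt

open Set

namespace ClsDI

/-- the conjugate of a subgroup -/
theorem cj (A : Subgroup U) (c : U) : ∃ A' : Subgroup U, (∀ a, a ∈ A ↔ c * a * c⁻¹ ∈ A') ∧
    (∀ b, b ∈ A' ↔ c⁻¹ * b * c ∈ A) ∧ Nat.card A' = Nat.card A := by
  have h : ∀ a, a ∈ A ↔ c * a * c⁻¹ ∈ A.comap (MulAut.conj c⁻¹).toMonoidHom := fun a => by
    simp [mul_assoc]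
  refine ⟨A.comap (MulAut.conj c⁻¹).toMonoidHom, h, fun b => by simp, ?_⟩
  exact (Nat.card_congr ((MulAut.conj c).toEquiv.subtypeEquiv (p := (· ∈ A))
    (q := (· ∈ A.comap (MulAut.conj c⁻¹).toMonoidHom)) h)).symm

/-- the elements of `A` on the circle -/
def cir (A : Subgroup U) : Subgroup U where
  carrier := {a | a ∈ A ∧ Circ a}
  mul_mem' h h' := ⟨A.mul_mem h.1 h'.1, h.2.mul h'.2⟩
  one_mem' := ⟨A.one_mem, Circ.one⟩
  inv_mem' h := ⟨A.inv_mem h.1, h.2.inv⟩

theorem anti {a : U} (h : a * qi = -(qi * a)) : c0 a = 0 ∧ c1 a = 0 := by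
  obtain ⟨h0, h1, -, -⟩ := U.eq_iff.mp h
  simp at h0 h1
  constructor <;> linarith

theorem conj_circ {d x : U} (hd : Circ d) (hx : Circ x) : d * x * d⁻¹ = x := by
  rw [(hd.comm hx).eq, mul_inv_cancel_right]

theorem conj_circ' {d x : U} (hd : Circ d) (hx : Circ (d * x * d⁻¹)) : d * x * d⁻¹ = x := by
  have := conj_circ hd.inv hx
  rw [← this]
  group

theorem clsD_qi {A : Subgroup U} {n : ℕ} (hn : 2 ≤ n) (hA : Nat.card A = 4 * n)
    (hB : {a | a ∈ A ∧ Circ a}.ncard = 2 * n)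
    (h : ∀ a ∈ A, Circ a ∨ (c0 a = 0 ∧ c1 a = 0)) : CjTo A (SD n) := by
  have hc : Nat.card (cir A) = 2 * n := hB
  have : Finite (cir A) := Nat.finite_of_card_ne_zero (by omega)
  have hr : ∀ b, b ∈ A ∧ Circ b ↔ Circ b ∧ b ^ (2 * n) = 1 := fun b => by
    have := mem_iff_root (B := cir A) (fun b hb => hb.2) (b := b)
    rwa [hc] at this
  obtain ⟨g, hg, hg'⟩ : ∃ g ∈ A, ¬ Circ g := by
    by_contra hh
    push Not at hh
    have e : {a | a ∈ A ∧ Circ a} = (A : Set U) := by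
      ext a
      exact ⟨fun h => h.1, fun h => ⟨h, hh a h⟩⟩
    rw [e] at hB
    have : Nat.card A = 2 * n := hB
    omega
  obtain ⟨g0, g1⟩ := (h g hg).resolve_left hg'
  obtain ⟨d, hd, hd'⟩ := exists_sqrt (qj * g⁻¹)
  have hd2 := hd' (by constructor <;> simp [g0, g1])
  have e : g * d⁻¹ = d * g := by apply U.ext <;> simp [g0, g1, hd2.1, hd2.2] <;> ring
  have hj : d * g * d⁻¹ = qj := by rw [mul_assoc, e, ← mul_assoc, hd]; group
  have hm : ∀ a : U, d * a * d⁻¹ * qj = d * (a * g) * d⁻¹ := fun a => by rw [← hj]; group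
  refine ⟨d, fun a => ⟨fun ha => ?_, fun ha => ?_⟩⟩
  · rcases h a ha with h1 | ⟨a0, a1⟩
    · left
      rw [conj_circ hd2 h1]
      exact (hr a).mp ⟨ha, h1⟩
    · right
      have h1 : Circ (a * g) := by constructor <;> simp [a0, a1, g0, g1]
      rw [hm, conj_circ hd2 h1]
      exact (hr _).mp ⟨A.mul_mem ha hg, h1⟩
  · rcases ha with h1 | h1
    · have := ((hr _).mpr h1).1
      rwa [conj_circ' hd2 h1.1] at this
    · rw [hm] at h1
      have := ((hr _).mpr h1).1
      rw [conj_circ' hd2 h1.1] at this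
      exact (A.mul_mem_cancel_right hg).mp this

theorem CjTo.of_conj {A A' : Subgroup U} {c : U} (h : ∀ a, a ∈ A ↔ c * a * c⁻¹ ∈ A') {S : Set U}
    (h' : CjTo A' S) : CjTo A S := by
  obtain ⟨d, hd⟩ := h'
  refine ⟨d * c, fun a => ?_⟩
  rw [h, hd]
  have : d * (c * a * c⁻¹) * d⁻¹ = d * c * a * (d * c)⁻¹ := by group
  rw [this]

end ClsDI

open ClsDI

theorem clsD : S_ClsD := by
  rintro A n ⟨hn, hA, u, hu, hB, h⟩
  obtain ⟨c, hc⟩ := conj_of_re (a := u) (b := qi) hu
  obtain ⟨A', h1, h2, h3⟩ := cj A c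
  have k1 : ∀ a : U, a * u = u * a ↔ Circ (c * a * c⁻¹) := fun a => by
    rw [circ_iff, ← hc]
    constructor
    · intro e
      calc c * a * c⁻¹ * (c * u * c⁻¹) = c * (a * u) * c⁻¹ := by group
        _ = _ := by rw [e]; group
    · intro e
      calc a * u = c⁻¹ * (c * a * c⁻¹ * (c * u * c⁻¹)) * c := by group
        _ = _ := by rw [e]; group
  refine CjTo.of_conj h1 (clsD_qi hn (h3.trans hA) ?_ fun b hb => ?_)
  · rw [← hB, ← ncard_image_of_injective {a | a ∈ A ∧ a * u = u * a} (MulAut.conj c).injective]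
    congr 1
    ext b
    constructor
    · rintro ⟨hb, hb'⟩
      refine ⟨c⁻¹ * b * c, ⟨(h2 b).mp hb, (k1 _).mpr ?_⟩, by simp [mul_assoc]⟩
      simpa [mul_assoc] using hb'
    · rintro ⟨a, ⟨ha, ha'⟩, rfl⟩
      exact ⟨(h1 a).mp ha, (k1 a).mp ha'⟩
  · rcases h _ ((h2 b).mp hb) with e | e
    · left
      simpa [mul_assoc] using (k1 _).mp e
    · right
      apply anti
      calc b * qi = c * (c⁻¹ * b * c * u) * c⁻¹ := by rw [← hc]; group
        _ = -(qi * b) := by
          rw [e, ← hc, mul_neg, neg_mul]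
          congr 1
          group

theorem q8 : S_Q8 := by
  intro A hf h8 h
  have : Fact (Nat.Prime 2) := ⟨Nat.prime_two⟩
  obtain ⟨K, hK⟩ := Sylow.exists_subgroup_card_pow_prime (G := A) 2 (n := 3) h8
  set P := K.map A.subtype with hP
  have hc : Nat.card P = 8 := by
    rw [hP, Subgroup.card_map_of_injective A.subtype_injective, hK]
    rfl
  have hPA : P ≤ A := Subgroup.map_subtype_le K
  have hp : ∀ a ∈ P, (a = 1 ∨ a = -1) ∨ c0 a = 0 := fun a ha => by
    have e : a ^ (2 * (2 + 2)) = 1 := by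
      have := congrArg Subtype.val (pow_card_eq_one' (x := (⟨a, ha⟩ : P)))
      rwa [hc] at this
    rcases U.chi_eq_zero e with e | e
    · exact Or.inl (U.re_sq_eq_one.mp e)
    · right
      simp only [chi] at e
      have e2 : c0 a * (c0 a ^ 2 - 1 / 2) = 0 := by linear_combination e / 8
      exact (mul_eq_zero.mp e2).resolve_right (sub_ne_zero.mpr (h a (hPA ha)))
  have out : ∀ u : U, ∃ v ∈ P, v ∉ ({1, -1, u, -u} : Set U) := fun u => by
    by_contra hh
    push Not at hh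
    have h1 := ncard_le_ncard (s := (P : Set U)) (t := {1, -1, u, -u}) hh (toFinite _)
    have h2 : (P : Set U).ncard = 8 := hc
    have h3 := ncard_insert_le (1 : U) {-1, u, -u}
    have h4 := ncard_insert_le (-1 : U) {u, -u}
    have h5 := ncard_insert_le u {-u}
    rw [ncard_singleton] at h5
    omega
  obtain ⟨u, hu, hu'⟩ := out 1
  obtain ⟨v, hv, hv'⟩ := out u
  simp only [mem_insert_iff, mem_singleton_iff, not_or] at hu' hv'
  have u0 : c0 u = 0 := (hp u hu).resolve_left (not_or.mpr ⟨hu'.1, hu'.2.1⟩)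
  have v0 : c0 v = 0 := (hp v hv).resolve_left (not_or.mpr ⟨hv'.1, hv'.2.1⟩)
  refine ⟨u, hPA hu, v, hPA hv, u0, v0, (hp _ (P.mul_mem hu hv)).resolve_left ?_⟩
  have uu := U.mul_self_eq_neg_one.mpr u0
  rintro (e | e)
  · exact hv'.2.2.2 (mul_left_cancel (a := u) (by rw [e, mul_neg, uu, neg_neg]))
  · exact hv'.2.2.1 (mul_left_cancel (a := u) (by rw [e, uu]))

theorem clsT (hC : S_Crd) (hQ : S_Q8) : S_ClsT := by
  rintro A ⟨hA, h⟩
  have hf : Finite A := Nat.finite_of_card_ne_zero (by omega)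
  obtain ⟨u, hu, v, hv, u0, v0, w0⟩ := hQ A hf (by rw [hA]; norm_num) fun a ha e => by
    rcases h a ha with h1 | h1 | h1
    · rw [h1] at e; norm_num at e
    · linarith
    · linarith
  obtain ⟨c, hi, hj⟩ := frame u0 v0 w0
  obtain ⟨A', h1, h2, h3⟩ := cj A c
  have h' : ∀ b ∈ A', c0 b ^ 2 = 0 ∨ c0 b ^ 2 = 1 / 4 ∨ c0 b ^ 2 = 1 := fun b hb => by
    have e := U.c0_conj c⁻¹ b
    rw [inv_inv] at e
    rcases h _ ((h2 b).mp hb) with h1 | h1
    · left
      rw [← e, h1]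
      norm_num
    · right
      rwa [e] at h1
  have mi : qi ∈ A' := hi ▸ (h1 u).mp hu
  have mj : qj ∈ A' := hj ▸ (h1 v).mp hv
  have sub : (A' : Set U) ⊆ ST := fun b hb => by
    have s := b.sq
    have a0 := h' b hb
    have a1 := h' _ (A'.mul_mem hb mi)
    have a2 := h' _ (A'.mul_mem hb mj)
    have a3 := h' _ (A'.mul_mem (A'.mul_mem hb mi) mj)
    have e1 : c0 (b * qi).1 ^ 2 = c1 b ^ 2 := by simp
    have e2 : c0 (b * qj).1 ^ 2 = c2 b ^ 2 := by simp
    have e3 : c0 (b * qi * qj).1 ^ 2 = c3 b ^ 2 := by simp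
    rw [e1] at a1
    rw [e2] at a2
    rw [e3] at a3
    by_cases hq : b ∈ SQ
    · exact Or.inl hq
    · right
      simp only [SQ, mem_ofPred_eq, not_or] at hq
      obtain ⟨q0, q1, q2, q3⟩ := hq
      have b0 : c0 b ^ 2 ≤ 1 / 4 := by
        rcases a0 with a | a | a <;> first | linarith | exact (q0 a).elim
      have b1 : c1 b ^ 2 ≤ 1 / 4 := by
        rcases a1 with a | a | a <;> first | linarith | exact (q1 a).elim
      have b2 : c2 b ^ 2 ≤ 1 / 4 := by
        rcases a2 with a | a | a <;> first | linarith | exact (q2 a).elim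
      have b3 : c3 b ^ 2 ≤ 1 / 4 := by
        rcases a3 with a | a | a <;> first | linarith | exact (q3 a).elim
      exact ⟨by linarith, by linarith, by linarith, by linarith⟩
  have e : (A' : Set U) = ST := eq_of_subset_of_ncard_le sub (by
    have : (A' : Set U).ncard = 24 := h3.trans hA
    rw [this]
    exact hC.2.1.2) hC.2.1.1
  exact ⟨c, fun a => by rw [h1, ← e]; rfl⟩

end Pool.Agent.P.MP_e311cd_gt
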