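import Pool.Agent.P.MP_e311cd_gt.I.St

/-! The binary icosahedral group. -/

namespace Pool.Agent.P.MP_e311cd_gt

open Set

noncomputable section

namespace ClsII

/-- the allowed squares of real parts -/
def Al (y : ℝ) : Prop :=
  y = 0 ∨ y = 1 / 4 ∨ y = 1 ∨ y = (3 + √5) / 8 ∨ y = (3 - √5) / 8

theorem s5 : √5 ^ 2 = (5 : ℝ) := Real.sq_sqrt (by norm_num)

theorem s5_gt : (2.23 : ℝ) < √5 := Real.lt_sqrt_of_sq_lt (by norm_num)

theorem s5_lt : √5 < (2.24 : ℝ) := (Real.sqrt_lt' (by norm_num)).mpr (by norm_num)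

theorem exists_cj (A : Subgroup U) (c : U) : ∃ A' : Subgroup U,
    (∀ a, a ∈ A ↔ c * a * c⁻¹ ∈ A') ∧ Nat.card A' = Nat.card A ∧
      ∀ b ∈ A', ∃ a ∈ A, b = c * a * c⁻¹ := by
  refine ⟨A.map (MulAut.conj c).toMonoidHom, fun a => ?_, ?_, ?_⟩
  · exact (Subgroup.mem_map_iff_mem (f := (MulAut.conj c).toMonoidHom)
      (MulAut.conj c).injective).symm
  · exact Subgroup.card_map_of_injective (MulAut.conj c).injective
  · rintro _ ⟨a, ha, rfl⟩
    exact ⟨a, ha, rfl⟩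

theorem qk_eq : qk = qi * qj := by apply U.ext <;> simp

/-- four allowed squares with sum one -/
theorem pat4 {y0 y1 y2 y3 : ℝ} (h0 : Al y0) (h1 : Al y1) (h2 : Al y2) (h3 : Al y3)
    (hs : y0 + y1 + y2 + y3 = 1) : (y0 = 0 ∨ y1 = 0 ∨ y2 = 0 ∨ y3 = 0) ∨
      (y0 = 1 / 4 ∧ y1 = 1 / 4 ∧ y2 = 1 / 4 ∧ y3 = 1 / 4) := by
  have a := s5_gt
  have b := s5_lt
  by_cases e0 : y0 = 0
  · exact Or.inl (Or.inl e0)
  by_cases e1 : y1 = 0
  · exact Or.inl (Or.inr (Or.inl e1))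
  by_cases e2 : y2 = 0
  · exact Or.inl (Or.inr (Or.inr (Or.inl e2)))
  by_cases e3 : y3 = 0
  · exact Or.inl (Or.inr (Or.inr (Or.inr e3)))
  right
  unfold Al at h0 h1 h2 h3
  generalize √5 = s at a b h0 h1 h2 h3
  rcases h0.resolve_left e0 with rfl | rfl | rfl | rfl <;>
    rcases h1.resolve_left e1 with rfl | rfl | rfl | rfl <;>
    rcases h2.resolve_left e2 with rfl | rfl | rfl | rfl <;>
    rcases h3.resolve_left e3 with rfl | rfl | rfl | rfl <;>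
    first
    | exact ⟨rfl, rfl, rfl, rfl⟩
    | (exfalso; linarith)

/-- three allowed squares with sum one -/
theorem pat3 {x y z : ℝ} (h1 : Al (x ^ 2)) (h2 : Al (y ^ 2)) (h3 : Al (z ^ 2))
    (hs : x ^ 2 + y ^ 2 + z ^ 2 = 1) :
    (x ^ 2 = 1 ∨ y ^ 2 = 1 ∨ z ^ 2 = 1) ∨ Cy x y z ∨ Cy x z y := by
  have a := s5_gt
  have b := s5_lt
  unfold Al at h1 h2 h3
  unfold Cy
  generalize √5 = s at a b h1 h2 h3 ⊢
  generalize x ^ 2 = X at h1 hs ⊢
  generalize y ^ 2 = Y at h2 hs ⊢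
  generalize z ^ 2 = Z at h3 hs ⊢
  rcases h1 with rfl | rfl | rfl | rfl | rfl <;> rcases h2 with rfl | rfl | rfl | rfl | rfl <;>
    rcases h3 with rfl | rfl | rfl | rfl | rfl <;>
    first
    | (exfalso; linarith)
    | exact Or.inl (Or.inl rfl)
    | exact Or.inl (Or.inr (Or.inl rfl))
    | exact Or.inl (Or.inr (Or.inr rfl))
    | exact Or.inr (Or.inl (Or.inl ⟨rfl, rfl, rfl⟩))
    | exact Or.inr (Or.inl (Or.inr (Or.inl ⟨rfl, rfl, rfl⟩)))
    | exact Or.inr (Or.inl (Or.inr (Or.inr ⟨rfl, rfl, rfl⟩)))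
    | exact Or.inr (Or.inr (Or.inl ⟨rfl, rfl, rfl⟩))
    | exact Or.inr (Or.inr (Or.inr (Or.inl ⟨rfl, rfl, rfl⟩)))
    | exact Or.inr (Or.inr (Or.inr (Or.inr ⟨rfl, rfl, rfl⟩)))

theorem cy_congr {x y z x' y' z' : ℝ} (h : Cy x y z) (e1 : x ^ 2 = x' ^ 2) (e2 : y ^ 2 = y' ^ 2)
    (e3 : z ^ 2 = z' ^ 2) : Cy x' y' z' := by
  unfold Cy at h ⊢
  rwa [e1, e2, e3] at h

theorem cy_rot {x y z : ℝ} (h : Cy x y z) : Cy y z x := by
  rcases h with h | h | h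
  · exact Or.inr (Or.inr h)
  · exact Or.inl h
  · exact Or.inr (Or.inl h)

theorem abs_of_sq {x r : ℝ} (hr : 0 ≤ r) (h : x ^ 2 = r ^ 2) : |x| = r := by
  rw [← abs_of_nonneg hr]
  exact (sq_eq_sq_iff_abs_eq_abs x r).mp h

theorem abs_cy {x y z : ℝ} (h : Cy x y z) :
    (|x| = 1 / 2 ∧ |y| = (√5 + 1) / 4 ∧ |z| = (√5 - 1) / 4) ∨
      (|y| = 1 / 2 ∧ |z| = (√5 + 1) / 4 ∧ |x| = (√5 - 1) / 4) ∨
      (|z| = 1 / 2 ∧ |x| = (√5 + 1) / 4 ∧ |y| = (√5 - 1) / 4) := by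
  have a := s5_gt
  have hs := s5
  have k : ∀ {u v w : ℝ}, u ^ 2 = 1 / 4 ∧ v ^ 2 = (3 + √5) / 8 ∧ w ^ 2 = (3 - √5) / 8 →
      |u| = 1 / 2 ∧ |v| = (√5 + 1) / 4 ∧ |w| = (√5 - 1) / 4 := fun ⟨h1, h2, h3⟩ =>
    ⟨abs_of_sq (by norm_num) (by rw [h1]; norm_num),
      abs_of_sq (by linarith) (by rw [h2]; linear_combination (-1 / 16) * hs),
      abs_of_sq (by linarith) (by rw [h3]; linear_combination (-1 / 16) * hs)⟩
  exact h.imp k (Or.imp k k)

theorem al_abs {a b c : ℝ} (h0 : Al ((a + b + c) ^ 2)) (h1 : Al ((a - b - c) ^ 2))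
    (h2 : Al ((-a + b - c) ^ 2)) (h3 : Al ((-a - b + c) ^ 2)) : Al ((|a| + |b| + |c|) ^ 2) := by
  rcases abs_cases a with ⟨ea, -⟩ | ⟨ea, -⟩ <;> rcases abs_cases b with ⟨eb, -⟩ | ⟨eb, -⟩ <;>
    rcases abs_cases c with ⟨ec, -⟩ | ⟨ec, -⟩ <;> rw [ea, eb, ec] <;>
    first
    | (convert h0 using 1; ring1)
    | (convert h1 using 1; ring1)
    | (convert h2 using 1; ring1)
    | (convert h3 using 1; ring1)
    | exact h0

theorem not_al {t : ℝ} (h : t = 3 / 4 ∨ t = (1 + 3 * √5) / 8 ∨ t = (5 + √5) / 8) :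
    ¬Al (t ^ 2) := by
  have a := s5_gt
  have b := s5_lt
  have hs := s5
  have e : t ^ 2 = 9 / 16 ∨ t ^ 2 = (46 + 6 * √5) / 64 ∨ t ^ 2 = (30 + 10 * √5) / 64 := by
    rcases h with h | h | h
    · left
      rw [h]
      norm_num
    · right
      left
      rw [h]
      linear_combination (9 / 64) * hs
    · right
      right
      rw [h]
      linear_combination (1 / 64) * hs
  intro hal
  rcases e with e | e | e <;> rcases hal with h | h | h | h | h <;> linarith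

/-- pure elements of the two parities do not occur together -/
theorem not_both {A : Subgroup U} (hal : ∀ a ∈ A, Al (c0 a ^ 2)) (hi : qi ∈ A) (hj : qj ∈ A)
    {g h : U} (hg : g ∈ A) (hh : h ∈ A) (g0 : c0 g = 0) (cg : Cy (c1 g) (c2 g) (c3 g))
    (ch : Cy (c1 h) (c3 h) (c2 h)) : False := by
  have hk : qk ∈ A := qk_eq ▸ A.mul_mem hi hj
  have t0 := hal _ (A.mul_mem hg hh)
  have t1 := hal _ (A.mul_mem hg (A.mul_mem (A.mul_mem hi hh) (A.inv_mem hi)))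
  have t2 := hal _ (A.mul_mem hg (A.mul_mem (A.mul_mem hj hh) (A.inv_mem hj)))
  have t3 := hal _ (A.mul_mem hg (A.mul_mem (A.mul_mem hk hh) (A.inv_mem hk)))
  have e0 : c0 (g * h).1 ^ 2 = (c1 g * c1 h + c2 g * c2 h + c3 g * c3 h) ^ 2 := by
    simp [g0]
    ring
  have e1 : c0 (g * (qi * h * qi⁻¹)).1 ^ 2 = (c1 g * c1 h - c2 g * c2 h - c3 g * c3 h) ^ 2 := by
    simp [g0]
    ring
  have e2 : c0 (g * (qj * h * qj⁻¹)).1 ^ 2 =
      (-(c1 g * c1 h) + c2 g * c2 h - c3 g * c3 h) ^ 2 := by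
    simp [g0]
    ring
  have e3 : c0 (g * (qk * h * qk⁻¹)).1 ^ 2 =
      (-(c1 g * c1 h) - c2 g * c2 h + c3 g * c3 h) ^ 2 := by
    simp [g0]
    ring
  rw [e0] at t0
  rw [e1] at t1
  rw [e2] at t2
  rw [e3] at t3
  refine not_al ?_ (al_abs t0 t1 t2 t3)
  have hs := s5
  rw [abs_mul, abs_mul, abs_mul]
  rcases abs_cy cg with ⟨a1, a2, a3⟩ | ⟨a1, a2, a3⟩ | ⟨a1, a2, a3⟩ <;>
    rcases abs_cy ch with ⟨b1, b2, b3⟩ | ⟨b1, b2, b3⟩ | ⟨b1, b2, b3⟩ <;>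
    rw [a1, a2, a3, b1, b2, b3] <;>
    first
    | (left; linear_combination (1 / 8) * hs)
    | (right; left; linear_combination (1 / 16) * hs)
    | (right; right; linear_combination (1 / 16) * hs)

/-- the normalised case -/
theorem core (hC : S_Crd) {A : Subgroup U} (hA : Nat.card A = 120)
    (hal : ∀ a ∈ A, Al (c0 a ^ 2)) (hi : qi ∈ A) (hj : qj ∈ A)
    (hodd : ∀ g ∈ A, c0 g = 0 → ¬Cy (c1 g) (c3 g) (c2 g)) : (A : Set U) = SI := by
  have hk : qk ∈ A := qk_eq ▸ A.mul_mem hi hj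
  have all : ∀ g ∈ A, Al (c1 g ^ 2) ∧ Al (c2 g ^ 2) ∧ Al (c3 g ^ 2) := fun g hg => by
    have h1 := hal _ (A.mul_mem hg hi)
    have h2 := hal _ (A.mul_mem hg hj)
    have h3 := hal _ (A.mul_mem hg hk)
    have f1 : c0 (g * qi).1 ^ 2 = c1 g ^ 2 := by simp
    have f2 : c0 (g * qj).1 ^ 2 = c2 g ^ 2 := by simp
    have f3 : c0 (g * qk).1 ^ 2 = c3 g ^ 2 := by simp
    rw [f1] at h1
    rw [f2] at h2
    rw [f3] at h3
    exact ⟨h1, h2, h3⟩
  have pur : ∀ g ∈ A, c0 g = 0 →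
      (c1 g ^ 2 = 1 ∨ c2 g ^ 2 = 1 ∨ c3 g ^ 2 = 1) ∨ Cy (c1 g) (c2 g) (c3 g) := fun g hg g0 => by
    have hs := g.sq
    rw [g0] at hs
    rcases pat3 (all g hg).1 (all g hg).2.1 (all g hg).2.2 (by linarith) with h | h | h
    · exact Or.inl h
    · exact Or.inr h
    · exact (hodd g hg g0 h).elim
  have hsub : (A : Set U) ⊆ SI := by
    intro g hg
    rcases pat4 (hal g hg) (all g hg).1 (all g hg).2.1 (all g hg).2.2 g.sq with h | h
    swap
    · exact Or.inl (Or.inr h)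
    simp only [sq_eq_zero_iff] at h
    rcases h with h | h | h | h
    · rcases pur g hg h with k | k
      · exact Or.inl (Or.inl (Or.inr k))
      · exact Or.inr (Or.inl ⟨h, k⟩)
    · have f1 : c1 (qi * g).1 ^ 2 = c0 g ^ 2 := by simp
      have f2 : c2 (qi * g).1 ^ 2 = c3 g ^ 2 := by simp
      have f3 : c3 (qi * g).1 ^ 2 = c2 g ^ 2 := by simp
      rcases pur _ (A.mul_mem hi hg) (by simp [h]) with k | k
      · rw [f1, f2, f3] at k
        refine Or.inl (Or.inl ?_)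
        rcases k with k | k | k
        · exact Or.inl k
        · exact Or.inr (Or.inr (Or.inr k))
        · exact Or.inr (Or.inr (Or.inl k))
      · exact Or.inr (Or.inr (Or.inl ⟨h, cy_congr k f1 f2 f3⟩))
    · have f1 : c1 (qj * g).1 ^ 2 = c3 g ^ 2 := by simp
      have f2 : c2 (qj * g).1 ^ 2 = c0 g ^ 2 := by simp
      have f3 : c3 (qj * g).1 ^ 2 = c1 g ^ 2 := by simp
      rcases pur _ (A.mul_mem hj hg) (by simp [h]) with k | k
      · rw [f1, f2, f3] at k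
        refine Or.inl (Or.inl ?_)
        rcases k with k | k | k
        · exact Or.inr (Or.inr (Or.inr k))
        · exact Or.inl k
        · exact Or.inr (Or.inl k)
      · exact Or.inr (Or.inr (Or.inr (Or.inl ⟨h, cy_congr k f1 f2 f3⟩)))
    · have f1 : c1 (qk * g).1 ^ 2 = c2 g ^ 2 := by simp
      have f2 : c2 (qk * g).1 ^ 2 = c1 g ^ 2 := by simp
      have f3 : c3 (qk * g).1 ^ 2 = c0 g ^ 2 := by simp
      rcases pur _ (A.mul_mem hk hg) (by simp [h]) with k | k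
      · rw [f1, f2, f3] at k
        refine Or.inl (Or.inl ?_)
        rcases k with k | k | k
        · exact Or.inr (Or.inr (Or.inl k))
        · exact Or.inr (Or.inl k)
        · exact Or.inl k
      · exact Or.inr (Or.inr (Or.inr (Or.inr ⟨h, cy_congr k f1 f2 f3⟩)))
  refine eq_of_subset_of_ncard_le hsub ?_ hC.2.2.2.1.1
  have : (A : Set U).ncard = 120 := hA
  rw [this]
  exact hC.2.2.2.1.2

/-- the rotation that exchanges the first two axes -/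
theorem exists_flip : ∃ d : U, ∀ g : U, c1 (d * g * d⁻¹).1 = c2 g ∧ c2 (d * g * d⁻¹).1 = c1 g ∧
    c3 (d * g * d⁻¹).1 = -c3 g := by
  obtain ⟨r, hr⟩ : ∃ r : ℝ, r ^ 2 = 1 / 2 := ⟨√(1 / 2), Real.sq_sqrt (by norm_num)⟩
  refine ⟨mkU 0 r r 0 (by linarith), fun g => ⟨?_, ?_, ?_⟩⟩ <;>
    simp only [U.coe_mul, U.coe_inv, coe_mkU, c0_mul, c1_mul, c2_mul, c3_mul, c0_star, c1_star,
      c2_star, c3_star, c0_mk, c1_mk, c2_mk, c3_mk]
  · linear_combination (2 * c2 g) * hr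
  · linear_combination (2 * c1 g) * hr
  · linear_combination (-2 * c3 g) * hr

end ClsII

open ClsII in
theorem clsI (hC : S_Crd) (hQ : S_Q8) : S_ClsI := by
  rintro A ⟨hA, -, hal0⟩
  have hal : ∀ a ∈ A, Al (c0 a ^ 2) := fun a ha => by
    rcases hal0 a ha with h | h | h | h
    · exact Or.inl (by rw [h]; norm_num)
    · exact Or.inr (Or.inl h)
    · exact Or.inr (Or.inr (Or.inl h))
    · have e : (c0 a ^ 2 - (3 + √5) / 8) * (c0 a ^ 2 - (3 - √5) / 8) = 0 := by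
        linear_combination (1 / 16) * h - (1 / 64) * s5
      exact Or.inr (Or.inr (Or.inr ((mul_eq_zero.mp e).imp sub_eq_zero.mp sub_eq_zero.mp)))
  have hfin : Finite A := Nat.finite_of_card_ne_zero (by omega)
  obtain ⟨u, hu, v, hv, u0, v0, w0⟩ := hQ A hfin (by rw [hA]; norm_num) fun a ha e => by
    have a1 := s5_gt
    have a2 := s5_lt
    rcases hal a ha with h | h | h | h | h <;> linarith
  obtain ⟨c, hc1, hc2⟩ := frame u0 v0 w0
  obtain ⟨A', hm, hcard, hP⟩ := exists_cj A c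
  have hal' : ∀ b ∈ A', Al (c0 b ^ 2) := fun b hb => by
    obtain ⟨a, ha, rfl⟩ := hP b hb
    rw [U.c0_conj]
    exact hal a ha
  have hi : qi ∈ A' := hc1 ▸ (hm u).1 hu
  have hj : qj ∈ A' := hc2 ▸ (hm v).1 hv
  by_cases hodd : ∀ g ∈ A', c0 g = 0 → ¬Cy (c1 g) (c3 g) (c2 g)
  · have heq := core hC (hcard.trans hA) hal' hi hj hodd
    exact ⟨c, fun x => by rw [hm x, ← heq]; rfl⟩
  obtain ⟨h, hh, -, ch⟩ : ∃ h ∈ A', c0 h = 0 ∧ Cy (c1 h) (c3 h) (c2 h) := by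
    by_contra hne
    exact hodd fun g hg g0 cg => hne ⟨g, hg, g0, cg⟩
  obtain ⟨d, hd⟩ := exists_flip
  obtain ⟨B, hm', hcard', hP'⟩ := exists_cj A' d
  have halB : ∀ b ∈ B, Al (c0 b ^ 2) := fun b hb => by
    obtain ⟨a, ha, rfl⟩ := hP' b hb
    rw [U.c0_conj]
    exact hal' a ha
  have ei : d * qj * d⁻¹ = qi :=
    U.ext (U.c0_conj d qj) (hd qj).1 (hd qj).2.1 ((hd qj).2.2.trans (by simp))
  have ej : d * qi * d⁻¹ = qj :=
    U.ext (U.c0_conj d qi) (hd qi).1 (hd qi).2.1 ((hd qi).2.2.trans (by simp))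
  have heq := core hC (hcard'.trans (hcard.trans hA)) halB (ei ▸ (hm' qj).1 hj)
    (ej ▸ (hm' qi).1 hi) fun b hb b0 cb => by
      obtain ⟨g, hg, rfl⟩ := hP' b hb
      rw [U.c0_conj] at b0
      rw [(hd g).1, (hd g).2.1, (hd g).2.2] at cb
      exact not_both hal' hi hj hg hh b0
        (cy_congr (cy_rot (cy_rot cb)) rfl rfl (neg_sq _)) ch
  refine ⟨d * c, fun x => ?_⟩
  have e : d * c * x * (d * c)⁻¹ = d * (c * x * c⁻¹) * d⁻¹ := by group
  rw [e, hm x, hm', ← heq]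
  rfl

end

end Pool.Agent.P.MP_e311cd_gt
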