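import Pool.Agent.P.MP_e311cd_gt.I.St

/-! The binary octahedral group. -/

namespace Pool.Agent.P.MP_e311cd_gt

open Set

noncomputable section

namespace ClsOI

/-- the allowed squares of real parts -/
def Al (y : ℝ) : Prop := y = 0 ∨ y = 1 / 4 ∨ y = 1 / 2 ∨ y = 1

theorem exists_cj (A : Subgroup U) (c : U) : ∃ A' : Subgroup U,
    (∀ a, a ∈ A ↔ c * a * c⁻¹ ∈ A') ∧ Nat.card A' = Nat.card A ∧
      ∀ P : ℝ → Prop, (∀ a ∈ A, P (c0 a)) → ∀ a ∈ A', P (c0 a) := by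
  refine ⟨A.map (MulAut.conj c).toMonoidHom, fun a => ?_, ?_, ?_⟩
  · exact (Subgroup.mem_map_iff_mem (f := (MulAut.conj c).toMonoidHom)
      (MulAut.conj c).injective).symm
  · exact Subgroup.card_map_of_injective (MulAut.conj c).injective
  · rintro P hP _ ⟨a, ha, rfl⟩
    have : c0 ((MulAut.conj c).toMonoidHom a).1 = c0 a := U.c0_conj c a
    rw [this]
    exact hP a ha

theorem patT {y0 y1 y2 y3 : ℝ} (h0 : y0 = 0 ∨ y0 = 1 / 4 ∨ y0 = 1)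
    (h1 : y1 = 0 ∨ y1 = 1 / 4 ∨ y1 = 1) (h2 : y2 = 0 ∨ y2 = 1 / 4 ∨ y2 = 1)
    (h3 : y3 = 0 ∨ y3 = 1 / 4 ∨ y3 = 1) (hs : y0 + y1 + y2 + y3 = 1) :
    (y0 = 1 ∨ y1 = 1 ∨ y2 = 1 ∨ y3 = 1) ∨
      (y0 = 1 / 4 ∧ y1 = 1 / 4 ∧ y2 = 1 / 4 ∧ y3 = 1 / 4) := by
  rcases h0 with rfl | rfl | rfl <;> rcases h1 with rfl | rfl | rfl <;>
    rcases h2 with rfl | rfl | rfl <;> rcases h3 with rfl | rfl | rfl <;> revert hs <;> norm_num

/-- not one square `1 / 4` and the other `0` -/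
def Ex (x y : ℝ) : Prop := ¬(x = 1 / 4 ∧ y = 0) ∧ ¬(x = 0 ∧ y = 1 / 4)

theorem patO {y0 y1 y2 y3 : ℝ} (h0 : Al y0) (h1 : Al y1) (h2 : Al y2) (h3 : Al y3)
    (hs : y0 + y1 + y2 + y3 = 1) (e01 : Ex y0 y1) (e02 : Ex y0 y2) (e03 : Ex y0 y3)
    (e12 : Ex y1 y2) (e13 : Ex y1 y3) (e23 : Ex y2 y3) :
    ((y0 = 1 ∨ y1 = 1 ∨ y2 = 1 ∨ y3 = 1) ∨
      (y0 = 1 / 4 ∧ y1 = 1 / 4 ∧ y2 = 1 / 4 ∧ y3 = 1 / 4)) ∨
    ((y0 = 1 / 2 ∧ y1 = 1 / 2) ∨ (y0 = 1 / 2 ∧ y2 = 1 / 2) ∨ (y0 = 1 / 2 ∧ y3 = 1 / 2) ∨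
      (y1 = 1 / 2 ∧ y2 = 1 / 2) ∨ (y1 = 1 / 2 ∧ y3 = 1 / 2) ∨ (y2 = 1 / 2 ∧ y3 = 1 / 2)) := by
  unfold Ex at e01 e02 e03 e12 e13 e23
  rcases h0 with rfl | rfl | rfl | rfl <;> rcases h1 with rfl | rfl | rfl | rfl <;>
    rcases h2 with rfl | rfl | rfl | rfl <;> rcases h3 with rfl | rfl | rfl | rfl <;>
    first
    | (exfalso; linarith)
    | (revert e01 e02 e03 e12 e13 e23; norm_num)

theorem ex_of_al {x y z e : ℝ} (h : Al (z ^ 2)) (hz : z ^ 2 = (x ^ 2 + y ^ 2) / 2 + e * (x * y)) :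
    Ex (x ^ 2) (y ^ 2) := by
  constructor
  · rintro ⟨h1, h2⟩
    have h3 : y = 0 := pow_eq_zero_iff two_ne_zero |>.mp h2
    rw [h1, h2, h3] at hz
    rcases h with h | h | h | h <;> linarith
  · rintro ⟨h1, h2⟩
    have h3 : x = 0 := pow_eq_zero_iff two_ne_zero |>.mp h1
    rw [h1, h2, h3] at hz
    rcases h with h | h | h | h <;> linarith

theorem qk_eq : qk = qi * qj := by apply U.ext <;> simp

theorem ncard_sub (A : Subgroup U) : (A : Set U).ncard = Nat.card A := rfl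

/-- an element of order eight exists -/
theorem exists_eight (hC : S_Crd) (hQ : S_Q8) {A : Subgroup U} (hA : Nat.card A = 48)
    (hal : ∀ a ∈ A, Al (c0 a ^ 2)) : ∃ a ∈ A, c0 a ^ 2 = 1 / 2 := by
  by_contra hne
  have hne' : ∀ a ∈ A, c0 a ^ 2 ≠ 1 / 2 := fun a ha h => hne ⟨a, ha, h⟩
  have hfin : Finite A := Nat.finite_of_card_ne_zero (by omega)
  obtain ⟨u, hu, v, hv, hu0, hv0, huv⟩ := hQ A hfin (by rw [hA]; norm_num) hne'
  obtain ⟨c, hc1, hc2⟩ := frame hu0 hv0 huv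
  obtain ⟨A', hm, hcard, hP⟩ := exists_cj A c
  have hi : qi ∈ A' := hc1 ▸ (hm u).1 hu
  have hj : qj ∈ A' := hc2 ▸ (hm v).1 hv
  have hk : qk ∈ A' := qk_eq ▸ A'.mul_mem hi hj
  have hP' := hP (fun x => x ^ 2 = 0 ∨ x ^ 2 = 1 / 4 ∨ x ^ 2 = 1) fun a ha => by
    rcases hal a ha with h | h | h | h
    · exact Or.inl h
    · exact Or.inr (Or.inl h)
    · exact (hne' a ha h).elim
    · exact Or.inr (Or.inr h)
  have hsub : (A' : Set U) ⊆ ST := by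
    intro g hg
    have h0 := hP' g hg
    have h1 := hP' _ (A'.mul_mem hg hi)
    have h2 := hP' _ (A'.mul_mem hg hj)
    have h3 := hP' _ (A'.mul_mem hg hk)
    have e1 : c0 (g * qi).1 ^ 2 = c1 g ^ 2 := by simp
    have e2 : c0 (g * qj).1 ^ 2 = c2 g ^ 2 := by simp
    have e3 : c0 (g * qk).1 ^ 2 = c3 g ^ 2 := by simp
    rw [e1] at h1
    rw [e2] at h2
    rw [e3] at h3
    exact patT h0 h1 h2 h3 g.sq
  have := ncard_le_ncard hsub hC.2.1.1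
  rw [ncard_sub, hcard, hA] at this
  have := hC.2.1.2
  omega

theorem ncard_circ_sq (p : ℝ) : {b : U | Circ b ∧ c0 b ^ 2 = p}.Finite ∧
    {b : U | Circ b ∧ c0 b ^ 2 = p}.ncard ≤ 4 := by
  have hsub : {b : U | Circ b ∧ c0 b ^ 2 = p} ⊆
      {b : U | Circ b ∧ c0 b = √p} ∪ {b : U | Circ b ∧ c0 b = -√p} := by
    rintro b ⟨hb, e⟩
    have h : c0 b ^ 2 = √p ^ 2 := by rw [Real.sq_sqrt (e ▸ sq_nonneg _), e]
    rcases sq_eq_sq_iff_eq_or_eq_neg.mp h with h | h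
    · exact Or.inl ⟨hb, h⟩
    · exact Or.inr ⟨hb, h⟩
  have hf := (ncard_circ_re (√p)).1.union (ncard_circ_re (-√p)).1
  refine ⟨hf.subset hsub, (ncard_le_ncard hsub hf).trans ((ncard_union_le _ _).trans ?_)⟩
  have := (ncard_circ_re (√p)).2
  have := (ncard_circ_re (-√p)).2
  omega

/-- the group does not normalise the circle -/
theorem not_dihedral {A : Subgroup U} (hA : Nat.card A = 48) (hal : ∀ a ∈ A, Al (c0 a ^ 2))
    (h : ∀ a ∈ A, Circ a ∨ (c0 a = 0 ∧ c1 a = 0)) : False := by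
  have hfin : Finite A := Nat.finite_of_card_ne_zero (by omega)
  have hfin' : (A : Set U).Finite := hfin
  have hB : {g : U | g ∈ A ∧ Circ g}.ncard ≤ 16 := by
    have hsub : {g : U | g ∈ A ∧ Circ g} ⊆
        ({b : U | Circ b ∧ c0 b ^ 2 = 0} ∪ {b : U | Circ b ∧ c0 b ^ 2 = 1 / 4}) ∪
        ({b : U | Circ b ∧ c0 b ^ 2 = 1 / 2} ∪ {b : U | Circ b ∧ c0 b ^ 2 = 1}) := by
      rintro g ⟨hg, hc⟩
      rcases hal g hg with e | e | e | e
      · exact Or.inl (Or.inl ⟨hc, e⟩)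
      · exact Or.inl (Or.inr ⟨hc, e⟩)
      · exact Or.inr (Or.inl ⟨hc, e⟩)
      · exact Or.inr (Or.inr ⟨hc, e⟩)
    have hf := ((ncard_circ_sq 0).1.union (ncard_circ_sq (1 / 4)).1).union
      ((ncard_circ_sq (1 / 2)).1.union (ncard_circ_sq 1).1)
    refine (ncard_le_ncard hsub hf).trans ((ncard_union_le _ _).trans ?_)
    have := ncard_union_le {b : U | Circ b ∧ c0 b ^ 2 = 0} {b : U | Circ b ∧ c0 b ^ 2 = 1 / 4}
    have := ncard_union_le {b : U | Circ b ∧ c0 b ^ 2 = 1 / 2} {b : U | Circ b ∧ c0 b ^ 2 = 1}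
    have := (ncard_circ_sq 0).2
    have := (ncard_circ_sq (1 / 4)).2
    have := (ncard_circ_sq (1 / 2)).2
    have := (ncard_circ_sq 1).2
    omega
  have hBf : {g : U | g ∈ A ∧ Circ g}.Finite := hfin'.subset fun g hg => hg.1
  have hD : {g : U | g ∈ A ∧ c0 g = 0 ∧ c1 g = 0}.ncard ≤ 16 := by
    rcases eq_empty_or_nonempty {g : U | g ∈ A ∧ c0 g = 0 ∧ c1 g = 0} with e | ⟨d, hd, d0, d1⟩
    · rw [e, ncard_empty]
      omega
    · refine le_trans (ncard_le_ncard_of_injOn (fun g => g * d) ?_ ?_ hBf) hB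
      · rintro g ⟨hg, g0, g1⟩
        refine ⟨A.mul_mem hg hd, ?_⟩
        constructor <;> simp [g0, g1, d0, d1]
      · intro g _ g' _ e
        exact mul_right_cancel e
  have hsub : (A : Set U) ⊆ {g : U | g ∈ A ∧ Circ g} ∪ {g : U | g ∈ A ∧ c0 g = 0 ∧ c1 g = 0} := by
    intro g hg
    rcases h g hg with e | e
    · exact Or.inl ⟨hg, e⟩
    · exact Or.inr ⟨hg, e⟩
  have h1 := (ncard_le_ncard hsub (hBf.union (hfin'.subset fun g hg => hg.1))).trans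
    (ncard_union_le _ _)
  rw [ncard_sub, hA] at h1
  omega

/-- a square root of a pure unit -/
theorem sqrt_coord {a u : U} (h : a * a = u) (ha : c0 a ^ 2 = 1 / 2) :
    c1 a = c0 a * c1 u ∧ c2 a = c0 a * c2 u ∧ c3 a = c0 a * c3 u := by
  subst h
  refine ⟨?_, ?_, ?_⟩ <;> simp only [U.coe_mul, c1_mul, c2_mul, c3_mul]
  · linear_combination (-2 * c1 a) * ha
  · linear_combination (-2 * c2 a) * ha
  · linear_combination (-2 * c3 a) * ha

theorem al_pair {t : ℝ} (h1 : Al (t ^ 2)) (h2 : Al (((1 + t) / 2) ^ 2)) : t = 0 ∨ t ^ 2 = 1 := by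
  rcases h1 with h1 | h1 | h1 | h1
  · exact Or.inl (pow_eq_zero_iff two_ne_zero |>.mp h1)
  · exfalso
    rcases h2 with h2 | h2 | h2 | h2
    · have : t = -5 / 8 := by linarith
      rw [this] at h1; norm_num at h1
    · have : t = -1 / 8 := by linarith
      rw [this] at h1; norm_num at h1
    · have : t = 3 / 8 := by linarith
      rw [this] at h1; norm_num at h1
    · have : t = 11 / 8 := by linarith
      rw [this] at h1; norm_num at h1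
  · exfalso
    rcases h2 with h2 | h2 | h2 | h2
    · have : t = -3 / 4 := by linarith
      rw [this] at h1; norm_num at h1
    · have : t = -1 / 4 := by linarith
      rw [this] at h1; norm_num at h1
    · have : t = 1 / 4 := by linarith
      rw [this] at h1; norm_num at h1
    · have : t = 5 / 4 := by linarith
      rw [this] at h1; norm_num at h1
  · exact Or.inr h1

/-- two orthogonal axes of order four -/
theorem exists_orth {A : Subgroup U} (hA : Nat.card A = 48) (hal : ∀ a ∈ A, Al (c0 a ^ 2))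
    {a : U} (ha : a ∈ A) (h2 : c0 a ^ 2 = 1 / 2) :
    ∃ g ∈ A, c0 (a * a * (g * (a * a) * g⁻¹)).1 = 0 := by
  by_contra hne
  have hu0 : c0 (a * a).1 = 0 := by rw [U.c0_mul_self, h2]; norm_num
  obtain ⟨c, hc⟩ := conj_of_re (a := a * a) (b := qi) hu0
  obtain ⟨A', hm, hcard, hP⟩ := exists_cj A c
  have hal' := hP (fun x => Al (x ^ 2)) hal
  have hb : c * a * c⁻¹ ∈ A' := (hm a).1 ha
  have hb0 : c0 (c * a * c⁻¹).1 ^ 2 = 1 / 2 := by rw [U.c0_conj, h2]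
  have hbb : c * a * c⁻¹ * (c * a * c⁻¹) = qi := by rw [← hc]; group
  have hi : qi ∈ A' := hbb ▸ A'.mul_mem hb hb
  obtain ⟨b1, b2, b3⟩ := sqrt_coord hbb hb0
  refine not_dihedral (hcard.trans hA) hal' fun g hg => ?_
  have hne' : c0 (qi * (g * qi * g⁻¹)).1 ≠ 0 := by
    intro e
    refine hne ⟨c⁻¹ * g * c, (hm _).2 (by simpa [mul_assoc] using hg), ?_⟩
    rw [← U.c0_conj c, ← e, ← hc]
    congr 2
    group
  generalize c * a * c⁻¹ = b at hb hb0 b1 b2 b3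
  simp only [coe_qi, c1_mk, c2_mk, c3_mk, mul_one, mul_zero] at b1 b2 b3
  have t1 := hal' _ (A'.mul_mem hi (A'.mul_mem (A'.mul_mem hg hi) (A'.inv_mem hg)))
  have t2 := hal' _ (A'.mul_mem hb (A'.mul_mem (A'.mul_mem hg hb) (A'.inv_mem hg)))
  have hs := g.sq
  have e1 : c0 (qi * (g * qi * g⁻¹)).1 = -(c0 g ^ 2 + c1 g ^ 2 - c2 g ^ 2 - c3 g ^ 2) := by
    simp
    ring
  have e2 : c0 (b * (g * b * g⁻¹)).1 = (1 + c0 (qi * (g * qi * g⁻¹)).1) / 2 := by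
    rw [e1]
    simp only [U.coe_mul, U.coe_inv, c0_mul, c1_mul, c2_mul, c3_mul, c0_star, c1_star, c2_star,
      c3_star, b1, b2, b3]
    linear_combination (2 * (c2 g ^ 2 + c3 g ^ 2)) * hb0 + (1 / 2) * hs
  rw [e2] at t2
  have h3 := (al_pair t1 t2).resolve_left hne'
  rw [e1] at h3
  have h4 : (c0 g ^ 2 + c1 g ^ 2) * (c2 g ^ 2 + c3 g ^ 2) = 0 := by
    linear_combination (-1 / 4) * h3 +
      (1 / 4) * (c0 g ^ 2 + c1 g ^ 2 + c2 g ^ 2 + c3 g ^ 2 + 1) * hs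
  rcases mul_eq_zero.mp h4 with h5 | h5
  · right
    constructor <;> nlinarith [sq_nonneg (c0 g.1), sq_nonneg (c1 g.1)]
  · left
    constructor <;> nlinarith [sq_nonneg (c2 g.1), sq_nonneg (c3 g.1)]

end ClsOI

open ClsOI in
theorem clsO (hC : S_Crd) (hQ : S_Q8) : S_ClsO := by
  rintro A ⟨hA, -, hal0⟩
  have hal : ∀ a ∈ A, Al (c0 a ^ 2) := fun a ha => by
    rcases hal0 a ha with h | h | h | h
    · exact Or.inl (by rw [h]; norm_num)
    · exact Or.inr (Or.inl h)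
    · exact Or.inr (Or.inr (Or.inl h))
    · exact Or.inr (Or.inr (Or.inr h))
  obtain ⟨a, ha, h2⟩ := exists_eight hC hQ hA hal
  obtain ⟨g₀, hg₀, horth⟩ := exists_orth hA hal ha h2
  have hu0 : c0 (a * a).1 = 0 := by rw [U.c0_mul_self, h2]; norm_num
  have hv0 : c0 (g₀ * (a * a) * g₀⁻¹).1 = 0 := by rw [U.c0_conj, hu0]
  obtain ⟨c, hc1, hc2⟩ := frame hu0 hv0 horth
  obtain ⟨A', hm, hcard, hP⟩ := exists_cj A c
  have hal' := hP (fun x => Al (x ^ 2)) hal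
  have hb : c * a * c⁻¹ ∈ A' := (hm a).1 ha
  have hb0 : c0 (c * a * c⁻¹).1 ^ 2 = 1 / 2 := by rw [U.c0_conj, h2]
  have hbb : c * a * c⁻¹ * (c * a * c⁻¹) = qi := by rw [← hc1]; group
  have hd : c * (g₀ * a * g₀⁻¹) * c⁻¹ ∈ A' :=
    (hm _).1 (A.mul_mem (A.mul_mem hg₀ ha) (A.inv_mem hg₀))
  have hd0 : c0 (c * (g₀ * a * g₀⁻¹) * c⁻¹).1 ^ 2 = 1 / 2 := by rw [U.c0_conj, U.c0_conj, h2]
  have hdd : c * (g₀ * a * g₀⁻¹) * c⁻¹ * (c * (g₀ * a * g₀⁻¹) * c⁻¹) = qj := by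
    rw [← hc2]; group
  have hi : qi ∈ A' := hbb ▸ A'.mul_mem hb hb
  have hj : qj ∈ A' := hdd ▸ A'.mul_mem hd hd
  have hk : qk ∈ A' := qk_eq ▸ A'.mul_mem hi hj
  obtain ⟨b1, b2, b3⟩ := sqrt_coord hbb hb0
  obtain ⟨d1, d2, d3⟩ := sqrt_coord hdd hd0
  generalize c * a * c⁻¹ = b at hb hb0 b1 b2 b3
  generalize c * (g₀ * a * g₀⁻¹) * c⁻¹ = d at hd hd0 d1 d2 d3
  simp only [coe_qi, coe_qj, c1_mk, c2_mk, c3_mk, mul_one, mul_zero] at b1 b2 b3 d1 d2 d3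
  have he : b * d * b⁻¹ ∈ A' := A'.mul_mem (A'.mul_mem hb hd) (A'.inv_mem hb)
  have he0 : c0 (b * d * b⁻¹).1 ^ 2 = 1 / 2 := by rw [U.c0_conj, hd0]
  have e1 : c1 (b * d * b⁻¹).1 = 0 := by
    simp [b1, b2, b3, d1, d2, d3]
  have e2 : c2 (b * d * b⁻¹).1 = 0 := by
    simp [b1, b2, b3, d1, d2, d3]
  have e3 : c3 (b * d * b⁻¹).1 = c0 (b * d * b⁻¹).1 := by
    simp [b1, b2, b3, d1, d2, d3]
  generalize b * d * b⁻¹ = e at he he0 e1 e2 e3
  have hsub : (A' : Set U) ⊆ SO := by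
    intro g hg
    have h0 := hal' g hg
    have h1 := hal' _ (A'.mul_mem hg hi)
    have h2 := hal' _ (A'.mul_mem hg hj)
    have h3 := hal' _ (A'.mul_mem hg hk)
    have f1 : c0 (g * qi).1 ^ 2 = c1 g ^ 2 := by simp
    have f2 : c0 (g * qj).1 ^ 2 = c2 g ^ 2 := by simp
    have f3 : c0 (g * qk).1 ^ 2 = c3 g ^ 2 := by simp
    rw [f1] at h1
    rw [f2] at h2
    rw [f3] at h3
    refine patO h0 h1 h2 h3 g.sq ?_ ?_ ?_ ?_ ?_ ?_
    · refine ex_of_al (e := -1) (hal' _ (A'.mul_mem hg hb)) ?_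
      simp only [U.coe_mul, c0_mul, b1, b2, b3]
      linear_combination (c0 g - c1 g) ^ 2 * hb0
    · refine ex_of_al (e := -1) (hal' _ (A'.mul_mem hg hd)) ?_
      simp only [U.coe_mul, c0_mul, d1, d2, d3]
      linear_combination (c0 g - c2 g) ^ 2 * hd0
    · refine ex_of_al (e := -1) (hal' _ (A'.mul_mem hg he)) ?_
      simp only [U.coe_mul, c0_mul, e1, e2, e3]
      linear_combination (c0 g - c3 g) ^ 2 * he0
    · refine ex_of_al (e := -1) (hal' _ (A'.mul_mem hg (A'.mul_mem hi he))) ?_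
      simp only [U.coe_mul, c0_mul, c1_mul, c2_mul, c3_mul, coe_qi, c0_mk, c1_mk, c2_mk, c3_mk,
        e1, e2, e3]
      linear_combination (c1 g - c2 g) ^ 2 * he0
    · refine ex_of_al (e := 1) (hal' _ (A'.mul_mem hg (A'.mul_mem hi hd))) ?_
      simp only [U.coe_mul, c0_mul, c1_mul, c2_mul, c3_mul, coe_qi, c0_mk, c1_mk, c2_mk, c3_mk,
        d1, d2, d3]
      linear_combination (c1 g + c3 g) ^ 2 * hd0
    · refine ex_of_al (e := -1) (hal' _ (A'.mul_mem hg (A'.mul_mem hj hb))) ?_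
      simp only [U.coe_mul, c0_mul, c1_mul, c2_mul, c3_mul, coe_qj, c0_mk, c1_mk, c2_mk, c3_mk,
        b1, b2, b3]
      linear_combination (c2 g - c3 g) ^ 2 * hb0
  have heq : (A' : Set U) = SO := eq_of_subset_of_ncard_le hsub
    (by rw [ncard_sub, hcard, hA]; exact hC.2.2.1.2) hC.2.2.1.1
  exact ⟨c, fun x => by rw [hm x, ← heq]; rfl⟩

end

end Pool.Agent.P.MP_e311cd_gt
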