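import Pool.Agent.P.MP_e311cd_gt.I.St

/-! Completeness of the polynomial eigenfunctions. -/

namespace Pool.Agent.P.MP_e311cd_gt

open Set MeasureTheory

noncomputable section

namespace CompI

variable {G : Type} [TopologicalSpace G] [CompactSpace G] [MeasurableSpace G] [BorelSpace G]
  (ν : Measure G) [IsFiniteMeasure ν]

/-- the Hermitian form -/
def B (f g : G → ℂ) : ℂ := ∫ x, f x * star (g x) ∂ν

theorem intg {f : G → ℂ} (hf : Continuous f) : Integrable f ν :=
  hf.integrable_of_hasCompactSupport (HasCompactSupport.of_compactSpace f)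

theorem B_add_left {f g h : G → ℂ} (hf : Continuous f) (hg : Continuous g) (hh : Continuous h) :
    B ν (f + g) h = B ν f h + B ν g h := by
  simp only [B, Pi.add_apply, add_mul]
  exact integral_add (intg ν (hf.mul hh.star)) (intg ν (hg.mul hh.star))

theorem B_add_right {f g h : G → ℂ} (hf : Continuous f) (hg : Continuous g) (hh : Continuous h) :
    B ν f (g + h) = B ν f g + B ν f h := by
  simp only [B, Pi.add_apply, star_add, mul_add]
  exact integral_add (intg ν (hf.mul hg.star)) (intg ν (hf.mul hh.star))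

omit [TopologicalSpace G] [CompactSpace G] [BorelSpace G] [IsFiniteMeasure ν] in
theorem B_smul_left (c : ℂ) (f g : G → ℂ) : B ν (c • f) g = c * B ν f g := by
  simp only [B, Pi.smul_apply, smul_eq_mul, mul_assoc]
  exact integral_const_mul c _

omit [TopologicalSpace G] [CompactSpace G] [BorelSpace G] [IsFiniteMeasure ν] in
theorem B_smul_right (c : ℂ) (f g : G → ℂ) : B ν f (c • g) = star c * B ν f g := by
  simp only [B, Pi.smul_apply, smul_eq_mul, star_mul']
  rw [← integral_const_mul]
  exact integral_congr_ae (Filter.Eventually.of_forall fun x => by ring)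

omit [TopologicalSpace G] [CompactSpace G] [BorelSpace G] [IsFiniteMeasure ν] in
theorem B_zero_right (f : G → ℂ) : B ν f 0 = 0 := by simp [B]

theorem B_def [ν.IsOpenPosMeasure] {f : G → ℂ} (hf : Continuous f) (h : B ν f f = 0) : f = 0 := by
  have h1 : ∀ x, f x * star (f x) = ((‖f x‖ ^ 2 : ℝ) : ℂ) := fun x => by
    rw [Complex.star_def, Complex.mul_conj, Complex.normSq_eq_norm_sq]
  simp only [B, h1] at h
  rw [integral_complex_ofReal, Complex.ofReal_eq_zero] at h
  have hc : Continuous fun x => ‖f x‖ ^ 2 := hf.norm.pow 2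
  have h2 := (integral_eq_zero_iff_of_nonneg (fun x => sq_nonneg _)
    (hc.integrable_of_hasCompactSupport (HasCompactSupport.of_compactSpace _))).mp h
  have h3 := (hc.ae_eq_iff_eq ν continuous_zero).mp h2
  funext x
  simpa using congrFun h3 x

theorem continuous_int : Continuous fun F : C(G, ℂ) => ∫ x, F x ∂ν := by
  have h := (continuous_integral (μ := ν) (G := ℂ)).comp
    (ContinuousMap.toLp (E := ℂ) 1 ν ℂ).continuous
  refine h.congr fun F => ?_
  exact integral_congr_ae (ContinuousMap.coeFn_toLp (𝕜 := ℂ) ν F)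

/-- a continuous function orthogonal to a separating star algebra vanishes -/
theorem eq_zero_of_orth [ν.IsOpenPosMeasure] (A : Submodule ℂ (G → ℂ)) (h1 : 1 ∈ A)
    (hm : A * A ≤ A) (V : Submodule ℂ (G → ℂ)) (hV : V ≤ A) (hc : ∀ f ∈ V, Continuous f)
    (hs : ∀ f ∈ V, star f ∈ V) (hsep : ∀ x y, (∀ f ∈ V, f x = f y) → x = y) {g : G → ℂ}
    (hg : Continuous g) (ho : ∀ u ∈ A, B ν g u = 0) : g = 0 := by
  let S : StarSubalgebra ℂ C(G, ℂ) :=
    { carrier := {F | (F : G → ℂ) ∈ A ∧ star (F : G → ℂ) ∈ A}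
      mul_mem' := fun {F H} hF hH => ⟨hm (Submodule.mul_mem_mul hF.1 hH.1), by
        rw [ContinuousMap.coe_mul, star_mul]
        exact hm (Submodule.mul_mem_mul hH.2 hF.2)⟩
      add_mem' := fun {F H} hF hH => ⟨A.add_mem hF.1 hH.1, by
        rw [ContinuousMap.coe_add, star_add]
        exact A.add_mem hF.2 hH.2⟩
      algebraMap_mem' := fun c => by
        have : ((algebraMap ℂ C(G, ℂ) c : C(G, ℂ)) : G → ℂ) = c • (1 : G → ℂ) := by
          funext x
          simp
        refine ⟨this ▸ A.smul_mem c h1, ?_⟩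
        rw [this, star_smul, star_one]
        exact A.smul_mem _ h1
      star_mem' := fun {F} hF => ⟨hF.2, by
        rw [ContinuousMap.coe_star, star_star]
        exact hF.1⟩ }
  have hS : S.SeparatesPoints := by
    intro x y hxy
    by_contra hn
    refine hxy (hsep x y fun f hf => ?_)
    by_contra hne
    exact hn ⟨f, ⟨⟨f, hc f hf⟩, ⟨hV hf, hV (hs f hf)⟩, rfl⟩, hne⟩
  have htop := ContinuousMap.starSubalgebra_topologicalClosure_eq_top_of_separatesPoints S hS
  let g' : C(G, ℂ) := ⟨g, hg⟩
  have hcl : IsClosed {F : C(G, ℂ) | ∫ x, (g' * star F) x ∂ν = 0} :=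
    isClosed_eq ((continuous_int ν).comp (continuous_const.mul continuous_star)) continuous_const
  have hsub : (S : Set C(G, ℂ)) ⊆ {F : C(G, ℂ) | ∫ x, (g' * star F) x ∂ν = 0} :=
    fun F hF => ho _ hF.1
  have hg' : g' ∈ closure (S : Set C(G, ℂ)) := by
    rw [← StarSubalgebra.topologicalClosure_coe, htop]
    trivial
  exact B_def ν hg (closure_minimal hsub hcl hg')

end CompI

open CompI in
theorem comp3 (h : S_Green) : S_Comp := by
  intro G _ _ _ _ _ e he V hfg hst hs hsep μ hfin
  borelize G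
  let ν : Measure G := (Measure.haar (G := G)).inv
  have hG : ∀ f g : G → ℂ, C2 e f → C2 e g → B ν (Lap e f) g = B ν f (Lap e g) :=
    h G ν e he
  set A : Submodule ℂ (G → ℂ) := ⨆ d : ℕ, V ^ d with hA
  have hle : ∀ d, V ^ d ≤ A := fun d => le_iSup (fun d : ℕ => V ^ d) d
  have hAs : Stab e A := Stab.iSup fun d => hst.pow he d
  have hm : A * A ≤ A := by
    rw [hA, Submodule.iSup_mul]
    refine iSup_le fun a => ?_
    rw [Submodule.mul_iSup]
    refine iSup_le fun b => ?_
    rw [← pow_add]
    exact hle _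
  -- the shifted Laplacian is symmetric
  have hsym : ∀ f g : G → ℂ, C2 e f → C2 e g →
      B ν (Lap e f + (-μ : ℂ) • f) g = B ν f (Lap e g + (-μ : ℂ) • g) := by
    intro f g hf hg
    rw [B_add_left ν hf.continuous_Lap (hf.1.1.const_smul _) hg.1.1,
      B_add_right ν hf.1.1 hg.continuous_Lap (hg.1.1.const_smul _), B_smul_left, B_smul_right,
      hG f g hf hg]
    simp
  -- an eigenfunction orthogonal to the polynomial eigenfunctions vanishes
  have key : ∀ g ∈ WE e μ, (∀ u ∈ WE e μ ⊓ A, B ν g u = 0) → g = 0 := by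
    intro g hg ho
    refine eq_zero_of_orth ν A (hle 0 (by rw [pow_zero]; exact Submodule.one_le.mp le_rfl)) hm V
      (by simpa using hle 1) (fun f hf => (hst f hf).1.1) hs hsep hg.1.1.1 ?_
    intro u hu
    induction hu using Submodule.iSup_induction' with
    | zero => exact B_zero_right ν g
    | add u v hu hv iu iv =>
      rw [B_add_right ν hg.1.1.1 (hAs u hu).1.1 (hAs v hv).1.1, iu, iv, add_zero]
    | mem d u hu =>
      have hW : Stab e (V ^ d) := hst.pow he d
      have : FiniteDimensional ℂ ↥(V ^ d) := Module.Finite.iff_fg.mpr (hfg.pow d)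
      let T : ↥(V ^ d) →ₗ[ℂ] ↥(V ^ d) := hW.lapL + (-μ : ℂ) • LinearMap.id
      have hT : ∀ w, (T w).1 = Lap e w.1 + (-μ : ℂ) • w.1 := fun w => rfl
      have hdis : Disjoint (LinearMap.range T) (LinearMap.ker T) := by
        rw [Submodule.disjoint_def]
        rintro _ ⟨w, rfl⟩ hk
        refine Subtype.ext (B_def ν (hW _ (T w).2).1.1 ?_)
        have h1 := hsym w.1 (T w).1 (hW.c2 w.2) (hW.c2 (T w).2)
        rw [← hT, ← hT, LinearMap.mem_ker.mp hk] at h1
        rw [h1]
        exact B_zero_right ν _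
      have htop : LinearMap.range T ⊔ LinearMap.ker T = ⊤ := by
        apply Submodule.eq_top_of_finrank_eq
        have h1 := Submodule.finrank_sup_add_finrank_inf_eq (LinearMap.range T) (LinearMap.ker T)
        rw [hdis.eq_bot, finrank_bot, add_zero, LinearMap.finrank_range_add_finrank_ker] at h1
        exact h1
      have hu' : (⟨u, hu⟩ : ↥(V ^ d)) ∈ LinearMap.range T ⊔ LinearMap.ker T := htop ▸ trivial
      obtain ⟨_, ⟨w, rfl⟩, z, hz, hsum⟩ := Submodule.mem_sup.mp hu'
      have hu2 : u = (T w).1 + z.1 := (congrArg Subtype.val hsum).symm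
      have hz' : z.1 ∈ WE e μ := by
        refine ⟨hW.c2 z.2, ?_⟩
        have := hT z
        rw [LinearMap.mem_ker.mp hz, neg_smul] at this
        exact (add_neg_eq_zero.mp this.symm)
      rw [hu2, B_add_right ν hg.1.1.1 (hW _ (T w).2).1.1 (hW _ z.2).1.1, ho z ⟨hz', hle d z.2⟩,
        hT, ← hsym g w hg.1 (hW.c2 w.2), hg.2, neg_smul, add_neg_cancel]
      simp [B]
  intro f hf
  by_contra hn
  set E := WE e μ ⊓ A with hE
  let E' : Submodule ℂ (G → ℂ) := E ⊔ Submodule.span ℂ {f}
  have hE' : E' ≤ WE e μ :=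
    sup_le inf_le_left ((Submodule.span_singleton_le_iff_mem _ _).mpr hf)
  have hlt : E < E' := lt_of_le_of_ne le_sup_left fun h' => hn (by
    have : f ∈ E' := Submodule.mem_sup_right (Submodule.mem_span_singleton_self f)
    rw [← h'] at this
    exact this.2)
  let b := Module.finBasis ℂ E
  let Φ : E' →ₗ[ℂ] (Fin (Module.finrank ℂ E) → ℂ) :=
    { toFun := fun g i => B ν g.1 (b i).1
      map_add' := fun g g' => funext fun i =>
        B_add_left ν (hE' g.2).1.1.1 (hE' g'.2).1.1.1 (b i).2.1.1.1.1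
      map_smul' := fun c g => funext fun i => B_smul_left ν c _ _ }
  have hker : LinearMap.ker Φ ≠ ⊥ := LinearMap.ker_ne_bot_of_finrank_lt (by
    rw [Module.finrank_fin_fun]
    exact Submodule.finrank_lt_finrank_of_lt hlt)
  obtain ⟨g, hg, hg0⟩ := (Submodule.ne_bot_iff _).mp hker
  refine hg0 (Subtype.ext (key g.1 (hE' g.2) fun u hu => ?_))
  have hu' : (⟨u, hu⟩ : E) ∈ Submodule.span ℂ (range b) := b.span_eq ▸ trivial
  have hall : ∀ v : E, v ∈ Submodule.span ℂ (range b) → B ν g.1 v.1 = 0 := by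
    intro v hv
    induction hv using Submodule.span_induction with
    | mem _ hv =>
      obtain ⟨i, rfl⟩ := hv
      exact congrFun (LinearMap.mem_ker.mp hg) i
    | zero => exact B_zero_right ν _
    | add v w _ _ iv iw =>
      rw [Submodule.coe_add, B_add_right ν (hE' g.2).1.1.1 v.2.1.1.1.1 w.2.1.1.1.1, iv, iw,
        add_zero]
    | smul c v _ iv => rw [Submodule.coe_smul, B_smul_right, iv, mul_zero]
  exact hall _ hu'

end

end Pool.Agent.P.MP_e311cd_gt
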