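import Pool.Agent.P.MP_e311cd_gt.I.St

/-! Sizes of the explicit sets. -/

namespace Pool.Agent.P.MP_e311cd_gt

open Set

noncomputable section

namespace CrdI

/-- finite with at most `n` elements -/
def Fb {X : Type} (S : Set X) (n : ℕ) : Prop := S.Finite ∧ S.ncard ≤ n

theorem Fb.union {X : Type} {S T : Set X} {n m : ℕ} (h : Fb S n) (h' : Fb T m) :
    Fb (S ∪ T) (n + m) :=
  ⟨h.1.union h'.1, (ncard_union_le S T).trans (add_le_add h.2 h'.2)⟩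

theorem Fb.mono {X : Type} {S T : Set X} {n : ℕ} (h : Fb T n) (e : S ⊆ T) : Fb S n :=
  ⟨h.1.subset e, (ncard_le_ncard e h.1).trans h.2⟩

theorem Fb.prod {X Y : Type} {S : Set X} {T : Set Y} {n m : ℕ} (h : Fb S n) (h' : Fb T m) :
    Fb (S ×ˢ T) (n * m) :=
  ⟨h.1.prod h'.1, by rw [ncard_prod]; exact Nat.mul_le_mul h.2 h'.2⟩

theorem Fb.inj {X Y : Type} {S : Set X} {T : Set Y} {n : ℕ} (h : Fb T n) (f : X → Y)
    (hf : Function.Injective f) (e : ∀ a ∈ S, f a ∈ T) : Fb S n :=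
  ⟨(h.1.preimage hf.injOn).subset e, (ncard_le_ncard_of_injOn f e hf.injOn h.1).trans h.2⟩

theorem root2 (p : ℝ) : Fb {x : ℝ | x ^ 2 = p} 2 := by
  rcases eq_empty_or_nonempty {x : ℝ | x ^ 2 = p} with h | ⟨a, ha⟩
  · rw [h]; exact ⟨finite_empty, by simp⟩
  have h1 : Fb ({a, -a} : Set ℝ) 2 := ⟨toFinite _, (ncard_insert_le _ _).trans (by simp)⟩
  refine h1.mono fun x hx => ?_
  exact sq_eq_sq_iff_eq_or_eq_neg.mp (show x ^ 2 = a ^ 2 from hx.trans ha.symm)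

theorem root0 : Fb {x : ℝ | x = 0} 1 := ⟨by simp, by simp⟩

/-- four functions that determine a unit quaternion -/
structure Co (f₀ f₁ f₂ f₃ : U → ℝ) : Prop where
  ext : ∀ a b, f₀ a = f₀ b → f₁ a = f₁ b → f₂ a = f₂ b → f₃ a = f₃ b → a = b
  sq : ∀ a, f₀ a ^ 2 + f₁ a ^ 2 + f₂ a ^ 2 + f₃ a ^ 2 = 1

variable {f₀ f₁ f₂ f₃ : U → ℝ}

theorem Co.std : Co (fun a => c0 a) (fun a => c1 a) (fun a => c2 a) (fun a => c3 a) :=
  ⟨fun _ _ => U.ext, U.sq⟩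

theorem Co.s1 (h : Co f₀ f₁ f₂ f₃) : Co f₁ f₀ f₂ f₃ :=
  ⟨fun a b e1 e0 => h.ext a b e0 e1, fun a => by linarith [h.sq a]⟩
theorem Co.s2 (h : Co f₀ f₁ f₂ f₃) : Co f₀ f₂ f₁ f₃ :=
  ⟨fun a b e0 e2 e1 => h.ext a b e0 e1 e2, fun a => by linarith [h.sq a]⟩
theorem Co.s3 (h : Co f₀ f₁ f₂ f₃) : Co f₀ f₁ f₃ f₂ :=
  ⟨fun a b e0 e1 e3 e2 => h.ext a b e0 e1 e2 e3, fun a => by linarith [h.sq a]⟩

theorem Co.box (h : Co f₀ f₁ f₂ f₃) {A B C D : Set ℝ} {a b c d : ℕ} (hA : Fb A a) (hB : Fb B b)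
    (hC : Fb C c) (hD : Fb D d) :
    Fb {x : U | f₀ x ∈ A ∧ f₁ x ∈ B ∧ f₂ x ∈ C ∧ f₃ x ∈ D} (a * (b * (c * d))) :=
  (hA.prod (hB.prod (hC.prod hD))).inj (fun x => (f₀ x, f₁ x, f₂ x, f₃ x))
    (fun x y e => by
      simp only [Prod.mk.injEq] at e
      exact h.ext x y e.1 e.2.1 e.2.2.1 e.2.2.2) fun _ hx => hx

theorem Co.half (h : Co f₀ f₁ f₂ f₃) : Fb {x : U | f₀ x ^ 2 = 1 / 2 ∧ f₁ x ^ 2 = 1 / 2} 4 :=
  (h.box (root2 (1 / 2)) (root2 (1 / 2)) root0 root0).mono fun x hx => by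
    have := h.sq x
    rw [hx.1, hx.2] at this
    refine ⟨hx.1, hx.2, ?_, ?_⟩
    · exact pow_eq_zero_iff two_ne_zero |>.mp (by nlinarith [sq_nonneg (f₂ x), sq_nonneg (f₃ x)])
    · exact pow_eq_zero_iff two_ne_zero |>.mp (by nlinarith [sq_nonneg (f₂ x), sq_nonneg (f₃ x)])

theorem Co.cy (h : Co f₀ f₁ f₂ f₃) : Fb {x : U | f₀ x = 0 ∧ Cy (f₁ x) (f₂ x) (f₃ x)} 24 :=
  ((h.box root0 (root2 (1 / 4)) (root2 ((3 + √5) / 8)) (root2 ((3 - √5) / 8))).union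
    ((h.box root0 (root2 ((3 - √5) / 8)) (root2 (1 / 4)) (root2 ((3 + √5) / 8))).union
      (h.box root0 (root2 ((3 + √5) / 8)) (root2 ((3 - √5) / 8)) (root2 (1 / 4))))).mono
    fun _ hx => by
      rcases hx with ⟨h0, ⟨h1, h2, h3⟩ | ⟨h1, h2, h3⟩ | ⟨h1, h2, h3⟩⟩
      · exact Or.inl ⟨h0, h1, h2, h3⟩
      · exact Or.inr (Or.inl ⟨h0, h3, h1, h2⟩)
      · exact Or.inr (Or.inr ⟨h0, h2, h3, h1⟩)

theorem Co.unit (h : Co f₀ f₁ f₂ f₃) {a : U} (e : f₀ a ^ 2 = 1) :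
    (f₀ a = 1 ∨ f₀ a = -1) ∧ f₁ a = 0 ∧ f₂ a = 0 ∧ f₃ a = 0 := by
  have := h.sq a
  refine ⟨sq_eq_one_iff.mp e, ?_, ?_, ?_⟩ <;>
    exact pow_eq_zero_iff two_ne_zero |>.mp
      (by nlinarith [sq_nonneg (f₁ a), sq_nonneg (f₂ a), sq_nonneg (f₃ a)])

theorem SQ_eq : SQ = {1, -1, qi, -qi, qj, -qj, qk, -qk} := by
  ext a
  simp only [mem_insert_iff, mem_singleton_iff]
  constructor
  · rintro (h | h | h | h)
    · obtain ⟨h0 | h0, h1, h2, h3⟩ := Co.std.unit h <;> simp [U.eq_iff, h0, h1, h2, h3]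
    · obtain ⟨h0 | h0, h1, h2, h3⟩ := Co.std.s1.unit h <;> simp [U.eq_iff, h0, h1, h2, h3]
    · obtain ⟨h0 | h0, h1, h2, h3⟩ := Co.std.s2.s1.unit h <;> simp [U.eq_iff, h0, h1, h2, h3]
    · obtain ⟨h0 | h0, h1, h2, h3⟩ := Co.std.s3.s2.s1.unit h <;> simp [U.eq_iff, h0, h1, h2, h3]
  · rintro (rfl | rfl | rfl | rfl | rfl | rfl | rfl | rfl) <;> simp [SQ]

theorem card_SQ : SQ.Finite ∧ SQ.ncard = 8 := by
  rw [SQ_eq]
  refine ⟨toFinite _, ?_⟩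
  rw [ncard_insert_of_notMem, ncard_insert_of_notMem, ncard_insert_of_notMem,
    ncard_insert_of_notMem, ncard_insert_of_notMem, ncard_insert_of_notMem,
    ncard_insert_of_notMem, ncard_singleton]
  all_goals simp [U.eq_iff] <;> norm_num

theorem card_ST : Fb ST 24 :=
  Fb.union (n := 8) (m := 16) ⟨card_SQ.1, card_SQ.2.le⟩
    (Co.std.box (root2 (1 / 4)) (root2 (1 / 4)) (root2 (1 / 4)) (root2 (1 / 4)))

theorem card_SO : Fb SO 48 :=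
  card_ST.union (Co.std.half.union (Co.std.s2.half.union (Co.std.s3.s2.half.union
    (Co.std.s1.s2.half.union (Co.std.s1.s3.s2.s1.s1.half.union Co.std.s2.s1.s3.s2.half)))))

theorem card_SI : Fb SI 120 :=
  card_ST.union (Co.std.cy.union (Co.std.s1.s3.cy.union (Co.std.s2.s1.s3.s2.cy.union
    Co.std.s3.s2.s1.s3.s2.s3.cy)))

theorem coe_qw_sq : (qw ^ 2).1 = mkH (-1 / 2) (1 / 2) (1 / 2) (1 / 2) := by
  rw [pow_two]
  apply H.ext <;> simp <;> norm_num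

theorem half_cases {x : ℝ} (h : x ^ 2 = 1 / 4) : x = 1 / 2 ∨ x = -1 / 2 := by
  rcases sq_eq_sq_iff_eq_or_eq_neg.mp (show x ^ 2 = (1 / 2) ^ 2 by linarith) with h | h
  · exact Or.inl h
  · exact Or.inr (by linarith)

theorem split {a : U} (ha : a ∈ ST) : ∃ q ∈ SQ, ∃ e < 3, a = q * qw ^ e := by
  rcases ha with ha | ⟨h0, h1, h2, h3⟩
  · exact ⟨a, ha, 0, by norm_num, by simp⟩
  have key : a * qw⁻¹ ∈ SQ ∨ a * (qw ^ 2)⁻¹ ∈ SQ := by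
    simp only [SQ, mem_ofPred_eq, U.coe_mul, U.coe_inv, coe_qw_sq, coe_qw, c0_mul, c1_mul, c2_mul,
      c3_mul, c0_star, c1_star, c2_star, c3_star, c0_mk, c1_mk, c2_mk, c3_mk]
    rcases half_cases h0 with e0 | e0 <;> rcases half_cases h1 with e1 | e1 <;>
      rcases half_cases h2 with e2 | e2 <;> rcases half_cases h3 with e3 | e3 <;>
      rw [e0, e1, e2, e3] <;> norm_num
  rcases key with k | k
  · exact ⟨_, k, 1, by norm_num, by simp⟩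
  · exact ⟨_, k, 2, by norm_num, by simp⟩

/-- the product of the coordinates -/
def pr (a : U) : ℝ := c0 a * c1 a * c2 a * c3 a

theorem coset {q : U} (hq : q ∈ SQ) : (q * qw ^ 0 ∈ ST ∧ pr (q * qw ^ 0) = 0) ∧
    (q * qw ^ 1 ∈ ST ∧ pr (q * qw ^ 1) = 1 / 16) ∧
      (q * qw ^ 2 ∈ ST ∧ pr (q * qw ^ 2) = -1 / 16) := by
  refine ⟨⟨Or.inl (by simpa using hq), ?_⟩, ⟨Or.inr ?_, ?_⟩, ⟨Or.inr ?_, ?_⟩⟩ <;>
    rw [SQ_eq] at hq <;>
    simp only [pr, mem_ofPred_eq, pow_zero, mul_one, pow_one, U.coe_mul, coe_qw_sq, coe_qw, c0_mul,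
      c1_mul, c2_mul, c3_mul, c0_mk, c1_mk, c2_mk, c3_mk] <;>
    rcases hq with rfl | rfl | rfl | rfl | rfl | rfl | rfl | rfl <;> simp <;> norm_num

end CrdI

open CrdI in
theorem crd : S_Crd := by
  refine ⟨card_SQ, card_ST, card_SO, card_SI, fun a => split, ?_, ?_⟩
  · rintro a ⟨q, hq, e, he, rfl⟩
    obtain ⟨h0, h1, h2⟩ := coset hq
    interval_cases e
    exacts [h0.1, h1.1, h2.1]
  · intro q hq q' hq' e he e' he' h
    obtain ⟨⟨-, h0⟩, ⟨-, h1⟩, -, h2⟩ := coset hq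
    obtain ⟨⟨-, k0⟩, ⟨-, k1⟩, -, k2⟩ := coset hq'
    have := congrArg pr h
    interval_cases e <;> interval_cases e' <;> first | rfl | (exfalso; linarith)

end

end Pool.Agent.P.MP_e311cd_gt
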