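import Pool.Agent.P.MP_e311cd_gt.I.St

/-! One of the two projections of a free group of pairs lies in a torus. -/

namespace Pool.Agent.P.MP_e311cd_gt

namespace CycI

/-- central elements -/
def Ce (a : U) : Prop := a = 1 ∨ a = -1

theorem Ce.not_pure {a : U} (h : Ce a) : c0 a ≠ 0 := by
  have := U.re_sq_eq_one.2 h
  intro e
  rw [e] at this
  norm_num at this

theorem Ce.pow {a : U} (h : Ce a) (n : ℕ) : Ce (a ^ n) := by
  rcases h with rfl | rfl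
  · exact Or.inl (one_pow n)
  · exact neg_one_pow_eq_or U n

theorem Ce.mul_pure {z a : U} (h : Ce z) (ha : c0 a = 0) : c0 (z * a).1 = 0 := by
  rcases h with rfl | rfl <;> simp [ha]

theorem Ce.pure_mul {z a : U} (h : Ce z) (ha : c0 a = 0) : c0 (a * z).1 = 0 := by
  rw [U.c0_comm]; exact h.mul_pure ha

theorem even_pow {a : U} (ha : c0 a = 0) {n : ℕ} (hn : Even n) : Ce (a ^ n) := by
  obtain ⟨k, rfl⟩ := hn
  rw [← two_mul, pow_mul, pow_two, U.mul_self_eq_neg_one.2 ha]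
  exact neg_one_pow_eq_or U k

theorem odd_pow {a : U} (ha : c0 a = 0) {n : ℕ} (hn : Odd n) : ∃ z, Ce z ∧ a ^ n = a * z := by
  obtain ⟨k, rfl⟩ := hn
  exact ⟨a ^ (2 * k), even_pow ha (even_two_mul k), pow_succ' _ _⟩

theorem odd_pure {a : U} (ha : c0 a = 0) {n : ℕ} (hn : Odd n) : c0 (a ^ n).1 = 0 := by
  obtain ⟨z, hz, e⟩ := odd_pow ha hn
  rw [e]; exact hz.pure_mul ha

theorem two_pow (e : ℕ) : ∀ x : U, x ^ 2 ^ e = 1 → Ce x ∨ ∃ n, c0 (x ^ n).1 = 0 := by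
  induction e with
  | zero => intro x h; exact Or.inl (Or.inl (by simpa using h))
  | succ e ih =>
    intro x h
    rw [pow_succ', pow_mul, pow_two] at h
    rcases ih _ h with (h1 | h1) | ⟨n, h1⟩
    · exact Or.inl (U.mul_self_eq_one.1 h1)
    · exact Or.inr ⟨1, by rw [pow_one]; exact U.mul_self_eq_neg_one.1 h1⟩
    · exact Or.inr ⟨2 * n, by rw [pow_mul, pow_two]; exact h1⟩

theorem tri {A : Subgroup U} [Finite A] {a : U} (ha : a ∈ A) :
    (∃ q, Odd q ∧ Ce (a ^ q)) ∨ (∃ q, Odd q ∧ c0 (a ^ q).1 = 0) ∨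
      ∃ n, Even n ∧ c0 (a ^ n).1 = 0 := by
  have h1 : a ^ Nat.card A = 1 := by
    exact congrArg Subtype.val (pow_card_eq_one' (G := A) (x := ⟨a, ha⟩))
  obtain ⟨e, q, hq, h2⟩ := Nat.exists_eq_two_pow_mul_odd (Nat.card_pos (α := A)).ne'
  rw [h2, mul_comm, pow_mul] at h1
  rcases two_pow e _ h1 with h3 | ⟨n, h3⟩
  · exact Or.inl ⟨q, hq, h3⟩
  · rw [← pow_mul] at h3
    rcases Nat.even_or_odd (q * n) with h4 | h4
    · exact Or.inr (Or.inr ⟨_, h4, h3⟩)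
    · exact Or.inr (Or.inl ⟨_, h4, h3⟩)

theorem anti_pure {a u : U} (h : a * u = -(u * a)) : c0 a = 0 := by
  have h1 : a = -(u * a * u⁻¹) := by
    rw [← neg_mul, ← h, mul_inv_cancel_right]
  have h2 := U.c0_conj u a
  have h3 : c0 a = -c0 (u * a * u⁻¹).1 := by
    conv_lhs => rw [h1]
    rw [U.coe_neg, c0_neg]
  linarith

theorem anti_D {A : Subgroup U} {n : ℕ} {u : U} (h2 : 2 ≤ n) (hc : Nat.card A = 4 * n)
    (hn : {a | a ∈ A ∧ a * u = u * a}.ncard = 2 * n)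
    (h : ∀ a ∈ A, a * u = u * a ∨ a * u = -(u * a)) : ∃ c ∈ A, c * u = -(u * c) := by
  by_contra h0
  have e : {a | a ∈ A ∧ a * u = u * a} = (A : Set U) := by
    ext a
    exact ⟨fun ha => ha.1, fun ha => ⟨ha, (h a ha).resolve_right fun e => h0 ⟨a, ha, e⟩⟩⟩
  rw [e, ← Nat.card_coe_set_eq] at hn
  have : Nat.card A = 2 * n := hn
  omega

theorem F1 (h : S_Pole) {A : Subgroup U} [hA : Finite A] (h1 : -1 ∈ A) (h2 : ¬ TyC A) :
    ∃ c ∈ A, c0 c = 0 := by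
  rcases h A hA h1 with h3 | ⟨n, n2, hc, u, -, hn, h3⟩ | ⟨hc, -⟩ | ⟨-, hr, -⟩ | ⟨-, hr, -⟩
  · exact absurd h3 h2
  · obtain ⟨c, hc1, hc2⟩ := anti_D n2 hc hn h3
    exact ⟨c, hc1, anti_pure hc2⟩
  · have : Fact (Nat.Prime 2) := ⟨Nat.prime_two⟩
    obtain ⟨P, hP⟩ := Sylow.exists_subgroup_card_pow_prime (G := A) 2 (n := 2)
      (by rw [hc]; norm_num)
    by_contra h0
    have h4 : ∀ x : P, x.1.1 = 1 ∨ x.1.1 = -1 := by
      intro x
      have h5 : x.1.1 ^ 4 = 1 := by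
        have := congrArg (fun y : P => y.1.1) (pow_card_eq_one' (G := P) (x := x))
        rw [hP] at this
        simpa using this
      have h6 : x.1.1 * x.1.1 * (x.1.1 * x.1.1) = 1 := by
        rw [← h5, pow_succ, pow_succ, pow_succ, pow_one, mul_assoc (x.1.1 * x.1.1)]
      rcases U.mul_self_eq_one.1 h6 with h7 | h7
      · exact U.mul_self_eq_one.1 h7
      · exact absurd ⟨_, x.1.2, U.mul_self_eq_neg_one.1 h7⟩ h0
    have h8 : Nat.card P ≤ Nat.card ({1, -1} : Set U) :=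
      Nat.card_le_card_of_injective (fun x : P => (⟨x.1.1, h4 x⟩ : ({1, -1} : Set U)))
        fun x y e => Subtype.ext (Subtype.ext (Subtype.mk.inj e))
    rw [Nat.card_coe_set_eq] at h8
    have h9 := Set.ncard_insert_le (1 : U) {-1}
    rw [Set.ncard_singleton] at h9
    omega
  · obtain ⟨c, hc, h3, -⟩ := hr 1 A.one_mem
    exact ⟨c, hc, h3⟩
  · obtain ⟨c, hc, h3, -⟩ := hr 1 A.one_mem
    exact ⟨c, hc, h3⟩

theorem F2 (h : S_Pole) {A : Subgroup U} [hA : Finite A] (h1 : -1 ∈ A) (h2 : ¬ TyC A) {a : U}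
    (ha : a ∈ A) {k : ℕ} (hk : Even k) (hp : c0 (a ^ k).1 = 0) :
    ∃ c ∈ A, c0 c = 0 ∧ c0 (a * c).1 = 0 := by
  have h0 : c0 a ≠ 0 := fun e => (even_pow e hk).not_pure hp
  rcases h A hA h1 with h3 | ⟨n, n2, hc, u, -, hn, h3⟩ | ⟨-, h3⟩ | ⟨-, hr, -⟩ | ⟨-, hr, -⟩
  · exact absurd h3 h2
  · obtain ⟨c, hc1, hc2⟩ := anti_D n2 hc hn h3
    have h4 : a * u = u * a := (h3 a ha).resolve_right fun e => h0 (anti_pure e)
    refine ⟨c, hc1, anti_pure hc2, anti_pure (u := u) ?_⟩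
    rw [mul_assoc, hc2, mul_neg, ← mul_assoc, h4, mul_assoc]
  · exfalso
    rcases h3 a ha with h4 | h4 | h4
    · exact h0 h4
    · obtain ⟨j, rfl⟩ := hk
      have h5 : (a ^ (j + j)) ^ 3 = 1 := by
        rw [← pow_mul, show (j + j) * 3 = 6 * j by ring, pow_mul, U.pow_six h4, one_pow]
      have h6 := odd_pure hp (n := 3) (by decide)
      rw [h5] at h6
      simp at h6
    · exact (Ce.pow (U.re_sq_eq_one.1 h4) k).not_pure hp
  · exact hr a ha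
  · exact hr a ha

theorem noPP {Γ : Subgroup (U × U)} (f : FreeG Γ) {a b : U} (h : (a, b) ∈ Γ) (ha : c0 a = 0)
    (hb : c0 b = 0) : False :=
  Ce.not_pure (f.free a b h (ha.trans hb.symm)).2 ha

theorem main (h : S_Pole) {Γ : Subgroup (U × U)} (f : FreeG Γ)
    (H : ∀ z b, (z, b) ∈ Γ → Ce z → c0 b ≠ 0) (hL : ¬ TyC (PL Γ)) (hR : ¬ TyC (PR Γ)) :
    False := by
  have := f.fin
  have fL : Finite (PL Γ) := ((Set.toFinite (Γ : Set (U × U))).image _).to_subtype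
  have fR : Finite (PR Γ) := ((Set.toFinite (Γ : Set (U × U))).image _).to_subtype
  have pw : ∀ {a b : U}, (a, b) ∈ Γ → ∀ n : ℕ, (a ^ n, b ^ n) ∈ Γ := fun hab n => Γ.pow_mem hab n
  obtain ⟨b, hb, pb⟩ := F1 h (mem_PR.2 ⟨_, f.neg⟩) hR
  obtain ⟨a, hab⟩ := mem_PR.1 hb
  have ha : a ∈ PL Γ := mem_PL.2 ⟨b, hab⟩
  rcases tri ha with ⟨q, hq, h1⟩ | ⟨q, hq, h1⟩ | ⟨n, hn, h1⟩
  · exact H _ _ (pw hab q) h1 (odd_pure pb hq)
  · exact noPP f (pw hab q) h1 (odd_pure pb hq)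
  · obtain ⟨c, hc, pc, pac⟩ := F2 h (mem_PL.2 ⟨_, f.neg⟩) hL ha hn h1
    obtain ⟨d, hcd⟩ := mem_PL.1 hc
    rcases tri (mem_PR.2 ⟨c, hcd⟩) with ⟨q, hq, h2⟩ | ⟨q, hq, h2⟩ | ⟨m, hm, h2⟩
    · obtain ⟨z, hz, e⟩ := odd_pow pc hq
      have h3 : (a * c ^ q, b * d ^ q) ∈ Γ := Γ.mul_mem hab (pw hcd q)
      refine noPP f h3 ?_ (h2.pure_mul pb)
      rw [e, ← mul_assoc]
      exact hz.pure_mul pac
    · exact noPP f (pw hcd q) (odd_pure pc hq) h2
    · exact H _ _ (pw hcd m) (even_pow pc hm) h2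

end CycI

open CycI in
theorem cyc (h : S_Pole) : S_Cyc := by
  intro Γ f
  by_contra h0
  rw [not_or] at h0
  by_cases H : ∀ z b, (z, b) ∈ Γ → Ce z → c0 b ≠ 0
  · exact main h f H h0.1 h0.2
  · push Not at H
    obtain ⟨z, b, hzb, hz, pb⟩ := H
    obtain ⟨Γ', e, hs⟩ := exists_swap Γ
    have eL : PL Γ' = PR Γ := by
      ext a; rw [mem_PL, mem_PR]; exact exists_congr fun x => (hs x a).symm
    have eR : PR Γ' = PL Γ := by
      ext a; rw [mem_PL, mem_PR]; exact exists_congr fun x => (hs a x).symm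
    refine main h (e.freeG f) (fun z' c hc hz' pc => ?_) (eL ▸ h0.2) (eR ▸ h0.1)
    have h1 : (z * c, b * z') ∈ Γ := Γ.mul_mem hzb ((hs c z').2 hc)
    exact noPP f h1 (hz.mul_pure pc) (hz'.pure_mul pb)

end Pool.Agent.P.MP_e311cd_gt
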