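import Pool.Agent.P.MP_e311cd_gt.I.St

/-! Double poles of the generating function of the multiplicities. -/

namespace Pool.Agent.P.MP_e311cd_gt

open Polynomial

noncomputable section

namespace DPI

/-- the shift of sequences -/
def sh : Module.End ℝ (ℕ → ℝ) := LinearMap.funLeft ℝ ℝ Nat.succ

theorem sh_apply (f : ℕ → ℝ) (k : ℕ) : sh f k = f (k + 1) := rfl

/-- the recurrence polynomial -/
def qp (c : ℝ) : ℝ[X] := X * X - C (2 * c) * X + 1

theorem qp_apply (c : ℝ) (f : ℕ → ℝ) (k : ℕ) :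
    aeval sh (qp c) f k = f (k + 2) - 2 * c * f (k + 1) + f k := by
  simp [qp, sh_apply, Module.algebraMap_end_apply]
  ring

theorem mul_app (P Q : ℝ[X]) (f : ℕ → ℝ) : aeval sh (P * Q) f = aeval sh P (aeval sh Q f) := by
  rw [map_mul]; rfl

theorem kill {P Q : ℝ[X]} {f : ℕ → ℝ} (h : Q ∣ P) (h0 : aeval sh Q f = 0) : aeval sh P f = 0 := by
  obtain ⟨R, rfl⟩ := h
  rw [mul_comm, mul_app, h0, map_zero]

theorem chi_rec (s : ℝ) (k : ℕ) : chi s (k + 2) = 2 * s * chi s (k + 1) - chi s k := rfl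

theorem chi_unit {s : ℝ} (h : s ^ 2 = 1) (k : ℕ) : chi s k = (k + 1) * s ^ k := by
  induction k using Nat.twoStepInduction with
  | zero => simp [chi]
  | one => simp only [chi]; push_cast; ring
  | more k h1 h2 =>
    rw [chi_rec, h1, h2]
    have e : s ^ k = s ^ k * s ^ 2 := by rw [h, mul_one]
    push_cast
    linear_combination (-(k + 1 : ℝ)) * e

theorem chi_mul {s : ℝ} (h : s ^ 2 = 1) (t : ℝ) (k : ℕ) : chi (s * t) k = s ^ k * chi t k := by
  induction k using Nat.twoStepInduction with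
  | zero => simp [chi]
  | one => simp [chi]; ring
  | more k h1 h2 =>
    rw [chi_rec, chi_rec, h1, h2]
    have e : s ^ k = s ^ k * s ^ 2 := by rw [h, mul_one]
    linear_combination (-chi t k) * e

/-- the product sequence -/
def uu (s t : ℝ) : ℕ → ℝ := fun k => chi s k * chi t k

/-- the resonant sequence -/
def ww (c : ℝ) : ℕ → ℝ := fun k => (k + 1) * chi c k

theorem uu_eq {s t : ℝ} (h : s ^ 2 = 1 ∨ t ^ 2 = 1) : uu s t = ww (s * t) := by
  funext k
  unfold uu ww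
  rcases h with h | h
  · rw [chi_unit h, chi_mul h]; ring
  · rw [chi_unit h, mul_comm s t, chi_mul h]; ring

theorem uu_kill {s t r : ℝ} (h : r ^ 2 = (1 - s ^ 2) * (1 - t ^ 2)) :
    aeval sh (qp (s * t + r) * qp (s * t - r)) (uu s t) = 0 := by
  funext k
  rw [mul_app, qp_apply, qp_apply, qp_apply, qp_apply]
  unfold uu
  have a4 : chi s (k + 2 + 2) = 2 * s * chi s (k + 1 + 2) - chi s (k + 2) := rfl
  have a3 : chi s (k + 1 + 2) = 2 * s * chi s (k + 2) - chi s (k + 1) := rfl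
  have b4 : chi t (k + 2 + 2) = 2 * t * chi t (k + 1 + 2) - chi t (k + 2) := rfl
  have b3 : chi t (k + 1 + 2) = 2 * t * chi t (k + 2) - chi t (k + 1) := rfl
  have e1 : k + 2 + 1 = k + 1 + 2 := rfl
  have e2 : k + 1 + 1 = k + 2 := rfl
  rw [e1, e2, a4, b4, a3, b3, chi_rec s k, chi_rec t k, Pi.zero_apply]
  linear_combination
    (-4 * (2 * s * chi s (k + 1) - chi s k) * (2 * t * chi t (k + 1) - chi t k)) * h

/-- the operator that kills everything except double poles at `c` -/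
def OO (c : ℝ) (F : Finset ℝ) : ℝ[X] := (∏ c' ∈ F.erase c, qp c' ^ 2) * qp c

theorem dvd_OO {c a b : ℝ} {F : Finset ℝ} (ha : a ∈ F) (hb : b ∈ F) (h : ¬ (a = c ∧ b = c)) :
    qp a * qp b ∣ OO c F := by
  have key : ∀ x ∈ F, x ≠ c → qp x ^ 2 ∣ ∏ c' ∈ F.erase c, qp c' ^ 2 := fun x hx hc =>
    Finset.dvd_prod_of_mem (fun c' => qp c' ^ 2) (Finset.mem_erase.2 ⟨hc, hx⟩)
  unfold OO
  by_cases h1 : a = c
  · have h2 : b ≠ c := fun h2 => h ⟨h1, h2⟩
    rw [h1, mul_comm]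
    exact mul_dvd_mul ((dvd_pow_self _ two_ne_zero).trans (key b hb h2)) dvd_rfl
  · by_cases h2 : b = c
    · rw [h2]
      exact mul_dvd_mul ((dvd_pow_self _ two_ne_zero).trans (key a ha h1)) dvd_rfl
    · refine Dvd.dvd.mul_right ?_ _
      by_cases h3 : a = b
      · rw [← h3, ← pow_two]; exact key a ha h1
      · have hs : ({a, b} : Finset ℝ) ⊆ F.erase c := by
          intro x hx
          rcases Finset.mem_insert.1 hx with rfl | hx
          · exact Finset.mem_erase.2 ⟨h1, ha⟩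
          · rw [Finset.mem_singleton.1 hx]; exact Finset.mem_erase.2 ⟨h2, hb⟩
        refine dvd_trans ?_ (Finset.prod_dvd_prod_of_subset _ _ (fun c' => qp c' ^ 2) hs)
        rw [Finset.prod_pair h3]
        exact mul_dvd_mul (dvd_pow_self _ two_ne_zero) (dvd_pow_self _ two_ne_zero)

theorem step {c c' : ℝ} (hc : c' ≠ c) {f : ℕ → ℝ} (h0 : aeval sh (qp c) f = 0) (h1 : f ≠ 0) :
    aeval sh (qp c) (aeval sh (qp c') f) = 0 ∧ aeval sh (qp c') f ≠ 0 := by
  refine ⟨by rw [← mul_app, mul_comm, mul_app, h0, map_zero], fun h2 => h1 ?_⟩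
  have h3 : ∀ k, f (k + 1) = 0 := fun k => by
    have e1 := congrFun h0 k
    have e2 := congrFun h2 k
    rw [qp_apply, Pi.zero_apply] at e1 e2
    have e3 : (c' - c) * f (k + 1) = 0 := by linarith
    exact (mul_eq_zero.1 e3).resolve_left (sub_ne_zero.2 hc)
  funext k
  have e1 := congrFun h0 k
  rw [qp_apply, Pi.zero_apply, h3 (k + 1), h3 k] at e1
  simpa using e1

theorem OO_ww (c : ℝ) (F : Finset ℝ) : aeval sh (OO c F) (ww c) ≠ 0 := by
  have hv : ∀ k, aeval sh (qp c) (ww c) k = chi c (k + 2) - chi c k := fun k => by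
    rw [qp_apply]; unfold ww; rw [chi_rec c k]; push_cast; ring
  have h0 : aeval sh (qp c) (aeval sh (qp c) (ww c)) = 0 := by
    funext k
    rw [qp_apply, hv, hv, hv, Pi.zero_apply]
    have a4 : chi c (k + 2 + 2) = 2 * c * chi c (k + 1 + 2) - chi c (k + 2) := rfl
    rw [a4, chi_rec c k]; ring
  have h1 : aeval sh (qp c) (ww c) ≠ 0 := fun h => by
    have e0 := hv 0
    have e1 := hv 1
    rw [h, Pi.zero_apply] at e0 e1
    simp only [chi] at e0 e1
    have e2 : c = 0 := by linear_combination (1 / 2) * e1 - c * e0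
    rw [e2] at e0
    norm_num at e0
  have key : ∀ G : Finset ℝ, c ∉ G →
      aeval sh (qp c) (aeval sh (∏ c' ∈ G, qp c' ^ 2) (aeval sh (qp c) (ww c))) = 0 ∧
        aeval sh (∏ c' ∈ G, qp c' ^ 2) (aeval sh (qp c) (ww c)) ≠ 0 := by
    intro G
    induction G using Finset.induction_on with
    | empty => intro _; simpa using ⟨h0, h1⟩
    | insert x G hx ih =>
      intro hc
      have hxc : x ≠ c := fun e => hc (e ▸ Finset.mem_insert_self x G)
      obtain ⟨i1, i2⟩ := ih fun e => hc (Finset.mem_insert_of_mem e)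
      rw [Finset.prod_insert hx, pow_two, mul_app, mul_app]
      obtain ⟨j1, j2⟩ := step hxc i1 i2
      exact step hxc j1 j2
  unfold OO
  rw [mul_app]
  exact (key _ (Finset.notMem_erase c F)).2

/-- the discriminant root -/
def rr (p : U × U) : ℝ := √((1 - c0 p.1 ^ 2) * (1 - c0 p.2 ^ 2))

theorem rr_sq (p : U × U) : rr p ^ 2 = (1 - c0 p.1 ^ 2) * (1 - c0 p.2 ^ 2) :=
  Real.sq_sqrt (mul_nonneg (sub_nonneg.2 p.1.re_sq_le) (sub_nonneg.2 p.2.re_sq_le))

open Classical in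
theorem OO_uu (c : ℝ) {F : Finset ℝ} (p : U × U) (ha : c0 p.1 * c0 p.2 + rr p ∈ F)
    (hb : c0 p.1 * c0 p.2 - rr p ∈ F) :
    aeval sh (OO c F) (uu (c0 p.1) (c0 p.2)) =
      if (c0 p.1 ^ 2 = 1 ∨ c0 p.2 ^ 2 = 1) ∧ c0 p.1 * c0 p.2 = c then aeval sh (OO c F) (ww c)
      else 0 := by
  split_ifs with h
  · rw [uu_eq h.1, h.2]
  · refine kill (dvd_OO ha hb fun h2 => h ?_) (uu_kill (rr_sq p))
    have h3 : rr p = 0 := by linarith [h2.1, h2.2]
    have h4 := rr_sq p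
    rw [h3] at h4
    refine ⟨?_, by linarith [h2.1]⟩
    rcases mul_eq_zero.1 (show (1 - c0 p.1 ^ 2) * (1 - c0 p.2 ^ 2) = 0 by linarith) with h5 | h5
    · left; linarith
    · right; linarith

theorem OO_mk (c : ℝ) {F : Finset ℝ} (Γ : Subgroup (U × U)) [Finite Γ]
    (hF : ∀ p ∈ Γ, c0 p.1 * c0 p.2 + rr p ∈ F ∧ c0 p.1 * c0 p.2 - rr p ∈ F) :
    aeval sh (OO c F) (mk Γ) = ((dbl Γ c : ℝ) / Nat.card Γ) • aeval sh (OO c F) (ww c) := by
  classical
  have := Fintype.ofFinite Γ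
  have e1 : mk Γ = (Nat.card Γ : ℝ)⁻¹ • ∑ p : Γ, uu (c0 p.1.1) (c0 p.1.2) := by
    funext k
    unfold mk
    rw [finsum_eq_sum_of_fintype, Pi.smul_apply, Finset.sum_apply, smul_eq_mul, div_eq_inv_mul]
    rfl
  have e2 : dbl Γ c = (Finset.univ.filter fun p : Γ =>
      (c0 p.1.1 ^ 2 = 1 ∨ c0 p.1.2 ^ 2 = 1) ∧ c0 p.1.1 * c0 p.1.2 = c).card := by
    unfold dbl
    rw [← Set.ncard_coe_finset, ← Set.ncard_image_of_injective _ Subtype.val_injective]
    congr 1
    ext p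
    constructor
    · rintro ⟨h1, h2⟩
      exact ⟨⟨p, h1⟩, by simpa using h2, rfl⟩
    · rintro ⟨q, h1, rfl⟩
      exact ⟨q.2, by simpa using h1⟩
  rw [e1, map_smul, map_sum,
    Finset.sum_congr rfl fun p _ => OO_uu c p.1 (hF p.1 p.2).1 (hF p.1 p.2).2,
    ← Finset.sum_filter, Finset.sum_const, ← e2, ← Nat.cast_smul_eq_nsmul ℝ, smul_smul,
    div_eq_inv_mul]

end DPI

open DPI in
theorem dp : S_DP := by
  classical
  intro Γ₁ Γ₂ h1 h2 h c
  have f1 : (Γ₁ : Set (U × U)).Finite := Set.toFinite _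
  have f2 : (Γ₂ : Set (U × U)).Finite := Set.toFinite _
  set A := (f1.union f2).toFinset with hA
  set F := A.image (fun p => c0 p.1 * c0 p.2 + rr p) ∪ A.image (fun p => c0 p.1 * c0 p.2 - rr p)
    with hF
  have hm : ∀ p ∈ A, c0 p.1 * c0 p.2 + rr p ∈ F ∧ c0 p.1 * c0 p.2 - rr p ∈ F := fun p hp =>
    ⟨Finset.mem_union_left _ (Finset.mem_image_of_mem _ hp),
      Finset.mem_union_right _ (Finset.mem_image_of_mem _ hp)⟩
  have e1 := OO_mk c Γ₁ fun p hp => hm p ((Set.Finite.mem_toFinset _).2 (Or.inl hp))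
  have e2 := OO_mk c Γ₂ fun p hp => hm p ((Set.Finite.mem_toFinset _).2 (Or.inr hp))
  rw [funext h, e2] at e1
  have e3 := smul_left_injective ℝ (OO_ww c F) e1
  have p1 : (0 : ℝ) < Nat.card Γ₁ := by exact_mod_cast Nat.card_pos
  have p2 : (0 : ℝ) < Nat.card Γ₂ := by exact_mod_cast Nat.card_pos
  have e4 : ((dbl Γ₂ c : ℝ) / Nat.card Γ₂) = (dbl Γ₁ c : ℝ) / Nat.card Γ₁ := e3
  rw [div_eq_div_iff p2.ne' p1.ne'] at e4
  exact_mod_cast e4.symm

end

end Pool.Agent.P.MP_e311cd_gt
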