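import Pool.Agent.P.MP_e311cd_gt.I.St

/-! Invariants read off from the double poles, and the abelian case. -/

namespace Pool.Agent.P.MP_e311cd_gt

open Set

noncomputable section

namespace DP2I

theorem ncard_sum {S : Set U} (hS : S.Finite) (C : Finset ℝ) (hC : ∀ a ∈ S, c0 a.1 ∈ C) :
    S.ncard = ∑ c ∈ C, {a : U | a ∈ S ∧ c0 a.1 = c}.ncard := by
  classical
  rw [ncard_eq_toFinset_card S hS,
    Finset.card_eq_sum_card_fiberwise (f := fun a : U => c0 a.1) (t := C)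
      fun a ha => hC a (hS.mem_toFinset.mp ha)]
  refine Finset.sum_congr rfl fun c _ => ?_
  rw [← ncard_coe_finset]
  congr 1
  ext a
  simp

theorem finL {Γ : Subgroup (U × U)} (h : Finite Γ) : {a : U | (a, 1) ∈ Γ}.Finite :=
  Finite.preimage (f := fun a : U => (a, (1 : U))) (s := (Γ : Set (U × U)))
    (fun _ _ _ _ e => (Prod.mk.inj e).1) (toFinite _)

theorem finR {Γ : Subgroup (U × U)} (h : Finite Γ) : {b : U | (1, b) ∈ Γ}.Finite :=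
  Finite.preimage (f := fun b : U => ((1 : U), b)) (s := (Γ : Set (U × U)))
    (fun _ _ _ _ e => (Prod.mk.inj e).2) (toFinite _)

theorem neg_mem {Γ : Subgroup (U × U)} (f : FreeG Γ) {a b : U} (h : (a, b) ∈ Γ) :
    (-a, -b) ∈ Γ := by
  simpa using Γ.mul_mem f.neg h

theorem one_ne : (1 : U) ≠ -1 := (U.neg_ne 1).symm

theorem dbl_one {Γ : Subgroup (U × U)} (f : FreeG Γ) : dbl Γ 1 = 2 := by
  have e : {p : U × U | p ∈ Γ ∧ (c0 p.1 ^ 2 = 1 ∨ c0 p.2 ^ 2 = 1) ∧ c0 p.1 * c0 p.2 = 1} =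
      {((1 : U), (1 : U)), (-1, -1)} := by
    ext ⟨a, b⟩
    simp only [mem_ofPred_eq, mem_insert_iff, mem_singleton_iff, Prod.mk.injEq, U.re_sq_eq_one]
    constructor
    · rintro ⟨-, (rfl | rfl) | rfl | rfl, h⟩
      · exact Or.inl ⟨rfl, U.re_eq_one.mp (by simpa using h)⟩
      · exact Or.inr ⟨rfl, U.re_eq_neg_one.mp (by simp at h; linarith)⟩
      · exact Or.inl ⟨U.re_eq_one.mp (by simpa using h), rfl⟩
      · exact Or.inr ⟨U.re_eq_neg_one.mp (by simp at h; linarith), rfl⟩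
    · rintro (⟨rfl, rfl⟩ | ⟨rfl, rfl⟩)
      · exact ⟨Γ.one_mem, Or.inl (Or.inl rfl), by simp⟩
      · exact ⟨f.neg, Or.inl (Or.inr rfl), by simp⟩
  unfold dbl
  rw [e, ncard_pair fun h => one_ne (Prod.mk.inj h).1]

theorem dd_one (Γ : Subgroup (U × U)) : dd Γ 1 = 2 := by
  have e1 : {a : U | (a, 1) ∈ Γ ∧ c0 a = 1} = {1} := by
    ext a
    simp only [mem_ofPred_eq, mem_singleton_iff, U.re_eq_one]
    exact ⟨fun h => h.2, fun h => ⟨by rw [h]; exact Γ.one_mem, h⟩⟩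
  have e2 : {b : U | (1, b) ∈ Γ ∧ c0 b = 1} = {1} := by
    ext a
    simp only [mem_ofPred_eq, mem_singleton_iff, U.re_eq_one]
    exact ⟨fun h => h.2, fun h => ⟨by rw [h]; exact Γ.one_mem, h⟩⟩
  unfold dd
  rw [e1, e2, ncard_singleton]

theorem dd_neg (Γ : Subgroup (U × U)) : dd Γ (-1) = dbl Γ (-1) := by
  have e : {p : U × U | p ∈ Γ ∧ (c0 p.1 ^ 2 = 1 ∨ c0 p.2 ^ 2 = 1) ∧ c0 p.1 * c0 p.2 = -1} =
      (fun a : U => (a, (1 : U))) '' {a : U | (a, 1) ∈ Γ ∧ c0 a = -1} ∪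
        (fun b : U => ((1 : U), b)) '' {b : U | (1, b) ∈ Γ ∧ c0 b = -1} := by
    ext ⟨a, b⟩
    simp only [mem_ofPred_eq, mem_union, mem_image, Prod.mk.injEq, U.re_sq_eq_one,
      U.re_eq_neg_one]
    constructor
    · rintro ⟨hm, (rfl | rfl) | rfl | rfl, h⟩
      · exact Or.inr ⟨b, ⟨hm, U.re_eq_neg_one.mp (by simpa using h)⟩, rfl, rfl⟩
      · obtain rfl : b = 1 := U.re_eq_one.mp (by simp at h; linarith)
        exact Or.inl ⟨-1, ⟨hm, rfl⟩, rfl, rfl⟩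
      · exact Or.inl ⟨a, ⟨hm, U.re_eq_neg_one.mp (by simpa using h)⟩, rfl, rfl⟩
      · obtain rfl : a = 1 := U.re_eq_one.mp (by simp at h; linarith)
        exact Or.inr ⟨-1, ⟨hm, rfl⟩, rfl, rfl⟩
    · rintro (⟨_, ⟨hm, rfl⟩, rfl, rfl⟩ | ⟨_, ⟨hm, rfl⟩, rfl, rfl⟩)
      · exact ⟨hm, Or.inl (Or.inr rfl), by simp⟩
      · exact ⟨hm, Or.inl (Or.inl rfl), by simp⟩
  have f1 : {a : U | (a, 1) ∈ Γ ∧ c0 a = -1}.Finite :=
    (finite_singleton (-1)).subset fun a ha => U.re_eq_neg_one.mp ha.2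
  have f2 : {b : U | (1, b) ∈ Γ ∧ c0 b = -1}.Finite :=
    (finite_singleton (-1)).subset fun a ha => U.re_eq_neg_one.mp ha.2
  unfold dd dbl
  rw [e, ncard_union_eq _ (f1.image _) (f2.image _),
    ncard_image_of_injective _ fun _ _ h => (Prod.mk.inj h).1,
    ncard_image_of_injective _ fun _ _ h => (Prod.mk.inj h).2]
  rw [disjoint_left]
  rintro _ ⟨a, ha, rfl⟩ ⟨b, -, h⟩
  have h1 := ha.2
  rw [← (Prod.mk.inj h).1] at h1
  norm_num at h1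

theorem dbl_eq {Γ : Subgroup (U × U)} (f : FreeG Γ) {c : ℝ} (hc : c ^ 2 ≠ 1) :
    dbl Γ c = 2 * dd Γ c := by
  set A := {a : U | (a, 1) ∈ Γ ∧ c0 a = c} with hA
  set B := {b : U | (1, b) ∈ Γ ∧ c0 b = c} with hB
  have fA : A.Finite := (finL f.fin).subset fun a ha => ha.1
  have fB : B.Finite := (finR f.fin).subset fun a ha => ha.1
  have e : {p : U × U | p ∈ Γ ∧ (c0 p.1 ^ 2 = 1 ∨ c0 p.2 ^ 2 = 1) ∧ c0 p.1 * c0 p.2 = c} =
      ((fun a : U => (a, (1 : U))) '' A ∪ (fun a : U => (-a, (-1 : U))) '' A) ∪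
        ((fun b : U => ((1 : U), b)) '' B ∪ (fun b : U => ((-1 : U), -b)) '' B) := by
    ext ⟨a, b⟩
    simp only [hA, hB, mem_ofPred_eq, mem_union, mem_image, Prod.mk.injEq, U.re_sq_eq_one]
    constructor
    · rintro ⟨hm, (rfl | rfl) | rfl | rfl, h⟩
      · exact Or.inr (Or.inl ⟨b, ⟨hm, by simpa using h⟩, rfl, rfl⟩)
      · exact Or.inr (Or.inr ⟨-b, ⟨by simpa using neg_mem f hm, by simpa using h⟩, rfl,
          neg_neg b⟩)
      · exact Or.inl (Or.inl ⟨a, ⟨hm, by simpa using h⟩, rfl, rfl⟩)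
      · exact Or.inl (Or.inr ⟨-a, ⟨by simpa using neg_mem f hm, by simpa using h⟩, neg_neg a,
          rfl⟩)
    · rintro ((⟨_, ⟨hm, h⟩, rfl, rfl⟩ | ⟨_, ⟨hm, h⟩, rfl, rfl⟩) |
        ⟨_, ⟨hm, h⟩, rfl, rfl⟩ | ⟨_, ⟨hm, h⟩, rfl, rfl⟩)
      · exact ⟨hm, Or.inr (Or.inl rfl), by simpa using h⟩
      · exact ⟨neg_mem f hm, Or.inr (Or.inr rfl), by simpa using h⟩
      · exact ⟨hm, Or.inl (Or.inl rfl), by simpa using h⟩
      · exact ⟨neg_mem f hm, Or.inl (Or.inr rfl), by simpa using h⟩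
  have d1 : Disjoint ((fun a : U => (a, (1 : U))) '' A) ((fun a : U => (-a, (-1 : U))) '' A) := by
    rw [disjoint_left]
    rintro _ ⟨a, -, rfl⟩ ⟨b, -, h⟩
    exact one_ne (Prod.mk.inj h).2.symm
  have d2 : Disjoint ((fun b : U => ((1 : U), b)) '' B) ((fun b : U => ((-1 : U), -b)) '' B) := by
    rw [disjoint_left]
    rintro _ ⟨a, -, rfl⟩ ⟨b, -, h⟩
    exact one_ne (Prod.mk.inj h).1.symm
  have d3 : Disjoint ((fun a : U => (a, (1 : U))) '' A ∪ (fun a : U => (-a, (-1 : U))) '' A)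
      ((fun b : U => ((1 : U), b)) '' B ∪ (fun b : U => ((-1 : U), -b)) '' B) := by
    rw [disjoint_left]
    intro p h1 h2
    have e1 : c0 p.1.1 ^ 2 = c ^ 2 := by
      rcases h1 with ⟨a, ha, rfl⟩ | ⟨a, ha, rfl⟩ <;> simp [← ha.2]
    have e2 : c0 p.1.1 ^ 2 = 1 := by
      rcases h2 with ⟨a, -, rfl⟩ | ⟨a, -, rfl⟩ <;> simp
    exact hc (e1.symm.trans e2)
  unfold dbl dd
  rw [e, ncard_union_eq d3 ((fA.image _).union (fA.image _)) ((fB.image _).union (fB.image _)),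
    ncard_union_eq d1 (fA.image _) (fA.image _), ncard_union_eq d2 (fB.image _) (fB.image _),
    ncard_image_of_injective _ fun _ _ h => (Prod.mk.inj h).1,
    ncard_image_of_injective _ fun _ _ h => neg_injective (Prod.mk.inj h).1,
    ncard_image_of_injective _ fun _ _ h => (Prod.mk.inj h).2,
    ncard_image_of_injective _ fun _ _ h => neg_injective (Prod.mk.inj h).2]
  ring

theorem sg_sum {Γ : Subgroup (U × U)} (h : Finite Γ) (C : Finset ℝ)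
    (h1 : ∀ a : U, (a, 1) ∈ Γ → c0 a.1 ∈ C) (h2 : ∀ b : U, (1, b) ∈ Γ → c0 b.1 ∈ C) :
    sg Γ = ∑ c ∈ C, dd Γ c := by
  unfold dd
  rw [Finset.sum_add_distrib]
  exact congrArg₂ (· + ·) (ncard_sum (finL h) C h1) (ncard_sum (finR h) C h2)

theorem exists_vals {Γ : Subgroup (U × U)} (h : Finite Γ) : ∃ C : Finset ℝ,
    (∀ a : U, (a, 1) ∈ Γ → c0 a.1 ∈ C) ∧ ∀ b : U, (1, b) ∈ Γ → c0 b.1 ∈ C := by
  have f := ((finL h).union (finR h)).image fun a : U => c0 a.1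
  exact ⟨f.toFinset, fun a ha => f.mem_toFinset.mpr ⟨a, Or.inl ha, rfl⟩,
    fun a ha => f.mem_toFinset.mpr ⟨a, Or.inr ha, rfl⟩⟩

/-- the points counted by the multiplicity -/
def Bx (L : Set (ℤ × ℤ)) (k : ℤ) : Set (ℤ × ℤ) :=
  {v | v ∈ L ∧ sup2 v ≤ k ∧ Even (v.1 - k) ∧ Even (v.2 - k)}

theorem Bx_fin (L : Set (ℤ × ℤ)) (k : ℤ) : (Bx L k).Finite := by
  refine ((finite_Icc (-k) k).prod (finite_Icc (-k) k)).subset fun v hv => ?_
  have h := hv.2.1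
  unfold sup2 at h
  rw [max_le_iff, abs_le, abs_le] at h
  exact h

theorem Bx_neg (L : Set (ℤ × ℤ)) {k : ℤ} (hk : k < 0) : Bx L k = ∅ := by
  refine eq_empty_of_forall_notMem fun v hv => ?_
  have h := hv.2.1
  unfold sup2 at h
  have := abs_nonneg v.1
  have := le_max_left |v.1| |v.2|
  omega

theorem Bx_step {L : Set (ℤ × ℤ)} (hL : ∀ v ∈ L, Even (v.1 - v.2)) (k : ℤ) :
    (Bx L k).ncard = {v | v ∈ L ∧ sup2 v = k}.ncard + (Bx L (k - 2)).ncard := by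
  have e : Bx L k = {v | v ∈ L ∧ sup2 v = k} ∪ Bx L (k - 2) := by
    ext v
    simp only [Bx, sup2, mem_ofPred_eq, mem_union, Int.even_iff]
    by_cases hv : v ∈ L
    · have h := hL v hv
      rw [Int.even_iff] at h
      simp only [hv, true_and]
      rcases abs_cases v.1 with h1 | h1 <;> rcases abs_cases v.2 with h2 | h2 <;>
        rw [h1.1, h2.1] <;> omega
    · simp [hv]
  have f := Bx_fin L k
  rw [e] at f
  rw [e, ncard_union_eq _ (f.subset subset_union_left) (f.subset subset_union_right)]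
  rw [disjoint_left]
  intro v h1 h2
  have a1 := h1.2
  have a2 := h2.2.1
  omega

theorem lam_even {Γ : Subgroup (U × U)} (f : FreeG Γ) : ∀ v ∈ Lam Γ, Even (v.1 - v.2) := by
  intro v hv
  have h := hv (-1) (-1) f.neg
  rw [toC_neg, toC_one, ← zpow_add₀ (by norm_num)] at h
  by_contra hn
  have h2 : Odd (v.1 + v.2) := by
    rw [Int.even_iff] at hn
    rw [Int.odd_iff]
    omega
  rw [h2.neg_one_zpow] at h
  norm_num at h

theorem sgn {s : ℤ} (hs : s = 1 ∨ s = -1) : ∃ c : U, ∀ a, Circ a →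
    Circ (c * a * c⁻¹) ∧ toC (c * a * c⁻¹) = toC a ^ s := by
  rcases hs with rfl | rfl
  · exact ⟨1, fun a ha => by simpa using ha⟩
  · exact ⟨qj, fun a ha => by rw [ha.conj_qj, ha.toC_inv, zpow_neg_one]; exact ⟨ha.inv, rfl⟩⟩

theorem equi_of (h2 : S_Lens2) {Γ₁ Γ₂ : Subgroup (U × U)} (f₁ : FreeG Γ₁) (f₂ : FreeG Γ₂)
    (a₁ : Ab Γ₁) (a₂ : Ab Γ₂) {s t : ℤ} (hs : s = 1 ∨ s = -1) (ht : t = 1 ∨ t = -1)
    (h : ∀ j l, (j, l) ∈ Lam Γ₁ ↔ (s * j, t * l) ∈ Lam Γ₂) : Equi Γ₁ Γ₂ := by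
  obtain ⟨c, hc⟩ := sgn hs
  obtain ⟨d, hd⟩ := sgn ht
  obtain ⟨Γ', h'⟩ := exists_conj Γ₁ c d
  have e : Equi Γ₁ Γ' := ⟨c, d, Or.inl h'⟩
  have sur : ∀ a b, (a, b) ∈ Γ' → ∃ a' b', (a', b') ∈ Γ₁ ∧ a = c * a' * c⁻¹ ∧ b = d * b' * d⁻¹ :=
    fun a b hab => ⟨c⁻¹ * a * c, d⁻¹ * b * d, (h' _ _).mpr (by simpa [mul_assoc] using hab),
      by group, by group⟩
  have a' : Ab Γ' := by
    intro a b hab
    obtain ⟨x, y, hxy, rfl, rfl⟩ := sur a b hab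
    exact ⟨(hc x (a₁ x y hxy).1).1, (hd y (a₁ x y hxy).2).1⟩
  have ss : s * s = 1 := by rcases hs with rfl | rfl <;> rfl
  have tt : t * t = 1 := by rcases ht with rfl | rfl <;> rfl
  have eL : Lam Γ' = Lam Γ₂ := by
    ext ⟨j, l⟩
    have h3 := h (s * j) (t * l)
    rw [← mul_assoc, ← mul_assoc, ss, tt, one_mul, one_mul] at h3
    rw [← h3]
    constructor
    · intro hv x y hxy
      have h4 := hv _ _ ((h' x y).mp hxy)
      rwa [(hc x (a₁ x y hxy).1).2, (hd y (a₁ x y hxy).2).2, ← zpow_mul, ← zpow_mul] at h4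
    · intro hv a b hab
      obtain ⟨x, y, hxy, rfl, rfl⟩ := sur a b hab
      rw [(hc x (a₁ x y hxy).1).2, (hd y (a₁ x y hxy).2).2, ← zpow_mul, ← zpow_mul]
      exact hv x y hxy
  rwa [(h2 Γ' (e.freeG f₁).fin a').2 Γ₂ f₂.fin a₂ eL] at e

end DP2I

open DP2I

theorem dp2 (h : S_DP) : S_DP2 := by
  classical
  intro Γ₁ Γ₂ f₁ f₂ hk
  have h1 := h Γ₁ Γ₂ f₁.fin f₂.fin hk
  have hc : Nat.card Γ₁ = Nat.card Γ₂ := by
    have := h1 1
    rw [dbl_one f₁, dbl_one f₂] at this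
    omega
  have h2 : ∀ c, dbl Γ₁ c = dbl Γ₂ c := by
    intro c
    have := f₂.fin
    have h3 := h1 c
    rw [hc] at h3
    exact Nat.eq_of_mul_eq_mul_right Nat.card_pos h3
  have h3 : ∀ c, c ^ 2 ≠ 1 → dd Γ₁ c = dd Γ₂ c := by
    intro c hc
    have := h2 c
    rw [dbl_eq f₁ hc, dbl_eq f₂ hc] at this
    omega
  have h4 : ∀ c, dd Γ₁ c = dd Γ₂ c := by
    intro c
    by_cases hc : c ^ 2 = 1
    · rcases sq_eq_one_iff.mp hc with rfl | rfl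
      · rw [dd_one, dd_one]
      · rw [dd_neg, dd_neg, h2]
    · exact h3 c hc
  refine ⟨hc, ?_, h3⟩
  obtain ⟨C₁, a₁, b₁⟩ := exists_vals f₁.fin
  obtain ⟨C₂, a₂, b₂⟩ := exists_vals f₂.fin
  rw [sg_sum f₁.fin (C₁ ∪ C₂) (fun a ha => Finset.mem_union_left _ (a₁ a ha))
      fun a ha => Finset.mem_union_left _ (b₁ a ha),
    sg_sum f₂.fin (C₁ ∪ C₂) (fun a ha => Finset.mem_union_right _ (a₂ a ha))
      fun a ha => Finset.mem_union_right _ (b₂ a ha)]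
  exact Finset.sum_congr rfl fun c _ => h4 c

theorem lens (h1 : S_Lens1) (h2 : S_Lens2) (hL : S_Lat) : S_Lens := by
  intro Γ₁ Γ₂ f₁ f₂ a₁ a₂ hk hc
  obtain ⟨Λ₁, e₁, i₁⟩ := (h2 Γ₁ f₁.fin a₁).1
  obtain ⟨Λ₂, e₂, i₂⟩ := (h2 Γ₂ f₂.fin a₂).1
  have hb : ∀ k : ℤ, (Bx (Lam Γ₁) k).ncard = (Bx (Lam Γ₂) k).ncard := by
    intro k
    rcases lt_or_ge k 0 with h | h
    · rw [Bx_neg _ h, Bx_neg _ h]
    · obtain ⟨n, rfl⟩ := Int.eq_ofNat_of_zero_le h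
      have := hk n
      rw [h1 Γ₁ f₁.fin a₁, h1 Γ₂ f₂.fin a₂] at this
      exact_mod_cast this
  have m₁ : ∀ v, v ∈ Λ₁ ↔ v ∈ Lam Γ₁ := Set.ext_iff.mp e₁
  have m₂ : ∀ v, v ∈ Λ₂ ↔ v ∈ Lam Γ₂ := Set.ext_iff.mp e₂
  have := f₁.fin
  obtain ⟨s, t, hs, ht, h | h⟩ := hL Λ₁ Λ₂ (by rw [i₁]; exact Nat.card_pos.ne')
    (by rw [i₁, i₂, hc]) fun t => by
      have b1 := Bx_step (lam_even f₁) t
      have b2 := Bx_step (lam_even f₂) t
      rw [hb t, hb (t - 2)] at b1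
      simp only [m₁, m₂]
      omega
  · simp only [m₁, m₂] at h
    exact equi_of h2 f₁ f₂ a₁ a₂ hs ht h
  · simp only [m₁, m₂] at h
    obtain ⟨Γ', e, h'⟩ := exists_swap Γ₂
    refine (equi_of h2 f₁ (e.freeG f₂) (Γ₂ := Γ') a₁
      (fun a b hab => (a₂ b a ((h' b a).mpr hab)).symm) hs ht fun j l => ?_).trans e.symm
    rw [h]
    constructor
    · intro hv a b hab
      rw [mul_comm]
      exact hv b a ((h' b a).mpr hab)
    · intro hv a b hab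
      rw [mul_comm]
      exact hv b a ((h' a b).mp hab)

end

end Pool.Agent.P.MP_e311cd_gt
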