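import Pool.Agent.P.MP_e311cd_gt.I.St

/-! Green's formula for invariant vector fields on a compact group. -/

namespace Pool.Agent.P.MP_e311cd_gt

open Set MeasureTheory

noncomputable section

namespace GreenI

variable {G : Type} [Group G] [TopologicalSpace G] [IsTopologicalGroup G] [CompactSpace G]
  [MeasurableSpace G] [BorelSpace G] (μ : Measure G) [IsFiniteMeasure μ]

omit [Group G] [IsTopologicalGroup G] in
theorem integrable {h : G → ℂ} (hh : Continuous h) : Integrable h μ :=
  hh.integrable_of_hasCompactSupport (HasCompactSupport.of_compactSpace h)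

omit [Group G] [IsTopologicalGroup G] in
theorem int_ms {f g : G → ℂ} (hf : Continuous f) (hg : Continuous g) :
    Integrable (fun x => f x * star (g x)) μ := integrable μ (hf.mul hg.star)

theorem integral_XD [μ.IsMulRightInvariant] {e : Fin 3 → ℝ → G} (he : OP e) {h : G → ℂ}
    (hh : D1 e h) (i : Fin 3) (hc : Continuous (XD e i h)) : ∫ x, XD e i h x ∂μ = 0 := by
  obtain ⟨C, hC⟩ := (isCompact_univ.image hc.norm).bddAbove
  have hd := (hasDerivAt_integral_of_dominated_loc_of_deriv_le (μ := μ) (x₀ := (0 : ℝ))
    (F := fun t x => h (x * e i t)) (F' := fun t x => XD e i h (x * e i t)) (s := univ)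
    (bound := fun _ => C) Filter.univ_mem
    (Filter.Eventually.of_forall fun t =>
      (hh.1.comp (continuous_mul_const (e i t))).aestronglyMeasurable)
    (integrable μ (hh.1.comp (continuous_mul_const (e i 0))))
    (hc.comp (continuous_mul_const (e i 0))).aestronglyMeasurable
    (Filter.Eventually.of_forall fun x t _ => hC ⟨_, mem_univ _, rfl⟩)
    (integrable_const C)
    (Filter.Eventually.of_forall fun x t _ => hh.hasDerivAt he i x t)).2
  have hconst : (fun t : ℝ => ∫ x, h (x * e i t) ∂μ) = fun _ => ∫ x, h x ∂μ :=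
    funext fun t => integral_mul_right_eq_self h (e i t)
  rw [hconst] at hd
  have h0 := hd.unique (hasDerivAt_const (0 : ℝ) _)
  simpa only [he.zero, mul_one] using h0

theorem one_dir [μ.IsMulRightInvariant] {e : Fin 3 → ℝ → G} (he : OP e) {f g : G → ℂ}
    (hf : C2 e f) (hg : C2 e g) (i : Fin 3) :
    ∫ x, XD e i (XD e i f) x * star (g x) ∂μ = ∫ x, f x * star (XD e i (XD e i g) x) ∂μ := by
  have f0 := hf.1.1
  have g0 := hg.1.1
  have f1 := (hf.2 i).1.1
  have g1 := (hg.2 i).1.1
  have f2 := (hf.2 i).2
  have g2 := (hg.2 i).2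
  have e1 : XD e i (XD e i f * star g) =
      XD e i (XD e i f) * star g + XD e i f * star (XD e i g) := by
    rw [XD_mul he (hf.2 i).1 hg.1.star, XD_star hg.1]
  have e2 : XD e i (f * star (XD e i g)) =
      XD e i f * star (XD e i g) + f * star (XD e i (XD e i g)) := by
    rw [XD_mul he hf.1 (hg.2 i).1.star, XD_star (hg.2 i).1]
  have h1 := integral_XD μ he ((hf.2 i).1.mul hg.1.star) i
    (by rw [e1]; exact (f2.mul g0.star).add (f1.mul g1.star))
  have h2 := integral_XD μ he (hf.1.mul (hg.2 i).1.star) i
    (by rw [e2]; exact (f1.mul g1.star).add (f0.mul g2.star))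
  rw [e1] at h1
  rw [e2] at h2
  simp only [Pi.add_apply, Pi.mul_apply, Pi.star_apply] at h1 h2
  rw [integral_add (int_ms μ f2 g0) (int_ms μ f1 g1)] at h1
  rw [integral_add (int_ms μ f1 g1) (int_ms μ f0 g2)] at h2
  linear_combination h1 - h2

end GreenI

open GreenI in
theorem green : S_Green := by
  intro G _ _ _ _ _ _ μ _ _ e he f g hf hg
  have e1 : (fun x => Lap e f x * star (g x)) =
      fun x => -∑ i, XD e i (XD e i f) x * star (g x) := by
    funext x
    simp only [Lap, Pi.neg_apply, Finset.sum_apply, neg_mul, Finset.sum_mul]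
  have e2 : (fun x => f x * star (Lap e g x)) =
      fun x => -∑ i, f x * star (XD e i (XD e i g) x) := by
    funext x
    simp only [Lap, Pi.neg_apply, Finset.sum_apply, star_neg, star_sum, mul_neg, Finset.mul_sum]
  rw [e1, e2, integral_neg, integral_neg,
    integral_finsetSum _ fun i _ => int_ms μ (hf.2 i).2 hg.1.1,
    integral_finsetSum _ fun i _ => int_ms μ hf.1.1 (hg.2 i).2]
  congr 1
  exact Finset.sum_congr rfl fun i _ => one_dir μ he hf hg i

end

end Pool.Agent.P.MP_e311cd_gt
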