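import Pool.Agent.P.MP_e311cd_gt.I.St

/-! The Laplacian on homogeneous polynomials restricted to the unit quaternions. -/

namespace Pool.Agent.P.MP_e311cd_gt

open Set

noncomputable section

namespace Harm1I

theorem hasDeriv {f : U → ℂ} {l : H →ₗ[ℝ] ℂ} (hl : ∀ x, f x = l x) (i : Fin 3) (x : U) :
    HasDerivAt (fun s : ℝ => f (x * eq3 i s)) (l (x.1 * (bq i).1)) 0 := by
  have e : (fun s : ℝ => f (x * eq3 i s)) =
      fun s : ℝ => Real.cos s • l x.1 + Real.sin s • l (x.1 * (bq i).1) := by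
    funext s
    rw [hl, U.coe_mul, coe_eq3, mul_add, mul_smul_comm, mul_smul_comm, mul_one, map_add, map_smul,
      map_smul]
  rw [e]
  have h := ((Real.hasDerivAt_cos 0).smul_const (l x.1)).fun_add
    ((Real.hasDerivAt_sin 0).smul_const (l (x.1 * (bq i).1)))
  rwa [Real.sin_zero, neg_zero, zero_smul, Real.cos_zero, one_smul, zero_add] at h

theorem XD_PP {f : U → ℂ} (hf : f ∈ PP) (i : Fin 3) (x : U) : XD eq3 i f x = f (x * bq i) := by
  obtain ⟨l, hl⟩ := hf
  rw [XD_eq (hasDeriv hl i x), hl, U.coe_mul]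

theorem right_mem {f : U → ℂ} (hf : f ∈ PP) (b : U) : (fun x => f (x * b)) ∈ PP := by
  obtain ⟨l, hl⟩ := hf
  exact ⟨l ∘ₗ LinearMap.mulRight ℝ b.1, fun x => hl _⟩

theorem stab : Stab eq3 PP := by
  intro f hf
  refine ⟨?_, fun i => ?_⟩
  · obtain ⟨l, hl⟩ := hf
    refine ⟨?_, fun i x => (hasDeriv hl i x).differentiableAt⟩
    rw [show f = fun x : U => l x.1 from funext hl]
    exact l.continuous_of_finiteDimensional.comp continuous_subtype_val
  · rw [show XD eq3 i f = fun x => f (x * bq i) from funext (XD_PP hf i)]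
    exact right_mem hf _

theorem stabp (k : ℕ) : Stab eq3 (PP ^ k) := stab.pow op_eq3 k

theorem Lap_PP {f : U → ℂ} (hf : f ∈ PP) : Lap eq3 f = 3 * f := by
  funext x
  have h : ∀ i, XD eq3 i (XD eq3 i f) x = -f x := by
    intro i
    rw [XD_PP ((stab f hf).2 i), XD_PP hf, mul_assoc, U.mul_self_eq_neg_one.mpr (c0_bq i)]
    obtain ⟨l, hl⟩ := hf
    rw [hl, hl, U.coe_mul, U.coe_neg, U.coe_one, mul_neg, mul_one, map_neg]
  simp only [Lap, Fin.sum_univ_three, Pi.neg_apply, Pi.add_apply, h, Pi.mul_apply,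
    Pi.ofNat_apply]
  ring

/-- the invariant bilinear form on linear functions -/
def ip (f g : U → ℂ) : ℂ := f 1 * g 1 + f qi * g qi + f qj * g qj + f qk * g qk

theorem expand {f : U → ℂ} (hf : f ∈ PP) (x : U) :
    f x = (c0 x : ℂ) * f 1 + (c1 x : ℂ) * f qi + (c2 x : ℂ) * f qj + (c3 x : ℂ) * f qk := by
  obtain ⟨l, hl⟩ := hf
  rw [hl, hl, hl, hl, hl, H.expand x, U.coe_one]
  simp only [map_add, map_smul, Complex.real_smul]
  simp

theorem sqC (x : U) : (c0 x : ℂ) ^ 2 + (c1 x : ℂ) ^ 2 + (c2 x : ℂ) ^ 2 + (c3 x : ℂ) ^ 2 = 1 := by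
  exact_mod_cast x.sq

theorem ip_left {f g : U → ℂ} (hf : f ∈ PP) (hg : g ∈ PP) (x : U) :
    f x * g x + f (x * qi) * g (x * qi) + f (x * qj) * g (x * qj) + f (x * qk) * g (x * qk) =
      ip f g := by
  rw [expand hf x, expand hg x, expand hf (x * qi), expand hg (x * qi), expand hf (x * qj),
    expand hg (x * qj), expand hf (x * qk), expand hg (x * qk), ip]
  simp
  linear_combination (f 1 * g 1 + f qi * g qi + f qj * g qj + f qk * g qk) * sqC x

theorem ip_right {f g : U → ℂ} (hf : f ∈ PP) (hg : g ∈ PP) (x : U) :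
    f x * g x + f (qi * x) * g (qi * x) + f (qj * x) * g (qj * x) + f (qk * x) * g (qk * x) =
      ip f g := by
  rw [expand hf x, expand hg x, expand hf (qi * x), expand hg (qi * x), expand hf (qj * x),
    expand hg (qj * x), expand hf (qk * x), expand hg (qk * x), ip]
  simp
  linear_combination (f 1 * g 1 + f qi * g qi + f qj * g qj + f qk * g qk) * sqC x

theorem ip_act {f g : U → ℂ} (hf : f ∈ PP) (hg : g ∈ PP) (p : U × U) :
    ip (act p f) (act p g) = ip f g := by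
  have h1 := ip_left (right_mem hf p.2) (right_mem hg p.2) p.1⁻¹
  have h2 := ip_right hf hg p.2
  rw [← h2]
  simp only [ip, one_mul] at h1
  rw [← h1]
  simp only [ip, act_apply, mul_one]

/-- the gradient form -/
def Gm (f g : U → ℂ) : U → ℂ := ∑ i, XD eq3 i f * XD eq3 i g

theorem Gm_PP {f g : U → ℂ} (hf : f ∈ PP) (hg : g ∈ PP) :
    Gm f g = (fun _ => ip f g) - f * g := by
  funext x
  simp only [Gm, Fin.sum_univ_three, Pi.add_apply, Pi.mul_apply, Pi.sub_apply, XD_PP hf, XD_PP hg]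
  rw [← ip_left hf hg x]
  change f (x * qi) * g (x * qi) + f (x * qj) * g (x * qj) + f (x * qk) * g (x * qk) = _
  ring

theorem Gm_add (l : U → ℂ) {f g : U → ℂ} (hf : D1 eq3 f) (hg : D1 eq3 g) :
    Gm l (f + g) = Gm l f + Gm l g := by
  simp only [Gm, XD_add hf hg, mul_add, Finset.sum_add_distrib]

theorem Gm_mul (l : U → ℂ) {f g : U → ℂ} (hf : D1 eq3 f) (hg : D1 eq3 g) :
    Gm l (f * g) = Gm l f * g + f * Gm l g := by
  simp only [Gm, XD_mul op_eq3 hf hg, Fin.sum_univ_three]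
  ring

theorem Gm_const (l : U → ℂ) (c : ℂ) : Gm l (fun _ => c) = 0 := by
  simp only [Gm, XD_const, mul_zero, Finset.sum_const_zero]

theorem mem_zero {f : U → ℂ} (hf : f ∈ PP ^ 0) : ∃ c : ℂ, f = fun _ => c := by
  rw [pow_zero, Submodule.mem_one] at hf
  obtain ⟨c, rfl⟩ := hf
  exact ⟨c, rfl⟩

theorem mul_mem {k : ℕ} {l g : U → ℂ} (hl : l ∈ PP) (hg : g ∈ PP ^ k) : l * g ∈ PP ^ (k + 1) := by
  rw [pow_succ']
  exact Submodule.mul_mem_mul hl hg

theorem pow_ind {k : ℕ} {C : (U → ℂ) → Prop} (hm : ∀ l ∈ PP, ∀ g ∈ PP ^ k, C (l * g))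
    (ha : ∀ f ∈ PP ^ (k + 1), ∀ g ∈ PP ^ (k + 1), C f → C g → C (f + g)) :
    ∀ f ∈ PP ^ (k + 1), C f := by
  intro f hf
  rw [pow_succ'] at hf ha
  induction hf using Submodule.mul_induction_on' with
  | mem_mul_mem l hl g hg => exact hm l hl g hg
  | add f hf g hg h1 h2 => exact ha f hf g hg h1 h2

theorem mul_QQ {k : ℕ} {l q : U → ℂ} (hl : l ∈ PP) (hq : q ∈ QQ k) : l * q ∈ QQ (k + 1) := by
  match k, hq with
  | 0, hq =>
    rw [show q = 0 from hq, mul_zero]
    exact zero_mem _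
  | 1, hq =>
    rw [show q = 0 from hq, mul_zero]
    exact zero_mem _
  | k + 2, hq => exact mul_mem hl hq

theorem one_mem : (1 : U → ℂ) ∈ PP ^ 2 := by
  have e : (1 : U → ℂ) = (fun x : U => zH 0 x) * (fun x : U => zH 1 x) +
      (fun x : U => zH 2 x) * (fun x : U => zH 3 x) := by
    funext x
    have := x.sq
    apply Complex.ext <;> simp [zH] <;> linarith
  rw [e, pow_two]
  exact add_mem (Submodule.mul_mem_mul (zH_mem 0) (zH_mem 1))
    (Submodule.mul_mem_mul (zH_mem 2) (zH_mem 3))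

theorem QQ_le (k : ℕ) : QQ k ≤ PP ^ k := by
  match k with
  | 0 => exact bot_le
  | 1 => exact bot_le
  | k + 2 =>
    intro f hf
    rw [pow_add, ← mul_one f]
    exact Submodule.mul_mem_mul hf one_mem

theorem act_mem {k : ℕ} {f : U → ℂ} (hf : f ∈ PP ^ k) (p : U × U) : act p f ∈ PP ^ k :=
  act_pow p k f hf

theorem Gm_mem (k : ℕ) : ∀ f ∈ PP ^ k, ∀ l ∈ PP, Gm l f + (k : ℂ) • (l * f) ∈ QQ (k + 1) := by
  induction k with
  | zero =>
    intro f hf l _
    obtain ⟨c, rfl⟩ := mem_zero hf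
    rw [Gm_const, Nat.cast_zero, zero_smul, add_zero]
    exact zero_mem _
  | succ k ih =>
    refine pow_ind (fun m hm g hg l hl => ?_) fun f hf g hg h1 h2 l hl => ?_
    · have e : Gm l (m * g) + ((k + 1 : ℕ) : ℂ) • (l * (m * g)) =
          ip l m • g + m * (Gm l g + (k : ℂ) • (l * g)) := by
        rw [Gm_mul l (stab m hm).1 (stabp k g hg).1, Gm_PP hl hm]
        funext x
        simp only [Pi.add_apply, Pi.mul_apply, Pi.sub_apply, Pi.smul_apply, smul_eq_mul]
        push_cast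
        ring
      rw [e]
      exact add_mem (Submodule.smul_mem _ _ hg) (mul_QQ hm (ih g hg l hl))
    · rw [Gm_add l (stabp _ f hf).1 (stabp _ g hg).1, mul_add, smul_add, add_add_add_comm]
      exact add_mem (h1 l hl) (h2 l hl)

theorem Gm_act (p : U × U) (k : ℕ) :
    ∀ f ∈ PP ^ k, ∀ l ∈ PP, Gm (act p l) (act p f) = act p (Gm l f) := by
  induction k with
  | zero =>
    intro f hf l _
    obtain ⟨c, rfl⟩ := mem_zero hf
    rw [Gm_const, map_zero]
    exact Gm_const _ c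
  | succ k ih =>
    refine pow_ind (fun m hm g hg l hl => ?_) fun f hf g hg h1 h2 l hl => ?_
    · rw [map_mul, Gm_mul _ (stab _ (act_PP p hm)).1 (stabp k _ (act_mem hg p)).1,
        Gm_mul l (stab m hm).1 (stabp k g hg).1, ih g hg l hl,
        Gm_PP (act_PP p hl) (act_PP p hm), Gm_PP hl hm, ip_act hl hm]
      rfl
    · rw [map_add, Gm_add _ (stabp _ _ (act_mem hf p)).1 (stabp _ _ (act_mem hg p)).1,
        Gm_add l (stabp _ f hf).1 (stabp _ g hg).1, h1 l hl, h2 l hl, map_add]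

theorem Lap_mul' {k : ℕ} {l g : U → ℂ} (hl : l ∈ PP) (hg : g ∈ PP ^ k) :
    Lap eq3 (l * g) = 3 * l * g + l * Lap eq3 g - 2 * Gm l g := by
  rw [Lap_mul op_eq3 (stab.c2 hl) ((stabp k).c2 hg), Lap_PP hl, Gm]

theorem Lap_mem (k : ℕ) : ∀ f ∈ PP ^ k, Lap eq3 f - ((k * (k + 2) : ℝ) : ℂ) • f ∈ QQ k := by
  induction k with
  | zero =>
    intro f hf
    obtain ⟨c, rfl⟩ := mem_zero hf
    rw [Lap_const, Nat.cast_zero, zero_mul, Complex.ofReal_zero, zero_smul, sub_zero]
    exact zero_mem _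
  | succ k ih =>
    refine pow_ind (fun l hl g hg => ?_) fun f hf g hg h1 h2 => ?_
    · have e : Lap eq3 (l * g) - ((((k + 1 : ℕ) : ℝ) * (((k + 1 : ℕ) : ℝ) + 2) : ℝ) : ℂ) • (l * g) =
          l * (Lap eq3 g - ((k * (k + 2) : ℝ) : ℂ) • g) -
            (2 : ℂ) • (Gm l g + (k : ℂ) • (l * g)) := by
        rw [Lap_mul' hl hg]
        funext x
        simp only [Pi.add_apply, Pi.mul_apply, Pi.sub_apply, Pi.smul_apply, smul_eq_mul,
          Pi.ofNat_apply]
        push_cast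
        ring
      rw [e]
      exact sub_mem (mul_QQ hl (ih g hg)) (Submodule.smul_mem _ _ (Gm_mem k g hg l hl))
    · rw [Lap_add ((stabp _).c2 hf) ((stabp _).c2 hg), smul_add, add_sub_add_comm]
      exact add_mem h1 h2

theorem Lap_act (p : U × U) (k : ℕ) : ∀ f ∈ PP ^ k, Lap eq3 (act p f) = act p (Lap eq3 f) := by
  induction k with
  | zero =>
    intro f hf
    obtain ⟨c, rfl⟩ := mem_zero hf
    rw [Lap_const, map_zero]
    exact Lap_const c
  | succ k ih =>
    refine pow_ind (fun l hl g hg => ?_) fun f hf g hg h1 h2 => ?_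
    · rw [map_mul, Lap_mul' (act_PP p hl) (act_mem hg p), Lap_mul' hl hg, ih g hg,
        Gm_act p k g hg l hl]
      rfl
    · rw [map_add, Lap_add ((stabp _).c2 (act_mem hf p)) ((stabp _).c2 (act_mem hg p)),
        Lap_add ((stabp _).c2 hf) ((stabp _).c2 hg), h1, h2, map_add]

end Harm1I

theorem harm1 : S_Harm1 :=
  ⟨Harm1I.stab, Harm1I.QQ_le, fun k f hf =>
    ⟨Harm1I.Lap_mem k f hf, fun p => Harm1I.Lap_act p k f hf⟩⟩

end

end Pool.Agent.P.MP_e311cd_gt
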