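import Pool.Agent.P.MP_e311cd_gt.I.St

/-! Invariants of the dihedral normal forms, and comparison of the normal forms. -/

namespace Pool.Agent.P.MP_e311cd_gt

namespace Inv0I

/-- roots in the circle -/
def RT (r : ℕ) (w : U) : Set U := {b : U | Circ b ∧ b ^ r = w}

/-- the coset of the roots of unity -/
def RJ (r : ℕ) : Set U := {a : U | Circ (a * qj) ∧ (a * qj) ^ r = 1}

theorem RT_fin {r : ℕ} (hr : 0 < r) {w : U} (hw : Circ w) : (RT r w).Finite := finite_root hr hw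

theorem RJ_eq (r : ℕ) : RJ r = (fun a => a * qj⁻¹) '' RT r 1 := by
  ext a
  constructor
  · intro h
    exact ⟨a * qj, h, by simp⟩
  · rintro ⟨b, hb, rfl⟩
    simpa [RJ, RT] using hb

theorem RJ_card {r : ℕ} (hr : 0 < r) : (RJ r).Finite ∧ (RJ r).ncard = r := by
  rw [RJ_eq]
  exact ⟨(finite_root hr Circ.one).image _, by
    rw [Set.ncard_image_of_injective _ (mul_left_injective _)]; exact ncard_root hr Circ.one⟩

theorem not_both {a : U} (h : Circ a) (h' : Circ (a * qj)) : False := by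
  have h1 := circ_mul_qj.1 h'
  have h2 := a.sq
  rw [h1.1, h1.2, h.1, h.2] at h2
  norm_num at h2

theorem disj (r r' : ℕ) : Disjoint (RT r 1) (RJ r') :=
  Set.disjoint_left.2 fun _ h h' => not_both h.1 h'.1

theorem SD_card {n : ℕ} (hn : 0 < n) : (SD n).ncard = 4 * n := by
  have h : 0 < 2 * n := by omega
  have e : SD n = RT (2 * n) 1 ∪ RJ (2 * n) := rfl
  rw [e, Set.ncard_union_eq (disj _ _) (finite_root h Circ.one) (RJ_card h).1, (RJ_card h).2]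
  have := ncard_root h Circ.one
  unfold RT
  omega

theorem dd_le {Γ : Subgroup (U × U)} (f : FreeG Γ) {c : ℝ} (hc : c ^ 2 ≠ 1)
    (hL : ∀ a, (a, 1) ∈ Γ → c0 a = c → Circ a) (hR : ∀ b, (1, b) ∈ Γ → Circ b) :
    dd Γ c ≤ 2 := by
  obtain ⟨h1, h2⟩ := ncard_circ_re c
  have k1 : {a : U | (a, 1) ∈ Γ ∧ c0 a = c}.ncard ≤ 2 :=
    le_trans (Set.ncard_le_ncard (fun a ha => And.intro (hL a ha.1 ha.2) ha.2) h1) h2
  have k2 : {b : U | (1, b) ∈ Γ ∧ c0 b = c}.ncard ≤ 2 :=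
    le_trans (Set.ncard_le_ncard (fun a ha => And.intro (hR a ha.1) ha.2) h1) h2
  unfold dd
  rcases Set.eq_empty_or_nonempty {a : U | (a, 1) ∈ Γ ∧ c0 a = c} with e | ⟨a, ha⟩
  · rw [e, Set.ncard_empty]; omega
  · have e : {b : U | (1, b) ∈ Γ ∧ c0 b = c} = ∅ := by
      refine Set.eq_empty_of_forall_notMem fun b hb => hc ?_
      have h3 : (a, b) ∈ Γ := by simpa using Γ.mul_mem ha.1 hb.1
      rw [← ha.2]
      exact U.re_sq_eq_one.2 (f.free a b h3 (ha.2.trans hb.2.symm)).2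
    rw [e, Set.ncard_empty]; omega

theorem card_eq {G : Type} [Group G] {A : Subgroup G} {S : Set G} (h : ∀ a, a ∈ A ↔ a ∈ S) :
    Nat.card A = S.ncard := by
  rw [← Set.ext (a := (A : Set G)) h]; rfl

theorem inv_N0 {Γ : Subgroup (U × U)} {n m : ℕ} (f : FreeG Γ) (h : N0 n m Γ) :
    Nat.card Γ = 8 * n * m ∧ sg Γ = 4 * n + 2 * m ∧ 2 * n ≤ dd Γ 0 ∧ dd Γ (1 / 2) ≤ 2 := by
  obtain ⟨hn, hm, h⟩ := h
  have m0 : 0 < 2 * m := by have := hm.pos; omega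
  have n0 : 0 < 2 * n := by omega
  have cS := SD_card (n := n) (by omega)
  have cB : (RT (2 * m) 1).ncard = 2 * m := ncard_root m0 Circ.one
  have hL : ∀ a, (a, 1) ∈ Γ ↔ a ∈ SD n := fun a => by simp [h, Circ.one]
  have h1 : (1 : U) ∈ SD n := Or.inl ⟨Circ.one, one_pow _⟩
  refine ⟨?_, ?_, ?_, ?_⟩
  · rw [card_eq (S := SD n ×ˢ RT (2 * m) 1) fun p => h p.1 p.2, Set.ncard_prod, cS, cB]; ring
  · unfold sg
    rw [card_eq (A := GaL Γ) (S := SD n) hL,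
      card_eq (A := GaR Γ) (S := RT (2 * m) 1) fun b => (h 1 b).trans (and_iff_right h1), cS, cB]
  · have k : (RJ (2 * n)).ncard ≤ {a : U | (a, 1) ∈ Γ ∧ c0 a = 0}.ncard :=
      Set.ncard_le_ncard (fun a ha => ⟨(hL a).2 (Or.inr ha), (circ_mul_qj.1 ha.1).1⟩)
        ((Set.finite_of_ncard_pos (by omega : 0 < (SD n).ncard)).subset fun a ha => (hL a).1 ha.1)
    rw [(RJ_card n0).2] at k
    exact k.trans (Nat.le_add_right _ _)
  · refine dd_le f (by norm_num) (fun a ha hc => ?_) fun b hb => ((h 1 b).1 hb).2.1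
    rcases (hL a).1 ha with h2 | h2
    · exact h2.1
    · rw [(circ_mul_qj.1 h2.1).1] at hc; norm_num at hc

theorem inv_N1 {Γ : Subgroup (U × U)} {n m : ℕ} (f : FreeG Γ) (h : N1 n m Γ) :
    Nat.card Γ = 8 * n * m ∧ sg Γ = 2 * n + 2 * m ∧ dd Γ 0 ≤ 2 ∧ dd Γ (1 / 2) ≤ 2 := by
  obtain ⟨hn, -, -, hm, h⟩ := h
  have m0 : 0 < 2 * m := by omega
  have n0 : 0 < 2 * n := by omega
  have cA : (RT (2 * n) 1).ncard = 2 * n := ncard_root n0 Circ.one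
  have cB : (RT (2 * m) 1).ncard = 2 * m := ncard_root m0 Circ.one
  have cB' : (RT (2 * m) (-1)).ncard = 2 * m := ncard_root m0 Circ.one.neg
  have hL : ∀ a, (a, 1) ∈ Γ ↔ a ∈ RT (2 * n) 1 := fun a => by
    rw [h]
    constructor
    · rintro ⟨-, h1 | h1⟩
      · exact ⟨h1.1, h1.2.1⟩
      · exact absurd (h1.2.2.symm.trans (one_pow _)) (U.neg_ne 1)
    · exact fun h1 => ⟨Circ.one, Or.inl ⟨h1.1, h1.2, one_pow _⟩⟩
  have hR : ∀ b, (1, b) ∈ Γ ↔ b ∈ RT (2 * m) 1 := fun b => by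
    rw [h]
    constructor
    · rintro ⟨h0, h1 | h1⟩
      · exact ⟨h0, h1.2.2⟩
      · exact (not_both Circ.one h1.1).elim
    · exact fun h1 => ⟨h1.1, Or.inl ⟨Circ.one, one_pow _, h1.2⟩⟩
  refine ⟨?_, ?_, ?_, ?_⟩
  · have e : ∀ p, p ∈ Γ ↔ p ∈ RT (2 * n) 1 ×ˢ RT (2 * m) 1 ∪ RJ (2 * n) ×ˢ RT (2 * m) (-1) := by
      intro p
      refine (h p.1 p.2).trans ?_
      simp only [Set.mem_union, Set.mem_prod, RT, RJ, Set.mem_ofPred_eq]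
      tauto
    rw [card_eq e, Set.ncard_union_eq (Set.disjoint_prod.2 (Or.inl (disj _ _)))
      ((RT_fin n0 Circ.one).prod (RT_fin m0 Circ.one))
      ((RJ_card n0).1.prod (RT_fin m0 Circ.one.neg)), Set.ncard_prod, Set.ncard_prod, cA, cB,
      cB', (RJ_card n0).2]
    ring
  · unfold sg
    rw [card_eq (A := GaL Γ) hL, card_eq (A := GaR Γ) hR, cA, cB]
  · exact dd_le f (by norm_num) (fun a ha _ => ((hL a).1 ha).1) fun b hb => ((hR b).1 hb).1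
  · exact dd_le f (by norm_num) (fun a ha _ => ((hL a).1 ha).1) fun b hb => ((hR b).1 hb).1

theorem par0 {n m n' m' : ℕ} (h1 : 8 * n * m = 8 * n' * m') (h2 : 4 * n + 2 * m = 4 * n' + 2 * m')
    (h3 : m' % 2 = 1) : n = n' ∧ m = m' := by
  have e : ((n : ℤ) - n') * (m' - 2 * n) = 0 := by
    have k1 : (8 * n * m : ℤ) = 8 * n' * m' := by exact_mod_cast h1
    have k2 : (4 * n + 2 * m : ℤ) = 4 * n' + 2 * m' := by exact_mod_cast h2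
    have k3 : (m : ℤ) = 2 * n' + m' - 2 * n := by omega
    rw [k3] at k1
    linarith
  rcases mul_eq_zero.1 e with e | e <;> omega

theorem par1 {n m n' m' : ℕ} (h1 : 8 * n * m = 8 * n' * m') (h2 : 2 * n + 2 * m = 2 * n' + 2 * m')
    (h3 : n % 2 = 1) (h4 : m' % 2 = 0) : n = n' ∧ m = m' := by
  have e : ((n : ℤ) - n') * (m' - n) = 0 := by
    have k1 : (8 * n * m : ℤ) = 8 * n' * m' := by exact_mod_cast h1
    have k2 : (2 * n + 2 * m : ℤ) = 2 * n' + 2 * m' := by exact_mod_cast h2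
    have k3 : (m : ℤ) = n' + m' - n := by omega
    rw [k3] at k1
    linarith
  rcases mul_eq_zero.1 e with e | e <;> omega

theorem par3 {n m m' : ℕ} (h0 : 2 ≤ n) (h1 : 8 * n * m = 48 * m')
    (h2 : 4 * n + 2 * m = 8 + 2 * m') (h3 : m % 2 = 1) (h4 : 2 * n ≤ 6) : False := by
  have h5 : n = 2 ∨ n = 3 := by omega
  rcases h5 with rfl | rfl <;> omega

theorem summary (h0 : S_Inv0) (h1 : S_Inv1) {Γ : Subgroup (U × U)} (f : FreeG Γ) (h : NA Γ) :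
    ∃ n m, (N0 n m Γ ∧ 2 ≤ n ∧ m % 2 = 1 ∧ Nat.card Γ = 8 * n * m ∧ sg Γ = 4 * n + 2 * m ∧
        2 * n ≤ dd Γ 0 ∧ dd Γ (1 / 2) ≤ 2) ∨
      (N1 n m Γ ∧ n % 2 = 1 ∧ m % 2 = 0 ∧ Nat.card Γ = 8 * n * m ∧ sg Γ = 2 * n + 2 * m ∧
        dd Γ 0 ≤ 2 ∧ dd Γ (1 / 2) ≤ 2) ∨
      (N3 m Γ ∧ m % 2 = 1 ∧ Nat.card Γ = 48 * m ∧ sg Γ = 8 + 2 * m ∧ 3 ≤ dd Γ 0 ∧ dd Γ 0 ≤ 6 ∧
        dd Γ (1 / 2) ≤ 2) ∨
      (NP ST m Γ ∧ m % 2 = 1 ∧ Nat.card Γ = 24 * (2 * m) ∧ sg Γ = 24 + 2 * m ∧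
        3 ≤ dd Γ (1 / 2)) ∨
      (NP SO m Γ ∧ m % 2 = 1 ∧ Nat.card Γ = 48 * (2 * m) ∧ sg Γ = 48 + 2 * m ∧
        3 ≤ dd Γ (1 / 2)) ∨
      (NP SI m Γ ∧ m % 2 = 1 ∧ Nat.card Γ = 120 * (2 * m) ∧ sg Γ = 120 + 2 * m ∧
        3 ≤ dd Γ (1 / 2)) := by
  obtain ⟨n, m, h | h | h | h | h | h⟩ := h <;> refine ⟨n, m, ?_⟩
  · exact Or.inl ⟨h, h.1, Nat.odd_iff.1 h.2.1, (h0 Γ n m f).1 h⟩
  · exact Or.inr (Or.inl ⟨h, Nat.odd_iff.1 h.2.1, Nat.even_iff.1 h.2.2.1, (h0 Γ n m f).2 h⟩)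
  · exact Or.inr (Or.inr (Or.inr (Or.inl ⟨h.2, Nat.odd_iff.1 h.2.1,
      (h1 Γ m f).1 _ _ h.2 h.1 (by norm_num) subset_rfl⟩)))
  · exact Or.inr (Or.inr (Or.inl ⟨h, Nat.odd_iff.1 h.1, (h1 Γ m f).2 h⟩))
  · exact Or.inr (Or.inr (Or.inr (Or.inr (Or.inl ⟨h.2, Nat.odd_iff.1 h.2.1,
      (h1 Γ m f).1 _ _ h.2 h.1 (by norm_num) Set.subset_union_left⟩))))
  · exact Or.inr (Or.inr (Or.inr (Or.inr (Or.inr ⟨h.2, Nat.odd_iff.1 h.2.1,
      (h1 Γ m f).1 _ _ h.2 h.1 (by norm_num) Set.subset_union_left⟩))))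

theorem NP_ext {S : Set U} {m m' : ℕ} {Γ Γ' : Subgroup (U × U)} (h : NP S m Γ) (h' : NP S m' Γ')
    (e : m = m') : Γ = Γ' := by
  subst e
  exact Subgroup.ext fun p => (h.2 p.1 p.2).trans (h'.2 p.1 p.2).symm

end Inv0I

open Inv0I

theorem inv0 : S_Inv0 := fun _ _ _ f => ⟨inv_N0 f, inv_N1 f⟩

theorem cmpNA (h0 : S_Inv0) (h1 : S_Inv1) : S_Cmp := by
  intro Γ₁ Γ₂ f1 f2 a1 a2 e1 e2 e3 e4
  obtain ⟨n, m, s1⟩ := summary h0 h1 f1 a1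
  obtain ⟨n', m', s2⟩ := summary h0 h1 f2 a2
  rcases s1 with ⟨t, p⟩ | ⟨t, p⟩ | ⟨t, p⟩ | ⟨t, p⟩ | ⟨t, p⟩ | ⟨t, p⟩ <;>
    rcases s2 with ⟨t', p'⟩ | ⟨t', p'⟩ | ⟨t', p'⟩ | ⟨t', p'⟩ | ⟨t', p'⟩ | ⟨t', p'⟩ <;>
    try (exfalso; omega)
  · obtain ⟨rfl, rfl⟩ := par0 (n := n) (m := m) (n' := n') (m' := m') (by omega) (by omega) p'.2.1
    exact NP_ext t.2 t'.2 rfl
  · exact (par3 (n := n) (m := m) (m' := m') p.1 (by omega) (by omega) p.2.1 (by omega)).elim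
  · obtain ⟨rfl, rfl⟩ := par1 (n := n) (m := m) (n' := n') (m' := m') (by omega) (by omega) p.1
      p'.2.1
    exact Subgroup.ext fun q => (t.2.2.2.2 q.1 q.2).trans (t'.2.2.2.2 q.1 q.2).symm
  · exact (par3 (n := n') (m := m') (m' := m) p'.1 (by omega) (by omega) p'.2.1 (by omega)).elim
  · obtain rfl : m = m' := by omega
    exact Subgroup.ext fun q => (t.2.2 q.1 q.2).trans (t'.2.2 q.1 q.2).symm
  · exact NP_ext t t' (by omega)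
  · exact NP_ext t t' (by omega)
  · exact NP_ext t t' (by omega)

end Pool.Agent.P.MP_e311cd_gt
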