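import Pool.Agent.P.MP_e311cd_gt.I.St

/-! Invariants of the polyhedral normal forms, and vanishing of the multiplicity for `k = 2`. -/

namespace Pool.Agent.P.MP_e311cd_gt

open Set

noncomputable section

namespace Inv1I

theorem card_eq {G : Type} [Group G] (A : Subgroup G) {S : Set G} (h : ∀ a, a ∈ A ↔ a ∈ S) :
    Nat.card A = S.ncard := by
  rw [← Nat.card_coe_set_eq, ← show (A : Set G) = S from Set.ext h]
  rfl

theorem three_le {S : Set U} (hS : S.Finite) {a b c : U} (ha : a ∈ S) (hb : b ∈ S) (hc : c ∈ S)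
    (h1 : a ≠ b) (h2 : a ≠ c) (h3 : b ≠ c) : 3 ≤ S.ncard :=
  (two_lt_ncard_iff hS).mpr ⟨a, b, c, ha, hb, hc, h1, h2, h3⟩

theorem one_SQ : (1 : U) ∈ SQ := Or.inl (by simp)
theorem neg_one_SQ : (-1 : U) ∈ SQ := Or.inl (by simp)
theorem qi_SQ : qi ∈ SQ := Or.inr (Or.inl (by simp))
theorem qj_SQ : qj ∈ SQ := Or.inr (Or.inr (Or.inl (by simp)))
theorem qk_SQ : qk ∈ SQ := Or.inr (Or.inr (Or.inr (by simp)))

theorem qz_inj {e e' : ℕ} (he : e < 3) (he' : e' < 3) (h : qz ^ e = qz ^ e') : e = e' := by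
  have h3 : (0 : ℝ) < √3 := Real.sqrt_pos.mpr (by norm_num)
  have h1 := congrArg (fun x : U => c1 x) h
  interval_cases e <;> interval_cases e' <;> first | rfl | (simp [sq] at h1 <;> linarith)

/-- a root of unity other than `1` and `-1` -/
theorem exists_root {r : ℕ} (hr : 2 < r) : ∃ b : U, Circ b ∧ b ^ r = 1 ∧ b * b ≠ 1 := by
  by_contra! h
  have h1 : {b : U | Circ b ∧ b ^ r = 1} ⊆ {1, -1} := fun b hb =>
    U.mul_self_eq_one.mp (h b hb.1 hb.2)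
  have h2 := (ncard_le_ncard h1 (toFinite _)).trans (ncard_insert_le _ _)
  rw [ncard_root (by omega) Circ.one, ncard_singleton] at h2
  omega

theorem c1_ne {a : U} (h : Circ a) (h' : a * a ≠ 1) : c1 a ≠ 0 := fun e => by
  have := a.sq
  rw [h.1, h.2, e] at this
  exact h' (U.mul_self_eq_one.mpr (U.re_sq_eq_one.mp (by linarith)))

theorem sum_chi (Γ : Subgroup (U × U)) [Fintype Γ] {a b b' : U} (h1 : (a, b) ∈ Γ) (ha : Circ a)
    (ha' : c1 a ≠ 0) (h2 : (qj, b') ∈ Γ) : ∑ p : Γ, chi (c0 p.1.1) 2 = 0 := by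
  have key : ∀ v : U, c0 v = 0 → ∑ p : Γ, (p.1.1 * v * p.1.1⁻¹).1 = 0 := by
    intro v hv
    set w := ∑ p : Γ, (p.1.1 * v * p.1.1⁻¹).1 with hw
    have hc : ∀ g : Γ, g.1.1.1 * w = w * g.1.1.1 := fun g => by
      conv_rhs => rw [hw, ← Equiv.sum_comp (Equiv.mulLeft g)]
      rw [hw, Finset.mul_sum, Finset.sum_mul]
      refine Finset.sum_congr rfl fun p _ => ?_
      rw [← U.coe_mul, ← U.coe_mul]
      congr 1
      simp [mul_assoc]
    have h0 : c0 w = 0 := by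
      rw [hw, ← show (AddMonoidHom.mk' c0 c0_add) _ = c0 _ from rfl, map_sum]
      exact Finset.sum_eq_zero fun p _ => (U.c0_conj _ _).trans hv
    have e1 := H.eq_iff.mp (hc ⟨_, h1⟩)
    have e2 := H.eq_iff.mp (hc ⟨_, h2⟩)
    simp [ha.1, ha.2] at e1 e2
    have e3 : c1 a * c2 w = 0 := by linarith [e1.2]
    apply H.ext <;> simp
    · exact h0
    · linarith [e2.2]
    · exact (mul_eq_zero.mp e3).resolve_left ha'
    · linarith [e2.1]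
  have k1 := congrArg (AddMonoidHom.mk' c1 c1_add) (key qi rfl)
  have k2 := congrArg (AddMonoidHom.mk' c2 c2_add) (key qj rfl)
  have k3 := congrArg (AddMonoidHom.mk' c3 c3_add) (key qk rfl)
  rw [map_sum, map_zero] at k1 k2 k3
  rw [← add_zero (0 : ℝ), ← add_zero (0 : ℝ)]
  nth_rw 1 [← k1]
  nth_rw 1 [← k2]
  rw [add_zero, ← k3, ← Finset.sum_add_distrib, ← Finset.sum_add_distrib]
  refine Finset.sum_congr rfl fun p _ => ?_
  have := p.1.1.sq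
  simp [chi]
  linarith

theorem mk_two {Γ : Subgroup (U × U)} (hf : Finite Γ) (hc : ∀ a b, (a, b) ∈ Γ → Circ b)
    {a b b' : U} (h1 : (a, b) ∈ Γ) (ha : Circ a) (ha' : c1 a ≠ 0) (h2 : (qj, b') ∈ Γ)
    (h3 : (∃ c, (1, c) ∈ Γ ∧ c * c ≠ 1) ∨ ∀ a b, (a, b) ∈ Γ → b * b = 1) : mk Γ 2 = 0 := by
  have := Fintype.ofFinite Γ
  have h0 := sum_chi Γ h1 ha ha' h2
  have hS : ∑ p : Γ, (chi (c0 p.1.1) 2 : ℂ) * toC (p.1.2 * p.1.2) = 0 := by
    rcases h3 with ⟨c, h3, h4⟩ | h3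
    · have hcc := hc _ _ h3
      have h5 : toC (c * c) - 1 ≠ 0 := fun e =>
        h4 ((hcc.mul hcc).toC_inj Circ.one (sub_eq_zero.mp e))
      refine (mul_eq_zero.mp ?_).resolve_left h5
      rw [sub_mul, one_mul, sub_eq_zero]
      conv_rhs => rw [← Equiv.sum_comp (Equiv.mulLeft (⟨_, h3⟩ : Γ))]
      rw [Finset.mul_sum]
      refine Finset.sum_congr rfl fun p _ => ?_
      have hp := hc _ _ p.2
      change _ = (chi (c0 (1 * p.1.1).1) 2 : ℂ) * toC (c * p.1.2 * (c * p.1.2))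
      rw [one_mul, (hcc.mul hp).toC_mul, hcc.toC_mul, hcc.toC_mul, hp.toC_mul]
      ring
    · have : ∀ p : Γ, p.1.2 * p.1.2 = 1 := fun p => h3 _ _ p.2
      simp only [this, toC_one, mul_one]
      exact_mod_cast h0
  have h6 := congrArg Complex.re hS
  rw [Complex.re_sum, Complex.zero_re] at h6
  rw [mk, finsum_eq_sum_of_fintype, div_eq_zero_iff]
  left
  have h7 := congrArg₂ (fun x y : ℝ => x + 2 * y) h0 h6
  simp only [mul_zero, add_zero] at h7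
  rw [← h7, Finset.mul_sum, ← Finset.sum_add_distrib]
  refine Finset.sum_congr rfl fun p _ => ?_
  rw [Complex.re_ofReal_mul, show (toC (p.1.2 * p.1.2)).re = c0 (p.1.2 * p.1.2).1 from rfl,
    U.c0_mul_self]
  simp only [chi]
  ring

theorem mk_NP {Γ : Subgroup (U × U)} {S : Set U} {m : ℕ} (hf : Finite Γ) (h : NP S m Γ)
    (h1 : 1 ∈ S) (hj : qj ∈ S) {a : U} (ha : a ∈ S) (hc : Circ a) (hc' : c1 a ≠ 0) :
    mk Γ 2 = 0 := by
  refine mk_two hf (fun a b hab => ((h.2 a b).mp hab).2.1) (b := 1) (b' := 1)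
    ((h.2 _ _).mpr ⟨ha, Circ.one, one_pow _⟩) hc hc' ((h.2 _ _).mpr ⟨hj, Circ.one, one_pow _⟩) ?_
  by_contra! hn
  obtain ⟨a, b, hab, hb⟩ := hn.2
  exact hb (hn.1 b ((h.2 _ _).mpr ⟨h1, ((h.2 a b).mp hab).2⟩))

end Inv1I

open Inv1I

theorem inv1 (hC : S_Crd) : S_Inv1 := by
  intro Γ m hF
  obtain ⟨⟨hQf, hQ⟩, -, -, -, -, -, hu⟩ := hC
  refine ⟨fun S s h hs hs0 hT => ⟨?_, ?_, ?_⟩, fun h => ?_⟩
  · rw [card_eq Γ (S := S ×ˢ {b | Circ b ∧ b ^ (2 * m) = 1}) fun p => h.2 p.1 p.2, ncard_prod, hs,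
      ncard_root (by have := h.1.pos; omega) Circ.one]
  · rw [sg, card_eq (GaL Γ) (S := S) fun a => by simp [mem_GaL, h.2, Circ.one],
      card_eq (GaR Γ) (S := {b | Circ b ∧ b ^ (2 * m) = 1}) fun b => by
        simp [mem_GaR, h.2, hT (Or.inl one_SQ)],
      hs, ncard_root (by have := h.1.pos; omega) Circ.one]
  · refine le_trans ?_ (Nat.le_add_right _ _)
    have hm : ∀ a : U, c0 a = 1 / 2 → c1 a ^ 2 = 1 / 4 → c2 a ^ 2 = 1 / 4 → c3 a ^ 2 = 1 / 4 →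
        a ∈ {a : U | (a, 1) ∈ Γ ∧ c0 a = 1 / 2} := fun a h0 h1 h2 h3 =>
      ⟨(h.2 _ _).mpr ⟨hT (Or.inr ⟨by rw [h0]; norm_num, h1, h2, h3⟩), Circ.one, one_pow _⟩, h0⟩
    refine three_le ((finite_of_ncard_pos (hs ▸ hs0)).subset fun a ha => ((h.2 _ _).mp ha.1).1)
      (a := qw) (b := qw⁻¹) (c := qi * qw * qi⁻¹) (hm _ ?_ ?_ ?_ ?_) (hm _ ?_ ?_ ?_ ?_)
      (hm _ ?_ ?_ ?_ ?_) ?_ ?_ ?_ <;> norm_num [U.eq_iff]
  obtain ⟨-, hm, h⟩ := h
  have hm0 : 0 < 2 * m := by omega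
  have hL : ∀ a, (a, 1) ∈ Γ ↔ a ∈ SQ := fun a => by
    rw [h]
    refine ⟨?_, fun ha => ⟨Circ.one, a, ha, 0, by norm_num, by simp, by simp⟩⟩
    rintro ⟨-, q, hq, e, he, rfl, h1⟩
    rw [← qz_inj (by norm_num) he (by simpa using h1 : qz ^ 0 = qz ^ e)]
    simpa using hq
  have hR : ∀ b, (1, b) ∈ Γ ↔ b ∈ {b : U | Circ b ∧ b ^ (2 * m) = 1} := fun b => by
    rw [h]
    refine ⟨?_, fun hb => ⟨hb.1, 1, one_SQ, 0, by norm_num, by simp, by simpa using hb.2⟩⟩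
    rintro ⟨hb, q, hq, e, he, h1, h2⟩
    rw [← hu 1 one_SQ q hq 0 (by norm_num) e he (by simpa using h1)] at h2
    exact ⟨hb, h2⟩
  have hE : {b : U | (1, b) ∈ Γ ∧ c0 b = 0} = ∅ := eq_empty_of_forall_notMem fun b hb => by
    have h1 := Γ.mul_mem ((hL _).mpr qi_SQ) hb.1
    rw [Prod.mk_mul_mk, mul_one, one_mul] at h1
    have h2 := (hF.free _ _ h1 hb.2.symm).2
    simp [U.eq_iff] at h2
  refine ⟨?_, ?_, ?_, ?_, ?_⟩
  · let A : ℕ → Set (U × U) := fun e =>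
      ((· * qw ^ e) '' SQ) ×ˢ {b | Circ b ∧ b ^ (2 * m) = qz ^ e}
    have hA : ∀ e, (A e).ncard = 8 * (2 * m) := fun e => by
      rw [ncard_prod, ncard_image_of_injective _ (mul_left_injective _), hQ,
        ncard_root hm0 (circ_qz.pow e)]
    have hAf : ∀ e, (A e).Finite := fun e => finite_of_ncard_pos (by rw [hA]; omega)
    have hD : ∀ e < 3, ∀ e' < 3, e ≠ e' → Disjoint (A e) (A e') := fun e he e' he' hne =>
      disjoint_left.mpr fun p hp hp' => hne (qz_inj he he' (hp.2.2.symm.trans hp'.2.2))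
    rw [card_eq Γ (S := A 0 ∪ A 1 ∪ A 2) fun p => ?_,
      ncard_union_eq (disjoint_union_left.mpr ⟨hD 0 (by norm_num) 2 (by norm_num) (by norm_num),
        hD 1 (by norm_num) 2 (by norm_num) (by norm_num)⟩) ((hAf 0).union (hAf 1)) (hAf 2),
      ncard_union_eq (hD 0 (by norm_num) 1 (by norm_num) (by norm_num)) (hAf 0) (hAf 1),
      hA, hA, hA]
    · ring
    refine (h p.1 p.2).trans ⟨?_, ?_⟩
    · rintro ⟨hb, q, hq, e, he, h1, h2⟩
      have : p ∈ A e := ⟨⟨q, hq, h1.symm⟩, hb, h2⟩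
      interval_cases e
      exacts [Or.inl (Or.inl this), Or.inl (Or.inr this), Or.inr this]
    · rintro ((⟨⟨q, hq, h1⟩, hb, h2⟩ | ⟨⟨q, hq, h1⟩, hb, h2⟩) | ⟨⟨q, hq, h1⟩, hb, h2⟩) <;>
        exact ⟨hb, q, hq, _, by norm_num, h1.symm, h2⟩
  · rw [sg, card_eq (GaL Γ) hL, card_eq (GaR Γ) hR, hQ, ncard_root hm0 Circ.one]
  · refine le_trans ?_ (Nat.le_add_right _ _)
    refine three_le (hQf.subset fun a ha => (hL a).mp ha.1) (a := qi) (b := qj) (c := qk)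
      ⟨(hL _).mpr qi_SQ, rfl⟩ ⟨(hL _).mpr qj_SQ, rfl⟩ ⟨(hL _).mpr qk_SQ, rfl⟩ ?_ ?_ ?_ <;>
      simp [U.eq_iff]
  · rw [dd, hE, ncard_empty, add_zero]
    have h1 : ({1, -1} : Set U) ⊆ SQ := by
      rintro _ (rfl | rfl)
      exacts [one_SQ, neg_one_SQ]
    have h2 := ncard_sdiff h1
    rw [hQ, ncard_pair (U.neg_ne 1).symm] at h2
    refine (ncard_le_ncard (fun a ha => ?_) (hQf.subset sdiff_subset)).trans h2.le
    refine ⟨(hL a).mp ha.1, fun e => ?_⟩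
    have h3 := U.re_sq_eq_one.mpr e
    rw [ha.2] at h3
    norm_num at h3
  · have h1 : {a : U | (a, 1) ∈ Γ ∧ c0 a = 1 / 2} = ∅ := eq_empty_of_forall_notMem fun a ha => by
      have h2 := a.sq
      have h3 := ha.2
      rcases (hL a).mp ha.1 with h4 | h4 | h4 | h4 <;>
        nlinarith [sq_nonneg (c1 a), sq_nonneg (c2 a), sq_nonneg (c3 a)]
    rw [dd, h1, ncard_empty, zero_add]
    refine (ncard_le_ncard (fun b hb => ?_) (ncard_circ_re (1 / 2)).1).trans (ncard_circ_re _).2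
    exact ⟨((hR b).mp hb.1).1, hb.2⟩

theorem m2 : S_M2 := by
  have hi : c1 qi ≠ 0 := by simp
  have hjj : qj * qj = -1 := U.mul_self_eq_neg_one.mpr rfl
  have hj : ∀ n, Circ (qj * qj) ∧ (qj * qj) ^ (2 * n) = 1 := fun n => by
    rw [hjj]
    exact ⟨Circ.one.neg, by rw [pow_mul, neg_one_sq, one_pow]⟩
  rintro Γ hF ⟨n, m, ⟨hn, h⟩ | ⟨hn, -, hm, hm0, h⟩ | ⟨-, h⟩ | ⟨-, hm, h⟩ | ⟨-, h⟩ | ⟨-, h⟩⟩
  · obtain ⟨a, ha, h1, h2⟩ := exists_root (r := 2 * n) (by omega)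
    exact mk_NP hF.fin h (Or.inl ⟨Circ.one, one_pow _⟩) (Or.inr (hj n)) (Or.inl ⟨ha, h1⟩) ha
      (c1_ne ha h2)
  · obtain ⟨a, ha, h1, h2⟩ := exists_root (r := 2 * n) (by omega)
    obtain ⟨b, hb⟩ := nonempty_of_ncard_ne_zero
      ((ncard_root (r := 2 * m) (by omega) Circ.one.neg).trans_ne (by omega))
    have hii : qi * qi = -1 := U.mul_self_eq_neg_one.mpr rfl
    refine mk_two hF.fin (fun a b hab => ((h a b).mp hab).1) (b := 1) (b' := b)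
      ((h _ _).mpr ⟨Circ.one, Or.inl ⟨ha, h1, one_pow _⟩⟩) ha (c1_ne ha h2)
      ((h _ _).mpr ⟨hb.1, Or.inr ⟨(hj n).1, (hj n).2, hb.2⟩⟩)
      (Or.inl ⟨qi, (h _ _).mpr ⟨circ_qi, Or.inl ⟨Circ.one, one_pow _, ?_⟩⟩, ?_⟩)
    · rw [pow_mul, sq, hii, hm.neg_one_pow]
    · rw [hii]
      exact U.neg_ne 1
  · exact mk_NP hF.fin h (Or.inl one_SQ) (Or.inl qj_SQ) (Or.inl qi_SQ) circ_qi hi
  · obtain ⟨c, hc, h1, h2⟩ := exists_root (r := 2 * m) (by omega)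
    have hL : ∀ a ∈ SQ, ∀ b, Circ b → b ^ (2 * m) = 1 → (a, b) ∈ Γ := fun a ha b hb hb' =>
      (h _ _).mpr ⟨hb, a, ha, 0, by norm_num, by simp, by simpa using hb'⟩
    exact mk_two hF.fin (fun a b hab => ((h a b).mp hab).1) (hL _ qi_SQ 1 Circ.one (one_pow _))
      circ_qi hi (hL _ qj_SQ 1 Circ.one (one_pow _)) (Or.inl ⟨c, hL _ one_SQ c hc h1, h2⟩)
  · exact mk_NP hF.fin h (Or.inl (Or.inl one_SQ)) (Or.inl (Or.inl qj_SQ))
      (Or.inl (Or.inl qi_SQ)) circ_qi hi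
  · exact mk_NP hF.fin h (Or.inl (Or.inl one_SQ)) (Or.inl (Or.inl qj_SQ))
      (Or.inl (Or.inl qi_SQ)) circ_qi hi

end

end Pool.Agent.P.MP_e311cd_gt
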