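import Pool.Agent.P.MP_e311cd_gt.I.St
import Pool.Agent.P.MP_e311cd_gt.Final

/-! The isometries of a three dimensional group, and lifts of deck groups. -/

namespace Pool.Agent.P.MP_e311cd_gt

open Set NormedSpace
open scoped RealInnerProductSpace Matrix.Norms.Frobenius

namespace IsoKI

section

variable {A : Type} [HS A] {k : Submodule ℝ A} {ρ : H →ₗ[ℝ] A} {c : ℝ} {θ : A →ₗ[ℝ] A}

theorem inner_iso (h : Iso k θ) {X Y : A} (hX : X ∈ k) (hY : Y ∈ k) : ⟪θ X, θ Y⟫ = ⟪X, Y⟫ := by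
  rw [real_inner_eq_norm_add_mul_self_sub_norm_mul_self_sub_norm_mul_self_div_two,
    real_inner_eq_norm_add_mul_self_sub_norm_mul_self_sub_norm_mul_self_div_two, ← map_add,
    h.norm hX, h.norm hY, h.norm (k.add_mem hX hY)]

theorem decomp (v : H) : v = c0 v • 1 + c1 v • qi.1 + c2 v • qj.1 + c3 v • qk.1 := by
  apply H.ext <;> simp

theorem exists_pure (hρ : Rho k ρ c) (h : Iso k θ) {u : U} (hu : c0 u = 0) :
    ∃ w : U, c0 w = 0 ∧ θ (ρ u) = ρ w := by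
  obtain ⟨v, hv⟩ := hρ.onto _ (h.mem (hρ.mem u))
  have h1 := inner_iso h (hρ.mem u) (hρ.mem u)
  rw [← hv, hρ.inner, hρ.inner] at h1
  have h2 := mul_left_cancel₀ (pow_pos hρ.pos 2).ne' h1
  have h3 := u.sq
  rw [hu] at h3
  refine ⟨mkU 0 (c1 v) (c2 v) (c3 v) (by linarith), rfl, ?_⟩
  have e : v = c0 v • 1 + mkH 0 (c1 v) (c2 v) (c3 v) := by apply H.ext <;> simp
  rw [← hv, coe_mkU]
  conv_lhs => rw [e, map_add, map_smul, hρ.one, smul_zero, zero_add]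

end

variable {n : ℕ} {K : Subgroup (Matrix.unitaryGroup (Fin n) ℂ)} {k : Submodule ℝ (Mat n)}

/-- automorphisms are inner -/
theorem aut_inner {π : U →* K} {ρ : H →ₗ[ℝ] Mat n} {c : ℝ} (hc : Cov k π ρ c)
    {θ : Mat n →ₗ[ℝ] Mat n} (h : Aut k θ) : ∃ q : U, ∀ ξ ∈ k, θ ξ = Ad (mat (π q)) ξ := by
  obtain ⟨u, hu, eu⟩ := exists_pure hc.toRho h.toIso (u := qi) rfl
  obtain ⟨v, hv, ev⟩ := exists_pure hc.toRho h.toIso (u := qj) rfl
  have h1 := inner_iso h.toIso (hc.mem qi) (hc.mem qj)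
  rw [eu, ev, hc.inner, hc.inner] at h1
  have h2 := mul_left_cancel₀ (pow_pos hc.pos 2).ne' h1
  obtain ⟨d, d1, d2⟩ := frame hu hv (by
    simp only [coe_qi, coe_qj, c1_mk, c2_mk, c3_mk] at h2
    rw [U.coe_mul, c0_mul, hu]
    linarith)
  have key : ∀ a b : U, d * a * d⁻¹ = b → Ad (mat (π d⁻¹)) (ρ b) = ρ a := fun a b e => by
    have : d⁻¹ * b * d⁻¹⁻¹ = a := by rw [← e]; group
    rw [hc.map_Ad, ← this]
    rfl
  have a1 : θ (ρ qi) = Ad (mat (π d⁻¹)) (ρ qi) := by rw [key u qi d1, eu]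
  have a2 : θ (ρ qj) = Ad (mat (π d⁻¹)) (ρ qj) := by rw [key v qj d2, ev]
  have a3 : θ (ρ qk) = Ad (mat (π d⁻¹)) (ρ qk) := by
    have e : qk.1 = (1 / 2 : ℝ) • (qi.1 * qj.1 - qj.1 * qi.1) := by
      apply H.ext <;> simp
      norm_num
    rw [e, map_smul, map_smul, Ad_smul, hc.map_br, h.map_br (hc.mem _) (hc.mem _),
      (mat_uni _).Ad_br, a1, a2]
  refine ⟨d⁻¹, fun ξ hξ => ?_⟩
  obtain ⟨w, rfl⟩ := hc.onto ξ hξ
  rw [decomp w]
  simp only [map_add, map_smul, hc.one, Ad_add, Ad_smul, a1, a2, a3, map_zero, Ad_zero]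

/-- the extension of a map to all matrices -/
noncomputable def ex (f : K → K) : Mat n → Mat n := Function.extend mat (mat ∘ f) id

theorem ex_mat (f : K → K) (x : K) : ex f (mat x) = mat (f x) := mat_inj.extend_apply _ _ x

theorem ex_mem (f : K → K) : ∀ x ∈ KK K, ex f x ∈ KK K := by
  rintro _ ⟨x, rfl⟩
  rw [ex_mat]
  exact mat_mem _

theorem ex_cd {f : K → K} (hf : ∀ x y, gdist (f x) (f y) = gdist x y) :
    ∀ x ∈ KK K, ∀ y ∈ KK K, cd (KK K) (ex f x) (ex f y) = cd (KK K) x y := by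
  rintro _ ⟨x, rfl⟩ _ ⟨y, rfl⟩
  rw [ex_mat, ex_mat, ← gdist_eq, ← gdist_eq, hf]

theorem fin (hI : S_Idn) (h : IsSimpleGroup K k) {f : K → K}
    (hf : ∀ x y, gdist (f x) (f y) = gdist x y) (z m : K) {ε : ℝ} (hε : 0 < ε)
    (hl : ∀ ξ ∈ k, ‖ξ‖ < ε → ∀ x, mat x = exp ξ → mat (f x) = mat z * exp (Ad (mat m) ξ)) (x : K) :
    f x = z * m * x * m⁻¹ := by
  have := hI _ (KK K) k h.cg h.sa (ex fun x => (z * m)⁻¹ * f x * m) (ex_mem _)
    (ex_cd fun x y => by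
      rw [← hf x y, gdist_eq, gdist_eq, mat_mul, mat_mul, mat_mul, mat_mul]
      exact (hDist _ (KK K) k h.cg).1 _ (mat_mem _) _ (mat_mem _) _ _)
    ⟨ε, hε, fun ξ hξ hn => by
      obtain ⟨y, hy⟩ := h.cg.exp_mem hξ
      have h2 : exp (Ad (mat m) ξ) = Ad (mat m) (mat y) := by
        rw [hy]
        exact ((mat_uni m).Ad_exp ξ).symm
      have h1 : f y = z * (m * y * m⁻¹) := mat_inj (by
        rw [hl ξ hξ hn y hy, h2]
        rfl)
      rw [← hy, ex_mat, h1]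
      congr 1
      group⟩ _ (mat_mem x)
  rw [ex_mat] at this
  calc f x = z * m * ((z * m)⁻¹ * f x * m) * m⁻¹ := by group
    _ = z * m * x * m⁻¹ := by rw [mat_inj this]

theorem ker_Phi {G : Type} [Group G] {π : U →* G} (hk : ∀ a, π a = 1 → a = 1 ∨ a = -1) {a b : U}
    (h : Phi π (a, b) = 1) : (a = 1 ∨ a = -1) ∧ (b = 1 ∨ b = -1) := by
  have h0 : ∀ x, π a * x * (π b)⁻¹ = x := fun x => by
    rw [← Phi_apply π (a, b), h]
    rfl
  have h1 : π a = π b := by simpa [mul_inv_eq_one] using h0 1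
  have h2 : ∀ y : U, c0 y ≠ 0 → a * y = y * a := fun y hy => by
    have h3 := hk (a * y * a⁻¹ * y⁻¹) (by
      rw [map_mul, map_mul, map_mul, map_inv, map_inv, mul_inv_eq_one]
      nth_rewrite 2 [h1]
      exact h0 _)
    rw [mul_inv_eq_iff_eq_mul, mul_inv_eq_iff_eq_mul (c := -1), one_mul] at h3
    rcases h3 with h3 | h3
    · exact mul_inv_eq_iff_eq_mul.mp h3
    · have h4 := U.c0_conj a y
      rw [h3] at h4
      simp only [neg_mul, one_mul, U.coe_neg, c0_neg] at h4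
      exact absurd (by linarith) hy
  have ha : a = 1 ∨ a = -1 := by
    have e1 := U.eq_iff.mp (h2 (mkU (3 / 5) (4 / 5) 0 0 (by norm_num)) (by simp))
    have e2 := U.eq_iff.mp (h2 (mkU (3 / 5) 0 (4 / 5) 0 (by norm_num)) (by simp))
    simp only [U.coe_mul, coe_mkU, c0_mul, c1_mul, c2_mul, c3_mul, c0_mk, c1_mk, c2_mk,
      c3_mk] at e1 e2
    have s := a.sq
    have z1 : c1 a = 0 := by linarith [e2.2.2.2]
    have z2 : c2 a = 0 := by linarith [e1.2.2.2]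
    have z3 : c3 a = 0 := by linarith [e1.2.2.1]
    rw [z1, z2, z3] at s
    exact U.re_sq_eq_one.mp (by linarith)
  refine ⟨ha, ?_⟩
  have hb := hk (a⁻¹ * b) (by rw [map_mul, map_inv, h1, inv_mul_cancel])
  rw [inv_mul_eq_iff_eq_mul, inv_mul_eq_iff_eq_mul] at hb
  rcases ha with rfl | rfl <;> rcases hb with rfl | rfl <;> simp

end IsoKI

open IsoKI

theorem isoK (hL : S_Loc) (hI : S_Idn) : S_IsoK := by
  intro n K k h π ρ c hc g hg
  obtain ⟨hs, hl⟩ := hL _ (KK K) k h.cg h.sa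
  obtain ⟨θ, hθ, ε, hε, hl⟩ := hl (ex g) (ex_mem _) (ex_cd hg)
  obtain ⟨q, hq⟩ := aut_inner hc hθ
  obtain ⟨a, ha⟩ := hc.surj (g 1)
  have e1 : ex g 1 = mat (g 1) := ex_mat g 1
  refine ⟨(a * q, q), hl.imp (fun hl x => ?_) fun hl x => ?_⟩
  · rw [Phi_apply, map_mul, ha]
    exact fin hI h hg (g 1) (π q) hε (fun ξ hξ hn y hy => by
      rw [← hq ξ hξ, ← ex_mat g, hy, ← e1]
      exact hl ξ hξ hn) x
  · rw [Phi_apply, map_mul, ha]
    have := fin hI h (f := fun x => g x⁻¹) (fun x y => by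
      rw [hg, gdist_eq, gdist_eq]
      exact hs _ _) (g 1) (π q) hε (fun ξ hξ hn y hy => by
      have e2 : mat y⁻¹ = exp (-ξ) := by
        rw [mat_inv, hy]
        exact (h.cg.skew hξ).star_exp
      rw [← hq ξ hξ, ← ex_mat g, e2, ← e1]
      exact hl ξ hξ hn) x⁻¹
    simpa using this

theorem lift3 : S_Lift := by
  intro G _ π hs hk Γ hf hfree hΓ
  refine ⟨⟨?_, ?_, fun a b hab e => ?_⟩, fun g hg => ?_⟩
  · refine (Set.toFinite (Γ : Set (Equiv.Perm G))).preimage' (f := Phi π) fun g _ => ?_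
    rcases eq_empty_or_nonempty (Phi π ⁻¹' {g}) with h | ⟨p, hp⟩
    · rw [h]
      exact finite_empty
    refine (((toFinite ({1, -1} : Set U)).prod (toFinite ({1, -1} : Set U))).image
      (p * ·)).subset fun r hr => ⟨p⁻¹ * r, ?_, mul_inv_cancel_left p r⟩
    exact ker_Phi hk (a := (p⁻¹ * r).1) (b := (p⁻¹ * r).2) (by
      change Phi π (p⁻¹ * r) = 1
      rw [map_mul, map_inv, show Phi π r = g from hr, show Phi π p = g from hp, inv_mul_cancel])
  · have : Phi π (-1, -1) = 1 := Equiv.ext fun x => by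
      obtain ⟨y, rfl⟩ := hs x
      rw [Phi_apply, ← map_inv, ← map_mul, ← map_mul]
      simp
    rw [Subgroup.mem_comap, this]
    exact Γ.one_mem
  · obtain ⟨d, hd⟩ := conj_of_re e
    have h1 := hfree _ hab (π d⁻¹) (by
      rw [Phi_apply, ← map_inv, ← map_mul, ← map_mul, ← hd]
      congr 1
      group)
    have ha := (ker_Phi hk h1).1
    refine ⟨?_, ha⟩
    rcases ha with rfl | rfl <;> simp [← hd]
  · obtain ⟨⟨a, b⟩, h | h⟩ := hΓ g hg
    · exact ⟨_, Equiv.ext h⟩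
    · obtain ⟨w, hw, -⟩ := exists_sqrt (a⁻¹ * b⁻¹)
      refine ⟨1, (hfree g hg (π (a * w)) ?_).trans (map_one _).symm⟩
      rw [h, Phi_apply, ← map_inv, ← map_inv, ← map_mul, ← map_mul]
      congr 1
      calc a * (a * w)⁻¹ * b⁻¹ = a * w⁻¹ * (a⁻¹ * b⁻¹) := by group
        _ = a * w := by rw [← hw]; group

end Pool.Agent.P.MP_e311cd_gt
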