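import Pool.Agent.P.MP_e311cd_gt.I.St

/-! Characters of finite subgroups of the torus. -/

namespace Pool.Agent.P.MP_e311cd_gt

open Finset

noncomputable section

namespace LensI

/-- the sum of the weights -/
def S (z : ℂ) (k : ℕ) : ℂ := ∑ r ∈ range (k + 1), z ^ ((k : ℤ) - 2 * r)

theorem S_succ {z : ℂ} (hz : z ≠ 0) (k : ℕ) : S z (k + 1) = z * S z k + z⁻¹ ^ (k + 1) := by
  unfold S
  rw [sum_range_succ, mul_sum]
  congr 1
  · refine sum_congr rfl fun r _ => ?_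
    rw [← zpow_one_add₀ hz]
    congr 1
    push_cast
    ring
  · rw [inv_pow, ← zpow_natCast, ← zpow_neg]
    congr 1
    push_cast
    ring

theorem S_rec {z : ℂ} (hz : z ≠ 0) (k : ℕ) : S z (k + 2) = (z + z⁻¹) * S z (k + 1) - S z k := by
  have h : z⁻¹ * S z (k + 1) = S z k + z⁻¹ ^ (k + 2) := by
    rw [S_succ hz, mul_add, ← mul_assoc, inv_mul_cancel₀ hz, one_mul, ← pow_succ']
  rw [S_succ hz (k + 1), add_mul, h]
  ring

theorem add_inv {a : U} (h : Circ a) : toC a + (toC a)⁻¹ = ((2 * c0 a : ℝ) : ℂ) := by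
  rw [← h.toC_inv]
  apply Complex.ext <;> simp [toC]
  ring

theorem chi_eq {a : U} (h : Circ a) : ∀ k : ℕ, ((chi (c0 a) k : ℝ) : ℂ) = S (toC a) k
  | 0 => by simp [chi, S]
  | 1 => by
    rw [S_succ h.toC_ne, chi, ← add_inv h]
    simp [S]
  | k + 2 => by
    rw [S_rec h.toC_ne, chi, add_inv h, ← chi_eq h (k + 1), ← chi_eq h k]
    push_cast
    ring

variable {Γ : Subgroup (U × U)}

/-- the character of weight `v` -/
def ch (hA : Ab Γ) (v : ℤ × ℤ) : Γ →* ℂ where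
  toFun p := toC p.1.1 ^ v.1 * toC p.1.2 ^ v.2
  map_one' := by simp
  map_mul' p q := by
    obtain ⟨h1, h2⟩ := hA p.1.1 p.1.2 p.2
    have e1 : (p * q).1.1 = p.1.1 * q.1.1 := rfl
    have e2 : (p * q).1.2 = p.1.2 * q.1.2 := rfl
    rw [e1, e2, h1.toC_mul, h2.toC_mul, mul_zpow, mul_zpow]
    ring

theorem ch_apply (hA : Ab Γ) (v : ℤ × ℤ) (p : Γ) :
    ch hA v p = toC p.1.1 ^ v.1 * toC p.1.2 ^ v.2 := rfl

theorem ch_eq_one (hA : Ab Γ) (v : ℤ × ℤ) : ch hA v = 1 ↔ v ∈ Lam Γ :=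
  ⟨fun h a b hab => DFunLike.congr_fun h ⟨(a, b), hab⟩,
    fun h => MonoidHom.ext fun p => h p.1.1 p.1.2 p.2⟩

theorem ch_add (hA : Ab Γ) (v w : ℤ × ℤ) (p : Γ) : ch hA (v + w) p = ch hA v p * ch hA w p := by
  obtain ⟨h1, h2⟩ := hA p.1.1 p.1.2 p.2
  rw [ch_apply, ch_apply, ch_apply, Prod.fst_add, Prod.snd_add, zpow_add₀ h1.toC_ne,
    zpow_add₀ h2.toC_ne]
  ring

open Classical in
theorem sum_hom {G : Type*} [Group G] [Fintype G] (f : G →* ℂ) :
    ∑ g, f g = if f = 1 then (Nat.card G : ℂ) else 0 := by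
  split_ifs with h
  · simp [h]
  · exact sum_hom_units_eq_zero f h

/-- a perfect pairing of finite groups -/
theorem card_eq {A B : Type*} [Group A] [Group B] [Finite A] [Finite B] (f : A → B →* ℂ)
    (g : B → A →* ℂ) (h : ∀ a b, f a b = g b a) (hf : ∀ a, f a = 1 ↔ a = 1)
    (hg : ∀ b, g b = 1 ↔ b = 1) : Nat.card A = Nat.card B := by
  classical
  have := Fintype.ofFinite A
  have := Fintype.ofFinite B
  have h1 : ∑ a, ∑ b, f a b = (Nat.card B : ℂ) := by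
    simp only [sum_hom, hf]
    simp
  have h2 : ∑ b, ∑ a, g b a = (Nat.card A : ℂ) := by
    simp only [sum_hom, hg]
    simp
  rw [sum_comm] at h1
  simp only [h] at h1
  exact_mod_cast h2.symm.trans h1

/-- the weights as characters -/
def Phi (hA : Ab Γ) : Multiplicative (ℤ × ℤ) →* (Γ →* ℂˣ) :=
  MonoidHom.mk' (fun v => (ch hA v.toAdd).toHomUnits) fun v w => by
    ext p
    simp [ch_add]

theorem Phi_apply (hA : Ab Γ) (v : ℤ × ℤ) (p : Γ) :
    (Phi hA (Multiplicative.ofAdd v) p : ℂ) = ch hA v p := rfl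

theorem index (hF : Finite Γ) (hA : Ab Γ) :
    ∃ Λ : AddSubgroup (ℤ × ℤ), (Λ : Set (ℤ × ℤ)) = Lam Γ ∧ Λ.index = Nat.card Γ := by
  refine ⟨Subgroup.toAddSubgroup' (Phi hA).ker, ?_, ?_⟩
  · ext v
    rw [← ch_eq_one hA]
    change Phi hA (Multiplicative.ofAdd v) = 1 ↔ _
    constructor
    · intro h
      ext p
      rw [← Phi_apply, h]
      rfl
    · intro h
      ext p
      rw [Phi_apply, h]
      rfl
  · have e : (Subgroup.toAddSubgroup' (Phi hA).ker).index = (Phi hA).ker.index := rfl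
    rw [e, Subgroup.index_ker]
    refine card_eq (fun χ => (Units.coeHom ℂ).comp χ.1)
      (fun p => ⟨⟨fun χ => (χ.1 p : ℂ), rfl⟩, fun χ χ' => rfl⟩) (fun _ _ => rfl)
      (fun χ => ⟨fun h => ?_, fun h => ?_⟩) fun p => ⟨fun h => ?_, fun h => ?_⟩
    · ext p
      exact DFunLike.congr_fun h p
    · rw [h]
      rfl
    · obtain ⟨h1, h2⟩ := hA p.1.1 p.1.2 p.2
      have e1 : ch hA (1, 0) p = 1 :=
        DFunLike.congr_fun h ⟨_, Multiplicative.ofAdd ((1 : ℤ), (0 : ℤ)), rfl⟩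
      have e2 : ch hA (0, 1) p = 1 :=
        DFunLike.congr_fun h ⟨_, Multiplicative.ofAdd ((0 : ℤ), (1 : ℤ)), rfl⟩
      rw [ch_apply] at e1 e2
      simp only [zpow_one, zpow_zero, mul_one, one_mul] at e1 e2
      exact Subtype.ext (Prod.ext (h1.toC_inj Circ.one e1) (h2.toC_inj Circ.one e2))
    · ext χ
      simp [h]

theorem card_of_lam {Γ Γ' : Subgroup (U × U)} (hF : Finite Γ) (hA : Ab Γ) (hF' : Finite Γ')
    (hA' : Ab Γ') (h : Lam Γ = Lam Γ') : Nat.card Γ = Nat.card Γ' := by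
  obtain ⟨Λ, h1, h2⟩ := index hF hA
  obtain ⟨Λ', h1', h2'⟩ := index hF' hA'
  rw [← h2, ← h2', SetLike.coe_injective (h1.trans (h.trans h1'.symm))]

/-- the product of two commuting groups -/
def mulG {Γ Γ' : Subgroup (U × U)} (hA : Ab Γ) (hA' : Ab Γ') : Γ × Γ' →* U × U :=
  Γ.subtype.noncommCoprod Γ'.subtype fun p q =>
    Prod.ext ((hA _ _ p.2).1.comm (hA' _ _ q.2).1).eq ((hA _ _ p.2).2.comm (hA' _ _ q.2).2).eq

theorem le_of_lam {Γ Γ' : Subgroup (U × U)} (hF : Finite Γ) (hA : Ab Γ) (hF' : Finite Γ')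
    (hA' : Ab Γ') (h : Lam Γ = Lam Γ') : Γ' ≤ Γ := by
  have hm : ∀ a b, (a, b) ∈ (mulG hA hA').range →
      ∃ p ∈ Γ, ∃ q ∈ Γ', a = p.1 * q.1 ∧ b = p.2 * q.2 := by
    rintro a b ⟨⟨p, q⟩, e⟩
    exact ⟨p.1, p.2, q.1, q.2, (congrArg Prod.fst e).symm, (congrArg Prod.snd e).symm⟩
  have l1 : Γ ≤ (mulG hA hA').range := fun p hp => ⟨(⟨p, hp⟩, 1), mul_one p⟩
  have l2 : Γ' ≤ (mulG hA hA').range := fun p hp => ⟨(1, ⟨p, hp⟩), one_mul p⟩
  have fin : Finite (mulG hA hA').range :=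
    Finite.of_surjective _ (mulG hA hA').rangeRestrict_surjective
  have ab : Ab (mulG hA hA').range := fun a b hab => by
    obtain ⟨p, hp, q, hq, rfl, rfl⟩ := hm a b hab
    exact ⟨(hA _ _ hp).1.mul (hA' _ _ hq).1, (hA _ _ hp).2.mul (hA' _ _ hq).2⟩
  have lam : Lam Γ = Lam (mulG hA hA').range := by
    refine Set.Subset.antisymm (fun v hv a b hab => ?_) fun v hv a b hab => hv a b (l1 hab)
    obtain ⟨p, hp, q, hq, rfl, rfl⟩ := hm a b hab
    have e1 := hv _ _ hp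
    have e2 := (h ▸ hv : v ∈ Lam Γ') _ _ hq
    rw [(hA _ _ hp).1.toC_mul, (hA _ _ hp).2.toC_mul, mul_zpow, mul_zpow, mul_mul_mul_comm, e1, e2,
      mul_one]
  have e := Subgroup.eq_of_le_of_card_ge l1 (card_of_lam hF hA fin ab lam).ge
  exact e ▸ l2

end LensI

open LensI

theorem lens2 : S_Lens2 := fun _ hF hA => ⟨index hF hA, fun _ hF' hA' h =>
  le_antisymm (le_of_lam hF' hA' hF hA h.symm) (le_of_lam hF hA hF' hA' h)⟩

theorem lens1 : S_Lens1 := by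
  classical
  intro Γ hF hA k
  have := Fintype.ofFinite Γ
  let w : ℕ × ℕ → ℤ × ℤ := fun x => ((k : ℤ) - 2 * x.1, (k : ℤ) - 2 * x.2)
  let T := (range (k + 1) ×ˢ range (k + 1)).filter fun x => w x ∈ Lam Γ
  have hw : Function.Injective w := fun x y e => by
    have e1 := congrArg Prod.fst e
    have e2 := congrArg Prod.snd e
    simp only [w] at e1 e2
    exact Prod.ext (by omega) (by omega)
  have h1 : {v : ℤ × ℤ | v ∈ Lam Γ ∧ sup2 v ≤ k ∧ Even (v.1 - k) ∧ Even (v.2 - k)} = w '' T := by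
    ext v
    simp only [T, Set.mem_ofPred_eq, Set.mem_image, coe_filter, mem_product, mem_range, sup2,
      max_le_iff, abs_le]
    constructor
    · rintro ⟨h, ⟨⟨a1, a2⟩, b1, b2⟩, ⟨r, hr⟩, s, hs⟩
      have e : w ((-r).toNat, (-s).toNat) = v := Prod.ext (by simp only [w]; omega)
        (by simp only [w]; omega)
      exact ⟨_, ⟨⟨by simp only; omega, by simp only; omega⟩, e ▸ h⟩, e⟩
    · rintro ⟨x, ⟨⟨a, b⟩, h⟩, rfl⟩
      refine ⟨h, ?_, ⟨-x.1, ?_⟩, -x.2, ?_⟩ <;> simp only [w] <;> omega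
  have h2 : ((∑ p : Γ, chi (c0 p.1.1) k * chi (c0 p.1.2) k : ℝ) : ℂ) = T.card * Nat.card Γ := by
    push_cast
    have e : ∀ p : Γ, ((chi (c0 p.1.1) k : ℝ) : ℂ) * ((chi (c0 p.1.2) k : ℝ) : ℂ) =
        ∑ x ∈ range (k + 1) ×ˢ range (k + 1), ch hA (w x) p := fun p => by
      rw [chi_eq (hA _ _ p.2).1, chi_eq (hA _ _ p.2).2, S, S, sum_mul_sum, sum_product]
      rfl
    simp only [e]
    rw [sum_comm]
    simp only [sum_hom, ch_eq_one]
    rw [← sum_filter, sum_const, nsmul_eq_mul]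
  have h3 : (∑ p : Γ, chi (c0 p.1.1) k * chi (c0 p.1.2) k : ℝ) = T.card * Nat.card Γ := by
    exact_mod_cast h2
  have h4 : (Nat.card Γ : ℝ) ≠ 0 := Nat.cast_ne_zero.mpr Nat.card_pos.ne'
  rw [h1, Set.ncard_image_of_injective _ hw, Set.ncard_coe_finset, mk, finsum_eq_sum_of_fintype, h3,
    mul_div_cancel_right₀ _ h4]

end

end Pool.Agent.P.MP_e311cd_gt
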