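import Pool.Agent.P.MP_e311cd_gt.I.St
import Pool.Agent.P.MP_e311cd_gt.Final

/-! The local form of an isometry of `K`, and the identity theorem. -/

namespace Pool.Agent.P.MP_e311cd_gt

open Set NormedSpace Filter Topology
open scoped ENNReal RealInnerProductSpace

namespace LocI

variable {A : Type} [HS A] {K : Set A} {k : Submodule ℝ A}

/-- `star` as a continuous linear map -/
noncomputable def st (A : Type) [HS A] : A →L[ℝ] A :=
  LinearMap.toContinuousLinearMap
    { toFun := star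
      map_add' := star_add
      map_smul' := fun r x => by simp }

theorem st_apply (x : A) : st A x = star x := rfl

theorem cd_star_le (cg : CG K k) (x y : A) : cd K (star x) (star y) ≤ cd K x y := by
  refine le_iInf fun γ => le_iInf fun hγ => le_iInf fun h0 => le_iInf fun h1 =>
    le_iInf fun hK => ?_
  have hd : ∀ t, deriv (fun t => star (γ t)) t = star (deriv γ t) := fun t =>
    ((st A).hasFDerivAt.comp_hasDerivAt t
      ((hγ.differentiable one_ne_zero) t).hasDerivAt).deriv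
  refine iInf_le_of_le (fun t => star (γ t)) (iInf_le_of_le ((st A).contDiff.comp hγ)
    (iInf_le_of_le (by rw [← h0]) (iInf_le_of_le (by rw [← h1])
      (iInf_le_of_le (fun t ht => cg.star (hK t ht)) (le_of_eq ?_)))))
  simp only [hd, norm_star]

theorem exLR (cg : CG K k) {g : A → A} (hm : ∀ x ∈ K, g x ∈ K)
    (hd : ∀ x ∈ K, ∀ y ∈ K, cd K (g x) (g y) = cd K x y) :
    ∃ ε, LR K k (fun x z => x ∈ K ∧ z = g x) ε :=
  lr chart hDist A K k cg _ 1 one_pos (fun x _ h => ⟨h.1, h.2 ▸ hm x h.1⟩)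
    (fun x _ y hy h _ => ⟨g y, ⟨hy, rfl⟩, h.2 ▸ hd x h.1 y hy⟩)
    (fun _ _ _ h h' _ => h.2.trans h'.2.symm)

end LocI

open LocI

theorem loc3 : S_Loc := by
  intro A _ K k cg sa
  refine ⟨fun x y => le_antisymm (cd_star_le cg x y) ?_, fun g hm hd => ?_⟩
  · simpa using cd_star_le cg (star x) (star y)
  obtain ⟨ε, lr⟩ := exLR cg hm hd
  have hz₀ := hm 1 cg.one
  have lr0 : LR K k (fun x z => z ∈ K ∧ (x ∈ K ∧ g 1 * z = g x)) ε :=
    ⟨lr.pos, fun h => ⟨h.2.1, h.1⟩, fun h hξ hn => by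
      obtain ⟨η, hη, e, r⟩ := lr.ex h.2 hξ hn
      exact ⟨η, hη, e, cg.mul h.1 (cg.exp_mem hη), by rwa [← mul_assoc]⟩,
    fun h h' _ => (cg.uni hz₀).left_cancel (h.2.2.trans h'.2.2.symm)⟩
  obtain ⟨d, e1, pd, hd1⟩ := lin1 chart hHalf A K k cg _ ε lr0 ⟨cg.one, cg.one, mul_one _⟩
  obtain ⟨D, iso, tri, e2, he2, hD⟩ := lin2 chart jet A K k cg d e1 pd
  have loc : ∀ ξ ∈ k, ‖ξ‖ < min e1 e2 → g (exp ξ) = g 1 * exp (D ξ) := fun ξ hξ hn => by
    rw [← hD ξ hξ (hn.trans_le (min_le_right _ _))]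
    exact (hd1 ξ hξ (hn.trans_le (min_le_left _ _))).2.2.symm
  have hpos : 0 < min e1 e2 := lt_min pd.pos he2
  rcases aut A k sa D iso tri with hθ | hθ
  · exact ⟨D, hθ, _, hpos, Or.inl loc⟩
  · refine ⟨-D, hθ, _, hpos, Or.inr fun ξ hξ hn => ?_⟩
    rw [loc (-ξ) (k.neg_mem hξ) (by rwa [norm_neg]), map_neg, LinearMap.neg_apply]

theorem idn : S_Idn := by
  intro A _ K k cg sa g hm hd ⟨e0, he0, h0⟩ x hx
  obtain ⟨ε, lr⟩ := exLR cg hm hd
  have hG := hGlob A K k cg sa _ ε lr 1 LinearMap.id ⟨⟨fun h => h, fun _ => rfl⟩, fun _ _ => rfl⟩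
    ⟨e0, he0, fun ξ hξ hn => ⟨cg.exp_mem hξ, by rw [h0 ξ hξ hn, one_mul]; rfl⟩⟩
  have h1 : g 1 = 1 := by simpa using h0 0 k.zero_mem (by simpa using he0)
  have key : g 1 * star 1 = g x * star x := by
    refine cg.conn.induction₂' (fun a b => g a * star a = g b * star b) (fun a ha => ?_)
      (fun _ _ _ _ _ _ f f' => f.trans f') cg.one hx
    obtain ⟨z, -, e, he, hz⟩ := hG a ha
    have hza : z = g a := by simpa using (hz 0 k.zero_mem (by simpa using he)).2
    obtain ⟨δ, hδ, hch⟩ := chart A K k cg e he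
    have hb : ∀ᶠ b in 𝓝[K] a, ‖b - a‖ < δ :=
      mem_nhdsWithin_of_mem_nhds (by
        filter_upwards [Metric.ball_mem_nhds a hδ] with b hb
        rwa [mem_ball_iff_norm] at hb)
    filter_upwards [hb, self_mem_nhdsWithin] with b hb hbK
    have ua := cg.uni ha
    obtain ⟨η, hη, nη, eη⟩ := hch (star a * b) (cg.mul (cg.star ha) hbK) (by
      rw [← ua.1, ua.star.norm_sub_left]; exact hb)
    have eb : a * exp η = b := by rw [eη, ← mul_assoc, ua.2, one_mul]
    have h2 : z * exp η = g (a * exp η) := (hz η hη nη).2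
    have h3 : g a * star a = g b * star b := by
      rw [← eb, ← h2, star_mul, (cg.skew hη).star_exp, mul_assoc, ← mul_assoc (exp η),
        exp_mul_neg, one_mul, hza]
    exact ⟨h3, h3.symm⟩
  rw [h1, star_one, mul_one] at key
  exact (cg.uni hx).star.right_cancel (key.symm.trans (cg.uni hx).2.symm)

end Pool.Agent.P.MP_e311cd_gt
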