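import Pool.Agent.P.MP_e311cd_gt.I.St

/-! Monomials of a given degree are linearly independent on the sphere. -/

namespace Pool.Agent.P.MP_e311cd_gt

open MvPolynomial

noncomputable section

namespace MonI

/-- evaluation of polynomials in the complex coordinates -/
def ev : MvPolynomial (Fin 4) ℂ →ₐ[ℂ] (U → ℂ) := aeval fun (a : Fin 4) (x : U) => zH a x

/-- the monomial functions -/
def mo (d : Fin 4 →₀ ℕ) : U → ℂ := fun x => ∏ a, zH a x ^ d a

theorem ev_monomial (d : Fin 4 →₀ ℕ) : ev (monomial d 1) = mo d := by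
  funext x
  rw [ev, aeval_monomial, map_one, one_mul, Finsupp.prod_fintype _ _ fun _ => pow_zero _]
  simp [mo]

theorem pow_eq (k : ℕ) :
    PP ^ k = Submodule.span ℂ (Set.range fun d : {d : Fin 4 →₀ ℕ // d.degree = k} => mo d.1) := by
  have h1 : (homogeneousSubmodule (Fin 4) ℂ 1).map ev.toLinearMap = PP := by
    rw [homogeneousSubmodule_one_eq_span_X, Submodule.map_span, PP_eq, ← Set.range_comp]
    congr 2
    funext a
    simp [ev]
  have h2 : homogeneousSubmodule (Fin 4) ℂ k =
      Submodule.span ℂ ((monomial · 1) '' {d | d.degree = k}) := by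
    rw [homogeneousSubmodule_eq_finsupp_supported]
    exact restrictSupport_eq_span ℂ _
  rw [← h1, ← Submodule.map_pow, homogeneousSubmodule_one_pow, h2, Submodule.map_span,
    Set.image_image]
  congr 1
  ext f
  constructor
  · rintro ⟨d, hd, rfl⟩
    exact ⟨⟨d, hd⟩, (ev_monomial d).symm⟩
  · rintro ⟨d, rfl⟩
    exact ⟨d.1, d.2, ev_monomial d.1⟩

theorem zH_smul (a : Fin 4) (r : ℝ) (q : H) : zH a (r • q) = r * zH a q := by
  fin_cases a <;> apply Complex.ext <;> simp [zH]

/-- the linear substitution -/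
def sub : Fin 4 → MvPolynomial (Fin 4) ℂ :=
  ![X 0 + C Complex.I * X 1, X 0 - C Complex.I * X 1, X 2 + C Complex.I * X 3,
    X 2 - C Complex.I * X 3]

theorem eq_zero {P : MvPolynomial (Fin 4) ℂ}
    (h : ∀ q : H, q ≠ 0 → eval (fun a => zH a q) P = 0) : P = 0 := by
  have h1 : bind₁ sub P = 0 := by
    refine funext_set (fun _ => (fun r : ℝ => (r : ℂ)) '' Set.Ioi 0)
      (fun _ => (Set.Ioi_infinite 0).image Complex.ofReal_injective.injOn) fun x hx => ?_
    choose r hr hx using fun i => hx i (Set.mem_univ i)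
    have hq : mkH (r 0) (r 1) (r 2) (r 3) ≠ 0 := fun e =>
      (ne_of_gt (hr 0)) (by simpa using congrArg c0 e)
    rw [map_zero, ← h _ hq, ← coe_aeval_eq_eval, ← coe_aeval_eq_eval]
    simp only [RingHom.coe_coe, aeval_bind₁]
    congr 2
    funext a
    fin_cases a <;> apply Complex.ext <;> simp [sub, zH, ← hx]
  refine MvPolynomial.funext fun z => ?_
  have h2 := congrArg (aeval ![(z 0 + z 1) / 2, -Complex.I * (z 0 - z 1) / 2, (z 2 + z 3) / 2,
    -Complex.I * (z 2 - z 3) / 2]) h1
  rw [aeval_bind₁, map_zero] at h2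
  rw [map_zero, ← h2, ← coe_aeval_eq_eval]
  simp only [RingHom.coe_coe]
  congr 2
  funext a
  have hI : Complex.I * Complex.I = -1 := Complex.I_mul_I
  fin_cases a
  · simp [sub]
    linear_combination ((z 0 - z 1) / 2) * hI
  · simp [sub]
    linear_combination (-(z 0 - z 1) / 2) * hI
  · simp [sub]
    linear_combination ((z 2 - z 3) / 2) * hI
  · simp [sub]
    linear_combination (-(z 2 - z 3) / 2) * hI

theorem indep (k : ℕ) :
    LinearIndependent ℂ fun d : {d : Fin 4 →₀ ℕ // d.degree = k} => mo d.1 := by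
  classical
  rw [linearIndependent_iff']
  intro s g hs d hd
  have hP : (∑ e ∈ s, monomial e.1 (g e) : MvPolynomial (Fin 4) ℂ) = 0 := by
    refine eq_zero fun q hq => ?_
    obtain ⟨c, r, hr, hc⟩ := exists_unit hq
    have h1 := congrFun hs c
    have hr' : ((r : ℂ)) ^ k ≠ 0 := pow_ne_zero _ (by exact_mod_cast hr.ne')
    refine mul_left_cancel₀ hr' ?_
    rw [mul_zero, map_sum, Finset.mul_sum]
    rw [Finset.sum_apply] at h1
    refine Eq.trans (Finset.sum_congr rfl fun e _ => ?_) h1
    rw [eval_monomial, Finsupp.prod_fintype _ _ fun _ => pow_zero _]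
    simp only [Pi.smul_apply, smul_eq_mul, mo, hc, zH_smul, mul_pow, Finset.prod_mul_distrib,
      Finset.prod_pow_eq_pow_sum]
    rw [← Finsupp.degree_eq_sum, e.2]
    ring
  have h2 := congrArg (coeff d.1) hP
  rw [coeff_sum, Finset.sum_eq_single d, coeff_monomial, if_pos rfl, coeff_zero] at h2
  · exact h2
  · intro e _ hne
    rw [coeff_monomial, if_neg fun z => hne (Subtype.ext z)]
  · exact fun z => absurd hd z

end MonI

open MonI in
theorem mon : S_Mon := by
  intro k
  refine ⟨(Module.Basis.span (indep k)).map (LinearEquiv.ofEq _ _ (pow_eq k).symm), fun d x => ?_⟩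
  rw [Module.Basis.map_apply, LinearEquiv.coe_ofEq_apply, Module.Basis.span_apply]
  rfl

end

end Pool.Agent.P.MP_e311cd_gt
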