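import Pool.Agent.P.MP_e311cd_gt.I.St

/-! Normal forms of the groups acting freely on the three-sphere. -/

namespace Pool.Agent.P.MP_e311cd_gt

open Set

noncomputable section

namespace NFI

theorem qk_eq : qi * qj = qk := by apply U.ext <;> simp

theorem qi_SQ : qi ∈ SQ := Or.inr (Or.inl (by simp))
theorem qj_SQ : qj ∈ SQ := Or.inr (Or.inr (Or.inl (by simp)))
theorem qk_SQ : qk ∈ SQ := Or.inr (Or.inr (Or.inr (by simp)))
theorem qw_ST : qw ∈ ST := Or.inr (by refine ⟨?_, ?_, ?_, ?_⟩ <;> simp <;> norm_num)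

theorem qw_cube : qw ^ 3 = -1 := by
  rw [pow_succ, pow_two]
  apply U.ext <;> simp <;> norm_num

theorem sq_cases {q : U} (h : q ∈ SQ) : q = 1 ∨ q = -1 ∨ c0 q = 0 := by
  have hs := q.sq
  rcases h with h | h | h | h
  · rcases U.re_sq_eq_one.mp h with h | h
    · exact Or.inl h
    · exact Or.inr (Or.inl h)
  · right; right
    nlinarith [sq_nonneg (c0 q.1), sq_nonneg (c2 q.1), sq_nonneg (c3 q.1)]
  · right; right
    nlinarith [sq_nonneg (c0 q.1), sq_nonneg (c1 q.1), sq_nonneg (c3 q.1)]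
  · right; right
    nlinarith [sq_nonneg (c0 q.1), sq_nonneg (c1 q.1), sq_nonneg (c2 q.1)]

theorem cube_root {z : U} (hz : Circ z) (h : z ^ 3 = 1) :
    z = 1 ∨ (c0 z = -1 / 2 ∧ (z = qz ∨ z = qz⁻¹)) := by
  have h1 := congrArg (fun x : U => c0 x.1) h
  simp only [U.coe_pow, U.coe_one, c0_one] at h1
  rw [U.pow_add_two z 1] at h1
  simp only [chi, c0_sub, c0_smul, c0_one] at h1
  have h2 : (c0 z - 1) * (2 * c0 z + 1) ^ 2 = 0 := by linear_combination h1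
  rcases mul_eq_zero.mp h2 with h3 | h3
  · exact Or.inl (U.re_eq_one.mp (by linarith))
  · have h4 : c0 z = -1 / 2 := by
      have := pow_eq_zero_iff two_ne_zero |>.mp h3
      linarith
    refine Or.inr ⟨h4, ?_⟩
    have hs := z.sq
    have h3' := Real.sq_sqrt (show (0 : ℝ) ≤ 3 by norm_num)
    rw [hz.1, hz.2, h4] at hs
    rcases sq_eq_sq_iff_eq_or_eq_neg.mp (show c1 z ^ 2 = (√3 / 2) ^ 2 by linarith) with h5 | h5
    · left; apply U.ext <;> simp [h4, h5, hz.1, hz.2]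
    · right; apply U.ext <;> simp [h4, h5, hz.1, hz.2]

variable {Γ : Subgroup (U × U)} {m : ℕ} {ψ : U → U}

theorem psi_one (h : Psi Γ m ψ) : ψ 1 = 1 := by
  have := h.mul 1 (one_mem _) 1 (one_mem _)
  rw [mul_one] at this
  exact left_eq_mul.mp this

theorem psi_pow (h : Psi Γ m ψ) {a : U} (ha : a ∈ PL Γ) (e : ℕ) : ψ (a ^ e) = ψ a ^ e := by
  induction e with
  | zero => rw [pow_zero, pow_zero, psi_one h]
  | succ e ih => rw [pow_succ, pow_succ, h.mul _ (pow_mem ha e) _ ha, ih]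

theorem circ_conj_qj {b : U} : Circ (qj⁻¹ * b * qj) ↔ Circ b := by
  simp [Circ]

theorem conj_qj' {b : U} (h : Circ b) : qj⁻¹ * b * qj = b⁻¹ := by
  apply U.ext <;> simp [h.1, h.2]

/-- transport along a conjugation -/
theorem set_eq {A A' : Subgroup U} {c : U} (h : ∀ a, a ∈ A ↔ c * a * c⁻¹ ∈ A') {S : Set U}
    (hS : ∀ a, a ∈ A ↔ c * a * c⁻¹ ∈ S) : (A' : Set U) = S := by
  ext x
  have h1 := h (c⁻¹ * x * c)
  have h2 := hS (c⁻¹ * x * c)
  have e : c * (c⁻¹ * x * c) * c⁻¹ = x := by group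
  rw [e] at h1 h2
  exact h1.symm.trans h2

theorem card_eq {A A' : Subgroup U} {c : U} (h : ∀ a, a ∈ A ↔ c * a * c⁻¹ ∈ A') :
    (A' : Set U).ncard = Nat.card A :=
  (Nat.card_congr ((MulAut.conj c).toEquiv.subtypeEquiv (p := (· ∈ A)) (q := (· ∈ A')) h)).symm

theorem rev_conj {A A' : Subgroup U} {c : U} (h : ∀ a, a ∈ A ↔ c * a * c⁻¹ ∈ A') (hR : Rev A) :
    Rev A' := by
  intro x hx
  have e : c * (c⁻¹ * x * c) * c⁻¹ = x := by group
  obtain ⟨d, hd, d0, d1⟩ := hR (c⁻¹ * x * c) ((h _).2 (by rwa [e]))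
  refine ⟨c * d * c⁻¹, (h d).1 hd, by rw [U.c0_conj, d0], ?_⟩
  rw [← d1, ← U.c0_conj c (c⁻¹ * x * c * d)]
  congr 2
  group

theorem circ_of_comm {u d b : U} (hd : d * u * d⁻¹ = qi) (hb : b * u = u * b) :
    Circ (d * b * d⁻¹) := by
  rw [circ_iff, ← hd]
  calc d * b * d⁻¹ * (d * u * d⁻¹) = d * (b * u) * d⁻¹ := by group
    _ = d * u * d⁻¹ * (d * b * d⁻¹) := by rw [hb]; group

/-- the second projection is moved into the circle, the first one is conjugated by `c` -/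
theorem exists_circ (hC : TyC (PR Γ)) (c : U) : ∃ Γ' : Subgroup (U × U), Equi Γ Γ' ∧
    (∀ a b, (a, b) ∈ Γ' → Circ b) ∧ ∀ a, a ∈ PL Γ ↔ c * a * c⁻¹ ∈ PL Γ' := by
  obtain ⟨u, hu, hcomm⟩ := hC
  obtain ⟨d, hd⟩ := conj_of_re (a := u) (b := qi) hu
  obtain ⟨Γ', h⟩ := exists_conj Γ c d
  have h' : ∀ a b, (a, b) ∈ Γ' → (c⁻¹ * a * c, d⁻¹ * b * d) ∈ Γ := fun a b hab => by
    rw [h]
    simpa [mul_assoc] using hab
  refine ⟨Γ', ⟨c, d, Or.inl h⟩, fun a b hab => ?_, fun a => ?_⟩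
  · have := circ_of_comm hd (hcomm _ (mem_PR.2 ⟨_, h' a b hab⟩))
    simpa [mul_assoc] using this
  · rw [mem_PL, mem_PL]
    constructor
    · rintro ⟨b, hb⟩
      exact ⟨_, (h a b).1 hb⟩
    · rintro ⟨b, hb⟩
      have := h' _ _ hb
      refine ⟨d⁻¹ * b * d, ?_⟩
      simpa [mul_assoc] using this

end NFI

open NFI in
theorem nfT (hC : S_Crd) : S_NFT := by
  intro Γ m ψ hF hψ hPL h24
  have hmem : ∀ {a : U}, a ∈ PL Γ ↔ a ∈ ST := fun {a} => by rw [← hPL]; rfl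
  have hQ : ∀ {q : U}, q ∈ SQ → q ∈ PL Γ := fun hq => hmem.2 (Or.inl hq)
  have hw : qw ∈ PL Γ := hmem.2 qw_ST
  have hodd : Odd m := by
    by_contra hne
    have e : ∀ q ∈ SQ, c0 q = 0 → ψ q = -1 := fun q hq h0 =>
      ((hψ.pure q (hQ hq) h0).resolve_left fun h => hne h.2).1
    have := hψ.mul qi (hQ qi_SQ) qj (hQ qj_SQ)
    rw [qk_eq, e qi qi_SQ rfl, e qj qj_SQ rfl, e qk qk_SQ rfl, neg_mul_neg, mul_one] at this
    exact U.neg_ne 1 this
  have hq1 : ∀ q ∈ SQ, ψ q = 1 := by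
    intro q hq
    rcases sq_cases hq with rfl | rfl | h0
    · exact psi_one hψ
    · exact hψ.neg
    · exact ((hψ.pure q (hQ hq) h0).resolve_right fun h =>
        Nat.not_even_iff_odd.2 hodd h.2).1
  have hval : ∀ q ∈ SQ, ∀ e : ℕ, ψ (q * qw ^ e) = ψ qw ^ e := fun q hq e => by
    rw [hψ.mul q (hQ hq) _ (pow_mem hw e), hq1 q hq, one_mul, psi_pow hψ hw]
  have hcube : ψ qw ^ 3 = 1 := by rw [← psi_pow hψ hw, qw_cube, hψ.neg]
  have hgen : ∀ a b, (a, b) ∈ Γ ↔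
      Circ b ∧ ∃ q ∈ SQ, ∃ e < 3, a = q * qw ^ e ∧ b ^ (2 * m) = ψ qw ^ e := by
    intro a b
    rw [hψ.mem]
    constructor
    · rintro ⟨ha, hb, e⟩
      obtain ⟨q, hq, k, hk, rfl⟩ := hC.2.2.2.2.1 a (hmem.1 ha)
      exact ⟨hb, q, hq, k, hk, rfl, e.trans (hval q hq k)⟩
    · rintro ⟨hb, q, hq, k, hk, rfl, e⟩
      exact ⟨mul_mem (hQ hq) (pow_mem hw k), hb, e.trans (hval q hq k).symm⟩
  rcases cube_root (hψ.circ qw hw) hcube with h1 | ⟨h0, h1⟩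
  · refine Or.inl ⟨h24, hodd, fun a b => ?_⟩
    rw [hψ.mem, hmem]
    refine and_congr_right fun ha => ?_
    obtain ⟨q, hq, k, -, rfl⟩ := hC.2.2.2.2.1 a ha
    rw [hval q hq, h1, one_pow]
  · have hm : 1 < m := by
      by_contra hle
      have hm1 : m = 1 := by have := hψ.pos; omega
      have hb : (qw, -(ψ qw)⁻¹) ∈ Γ := by
        rw [hψ.mem]
        refine ⟨hw, (hψ.circ qw hw).inv.neg, ?_⟩
        rw [hm1, mul_one, neg_sq, inv_pow, inv_eq_iff_mul_eq_one, ← pow_succ, hcube]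
      obtain ⟨-, h2 | h2⟩ := hF.free _ _ hb (by simp [h0]; norm_num)
      · have := congrArg (fun x : U => c1 x.1) h2
        simp at this
      · have := congrArg (fun x : U => c1 x.1) h2
        simp at this
    right
    rcases h1 with h1 | h1
    · exact ⟨Γ, Equi.refl Γ, hodd, hm, fun a b => by rw [hgen, h1]⟩
    · obtain ⟨Γ', h⟩ := exists_conj Γ 1 qj
      refine ⟨Γ', ⟨1, qj, Or.inl h⟩, hodd, hm, fun a b => ?_⟩
      have h2 := h a (qj⁻¹ * b * qj)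
      have e1 : 1 * a * 1⁻¹ = a := by group
      have e2 : qj * (qj⁻¹ * b * qj) * qj⁻¹ = b := by group
      rw [e1, e2] at h2
      rw [← h2, hgen, circ_conj_qj, h1]
      refine and_congr_right fun hb => ?_
      simp only [conj_qj' hb, inv_pow, inv_inj]

open NFI in
theorem nf (hP : S_Pole) (hD : S_ClsD) (hT : S_ClsT) (hO : S_ClsO) (hI : S_ClsI) (hC : S_Cyc)
    (hS : S_Psi) (h1 : S_NFD) (h2 : S_NFT) (h3 : S_NFR) : S_NF := by
  have main : ∀ Γ, FreeG Γ → TyC (PR Γ) → ∃ Γ', Equi Γ Γ' ∧ (Ab Γ' ∨ NA Γ') := by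
    intro Γ hF hR
    have hfin : Finite (PL Γ) := by
      have := hF.fin
      exact Finite.of_surjective _ ((MonoidHom.fst U U).subgroupMap_surjective Γ)
    have hneg : -1 ∈ PL Γ := mem_PL.2 ⟨_, hF.neg⟩
    have hrev : ∀ S : Set U, CjTo (PL Γ) S → Rev (PL Γ) → SQ ⊆ S →
        ∃ Γ' m, Equi Γ Γ' ∧ S.ncard = Nat.card (PL Γ) ∧ NP S m Γ' := by
      rintro S ⟨c, hc⟩ hr hsub
      obtain ⟨Γ', he, hcirc, hPL⟩ := exists_circ hR c
      have hset := set_eq hPL hc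
      have hi : qi ∈ PL Γ' := by
        have := hsub qi_SQ
        rwa [← hset] at this
      have hj : qj ∈ PL Γ' := by
        have := hsub qj_SQ
        rwa [← hset] at this
      obtain ⟨m, ψ, hψ⟩ := hS Γ' (he.freeG hF) hcirc ⟨qi, hi, rfl⟩
      refine ⟨Γ', m, he, ?_, ?_⟩
      · rw [← hset]
        exact card_eq hPL
      · rw [← hset]
        exact h3 Γ' m ψ hψ hi hj (rev_conj hPL hr)
    rcases hP (PL Γ) hfin hneg with ⟨u, hu, hcomm⟩ | ⟨n, hn⟩ | h | h | h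
    · obtain ⟨c, hc⟩ := conj_of_re (a := u) (b := qi) hu
      obtain ⟨Γ', he, hcirc, hPL⟩ := exists_circ hR c
      refine ⟨Γ', he, Or.inl fun a b hab => ⟨?_, hcirc a b hab⟩⟩
      have e : c * (c⁻¹ * a * c) * c⁻¹ = a := by group
      have := circ_of_comm hc (hcomm (c⁻¹ * a * c) ((hPL _).2 (by
        rw [e]
        exact mem_PL.2 ⟨b, hab⟩)))
      rwa [e] at this
    · obtain ⟨c, hc⟩ := hD _ n hn
      obtain ⟨Γ', he, hcirc, hPL⟩ := exists_circ hR c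
      have hset := set_eq hPL hc
      have hj : qj ∈ PL Γ' := by
        have e : qj * qj = -1 := U.mul_self_eq_neg_one.2 rfl
        have : qj ∈ SD n := Or.inr (by
          rw [e]
          exact ⟨Circ.one.neg, by rw [pow_mul, neg_sq, one_pow, one_pow]⟩)
        rwa [← hset] at this
      obtain ⟨m, ψ, hψ⟩ := hS Γ' (he.freeG hF) hcirc ⟨qj, hj, rfl⟩
      refine ⟨Γ', he, Or.inr ⟨n, m, ?_⟩⟩
      rcases h1 Γ' m ψ n (he.freeG hF) hψ hn.1 hset with h | h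
      · exact Or.inl h
      · exact Or.inr (Or.inl h)
    · obtain ⟨c, hc⟩ := hT _ h
      obtain ⟨Γ', he, hcirc, hPL⟩ := exists_circ hR c
      have hset := set_eq hPL hc
      have hi : qi ∈ PL Γ' := by
        have : qi ∈ ST := Or.inl qi_SQ
        rwa [← hset] at this
      obtain ⟨m, ψ, hψ⟩ := hS Γ' (he.freeG hF) hcirc ⟨qi, hi, rfl⟩
      have h24 : ST.ncard = 24 := by
        rw [← hset, card_eq hPL]
        exact h.1
      rcases h2 Γ' m ψ (he.freeG hF) hψ hset h24 with h' | ⟨Γ'', he', h'⟩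
      · exact ⟨Γ', he, Or.inr ⟨0, m, Or.inr (Or.inr (Or.inl h'))⟩⟩
      · exact ⟨Γ'', he.trans he', Or.inr ⟨0, m, Or.inr (Or.inr (Or.inr (Or.inl h')))⟩⟩
    · obtain ⟨Γ', m, he, hc, hn⟩ := hrev SO (hO _ h) h.2.1 fun q hq => Or.inl (Or.inl hq)
      exact ⟨Γ', he, Or.inr ⟨0, m, Or.inr (Or.inr (Or.inr (Or.inr (Or.inl
        ⟨hc.trans h.1, hn⟩))))⟩⟩
    · obtain ⟨Γ', m, he, hc, hn⟩ := hrev SI (hI _ h) h.2.1 fun q hq => Or.inl (Or.inl hq)
      exact ⟨Γ', he, Or.inr ⟨0, m, Or.inr (Or.inr (Or.inr (Or.inr (Or.inr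
        ⟨hc.trans h.1, hn⟩))))⟩⟩
  intro Γ hF
  rcases hC Γ hF with ⟨u, hu, hcomm⟩ | h
  · obtain ⟨Γ', he, hsw⟩ := exists_swap Γ
    obtain ⟨Γ'', he', h⟩ := main Γ' (he.freeG hF) ⟨u, hu, fun b hb => by
      obtain ⟨a, ha⟩ := mem_PR.1 hb
      exact hcomm b (mem_PL.2 ⟨a, (hsw b a).2 ha⟩)⟩
    exact ⟨Γ'', he.trans he', h⟩
  · exact main Γ hF h

end

end Pool.Agent.P.MP_e311cd_gt
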