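import Pool.Agent.P.MP_e311cd_gt.I.St

/-! The Laplacian of `K` read through the covering by the unit quaternions. -/

namespace Pool.Agent.P.MP_e311cd_gt

open Set NormedSpace
open scoped RealInnerProductSpace

noncomputable section

namespace OnbI

variable {A : Type} [HS A] {F : A → ℂ}

/-- derivative along the left invariant field with value `X` at the identity -/
def dX (X : A) (F : A → ℂ) : A → ℂ := fun y => fderiv ℝ F y (y * X)

theorem dX_smooth (hF : ContDiff ℝ (⊤ : ℕ∞) F) (X : A) : ContDiff ℝ (⊤ : ℕ∞) (dX X F) :=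
  (hF.fderiv_right (m := (⊤ : ℕ∞)) (by simp)).clm_apply (contDiff_id.mul contDiff_const)

theorem hasDerivAt_dX (hF : ContDiff ℝ (⊤ : ℕ∞) F) (x X : A) (t : ℝ) :
    HasDerivAt (fun s : ℝ => F (x * exp (s • X))) (dX X F (x * exp (t • X))) t := by
  have h1 : HasDerivAt (fun s : ℝ => x * exp (s • X)) (x * (exp (t • X) * X)) t :=
    (hasDerivAt_exp_smul_const X t).const_mul x
  have h2 := (hF.differentiable (by simp) (x * exp (t • X))).hasFDerivAt.comp_hasDerivAt t h1
  rw [← mul_assoc] at h2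
  exact h2

theorem hasDerivAt_dX0 (hF : ContDiff ℝ (⊤ : ℕ∞) F) (x X : A) :
    HasDerivAt (fun s : ℝ => F (x * exp (s • X))) (dX X F x) 0 := by
  have h := hasDerivAt_dX hF x X 0
  rwa [zero_smul, exp_zero, mul_one] at h

theorem iter2 (hF : ContDiff ℝ (⊤ : ℕ∞) F) (x X : A) :
    iteratedDeriv 2 (fun t : ℝ => F (x * exp (t • X))) 0 = dX X (dX X F) x := by
  have e : deriv (fun t : ℝ => F (x * exp (t • X))) = fun t : ℝ => dX X F (x * exp (t • X)) :=
    funext fun t => (hasDerivAt_dX hF x X t).deriv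
  rw [iteratedDeriv_succ, iteratedDeriv_one, e]
  exact (hasDerivAt_dX0 (dX_smooth hF X) x X).deriv

theorem dX_add (X Y : A) (F : A → ℂ) : dX (X + Y) F = dX X F + dX Y F :=
  funext fun y => by simp [dX, mul_add]

theorem dX_smul (r : ℝ) (X : A) (F : A → ℂ) : dX (r • X) F = r • dX X F :=
  funext fun y => by simp [dX]

/-- the second derivative as a bilinear form -/
def BB (hF : ContDiff ℝ (⊤ : ℕ∞) F) (x : A) : A →ₗ[ℝ] A →ₗ[ℝ] ℂ :=
  LinearMap.mk₂ ℝ (fun X Y => dX Y (dX X F) x)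
    (fun X X' Y => by
      rw [dX_add, dX, fderiv_add ((dX_smooth hF X).differentiable (by simp) x)
        ((dX_smooth hF X').differentiable (by simp) x)]
      rfl)
    (fun r X Y => by
      rw [dX_smul, dX, fderiv_const_smul ((dX_smooth hF X).differentiable (by simp) x)]
      rfl)
    (fun X Y Y' => by rw [dX_add]; rfl)
    (fun r X Y => by rw [dX_smul]; rfl)

theorem BB_apply (hF : ContDiff ℝ (⊤ : ℕ∞) F) (x X Y : A) : BB hF x X Y = dX Y (dX X F) x := rfl

theorem expand {m : ℕ} {Y : Fin m → A} (hY : ∀ i j, ⟪Y i, Y j⟫ = if i = j then 1 else 0) {v : A}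
    (hv : v ∈ Submodule.span ℝ (range Y)) : ∑ a, ⟪Y a, v⟫ • Y a = v := by
  obtain ⟨c, rfl⟩ := (Submodule.mem_span_range_iff_exists_fun ℝ).mp hv
  refine Finset.sum_congr rfl fun a _ => ?_
  simp [inner_sum, inner_smul_right, hY]

theorem trace_eq (B : A →ₗ[ℝ] A →ₗ[ℝ] ℂ) {m l : ℕ} {X : Fin m → A} {Y : Fin l → A}
    (hX : ∀ i j, ⟪X i, X j⟫ = if i = j then 1 else 0)
    (hY : ∀ i j, ⟪Y i, Y j⟫ = if i = j then 1 else 0)
    (e : Submodule.span ℝ (range X) = Submodule.span ℝ (range Y)) :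
    ∑ i, B (X i) (X i) = ∑ a, B (Y a) (Y a) := by
  have h1 : ∀ i, B (X i) (X i) = ∑ a, ⟪Y a, X i⟫ • B (Y a) (X i) := fun i => by
    have h := expand hY (e ▸ Submodule.subset_span (mem_range_self i))
    have h' : B (∑ a, ⟪Y a, X i⟫ • Y a) (X i) = B (X i) (X i) := by rw [h]
    rw [← h', map_sum, LinearMap.sum_apply]
    simp only [map_smul, LinearMap.smul_apply]
  have h2 : ∀ a, B (Y a) (Y a) = ∑ i, ⟪Y a, X i⟫ • B (Y a) (X i) := fun a => by
    have h := expand hX (e ▸ Submodule.subset_span (mem_range_self a))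
    have h' : B (Y a) (∑ i, ⟪X i, Y a⟫ • X i) = B (Y a) (Y a) := by rw [h]
    rw [← h', map_sum]
    simp only [map_smul, real_inner_comm]
  simp only [h1]
  rw [Finset.sum_comm]
  exact Finset.sum_congr rfl fun a _ => (h2 a).symm

theorem rho_onb {k : Submodule ℝ A} {ρ : H →ₗ[ℝ] A} {c : ℝ} (h : Rho k ρ c) :
    Submodule.span ℝ (range fun i : Fin 3 => c⁻¹ • ρ (bq i)) = k ∧
      ∀ i j : Fin 3, ⟪c⁻¹ • ρ (bq i), c⁻¹ • ρ (bq j)⟫ = if i = j then 1 else 0 := by
  have hc := h.pos.ne'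
  refine ⟨le_antisymm (Submodule.span_le.mpr ?_) fun X hX => ?_, fun i j => ?_⟩
  · rintro _ ⟨i, rfl⟩
    exact k.smul_mem _ (h.mem _)
  · obtain ⟨v, rfl⟩ := h.onto X hX
    rw [Submodule.mem_span_range_iff_exists_fun]
    refine ⟨![c * c1 v, c * c2 v, c * c3 v], ?_⟩
    conv_rhs => rw [H.expand v]
    simp only [Fin.sum_univ_three, map_add, map_smul, h.one, smul_zero, zero_add, smul_smul]
    simp [bq, mul_comm c, hc]
  · rw [inner_smul_left, inner_smul_right, h.inner]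
    fin_cases i <;> fin_cases j <;> simp [bq] <;> field_simp

end OnbI

open OnbI in
theorem onb : S_Onb := by
  intro n K k π ρ c h F hF
  have hm : Continuous (mat : K → Mat n) := continuous_subtype_val.comp continuous_subtype_val
  have he : ∀ (x : K) i t, mat (x * π (eq3 i t)) = mat x * exp (t • ρ (bq i)) := fun x i t => by
    rw [mat_mul, eq3, h.map_exp, map_smul]
  have h1 : ∀ G : Mat n → ℂ, ContDiff ℝ (⊤ : ℕ∞) G → ∀ i (x : K),
      HasDerivAt (fun s : ℝ => G (mat (x * π (eq3 i s)))) (dX (ρ (bq i)) G (mat x)) 0 :=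
    fun G hG i x => by
      simp only [he]
      exact hasDerivAt_dX0 hG _ _
  have h2 : ∀ G : Mat n → ℂ, ContDiff ℝ (⊤ : ℕ∞) G →
      D1 (fun i t => π (eq3 i t)) (fun x : K => G (mat x)) :=
    fun G hG => ⟨hG.continuous.comp hm, fun i x => (h1 G hG i x).differentiableAt⟩
  have h3 : ∀ G : Mat n → ℂ, ContDiff ℝ (⊤ : ℕ∞) G → ∀ i,
      XD (fun i t => π (eq3 i t)) i (fun x : K => G (mat x)) =
        fun x : K => dX (ρ (bq i)) G (mat x) :=
    fun G hG i => funext fun x => XD_eq (h1 G hG i x)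
  have h4 := rho_onb h.toRho
  refine ⟨⟨h2 F hF, fun i => ?_⟩, h4, fun m X hX x => ?_⟩
  · rw [h3 F hF, h3 _ (dX_smooth hF _)]
    exact ⟨h2 _ (dX_smooth hF _), (h2 _ (dX_smooth (dX_smooth hF _) _)).1⟩
  · have h5 := trace_eq (BB hF (mat x)) hX.2 h4.2 (hX.1.trans h4.1.symm)
    have hc : (c : ℂ) ≠ 0 := Complex.ofReal_ne_zero.mpr h.pos.ne'
    have h6 : ∀ Y : Mat n, iteratedDeriv 2 (fun t : ℝ => F (mat x * exp (t • Y))) 0 =
        BB hF (mat x) Y Y := fun Y => iter2 hF _ _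
    have h7 : ∀ Y : Mat n, (c ^ 2 : ℂ) * BB hF (mat x) (c⁻¹ • Y) (c⁻¹ • Y) =
        dX Y (dX Y F) (mat x) := fun Y => by
      rw [← BB_apply hF, LinearMap.map_smul₂, LinearMap.map_smul, Complex.real_smul,
        Complex.real_smul, Complex.ofReal_inv]
      field_simp
    simp only [h6]
    rw [h5, mul_neg, Finset.mul_sum]
    simp only [h7, Lap, Pi.neg_apply, Finset.sum_apply, h3 F hF, h3 _ (dX_smooth hF _)]

end

end Pool.Agent.P.MP_e311cd_gt
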