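import Pool.Agent.P.MP_e311cd_gt.I.St

/-! The class equation for the poles of a finite group of unit quaternions. -/

namespace Pool.Agent.P.MP_e311cd_gt

open Set MulAction

noncomputable section

namespace OrbI

/-- class formula and Burnside's lemma with a list of orbit representatives -/
theorem class_eq (G X : Type) [Group G] [MulAction G X] [Fintype G] [Finite X] :
    ∃ (r : ℕ) (u : Fin r → X), (∀ v, ∃ i, ∃ g : G, v = g • u i) ∧
      ∑ i, (Nat.card G : ℚ) / Nat.card (stabilizer G (u i)) = Nat.card X ∧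
      ∑ g : G, Nat.card (fixedBy X g) = r * Nat.card G := by
  classical
  have := Fintype.ofFinite X
  have : Fintype (Quotient (orbitRel G X)) := Fintype.ofFinite _
  let e := (Fintype.equivFin (Quotient (orbitRel G X))).symm
  refine ⟨_, fun i => (e i).out, fun v => ?_, ?_, ?_⟩
  · obtain ⟨i, hi⟩ := e.surjective (Quotient.mk _ v)
    have h : (orbitRel G X).r v (e i).out := by
      rw [hi]
      exact (orbitRel G X).symm (Quotient.mk_out v)
    obtain ⟨g, hg⟩ := orbitRel_apply.mp h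
    exact ⟨i, g, hg.symm⟩
  · rw [Nat.card_congr (selfEquivSigmaOrbitsQuotientStabilizer G X), Nat.card_sigma,
      ← e.sum_comp, Nat.cast_sum]
    refine Finset.sum_congr rfl fun i _ => ?_
    have h : (Nat.card (stabilizer G (e i).out) : ℚ) ≠ 0 := by exact_mod_cast Nat.card_pos.ne'
    rw [div_eq_iff h, Subgroup.card_eq_card_quotient_mul_card_subgroup (stabilizer G (e i).out),
      Nat.cast_mul]
  · simp only [Nat.card_eq_fintype_card]
    exact sum_card_fixedBy_eq_card_orbits_mul_card_group G X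

/-- a non-central unit commutes with exactly two pure units -/
theorem axis {a : U} (ha : c0 a ^ 2 ≠ 1) :
    ∃ v : U, ∀ u : U, (c0 u = 0 ∧ a * u = u * a) ↔ u = v ∨ u = -v := by
  obtain ⟨c, hc⟩ := exists_conj_circ a
  have h0 := U.c0_conj c a
  obtain ⟨b, hb⟩ : ∃ b, b = c * a * c⁻¹ := ⟨_, rfl⟩
  rw [← hb] at hc h0
  have h1 : c1 b ≠ 0 := fun h => ha (by
    have := b.sq
    rw [h, hc.1, hc.2, h0] at this
    linarith)
  have key : ∀ w : U, (c0 w = 0 ∧ b * w = w * b) ↔ w = qi ∨ w = -qi := by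
    intro w
    constructor
    · rintro ⟨hw, h⟩
      obtain ⟨-, -, h2, h3⟩ := U.eq_iff.mp h
      simp only [U.coe_mul, c2_mul, c3_mul, hc.1, hc.2] at h2 h3
      have e3 : c3 w = 0 := by
        have : c1 b * c3 w = 0 := by linarith
        exact (mul_eq_zero.mp this).resolve_left h1
      have e2 : c2 w = 0 := by
        have : c1 b * c2 w = 0 := by linarith
        exact (mul_eq_zero.mp this).resolve_left h1
      have h4 := w.sq
      rw [hw, e2, e3] at h4
      rcases sq_eq_one_iff.mp (show c1 w ^ 2 = 1 by linarith) with h5 | h5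
      · left
        apply U.ext <;> simp [*]
      · right
        apply U.ext <;> simp [*]
    · rintro (rfl | rfl)
      · exact ⟨rfl, circ_iff.mp hc⟩
      · exact ⟨by simp, by rw [mul_neg, neg_mul, circ_iff.mp hc]⟩
  refine ⟨c⁻¹ * qi * c, fun u => ?_⟩
  have e1 : a * u = u * a ↔ b * (c * u * c⁻¹) = (c * u * c⁻¹) * b := by
    rw [hb]
    constructor
    · intro h
      calc c * a * c⁻¹ * (c * u * c⁻¹) = c * (a * u) * c⁻¹ := by group
        _ = c * u * c⁻¹ * (c * a * c⁻¹) := by rw [h]; group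
    · intro h
      calc a * u = c⁻¹ * (c * a * c⁻¹ * (c * u * c⁻¹)) * c := by group
        _ = u * a := by rw [h]; group
  have e2 : ∀ w : U, c * u * c⁻¹ = w ↔ u = c⁻¹ * w * c := by
    intro w
    constructor
    · rintro rfl
      group
    · rintro rfl
      group
  rw [e1, ← U.c0_conj c u, key, e2, e2, mul_neg, neg_mul]

theorem pole_finite (A : Subgroup U) [Finite A] : (Pole A).Finite := by
  have hA : (A : Set U).Finite := toFinite _
  refine ((hA.subset (sep_subset _ fun a : U => c0 a ^ 2 ≠ 1)).biUnion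
    (t := fun a => {u : U | c0 u = 0 ∧ a * u = u * a}) fun a ha => ?_).subset ?_
  · obtain ⟨v, hv⟩ := axis ha.2
    exact (toFinite {v, -v}).subset fun u hu => (hv u).mp hu
  · rintro u ⟨h0, a, ha, h1, h2⟩
    exact mem_biUnion (show a ∈ {a ∈ (A : Set U) | c0 a ^ 2 ≠ 1} from ⟨ha, h1⟩) ⟨h0, h2⟩

theorem conj_mem {A : Subgroup U} {u : U} (hu : u ∈ Pole A) (g : A) :
    g.1 * u * g.1⁻¹ ∈ Pole A := by
  obtain ⟨h0, a, ha, h1, h2⟩ := hu
  refine ⟨(U.c0_conj _ _).trans h0, g.1 * a * g.1⁻¹,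
    A.mul_mem (A.mul_mem g.2 ha) (A.inv_mem g.2), by rwa [U.c0_conj], ?_⟩
  calc g.1 * a * g.1⁻¹ * (g.1 * u * g.1⁻¹) = g.1 * (a * u) * g.1⁻¹ := by group
    _ = g.1 * u * g.1⁻¹ * (g.1 * a * g.1⁻¹) := by rw [h2]; group

/-- the action on the poles by conjugation -/
@[reducible] def actP (A : Subgroup U) : MulAction A (Pole A) where
  smul g u := ⟨g.1 * u.1 * g.1⁻¹, conj_mem u.2 g⟩
  one_smul u := Subtype.ext (by
    change (1 : U) * u.1 * (1 : U)⁻¹ = u.1
    group)
  mul_smul g h u := Subtype.ext (by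
    change g.1 * h.1 * u.1 * (g.1 * h.1)⁻¹ = g.1 * (h.1 * u.1 * h.1⁻¹) * g.1⁻¹
    group)

attribute [local instance] actP

theorem smul_eq_iff {A : Subgroup U} (g : A) (u : Pole A) :
    g • u = u ↔ g.1 * u.1 = u.1 * g.1 := by
  rw [Subtype.ext_iff]
  exact mul_inv_eq_iff_eq_mul

theorem stb_eq {A : Subgroup U} (u : Pole A) : stb A u = Nat.card (stabilizer A u) := by
  rw [stb, ← Nat.card_coe_set_eq]
  exact Nat.card_congr
    ⟨fun a => ⟨⟨a.1, a.2.1⟩, (smul_eq_iff _ u).mpr a.2.2⟩,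
      fun g => ⟨g.1.1, g.1.2, (smul_eq_iff _ u).mp g.2⟩, fun _ => rfl, fun _ => rfl⟩

theorem two_dvd {A : Subgroup U} (hA : -1 ∈ A) (S : Subgroup A) (h : (⟨-1, hA⟩ : A) ∈ S) :
    2 ∣ Nat.card S := by
  have h1 : orderOf (⟨⟨-1, hA⟩, h⟩ : S) = 2 := by
    refine orderOf_eq_prime (Subtype.ext (Subtype.ext ?_)) fun e => ?_
    · change (-1 : U) ^ 2 = 1
      exact neg_one_sq
    · exact U.neg_ne 1 (congrArg (fun x : S => x.1.1) e)
  rw [← h1]
  exact orderOf_dvd_natCard _

theorem three_le {A : Subgroup U} [Finite A] (hA : -1 ∈ A) {u : U} (hu : u ∈ Pole A) :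
    3 ≤ stb A u := by
  obtain ⟨-, a, ha, h1, h2⟩ := hu
  have h3 : ¬ (a = 1 ∨ a = -1) := fun h => h1 (U.re_sq_eq_one.mpr h)
  rw [not_or] at h3
  have h4 : ({1, -1, a} : Set U).ncard = 3 :=
    ncard_eq_three.mpr ⟨1, -1, a, (U.neg_ne 1).symm, Ne.symm h3.1, Ne.symm h3.2, rfl⟩
  rw [← h4]
  refine ncard_le_ncard ?_ ((toFinite (A : Set U)).subset fun x hx => hx.1)
  rintro x (rfl | rfl | rfl)
  · exact ⟨A.one_mem, by simp⟩
  · exact ⟨hA, by simp⟩
  · exact ⟨ha, h2⟩

theorem card_fixed {A : Subgroup U} (g : A) :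
    Nat.card (fixedBy (Pole A) g) = if c0 g.1 ^ 2 = 1 then Nat.card (Pole A) else 2 := by
  split_ifs with h
  · have e : fixedBy (Pole A) g = univ := by
      refine eq_univ_of_forall fun u => (smul_eq_iff g u).mpr ?_
      rcases U.re_sq_eq_one.mp h with h | h <;> simp [h]
    rw [e, Nat.card_univ]
  · obtain ⟨v, hv⟩ := axis h
    have e : Subtype.val '' fixedBy (Pole A) g = {v, -v} := by
      ext u
      rw [mem_insert_iff, mem_singleton_iff, ← hv]
      constructor
      · rintro ⟨w, hw, rfl⟩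
        exact ⟨w.2.1, (smul_eq_iff g w).mp hw⟩
      · rintro ⟨h0, h1⟩
        exact ⟨⟨u, h0, g.1, g.2, h, h1⟩, (smul_eq_iff g _).mpr h1, rfl⟩
    rw [Nat.card_coe_set_eq, ← ncard_image_of_injective _ Subtype.val_injective, e,
      ncard_pair (U.neg_ne v).symm]

theorem sum_fixed {A : Subgroup U} [Fintype A] (hA : -1 ∈ A) :
    ∑ g : A, Nat.card (fixedBy (Pole A) g) + 4 = 2 * Nat.card (Pole A) + 2 * Nat.card A := by
  classical
  simp only [card_fixed]
  have e : Finset.univ.filter (fun g : A => c0 g.1 ^ 2 = 1) = {1, ⟨-1, hA⟩} := by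
    ext g
    simp only [Finset.mem_filter, Finset.mem_univ, true_and, Finset.mem_insert,
      Finset.mem_singleton, U.re_sq_eq_one, Subtype.ext_iff (p := (· ∈ A))]
    rfl
  have h2 : (Finset.univ.filter (fun g : A => c0 g.1 ^ 2 = 1)).card = 2 := by
    rw [e]
    exact Finset.card_pair fun h => U.neg_ne 1 (congrArg Subtype.val h).symm
  have h3 := Finset.card_filter_add_card_filter_not (s := Finset.univ)
    (fun g : A => c0 g.1 ^ 2 = 1)
  rw [Finset.sum_ite, Finset.sum_const, Finset.sum_const, h2, smul_eq_mul, smul_eq_mul,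
    Nat.card_eq_fintype_card (α := A), ← Finset.card_univ, ← h3, h2]
  ring

end OrbI

open OrbI

attribute [local instance] OrbI.actP

theorem orb : S_Orb := by
  intro A hfin hA
  have := Fintype.ofFinite A
  have : Finite (Pole A) := pole_finite A
  obtain ⟨r, u, hu, h1, h2⟩ := class_eq A (Pole A)
  have h3 := sum_fixed hA
  rw [h2] at h3
  obtain ⟨N, hN⟩ : 2 ∣ Nat.card A := by
    rw [← Subgroup.card_top (G := A)]
    exact two_dvd hA ⊤ (Subgroup.mem_top _)
  have hN0 : 0 < N := by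
    have := Nat.card_pos (α := A)
    omega
  choose m hm using fun i => two_dvd hA (stabilizer A (u i)) ((smul_eq_iff _ _).mpr (by simp))
  have hm2 : ∀ i, 2 ≤ m i := fun i => by
    have := three_le hA (u i).2
    rw [stb_eq, hm] at this
    omega
  have hmN : ∀ i, m i ≤ N := fun i => by
    have := Subgroup.card_le_card_group (stabilizer A (u i))
    rw [hm, hN] at this
    omega
  have hNq : (0 : ℚ) < N := by exact_mod_cast hN0
  have hmq : ∀ i, (2 : ℚ) ≤ m i := fun i => by exact_mod_cast hm2 i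
  have hs : ∑ i, (1 / m i : ℚ) = r - 2 + 2 / N := by
    have a1 : ∑ i, (1 / m i : ℚ) = (Nat.card (Pole A) : ℚ) / N := by
      rw [← h1, Finset.sum_div]
      refine Finset.sum_congr rfl fun i _ => ?_
      have := hmq i
      rw [hm, hN]
      push_cast
      field_simp
    have a2 : (r : ℚ) * (2 * N) + 4 = 2 * Nat.card (Pole A) + 2 * (2 * N) := by
      rw [hN] at h3
      exact_mod_cast h3
    rw [a1]
    field_simp
    linarith
  have hlo : ∀ i, (1 / N : ℚ) ≤ 1 / m i := fun i =>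
    one_div_le_one_div_of_le (by linarith [hmq i]) (by exact_mod_cast hmN i)
  have hhi : ∀ i, (1 / m i : ℚ) ≤ 1 / 2 := fun i =>
    one_div_le_one_div_of_le (by norm_num) (hmq i)
  have hpos : (0 : ℚ) < 2 / N := by positivity
  have hr : r < 4 := by
    have a1 := Finset.sum_le_sum fun i (_ : i ∈ Finset.univ) => hhi i
    rw [hs, Finset.sum_const, Finset.card_univ, Fintype.card_fin, nsmul_eq_mul] at a1
    have : (r : ℚ) < 4 := by linarith
    exact_mod_cast this
  have e2 : (2 / N : ℚ) = 2 * (1 / N) := by ring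
  interval_cases r
  · refine Or.inl ⟨qi, rfl, fun a ha => ?_⟩
    by_cases h : c0 a ^ 2 = 1
    · rcases U.re_sq_eq_one.mp h with h | h <;> simp [h]
    · obtain ⟨v, hv⟩ := axis h
      obtain ⟨h4, h5⟩ := (hv v).mpr (Or.inl rfl)
      obtain ⟨i, -⟩ := hu ⟨v, h4, a, ha, h, h5⟩
      exact i.elim0
  · exfalso
    rw [Fin.sum_univ_one] at hs
    have a1 := hlo 0
    have a2 := hhi 0
    push_cast at hs
    have a3 : (0 : ℚ) < 1 / m 0 := one_div_pos.mpr (by linarith [hmq 0])
    linarith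
  · rw [Fin.sum_univ_two] at hs
    have a1 := hlo 0
    have a2 := hlo 1
    push_cast at hs
    have a3 : (1 / m 0 : ℚ) = 1 / N := by linarith
    have a4 : m 0 = N := by
      rw [one_div, one_div, inv_inj] at a3
      exact_mod_cast a3
    have a5 : stabilizer A (u 0) = ⊤ := Subgroup.eq_top_of_card_eq _ (by rw [hm, hN, a4])
    refine Or.inl ⟨u 0, (u 0).2.1, fun a ha => (smul_eq_iff ⟨a, ha⟩ _).mp ?_⟩
    rw [← mem_stabilizer_iff, a5]
    exact Subgroup.mem_top _
  · have hmono := Tuple.monotone_sort m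
    refine Or.inr ⟨fun i => u (Tuple.sort m i), fun i => m (Tuple.sort m i), N,
      fun i => (u _).2, fun i => by rw [stb_eq, hm], hm2 _, hmono (by decide), hmono (by decide),
      hN, ?_, fun v hv => ?_⟩
    · rw [← Equiv.sum_comp (Tuple.sort m), Fin.sum_univ_three] at hs
      push_cast at hs
      linarith
    · obtain ⟨i, g, hg⟩ := hu ⟨v, hv⟩
      obtain ⟨j, rfl⟩ := (Tuple.sort m).surjective i
      exact ⟨j, g.1, g.2, congrArg Subtype.val hg⟩

end

end Pool.Agent.P.MP_e311cd_gt
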