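import Pool.Agent.P.MP_e311cd_gt.I.St
import Pool.Agent.P.MP_e311cd_gt.Chart
import Pool.Agent.P.MP_e311cd_gt.Hom

/-! The covering of a three dimensional group by the unit quaternions. -/

namespace Pool.Agent.P.MP_e311cd_gt

open Set NormedSpace Filter Topology
open scoped RealInnerProductSpace

noncomputable section

namespace PiI

variable {A : Type} [HS A] {K : Set A} {k : Submodule ℝ A} {ρ : H →ₗ[ℝ] A} {c : ℝ}

/-- a continuous family of elements that act trivially on `k` is constant -/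
theorem const (hK : CG K k) (hk : SA k) {X : Type} [TopologicalSpace X] [PreconnectedSpace X]
    {h : X → A} (hc : Continuous h) (hm : ∀ x, h x ∈ K) (ha : ∀ x, ∀ Y ∈ k, Ad (h x) Y = Y)
    {x₀ : X} (h0 : h x₀ = 1) (x : X) : h x = 1 := by
  obtain ⟨δ, hδ, h1⟩ := HomP.eq_one chart hK hk
  have e : {x | h x = 1} = {x | ‖h x - 1‖ < δ} := by
    ext y
    exact ⟨fun hy => by
      rw [mem_ofPred_eq] at hy ⊢
      rw [hy, sub_self, norm_zero]
      exact hδ, fun hy => h1 _ (hm y) hy (ha y)⟩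
  have hcl : IsClopen {x | h x = 1} :=
    ⟨isClosed_eq hc continuous_const, e ▸ isOpen_lt (hc.sub continuous_const).norm continuous_const⟩
  have := hcl.eq_univ ⟨x₀, h0⟩
  exact (this ▸ mem_univ x : x ∈ {x | h x = 1})

/-- two continuous families with the same action on `k` that agree at a point agree -/
theorem agree (hK : CG K k) (hk : SA k) {X : Type} [TopologicalSpace X] [PreconnectedSpace X]
    {f g : X → A} (hf : Continuous f) (hg : Continuous g) (mf : ∀ x, f x ∈ K) (mg : ∀ x, g x ∈ K)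
    (ha : ∀ x, ∀ Y ∈ k, Ad (f x) Y = Ad (g x) Y) {x₀ : X} (h0 : f x₀ = g x₀) (x : X) :
    f x = g x := by
  have h1 := const hK hk (h := fun x => star (g x) * f x) (hg.star.mul hf)
    (fun x => hK.mul (hK.star (mg x)) (mf x))
    (fun x Y hY => by rw [Ad_mul, ha x Y hY, (hK.uni (mg x)).Ad_star_Ad])
    (x₀ := x₀) (by rw [h0, (hK.uni (mg x₀)).1]) x
  calc f x = g x * (star (g x) * f x) := by rw [← mul_assoc, (hK.uni (mg x)).2, one_mul]
    _ = g x := by rw [h1, mul_one]

theorem rho_im (r : Rho k ρ c) (v : H) : ρ (imL v) = ρ v := by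
  have e : v = c0 v • (1 : H) + imL v := by apply H.ext <;> simp
  conv_rhs => rw [e, map_add, map_smul, r.one, smul_zero, zero_add]

theorem ad_exp (hK : CG K k) (r : Rho k ρ c) (v w : H) :
    Ad (exp (ρ v)) (ρ w) = ρ ((eU v).1 * w * star (eU v).1) := by
  have hd : ∀ t : ℝ, HasDerivAt (fun s : ℝ => ρ (exp (s • imL v) * w * exp (s • -imL v)))
      (br (ρ v) (ρ (exp (t • imL v) * w * exp (t • -imL v)))) t := fun t => by
    have h1 := ((hasDerivAt_exp_smul_const' (𝕂 := ℝ) (imL v) t).mul_const w).mul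
      (hasDerivAt_exp_smul_const (𝕂 := ℝ) (-imL v) t)
    have h2 := (LinearMap.toContinuousLinearMap ρ).hasFDerivAt.comp_hasDerivAt t h1
    rw [← rho_im r v, ← r.map_br]
    refine h2.congr_deriv ?_
    rw [LinearMap.coe_toContinuousLinearMap']
    congr 1
    noncomm_ring
  have h3 := (hK.skew (r.mem v)).ode hd 1
  have e : star (imL v) = -imL v := by apply H.ext <;> simp
  rw [coe_eU, star_exp, e]
  simpa using h3.symm

/-- polar coordinates -/
def pol (x : Icc (0 : ℝ) Real.pi × U) : H := x.1.1 • (x.2 * qi * x.2⁻¹).1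

theorem continuous_pol : Continuous pol :=
  (continuous_subtype_val.comp continuous_fst).smul (continuous_subtype_val.comp
    ((continuous_snd.mul continuous_const).mul continuous_snd.inv))

theorem coe_pol (x : Icc (0 : ℝ) Real.pi × U) :
    (eU (pol x)).1 = Real.cos x.1 • 1 + Real.sin x.1 • (x.2 * qi * x.2⁻¹).1 :=
  coe_eU_smul _ (U.c0_conj x.2 qi)

theorem pol_surj : Function.Surjective fun x => eU (pol x) := by
  intro a
  have h1 := abs_le.mp (sq_le_one_iff_abs_le_one _ |>.mp a.re_sq_le)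
  obtain ⟨d, hd⟩ := conj_of_re (a := eU (Real.arccos (c0 a) • qi.1)) (b := a) (by
    rw [coe_eU_smul _ rfl]
    simp [Real.cos_arccos h1.1 h1.2])
  refine ⟨(⟨Real.arccos (c0 a), Real.arccos_nonneg _, Real.arccos_le_pi _⟩, d), Subtype.ext ?_⟩
  have h2 : d.1 * star d.1 = 1 := d.2.2
  rw [coe_pol]
  conv_rhs => rw [← hd, U.coe_mul, U.coe_mul, coe_eU_smul _ rfl]
  simp only [U.coe_mul, U.coe_inv, mul_add, add_mul, mul_smul_comm, smul_mul_assoc, mul_one, h2]

theorem continuous_exp_rho (ρ : H →ₗ[ℝ] A) : Continuous fun v => exp (ρ v) :=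
  (contDiff_exp' (m := 0)).continuous.comp ρ.continuous_of_finiteDimensional

theorem pol_fib (hK : CG K k) (hk : SA k) (r : Rho k ρ c) {x y : Icc (0 : ℝ) Real.pi × U}
    (h : eU (pol x) = eU (pol y)) : exp (ρ (pol x)) = exp (ρ (pol y)) := by
  obtain ⟨s, a⟩ := x
  obtain ⟨t, b⟩ := y
  have h1 := congrArg Subtype.val h
  rw [coe_pol, coe_pol] at h1
  have h2 := congrArg c0 h1
  simp only [c0_add, c0_smul, c0_one, U.c0_conj, coe_qi, c0_mk, mul_zero, add_zero, mul_one] at h2
  obtain rfl : s = t := Subtype.ext (Real.injOn_cos s.2 t.2 h2)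
  by_cases h3 : Real.sin s = 0
  · refine agree hK hk (f := fun a => exp (ρ (pol (s, a)))) (g := fun _ => exp (ρ (pol (s, b))))
      ((continuous_exp_rho ρ).comp (continuous_pol.comp (Continuous.prodMk_right s)))
      continuous_const (fun _ => hK.exp_mem (r.mem _)) (fun _ => hK.exp_mem (r.mem _))
      (fun d Y hY => ?_) (x₀ := b) rfl a
    obtain ⟨w, rfl⟩ := r.onto Y hY
    rw [ad_exp hK r, ad_exp hK r, coe_pol, coe_pol, h3, zero_smul, zero_smul]
  · have h4 := smul_right_injective H h3 (add_left_cancel h1)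
    simp only [pol, h4]

theorem exists_lift (hK : CG K k) (hk : SA k) (r : Rho k ρ c) : ∃ f : U → A, Continuous f ∧
    (∀ a, f a ∈ K) ∧ f 1 = 1 ∧ ∀ a w, Ad (f a) (ρ w) = ρ (a.1 * w * star a.1) := by
  have hq : IsQuotientMap fun x => eU (pol x) :=
    (continuous_eU.comp continuous_pol).isClosedMap.isQuotientMap
      (continuous_eU.comp continuous_pol) pol_surj
  have e : ∀ x, exp (ρ (pol (Function.surjInv pol_surj (eU (pol x))))) = exp (ρ (pol x)) :=
    fun x => pol_fib hK hk r (Function.surjInv_eq pol_surj _)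
  refine ⟨fun a => exp (ρ (pol (Function.surjInv pol_surj a))), ?_,
    fun _ => hK.exp_mem (r.mem _), ?_, fun a w => ?_⟩
  · rw [hq.continuous_iff]
    exact ((continuous_exp_rho ρ).comp continuous_pol).congr fun x => (e x).symm
  · have h0 : pol (⟨0, le_rfl, Real.pi_pos.le⟩, 1) = 0 := zero_smul ℝ _
    have h1 := e (⟨0, le_rfl, Real.pi_pos.le⟩, 1)
    have h2 : eU 0 = 1 := Subtype.ext (by rw [coe_eU, map_zero, exp_zero]; rfl)
    rwa [h0, h2, map_zero, exp_zero] at h1
  · rw [ad_exp hK r]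
    have h1 : eU (pol (Function.surjInv pol_surj a)) = a := Function.surjInv_eq pol_surj a
    rw [h1]

variable {f : U → A}

theorem lift_mul (hK : CG K k) (hk : SA k) (r : Rho k ρ c) (hc : Continuous f)
    (hm : ∀ a, f a ∈ K) (h1 : f 1 = 1) (ha : ∀ a w, Ad (f a) (ρ w) = ρ (a.1 * w * star a.1))
    (a b : U) : f (a * b) = f a * f b :=
  agree hK hk (f := fun b => f (a * b)) (g := fun b => f a * f b)
    (hc.comp (continuous_const.mul continuous_id)) (continuous_const.mul hc) (fun _ => hm _)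
    (fun _ => hK.mul (hm _) (hm _)) (fun d Y hY => by
      obtain ⟨w, rfl⟩ := r.onto Y hY
      rw [Ad_mul, ha, ha, ha, U.coe_mul, star_mul]
      simp only [mul_assoc]) (x₀ := 1) (by rw [h1, mul_one, mul_one]) b

theorem lift_exp (hK : CG K k) (hk : SA k) (r : Rho k ρ c) (hc : Continuous f)
    (hm : ∀ a, f a ∈ K) (h1 : f 1 = 1) (ha : ∀ a w, Ad (f a) (ρ w) = ρ (a.1 * w * star a.1))
    (v : H) : f (eU v) = exp (ρ v) :=
  agree hK hk (f := fun v => f (eU v)) (g := fun v => exp (ρ v))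
    (hc.comp continuous_eU) (continuous_exp_rho ρ) (fun _ => hm _)
    (fun _ => hK.exp_mem (r.mem _)) (fun d Y hY => by
      obtain ⟨w, rfl⟩ := r.onto Y hY
      rw [ha, ad_exp hK r]) (x₀ := 0) (by
      have h2 : eU 0 = 1 := Subtype.ext (by rw [coe_eU, map_zero, exp_zero]; rfl)
      rw [h2, h1, map_zero, exp_zero]) v

theorem lift_surj (hK : CG K k) (r : Rho k ρ c) (h1 : f 1 = 1)
    (hm : ∀ a b, f (a * b) = f a * f b) (he : ∀ v, f (eU v) = exp (ρ v)) {x : A} (hx : x ∈ K) :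
    x ∈ range f := by
  obtain ⟨δ, hδ, hch⟩ := chart A K k hK 1 one_pos
  have hnear : ∀ x ∈ K, ∀ y ∈ K, ‖y - x‖ < δ → x ∈ range f → y ∈ range f := by
    rintro _ hx y hy hxy ⟨a, rfl⟩
    have ux := hK.uni hx
    obtain ⟨η, hη, -, eη⟩ := hch (star (f a) * y) (hK.mul (hK.star hx) hy) (by
      rw [← ux.1, ux.star.norm_sub_left]; exact hxy)
    obtain ⟨v, rfl⟩ := r.onto η hη
    exact ⟨a * eU v, by rw [hm, he, eη, ← mul_assoc, ux.2, one_mul]⟩
  refine hK.conn.induction₂' (fun a b => a ∈ range f → b ∈ range f) (fun a ha => ?_)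
    (fun _ _ _ _ _ _ f g => g ∘ f) hK.one hx ⟨1, h1⟩
  have hb : ∀ᶠ b in 𝓝[K] a, ‖b - a‖ < δ :=
    mem_nhdsWithin_of_mem_nhds (by
      filter_upwards [Metric.ball_mem_nhds a hδ] with b hb
      rwa [mem_ball_iff_norm] at hb)
  filter_upwards [hb, self_mem_nhdsWithin] with b hb hbK
  exact ⟨hnear a ha b hbK hb, hnear b hbK a ha (by rwa [norm_sub_rev])⟩

theorem rho_inj (r : Rho k ρ c) {v w : H} (h0 : c0 v = c0 w) (h : ρ v = ρ w) : v = w := by
  have h1 := r.inner (v - w) (v - w)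
  rw [map_sub, h, sub_self, inner_zero_left, eq_comm, mul_eq_zero] at h1
  have h2 := h1.resolve_left (pow_pos r.pos 2).ne'
  rw [c1_sub, c2_sub, c3_sub] at h2
  refine H.ext h0 ?_ ?_ ?_ <;>
    nlinarith [mul_self_nonneg (c1 v - c1 w), mul_self_nonneg (c2 v - c2 w),
      mul_self_nonneg (c3 v - c3 w)]

theorem lift_ker (r : Rho k ρ c) {a : U} (ha : ∀ w, ρ (a.1 * w * star a.1) = ρ w) :
    a = 1 ∨ a = -1 :=
  U.central (mul_inv_eq_iff_eq_mul.mp (Subtype.ext (rho_inj r (U.c0_conj a qi) (ha qi.1))))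
    (mul_inv_eq_iff_eq_mul.mp (Subtype.ext (rho_inj r (U.c0_conj a qj) (ha qj.1))))

end PiI

open PiI

theorem pi3 : S_Pi := by
  intro n K k h ρ c r
  obtain ⟨f, hc, hm, h1, ha⟩ := exists_lift h.cg h.sa r
  have hmul := lift_mul h.cg h.sa r hc hm h1 ha
  have hexp := lift_exp h.cg h.sa r hc hm h1 ha
  choose g hg using hm
  refine ⟨MonoidHom.mk' g fun a b => mat_inj (by rw [mat_mul, hg, hg, hg, hmul]), r, ?_, ?_, ?_,
    ?_, ?_⟩
  · have hi : IsInducing (mat : K → Mat n) := IsInducing.subtypeVal.comp IsInducing.subtypeVal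
    exact hi.continuous_iff.mpr (hc.congr fun a => (hg a).symm)
  · intro x
    obtain ⟨a, e⟩ := lift_surj h.cg r h1 hmul hexp (mat_mem x)
    exact ⟨a, mat_inj ((hg a).trans e)⟩
  · intro a e
    have e' : f a = 1 := (hg a).symm.trans (congrArg mat e)
    exact lift_ker r fun w => by rw [← ha, e', Ad_one]
  · exact fun v => (hg _).trans (hexp v)
  · intro a v
    exact (congrArg (fun x => Ad x (ρ v)) (hg a)).trans (ha a v)

end

end Pool.Agent.P.MP_e311cd_gt
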