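import Pool.Agent.P.MP_e311cd_gt.I.St

/-! Primitive vectors, the degenerate case and the normalisation of the bases. -/

namespace Pool.Agent.P.MP_e311cd_gt

open Set

namespace PrimI

variable {f : ℤ × ℤ → ℤ}

theorem f_zero (h : Nm f) : f 0 = 0 := by simpa using h.smul 0 0

theorem f_nonneg (h : Nm f) (v : ℤ × ℤ) : 0 ≤ f v := by
  have h1 := h.add v ((-1 : ℤ) • v)
  have h2 := h.smul (-1) v
  rw [h2, neg_one_smul, add_neg_cancel, f_zero h] at h1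
  simp only [abs_neg, abs_one, one_mul] at h1
  linarith

theorem f_pos (h : Nm f) {v : ℤ × ℤ} (hv : v ≠ 0) : 0 < f v := by
  refine lt_of_le_of_ne (f_nonneg h v) fun e => ?_
  refine Set.infinite_range_of_injective (smul_left_injective ℤ hv) ((h.fin 0).subset ?_)
  rintro _ ⟨k, rfl⟩
  change f (k • v) = 0
  rw [h.smul, ← e, mul_zero]

theorem ne_zero_of_coprime {v : ℤ × ℤ} (hv : IsCoprime v.1 v.2) : v ≠ 0 := by
  rintro rfl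
  exact not_isCoprime_zero_zero hv

/-- a vector is a multiple of a primitive vector -/
theorem exists_prim {v : ℤ × ℤ} (hv : v ≠ 0) :
    0 < Int.gcd v.1 v.2 ∧ ∃ w : ℤ × ℤ, IsCoprime w.1 w.2 ∧ v = (Int.gcd v.1 v.2 : ℤ) • w := by
  have h : 0 < Int.gcd v.1 v.2 := Int.gcd_pos_iff.mpr (by
    by_contra hc
    rw [not_or, not_not, not_not] at hc
    exact hv (Prod.ext hc.1 hc.2))
  obtain ⟨m, n, h1, h2, h3⟩ := Int.exists_gcd_one h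
  refine ⟨h, (m, n), Int.isCoprime_iff_gcd_eq_one.mpr h1, Prod.ext ?_ ?_⟩
  · simpa [mul_comm] using h2
  · simpa [mul_comm] using h3

/-- the number of primitive vectors of norm `t` -/
noncomputable def PN (f : ℤ × ℤ → ℤ) (t : ℤ) : ℕ :=
  {v : ℤ × ℤ | IsCoprime v.1 v.2 ∧ f v = t}.ncard

theorem fiber (h : Nm f) {t d : ℕ} (hd : 0 < d) (hdt : d ∣ t) (ht : 0 < t) :
    {v : ℤ × ℤ | f v = t ∧ Int.gcd v.1 v.2 = d}.ncard = PN f (t / d : ℕ) := by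
  obtain ⟨e, rfl⟩ := hdt
  have hd' : (d : ℤ) ≠ 0 := by exact_mod_cast hd.ne'
  rw [Nat.mul_div_cancel_left _ hd, PN,
    ← ncard_image_of_injective {v : ℤ × ℤ | IsCoprime v.1 v.2 ∧ f v = e}
      (smul_right_injective (ℤ × ℤ) hd')]
  congr 1
  ext v
  constructor
  · rintro ⟨h1, h2⟩
    have hv : v ≠ 0 := by
      rintro rfl
      rw [f_zero h] at h1
      omega
    obtain ⟨-, w, hw, e1⟩ := exists_prim hv
    rw [h2] at e1
    refine ⟨w, ⟨hw, ?_⟩, e1.symm⟩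
    rw [e1, h.smul, Nat.abs_cast, Nat.cast_mul] at h1
    exact mul_left_cancel₀ hd' h1
  · rintro ⟨w, ⟨hw, h1⟩, rfl⟩
    refine ⟨?_, ?_⟩
    · change f ((d : ℤ) • w) = _
      rw [h.smul, Nat.abs_cast, Nat.cast_mul, h1]
    · change Int.gcd (d * w.1) (d * w.2) = d
      rw [Int.gcd_mul_left, Int.isCoprime_iff_gcd_eq_one.mp hw, mul_one, Int.natAbs_natCast]

theorem count (h : Nm f) {t : ℕ} (ht : 0 < t) :
    {v | f v = t}.ncard = PN f t + ∑ e ∈ t.properDivisors, PN f e := by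
  classical
  have hm : ∀ v ∈ (h.fin t).toFinset, Int.gcd v.1 v.2 ∈ t.divisors := by
    intro v hv
    rw [Finite.mem_toFinset] at hv
    have h1 : f v = t := hv
    have hv0 : v ≠ 0 := by
      rintro rfl
      rw [f_zero h] at h1
      omega
    obtain ⟨-, w, -, e1⟩ := exists_prim hv0
    refine Nat.mem_divisors.mpr ⟨?_, ht.ne'⟩
    have h2 := h.smul (Int.gcd v.1 v.2) w
    rw [← e1, h1, Nat.abs_cast] at h2
    exact Int.natCast_dvd_natCast.mp ⟨_, h2⟩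
  rw [ncard_eq_toFinset_card _ (h.fin t), Finset.card_eq_sum_card_fiberwise hm]
  have e1 : ∑ d ∈ t.divisors, ((h.fin t).toFinset.filter (fun v => Int.gcd v.1 v.2 = d)).card =
      ∑ d ∈ t.divisors, PN f (t / d : ℕ) := by
    refine Finset.sum_congr rfl fun d hd => ?_
    rw [← fiber h (Nat.pos_of_mem_divisors hd) (Nat.dvd_of_mem_divisors hd) ht,
      ← ncard_coe_finset]
    congr 1
    ext v
    simp
  rw [e1, Nat.sum_div_divisors t (fun e => PN f e), ← Nat.insert_self_properDivisors ht.ne',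
    Finset.sum_insert Nat.self_notMem_properDivisors]

theorem PN_nonpos (h : Nm f) {t : ℤ} (ht : t ≤ 0) : PN f t = 0 := by
  rw [PN, show {v : ℤ × ℤ | IsCoprime v.1 v.2 ∧ f v = t} = ∅ from ?_, ncard_empty]
  refine eq_empty_of_forall_notMem fun v hv => ?_
  have := f_pos h (ne_zero_of_coprime hv.1)
  rw [hv.2] at this
  omega

/-! ### the degenerate case -/

theorem red {x₁ x₂ y₂ : ℤ} (h : Nm (Nv x₁ 0 x₂ y₂)) (hx : 0 < x₁) :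
    Nv x₁ 0 x₂ y₂ (1, 0) = x₁ ∧ Nv x₁ 0 x₂ y₂ (0, 1) = |y₂| ∧ x₁ ≤ |y₂| := by
  have r1 := h.r1
  have r2 := h.r2
  have r3 := h.r3
  simp only [Nv, one_mul, zero_mul, mul_zero, add_zero, zero_add, abs_zero, neg_mul] at *
  have := abs_nonneg y₂
  have a := abs_cases x₁
  have b := abs_cases x₂
  have c := abs_cases (x₁ + x₂)
  have d := abs_cases (-x₁ + x₂)
  clear h
  generalize |y₂| = y at *
  generalize |x₁| = p at *
  generalize |x₂| = q at *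
  generalize |x₁ + x₂| = r at *
  generalize |-x₁ + x₂| = s at *
  omega

theorem least {x₁ : ℤ} (x₂ y : ℤ) (hy : 0 ≤ y) (hx : 0 < x₁) : ∃ m : ℤ, y < |m * x₁ + x₂| ∧
    |m * x₁ + x₂| ≤ y + x₁ ∧ ∀ k : ℤ, y < |k * x₁ + x₂| → |m * x₁ + x₂| ≤ |k * x₁ + x₂| := by
  have h1 := Int.mul_ediv_add_emod (y - x₂) x₁
  have h2 := Int.emod_nonneg (y - x₂) hx.ne'
  have h3 := Int.emod_lt_of_pos (y - x₂) hx
  have h4 : ((y - x₂) / x₁ + 1) * x₁ + x₂ = y - (y - x₂) % x₁ + x₁ := by linear_combination h1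
  have h5 : |((y - x₂) / x₁ + 1) * x₁ + x₂| = y - (y - x₂) % x₁ + x₁ := by
    rw [h4, abs_of_nonneg (by omega)]
  obtain ⟨μ, ⟨h6, m, rfl⟩, h7⟩ := Int.exists_least_of_bdd
    (P := fun μ => y < μ ∧ ∃ m : ℤ, μ = |m * x₁ + x₂|) ⟨y, fun z hz => hz.1.le⟩
    ⟨_, by rw [h5]; omega, _, rfl⟩
  refine ⟨m, h6, ?_, fun k hk => h7 _ ⟨hk, k, rfl⟩⟩
  have := h7 _ ⟨by rw [h5]; omega, (y - x₂) / x₁ + 1, rfl⟩
  omega

theorem not_lt_least {x₁ x₂ y₂ x₂' y₂' m m' : ℤ} (h : Nm (Nv x₁ 0 x₂ y₂))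
    (hP : PSpc (Nv x₁ 0 x₂ y₂) (Nv x₁ 0 x₂' y₂')) (hx : 0 < x₁) (hxy : x₁ ≤ |y₂|)
    (hy : |y₂| = |y₂'|) (h1 : |y₂| < |m * x₁ + x₂|) (h2 : |m' * x₁ + x₂'| ≤ |y₂'| + x₁)
    (h3 : ∀ k : ℤ, |y₂'| < |k * x₁ + x₂'| → |m' * x₁ + x₂'| ≤ |k * x₁ + x₂'|) :
    |m' * x₁ + x₂'| ≤ |m * x₁ + x₂| := by
  by_contra hc
  rw [not_le] at hc
  have e1 := hP |m * x₁ + x₂|
  have e2 : 0 < {v : ℤ × ℤ | IsCoprime v.1 v.2 ∧ Nv x₁ 0 x₂ y₂ v = |m * x₁ + x₂|}.ncard := by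
    rw [ncard_pos ((h.fin _).subset fun v hv => hv.2)]
    refine ⟨(m, 1), isCoprime_one_right, ?_⟩
    simp only [Nv, one_mul, mul_zero, zero_add]
    exact max_eq_left h1.le
  rw [e1] at e2
  obtain ⟨⟨k, n⟩, hk, e3⟩ := nonempty_of_ncard_ne_zero e2.ne'
  simp only [Nv, mul_zero, zero_add] at e3 hk
  rw [abs_mul n] at e3
  have hy0 := abs_nonneg y₂'
  rcases (show n = 0 ∨ n = 1 ∨ n = -1 ∨ 2 ≤ |n| by
    rcases abs_cases n with a | a <;> omega) with rfl | rfl | rfl | hn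
  · have hk1 : |k| = 1 := Int.isUnit_iff_abs_eq.mp (isCoprime_zero_right.mp hk)
    rw [zero_mul, add_zero, abs_mul, hk1, abs_of_pos hx] at e3
    simp only [abs_zero, zero_mul, one_mul] at e3
    omega
  · simp only [one_mul, abs_one] at e3
    have := h3 k (by omega)
    omega
  · have e4 : |k * x₁ + -1 * x₂'| = |(-k) * x₁ + x₂'| := by
      rw [← abs_neg]; congr 1; ring
    simp only [e4, abs_neg, one_mul, abs_one] at e3
    have := h3 (-k) (by omega)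
    omega
  · have e4 : 2 * |y₂'| ≤ |n| * |y₂'| := mul_le_mul_of_nonneg_right hn hy0
    omega

/-! ### symmetries -/

variable {x₁ y₁ x₂ y₂ x₁' y₁' x₂' y₂' : ℤ}

theorem sq_one {s : ℤ} (h : s = 1 ∨ s = -1) : s * s = 1 := by
  rcases h with rfl | rfl <;> norm_num

theorem neg_pm {s : ℤ} (h : s = 1 ∨ s = -1) : -s = 1 ∨ -s = -1 := by omega

theorem same_symm (h : Same x₁ y₁ x₂ y₂ x₁' y₁' x₂' y₂') : Same x₁' y₁' x₂' y₂' x₁ y₁ x₂ y₂ := by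
  obtain ⟨a, b, c, d, s, t, he, hs, ht, h⟩ := h
  have e1 := sq_one he
  have e2 := sq_one hs
  have e3 := sq_one ht
  have hd : (a * d - b * c) * d * ((a * d - b * c) * a) -
      -((a * d - b * c) * b) * -((a * d - b * c) * c) = a * d - b * c := by
    linear_combination (a * d - b * c) * e1
  rcases h with ⟨rfl, rfl, rfl, rfl⟩ | ⟨rfl, rfl, rfl, rfl⟩
  · refine ⟨(a * d - b * c) * d, -((a * d - b * c) * b), -((a * d - b * c) * c),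
      (a * d - b * c) * a, s, t, by rw [hd]; exact he, hs, ht, Or.inl ⟨?_, ?_, ?_, ?_⟩⟩
    · linear_combination (-(a * d - b * c) ^ 2 * x₁) * e2 - x₁ * e1
    · linear_combination (-(a * d - b * c) ^ 2 * y₁) * e3 - y₁ * e1
    · linear_combination (-(a * d - b * c) ^ 2 * x₂) * e2 - x₂ * e1
    · linear_combination (-(a * d - b * c) ^ 2 * y₂) * e3 - y₂ * e1
  · refine ⟨(a * d - b * c) * d, -((a * d - b * c) * b), -((a * d - b * c) * c),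
      (a * d - b * c) * a, t, s, by rw [hd]; exact he, ht, hs, Or.inr ⟨?_, ?_, ?_, ?_⟩⟩
    · linear_combination (-(a * d - b * c) ^ 2 * y₁) * e3 - y₁ * e1
    · linear_combination (-(a * d - b * c) ^ 2 * x₁) * e2 - x₁ * e1
    · linear_combination (-(a * d - b * c) ^ 2 * y₂) * e3 - y₂ * e1
    · linear_combination (-(a * d - b * c) ^ 2 * x₂) * e2 - x₂ * e1

theorem same_negx (h : Same (-x₁) y₁ (-x₂) y₂ x₁' y₁' x₂' y₂') :
    Same x₁ y₁ x₂ y₂ x₁' y₁' x₂' y₂' := by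
  obtain ⟨a, b, c, d, s, t, he, hs, ht, h⟩ := h
  refine ⟨a, b, c, d, -s, t, he, neg_pm hs, ht, ?_⟩
  rcases h with ⟨rfl, rfl, rfl, rfl⟩ | ⟨rfl, rfl, rfl, rfl⟩
  · exact Or.inl ⟨by ring, rfl, by ring, rfl⟩
  · exact Or.inr ⟨by ring, rfl, by ring, rfl⟩

theorem same_swap (h : Same y₁ x₁ y₂ x₂ x₁' y₁' x₂' y₂') : Same x₁ y₁ x₂ y₂ x₁' y₁' x₂' y₂' := by
  obtain ⟨a, b, c, d, s, t, he, hs, ht, h⟩ := h
  refine ⟨a, b, c, d, t, s, he, ht, hs, ?_⟩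
  rcases h with ⟨rfl, rfl, rfl, rfl⟩ | ⟨rfl, rfl, rfl, rfl⟩
  · exact Or.inr ⟨rfl, rfl, rfl, rfl⟩
  · exact Or.inl ⟨rfl, rfl, rfl, rfl⟩

/-- replacing a basis by its image under a symmetry of the square -/
def Rel (X₁ Y₁ X₂ Y₂ x₁ y₁ x₂ y₂ : ℤ) : Prop :=
  Nv X₁ Y₁ X₂ Y₂ = Nv x₁ y₁ x₂ y₂ ∧ |X₁ * Y₂ - Y₁ * X₂| = |x₁ * y₂ - y₁ * x₂| ∧
    ∀ a b c d, Same X₁ Y₁ X₂ Y₂ a b c d → Same x₁ y₁ x₂ y₂ a b c d

theorem Rel.refl : Rel x₁ y₁ x₂ y₂ x₁ y₁ x₂ y₂ := ⟨rfl, rfl, fun _ _ _ _ h => h⟩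

theorem Rel.trans {X₁ Y₁ X₂ Y₂ : ℤ} (h : Rel X₁ Y₁ X₂ Y₂ x₁ y₁ x₂ y₂)
    (h' : Rel x₁ y₁ x₂ y₂ x₁' y₁' x₂' y₂') : Rel X₁ Y₁ X₂ Y₂ x₁' y₁' x₂' y₂' :=
  ⟨h.1.trans h'.1, h.2.1.trans h'.2.1, fun a b c d e => h'.2.2 a b c d (h.2.2 a b c d e)⟩

theorem rel_negx : Rel (-x₁) y₁ (-x₂) y₂ x₁ y₁ x₂ y₂ := by
  refine ⟨funext fun w => ?_, ?_, fun _ _ _ _ => same_negx⟩
  · unfold Nv
    rw [← abs_neg (w.1 * x₁ + w.2 * x₂)]
    congr 2
    ring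
  · rw [← abs_neg]
    congr 1
    ring

theorem rel_swap : Rel y₁ x₁ y₂ x₂ x₁ y₁ x₂ y₂ := by
  refine ⟨funext fun w => max_comm _ _, ?_, fun _ _ _ _ => same_swap⟩
  rw [← abs_neg]
  congr 1
  ring

theorem rel_negy : Rel x₁ (-y₁) x₂ (-y₂) x₁ y₁ x₂ y₂ := rel_swap.trans (rel_negx.trans rel_swap)

theorem normal (h : Nm (Nv x₁ y₁ x₂ y₂)) : ∃ X₁ Y₁ X₂ Y₂ : ℤ,
    0 < X₁ ∧ 0 ≤ Y₁ ∧ Y₁ ≤ X₁ ∧ Rel X₁ Y₁ X₂ Y₂ x₁ y₁ x₂ y₂ := by
  have h0 : 0 < Nv x₁ y₁ x₂ y₂ (1, 0) := f_pos h (by simp)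
  simp only [Nv, one_mul, zero_mul, add_zero] at h0
  have s1 : ∃ X₂, Rel |x₁| y₁ X₂ y₂ x₁ y₁ x₂ y₂ := by
    rcases abs_cases x₁ with a | a <;> rw [a.1]
    · exact ⟨_, Rel.refl⟩
    · exact ⟨_, rel_negx⟩
  obtain ⟨X₂, s1⟩ := s1
  have s2 : ∃ Y₂, Rel |x₁| |y₁| X₂ Y₂ x₁ y₁ x₂ y₂ := by
    rcases abs_cases y₁ with a | a <;> rw [a.1]
    · exact ⟨_, s1⟩
    · exact ⟨_, rel_negy.trans s1⟩
  obtain ⟨Y₂, s2⟩ := s2
  have n1 := abs_nonneg x₁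
  have n2 := abs_nonneg y₁
  rcases le_total |y₁| |x₁| with e | e
  · exact ⟨_, _, _, _, by omega, n2, e, s2⟩
  · exact ⟨_, _, _, _, by omega, n1, e, rel_swap.trans s2⟩

end PrimI

open PrimI

theorem prim : S_Prim := by
  intro f g hf hg h t
  change PN f t = PN g t
  rcases le_or_gt t 0 with ht | ht
  · rw [PN_nonpos hf ht, PN_nonpos hg ht]
  obtain ⟨n, rfl⟩ := Int.eq_ofNat_of_zero_le ht.le
  have hn : 0 < n := by exact_mod_cast ht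
  clear ht
  induction n using Nat.strong_induction_on with
  | _ n ih =>
    have e := h n
    rw [count hf hn, count hg hn, Finset.sum_congr rfl fun e he =>
      ih e (Nat.mem_properDivisors.mp he).2 (Nat.pos_of_mem_properDivisors he)] at e
    omega

theorem zero0 (hR : S_Root) : S_Zero := by
  intro x₁ x₂ y₂ x₁' x₂' y₂' hf hg hP hx hx'
  obtain ⟨a1, a2, a3⟩ := red hf hx
  obtain ⟨b1, b2, b3⟩ := red hg hx'
  obtain ⟨c1, c2, -⟩ := hR _ _ hf hg hP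
  rw [a1, b1] at c1
  rw [a2, b2] at c2
  subst c1
  obtain ⟨m, m1, m2, m3⟩ := least x₂ |y₂| (abs_nonneg _) hx
  obtain ⟨m', n1, n2, n3⟩ := least x₂' |y₂'| (abs_nonneg _) hx
  have e := le_antisymm (not_lt_least hf hP hx a3 c2 m1 n2 n3)
    (not_lt_least hg (fun t => (hP t).symm) hx b3 c2.symm n1 m2 m3)
  rcases abs_eq_abs.mp e with e1 | e1 <;> rcases abs_eq_abs.mp c2.symm with e2 | e2
  · exact ⟨1, 0, m - m', 1, 1, 1, by simp, by simp, by simp,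
      Or.inl ⟨by ring, by ring, by linarith, by linarith⟩⟩
  · exact ⟨1, 0, m - m', 1, 1, -1, by simp, by simp, by simp,
      Or.inl ⟨by ring, by ring, by linarith, by linarith⟩⟩
  · exact ⟨1, 0, -m - m', -1, 1, -1, by simp, by simp, by simp,
      Or.inl ⟨by ring, by ring, by linarith, by linarith⟩⟩
  · exact ⟨1, 0, -m - m', -1, 1, 1, by simp, by simp, by simp,
      Or.inl ⟨by ring, by ring, by linarith, by linarith⟩⟩

theorem core0 (hT : S_Tree) (hZ : S_Zero) : S_Core := by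
  have k1 : ∀ x₁ y₁ x₂ y₂ x₁' y₁' x₂' y₂' : ℤ, Nm (Nv x₁ y₁ x₂ y₂) → Nm (Nv x₁' y₁' x₂' y₂') →
      PSpc (Nv x₁ y₁ x₂ y₂) (Nv x₁' y₁' x₂' y₂') →
      |x₁ * y₂ - y₁ * x₂| = |x₁' * y₂' - y₁' * x₂'| → 0 < x₁ → 0 ≤ y₁ → y₁ ≤ x₁ → 0 < x₁' →
      y₁' ≤ x₁' → y₁ ≤ y₁' → Same x₁ y₁ x₂ y₂ x₁' y₁' x₂' y₂' := by
    intro x₁ y₁ x₂ y₂ x₁' y₁' x₂' y₂' hf hg hP hd h1 h2 h3 h4 h5 h6
    rcases lt_or_ge 0 y₁' with h7 | h7
    · exact hT _ _ _ _ _ _ _ _ hf hg hP hd h1 h2 h3 h5 h6 h7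
    · obtain rfl : y₁ = 0 := by omega
      obtain rfl : y₁' = 0 := by omega
      exact hZ _ _ _ _ _ _ hf hg hP h1 h4
  intro x₁ y₁ x₂ y₂ x₁' y₁' x₂' y₂' hf hg hP hd
  obtain ⟨X₁, Y₁, X₂, Y₂, a1, a2, a3, a4, a5, a6⟩ := normal hf
  obtain ⟨X₁', Y₁', X₂', Y₂', b1, b2, b3, b4, b5, b6⟩ := normal hg
  rw [← a4] at hf hP
  rw [← b4] at hg hP
  rw [← a5, ← b5] at hd
  refine same_symm (b6 _ _ _ _ (same_symm (a6 _ _ _ _ ?_)))
  rcases le_total Y₁ Y₁' with e | e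
  · exact k1 _ _ _ _ _ _ _ _ hf hg hP hd a1 a2 a3 b1 b3 e
  · exact same_symm (k1 _ _ _ _ _ _ _ _ hg hf (fun t => (hP t).symm) hd.symm b1 b2 b3 a1 a3 e)

end Pool.Agent.P.MP_e311cd_gt
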