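import Pool.Agent.P.MP_e311cd_gt.I.St

/-! The character of a group whose second projection lies in the circle. -/

namespace Pool.Agent.P.MP_e311cd_gt

namespace PsiI

variable {Γ : Subgroup (U × U)} {m : ℕ} {ψ : U → U} {a z : U}

theorem pure_pow (h : c0 z = 0) (k : ℕ) : z ^ (2 * k) = (-1) ^ k := by
  rw [pow_mul, sq, U.mul_self_eq_neg_one.2 h]

theorem odd (h : Psi Γ m ψ) (hm : Odd m) (ha : a ∈ PL Γ) (h0 : c0 a = 0) : ψ a = 1 :=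
  ((h.pure a ha h0).resolve_right fun h1 => Nat.not_even_iff_odd.2 hm h1.2).1

theorem even (h : Psi Γ m ψ) (hm : Even m) (ha : a ∈ PL Γ) (h0 : c0 a = 0) : ψ a = -1 :=
  ((h.pure a ha h0).resolve_left fun h1 => Nat.not_odd_iff_even.2 hm h1.2).1

theorem np (h : Psi Γ m ψ) (hm : Odd m) (h1 : ∀ a ∈ PL Γ, ψ a = 1) : NP (PL Γ) m Γ :=
  ⟨hm, fun a b => (h.mem a b).trans (and_congr_right fun ha => by rw [h1 a ha])⟩

end PsiI

open PsiI in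
theorem psi : S_Psi := by
  classical
  rintro Γ hΓ hc ⟨a₀, ha₀, h₀⟩
  have := hΓ.fin
  have : Finite (GaR Γ) := Finite.of_injective (fun b : GaR Γ => (⟨(1, b.1), b.2⟩ : Γ))
    fun b b' e => Subtype.ext (congrArg (fun p : Γ => p.1.2) e)
  obtain ⟨r, hr⟩ : ∃ r, r = Nat.card (GaR Γ) := ⟨_, rfl⟩
  have r0 : 0 < r := hr ▸ Nat.card_pos
  have key : ∀ a b b', (a, b) ∈ Γ → ((a, b') ∈ Γ ↔ Circ b' ∧ b' ^ r = b ^ r) := fun a b b' h => by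
    have h1 : (a, b') ∈ Γ ↔ b⁻¹ * b' ∈ GaR Γ := by
      rw [mem_GaR, ← Γ.mul_mem_cancel_left h (y := (1, b⁻¹ * b'))]; simp
    have h2 := hc a b h
    rw [h1, mem_iff_root fun b hb => hc 1 b hb, ← hr]
    constructor
    · rintro ⟨h3, h4⟩
      have h5 : Circ b' := by simpa using h2.mul h3
      rw [(h2.inv.comm h5).mul_pow, inv_pow, inv_mul_eq_one] at h4
      exact ⟨h5, h4.symm⟩
    · rintro ⟨h3, h4⟩
      exact ⟨h2.inv.mul h3, by rw [(h2.inv.comm h3).mul_pow, inv_pow, h4, inv_mul_cancel]⟩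
  obtain ⟨ψ, hψ⟩ : ∃ ψ : U → U, ∀ a b, (a, b) ∈ Γ → ψ a = b ^ r :=
    ⟨fun a => if h : ∃ b, (a, b) ∈ Γ then h.choose ^ r else 1, fun a b h => by
      have h1 : ∃ b, (a, b) ∈ Γ := ⟨b, h⟩
      simp only [dif_pos h1]
      exact ((key a b _ h).1 h1.choose_spec).2⟩
  have circ : ∀ a ∈ PL Γ, Circ (ψ a) := fun a ha => by
    obtain ⟨b, h⟩ := mem_PL.1 ha
    rw [hψ a b h]; exact (hc a b h).pow r
  have mul : ∀ a ∈ PL Γ, ∀ a' ∈ PL Γ, ψ (a * a') = ψ a * ψ a' := fun a ha a' ha' => by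
    obtain ⟨b, h⟩ := mem_PL.1 ha
    obtain ⟨b', h'⟩ := mem_PL.1 ha'
    rw [hψ a b h, hψ a' b' h', hψ _ _ (Γ.mul_mem h h'), ((hc a b h).comm (hc a' b' h')).mul_pow]
  have mem : ∀ a b, (a, b) ∈ Γ ↔ a ∈ PL Γ ∧ Circ b ∧ b ^ r = ψ a := fun a b =>
    ⟨fun h => ⟨mem_PL.2 ⟨b, h⟩, hc a b h, (hψ a b h).symm⟩, fun ⟨ha, h1, h2⟩ => by
      obtain ⟨b', h⟩ := mem_PL.1 ha
      exact (key a b' b h).2 ⟨h1, h2.trans (hψ a b' h)⟩⟩
  have sq : ∀ a ∈ PL Γ, c0 a = 0 → ψ a * ψ a = (-1) ^ r := fun a ha h => by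
    rw [← mul a ha a ha, U.mul_self_eq_neg_one.2 h, hψ _ _ hΓ.neg]
  have ne : ∀ a ∈ PL Γ, c0 a = 0 → ∀ b, Circ b → c0 b = 0 → b ^ r ≠ ψ a := fun a ha h b h1 h2 h3 => by
    have h4 := U.re_sq_eq_one.2 (hΓ.free a b ((mem a b).2 ⟨ha, h1, h3⟩) (h.trans h2.symm)).2
    rw [h] at h4
    norm_num at h4
  rcases Nat.even_or_odd' r with ⟨m, rfl | rfl⟩
  · refine ⟨m, ψ, by omega, circ, mul, by rw [hψ _ _ hΓ.neg, pow_mul, neg_one_sq, one_pow], mem,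
      fun a ha h => ?_⟩
    have h1 := sq a ha h
    have h2 := ne a ha h qi circ_qi rfl
    rw [pow_mul, neg_one_sq, one_pow, U.mul_self_eq_one] at h1
    rw [pure_pow rfl] at h2
    rcases Nat.even_or_odd m with h3 | h3
    · rw [h3.neg_one_pow] at h2
      exact Or.inr ⟨h1.resolve_left h2.symm, h3⟩
    · rw [h3.neg_one_pow] at h2
      exact Or.inl ⟨h1.resolve_right h2.symm, h3⟩
  exfalso
  have h1 := sq a₀ ha₀ h₀
  rw [(odd_two_mul_add_one m).neg_one_pow, U.mul_self_eq_neg_one] at h1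
  rcases Nat.even_or_odd m with h3 | h3
  · exact ne a₀ ha₀ h₀ _ (circ _ ha₀) h1 (by rw [pow_succ, pure_pow h1, h3.neg_one_pow, one_mul])
  · have h4 : c0 (-ψ a₀).1 = 0 := by simp [h1]
    exact ne a₀ ha₀ h₀ _ (circ _ ha₀).neg h4
      (by rw [pow_succ, pure_pow h4, h3.neg_one_pow, neg_mul_neg, one_mul])

open PsiI in
theorem nfD : S_NFD := by
  intro Γ m ψ n _ h hn hS
  have mem : ∀ a, a ∈ PL Γ ↔ a ∈ SD n := fun a => Set.ext_iff.1 hS a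
  have j1 : qj * qj = -1 := U.mul_self_eq_neg_one.2 rfl
  have j2 : qj ∈ PL Γ := (mem _).2 (Or.inr (by
    rw [j1, pow_mul, neg_one_sq, one_pow]; exact ⟨Circ.one.neg, rfl⟩))
  have c : ∀ z, Circ z → z ^ (2 * n) = 1 → ψ z = 1 := fun z h1 h2 => by
    have h3 : z * qj⁻¹ ∈ PL Γ := (PL Γ).mul_mem ((mem _).2 (Or.inl ⟨h1, h2⟩)) ((PL Γ).inv_mem j2)
    have h4 : c0 (z * qj⁻¹).1 = 0 := (circ_mul_qj.1 (by rwa [inv_mul_cancel_right])).1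
    rw [← inv_mul_cancel_right z qj, h.mul _ h3 _ j2]
    rcases Nat.even_or_odd m with h5 | h5
    · rw [even h h5 h3 h4, even h h5 j2 rfl, neg_mul_neg, one_mul]
    · rw [odd h h5 h3 h4, odd h h5 j2 rfl, one_mul]
  rcases Nat.even_or_odd m with h1 | h1
  · have h2 : Odd n := Nat.not_even_iff_odd.1 fun h2 => by
      have h3 : qi ^ (2 * n) = 1 := by rw [pure_pow rfl, h2.neg_one_pow]
      exact U.neg_ne 1 ((even h h1 ((mem _).2 (Or.inl ⟨circ_qi, h3⟩)) rfl).symm.trans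
        (c _ circ_qi h3))
    refine Or.inr ⟨by obtain ⟨k, rfl⟩ := h2; omega, h2, h1, h.pos, fun a b => (h.mem a b).trans
      ⟨fun ⟨h3, h4, h5⟩ => ⟨h4, ((mem a).1 h3).imp (fun h6 => ⟨h6.1, h6.2, h5.trans (c a h6.1 h6.2)⟩)
        fun h6 => ⟨h6.1, h6.2, h5.trans (even h h1 h3 (circ_mul_qj.1 h6.1).1)⟩⟩, ?_⟩⟩
    rintro ⟨h3, ⟨h4, h5, h6⟩ | ⟨h4, h5, h6⟩⟩
    · exact ⟨(mem a).2 (Or.inl ⟨h4, h5⟩), h3, h6.trans (c a h4 h5).symm⟩
    · exact ⟨(mem a).2 (Or.inr ⟨h4, h5⟩), h3,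
        h6.trans (even h h1 ((mem a).2 (Or.inr ⟨h4, h5⟩)) (circ_mul_qj.1 h4).1).symm⟩
  · exact Or.inl ⟨hn, hS ▸ np h h1 fun a ha => ((mem a).1 ha).elim (fun h2 => c a h2.1 h2.2)
      fun h2 => odd h h1 ha (circ_mul_qj.1 h2.1).1⟩

open PsiI in
theorem nfR : S_NFR := by
  intro Γ m ψ h hi hj hR
  have h1 : Odd m := Nat.not_even_iff_odd.1 fun h1 => by
    have h2 := h.mul _ hi _ hj
    rw [even h h1 ((PL Γ).mul_mem hi hj) (by simp), even h h1 hi rfl, even h h1 hj rfl,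
      neg_mul_neg, one_mul] at h2
    exact U.neg_ne 1 h2
  refine np h h1 fun a ha => ?_
  obtain ⟨c, hc, h2, h3⟩ := hR a ha
  have h4 := h.mul _ ha _ hc
  rw [odd h h1 ((PL Γ).mul_mem ha hc) h3, odd h h1 hc h2, mul_one] at h4
  exact h4.symm

end Pool.Agent.P.MP_e311cd_gt
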