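import Pool.Agent.P.MP_e311cd_gt.I.St

/-! Eigenfunctions on `K` and on its cover by the unit quaternions. -/

namespace Pool.Agent.P.MP_e311cd_gt

open Set NormedSpace

noncomputable section

namespace PullI

section One

variable {G : Type} [Group G] (π : U →* G)

theorem XD_comp (i : Fin 3) (f : G → ℂ) :
    XD eq3 i (f ∘ π) = XD (fun i t => π (eq3 i t)) i f ∘ π := by
  funext x
  simp [XD, map_mul]

theorem Lap_comp (f : G → ℂ) : Lap eq3 (f ∘ π) = Lap (fun i t => π (eq3 i t)) f ∘ π := by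
  funext x
  simp [Lap, XD_comp]

variable {π}

theorem inv_iff (hs : Function.Surjective π) {Γ : Subgroup (Equiv.Perm G)}
    (hΓ : ∀ g ∈ Γ, ∃ p, g = Phi π p) (f : G → ℂ) :
    f ∘ π ∈ InvU (Γ.comap (Phi π)) ↔ f ∈ Inv Γ := by
  rw [mem_InvU, mem_Inv]
  constructor
  · intro h g hg x
    obtain ⟨p, rfl⟩ := hΓ g hg
    obtain ⟨y, rfl⟩ := hs x
    have h1 := congrFun (h p⁻¹ (inv_mem (Subgroup.mem_comap.2 hg))) y
    simpa [act_apply, Phi_apply] using h1
  · intro h p hp
    funext y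
    have h1 := h _ (Subgroup.mem_comap.1 (inv_mem hp)) (π y)
    rw [Phi_apply] at h1
    simpa [act_apply] using h1

theorem descend (hs : Function.Surjective π) {Γ : Subgroup (Equiv.Perm G)} {F : U → ℂ}
    (hF : F ∈ InvU (Γ.comap (Phi π))) : ∃ f : G → ℂ, f ∘ π = F := by
  refine ⟨F ∘ Function.surjInv hs, funext fun a => ?_⟩
  have h1 : π (Function.surjInv hs (π a)) = π a := Function.surjInv_eq hs _
  have h2 : Phi π (a * (Function.surjInv hs (π a))⁻¹, 1) = 1 := by
    ext x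
    simp [Phi_apply, h1]
  have h3 := congrFun (hF (a * (Function.surjInv hs (π a))⁻¹, 1)
    (Subgroup.mem_comap.2 (h2 ▸ one_mem Γ))) a
  simpa [act_apply] using h3

variable [TopologicalSpace G] [T2Space G]

theorem cont_iff (hc : Continuous π) (hs : Function.Surjective π) (f : G → ℂ) :
    Continuous (f ∘ π) ↔ Continuous f :=
  (hc.isClosedMap.isQuotientMap hc hs).continuous_iff.symm

theorem D1_iff (hc : Continuous π) (hs : Function.Surjective π) (f : G → ℂ) :
    D1 eq3 (f ∘ π) ↔ D1 (fun i t => π (eq3 i t)) f := by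
  unfold D1
  rw [cont_iff hc hs]
  refine and_congr_right fun _ => forall_congr' fun i => ?_
  rw [hs.forall]
  simp [map_mul]

theorem WE_iff (hc : Continuous π) (hs : Function.Surjective π) (μ : ℝ) (f : G → ℂ) :
    f ∘ π ∈ WE eq3 μ ↔ f ∈ WE (fun i t => π (eq3 i t)) μ := by
  rw [mem_WE, mem_WE, Lap_comp]
  unfold C2
  simp only [XD_comp, D1_iff hc hs, cont_iff hc hs]
  exact and_congr_right fun _ => (hs.injective_comp_right.eq_iff (b := (μ : ℂ) • f))

end One

variable {n : ℕ} (K : Subgroup (Matrix.unitaryGroup (Fin n) ℂ))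

/-- restriction of real linear functions to `K` -/
def res : (Mat n →ₗ[ℝ] ℂ) →ₗ[ℂ] (K → ℂ) where
  toFun l x := l (mat x)
  map_add' _ _ := rfl
  map_smul' _ _ := rfl

/-- restrictions of smooth functions to `K` -/
def Sm : Submodule ℂ (K → ℂ) where
  carrier := {f | ∃ F : Mat n → ℂ, ContDiff ℝ (⊤ : ℕ∞) F ∧ ∀ x, f x = F (mat x)}
  zero_mem' := ⟨fun _ => 0, contDiff_const, fun _ => rfl⟩
  add_mem' := by
    rintro f g ⟨F, hF, h⟩ ⟨F', hF', h'⟩
    exact ⟨fun X => F X + F' X, hF.add hF', fun x => by simp [h, h']⟩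
  smul_mem' := by
    rintro c f ⟨F, hF, h⟩
    exact ⟨fun X => c * F X, contDiff_const.mul hF, fun x => by simp [h]⟩

theorem pow_le (d : ℕ) : LinearMap.range (res K) ^ d ≤ Sm K := by
  induction d with
  | zero =>
    rw [pow_zero, Submodule.one_le]
    exact ⟨fun _ => 1, contDiff_const, fun _ => rfl⟩
  | succ d ih =>
    rw [pow_succ, Submodule.mul_le]
    rintro f hf _ ⟨l, rfl⟩
    obtain ⟨F, hF, h⟩ := ih hf
    exact ⟨fun X => F X * l X, hF.mul l.toContinuousLinearMap.contDiff, fun x => by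
      simp [h, res]⟩

variable {K}

theorem stab {k : Submodule ℝ (Mat n)} {π : U →* K} {ρ : H →ₗ[ℝ] Mat n} {c : ℝ}
    (h : Cov k π ρ c) : Stab (fun i t => π (eq3 i t)) (LinearMap.range (res K)) := by
  rintro _ ⟨l, rfl⟩
  have hd : ∀ (i : Fin 3) (x : K), HasDerivAt (fun s : ℝ => res K l (x * π (eq3 i s)))
      (l (mat x * ρ (bq i))) 0 := by
    intro i x
    have h1 := (hasDerivAt_exp_smul_const (𝕂 := ℝ) (ρ (bq i)) 0).const_mul (mat x)
    have h2 := l.toContinuousLinearMap.hasFDerivAt.comp_hasDerivAt 0 h1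
    simp only [zero_smul, exp_zero, one_mul] at h2
    refine h2.congr_of_eventuallyEq (Filter.Eventually.of_forall fun s => ?_)
    show l (mat (x * π (eU _))) = l (mat x * exp (s • ρ (bq i)))
    rw [mat_mul, h.map_exp, map_smul]
  have hm : Continuous (mat : K → Mat n) := continuous_subtype_val.comp continuous_subtype_val
  refine ⟨⟨l.toContinuousLinearMap.continuous.comp hm, fun i x => (hd i x).differentiableAt⟩,
    fun i => ⟨l ∘ₗ LinearMap.mulRight ℝ (ρ (bq i)), funext fun x => (XD_eq (hd i x)).symm⟩⟩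

end PullI

open PullI in
theorem pull1 : S_Pull1 := by
  intro G _ _ _ π hc hs Γ hΓ μ
  have hi : Function.Injective (LinearMap.funLeft ℂ ℂ π) := hs.injective_comp_right
  refine ⟨(Submodule.equivMapOfInjective _ hi _).trans (LinearEquiv.ofEq _ _ ?_)⟩
  ext F
  constructor
  · rintro ⟨f, ⟨h1, h2⟩, rfl⟩
    exact ⟨(WE_iff hc hs μ f).2 h1, (inv_iff hs hΓ f).2 h2⟩
  · rintro ⟨h1, h2⟩
    obtain ⟨f, rfl⟩ := descend hs h2
    exact ⟨f, ⟨(WE_iff hc hs μ f).1 h1, (inv_iff hs hΓ f).1 h2⟩, rfl⟩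

open PullI in
theorem pull2 (hC : S_Comp) (hO : S_Onb) : S_Pull2 := by
  intro n K k _ π ρ c h μ hfin Γ
  have hc : (c : ℂ) ≠ 0 := Complex.ofReal_ne_zero.2 h.pos.ne'
  refine le_antisymm (Submodule.span_le.2 ?_) ?_
  · rintro f ⟨⟨F, hF, h1, h2⟩, h3⟩
    obtain rfl : f = fun x => F (mat x) := funext h1
    obtain ⟨a1, a2, a3⟩ := hO n K k π ρ c h F hF
    refine ⟨⟨a1, funext fun x => ?_⟩, h3⟩
    rw [← a3 3 _ a2 x]
    refine (congrArg (fun z => (c ^ 2 : ℂ) * z) (h2 3 _ a2 x)).trans ?_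
    simp only [Pi.smul_apply, smul_eq_mul]
    push_cast
    field_simp
  · rintro f ⟨h1, h2⟩
    have : CompactSpace K := ⟨h.surj.range_eq ▸ isCompact_range h.cont⟩
    have he : OP (fun i t => π (eq3 i t)) :=
      ⟨fun i => h.cont.comp (op_eq3.cont i), fun i s t => by rw [op_eq3.add, map_mul]⟩
    have h3 := hC K _ he (LinearMap.range (res K))
      (Module.Finite.iff_fg.1 inferInstance) (stab h)
      (by
        rintro _ ⟨l, rfl⟩
        exact ⟨Complex.conjAe.toLinearMap ∘ₗ l, rfl⟩)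
      (fun x y hxy => mat_inj (Matrix.ext fun i j =>
        hxy _ ⟨Matrix.entryLinearMap ℝ ℂ i j, rfl⟩))
      μ inferInstance h1
    obtain ⟨F, hF, h4⟩ := iSup_le (pow_le K) h3
    obtain rfl : f = fun x => F (mat x) := funext h4
    refine Submodule.subset_span ⟨⟨F, hF, h4, fun m X hX x => ?_⟩, h2⟩
    have h5 := ((hO n K k π ρ c h F hF).2.2 m X hX x).trans (congrFun h1.2 x)
    refine mul_left_cancel₀ (pow_ne_zero 2 hc) (h5.trans ?_)
    simp only [Pi.smul_apply, smul_eq_mul]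
    push_cast
    field_simp

end

end Pool.Agent.P.MP_e311cd_gt
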