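import Pool.Agent.P.MP_e311cd_gt.I.St
import Pool.Agent.P.MP_e311cd_gt.Final

/-! The Lie algebra in dimension three, and descent of conjugacies. -/

namespace Pool.Agent.P.MP_e311cd_gt

open scoped RealInnerProductSpace

namespace RhoI

theorem tr {A : Type} [HS A] {k : Submodule ℝ A} (sa : SA k) : ∃ h E F, Tr k h E F := by
  obtain ⟨t, ma⟩ := PairP.exists_MA k
  obtain ⟨H₀, hH₀, X, hX, hne⟩ : ∃ H ∈ t, ∃ X ∈ k, br H X ≠ 0 := by
    by_contra hc
    push Not at hc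
    obtain ⟨X, hX, Y, hY, hne⟩ := sa.nonab
    exact hne (hc X (ma.max X hX fun H hH => hc H hH X hX) Y hY)
  obtain ⟨E, hE, F, hF, a, hw, hi⟩ := je A t k (fun H hH => sa.skew (ma.le hH)) ma.comm
    (fun H hH X hX => sa.br_mem (ma.le hH) hX) _ (sa.br_mem (ma.le hH₀) hX) 0 k.zero_mem (Or.inl hne)
  rw [inner_zero_right, add_zero] at hi
  obtain ⟨h, -, E', F', t₁, -⟩ := PairP.tri sa ma hE hF hw (by rintro rfl; simp at hi) hH₀
    fun h0 => hi (by
      rw [real_inner_comm, (sa.skew (ma.le hH₀)).inner_br, (hw H₀ hH₀).1, h0]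
      simp)
  exact ⟨h, E', F', t₁⟩

variable {n : ℕ} {K : Subgroup (Matrix.unitaryGroup (Fin n) ℂ)}

theorem iso {π : U →* K} {Γ₁ Γ₂ : Subgroup (Equiv.Perm K)} (h₁ : ∀ g ∈ Γ₁, ∃ p, g = Phi π p)
    (h₂ : ∀ g ∈ Γ₂, ∃ p, g = Phi π p) (φ : Equiv.Perm K)
    (hφ : ∀ x y, gdist (φ x) (φ y) = gdist x y) {τ : U × U → U × U} (hτ : Function.Surjective τ)
    (h : ∀ p, Phi π p ∈ Γ₁ ↔ Phi π (τ p) ∈ Γ₂) (e : ∀ p x, φ (Phi π p x) = Phi π (τ p) (φ x)) :
    Isometric Γ₁ Γ₂ := by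
  let ψ : Quo Γ₁ ≃ Quo Γ₂ := Quotient.congr φ fun x y => by
    rw [← Quotient.eq'', ← Quotient.eq'', QuoP.mk_eq, QuoP.mk_eq]
    constructor
    · rintro ⟨g, hg, rfl⟩
      obtain ⟨p, rfl⟩ := h₁ g hg
      exact ⟨_, (h p).1 hg, e p y⟩
    · rintro ⟨g, hg, e'⟩
      obtain ⟨p, rfl⟩ := h₂ g hg
      obtain ⟨p, rfl⟩ := hτ p
      exact ⟨_, (h p).2 hg, φ.injective (e'.trans (e p y).symm)⟩
  have hψ : ∀ x p, (Quotient.mk'' (φ x) : Quo Γ₂) = ψ p ↔ Quotient.mk'' x = p := fun x p =>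
    ψ.injective.eq_iff (a := Quotient.mk'' x)
  refine ⟨ψ, fun p q => ?_⟩
  rw [qdist, ← φ.iInf_comp]
  refine iInf_congr fun x => ?_
  rw [← φ.iInf_comp]
  simp only [hψ, hφ]

end RhoI

theorem rho : S_Rho := by
  intro A _ k sa hd
  obtain ⟨h, E, F, t⟩ := RhoI.tr sa
  have b1 : br h E = (2 : ℝ) • F := t.wp.1
  have b2 : br h F = -((2 : ℝ) • E) := t.wp.2
  have b3 := t.EF
  have i1 := (sa.skew t.Fm).inner_br_self E
  have i2 := (sa.skew t.Em).inner_br_self F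
  have i3 := (sa.skew t.hm).inner_br_self E
  have i4 := (sa.skew t.hm).inner_br E F
  have i5 := (sa.skew t.Em).inner_br F h
  rw [br_comm, b3, inner_neg_left, real_inner_smul_left] at i1
  rw [b3, real_inner_smul_left] at i2
  rw [b1, real_inner_smul_left] at i3
  rw [b1, b2, real_inner_smul_left, inner_neg_right, real_inner_smul_right] at i4
  rw [b3, br_comm, b1, real_inner_smul_left, inner_neg_right, real_inner_smul_right,
    real_inner_self_eq_norm_sq] at i5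
  have j1 : ⟪h, E⟫ = 0 := by linarith
  have j2 : ⟪h, F⟫ = 0 := by linarith
  have j3 : ⟪F, E⟫ = 0 := by linarith
  have j4 : ⟪F, F⟫ = ‖h‖ ^ 2 := by linarith
  have j5 : ⟪E, E⟫ = ‖h‖ ^ 2 := by linarith
  let ρ : H →ₗ[ℝ] A :=
    { toFun := fun v => c1 v • h + c2 v • E + c3 v • F
      map_add' := fun v w => by simp only [c1_add, c2_add, c3_add]; module
      map_smul' := fun r v => by simp only [c1_smul, c2_smul, c3_smul, RingHom.id_apply]; module }
  have hρ : ∀ v, ρ v = c1 v • h + c2 v • E + c3 v • F := fun _ => rfl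
  have pos : 0 < ‖h‖ := norm_pos_iff.2 t.ne
  have mem : ∀ v, ρ v ∈ k := fun v =>
    k.add_mem (k.add_mem (k.smul_mem _ t.hm) (k.smul_mem _ t.Em)) (k.smul_mem _ t.Fm)
  have inner : ∀ v w, ⟪ρ v, ρ w⟫ = ‖h‖ ^ 2 * (c1 v * c1 w + c2 v * c2 w + c3 v * c3 w) := fun v w => by
    simp only [hρ, inner_add_left, inner_add_right, real_inner_smul_left, real_inner_smul_right,
      real_inner_comm h E, real_inner_comm h F, real_inner_comm F E, j1, j2, j3, j4, j5,
      real_inner_self_eq_norm_sq h]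
    ring
  refine ⟨ρ, ‖h‖, pos, by simp [hρ], mem, fun X hX => ?_, inner, fun v w => ?_⟩
  · have h1 : LinearMap.ker ρ ≤ ℝ ∙ (1 : H) := fun v hv => by
      have h2 := inner v v
      rw [LinearMap.mem_ker.1 hv, inner_zero_left, eq_comm, mul_eq_zero,
        or_iff_right (by positivity)] at h2
      refine Submodule.mem_span_singleton.2 ⟨c0 v, H.ext ?_ ?_ ?_ ?_⟩ <;> simp <;>
        nlinarith [mul_self_nonneg (c1 v), mul_self_nonneg (c2 v), mul_self_nonneg (c3 v)]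
    have h2 := Submodule.finrank_mono h1
    have h3 := ρ.finrank_range_add_finrank_ker
    rw [finrank_span_singleton one_ne_zero] at h2
    rw [Quaternion.finrank_eq_four] at h3
    have h4 : LinearMap.range ρ = k :=
      Submodule.eq_of_le_of_finrank_le (by rintro _ ⟨v, rfl⟩; exact mem v) (by omega)
    rw [← h4] at hX
    exact hX
  · simp only [hρ, br_add_left, br_add_right, br_smul_left, br_smul_right, br_self, br_comm E h,
      br_comm F h, br_comm F E, b1, b2, b3, c1_sub, c2_sub, c3_sub, c1_mul, c2_mul, c3_mul]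
    module

theorem desc (hL : S_Loc) : S_Desc := by
  intro n K k hK π Γ₁ Γ₂ h₁ h₂ ⟨c, d, h⟩
  have e : ∀ a b x y : K, gdist (a * x * b) (a * y * b) = gdist x y := fun a b x y => by
    simp only [gdist_eq, mat_mul]
    exact (hDist _ _ k hK.cg).1 _ (mat_mem a) _ (mat_mem b) _ _
  rcases h with h | h
  · exact RhoI.iso h₁ h₂ (Phi π (c, d)) (fun x y => e _ _ x y)
      (τ := fun p => (c * p.1 * c⁻¹, d * p.2 * d⁻¹))
      (fun p => ⟨(c⁻¹ * p.1 * c, d⁻¹ * p.2 * d), by simp [mul_assoc]⟩) (fun p => h p.1 p.2)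
      fun p x => by simp [Phi_apply, mul_assoc]
  · exact RhoI.iso h₁ h₂ ((Equiv.inv K).trans (Phi π (d, c))) (fun x y => (e _ _ x⁻¹ y⁻¹).trans (by
        simp only [gdist_eq, mat_inv]; exact (hL _ _ k hK.cg hK.sa).1 _ _))
      (τ := fun p => (d * p.2 * d⁻¹, c * p.1 * c⁻¹))
      (fun p => ⟨(c⁻¹ * p.2 * c, d⁻¹ * p.1 * d), by simp [mul_assoc]⟩) (fun p => h p.1 p.2)
      fun p x => by simp [Phi_apply, mul_assoc]

end Pool.Agent.P.MP_e311cd_gt
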