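import Pool.Agent.P.MP_e311cd_gt.I.St

/-! Walking down the Farey tessellation. -/

namespace Pool.Agent.P.MP_e311cd_gt

namespace StepI

variable {f g : ℤ × ℤ → ℤ} {e : Edge} {t : ℤ}

theorem neg (h : Nm f) (v : ℤ × ℤ) : f (-v) = f v := by simpa using h.smul (-1) v

theorem nonneg (h : Nm f) (v : ℤ × ℤ) : 0 ≤ f v := by
  have h1 := h.add v (-v)
  have h2 := h.smul 0 v
  rw [add_neg_cancel, neg h] at h1
  rw [zero_smul, abs_zero, zero_mul] at h2
  omega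

theorem climb' (h : Nm f) {p q : ℤ × ℤ} (hq : f q ≤ f (p + q)) {m n : ℤ} (hn : 0 < n)
    (hm : n ≤ m) : f (p + q) ≤ f (m • p + n • q) := by
  have h1 := h.add (m • p + n • q) ((m - n) • q)
  rw [show m • p + n • q + (m - n) • q = m • (p + q) by module, h.smul, h.smul,
    abs_of_nonneg (by omega), abs_of_nonneg (by omega)] at h1
  nlinarith [nonneg h (p + q)]

theorem climb (h : Nm f) (he : Up f e) {m n : ℤ} (hm : 0 < m) (hn : 0 < n) :
    f (e.1 + e.2) ≤ f (m • e.1 + n • e.2) := by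
  rcases le_total n m with h1 | h1
  · exact climb' h he.2.2 hn h1
  · rw [add_comm, add_comm (m • _)]
    exact climb' h (by rw [add_comm]; exact he.2.1) hm h1

theorem up1 (h : Nm f) (he : Up f e) : Up f (e.1, e.1 + e.2) := by
  have h1 := climb h he two_pos one_pos
  rw [two_smul, one_smul, add_assoc] at h1
  exact ⟨by simp only [Prod.fst_add, Prod.snd_add]; linear_combination he.1, he.2.1.trans h1, h1⟩

theorem up2 (h : Nm f) (he : Up f e) : Up f (e.1 + e.2, e.2) := by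
  have h1 := climb h he one_pos two_pos
  rw [two_smul, one_smul, ← add_assoc] at h1
  exact ⟨by simp only [Prod.fst_add, Prod.snd_add]; linear_combination he.1, h1, he.2.2.trans h1⟩

theorem fin (h : Nm f) (he : Up f e) (t : ℤ) : {w : ℤ × ℤ | 0 < w.1 ∧ 0 < w.2 ∧
    IsCoprime w.1 w.2 ∧ f (w.1 • e.1 + w.2 • e.2) = t}.Finite := by
  refine ((h.fin t).preimage (f := fun w : ℤ × ℤ => w.1 • e.1 + w.2 • e.2)
    fun a _ b _ hab => ?_).subset fun w hw => hw.2.2.2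
  have h1 := congrArg Prod.fst hab
  have h2 := congrArg Prod.snd hab
  simp only [Prod.fst_add, Prod.snd_add, Prod.smul_fst, Prod.smul_snd, smul_eq_mul] at h1 h2
  exact Prod.ext (by linear_combination e.2.2 * h1 - e.2.1 * h2 - (a.1 - b.1) * he.1)
    (by linear_combination e.1.1 * h2 - e.1.2 * h1 - (a.2 - b.2) * he.1)

theorem cut {p : ℤ × ℤ → Prop} (h : {w | p w}.Finite) (q : ℤ × ℤ → Prop) :
    {w | p w}.ncard = {w | p w ∧ q w}.ncard + {w | p w ∧ ¬ q w}.ncard :=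
  (Set.ncard_inter_add_ncard_sdiff_eq_ncard _ {w | q w} h).symm

theorem one {p : ℤ × ℤ → Prop} (a : ℤ × ℤ) (P : Prop) [Decidable P] (h : ∀ w, p w ↔ w = a ∧ P) :
    {w | p w}.ncard = if P then 1 else 0 := by
  split_ifs with h1 <;> simp [h, h1]

theorem bij {p q : ℤ × ℤ → Prop} (φ ψ : ℤ × ℤ → ℤ × ℤ) (h1 : ∀ w, ψ (φ w) = w)
    (h2 : ∀ w, φ (ψ w) = w) (h : ∀ w, q (φ w) ↔ p w) : {w | q w}.ncard = {w | p w}.ncard :=
  (Set.ncard_congr (fun w _ => φ w) (fun w hw => (h w).2 hw)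
    (fun a b _ _ hab => by rw [← h1 a, ← h1 b]; exact congrArg ψ hab)
    fun w hw => ⟨ψ w, (h _).1 (by rw [h2]; exact hw), h2 w⟩).symm

theorem unit_pos {a : ℤ} (h : IsUnit a) (h0 : 0 < a) : a = 1 := by
  rcases Int.isUnit_iff.1 h with h | h <;> omega

theorem split (h : Nm f) (he : Up f e) (t : ℤ) : cnt f e t =
    (if f (e.1 + e.2) = t then 1 else 0) + (cnt f (e.1, e.1 + e.2) t + cnt f (e.1 + e.2, e.2) t) := by
  unfold cnt
  rw [cut (fin h he t) fun w => w.1 = w.2, cut ((fin h he t).subset fun w hw => hw.1)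
    (p := fun w => (0 < w.1 ∧ 0 < w.2 ∧ IsCoprime w.1 w.2 ∧ f (w.1 • e.1 + w.2 • e.2) = t) ∧
      ¬ w.1 = w.2) fun w => w.2 < w.1]
  refine congrArg₂ _ (one (1, 1) _ ?_) (congrArg₂ _
    (bij (fun w => (w.1 + w.2, w.2)) (fun w => (w.1 - w.2, w.2)) (by simp) (by simp) fun w => ?_)
    (bij (fun w => (w.1, w.1 + w.2)) (fun w => (w.1, w.2 - w.1)) (by simp) (by simp) fun w => ?_))
  · rintro ⟨a, b⟩
    constructor
    · rintro ⟨⟨h1, -, h2, h3⟩, rfl : a = b⟩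
      obtain rfl := unit_pos (isCoprime_self.1 h2) h1
      exact ⟨rfl, by simpa using h3⟩
    · rintro ⟨h1, h2⟩
      rw [h1]
      exact ⟨⟨one_pos, one_pos, isCoprime_one_left, by simpa using h2⟩, rfl⟩
  · rw [show w.1 • e.1 + w.2 • (e.1 + e.2) = (w.1 + w.2) • e.1 + w.2 • e.2 by module,
      ← IsCoprime.add_mul_left_left_iff (x := w.1) (y := w.2) (z := 1), mul_one]
    exact ⟨fun ⟨⟨⟨_, h1, h2⟩, _⟩, h3⟩ => ⟨by simpa using h3, h1, h2⟩, fun ⟨h1, h2, h3⟩ =>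
      ⟨⟨⟨add_pos h1 h2, h2, h3⟩, by simpa using h1.ne'⟩, by simpa using h1⟩⟩
  · rw [show w.1 • (e.1 + e.2) + w.2 • e.2 = w.1 • e.1 + (w.1 + w.2) • e.2 by module,
      ← IsCoprime.mul_add_left_right_iff (x := w.1) (y := w.2) (z := 1), mul_one]
    exact ⟨fun ⟨⟨⟨h1, _, h2⟩, h3⟩, h4⟩ => ⟨h1, by dsimp only at h3 h4; omega, h2⟩,
      fun ⟨h1, h2, h3⟩ => ⟨⟨⟨h1, add_pos h1 h2, h3⟩, by dsimp only; omega⟩, by dsimp only; omega⟩⟩

theorem cnt_zero (h : Nm f) (he : Up f e) (ht : t < f (e.1 + e.2)) : cnt f e t = 0 := by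
  rw [cnt, Set.ncard_eq_zero (fin h he t), Set.eq_empty_iff_forall_notMem]
  exact fun w hw => absurd (hw.2.2.2 ▸ climb h he hw.1 hw.2.1) (not_le.2 ht)

theorem br {P : List Edge → Edge → List Edge → Prop} {A A' B : List Edge} (h : P (A ++ A') e B) :
    Br P A (A' ++ e :: B) := by
  induction A' generalizing A with
  | nil => exact Or.inl (by simpa using h)
  | cons d A' ih => exact Or.inr (ih (by simpa using h))

theorem first (f : ℤ × ℤ → ℤ) {L : List Edge} (h : L ≠ []) :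
    ∃ A e B, L = A ++ e :: B ∧ Fst f A e B := by
  induction L with
  | nil => exact absurd rfl h
  | cons d L ih =>
    rcases eq_or_ne L [] with rfl | h1
    · exact ⟨[], d, [], rfl, by simp, by simp⟩
    obtain ⟨A, e, B, rfl, h2, h3⟩ := ih h1
    rcases lt_or_ge (f (e.1 + e.2)) (f (d.1 + d.2)) with h4 | h4
    · exact ⟨d :: A, e, B, rfl, by simpa [h4] using h2, h3⟩
    · refine ⟨[], d, _, rfl, by simp, fun c hc => h4.trans ?_⟩
      simp only [List.mem_append, List.mem_cons] at hc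
      rcases hc with hc | rfl | hc
      exacts [(h2 c hc).le, le_rfl, h3 c hc]

theorem cmp {a a' : ℤ} {r r' : ℤ → ℕ}
    (h : ∀ t, (if a = t then 1 else 0) + r t = (if a' = t then 1 else 0) + r' t)
    (h1 : ∀ t < a, r t = 0) (h2 : ∀ t < a', r' t = 0) : a = a' ∧ ∀ t, r t = r' t := by
  obtain rfl : a = a' := by
    rcases lt_trichotomy a a' with h3 | h3 | h3
    · have := h a; rw [if_pos rfl, if_neg h3.ne', h2 a h3] at this; omega
    · exact h3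
    · have := h a'; rw [if_pos rfl, if_neg h3.ne', h1 a' h3] at this; omega
  exact ⟨rfl, fun t => Nat.add_left_cancel (h t)⟩

theorem sum_zero (h : Nm f) {L : List Edge} (hL : ∀ d ∈ L, Up f d ∧ t < f (d.1 + d.2)) :
    (L.map fun e => cnt f e t).sum = 0 :=
  List.sum_eq_zero fun x hx => by
    obtain ⟨d, hd, rfl⟩ := List.mem_map.1 hx
    exact cnt_zero h (hL d hd).1 (hL d hd).2

theorem expand (h : Nm f) {A B : List Edge} (hU : ∀ d ∈ A ++ e :: B, Up f d) (hF : Fst f A e B) :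
    (∀ d ∈ A ++ (e.1, e.1 + e.2) :: (e.1 + e.2, e.2) :: B,
      Up f d ∧ f (e.1 + e.2) ≤ f (d.1 + d.2)) ∧
    ∀ t, ((A ++ e :: B).map fun e => cnt f e t).sum = (if f (e.1 + e.2) = t then 1 else 0) +
      ((A ++ (e.1, e.1 + e.2) :: (e.1 + e.2, e.2) :: B).map fun e => cnt f e t).sum := by
  have he := hU e (by simp)
  refine ⟨fun d hd => ?_, fun t => ?_⟩
  · simp only [List.mem_append, List.mem_cons] at hd hU
    rcases hd with hd | rfl | rfl | hd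
    exacts [⟨hU d (Or.inl hd), (hF.1 d hd).le⟩, ⟨up1 h he, (up1 h he).2.2⟩,
      ⟨up2 h he, (up2 h he).2.1⟩, ⟨hU d (Or.inr (Or.inr hd)), hF.2 d hd⟩]
  · simp only [List.map_append, List.map_cons, List.sum_append, List.sum_cons, split h he t]
    omega

theorem upA (h : Nm f) : Up f ((1, 0), (0, 1)) := ⟨rfl, h.r1.trans h.r2, h.r2⟩

theorem upB (h : Nm f) : Up f ((0, 1), (-1, 0)) :=
  ⟨rfl, h.r2.trans h.r3, (neg h (1, 0)).trans_le (h.r1.trans (h.r2.trans h.r3))⟩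

theorem prim (h : Nm f) (t : ℤ) : {v : ℤ × ℤ | IsCoprime v.1 v.2 ∧ f v = t}.ncard =
    2 * ((if f (1, 0) = t then 1 else 0) + ((if f (0, 1) = t then 1 else 0) +
      (cnt f ((1, 0), (0, 1)) t + cnt f ((0, 1), (-1, 0)) t))) := by
  have f0 : {v : ℤ × ℤ | IsCoprime v.1 v.2 ∧ f v = t}.Finite := (h.fin t).subset fun v hv => hv.2
  have f1 : {v : ℤ × ℤ | (IsCoprime v.1 v.2 ∧ f v = t) ∧ (0 < v.2 ∨ v.2 = 0 ∧ 0 < v.1)}.Finite :=
    f0.subset fun v hv => hv.1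
  have f2 : {v : ℤ × ℤ | ((IsCoprime v.1 v.2 ∧ f v = t) ∧ (0 < v.2 ∨ v.2 = 0 ∧ 0 < v.1)) ∧
    ¬ v.2 = 0}.Finite := f1.subset fun v hv => hv.1
  have f3 : {v : ℤ × ℤ | (((IsCoprime v.1 v.2 ∧ f v = t) ∧ (0 < v.2 ∨ v.2 = 0 ∧ 0 < v.1)) ∧
    ¬ v.2 = 0) ∧ ¬ v.1 = 0}.Finite := f2.subset fun v hv => hv.1
  rw [cut f0 fun v => 0 < v.2 ∨ v.2 = 0 ∧ 0 < v.1, bij (q := fun v => _ ∧ ¬ _)
    (p := fun v => (IsCoprime v.1 v.2 ∧ f v = t) ∧ (0 < v.2 ∨ v.2 = 0 ∧ 0 < v.1)) Neg.neg Neg.neg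
    neg_neg neg_neg, ← two_mul, cut f1 fun v => v.2 = 0, cut f2 fun v => v.1 = 0,
    cut f3 fun v => 0 < v.1]
  · refine congrArg _ (congrArg₂ _ (one (1, 0) _ ?_) (congrArg₂ _ (one (0, 1) _ ?_) (congrArg₂ _
      (bij id id (by simp) (by simp) ?_)
      (bij (fun w => (-w.2, w.1)) (fun w => (w.2, -w.1)) (by simp) (by simp) ?_))))
    · rintro ⟨a, b⟩
      constructor
      · rintro ⟨⟨⟨h1, h2⟩, h3⟩, rfl : b = 0⟩
        obtain rfl := unit_pos (isCoprime_zero_right.1 h1) (by simpa using h3)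
        exact ⟨rfl, h2⟩
      · rintro ⟨h1, h2⟩
        rw [h1]
        exact ⟨⟨⟨isCoprime_one_left, h2⟩, by simp⟩, rfl⟩
    · rintro ⟨a, b⟩
      constructor
      · rintro ⟨⟨⟨⟨h1, h2⟩, h3⟩, -⟩, rfl : a = 0⟩
        obtain rfl := unit_pos (isCoprime_zero_left.1 h1) (by simpa using h3)
        exact ⟨rfl, h2⟩
      · rintro ⟨h1, h2⟩
        rw [h1]
        exact ⟨⟨⟨⟨isCoprime_one_right, h2⟩, by simp⟩, by simp⟩, rfl⟩
    · rintro ⟨a, b⟩
      simp only [id, Prod.smul_mk, smul_eq_mul, mul_one, mul_zero, Prod.mk_add_mk, add_zero,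
        zero_add]
      exact ⟨fun ⟨⟨⟨⟨h1, h2⟩, h3⟩, _⟩, h4⟩ => ⟨h4, by omega, h1⟩,
        fun ⟨h1, h2, h3⟩ => ⟨⟨⟨⟨h3, Or.inl h2⟩, h2.ne'⟩, h1.ne'⟩, h1⟩⟩
    · rintro ⟨a, b⟩
      simp only [Prod.smul_mk, smul_eq_mul, mul_one, mul_zero, Prod.mk_add_mk, add_zero,
        zero_add, mul_neg, IsCoprime.neg_left_iff, isCoprime_comm (x := b)]
      exact ⟨fun ⟨⟨⟨⟨h1, h2⟩, h3⟩, h4⟩, h5⟩ => ⟨by omega, by omega, h1⟩,
        fun ⟨h1, h2, h3⟩ => ⟨⟨⟨⟨h3, Or.inl h1⟩, h1.ne'⟩, by omega⟩, by omega⟩⟩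
  · rintro ⟨a, b⟩
    rw [neg h]
    simp only [Prod.neg_mk, IsCoprime.neg_neg_iff]
    refine and_congr_right fun h1 => ?_
    have : a ≠ 0 ∨ b ≠ 0 := by
      by_contra h2
      rw [not_or, not_not, not_not] at h2
      exact not_isCoprime_zero_zero (by simpa [h2.1, h2.2] using h1.1)
    omega

theorem low (h : Nm f) (ht : t < f (1, 1)) : cnt f ((1, 0), (1, 1)) t + (cnt f ((1, 1), (0, 1)) t +
    cnt f ((0, 1), (-1, 0)) t) = 0 := by
  rw [cnt_zero h (e := ((1, 0), (1, 1))) (up1 h (upA h)) (ht.trans_le (up1 h (upA h)).2.2),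
    cnt_zero h (e := ((1, 1), (0, 1))) (up2 h (upA h)) (ht.trans_le (up2 h (upA h)).2.1),
    cnt_zero h (upB h) (ht.trans_le h.r3)]

theorem prim' (h : Nm f) (t : ℤ) : {v : ℤ × ℤ | IsCoprime v.1 v.2 ∧ f v = t}.ncard =
    2 * ((if f (1, 0) = t then 1 else 0) + ((if f (0, 1) = t then 1 else 0) +
      ((if f (1, 1) = t then 1 else 0) + (cnt f ((1, 0), (1, 1)) t + (cnt f ((1, 1), (0, 1)) t +
        cnt f ((0, 1), (-1, 0)) t))))) := by
  rw [prim h, split h (upA h), add_assoc, add_assoc]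
  rfl

end StepI

open StepI in
theorem step : S_Step := by
  intro f g L L' hf hg ⟨h1, h2, h3⟩ hL
  obtain ⟨A, e, B, rfl, hF⟩ := first f hL
  obtain ⟨h4, h5⟩ := expand hf h1 hF
  obtain ⟨A', e', B', rfl, hF'⟩ := first g (L := L') (by
    rintro rfl
    have := (h5 (f (e.1 + e.2))).symm.trans (h3 _)
    simp at this)
  obtain ⟨h6, h7⟩ := expand hg h2 hF'
  obtain ⟨h8, h9⟩ := cmp (fun t => (h5 t).symm.trans ((h3 t).trans (h7 t)))
    (fun t ht => sum_zero hf fun d hd => ⟨(h4 d hd).1, ht.trans_le (h4 d hd).2⟩)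
    fun t ht => sum_zero hg fun d hd => ⟨(h6 d hd).1, ht.trans_le (h6 d hd).2⟩
  refine StepI.br ?_
  refine ⟨hF, StepI.br ?_⟩
  exact ⟨hF', h8, fun d hd => (h4 d hd).1, fun d hd => (h6 d hd).1, h9⟩

open StepI in
theorem root : S_Root := by
  intro f g hf hg h
  have z : ∀ {f : ℤ × ℤ → ℤ}, Nm f → ∀ t < f (0, 1), (if f (1, 1) = t then 1 else 0) +
      (cnt f ((1, 0), (1, 1)) t + (cnt f ((1, 1), (0, 1)) t + cnt f ((0, 1), (-1, 0)) t)) = 0 :=
    fun hf t ht => by rw [low hf (ht.trans_le hf.r2), if_neg (ht.trans_le hf.r2).ne']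
  obtain ⟨h1, h2⟩ := cmp (fun t => Nat.eq_of_mul_eq_mul_left two_pos
    ((prim' hf t).symm.trans ((h t).trans (prim' hg t))))
    (fun t ht => by rw [z hf t (ht.trans_le hf.r1), if_neg (ht.trans_le hf.r1).ne'])
    fun t ht => by rw [z hg t (ht.trans_le hg.r1), if_neg (ht.trans_le hg.r1).ne']
  obtain ⟨h3, h4⟩ := cmp h2 (z hf) (z hg)
  obtain ⟨h5, h6⟩ := cmp h4 (fun t => low hf) fun t => low hg
  have u : ∀ {f : ℤ × ℤ → ℤ}, Nm f → ∀ e ∈ ([((1, 0), (1, 1)), ((1, 1), (0, 1)),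
      ((0, 1), (-1, 0))] : List Edge), Up f e := fun hf e he => by
    simp only [List.mem_cons, List.not_mem_nil, or_false] at he
    rcases he with rfl | rfl | rfl
    exacts [up1 hf (upA hf), up2 hf (upA hf), upB hf]
  exact ⟨h1, h3, h5, u hf, u hg, fun t => by simpa using h6 t⟩

end Pool.Agent.P.MP_e311cd_gt
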