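import Pool.Agent.P.MP_e311cd_gt.I.St

/-! The trace of the action of `U × U` on homogeneous polynomials. -/

namespace Pool.Agent.P.MP_e311cd_gt

open PowerSeries

noncomputable section

namespace TraceI

/-- the action on polynomials of degree `k` -/
def R (k : ℕ) (p : U × U) : Module.End ℂ ↥(PP ^ k) := (act p).toLinearMap.restrict (act_pow p k)

theorem R_mul (k : ℕ) (p q : U × U) : R k (p * q) = R k p * R k q :=
  LinearMap.ext fun f => Subtype.ext (act_mul p q f.1)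

theorem R_one (k : ℕ) : R k 1 = 1 := LinearMap.ext fun f => Subtype.ext (act_one f.1)

theorem tP_conj (k : ℕ) (q p : U × U) : tP k (q * p * q⁻¹) = tP k p := by
  change LinearMap.trace ℂ _ (R k _) = LinearMap.trace ℂ _ (R k _)
  rw [R_mul, LinearMap.trace_mul_comm, ← R_mul, ← mul_assoc, inv_mul_cancel, one_mul]

/-- the generating series of the complete homogeneous sums -/
def G (w : Fin 4 → ℂ) : ℂ⟦X⟧ := ∏ i, PowerSeries.mk fun n => w i ^ n

theorem geo (z : ℂ) : (1 - C z * X) * (PowerSeries.mk fun n => z ^ n) = 1 := by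
  ext n
  rw [sub_mul, one_mul, mul_assoc, map_sub, coeff_C_mul]
  rcases n with _ | n
  · simp
  · simp [coeff_succ_X_mul, pow_succ', coeff_one]

theorem tP_eq (h : S_Mon) (k : ℕ) (p : U × U) (w : Fin 4 → ℂ)
    (hw : ∀ i (x : U), zH i (p.1⁻¹ * x * p.2).1 = w i * zH i x) : tP k p = coeff k (G w) := by
  classical
  obtain ⟨b, hb⟩ := h k
  let _ := FiniteDimensional.fintypeBasisIndex b
  have h1 : ∀ d, R k p (b d) = (∏ i, w i ^ d.1 i) • b d := fun d => Subtype.ext (funext fun x => by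
    change (b d).1 (p.1⁻¹ * x * p.2) = (∏ i, w i ^ d.1 i) * (b d).1 x
    simp only [hb, hw, mul_pow, Finset.prod_mul_distrib])
  change LinearMap.trace ℂ _ (R k p) = _
  rw [LinearMap.trace_eq_matrix_trace ℂ b, G, coeff_prod, Matrix.trace,
    Finset.sum_subtype (p := fun d : Fin 4 →₀ ℕ => d.degree = k) _
      (fun d => by simp [Finset.mem_finsuppAntidiag, Finsupp.degree_eq_sum])]
  refine Finset.sum_congr rfl fun d _ => ?_
  simp [LinearMap.toMatrix_apply, h1]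

theorem gen (w : Fin 4 → ℂ) (s t : ℝ) (h1 : w 0 * w 1 = 1) (h2 : w 2 * w 3 = 1)
    (h3 : w 0 + w 1 + (w 2 + w 3) = 4 * s * t)
    (h4 : (w 0 + w 1) * (w 2 + w 3) = 4 * s ^ 2 + 4 * t ^ 2 - 4) :
    G w = X ^ 2 * G w + PowerSeries.mk fun n => ((chi s n * chi t n : ℝ) : ℂ) := by
  set D : ℂ⟦X⟧ := PowerSeries.mk fun n => ((chi s n * chi t n : ℝ) : ℂ) with hD
  have e1 : (∏ i, (1 - C (w i) * X)) * G w = 1 := by
    rw [G, ← Finset.prod_mul_distrib]
    simp only [geo, Finset.prod_const_one]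
  have e2 : (∏ i, (1 - C (w i) * X) : ℂ⟦X⟧) = 1 - C (4 * s * t : ℂ) * X +
      C (4 * s ^ 2 + 4 * t ^ 2 - 2 : ℂ) * X ^ 2 - C (4 * s * t : ℂ) * X ^ 3 + X ^ 4 := by
    have a1 := congrArg (C (R := ℂ)) h1
    have a2 := congrArg (C (R := ℂ)) h2
    have a4 : (4 * s ^ 2 + 4 * t ^ 2 - 2 : ℂ) = (w 0 + w 1) * (w 2 + w 3) + 1 + 1 := by
      rw [h4]; ring
    rw [Fin.prod_univ_four, ← h3, a4]
    simp only [map_mul, map_add, map_one] at a1 a2 ⊢
    linear_combination (X ^ 2 * (1 - C (w 2) * X) * (1 - C (w 3) * X)) * a1 +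
      (X ^ 2 * (1 - (C (w 0) + C (w 1)) * X + X ^ 2)) * a2
  have e3 : (∏ i, (1 - C (w i) * X)) * D = 1 - X ^ 2 := by
    rw [e2]
    ext n
    simp only [add_mul, sub_mul, one_mul, mul_assoc, map_add, map_sub, coeff_C_mul,
      coeff_X_pow_mul', hD, coeff_mk, coeff_one, coeff_X_pow]
    rcases n with _ | _ | _ | _ | n
    · simp [chi]
    · simp [chi]; ring
    · simp [chi]; ring
    · simp [chi]; ring
    · simp [chi]; ring
  linear_combination D * e1 - G w * e3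

theorem main (h : S_Mon) {a b : U} (ha : Circ a) (hb : Circ b) :
    ∃ w, (∀ k, tP k (a, b) = coeff k (G w)) ∧ G w = X ^ 2 * G w +
      PowerSeries.mk fun n => ((chi (c0 a) n * chi (c0 b) n : ℝ) : ℂ) := by
  have sa := a.sq
  have sb := b.sq
  rw [ha.1, ha.2] at sa
  rw [hb.1, hb.2] at sb
  refine ⟨![zH 1 a * zH 0 b, zH 0 a * zH 1 b, zH 1 a * zH 1 b, zH 0 a * zH 0 b],
    fun k => tP_eq h k _ _ fun i x => ?_, gen _ _ _ ?_ ?_ ?_ ?_⟩
  · fin_cases i <;> apply Complex.ext <;> simp [zH, ha.1, ha.2, hb.1, hb.2] <;> ring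
  all_goals
    apply Complex.ext <;> simp [zH, sq] <;> nlinarith

end TraceI

open TraceI in
theorem trace3 (h : S_Mon) : S_Trace := by
  rintro ⟨a, b⟩
  obtain ⟨c, hc⟩ := exists_conj_circ a
  obtain ⟨d, hd⟩ := exists_conj_circ b
  obtain ⟨w, h1, h2⟩ := main h hc hd
  have h3 : ∀ k, tP k (a, b) = coeff k (G w) := fun k => by
    rw [← h1, ← tP_conj k (c, d) (a, b)]
    rfl
  rw [U.c0_conj, U.c0_conj] at h2
  refine ⟨?_, ?_, fun k => ?_⟩
  · rw [h3, h2]
    simp [chi]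
  · rw [h3, h2]
    simp [coeff_X_pow_mul']
  · rw [h3, h3, h2, map_add, coeff_X_pow_mul, coeff_mk, ← h2]

end

end Pool.Agent.P.MP_e311cd_gt
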