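import Pool.Agent.P.MP_e311cd_gt.I.Tr0

/-! Part of the decision tree (generated). -/

namespace Pool.Agent.P.MP_e311cd_gt

namespace TreeI

variable {f g : ℤ × ℤ → ℤ} {x1 y1 x2 y2 u1 v1 u2 v2 : ℤ}

theorem tm13 (C : Ctx (-1) f g x1 y1 x2 y2 u1 v1 u2 v2)
    (c : M1 (f (0, 1)) (0 * x1 + 1 * x2) (0 * y1 + 1 * y2))
    (d : M3 (g (0, 1)) (0 * u1 + 1 * u2) (0 * v1 + 1 * v2)) :
    Same x1 y1 x2 y2 u1 v1 u2 v2 := by
  have H := C.H
  obtain ⟨a1, a2, a3, a4, a5, a6, a7, b1, b2, b3, b4, b5, b6⟩ := C.R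
  obtain ⟨f0_1, c1, c2, c3⟩ := c
  obtain ⟨g0_1, d1, d2, d3⟩ := d
  obtain ⟨f1_1, h1, h2, h3⟩ | ⟨f1_1, h4, h5, h6⟩ | ⟨f1_1, h7, h8, h9⟩ | ⟨f1_1, h10, h11, h12⟩ := C.F 1 1
  · clear * - b3 f0_1 f1_1 c1 b1; omega
  · clear * - b3 f0_1 f1_1 a7 a6 a4; omega
  · have fm1_1 := (C.F (-1) 1).m1
      (by clear * - h8 c3 c2 a7 a5 a4; omega) (by clear * - h8 c2; omega) (by clear * - c3 a7 a5 a4; omega)
    obtain ⟨g1_1, h13, h14, h15⟩ | ⟨-, h16, h17, h18⟩ | ⟨-, h19, h20, h21⟩ | ⟨g1_1, h22, h23, h24⟩ := C.G 1 1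
    · have gm1_1 := (C.G (-1) 1).m3
        (by clear * - h15 d1; omega) (by clear * - h15 b2 f0_1 g0_1 b1 a7; omega) (by clear * - b5 g1_1 f1_1 h15 b4 fm1_1 b2 f0_1 g0_1 b1; omega)
      have f2_1 := (C.F 2 1).m2
        (by clear * - b3 f0_1 f1_1 c2 b1; omega) (by clear * - b4 fm1_1 f1_1 b3 f0_1 c2; omega) (by clear * - b5 g1_1 f1_1 h15 h14 b3 f0_1 c2; omega)
      have f1_2 := (C.F 1 2).m2
        (by clear * - h7 c3; omega) (by clear * - b3 f0_1 f1_1 a7 a5 a4; omega) (by clear * - b3 f0_1 f1_1 c3; omega)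
      have g2_1 := (C.G 2 1).m0
        (by clear * - b5 g1_1 f1_1 h15 h14 b3 f0_1 d1 b2 g0_1; omega) (by clear * - h14 a4; omega) (by clear * - h15 d1; omega)
      obtain ⟨g1_2, h25, h26, h27⟩ | ⟨-, h28, h29, h30⟩ | ⟨-, h31, h32, h33⟩ | ⟨g1_2, h34, h35, h36⟩ := C.G 1 2
      · replace H := C.S _ _ H (List.cons_ne_nil _ _)
        simp only [Br_cons, Br_nil, Fst, List.nil_append, List.cons_append, List.forall_mem_cons, List.not_mem_nil, false_imp_iff, implies_true, Prod.mk_add_mk, Int.reduceAdd, f2_1, f1_2, fm1_1, g2_1, g1_2, gm1_1] at H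
        obtain ⟨⟨-, ⟨h37, h38, -⟩⟩, H⟩ | ⟨⟨⟨h39, -⟩, ⟨h40, -⟩⟩, H⟩ | ⟨⟨⟨h41, h42, -⟩, -⟩, H⟩ | ⟨⟨⟩⟩ := H
        · obtain ⟨⟨-, ⟨h43, h44, -⟩⟩, h49, H⟩ | ⟨⟨⟨h45, -⟩, ⟨h46, -⟩⟩, h49, H⟩ | ⟨⟨⟨h47, h48, -⟩, -⟩, h49, H⟩ | ⟨⟨⟩⟩ := H
          · refine ⟨-1, 0, 0, -1, -1, -1, by norm_num, by norm_num, by norm_num, Or.inr ⟨
              by clear * - h49 h44 h38 h27 b5 g1_1 f1_1 b3 f0_1 a7 a4; omega,
              by clear * - h49 b5 g1_1 f1_1; omega,
              by clear * - b2 f0_1 g0_1; omega,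
              by clear * - h49 b5 g1_1 f1_1; omega⟩⟩
          · obtain ⟨f3_1, h50, h51, h52⟩ | ⟨-, h53, h54, h55⟩ | ⟨f3_1, h56, h57, h58⟩ | ⟨-, h59, h60, h61⟩ := C.F 3 1
            · have f3_2 := (C.F 3 2).m2
                (by clear * - b3 f0_1 f1_1 h7 c2 b1; omega) (by clear * - h52 h51 h37 b3 f0_1 f1_1; omega) (by clear * - h49 h37 h27 h26; omega)
              have g2_3 := (C.G 2 3).m0
                (by clear * - h45 h27 h26; omega) (by clear * - h26 h14; omega) (by clear * - h46 h45 h27 h26; omega)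
              have g1_3 := (C.G 1 3).m3
                (by clear * - h51 h49 b5 g1_1 f1_1 c2 b2 f0_1 g0_1 b1 a4; omega) (by clear * - h26 d2; omega) (by clear * - h49 h45 b5 g1_1 f1_1 h14 c2 b2 f0_1 g0_1; omega)
              replace H := C.S _ _ H (List.cons_ne_nil _ _)
              simp only [Br_cons, Br_nil, Fst, List.nil_append, List.cons_append, List.forall_mem_cons, List.not_mem_nil, false_imp_iff, implies_true, Prod.mk_add_mk, Int.reduceAdd, f3_1, f3_2, f1_2, fm1_1, g2_1, g2_3, g1_3, gm1_1] at H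
              obtain ⟨⟨-, ⟨h62, h63, h64, -⟩⟩, H⟩ | ⟨⟨⟨h65, -⟩, ⟨h66, h67, -⟩⟩, H⟩ | ⟨⟨⟨h68, h69, -⟩, ⟨h70, -⟩⟩, H⟩ | ⟨⟨⟨h71, h72, h73, -⟩, -⟩, H⟩ | ⟨⟨⟩⟩ := H
              · obtain ⟨⟨-, ⟨h74, h75, h76, -⟩⟩, h86, H⟩ | ⟨⟨⟨h77, -⟩, ⟨h78, h79, -⟩⟩, h86, H⟩ | ⟨⟨⟨h80, h81, -⟩, ⟨h82, -⟩⟩, h86, H⟩ | ⟨⟨⟨h83, h84, h85, -⟩, -⟩, h86, H⟩ | ⟨⟨⟩⟩ := H
                · refine ⟨0, -1, -1, 0, 1, -1, by norm_num, by norm_num, by norm_num, Or.inr ⟨
                    by clear * - h86 h76 h75 h27 b5 g1_1 f1_1 b3 f0_1 b2 g0_1 a7; omega,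
                    by clear * - h86 h63 h49 b5 g1_1 f1_1; omega,
                    by clear * - h86 h76 h75 b5 g1_1 f1_1 b3 f0_1 b2 g0_1 a7; omega,
                    by clear * - h86 h63 h49 b5 g1_1 f1_1; omega⟩⟩
                · clear * - h86 h77 h64 h49 b3 f0_1 f1_1 c2; omega
                · refine ⟨0, -1, -1, 0, 1, -1, by norm_num, by norm_num, by norm_num, Or.inr ⟨
                    by clear * - h86 h82 b2 f0_1 g0_1 a7 a4; omega,
                    by clear * - h49 b5 g1_1 f1_1; omega,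
                    by clear * - h86 h82 b2 f0_1 g0_1 a7 a4; omega,
                    by clear * - h49 b5 g1_1 f1_1; omega⟩⟩
                · have q : (x1 + x2) * (x1 - 3 * y1) = 0 := by
                    have E0 : -x1 + y2 = 0 := by clear * - h49 b5 g1_1 f1_1 a7; omega
                    have E1 : -x1 + u1 = 0 := by clear * - a7; omega
                    have E2 : -3 * x1 - 2 * x2 + v1 = 0 := by clear * - h86 b2 f0_1 g0_1; omega
                    have E3 : -y1 + u2 = 0 := by clear * - h49 b5 g1_1 f1_1; omega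
                    have E4 : -x2 + v2 = 0 := by clear * - b2 f0_1 g0_1; omega
                    have q : 1 * ((x1 + x2) * (x1 - 3 * y1)) = 0 := by
                      linear_combination (1) * C.k + (-x1) * E0 + (-v2) * E1 + (u2) * E2 + (3 * x1 + 2 * x2) * E3 + (-x1) * E4
                    linarith only [q]
                  obtain h87 | h87 := mul_eq_zero.mp q
                  · clear * - h87 h86 h85 b2 f0_1 g0_1; omega
                  · clear * - h87 h86 h85 h51 h49 b5 g1_1 f1_1 b2 f0_1 g0_1 a7; omega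
              · clear * - h65 b3 f0_1 f1_1 c2 b1; omega
              · clear * - h68 h49 b5 g1_1 f1_1 b3 f0_1 b1 a7; omega
              · clear * - h71 b1 f0_1; omega
            · clear * - h54 h8 c2; omega
            · have f3_2 := (C.F 3 2).m2
                (by clear * - h58 h56 h38 h37; omega) (by clear * - h57 h38 b3 f0_1 f1_1; omega) (by clear * - h58 h37; omega)
              have g2_3 := (C.G 2 3).m0
                (by clear * - h58 h49 h45 h37; omega) (by clear * - h26 h14; omega) (by clear * - h58 h49 h46 h45 h37 h27; omega)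
              obtain ⟨g1_3, h88, h89, h90⟩ | ⟨-, h91, h92, h93⟩ | ⟨-, h94, h95, h96⟩ | ⟨g1_3, h97, h98, h99⟩ := C.G 1 3
              · replace H := C.S _ _ H (List.cons_ne_nil _ _)
                simp only [Br_cons, Br_nil, Fst, List.nil_append, List.cons_append, List.forall_mem_cons, List.not_mem_nil, false_imp_iff, implies_true, Prod.mk_add_mk, Int.reduceAdd, f3_1, f3_2, f1_2, fm1_1, g2_1, g2_3, g1_3, gm1_1] at H
                obtain ⟨⟨-, ⟨h100, h101, h102, -⟩⟩, H⟩ | ⟨⟨⟨h103, -⟩, ⟨h104, h105, -⟩⟩, H⟩ | ⟨⟨⟨h106, h107, -⟩, ⟨h108, -⟩⟩, H⟩ | ⟨⟨⟨h109, h110, h111, -⟩, -⟩, H⟩ | ⟨⟨⟩⟩ := H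
                · clear * - h102 h90 h56 h49 b5 g1_1 f1_1 b2 f0_1 g0_1 a7 a4; omega
                · clear * - h104 h103 h58; omega
                · clear * - h108 h106 h90 h49 h45 b5 g1_1 f1_1 b2 f0_1 g0_1 a7 a4; omega
                · obtain ⟨⟨-, ⟨h112, h113, h114, -⟩⟩, h124, H⟩ | ⟨⟨⟨h115, -⟩, ⟨h116, h117, -⟩⟩, h124, H⟩ | ⟨⟨⟨h118, h119, -⟩, ⟨h120, -⟩⟩, h124, H⟩ | ⟨⟨⟨h121, h122, h123, -⟩, -⟩, h124, H⟩ | ⟨⟨⟩⟩ := H
                  · clear * - h124 h111 h49 b5 g1_1 f1_1; omega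
                  · clear * - h116 h115 h90 h89; omega
                  · clear * - h124 h109 h49 b5 g1_1 f1_1; omega
                  · have q : (x1 + x2) * (x1 - y1) = 0 := by
                      have E0 : -x1 + y2 = 0 := by clear * - h49 b5 g1_1 f1_1 a7; omega
                      have E1 : -x1 + u1 = 0 := by clear * - a7; omega
                      have E2 : -x1 + v1 = 0 := by clear * - h124 b2 f0_1 g0_1; omega
                      have E3 : -y1 + u2 = 0 := by clear * - h49 b5 g1_1 f1_1; omega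
                      have E4 : -x2 + v2 = 0 := by clear * - b2 f0_1 g0_1; omega
                      have q : 1 * ((x1 + x2) * (x1 - y1)) = 0 := by
                        linear_combination (1) * C.k + (-x1) * E0 + (-v2) * E1 + (u2) * E2 + (x1) * E3 + (-x1) * E4
                      linarith only [q]
                    obtain h125 | h125 := mul_eq_zero.mp q
                    · refine ⟨0, -1, -1, 0, 1, -1, by norm_num, by norm_num, by norm_num, Or.inr ⟨
                        by clear * - h125 h124 b2 f0_1 g0_1; omega,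
                        by clear * - h49 b5 g1_1 f1_1; omega,
                        by clear * - h125 b2 f0_1 g0_1; omega,
                        by clear * - h49 b5 g1_1 f1_1; omega⟩⟩
                    · clear * - h125 h124 h123 h121 h111 h90 h49 h46 b2 f0_1 g0_1; omega
              · clear * - h91 h57 h56 h49 b5 g1_1 f1_1; omega
              · clear * - h94 h26 d2; omega
              · replace H := C.S _ _ H (List.cons_ne_nil _ _)
                simp only [Br_cons, Br_nil, Fst, List.nil_append, List.cons_append, List.forall_mem_cons, List.not_mem_nil, false_imp_iff, implies_true, Prod.mk_add_mk, Int.reduceAdd, f3_1, f3_2, f1_2, fm1_1, g2_1, g2_3, g1_3, gm1_1] at H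
                obtain ⟨⟨-, ⟨h126, h127, h128, -⟩⟩, H⟩ | ⟨⟨⟨h129, -⟩, ⟨h130, h131, -⟩⟩, H⟩ | ⟨⟨⟨h132, h133, -⟩, ⟨h134, -⟩⟩, H⟩ | ⟨⟨⟨h135, h136, h137, -⟩, -⟩, H⟩ | ⟨⟨⟩⟩ := H
                · obtain ⟨⟨-, ⟨h138, h139, h140, -⟩⟩, h150, H⟩ | ⟨⟨⟨h141, -⟩, ⟨h142, h143, -⟩⟩, h150, H⟩ | ⟨⟨⟨h144, h145, -⟩, ⟨h146, -⟩⟩, h150, H⟩ | ⟨⟨⟨h147, h148, h149, -⟩, -⟩, h150, H⟩ | ⟨⟨⟩⟩ := H
                  · have q : (-x1) * (-x1) = 0 := by
                      have E0 : -x1 + 2 * y1 = 0 := by clear * - h150 h128 b5 g1_1 f1_1 b3 f0_1 a7; omega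
                      have E1 : 3 * x1 + 2 * x2 = 0 := by clear * - h150 h128 h127 h49 b5 g1_1 f1_1 b3 f0_1 a7; omega
                      have E2 : -x1 + y2 = 0 := by clear * - h150 h128 h127 h49 b5 g1_1 f1_1 b3 f0_1 a7; omega
                      have E3 : -x1 + u1 = 0 := by clear * - h150 h128 b5 g1_1 f1_1 b3 f0_1 a7; omega
                      have E4 : -x1 + v1 = 0 := by clear * - h150 h140 h128 h27 b5 g1_1 f1_1 b3 f0_1 a7 a4; omega
                      have E5 : -x1 + 2 * u2 = 0 := by clear * - h150 h128 h127 h49 b5 g1_1 f1_1 b3 f0_1 a7; omega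
                      have E6 : 3 * x1 + 2 * v2 = 0 := by clear * - h150 h128 h127 h49 b5 g1_1 f1_1 b3 f0_1 b2 g0_1 a7; omega
                      have q : 1 * ((-x1) * (-x1)) = 0 := by
                        linear_combination (-4) * C.k + (-2 * x2) * E0 + (-x1) * E1 + (4 * x1) * E2 + (4 * v2) * E3 + (-4 * u2) * E4 + (-2 * x1) * E5 + (2 * x1) * E6
                      linarith only [q]
                    have h151 := mul_self_eq_zero.mp q
                    clear * - h151 h128 h57; omega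
                  · clear * - h150 h141 h127 h57 h56 h49; omega
                  · clear * - h150 h97 h49 b5 g1_1 f1_1; omega
                  · have q : (-3 * x1 + 3 * y1 - x2 + y2) * (-3 * x1 + 3 * y1 - x2 + y2) = 0 := by
                      have E0 : -x1 + y2 = 0 := by clear * - h49 b5 g1_1 f1_1 a7; omega
                      have E1 : -x1 + u1 = 0 := by clear * - a7; omega
                      have E2 : -x1 - 3 * y1 - x2 + v1 = 0 := by clear * - h150 h49 b5 g1_1 f1_1 b2 f0_1 g0_1 a7; omega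
                      have E3 : -y1 + u2 = 0 := by clear * - h49 b5 g1_1 f1_1; omega
                      have E4 : -x2 + v2 = 0 := by clear * - b2 f0_1 g0_1; omega
                      have q : 1 * ((u1 - v1) * (u1 - v1)) + 4 * ((u1 - v1) * (-3 * x1 + 3 * y1 - x2 + y2)) + 2 * ((u1 + v1 + 2 * u2 + 2 * v2) * (-3 * x1 + 3 * y1 - x2 + y2)) + 1 * ((-3 * x1 + 3 * y1 - x2 + y2) * (-3 * x1 + 3 * y1 - x2 + y2)) = 0 := by
                        linear_combination (-4) * C.k + (-x1 + 6 * y1 - 2 * x2 + y2 + 6 * u1 - 2 * v1 + 4 * u2 + 4 * v2) * E0 + (-11 * x1 + 18 * y1 - 6 * x2 + u1 - 2 * v1 + 4 * v2) * E1 + (3 * x1 - 3 * y1 + 3 * x2 + v1 - 4 * u2) * E2 + (-12 * x1 - 8 * x2) * E3 + (-4 * x1 + 12 * y1 - 4 * x2) * E4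
                      have p0 := mul_self_nonneg (u1 - v1)
                      have p1 : 0 ≤ (u1 - v1) * (-3 * x1 + 3 * y1 - x2 + y2) :=
                        mul_nonneg (by clear * - h150 h128 b2 f0_1 g0_1 a7; omega) (by clear * - h56; omega)
                      have p2 : 0 ≤ (u1 + v1 + 2 * u2 + 2 * v2) * (-3 * x1 + 3 * y1 - x2 + y2) :=
                        mul_nonneg (by clear * - h27; omega) (by clear * - h56; omega)
                      have p3 := mul_self_nonneg (-3 * x1 + 3 * y1 - x2 + y2)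
                      linarith only [q, p0, p1, p2, p3]
                    have h152 := mul_self_eq_zero.mp q
                    clear * - h152 h56; omega
                · clear * - h130 h129 h58; omega
                · obtain ⟨⟨-, ⟨h153, h154, h155, -⟩⟩, h165, H⟩ | ⟨⟨⟨h156, -⟩, ⟨h157, h158, -⟩⟩, h165, H⟩ | ⟨⟨⟨h159, h160, -⟩, ⟨h161, -⟩⟩, h165, H⟩ | ⟨⟨⟨h162, h163, h164, -⟩, -⟩, h165, H⟩ | ⟨⟨⟩⟩ := H
                  · have q : (-x1 + y1) * (y1) = 0 := by
                      have E0 : x1 + y1 + x2 = 0 := by clear * - h165 h134 h49 b3 f0_1 f1_1 a7; omega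
                      have E1 : -x1 + y2 = 0 := by clear * - h165 h134 h49 b3 f0_1 f1_1 a7; omega
                      have E2 : -x1 + u1 = 0 := by clear * - h165 h134 h49 b3 f0_1 f1_1 a7; omega
                      have E3 : -x1 + v1 = 0 := by clear * - h165 h155 h134 h49 h27 b3 f0_1 f1_1 a7 a4; omega
                      have E4 : -y1 + u2 = 0 := by clear * - h165 h49; omega
                      have E5 : x1 + y1 + v2 = 0 := by clear * - h165 h134 h49 b3 f0_1 f1_1 b2 g0_1 a7; omega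
                      have q : 1 * ((-x1 + y1) * (y1)) = 0 := by
                        linear_combination (1) * C.k + (y1) * E0 + (-x1) * E1 + (-v2) * E2 + (u2) * E3 + (x1) * E4 + (-x1) * E5
                      linarith only [q]
                    obtain h166 | h166 := mul_eq_zero.mp q
                    · clear * - h166 h165 h134 h49 h45 b3 f0_1 f1_1; omega
                    · clear * - h166 h133; omega
                  · clear * - h165 h156 h133 h49; omega
                  · clear * - h165 h132 h97 h49 b5 g1_1 f1_1; omega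
                  · clear * - h165 h162 h49 b5 g1_1 f1_1; omega
                · obtain ⟨⟨-, ⟨h167, h168, h169, -⟩⟩, h179, H⟩ | ⟨⟨⟨h170, -⟩, ⟨h171, h172, -⟩⟩, h179, H⟩ | ⟨⟨⟨h173, h174, -⟩, ⟨h175, -⟩⟩, h179, H⟩ | ⟨⟨⟨h176, h177, h178, -⟩, -⟩, h179, H⟩ | ⟨⟨⟩⟩ := H
                  · clear * - h179 h137 h49 b5 g1_1 f1_1; omega
                  · clear * - h179 h170 h136 h135 h58 h49; omega
                  · clear * - h179 h135 h97 h49 b5 g1_1 f1_1; omega
                  · have q : (-x1 + y1) * (-x1 - x2) = 0 := by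
                      have E0 : -x1 + y2 = 0 := by clear * - h49 b5 g1_1 f1_1 a7; omega
                      have E1 : -x1 + u1 = 0 := by clear * - a7; omega
                      have E2 : -x1 + v1 = 0 := by clear * - h179 b2 f0_1 g0_1; omega
                      have E3 : -y1 + u2 = 0 := by clear * - h49 b5 g1_1 f1_1; omega
                      have E4 : -x2 + v2 = 0 := by clear * - b2 f0_1 g0_1; omega
                      have q : 1 * ((-x1 + y1) * (-x1 - x2)) = 0 := by
                        linear_combination (1) * C.k + (-x1) * E0 + (-v2) * E1 + (u2) * E2 + (x1) * E3 + (-x1) * E4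
                      linarith only [q]
                    obtain h180 | h180 := mul_eq_zero.mp q
                    · clear * - h180 h179 h137 h49 h46 h27 b2 f0_1 g0_1; omega
                    · clear * - h180 h179 h135 h97 h49 b5 g1_1 f1_1 b2 f0_1 g0_1; omega
            · clear * - h59 h8 c2; omega
          · have q : (-y1 - x2 - y2) * (-2 * x1 + 2 * y1 + y2) = 0 := by
              have E0 : -x1 + u1 = 0 := by clear * - a7; omega
              have E1 : -2 * y1 - x2 - y2 + v1 = 0 := by clear * - h49 b2 f0_1 g0_1; omega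
              have E2 : x1 - y1 - y2 + u2 = 0 := by clear * - b5 g1_1 f1_1 a7; omega
              have E3 : -x2 + v2 = 0 := by clear * - b2 f0_1 g0_1; omega
              have q : 1 * ((-y1 - x2 - y2) * (-2 * x1 + 2 * y1 + y2)) = 0 := by
                linear_combination (1) * C.k + (-v2) * E0 + (u2) * E1 + (2 * y1 + x2 + y2) * E2 + (-x1) * E3
              linarith only [q]
            obtain h181 | h181 := mul_eq_zero.mp q
            · clear * - h181 h47 h27 b5 g1_1 f1_1 b2 f0_1 g0_1; omega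
            · have f3_1 := (C.F 3 1).m2
                (by clear * - h181 h49 h38 b6 g1_1 gm1_1 b5 f1_1; omega) (by clear * - h181 h49 h48 h47 b6 g1_1 gm1_1 b5 f1_1 b3 f0_1; omega) (by clear * - h49 h48 h47 b6 g1_1 gm1_1 b5 f1_1; omega)
              have f3_2 := (C.F 3 2).m2
                (by clear * - h181 h49 h48 h47 h38 h37 b6 g1_1 gm1_1; omega) (by clear * - h181 h49 h48 h47 b6 g1_1 gm1_1 b5 f1_1 b3 f0_1; omega) (by clear * - h49 h48 h47 h37 b6 g1_1 gm1_1; omega)
              have gm1_2 := (C.G (-1) 2).m3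
                (by clear * - h47 b6 g1_1 gm1_1 d1; omega) (by clear * - h48 h26 b6 g1_1 gm1_1; omega) (by clear * - h48 h47 h26 b6 g1_1 gm1_1; omega)
              have gm2_1 := (C.G (-2) 1).m3
                (by clear * - h47 h27 b6 g1_1 gm1_1; omega) (by clear * - h49 h48 h27 b6 g1_1 gm1_1 b5 f1_1 c2 b2 f0_1 g0_1; omega) (by clear * - h48 h47 h27 b6 g1_1 gm1_1; omega)
              replace H := C.S _ _ H (List.cons_ne_nil _ _)
              simp only [Br_cons, Br_nil, Fst, List.nil_append, List.cons_append, List.forall_mem_cons, List.not_mem_nil, false_imp_iff, implies_true, Prod.mk_add_mk, Int.reduceAdd, f3_1, f3_2, f1_2, fm1_1, g2_1, g1_2, gm1_2, gm2_1] at H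
              obtain ⟨⟨-, ⟨h182, h183, h184, -⟩⟩, H⟩ | ⟨⟨⟨h185, -⟩, ⟨h186, h187, -⟩⟩, H⟩ | ⟨⟨⟨h188, h189, -⟩, ⟨h190, -⟩⟩, H⟩ | ⟨⟨⟨h191, h192, h193, -⟩, -⟩, H⟩ | ⟨⟨⟩⟩ := H
              · obtain ⟨⟨-, ⟨h194, h195, h196, -⟩⟩, h206, H⟩ | ⟨⟨⟨h197, -⟩, ⟨h198, h199, -⟩⟩, h206, H⟩ | ⟨⟨⟨h200, h201, -⟩, ⟨h202, -⟩⟩, h206, H⟩ | ⟨⟨⟨h203, h204, h205, -⟩, -⟩, h206, H⟩ | ⟨⟨⟩⟩ := H
                · clear * - h206 h181 h49 h48 b5 g1_1 f1_1 a7; omega
                · have f4_1 := (C.F 4 1).m2
                    (by clear * - h181 c2; omega) (by clear * - h206 h199 h198 h181 h49 h48 b3 f0_1 f1_1; omega) (by clear * - h206 h199 h198 h49 h48; omega)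
                  have f5_2 := (C.F 5 2).m2
                    (by clear * - h206 h199 h198 h184 h181 h49 h48; omega) (by clear * - h206 h199 h198 h181 h49 h48 b3 f0_1 f1_1; omega) (by clear * - h206 h199 h198 h182 h48; omega)
                  have g2_3 := (C.G 2 3).m0
                    (by clear * - h199 h198 h197 h48; omega) (by clear * - h206 h198 h49 h48 b5 g1_1 f1_1; omega) (by clear * - h199 h197 h48 h27; omega)
                  have g1_3 := (C.G 1 3).m3
                    (by clear * - h206 h184 h181 h48 b5 g1_1 f1_1 b2 f0_1 g0_1; omega) (by clear * - h198 h48 b6 g1_1 gm1_1; omega) (by clear * - h206 h198 h184 h181 h49 h48 b2 f0_1 g0_1; omega)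
                  replace H := C.S _ _ H (List.cons_ne_nil _ _)
                  simp only [Br_cons, Br_nil, Fst, List.nil_append, List.cons_append, List.forall_mem_cons, List.not_mem_nil, false_imp_iff, implies_true, Prod.mk_add_mk, Int.reduceAdd, f4_1, f5_2, f3_2, f1_2, fm1_1, g2_1, g2_3, g1_3, gm1_2, gm2_1] at H
                  obtain ⟨⟨-, ⟨h207, h208, h209, h210, -⟩⟩, H⟩ | ⟨⟨⟨h211, -⟩, ⟨h212, h213, h214, -⟩⟩, H⟩ | ⟨⟨⟨h215, h216, -⟩, ⟨h217, h218, -⟩⟩, H⟩ | ⟨⟨⟨h219, h220, h221, -⟩, ⟨h222, -⟩⟩, H⟩ | ⟨⟨⟨h223, h224, h225, h226, -⟩, -⟩, H⟩ | ⟨⟨⟩⟩ := H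
                  · clear * - h210 h206 h181 h48 h27 c2 b2 f0_1 g0_1; omega
                  · clear * - h211 h206 h199 h198 h182 h48; omega
                  · clear * - h217 h216; omega
                  · clear * - h219 h206 h197 b5 g1_1 f1_1; omega
                  · obtain ⟨⟨-, ⟨h227, h228, h229, h230, -⟩⟩, h247, H⟩ | ⟨⟨⟨h231, -⟩, ⟨h232, h233, h234, -⟩⟩, h247, H⟩ | ⟨⟨⟨h235, h236, -⟩, ⟨h237, h238, -⟩⟩, h247, H⟩ | ⟨⟨⟨h239, h240, h241, -⟩, ⟨h242, -⟩⟩, h247, H⟩ | ⟨⟨⟨h243, h244, h245, h246, -⟩, -⟩, h247, H⟩ | ⟨⟨⟩⟩ := H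
                    · clear * - h247 h206 h197 h181 h49 h27 b5 g1_1 f1_1 b2 f0_1 g0_1 a7; omega
                    · clear * - h247 h224 h223 h206 h197 h184; omega
                    · clear * - h247 h223 h184 h181 h49 b2 f0_1 g0_1; omega
                    · clear * - h247 h242 h241 h224 h223 h206 h199; omega
                    · clear * - h247 h243 h223 h206 h181 h49 h27 b5 g1_1 f1_1 b2 f0_1 g0_1; omega
                · clear * - h206 h201 h49 b5 g1_1 f1_1 d3 d1; omega
                · clear * - h206 h203 h49 h27 b6 g1_1 gm1_1 b5 f1_1; omega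
              · clear * - h185 h49 h48 h47 h37 b6 g1_1 gm1_1; omega
              · clear * - h188 h181 h49 h48 b5 g1_1 f1_1 a7; omega
              · obtain ⟨⟨-, ⟨h248, h249, h250, -⟩⟩, h260, H⟩ | ⟨⟨⟨h251, -⟩, ⟨h252, h253, -⟩⟩, h260, H⟩ | ⟨⟨⟨h254, h255, -⟩, ⟨h256, -⟩⟩, h260, H⟩ | ⟨⟨⟨h257, h258, h259, -⟩, -⟩, h260, H⟩ | ⟨⟨⟩⟩ := H
                · clear * - h260 h248 h193 h191 h181 h49 h47 a7; omega
                · have fm1_2 := (C.F (-1) 2).m1
                    (by clear * - h260 h253 h252 h181 h49 h48; omega) (by clear * - h260 h191 h49 h48 c2; omega) (by clear * - h260 h253 h252 h193 h181 h49 h48; omega)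
                  have fm2_1 := (C.F (-2) 1).m1
                    (by clear * - h260 h253 h252 h192 h191 h181 h48; omega) (by clear * - h260 h253 h252 h191 h181 h49 h48; omega) (by clear * - h260 h253 h252 h193 h181 h49 h48; omega)
                  have g2_3 := (C.G 2 3).m0
                    (by clear * - h253 h252 h251 h48; omega) (by clear * - h252 h48 h14; omega) (by clear * - h253 h251 h48 h27; omega)
                  obtain ⟨g1_3, h261, h262, h263⟩ | ⟨-, h264, h265, h266⟩ | ⟨-, h267, h268, h269⟩ | ⟨g1_3, h270, h271, h272⟩ := C.G 1 3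
                  · replace H := C.S _ _ H (List.cons_ne_nil _ _)
                    simp only [Br_cons, Br_nil, Fst, List.nil_append, List.cons_append, List.forall_mem_cons, List.not_mem_nil, false_imp_iff, implies_true, Prod.mk_add_mk, Int.reduceAdd, f3_1, f3_2, f1_2, fm1_2, fm2_1, g2_1, g2_3, g1_3, gm1_2, gm2_1] at H
                    obtain ⟨⟨-, ⟨h273, h274, h275, h276, -⟩⟩, H⟩ | ⟨⟨⟨h277, -⟩, ⟨h278, h279, h280, -⟩⟩, H⟩ | ⟨⟨⟨h281, h282, -⟩, ⟨h283, h284, -⟩⟩, H⟩ | ⟨⟨⟨h285, h286, h287, -⟩, ⟨h288, -⟩⟩, H⟩ | ⟨⟨⟨h289, h290, h291, h292, -⟩, -⟩, H⟩ | ⟨⟨⟩⟩ := H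
                    · obtain ⟨⟨-, ⟨h293, h294, h295, h296, -⟩⟩, h313, H⟩ | ⟨⟨⟨h297, -⟩, ⟨h298, h299, h300, -⟩⟩, h313, H⟩ | ⟨⟨⟨h301, h302, -⟩, ⟨h303, h304, -⟩⟩, h313, H⟩ | ⟨⟨⟨h305, h306, h307, -⟩, ⟨h308, -⟩⟩, h313, H⟩ | ⟨⟨⟨h309, h310, h311, h312, -⟩, -⟩, h313, H⟩ | ⟨⟨⟩⟩ := H
                      · clear * - h313 h181 h49 h48 b5 g1_1 f1_1 a7; omega
                      · clear * - h298 h297 h263 h262; omega
                      · clear * - h313 h49 h48 b5 g1_1 f1_1; omega
                      · clear * - h313 h49 h48 b5 g1_1 f1_1 d1; omega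
                      · clear * - h313 h311 h309 h274 h263 h260 h191 h49; omega
                    · clear * - h280 h279 h277 h263 h262 h260 h251 h193; omega
                    · clear * - h281 h181 h49 h48 b5 g1_1 f1_1 a7; omega
                    · clear * - h285 h260 h193 h191 h181 h49 h48; omega
                    · clear * - h292 h290 h289 h181; omega
                  · clear * - h264 h260 h193 h191 h49 h48 b6 g1_1 gm1_1; omega
                  · clear * - h267 h252 h48 b6 g1_1 gm1_1; omega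
                  · replace H := C.S _ _ H (List.cons_ne_nil _ _)
                    simp only [Br_cons, Br_nil, Fst, List.nil_append, List.cons_append, List.forall_mem_cons, List.not_mem_nil, false_imp_iff, implies_true, Prod.mk_add_mk, Int.reduceAdd, f3_1, f3_2, f1_2, fm1_2, fm2_1, g2_1, g2_3, g1_3, gm1_2, gm2_1] at H
                    obtain ⟨⟨-, ⟨h314, h315, h316, h317, -⟩⟩, H⟩ | ⟨⟨⟨h318, -⟩, ⟨h319, h320, h321, -⟩⟩, H⟩ | ⟨⟨⟨h322, h323, -⟩, ⟨h324, h325, -⟩⟩, H⟩ | ⟨⟨⟨h326, h327, h328, -⟩, ⟨h329, -⟩⟩, H⟩ | ⟨⟨⟨h330, h331, h332, h333, -⟩, -⟩, H⟩ | ⟨⟨⟩⟩ := H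
                    · obtain ⟨⟨-, ⟨h334, h335, h336, h337, -⟩⟩, h354, H⟩ | ⟨⟨⟨h338, -⟩, ⟨h339, h340, h341, -⟩⟩, h354, H⟩ | ⟨⟨⟨h342, h343, -⟩, ⟨h344, h345, -⟩⟩, h354, H⟩ | ⟨⟨⟨h346, h347, h348, -⟩, ⟨h349, -⟩⟩, h354, H⟩ | ⟨⟨⟨h350, h351, h352, h353, -⟩, -⟩, h354, H⟩ | ⟨⟨⟩⟩ := H
                      · clear * - h354 h270 h260 h251 h181 h49 b5 g1_1 f1_1 b2 f0_1 g0_1 a7; omega
                      · clear * - h354 h317 h316 h260 h251 h191; omega
                      · clear * - h354 h270 h49 h48 b5 g1_1 f1_1; omega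
                      · clear * - h349 h348 h272; omega
                      · clear * - h354 h260 h193 h49 h27; omega
                    · clear * - h321 h320 h318 h193 h192; omega
                    · clear * - h322 h270 h260 h251 h181 h49 b5 g1_1 f1_1 b2 f0_1 g0_1; omega
                    · clear * - h326 h260 h193 h191 h181 h49 h48; omega
                    · clear * - h333 h331 h330 h181; omega
                · clear * - h260 h191 h49 h48 b5 g1_1 f1_1 d1; omega
                · clear * - h260 h257 h191 h49 h27 b6 g1_1 gm1_1 b5 f1_1; omega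
        · obtain ⟨⟨-, ⟨h355, h356, -⟩⟩, h361, H⟩ | ⟨⟨⟨h357, -⟩, ⟨h358, -⟩⟩, h361, H⟩ | ⟨⟨⟨h359, h360, -⟩, -⟩, h361, H⟩ | ⟨⟨⟩⟩ := H
          · clear * - h361 h39 b5 g1_1 f1_1 a5 a4; omega
          · refine ⟨-1, 0, 0, -1, -1, -1, by norm_num, by norm_num, by norm_num, Or.inr ⟨
              by clear * - h361 b5 g1_1 f1_1 a7 a5 a4; omega,
              by clear * - h361 b5 g1_1 f1_1; omega,
              by clear * - b2 f0_1 g0_1; omega,
              by clear * - h361 b5 g1_1 f1_1; omega⟩⟩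
          · clear * - h360 h40 b5 g1_1 f1_1 b2 f0_1 g0_1 a7 a5; omega
        · obtain ⟨⟨-, ⟨h362, h363, -⟩⟩, h368, H⟩ | ⟨⟨⟨h364, -⟩, ⟨h365, -⟩⟩, h368, H⟩ | ⟨⟨⟨h366, h367, -⟩, -⟩, h368, H⟩ | ⟨⟨⟩⟩ := H
          · clear * - h368 h41 b5 g1_1 f1_1 a5 a4; omega
          · have q : (x1 + x2) * (x1 - y1) = 0 := by
              have E0 : -2 * x1 + 2 * y1 + x2 + 2 * y2 = 0 := by clear * - h368 b5 g1_1 f1_1 a7; omega
              have E1 : -x1 + u1 = 0 := by clear * - a7; omega
              have E2 : -x1 + v1 = 0 := by clear * - h368 h365 b2 f0_1 g0_1 a7 a4; omega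
              have E3 : x2 + 2 * u2 = 0 := by clear * - h368 a7; omega
              have E4 : -x2 + v2 = 0 := by clear * - b2 f0_1 g0_1; omega
              have q : 2 * ((x1 + x2) * (x1 - y1)) = 0 := by
                linear_combination (2) * C.k + (-x1) * E0 + (-2 * v2) * E1 + (2 * u2) * E2 + (x1) * E3 + (-2 * x1) * E4
              linarith only [q]
            obtain h369 | h369 := mul_eq_zero.mp q
            · have fm1_2 := (C.F (-1) 2).m1
                (by clear * - h369 h368 h27 h26; omega) (by clear * - h41 b4 fm1_1 f1_1 c2; omega) (by clear * - h369 h368 h42 h27 h26 b4 fm1_1 f1_1; omega)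
              have fm2_1 := (C.F (-2) 1).m1
                (by clear * - h369 h368 h27 h26; omega) (by clear * - h369 h368 h41 h27 h26 b4 fm1_1 f1_1; omega) (by clear * - h368 h42 b5 g1_1 f1_1 b4 fm1_1 a7; omega)
              have g2_3 := (C.G 2 3).m0
                (by clear * - h364 h27 h26; omega) (by clear * - h26 h14; omega) (by clear * - h365 h364 h27 h26; omega)
              have g1_3 := (C.G 1 3).m0
                (by clear * - h368 h27 h26 b5 g1_1 f1_1 b4 fm1_1; omega) (by clear * - h368 h26 b6 g1_1 gm1_1 b5 f1_1 b4 fm1_1; omega) (by clear * - h369 h368 h365 b5 g1_1 f1_1 b4 fm1_1 b2 f0_1 g0_1; omega)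
              replace H := C.S _ _ H (List.cons_ne_nil _ _)
              simp only [Br_cons, Br_nil, Fst, List.nil_append, List.cons_append, List.forall_mem_cons, List.not_mem_nil, false_imp_iff, implies_true, Prod.mk_add_mk, Int.reduceAdd, f2_1, f1_2, fm1_2, fm2_1, g2_1, g2_3, g1_3, gm1_1] at H
              obtain ⟨⟨-, ⟨h370, h371, h372, -⟩⟩, H⟩ | ⟨⟨⟨h373, -⟩, ⟨h374, h375, -⟩⟩, H⟩ | ⟨⟨⟨h376, h377, -⟩, ⟨h378, -⟩⟩, H⟩ | ⟨⟨⟨h379, h380, h381, -⟩, -⟩, H⟩ | ⟨⟨⟩⟩ := H
              · obtain ⟨⟨-, ⟨h382, h383, h384, -⟩⟩, h394, H⟩ | ⟨⟨⟨h385, -⟩, ⟨h386, h387, -⟩⟩, h394, H⟩ | ⟨⟨⟨h388, h389, -⟩, ⟨h390, -⟩⟩, h394, H⟩ | ⟨⟨⟨h391, h392, h393, -⟩, -⟩, h394, H⟩ | ⟨⟨⟩⟩ := H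
                · clear * - h394 h370 h364 b5 g1_1 f1_1; omega
                · clear * - h394 h386 h385 h368 h41; omega
                · clear * - h388 h369 h368 a7; omega
                · clear * - h394 h41 b2 f0_1 g0_1 a7 a4; omega
              · obtain ⟨⟨-, ⟨h395, h396, h397, -⟩⟩, h407, H⟩ | ⟨⟨⟨h398, -⟩, ⟨h399, h400, -⟩⟩, h407, H⟩ | ⟨⟨⟨h401, h402, -⟩, ⟨h403, -⟩⟩, h407, H⟩ | ⟨⟨⟨h404, h405, h406, -⟩, -⟩, h407, H⟩ | ⟨⟨⟩⟩ := H
                · clear * - h407 h373 h364 b5 g1_1 f1_1; omega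
                · clear * - h407 h399 h375 h374 h364 h42; omega
                · clear * - h407 h373 h369 h42 b5 g1_1 f1_1 a7; omega
                · clear * - h407 h42 b2 f0_1 g0_1 a7 a4; omega
              · clear * - h377 h376 h369 b4 fm1_1 f1_1; omega
              · clear * - h381 h369; omega
            · clear * - h369 h368 h42 b5 g1_1 f1_1 a7; omega
          · have q : (-x1 + y1) * (-x1 - x2) = 0 := by
              have E0 : -x1 + u1 = 0 := by clear * - a7; omega
              have E1 : -x1 + v1 = 0 := by clear * - h368 b2 f0_1 g0_1; omega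
              have E2 : x1 - y1 - y2 + u2 = 0 := by clear * - b5 g1_1 f1_1 a7; omega
              have E3 : -x2 + v2 = 0 := by clear * - b2 f0_1 g0_1; omega
              have q : 1 * ((-x1 + y1) * (-x1 - x2)) = 0 := by
                linear_combination (1) * C.k + (-v2) * E0 + (u2) * E1 + (x1) * E2 + (-x1) * E3
              linarith only [q]
            obtain h408 | h408 := mul_eq_zero.mp q
            · refine ⟨-1, 0, 0, -1, -1, -1, by norm_num, by norm_num, by norm_num, Or.inr ⟨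
                by clear * - h368 b2 f0_1 g0_1; omega,
                by clear * - h408 a7; omega,
                by clear * - b2 f0_1 g0_1; omega,
                by clear * - h408 b5 g1_1 f1_1 a7; omega⟩⟩
            · have fm1_2 := (C.F (-1) 2).m1
                (by clear * - h408 h368 h367 h366 b6 g1_1 gm1_1; omega) (by clear * - h368 h41 b6 g1_1 gm1_1 b5 f1_1 c2; omega) (by clear * - h408 h368 h367 h366 h42 b6 g1_1 gm1_1 b5 f1_1; omega)
              have fm2_1 := (C.F (-2) 1).m1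
                (by clear * - h408 h368 h367 h366 b6 g1_1 gm1_1; omega) (by clear * - h408 h368 h367 h366 h41 b6 g1_1 gm1_1 b5 f1_1; omega) (by clear * - h368 h42 b6 g1_1 gm1_1 b5 f1_1 d1 a7 a5; omega)
              have gm1_2 := (C.G (-1) 2).m3
                (by clear * - h366 b6 g1_1 gm1_1 d1; omega) (by clear * - h367 h26 b6 g1_1 gm1_1; omega) (by clear * - h367 h366 h26 b6 g1_1 gm1_1; omega)
              have gm2_1 := (C.G (-2) 1).m3
                (by clear * - h366 h27 b6 g1_1 gm1_1; omega) (by clear * - h368 h367 b6 g1_1 gm1_1 b2 f0_1 g0_1 a7; omega) (by clear * - h367 h366 h27 b6 g1_1 gm1_1; omega)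
              replace H := C.S _ _ H (List.cons_ne_nil _ _)
              simp only [Br_cons, Br_nil, Fst, List.nil_append, List.cons_append, List.forall_mem_cons, List.not_mem_nil, false_imp_iff, implies_true, Prod.mk_add_mk, Int.reduceAdd, f2_1, f1_2, fm1_2, fm2_1, g2_1, g1_2, gm1_2, gm2_1] at H
              obtain ⟨⟨-, ⟨h409, h410, h411, -⟩⟩, H⟩ | ⟨⟨⟨h412, -⟩, ⟨h413, h414, -⟩⟩, H⟩ | ⟨⟨⟨h415, h416, -⟩, ⟨h417, -⟩⟩, H⟩ | ⟨⟨⟨h418, h419, h420, -⟩, -⟩, H⟩ | ⟨⟨⟩⟩ := H
              · obtain ⟨⟨-, ⟨h421, h422, h423, -⟩⟩, h433, H⟩ | ⟨⟨⟨h424, -⟩, ⟨h425, h426, -⟩⟩, h433, H⟩ | ⟨⟨⟨h427, h428, -⟩, ⟨h429, -⟩⟩, h433, H⟩ | ⟨⟨⟨h430, h431, h432, -⟩, -⟩, h433, H⟩ | ⟨⟨⟩⟩ := H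
                · clear * - h421 h408 d1 b2 f0_1 g0_1 a7; omega
                · refine ⟨0, -1, -1, 0, 1, -1, by norm_num, by norm_num, by norm_num, Or.inr ⟨
                    by clear * - h408 h368 b2 f0_1 g0_1; omega,
                    by clear * - h433 b5 g1_1 f1_1; omega,
                    by clear * - h408 b2 f0_1 g0_1; omega,
                    by clear * - h433 b5 g1_1 f1_1; omega⟩⟩
                · clear * - h428 b6 g1_1 gm1_1 d1; omega
                · clear * - h433 h431 h430 h408 h368 b5 g1_1 f1_1 c2 b2 f0_1 g0_1; omega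
              · obtain ⟨⟨-, ⟨h434, h435, h436, -⟩⟩, h446, H⟩ | ⟨⟨⟨h437, -⟩, ⟨h438, h439, -⟩⟩, h446, H⟩ | ⟨⟨⟨h440, h441, -⟩, ⟨h442, -⟩⟩, h446, H⟩ | ⟨⟨⟨h443, h444, h445, -⟩, -⟩, h446, H⟩ | ⟨⟨⟩⟩ := H
                · clear * - h446 h412 h408 b5 g1_1 f1_1 d1 b2 f0_1 g0_1 a7; omega
                · refine ⟨-1, 0, 0, -1, -1, -1, by norm_num, by norm_num, by norm_num, Or.inr ⟨
                    by clear * - h368 b2 f0_1 g0_1; omega,
                    by clear * - h446 b5 g1_1 f1_1; omega,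
                    by clear * - b2 f0_1 g0_1; omega,
                    by clear * - h446 b5 g1_1 f1_1; omega⟩⟩
                · clear * - h441 b6 g1_1 gm1_1 d1; omega
                · clear * - h444 h443 h408 h368 b6 g1_1 gm1_1 b2 f0_1 g0_1; omega
              · clear * - h416 h415 h408 h368 b6 g1_1 gm1_1 b5 f1_1; omega
              · clear * - h420 h408; omega
      · clear * - h30 h14 d2; omega
      · clear * - h31 h14 d2; omega
      · replace H := C.S _ _ H (List.cons_ne_nil _ _)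
        simp only [Br_cons, Br_nil, Fst, List.nil_append, List.cons_append, List.forall_mem_cons, List.not_mem_nil, false_imp_iff, implies_true, Prod.mk_add_mk, Int.reduceAdd, f2_1, f1_2, fm1_1, g2_1, g1_2, gm1_1] at H
        obtain ⟨⟨-, ⟨h447, h448, -⟩⟩, H⟩ | ⟨⟨⟨h449, -⟩, ⟨h450, -⟩⟩, H⟩ | ⟨⟨⟨h451, h452, -⟩, -⟩, H⟩ | ⟨⟨⟩⟩ := H
        · obtain ⟨⟨-, ⟨h453, h454, -⟩⟩, h459, H⟩ | ⟨⟨⟨h455, -⟩, ⟨h456, -⟩⟩, h459, H⟩ | ⟨⟨⟨h457, h458, -⟩, -⟩, h459, H⟩ | ⟨⟨⟩⟩ := H
          · clear * - h454 h34 b5 g1_1 f1_1 b3 f0_1 b2 g0_1; omega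
          · obtain ⟨f3_1, h460, h461, h462⟩ | ⟨-, h463, h464, h465⟩ | ⟨f3_1, h466, h467, h468⟩ | ⟨-, h469, h470, h471⟩ := C.F 3 1
            · have f3_2 := (C.F 3 2).m2
                (by clear * - b3 f0_1 f1_1 h7 c2 b1; omega) (by clear * - h462 h461 h459 h36 b3 f0_1 f1_1; omega) (by clear * - h459 h447 h36; omega)
              have g2_3 := (C.G 2 3).m0
                (by clear * - h459 h447 h35 b5 g1_1 f1_1 b3 f0_1 d2 b2 g0_1; omega) (by clear * - h35 h14; omega) (by clear * - h459 h456 h447 b5 g1_1 f1_1 b3 f0_1 b1 a7; omega)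
              have g1_3 := (C.G 1 3).m3
                (by clear * - h456 h455 h36 h34; omega) (by clear * - h35 d2; omega) (by clear * - h456 h36; omega)
              replace H := C.S _ _ H (List.cons_ne_nil _ _)
              simp only [Br_cons, Br_nil, Fst, List.nil_append, List.cons_append, List.forall_mem_cons, List.not_mem_nil, false_imp_iff, implies_true, Prod.mk_add_mk, Int.reduceAdd, f3_1, f3_2, f1_2, fm1_1, g2_1, g2_3, g1_3, gm1_1] at H
              obtain ⟨⟨-, ⟨h472, h473, h474, -⟩⟩, H⟩ | ⟨⟨⟨h475, -⟩, ⟨h476, h477, -⟩⟩, H⟩ | ⟨⟨⟨h478, h479, -⟩, ⟨h480, -⟩⟩, H⟩ | ⟨⟨⟨h481, h482, h483, -⟩, -⟩, H⟩ | ⟨⟨⟩⟩ := H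
              · obtain ⟨⟨-, ⟨h484, h485, h486, -⟩⟩, h496, H⟩ | ⟨⟨⟨h487, -⟩, ⟨h488, h489, -⟩⟩, h496, H⟩ | ⟨⟨⟨h490, h491, -⟩, ⟨h492, -⟩⟩, h496, H⟩ | ⟨⟨⟨h493, h494, h495, -⟩, -⟩, h496, H⟩ | ⟨⟨⟩⟩ := H
                · clear * - h496 h473 h459 h34 b5 g1_1 f1_1; omega
                · clear * - h496 h487 b5 g1_1 f1_1 b3 f0_1 a7; omega
                · clear * - h492 h491 h459 h34 b5 g1_1 f1_1 b3 f0_1 c2; omega
                · have q : (x1 + x2) * (9 * x1 + y1 + 8 * x2) = 0 := by
                    have E0 : 3 * x1 + 2 * y1 + 4 * x2 + y2 = 0 := by clear * - h496 h459 b2 f0_1 g0_1; omega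
                    have E1 : -x1 + u1 = 0 := by clear * - a7; omega
                    have E2 : -3 * x1 - 2 * x2 + v1 = 0 := by clear * - h496 b2 f0_1 g0_1; omega
                    have E3 : 4 * x1 + y1 + 4 * x2 + u2 = 0 := by clear * - h496 h459 b5 g1_1 f1_1 b2 f0_1 g0_1 a7; omega
                    have E4 : -x2 + v2 = 0 := by clear * - b2 f0_1 g0_1; omega
                    have q : 1 * ((x1 + x2) * (9 * x1 + y1 + 8 * x2)) = 0 := by
                      linear_combination (1) * C.k + (-x1) * E0 + (-v2) * E1 + (u2) * E2 + (3 * x1 + 2 * x2) * E3 + (-x1) * E4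
                    linarith only [q]
                  obtain h497 | h497 := mul_eq_zero.mp q
                  · clear * - h497 h496 h495 b2 f0_1 g0_1; omega
                  · clear * - h497 h496 h461 h459 h34 b5 g1_1 f1_1 b3 f0_1 b2 g0_1 a7; omega
              · clear * - h475 b3 f0_1 f1_1 c2 b1; omega
              · obtain ⟨⟨-, ⟨h498, h499, h500, -⟩⟩, h510, H⟩ | ⟨⟨⟨h501, -⟩, ⟨h502, h503, -⟩⟩, h510, H⟩ | ⟨⟨⟨h504, h505, -⟩, ⟨h506, -⟩⟩, h510, H⟩ | ⟨⟨⟨h507, h508, h509, -⟩, -⟩, h510, H⟩ | ⟨⟨⟩⟩ := H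
                · clear * - h510 h459 h34 b5 g1_1 f1_1; omega
                · clear * - h510 h478 b5 g1_1 f1_1 b3 f0_1 b1 a7; omega
                · clear * - h510 h506 h479 h459; omega
                · have q : (x1 + x2) * (-2 * y1 - x2) = 0 := by
                    have E0 : y1 + x2 + y2 = 0 := by clear * - h510 h459 b3 f0_1 f1_1 b2 g0_1; omega
                    have E1 : -x1 + u1 = 0 := by clear * - a7; omega
                    have E2 : y1 + x2 + v1 = 0 := by clear * - h510 h459 b3 f0_1 f1_1 b2 g0_1; omega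
                    have E3 : x1 + x2 + u2 = 0 := by clear * - h510 h459 b5 g1_1 f1_1 b3 f0_1 b2 g0_1 a7; omega
                    have E4 : -x2 + v2 = 0 := by clear * - h510 h459 b3 f0_1 f1_1 b2 g0_1; omega
                    have q : 1 * ((x1 + x2) * (-2 * y1 - x2)) = 0 := by
                      linear_combination (1) * C.k + (-x1) * E0 + (-v2) * E1 + (u2) * E2 + (-y1 - x2) * E3 + (-x1) * E4
                    linarith only [q]
                  obtain h511 | h511 := mul_eq_zero.mp q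
                  · refine ⟨0, -1, 1, 1, 1, -1, by norm_num, by norm_num, by norm_num, Or.inl ⟨
                      by clear * - h511 a7; omega,
                      by clear * - h510 h459; omega,
                      by clear * - h511 h510 h459 b5 g1_1 f1_1 b3 f0_1 b2 g0_1 a7; omega,
                      by clear * - h510 h459; omega⟩⟩
                  · refine ⟨-1, 0, 1, 1, -1, -1, by norm_num, by norm_num, by norm_num, Or.inl ⟨
                      by clear * - a7; omega,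
                      by clear * - h511 h510 h459 h456 b2 f0_1 g0_1; omega,
                      by clear * - h511 h510 h461 h459 h456 b5 g1_1 f1_1 b1 f0_1 a7; omega,
                      by clear * - h510 h459; omega⟩⟩
              · clear * - h481 b1 f0_1; omega
            · clear * - h464 h8 c2; omega
            · have f3_2 := (C.F 3 2).m2
                (by clear * - h468 h466 h448 h447; omega) (by clear * - h467 h448 b3 f0_1 f1_1; omega) (by clear * - h468 h447; omega)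
              have g2_3 := (C.G 2 3).m0
                (by clear * - h459 h447 h35 b5 g1_1 f1_1 b3 f0_1 d2 b2 g0_1; omega) (by clear * - h35 h14; omega) (by clear * - h466 h459 h456 h447 b5 g1_1 f1_1 b3 f0_1 a7; omega)
              have g1_3 := (C.G 1 3).m3
                (by clear * - h468 h459 h456 h455 h447 h34; omega) (by clear * - h35 d2; omega) (by clear * - h468 h459 h456 h447; omega)
              replace H := C.S _ _ H (List.cons_ne_nil _ _)
              simp only [Br_cons, Br_nil, Fst, List.nil_append, List.cons_append, List.forall_mem_cons, List.not_mem_nil, false_imp_iff, implies_true, Prod.mk_add_mk, Int.reduceAdd, f3_1, f3_2, f1_2, fm1_1, g2_1, g2_3, g1_3, gm1_1] at H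
              obtain ⟨⟨-, ⟨h512, h513, h514, -⟩⟩, H⟩ | ⟨⟨⟨h515, -⟩, ⟨h516, h517, -⟩⟩, H⟩ | ⟨⟨⟨h518, h519, -⟩, ⟨h520, -⟩⟩, H⟩ | ⟨⟨⟨h521, h522, h523, -⟩, -⟩, H⟩ | ⟨⟨⟩⟩ := H
              · obtain ⟨⟨-, ⟨h524, h525, h526, -⟩⟩, h536, H⟩ | ⟨⟨⟨h527, -⟩, ⟨h528, h529, -⟩⟩, h536, H⟩ | ⟨⟨⟨h530, h531, -⟩, ⟨h532, -⟩⟩, h536, H⟩ | ⟨⟨⟨h533, h534, h535, -⟩, -⟩, h536, H⟩ | ⟨⟨⟩⟩ := H
                · clear * - h536 h513 h459 h34 b5 g1_1 f1_1; omega
                · clear * - h536 h513 h466 b5 g1_1 f1_1 h8 a7; omega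
                · clear * - h536 h532 h513 h467 h466 h459; omega
                · have q : (-u1 - v1 - 2 * u2 - 2 * v2) * (-u1 - v1 - 2 * u2 - 2 * v2) = 0 := by
                    have E0 : 5 * y1 + 3 * x2 + 2 * y2 = 0 := by clear * - h536 h459 b2 f0_1 g0_1; omega
                    have E1 : -x1 + u1 = 0 := by clear * - a7; omega
                    have E2 : -y1 + x2 + 2 * v1 = 0 := by clear * - h536 h459 b2 f0_1 g0_1; omega
                    have E3 : 2 * x1 + 3 * y1 + 3 * x2 + 2 * u2 = 0 := by clear * - h536 h459 b5 g1_1 f1_1 b2 f0_1 g0_1 a7; omega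
                    have E4 : -x2 + v2 = 0 := by clear * - b2 f0_1 g0_1; omega
                    have q : 16 * ((y1 + x2 + y2) * (y1 + x2 + y2)) + 32 * ((y1 + x2 + y2) * (-u1 - v1 - 2 * u2 - 2 * v2)) + 32 * ((y1 + x2 + y2) * (-3 * x1 + 3 * y1 - x2 + y2)) + 12 * ((-u1 - v1 - 2 * u2 - 2 * v2) * (-u1 - v1 - 2 * u2 - 2 * v2)) + 16 * ((-u1 - v1 - 2 * u2 - 2 * v2) * (-3 * x1 + 3 * y1 - x2 + y2)) + 4 * ((-3 * x1 + 3 * y1 - x2 + y2) * (-3 * x1 + 3 * y1 - x2 + y2)) = 0 := by
                      linear_combination (-16) * C.k + (-52 * x1 + 27 * y1 - 27 * x2 + 26 * y2 - 24 * u1 - 24 * v1 - 48 * u2 - 48 * v2) * E0 + (60 * x1 + 40 * y1 + 56 * x2 + 12 * u1 + 24 * v1 + 48 * u2 + 64 * v2) * E1 + (36 * x1 + 23 * y1 + 25 * x2 + 6 * v1 + 16 * u2 + 24 * v2) * E2 + (48 * x1 + 12 * y1 + 12 * x2 + 24 * u2 + 48 * v2) * E3 + (64 * x1 - 40 * y1 - 8 * x2 + 48 * v2) * E4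
                    have p0 := mul_self_nonneg (y1 + x2 + y2)
                    have p1 : 0 ≤ (y1 + x2 + y2) * (-u1 - v1 - 2 * u2 - 2 * v2) :=
                      mul_nonneg (by clear * - b3 f0_1 f1_1; omega) (by clear * - h34; omega)
                    have p2 : 0 ≤ (y1 + x2 + y2) * (-3 * x1 + 3 * y1 - x2 + y2) :=
                      mul_nonneg (by clear * - b3 f0_1 f1_1; omega) (by clear * - h466; omega)
                    have p3 := mul_self_nonneg (-u1 - v1 - 2 * u2 - 2 * v2)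
                    have p4 : 0 ≤ (-u1 - v1 - 2 * u2 - 2 * v2) * (-3 * x1 + 3 * y1 - x2 + y2) :=
                      mul_nonneg (by clear * - h34; omega) (by clear * - h466; omega)
                    have p5 := mul_self_nonneg (-3 * x1 + 3 * y1 - x2 + y2)
                    linarith only [q, p0, p1, p2, p3, p4, p5]
                  have h537 := mul_self_eq_zero.mp q
                  clear * - h537 h34; omega
              · clear * - h516 h515 h468; omega
              · obtain ⟨⟨-, ⟨h538, h539, h540, -⟩⟩, h550, H⟩ | ⟨⟨⟨h541, -⟩, ⟨h542, h543, -⟩⟩, h550, H⟩ | ⟨⟨⟨h544, h545, -⟩, ⟨h546, -⟩⟩, h550, H⟩ | ⟨⟨⟨h547, h548, h549, -⟩, -⟩, h550, H⟩ | ⟨⟨⟩⟩ := H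
                · clear * - h550 h459 h34 b5 g1_1 f1_1; omega
                · clear * - h550 h518 h466 h447 b5 g1_1 f1_1 b3 f0_1 a7; omega
                · clear * - h550 h546 h519 h459; omega
                · have q : (-2 * y1 - x2) * (-x1 - x2) = 0 := by
                    have E0 : y1 + x2 + y2 = 0 := by clear * - h550 h459 b3 f0_1 f1_1 b2 g0_1; omega
                    have E1 : -x1 + u1 = 0 := by clear * - a7; omega
                    have E2 : y1 + x2 + v1 = 0 := by clear * - h550 h459 b3 f0_1 f1_1 b2 g0_1; omega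
                    have E3 : x1 + x2 + u2 = 0 := by clear * - h550 h459 b5 g1_1 f1_1 b3 f0_1 b2 g0_1 a7; omega
                    have E4 : -x2 + v2 = 0 := by clear * - h550 h459 b3 f0_1 f1_1 b2 g0_1; omega
                    have q : 1 * ((-2 * y1 - x2) * (-x1 - x2)) = 0 := by
                      linear_combination (-1) * C.k + (x1) * E0 + (v2) * E1 + (-u2) * E2 + (y1 + x2) * E3 + (x1) * E4
                    linarith only [q]
                  obtain h551 | h551 := mul_eq_zero.mp q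
                  · refine ⟨-1, 0, 1, 1, -1, -1, by norm_num, by norm_num, by norm_num, Or.inl ⟨
                      by clear * - a7; omega,
                      by clear * - h551 h550 h459 h456 b2 f0_1 g0_1; omega,
                      by clear * - h551 h550 h459 h456 b5 g1_1 f1_1 b2 f0_1 g0_1 a7; omega,
                      by clear * - h550 h459; omega⟩⟩
                  · clear * - h551 h550 h466 h459 h456 b2 f0_1 g0_1; omega
              · obtain ⟨⟨-, ⟨h552, h553, h554, -⟩⟩, h564, H⟩ | ⟨⟨⟨h555, -⟩, ⟨h556, h557, -⟩⟩, h564, H⟩ | ⟨⟨⟨h558, h559, -⟩, ⟨h560, -⟩⟩, h564, H⟩ | ⟨⟨⟨h561, h562, h563, -⟩, -⟩, h564, H⟩ | ⟨⟨⟩⟩ := H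
                · clear * - h564 h523 h459 h34 b5 g1_1 f1_1; omega
                · clear * - h564 h523 h521 b5 g1_1 f1_1 d2 b2 f0_1 g0_1 a7; omega
                · clear * - h564 h560 h522 h521 h468 h459; omega
                · clear * - h564 h523 h459 h34 b5 g1_1 f1_1 b2 f0_1 g0_1 a7; omega
            · clear * - h470 h469 h459 h35 h34 b3 f0_1 f1_1 c2; omega
          · have q : (-y1 - x2 - y2) * (-2 * x1 + 2 * y1 + y2) = 0 := by
              have E0 : -x1 + u1 = 0 := by clear * - a7; omega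
              have E1 : -2 * y1 - x2 - y2 + v1 = 0 := by clear * - h459 b2 f0_1 g0_1; omega
              have E2 : x1 - y1 - y2 + u2 = 0 := by clear * - b5 g1_1 f1_1 a7; omega
              have E3 : -x2 + v2 = 0 := by clear * - b2 f0_1 g0_1; omega
              have q : 1 * ((-y1 - x2 - y2) * (-2 * x1 + 2 * y1 + y2)) = 0 := by
                linear_combination (1) * C.k + (-v2) * E0 + (u2) * E1 + (2 * y1 + x2 + y2) * E2 + (-x1) * E3
              linarith only [q]
            obtain h565 | h565 := mul_eq_zero.mp q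
            · refine ⟨-1, 0, 1, 1, -1, -1, by norm_num, by norm_num, by norm_num, Or.inl ⟨
                by clear * - a7; omega,
                by clear * - h565 h459 b2 f0_1 g0_1; omega,
                by clear * - h565 b5 g1_1 f1_1 a7; omega,
                by clear * - h565 b2 f0_1 g0_1; omega⟩⟩
            · have f3_1 := (C.F 3 1).m2
                (by clear * - h565 h459 h448 b6 g1_1 gm1_1 b5 f1_1; omega) (by clear * - h565 h459 h447 b6 g1_1 gm1_1 b5 f1_1 b3 f0_1; omega) (by clear * - h459 h447 b6 g1_1 gm1_1 b5 f1_1; omega)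
              have f3_2 := (C.F 3 2).m2
                (by clear * - h565 h459 h448 h447 b6 g1_1 gm1_1 b5 f1_1; omega) (by clear * - h565 h459 h447 b6 g1_1 gm1_1 b5 f1_1 b3 f0_1; omega) (by clear * - h459 h447 b6 g1_1 gm1_1 b5 f1_1; omega)
              have gm1_2 := (C.G (-1) 2).m3
                (by clear * - h457 h34 b6 g1_1 gm1_1; omega) (by clear * - h565 h459 h457 b6 g1_1 gm1_1 d2 a7; omega) (by clear * - h459 h457 h447 h35 b6 g1_1 gm1_1 b5 f1_1; omega)
              have gm2_1 := (C.G (-2) 1).m3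
                (by clear * - h457 b6 g1_1 gm1_1 h15; omega) (by clear * - h565 h459 h15 d2 a7; omega) (by clear * - h459 h447 b6 g1_1 gm1_1 b5 f1_1 h15; omega)
              replace H := C.S _ _ H (List.cons_ne_nil _ _)
              simp only [Br_cons, Br_nil, Fst, List.nil_append, List.cons_append, List.forall_mem_cons, List.not_mem_nil, false_imp_iff, implies_true, Prod.mk_add_mk, Int.reduceAdd, f3_1, f3_2, f1_2, fm1_1, g2_1, g1_2, gm1_2, gm2_1] at H
              obtain ⟨⟨-, ⟨h566, h567, h568, -⟩⟩, H⟩ | ⟨⟨⟨h569, -⟩, ⟨h570, h571, -⟩⟩, H⟩ | ⟨⟨⟨h572, h573, -⟩, ⟨h574, -⟩⟩, H⟩ | ⟨⟨⟨h575, h576, h577, -⟩, -⟩, H⟩ | ⟨⟨⟩⟩ := H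
              · obtain ⟨⟨-, ⟨h578, h579, h580, -⟩⟩, h590, H⟩ | ⟨⟨⟨h581, -⟩, ⟨h582, h583, -⟩⟩, h590, H⟩ | ⟨⟨⟨h584, h585, -⟩, ⟨h586, -⟩⟩, h590, H⟩ | ⟨⟨⟨h587, h588, h589, -⟩, -⟩, h590, H⟩ | ⟨⟨⟩⟩ := H
                · refine ⟨-1, 0, 1, 1, -1, -1, by norm_num, by norm_num, by norm_num, Or.inl ⟨
                    by clear * - h590 h567 h565 b5 g1_1 f1_1 a7; omega,
                    by clear * - h590 h580 h578 h565 h459 b5 g1_1 f1_1 a7; omega,
                    by clear * - h590 h580 h578 h568 h565 h459 b5 g1_1 f1_1 b3 f0_1 a7; omega,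
                    by clear * - h590 h580 h578 h565 h459 b5 g1_1 f1_1 a7; omega⟩⟩
                · have f4_1 := (C.F 4 1).m2
                    (by clear * - h565 c2; omega) (by clear * - h590 h582 h565 h459 h458 b3 f0_1 f1_1; omega) (by clear * - h590 h582 h459 h458; omega)
                  have f5_2 := (C.F 5 2).m2
                    (by clear * - h590 h583 h568 h565 h459 h458; omega) (by clear * - h590 h582 h565 h459 h458 b3 f0_1 f1_1; omega) (by clear * - h590 h582 h459 h458; omega)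
                  have g2_3 := (C.G 2 3).m0
                    (by clear * - h590 h583 h459 h35 b5 g1_1 f1_1 d2; omega) (by clear * - h583 h581 h458 h35; omega) (by clear * - h590 h583 h567 h565 b5 g1_1 f1_1 a7; omega)
                  have g1_3 := (C.G 1 3).m3
                    (by clear * - h583 h581 h458 h34; omega) (by clear * - h35 d2; omega) (by clear * - h583 h458; omega)
                  replace H := C.S _ _ H (List.cons_ne_nil _ _)
                  simp only [Br_cons, Br_nil, Fst, List.nil_append, List.cons_append, List.forall_mem_cons, List.not_mem_nil, false_imp_iff, implies_true, Prod.mk_add_mk, Int.reduceAdd, f4_1, f5_2, f3_2, f1_2, fm1_1, g2_1, g2_3, g1_3, gm1_2, gm2_1] at H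
                  obtain ⟨⟨-, ⟨h591, h592, h593, h594, -⟩⟩, H⟩ | ⟨⟨⟨h595, -⟩, ⟨h596, h597, h598, -⟩⟩, H⟩ | ⟨⟨⟨h599, h600, -⟩, ⟨h601, h602, -⟩⟩, H⟩ | ⟨⟨⟨h603, h604, h605, -⟩, ⟨h606, -⟩⟩, H⟩ | ⟨⟨⟨h607, h608, h609, h610, -⟩, -⟩, H⟩ | ⟨⟨⟩⟩ := H
                  · clear * - h594 h590 h565 h458 c2 b2 f0_1 g0_1; omega
                  · clear * - h595 h590 h582 h459; omega
                  · clear * - h601 h600; omega
                  · clear * - h606 h590 h581 h565 b5 g1_1 f1_1 b3 f0_1 a7; omega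
                  · obtain ⟨⟨-, ⟨h611, h612, h613, h614, -⟩⟩, h631, H⟩ | ⟨⟨⟨h615, -⟩, ⟨h616, h617, h618, -⟩⟩, h631, H⟩ | ⟨⟨⟨h619, h620, -⟩, ⟨h621, h622, -⟩⟩, h631, H⟩ | ⟨⟨⟨h623, h624, h625, -⟩, ⟨h626, -⟩⟩, h631, H⟩ | ⟨⟨⟨h627, h628, h629, h630, -⟩, -⟩, h631, H⟩ | ⟨⟨⟩⟩ := H
                    · clear * - h631 h590 h581 h565 h459 b5 g1_1 f1_1 b2 f0_1 g0_1 a7; omega
                    · clear * - h631 h615 h610 h607 h590 h565 h459 b2 f0_1 g0_1 a7; omega
                    · clear * - h631 h608 h607 h590 h582; omega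
                    · clear * - h626 h625 h583; omega
                    · clear * - h631 h610 h590 h565 h459 b2 f0_1 g0_1; omega
                · clear * - h586 h458 h36; omega
                · refine ⟨-1, 0, 1, 1, -1, -1, by norm_num, by norm_num, by norm_num, Or.inl ⟨
                    by clear * - a7; omega,
                    by clear * - h590 h459; omega,
                    by clear * - h590 h459 b5 g1_1 f1_1 b3 f0_1 b2 g0_1 a7; omega,
                    by clear * - h590 h459; omega⟩⟩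
              · clear * - h569 h459 h447 b6 g1_1 gm1_1 b5 f1_1; omega
              · obtain ⟨⟨-, ⟨h632, h633, h634, -⟩⟩, h644, H⟩ | ⟨⟨⟨h635, -⟩, ⟨h636, h637, -⟩⟩, h644, H⟩ | ⟨⟨⟨h638, h639, -⟩, ⟨h640, -⟩⟩, h644, H⟩ | ⟨⟨⟨h641, h642, h643, -⟩, -⟩, h644, H⟩ | ⟨⟨⟩⟩ := H
                · clear * - h644 h572 h565 b5 g1_1 f1_1 a7; omega
                · refine ⟨-1, 0, 1, 1, -1, -1, by norm_num, by norm_num, by norm_num, Or.inl ⟨
                    by clear * - a7; omega,
                    by clear * - h644 h459; omega,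
                    by clear * - h644 h459 b5 g1_1 f1_1 b3 f0_1 b2 g0_1 a7; omega,
                    by clear * - h644 h459; omega⟩⟩
                · clear * - h644 h639 h573 h459; omega
                · clear * - h644 h572 h459 b3 f0_1 f1_1 b2 g0_1; omega
              · obtain ⟨⟨-, ⟨h645, h646, h647, -⟩⟩, h657, H⟩ | ⟨⟨⟨h648, -⟩, ⟨h649, h650, -⟩⟩, h657, H⟩ | ⟨⟨⟨h651, h652, -⟩, ⟨h653, -⟩⟩, h657, H⟩ | ⟨⟨⟨h654, h655, h656, -⟩, -⟩, h657, H⟩ | ⟨⟨⟩⟩ := H
                · clear * - h657 h645 h577 h575 h565 h459 b2 f0_1 g0_1; omega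
                · clear * - h657 h577 h575 h565 h459 b2 f0_1 g0_1; omega
                · clear * - h657 h653 h576 h575 h458 h448; omega
                · clear * - h657 h577 h575 h565 h459 b2 f0_1 g0_1; omega
        · obtain ⟨⟨-, ⟨h658, h659, -⟩⟩, h664, H⟩ | ⟨⟨⟨h660, -⟩, ⟨h661, -⟩⟩, h664, H⟩ | ⟨⟨⟨h662, h663, -⟩, -⟩, h664, H⟩ | ⟨⟨⟩⟩ := H
          · clear * - h659 h34 b5 g1_1 f1_1 b3 f0_1 b2 g0_1; omega
          · refine ⟨-1, 0, 1, 1, -1, -1, by norm_num, by norm_num, by norm_num, Or.inl ⟨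
              by clear * - a7; omega,
              by clear * - h664 b3 f0_1 f1_1 b2 g0_1 a5; omega,
              by clear * - h664 b5 g1_1 f1_1 b3 f0_1 b2 g0_1 a7 a5; omega,
              by clear * - h664 b3 f0_1 f1_1 b2 g0_1 a5; omega⟩⟩
          · clear * - h664 h663 h449 a5; omega
        · clear * - h451 h34 b5 g1_1 f1_1 b3 f0_1 b2 g0_1 a7 a5; omega
    · clear * - h18 d2 a4; omega
    · clear * - h19 d2 a4; omega
    · clear * - b5 g1_1 f1_1 b3 f0_1 b2 g0_1 a6; omega
  · have fm1_1 := (C.F (-1) 1).m1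
      (by clear * - c3 c2 a7 a6 a4; omega) (by clear * - c2 a7 a6 a4 a2; omega) (by clear * - h11 c3; omega)
    obtain ⟨g1_1, h665, h666, h667⟩ | ⟨-, h668, h669, h670⟩ | ⟨-, h671, h672, h673⟩ | ⟨g1_1, h674, h675, h676⟩ := C.G 1 1
    · have gm1_1 := (C.G (-1) 1).m3
        (by clear * - h667 d1; omega) (by clear * - h667 b2 f0_1 g0_1 b1 a7; omega) (by clear * - b5 g1_1 f1_1 h667 b4 fm1_1 b2 f0_1 g0_1 b1; omega)
      have q : (v1) * (v1) = 0 := by
        have E0 : y1 = 0 := by clear * - b3 f0_1 f1_1 c3 a2; omega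
        have E1 : -x2 + y2 = 0 := by clear * - b3 f0_1 f1_1 c3 a2; omega
        have E2 : -x1 + u1 = 0 := by clear * - a7; omega
        have E3 : x1 + x2 + u2 = 0 := by clear * - b5 g1_1 f1_1 b3 f0_1 c3 a7 a2; omega
        have E4 : -x2 + v2 = 0 := by clear * - b2 f0_1 g0_1; omega
        have q : 3 * ((-x1 - x2) * (v1)) + 2 * ((-x1 - x2) * (u1 - v1)) + 2 * ((v1) * (v1)) + 4 * ((v1) * (u1 - v1)) + 2 * ((u1 - v1) * (u1 - v1)) = 0 := by
          linear_combination (-1) * C.k + (-x2) * E0 + (x1) * E1 + (-2 * x2 + 2 * u1 + v2) * E2 + (-v1) * E3 + (x1) * E4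
        have p0 : 0 ≤ (-x1 - x2) * (v1) :=
          mul_nonneg (by clear * - b1 f0_1; omega) (by clear * - b6 g1_1 gm1_1 h667; omega)
        have p1 : 0 ≤ (-x1 - x2) * (u1 - v1) :=
          mul_nonneg (by clear * - b1 f0_1; omega) (by clear * - a4; omega)
        have p2 := mul_self_nonneg (v1)
        have p3 : 0 ≤ (v1) * (u1 - v1) :=
          mul_nonneg (by clear * - b6 g1_1 gm1_1 h667; omega) (by clear * - a4; omega)
        have p4 := mul_self_nonneg (u1 - v1)
        linarith only [q, p0, p1, p2, p3, p4]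
      have h677 := mul_self_eq_zero.mp q
      clear * - h677 a6; omega
    · clear * - h670 d2 a4; omega
    · clear * - h671 d2 a4; omega
    · clear * - b5 g1_1 f1_1 b3 f0_1 b2 g0_1 a6; omega

end TreeI

end Pool.Agent.P.MP_e311cd_gt
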