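import Pool.Agent.P.MP_e311cd_gt.I.Tr0

/-! Part of the decision tree (generated). -/

namespace Pool.Agent.P.MP_e311cd_gt

namespace TreeI

variable {f g : ℤ × ℤ → ℤ} {x1 y1 x2 y2 u1 v1 u2 v2 : ℤ}

theorem tm23 (C : Ctx (-1) f g x1 y1 x2 y2 u1 v1 u2 v2)
    (c : M2 (f (0, 1)) (0 * x1 + 1 * x2) (0 * y1 + 1 * y2))
    (d : M3 (g (0, 1)) (0 * u1 + 1 * u2) (0 * v1 + 1 * v2)) :
    Same x1 y1 x2 y2 u1 v1 u2 v2 := by
  have H := C.H
  obtain ⟨a1, a2, a3, a4, a5, a6, a7, b1, b2, b3, b4, b5, b6⟩ := C.R
  obtain ⟨f0_1, c1, c2, c3⟩ := c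
  obtain ⟨g0_1, d1, d2, d3⟩ := d
  obtain ⟨f1_1, h1, h2, h3⟩ | ⟨-, h4, h5, h6⟩ | ⟨f1_1, h7, h8, h9⟩ | ⟨-, h10, h11, h12⟩ := C.F 1 1
  · have fm1_1 := (C.F (-1) 1).m2
      (by clear * - h2 c1; omega) (by clear * - h2 b1 f0_1; omega) (by clear * - h2 c1 b1 f0_1; omega)
    obtain ⟨g1_1, h13, h14, h15⟩ | ⟨-, h16, h17, h18⟩ | ⟨-, h19, h20, h21⟩ | ⟨g1_1, h22, h23, h24⟩ := C.G 1 1
    · have gm1_1 := (C.G (-1) 1).m3
        (by clear * - h15 d1; omega) (by clear * - h15 b2 f0_1 g0_1 b1 a7; omega) (by clear * - b5 g1_1 f1_1 h15 c1 b2 f0_1 g0_1 b1; omega)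
      have q : (-v1) * (x2) = 0 := by
        have E0 : y1 = 0 := by clear * - b4 fm1_1 f1_1 b3 f0_1 a2; omega
        have E1 : -x1 - x2 + y2 = 0 := by clear * - b4 fm1_1 f1_1 b3 f0_1 a2; omega
        have E2 : -x1 + u1 = 0 := by clear * - a7; omega
        have E3 : -x2 + u2 = 0 := by clear * - b5 g1_1 f1_1 a7; omega
        have E4 : x1 + x2 + v2 = 0 := by clear * - b4 fm1_1 f1_1 b3 f0_1 b2 g0_1 a2; omega
        have q : 1 * ((-v1) * (x2)) = 0 := by
          linear_combination (1) * C.k + (x2) * E0 + (-x1) * E1 + (-v2) * E2 + (v1) * E3 + (-x1) * E4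
        linarith only [q]
      obtain h25 | h25 := mul_eq_zero.mp q
      · clear * - h25 a6; omega
      · have f2_1 := (C.F 2 1).m0
          (by clear * - h25 b5 g1_1 f1_1 h15 h14; omega) (by clear * - h25 b5 g1_1 f1_1 h15 h14 b4 fm1_1 b3 f0_1; omega) (by clear * - h25 b3 f0_1 f1_1 h3 a2; omega)
        have f1_2 := (C.F 1 2).m2
          (by clear * - h25 h3 b1 f0_1 a2; omega) (by clear * - h25 b4 fm1_1 f1_1 h3; omega) (by clear * - h25 h3 b1 f0_1; omega)
        have g2_1 := (C.G 2 1).m0
          (by clear * - b5 g1_1 f1_1 h15 h14 b3 f0_1 d1 b2 g0_1; omega) (by clear * - h14 a4; omega) (by clear * - h15 d1; omega)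
        have g1_2 := (C.G 1 2).m3
          (by clear * - h25 b5 g1_1 f1_1 b2 f0_1 g0_1 b1 a4; omega) (by clear * - h14 d2; omega) (by clear * - h25 b5 g1_1 f1_1 h14 b2 f0_1 g0_1 b1; omega)
        replace H := C.S _ _ H (List.cons_ne_nil _ _)
        simp only [Br_cons, Br_nil, Fst, List.nil_append, List.cons_append, List.forall_mem_cons, List.not_mem_nil, false_imp_iff, implies_true, Prod.mk_add_mk, Int.reduceAdd, f2_1, f1_2, fm1_1, g2_1, g1_2, gm1_1] at H
        obtain ⟨⟨-, ⟨h26, h27, -⟩⟩, H⟩ | ⟨⟨⟨h28, -⟩, ⟨h29, -⟩⟩, H⟩ | ⟨⟨⟨h30, h31, -⟩, -⟩, H⟩ | ⟨⟨⟩⟩ := H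
        · clear * - h27 h26 h25 b3 f0_1 f1_1 c2; omega
        · clear * - h29 h25 c2 a2; omega
        · obtain ⟨⟨-, ⟨h32, h33, -⟩⟩, h38, H⟩ | ⟨⟨⟨h34, -⟩, ⟨h35, -⟩⟩, h38, H⟩ | ⟨⟨⟨h36, h37, -⟩, -⟩, h38, H⟩ | ⟨⟨⟩⟩ := H
          · clear * - h38 h30 b5 g1_1 f1_1 a7; omega
          · refine ⟨-1, -1, 0, 1, -1, -1, by norm_num, by norm_num, by norm_num, Or.inl ⟨
              by clear * - h25 a7; omega,
              by clear * - h38 b2 f0_1 g0_1; omega,
              by clear * - h25 b5 g1_1 f1_1 a7; omega,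
              by clear * - b2 f0_1 g0_1; omega⟩⟩
          · clear * - h38 b2 f0_1 g0_1 a6 a2; omega
    · clear * - h18 d2 a4; omega
    · clear * - h19 d2 a4; omega
    · clear * - b5 g1_1 f1_1 b3 f0_1 b2 g0_1 a6; omega
  · clear * - h5 c2 a7 a6 a4 a2; omega
  · obtain ⟨-, h39, h40, h41⟩ | ⟨fm1_1, h42, h43, h44⟩ | ⟨fm1_1, h45, h46, h47⟩ | ⟨-, h48, h49, h50⟩ := C.F (-1) 1
    · clear * - h40 c1 a7 a5 a4; omega
    · obtain ⟨g1_1, h51, h52, h53⟩ | ⟨-, h54, h55, h56⟩ | ⟨-, h57, h58, h59⟩ | ⟨g1_1, h60, h61, h62⟩ := C.G 1 1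
      · have gm1_1 := (C.G (-1) 1).m3
          (by clear * - h53 d1; omega) (by clear * - h53 b2 f0_1 g0_1 b1 a7; omega) (by clear * - b5 g1_1 f1_1 h53 b4 fm1_1 c2 b2 f0_1 g0_1 b1; omega)
        obtain ⟨f2_1, h63, h64, h65⟩ | ⟨-, h66, h67, h68⟩ | ⟨f2_1, h69, h70, h71⟩ | ⟨-, h72, h73, h74⟩ := C.F 2 1
        · have f1_2 := (C.F 1 2).m2
            (by clear * - h44 h7; omega) (by clear * - h8 c2; omega) (by clear * - b5 g1_1 f1_1 h53 h52 c3; omega)
          have g2_1 := (C.G 2 1).m0
            (by clear * - b5 g1_1 f1_1 h53 h52 b3 f0_1 d1 b2 g0_1; omega) (by clear * - h52 a4; omega) (by clear * - h53 d1; omega)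
          obtain ⟨g1_2, h75, h76, h77⟩ | ⟨-, h78, h79, h80⟩ | ⟨-, h81, h82, h83⟩ | ⟨g1_2, h84, h85, h86⟩ := C.G 1 2
          · have q : (-x1 + y2) * (-x1 + y2) = 0 := by
              have E0 : -x1 + u1 = 0 := by clear * - a7; omega
              have E1 : x1 - y1 - y2 + u2 = 0 := by clear * - b5 g1_1 f1_1 a7; omega
              have E2 : y2 + v2 = 0 := by clear * - b2 f0_1 g0_1; omega
              have q : 4 * ((-x1 + y2) * (-x1 + y2)) + 2 * ((-x1 + y2) * (u1 - v1)) + 2 * ((-x1 + y2) * (x1 - y1 - x2 - y2)) + 2 * ((-x1 + y2) * (2 * x1 - 2 * y1 + x2 - y2)) + 4 * ((-x1 + y2) * (u1 + v1 + 2 * u2 + 2 * v2)) + 1 * ((u1 - v1) * (2 * x1 - 2 * y1 + x2 - y2)) + 1 * ((u1 - v1) * (u1 + v1 + 2 * u2 + 2 * v2)) + 1 * ((2 * x1 - 2 * y1 + x2 - y2) * (u1 + v1 + 2 * u2 + 2 * v2)) + 1 * ((u1 + v1 + 2 * u2 + 2 * v2) * (u1 + v1 + 2 * u2 + 2 * v2)) = 0 := by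
                linear_combination (-2) * C.k + (-4 * y1 + 2 * x2 + 4 * y2 + 2 * u1 + 2 * v1 + 6 * u2 + 8 * v2) * E0 + (-2 * x1 + 2 * x2 + 10 * y2 + 4 * u2 + 8 * v2) * E1 + (-4 * x1 + 4 * y1 + 2 * x2 + 10 * y2 + 2 * v1 + 4 * v2) * E2
              have p0 := mul_self_nonneg (-x1 + y2)
              have p1 : 0 ≤ (-x1 + y2) * (u1 - v1) :=
                mul_nonneg (by clear * - b1 f0_1; omega) (by clear * - a4; omega)
              have p2 : 0 ≤ (-x1 + y2) * (x1 - y1 - x2 - y2) :=
                mul_nonneg (by clear * - b1 f0_1; omega) (by clear * - b4 fm1_1 f1_1; omega)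
              have p3 : 0 ≤ (-x1 + y2) * (2 * x1 - 2 * y1 + x2 - y2) :=
                mul_nonneg (by clear * - b1 f0_1; omega) (by clear * - h64; omega)
              have p4 : 0 ≤ (-x1 + y2) * (u1 + v1 + 2 * u2 + 2 * v2) :=
                mul_nonneg (by clear * - b1 f0_1; omega) (by clear * - h77; omega)
              have p5 : 0 ≤ (u1 - v1) * (2 * x1 - 2 * y1 + x2 - y2) :=
                mul_nonneg (by clear * - a4; omega) (by clear * - h64; omega)
              have p6 : 0 ≤ (u1 - v1) * (u1 + v1 + 2 * u2 + 2 * v2) :=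
                mul_nonneg (by clear * - a4; omega) (by clear * - h77; omega)
              have p7 : 0 ≤ (2 * x1 - 2 * y1 + x2 - y2) * (u1 + v1 + 2 * u2 + 2 * v2) :=
                mul_nonneg (by clear * - h64; omega) (by clear * - h77; omega)
              have p8 := mul_self_nonneg (u1 + v1 + 2 * u2 + 2 * v2)
              linarith only [q, p0, p1, p2, p3, p4, p5, p6, p7, p8]
            have h87 := mul_self_eq_zero.mp q
            have q : (y1) * (x2 + v1) = 0 := by
              have E0 : -x1 + y2 = 0 := by clear * - h87; omega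
              have E1 : -x1 + u1 = 0 := by clear * - a7; omega
              have E2 : -y1 + u2 = 0 := by clear * - h87 b5 g1_1 f1_1 a7; omega
              have E3 : x1 + v2 = 0 := by clear * - h87 b2 f0_1 g0_1; omega
              have q : 1 * ((y1) * (x2 + v1)) = 0 := by
                linear_combination (-1) * C.k + (x1) * E0 + (v2) * E1 + (-v1) * E2 + (x1) * E3
              linarith only [q]
            obtain h88 | h88 := mul_eq_zero.mp q
            · replace H := C.S _ _ H (List.cons_ne_nil _ _)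
              simp only [Br_cons, Br_nil, Fst, List.nil_append, List.cons_append, List.forall_mem_cons, List.not_mem_nil, false_imp_iff, implies_true, Prod.mk_add_mk, Int.reduceAdd, f2_1, f1_2, fm1_1, g2_1, g1_2, gm1_1] at H
              obtain ⟨⟨-, ⟨h89, h90, -⟩⟩, H⟩ | ⟨⟨⟨h91, -⟩, ⟨h92, -⟩⟩, H⟩ | ⟨⟨⟨h93, h94, -⟩, -⟩, H⟩ | ⟨⟨⟩⟩ := H
              · obtain ⟨⟨-, ⟨h95, h96, -⟩⟩, h101, H⟩ | ⟨⟨⟨h97, -⟩, ⟨h98, -⟩⟩, h101, H⟩ | ⟨⟨⟨h99, h100, -⟩, -⟩, h101, H⟩ | ⟨⟨⟩⟩ := H
                · clear * - h101 b5 g1_1 f1_1 h7 a7; omega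
                · clear * - h101 h88 h87 b5 g1_1 f1_1 c2 a7; omega
                · clear * - h99 h88 h77 b5 g1_1 f1_1 b2 f0_1 g0_1; omega
              · clear * - h92 h91 h88 h87 h65; omega
              · obtain ⟨⟨-, ⟨h102, h103, -⟩⟩, h108, H⟩ | ⟨⟨⟨h104, -⟩, ⟨h105, -⟩⟩, h108, H⟩ | ⟨⟨⟨h106, h107, -⟩, -⟩, h108, H⟩ | ⟨⟨⟩⟩ := H
                · clear * - h108 h93 b5 g1_1 f1_1 h7 a7; omega
                · clear * - h108 h88 h87 b5 g1_1 f1_1 h7 a7; omega
                · clear * - h106 h88 h77 b5 g1_1 f1_1 b2 f0_1 g0_1; omega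
            · refine ⟨0, -1, -1, 0, 1, -1, by norm_num, by norm_num, by norm_num, Or.inr ⟨
                by clear * - h88; omega,
                by clear * - h88 h87 h77 h64 b5 g1_1 f1_1 b2 f0_1 g0_1 a7; omega,
                by clear * - h87 b2 f0_1 g0_1; omega,
                by clear * - h88 h87 h77 h64 b5 g1_1 f1_1 b2 f0_1 g0_1 a7; omega⟩⟩
          · clear * - h80 h52 d2; omega
          · clear * - h81 h52 d2; omega
          · replace H := C.S _ _ H (List.cons_ne_nil _ _)
            simp only [Br_cons, Br_nil, Fst, List.nil_append, List.cons_append, List.forall_mem_cons, List.not_mem_nil, false_imp_iff, implies_true, Prod.mk_add_mk, Int.reduceAdd, f2_1, f1_2, fm1_1, g2_1, g1_2, gm1_1] at H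
            obtain ⟨⟨-, ⟨h109, h110, -⟩⟩, H⟩ | ⟨⟨⟨h111, -⟩, ⟨h112, -⟩⟩, H⟩ | ⟨⟨⟨h113, h114, -⟩, -⟩, H⟩ | ⟨⟨⟩⟩ := H
            · obtain ⟨⟨-, ⟨h115, h116, -⟩⟩, h121, H⟩ | ⟨⟨⟨h117, -⟩, ⟨h118, -⟩⟩, h121, H⟩ | ⟨⟨⟨h119, h120, -⟩, -⟩, h121, H⟩ | ⟨⟨⟩⟩ := H
              · clear * - h116 h84 b5 g1_1 f1_1 b3 f0_1 b2 g0_1; omega
              · have q : (x1 - y2) * (-2 * x1 + 2 * y1 - x2 + 2 * y2) = 0 := by
                  have E0 : -x1 + u1 = 0 := by clear * - a7; omega
                  have E1 : 2 * x1 + x2 - 2 * y2 + v1 = 0 := by clear * - h121 b2 f0_1 g0_1; omega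
                  have E2 : x1 - y1 - y2 + u2 = 0 := by clear * - b5 g1_1 f1_1 a7; omega
                  have E3 : y2 + v2 = 0 := by clear * - b2 f0_1 g0_1; omega
                  have q : 1 * ((x1 - y2) * (-2 * x1 + 2 * y1 - x2 + 2 * y2)) = 0 := by
                    linear_combination (1) * C.k + (-v2) * E0 + (u2) * E1 + (-2 * x1 - x2 + 2 * y2) * E2 + (-x1) * E3
                  linarith only [q]
                obtain h122 | h122 := mul_eq_zero.mp q
                · refine ⟨0, -1, -1, 0, 1, -1, by norm_num, by norm_num, by norm_num, Or.inr ⟨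
                    by clear * - h122 h121 b2 f0_1 g0_1; omega,
                    by clear * - h122 a7; omega,
                    by clear * - h122 b2 f0_1 g0_1; omega,
                    by clear * - h122 b5 g1_1 f1_1 a7; omega⟩⟩
                · clear * - h122 h121 h118 b3 f0_1 f1_1 h7 c2 b2 g0_1; omega
              · have f3_1 := (C.F 3 1).m0
                  (by clear * - h110 h65 h64; omega) (by clear * - h110 h109 h65 h64; omega) (by clear * - h65 h43; omega)
                have f3_2 := (C.F 3 2).m2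
                  (by clear * - h121 h120 h110 b3 f0_1 f1_1 b2 g0_1; omega) (by clear * - h65 h8; omega) (by clear * - h121 h120 h65 b5 g1_1 f1_1 h53 b3 f0_1; omega)
                have gm1_2 := (C.G (-1) 2).m3
                  (by clear * - h119 h84 b6 g1_1 gm1_1; omega) (by clear * - h121 b5 g1_1 f1_1 b3 f0_1 d2 c2 a7; omega) (by clear * - h121 h86 h65 h64; omega)
                obtain ⟨-, h123, h124, h125⟩ | ⟨gm2_1, h126, h127, h128⟩ | ⟨-, h129, h130, h131⟩ | ⟨gm2_1, h132, h133, h134⟩ := C.G (-2) 1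
                · clear * - h125 h119 b6 g1_1 gm1_1 h53; omega
                · replace H := C.S _ _ H (List.cons_ne_nil _ _)
                  simp only [Br_cons, Br_nil, Fst, List.nil_append, List.cons_append, List.forall_mem_cons, List.not_mem_nil, false_imp_iff, implies_true, Prod.mk_add_mk, Int.reduceAdd, f3_1, f3_2, f1_2, fm1_1, g2_1, g1_2, gm1_2, gm2_1] at H
                  obtain ⟨⟨-, ⟨h135, h136, h137, -⟩⟩, H⟩ | ⟨⟨⟨h138, -⟩, ⟨h139, h140, -⟩⟩, H⟩ | ⟨⟨⟨h141, h142, -⟩, ⟨h143, -⟩⟩, H⟩ | ⟨⟨⟨h144, h145, h146, -⟩, -⟩, H⟩ | ⟨⟨⟩⟩ := H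
                  · clear * - h137 h135 h121 b6 g1_1 gm1_1 b5 f1_1 c2; omega
                  · clear * - h140 b3 f0_1 f1_1 c2 b1; omega
                  · clear * - h143 h142 c2 b1 f0_1; omega
                  · obtain ⟨⟨-, ⟨h147, h148, h149, -⟩⟩, h159, H⟩ | ⟨⟨⟨h150, -⟩, ⟨h151, h152, -⟩⟩, h159, H⟩ | ⟨⟨⟨h153, h154, -⟩, ⟨h155, -⟩⟩, h159, H⟩ | ⟨⟨⟨h156, h157, h158, -⟩, -⟩, h159, H⟩ | ⟨⟨⟩⟩ := H
                    · clear * - h159 h149 h146 h145 b5 g1_1 f1_1; omega
                    · have q : (y1) * (-x1 - 2 * x2) = 0 := by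
                        have E0 : -x1 + y2 = 0 := by clear * - h159 h121 b2 f0_1 g0_1; omega
                        have E1 : -x1 + u1 = 0 := by clear * - a7; omega
                        have E2 : -x1 - x2 + v1 = 0 := by clear * - h159 h121; omega
                        have E3 : -y1 + u2 = 0 := by clear * - h159 h121 b5 g1_1 f1_1 b2 f0_1 g0_1 a7; omega
                        have E4 : x1 + v2 = 0 := by clear * - h159 h121; omega
                        have q : 1 * ((y1) * (-x1 - 2 * x2)) = 0 := by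
                          linear_combination (1) * C.k + (-x1) * E0 + (-v2) * E1 + (u2) * E2 + (x1 + x2) * E3 + (-x1) * E4
                        linarith only [q]
                      obtain h160 | h160 := mul_eq_zero.mp q
                      · refine ⟨-1, -1, 1, 0, -1, -1, by norm_num, by norm_num, by norm_num, Or.inr ⟨
                          by clear * - h159 h121; omega,
                          by clear * - h160 h159 h121 b2 f0_1 g0_1 a7; omega,
                          by clear * - h159 h121; omega,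
                          by clear * - h160 h159 h121 b5 g1_1 f1_1 b2 f0_1 g0_1 a7; omega⟩⟩
                      · clear * - h160 h159 h121 h120; omega
                    · clear * - h159 h154 h144 h121; omega
                    · clear * - h159 h121 h64 b5 g1_1 f1_1 b2 f0_1 g0_1 a7 a6; omega
                · clear * - h130 h119 b6 g1_1 gm1_1 h53; omega
                · replace H := C.S _ _ H (List.cons_ne_nil _ _)
                  simp only [Br_cons, Br_nil, Fst, List.nil_append, List.cons_append, List.forall_mem_cons, List.not_mem_nil, false_imp_iff, implies_true, Prod.mk_add_mk, Int.reduceAdd, f3_1, f3_2, f1_2, fm1_1, g2_1, g1_2, gm1_2, gm2_1] at H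
                  obtain ⟨⟨-, ⟨h161, h162, h163, -⟩⟩, H⟩ | ⟨⟨⟨h164, -⟩, ⟨h165, h166, -⟩⟩, H⟩ | ⟨⟨⟨h167, h168, -⟩, ⟨h169, -⟩⟩, H⟩ | ⟨⟨⟨h170, h171, h172, -⟩, -⟩, H⟩ | ⟨⟨⟩⟩ := H
                  · clear * - h163 h161 h121 b6 g1_1 gm1_1 b5 f1_1 c2; omega
                  · clear * - h166 b3 f0_1 f1_1 c2 b1; omega
                  · clear * - h169 h168 c2 b1 f0_1; omega
                  · obtain ⟨⟨-, ⟨h173, h174, h175, -⟩⟩, h185, H⟩ | ⟨⟨⟨h176, -⟩, ⟨h177, h178, -⟩⟩, h185, H⟩ | ⟨⟨⟨h179, h180, -⟩, ⟨h181, -⟩⟩, h185, H⟩ | ⟨⟨⟨h182, h183, h184, -⟩, -⟩, h185, H⟩ | ⟨⟨⟩⟩ := H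
                    · clear * - h185 h175 h172 h171 h121 h120 h119 b5 g1_1 f1_1 a7; omega
                    · have q : (-x1 - 2 * x2) * (y1) = 0 := by
                        have E0 : -x1 + y2 = 0 := by clear * - h185 h121 b2 f0_1 g0_1; omega
                        have E1 : -x1 + u1 = 0 := by clear * - a7; omega
                        have E2 : -x1 - x2 + v1 = 0 := by clear * - h185 h121; omega
                        have E3 : -y1 + u2 = 0 := by clear * - h185 h121 b5 g1_1 f1_1 b2 f0_1 g0_1 a7; omega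
                        have E4 : x1 + v2 = 0 := by clear * - h185 h121; omega
                        have q : 1 * ((-x1 - 2 * x2) * (y1)) = 0 := by
                          linear_combination (1) * C.k + (-x1) * E0 + (-v2) * E1 + (u2) * E2 + (x1 + x2) * E3 + (-x1) * E4
                        linarith only [q]
                      obtain h186 | h186 := mul_eq_zero.mp q
                      · clear * - h186 h185 h121 h120; omega
                      · clear * - h186 h185 h133 h121 h120 b5 g1_1 f1_1 b2 f0_1 g0_1 a7; omega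
                    · clear * - h181 h180 h134; omega
                    · clear * - h185 h133 h121 b6 g1_1 gm1_1 a7; omega
            · clear * - h111 h7 b1 f0_1; omega
            · obtain ⟨⟨-, ⟨h187, h188, -⟩⟩, h193, H⟩ | ⟨⟨⟨h189, -⟩, ⟨h190, -⟩⟩, h193, H⟩ | ⟨⟨⟨h191, h192, -⟩, -⟩, h193, H⟩ | ⟨⟨⟩⟩ := H
              · clear * - h188 h84 b5 g1_1 f1_1 b3 f0_1 b2 g0_1; omega
              · have q : (y1) * (x1 + 2 * x2) = 0 := by
                  have E0 : -x1 + u1 = 0 := by clear * - a7; omega
                  have E1 : x1 - x2 - 2 * y2 + v1 = 0 := by clear * - h193 b2 f0_1 g0_1; omega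
                  have E2 : x1 - y1 - y2 + u2 = 0 := by clear * - b5 g1_1 f1_1 a7; omega
                  have E3 : y2 + v2 = 0 := by clear * - b2 f0_1 g0_1; omega
                  have q : 4 * ((y1) * (-x1 + y2)) + 1 * ((y1) * (x1 + 2 * x2)) + 4 * ((-x1 + y2) * (-x1 + y2)) + 1 * ((-x1 + y2) * (-u1 - v1 - 2 * u2 - 2 * v2)) + 1 * ((-x1 + y2) * (x1 + 2 * x2)) = 0 := by
                    linear_combination (-1) * C.k + (x1 - y2 + v2) * E0 + (x1 - y2 - u2) * E1 + (3 * x1 - x2 - 4 * y2) * E2 + (3 * x1 - 2 * y2) * E3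
                  have p0 : 0 ≤ (y1) * (-x1 + y2) :=
                    mul_nonneg (by clear * - b3 f0_1 f1_1; omega) (by clear * - b1 f0_1; omega)
                  have p1 : 0 ≤ (y1) * (x1 + 2 * x2) :=
                    mul_nonneg (by clear * - b3 f0_1 f1_1; omega) (by clear * - h113; omega)
                  have p2 := mul_self_nonneg (-x1 + y2)
                  have p3 : 0 ≤ (-x1 + y2) * (-u1 - v1 - 2 * u2 - 2 * v2) :=
                    mul_nonneg (by clear * - b1 f0_1; omega) (by clear * - h84; omega)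
                  have p4 : 0 ≤ (-x1 + y2) * (x1 + 2 * x2) :=
                    mul_nonneg (by clear * - b1 f0_1; omega) (by clear * - h113; omega)
                  linarith only [q, p0, p1, p2, p3, p4]
                obtain h194 | h194 := mul_eq_zero.mp q
                · have q : (x1 - y2) * (-x1 + x2 + 2 * y2) = 0 := by
                    have E0 : y1 = 0 := by clear * - h194; omega
                    have E1 : -x1 + u1 = 0 := by clear * - a7; omega
                    have E2 : x1 - x2 - 2 * y2 + v1 = 0 := by clear * - h193 b2 f0_1 g0_1; omega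
                    have E3 : x1 - y2 + u2 = 0 := by clear * - h194 b5 g1_1 f1_1 a7; omega
                    have E4 : y2 + v2 = 0 := by clear * - b2 f0_1 g0_1; omega
                    have q : 1 * ((x1 - y2) * (-x1 + x2 + 2 * y2)) = 0 := by
                      linear_combination (1) * C.k + (x2) * E0 + (-v2) * E1 + (u2) * E2 + (-x1 + x2 + 2 * y2) * E3 + (-x1) * E4
                    linarith only [q]
                  obtain h195 | h195 := mul_eq_zero.mp q
                  · refine ⟨-1, -1, 1, 0, -1, -1, by norm_num, by norm_num, by norm_num, Or.inr ⟨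
                      by clear * - h195 h193 b2 f0_1 g0_1; omega,
                      by clear * - h195 h194 a7; omega,
                      by clear * - h195 b2 f0_1 g0_1; omega,
                      by clear * - h195 h194 b5 g1_1 f1_1 a7; omega⟩⟩
                  · clear * - h195 h194 h114; omega
                · clear * - h194 h113; omega
              · have q : (-x1 + y1 + x2 + y2) * (-x1 + y2) = 0 := by
                  have E0 : -x1 + u1 = 0 := by clear * - a7; omega
                  have E1 : -x1 + x2 + y2 + v1 = 0 := by clear * - h193 b2 f0_1 g0_1; omega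
                  have E2 : x1 - y1 - y2 + u2 = 0 := by clear * - b5 g1_1 f1_1 a7; omega
                  have E3 : y2 + v2 = 0 := by clear * - b2 f0_1 g0_1; omega
                  have q : 1 * ((-x1 + y1 + x2 + y2) * (-x1 + y2)) = 0 := by
                    linear_combination (1) * C.k + (-v2) * E0 + (u2) * E1 + (x1 - x2 - y2) * E2 + (-x1) * E3
                  linarith only [q]
                obtain h196 | h196 := mul_eq_zero.mp q
                · refine ⟨-1, 0, 0, 1, -1, -1, by norm_num, by norm_num, by norm_num, Or.inl ⟨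
                    by clear * - a7; omega,
                    by clear * - h196 h193 b2 f0_1 g0_1; omega,
                    by clear * - h196 h193 b6 g1_1 gm1_1 b5 f1_1 a7; omega,
                    by clear * - b2 f0_1 g0_1; omega⟩⟩
                · refine ⟨0, -1, -1, 0, 1, -1, by norm_num, by norm_num, by norm_num, Or.inr ⟨
                    by clear * - h196 h193 b2 f0_1 g0_1; omega,
                    by clear * - h196 a7; omega,
                    by clear * - h196 b2 f0_1 g0_1; omega,
                    by clear * - h196 b5 g1_1 f1_1 a7; omega⟩⟩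
        · clear * - h67 h43 h8; omega
        · have f1_2 := (C.F 1 2).m2
            (by clear * - h69 h44; omega) (by clear * - h8 c2; omega) (by clear * - b5 g1_1 f1_1 h53 h52 c3; omega)
          have g2_1 := (C.G 2 1).m0
            (by clear * - h71 b5 g1_1 f1_1 d1 b2 f0_1 g0_1; omega) (by clear * - h52 a4; omega) (by clear * - h53 d1; omega)
          obtain ⟨g1_2, h197, h198, h199⟩ | ⟨-, h200, h201, h202⟩ | ⟨-, h203, h204, h205⟩ | ⟨g1_2, h206, h207, h208⟩ := C.G 1 2
          · replace H := C.S _ _ H (List.cons_ne_nil _ _)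
            simp only [Br_cons, Br_nil, Fst, List.nil_append, List.cons_append, List.forall_mem_cons, List.not_mem_nil, false_imp_iff, implies_true, Prod.mk_add_mk, Int.reduceAdd, f2_1, f1_2, fm1_1, g2_1, g1_2, gm1_1] at H
            obtain ⟨⟨-, ⟨h209, h210, -⟩⟩, H⟩ | ⟨⟨⟨h211, -⟩, ⟨h212, -⟩⟩, H⟩ | ⟨⟨⟨h213, h214, -⟩, -⟩, H⟩ | ⟨⟨⟩⟩ := H
            · obtain ⟨⟨-, ⟨h215, h216, -⟩⟩, h221, H⟩ | ⟨⟨⟨h217, -⟩, ⟨h218, -⟩⟩, h221, H⟩ | ⟨⟨⟨h219, h220, -⟩, -⟩, h221, H⟩ | ⟨⟨⟩⟩ := H
              · clear * - h221 b5 g1_1 f1_1 d1 b2 f0_1 g0_1; omega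
              · have q : (x2 + v1) * (y1) = 0 := by
                  have E0 : -x1 + y2 = 0 := by clear * - h221 b5 g1_1 f1_1 b1 f0_1 a7; omega
                  have E1 : -x1 + u1 = 0 := by clear * - h221 b5 g1_1 f1_1 b1 f0_1 a7; omega
                  have E2 : -y1 + u2 = 0 := by clear * - h221 b5 g1_1 f1_1; omega
                  have E3 : x1 + v2 = 0 := by clear * - h221 b5 g1_1 f1_1 b2 f0_1 g0_1 b1 a7; omega
                  have q : 1 * ((x2 + v1) * (y1)) = 0 := by
                    linear_combination (-1) * C.k + (x1) * E0 + (v2) * E1 + (-v1) * E2 + (x1) * E3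
                  linarith only [q]
                obtain h222 | h222 := mul_eq_zero.mp q
                · refine ⟨0, -1, -1, 0, 1, -1, by norm_num, by norm_num, by norm_num, Or.inr ⟨
                    by clear * - h222; omega,
                    by clear * - h221 b5 g1_1 f1_1; omega,
                    by clear * - h221 b5 g1_1 f1_1 b2 f0_1 g0_1 b1 a7; omega,
                    by clear * - h221 b5 g1_1 f1_1; omega⟩⟩
                · clear * - h222 h221 h69 b5 g1_1 f1_1 c2 a7; omega
              · have q : (-y1) * (-2 * x1 + 2 * y1 + x2 + 2 * y2) = 0 := by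
                  have E0 : -x1 + u1 = 0 := by clear * - a7; omega
                  have E1 : -2 * y1 + v1 = 0 := by clear * - h221 b2 f0_1 g0_1; omega
                  have E2 : x1 - y1 - y2 + u2 = 0 := by clear * - b5 g1_1 f1_1 a7; omega
                  have E3 : y2 + v2 = 0 := by clear * - b2 f0_1 g0_1; omega
                  have q : 1 * ((-y1) * (-2 * x1 + 2 * y1 + x2 + 2 * y2)) = 0 := by
                    linear_combination (1) * C.k + (-v2) * E0 + (u2) * E1 + (2 * y1) * E2 + (-x1) * E3
                  linarith only [q]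
                obtain h223 | h223 := mul_eq_zero.mp q
                · clear * - h223 h221 h199 b6 g1_1 gm1_1 d1 b2 f0_1 g0_1; omega
                · obtain ⟨f3_1, h224, h225, h226⟩ | ⟨-, h227, h228, h229⟩ | ⟨f3_1, h230, h231, h232⟩ | ⟨-, h233, h234, h235⟩ := C.F 3 1
                  · have f3_2 := (C.F 3 2).m2
                      (by clear * - h225 h69; omega) (by clear * - h226 h225 h223 h210; omega) (by clear * - h226 h223 h210 h71; omega)
                    have gm1_2 := (C.G (-1) 2).m3
                      (by clear * - h219 b6 g1_1 gm1_1 d1; omega) (by clear * - h220 h198 b6 g1_1 gm1_1; omega) (by clear * - h221 h219 h198 h71 b6 g1_1 gm1_1; omega)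
                    have gm2_1 := (C.G (-2) 1).m3
                      (by clear * - h219 h199 b6 g1_1 gm1_1; omega) (by clear * - h221 h220 h199 b6 g1_1 gm1_1 b5 f1_1 b2 f0_1 g0_1; omega) (by clear * - h221 h219 h199 h71 b6 g1_1 gm1_1; omega)
                    replace H := C.S _ _ H (List.cons_ne_nil _ _)
                    simp only [Br_cons, Br_nil, Fst, List.nil_append, List.cons_append, List.forall_mem_cons, List.not_mem_nil, false_imp_iff, implies_true, Prod.mk_add_mk, Int.reduceAdd, f3_1, f3_2, f1_2, fm1_1, g2_1, g1_2, gm1_2, gm2_1] at H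
                    obtain ⟨⟨-, ⟨h236, h237, h238, -⟩⟩, H⟩ | ⟨⟨⟨h239, -⟩, ⟨h240, h241, -⟩⟩, H⟩ | ⟨⟨⟨h242, h243, -⟩, ⟨h244, -⟩⟩, H⟩ | ⟨⟨⟨h245, h246, h247, -⟩, -⟩, H⟩ | ⟨⟨⟩⟩ := H
                    · obtain ⟨⟨-, ⟨h248, h249, h250, -⟩⟩, h260, H⟩ | ⟨⟨⟨h251, -⟩, ⟨h252, h253, -⟩⟩, h260, H⟩ | ⟨⟨⟨h254, h255, -⟩, ⟨h256, -⟩⟩, h260, H⟩ | ⟨⟨⟨h257, h258, h259, -⟩, -⟩, h260, H⟩ | ⟨⟨⟩⟩ := H
                      · clear * - h260 h250 h238 h223 h219 b5 g1_1 f1_1 d1 a7; omega
                      · have f4_1 := (C.F 4 1).m0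
                          (by clear * - h238 h226 h225; omega) (by clear * - h238 h236 h226 h225; omega) (by clear * - h260 h253 h252 h226 h223 h221 b6 g1_1 gm1_1 b5 f1_1; omega)
                        have f5_2 := (C.F 5 2).m2
                          (by clear * - h238 h223 h221 b6 g1_1 gm1_1 b5 f1_1; omega) (by clear * - h237 h226 h225 h223; omega) (by clear * - h260 h253 h252 h226 h221 b6 g1_1 gm1_1 b5 f1_1; omega)
                        have g2_3 := (C.G 2 3).m0
                          (by clear * - h260 h251 h226 h225; omega) (by clear * - h260 h252 h225 h221 h220 b5 g1_1 f1_1; omega) (by clear * - h253 h251 h220 h199; omega)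
                        have g1_3 := (C.G 1 3).m3
                          (by clear * - h260 h238 h225 h223 h221 d1 b2 f0_1 g0_1; omega) (by clear * - h252 h220 b6 g1_1 gm1_1; omega) (by clear * - h260 h252 h225 h221 h220 b2 f0_1 g0_1; omega)
                        replace H := C.S _ _ H (List.cons_ne_nil _ _)
                        simp only [Br_cons, Br_nil, Fst, List.nil_append, List.cons_append, List.forall_mem_cons, List.not_mem_nil, false_imp_iff, implies_true, Prod.mk_add_mk, Int.reduceAdd, f4_1, f5_2, f3_2, f1_2, fm1_1, g2_1, g2_3, g1_3, gm1_2, gm2_1] at H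
                        obtain ⟨⟨-, ⟨h261, h262, h263, h264, -⟩⟩, H⟩ | ⟨⟨⟨h265, -⟩, ⟨h266, h267, h268, -⟩⟩, H⟩ | ⟨⟨⟨h269, h270, -⟩, ⟨h271, h272, -⟩⟩, H⟩ | ⟨⟨⟨h273, h274, h275, -⟩, ⟨h276, -⟩⟩, H⟩ | ⟨⟨⟨h277, h278, h279, h280, -⟩, -⟩, H⟩ | ⟨⟨⟩⟩ := H
                        · clear * - h264 h261 h260 h223 h221 h220 b6 g1_1 gm1_1 b5 f1_1; omega
                        · clear * - h268 h265 h260 h251 h223 h221 b6 g1_1 gm1_1 b5 f1_1; omega
                        · clear * - h271 h270; omega
                        · clear * - h276 h275 h237 h225 h223; omega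
                        · obtain ⟨⟨-, ⟨h281, h282, h283, h284, -⟩⟩, h301, H⟩ | ⟨⟨⟨h285, -⟩, ⟨h286, h287, h288, -⟩⟩, h301, H⟩ | ⟨⟨⟨h289, h290, -⟩, ⟨h291, h292, -⟩⟩, h301, H⟩ | ⟨⟨⟨h293, h294, h295, -⟩, ⟨h296, -⟩⟩, h301, H⟩ | ⟨⟨⟨h297, h298, h299, h300, -⟩, -⟩, h301, H⟩ | ⟨⟨⟩⟩ := H
                          · clear * - h301 h284 h282 h277 h251 h223 h220 b5 g1_1 f1_1; omega
                          · clear * - h301 h277 h260 h251; omega
                          · clear * - h289 h260 h251 h225 h220 b5 g1_1 f1_1 b2 f0_1 g0_1; omega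
                          · clear * - h301 h296 h295 h277 h260 h253; omega
                          · clear * - h301 h260 h253 h223 h221 h220 h199 b2 f0_1 g0_1; omega
                      · clear * - h255 b6 g1_1 gm1_1 d1; omega
                      · clear * - h260 h257 h238 h223 h221 h199 b5 g1_1 f1_1 b2 f0_1 g0_1 a7; omega
                    · clear * - h240 h239 h226 h223 h69; omega
                    · clear * - h244 h243 h225 h223 h210; omega
                    · obtain ⟨⟨-, ⟨h302, h303, h304, -⟩⟩, h314, H⟩ | ⟨⟨⟨h305, -⟩, ⟨h306, h307, -⟩⟩, h314, H⟩ | ⟨⟨⟨h308, h309, -⟩, ⟨h310, -⟩⟩, h314, H⟩ | ⟨⟨⟨h311, h312, h313, -⟩, -⟩, h314, H⟩ | ⟨⟨⟩⟩ := H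
                      · clear * - h314 h304 h245 h223 h219 b5 g1_1 f1_1 d1 a7; omega
                      · have fm1_2 := (C.F (-1) 2).m1
                          (by clear * - h314 h307 h306 h247 h223 h220 h69; omega) (by clear * - h314 h307 h223 h221 h199 h69 b2 f0_1 g0_1; omega) (by clear * - h314 h307 h306 h247 h223 h221 h220; omega)
                        have fm2_1 := (C.F (-2) 1).m1
                          (by clear * - h314 h307 h306 h247 h246 h223 h220; omega) (by clear * - h314 h307 h306 h247 h223 h221 h69; omega) (by clear * - h314 h307 h306 h247 h223 h221 h220; omega)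
                        have g2_3 := (C.G 2 3).m0
                          (by clear * - h307 h306 h305 h220; omega) (by clear * - h306 h220 h52; omega) (by clear * - h307 h305 h220 h199; omega)
                        have g1_3 := (C.G 1 3).m3
                          (by clear * - h314 h225 h223 h221 h220 b5 g1_1 f1_1 b2 f0_1 g0_1; omega) (by clear * - h306 h220 b6 g1_1 gm1_1; omega) (by clear * - h314 h223 h221 h220 h69 b5 g1_1 f1_1 d1 b2 f0_1 g0_1; omega)
                        replace H := C.S _ _ H (List.cons_ne_nil _ _)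
                        simp only [Br_cons, Br_nil, Fst, List.nil_append, List.cons_append, List.forall_mem_cons, List.not_mem_nil, false_imp_iff, implies_true, Prod.mk_add_mk, Int.reduceAdd, f3_1, f3_2, f1_2, fm1_2, fm2_1, g2_1, g2_3, g1_3, gm1_2, gm2_1] at H
                        obtain ⟨⟨-, ⟨h315, h316, h317, h318, -⟩⟩, H⟩ | ⟨⟨⟨h319, -⟩, ⟨h320, h321, h322, -⟩⟩, H⟩ | ⟨⟨⟨h323, h324, -⟩, ⟨h325, h326, -⟩⟩, H⟩ | ⟨⟨⟨h327, h328, h329, -⟩, ⟨h330, -⟩⟩, H⟩ | ⟨⟨⟨h331, h332, h333, h334, -⟩, -⟩, H⟩ | ⟨⟨⟩⟩ := H
                        · obtain ⟨⟨-, ⟨h335, h336, h337, h338, -⟩⟩, h355, H⟩ | ⟨⟨⟨h339, -⟩, ⟨h340, h341, h342, -⟩⟩, h355, H⟩ | ⟨⟨⟨h343, h344, -⟩, ⟨h345, h346, -⟩⟩, h355, H⟩ | ⟨⟨⟨h347, h348, h349, -⟩, ⟨h350, -⟩⟩, h355, H⟩ | ⟨⟨⟨h351, h352, h353, h354, -⟩, -⟩, h355, H⟩ | ⟨⟨⟩⟩ := H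
                          · clear * - h355 h338 h336 h314 h223 h220 b5 g1_1 f1_1; omega
                          · clear * - h355 h318 h314 h305; omega
                          · clear * - h355 h314 h223 h221 h220 b2 f0_1 g0_1; omega
                          · clear * - h355 h350 h349 h318 h314 h307; omega
                          · have f4_1 := (C.F 4 1).m0
                              (by clear * - h355 h318 h314 h307; omega) (by clear * - h355 h318 h316 h314 h307 h225; omega) (by clear * - h355 h315 h314 h307 h226 h223; omega)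
                            have f5_2 := (C.F 5 2).m2
                              (by clear * - h355 h353 h223 h221 b2 f0_1 g0_1; omega) (by clear * - h355 h318 h315 h314 h307 h226; omega) (by clear * - h355 h315 h314 h307 h223; omega)
                            have gm3_2 := (C.G (-3) 2).m3
                              (by clear * - h353 h352 h351 h307; omega) (by clear * - h355 h314 h223 h220 h199 b6 g1_1 gm1_1 b5 f1_1; omega) (by clear * - h355 h354 h318 h314 h307; omega)
                            have gm3_1 := (C.G (-3) 1).m3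
                              (by clear * - h355 h352 h351 h314 h307 h225 h223 h221; omega) (by clear * - h355 h314 h225 h223 h221 h199 b5 g1_1 f1_1 b2 f0_1 g0_1; omega) (by clear * - h355 h318 h314 h307 h225 h223 h221; omega)
                            replace H := C.S _ _ H (List.cons_ne_nil _ _)
                            simp only [Br_cons, Br_nil, Fst, List.nil_append, List.cons_append, List.forall_mem_cons, List.not_mem_nil, false_imp_iff, implies_true, Prod.mk_add_mk, Int.reduceAdd, f4_1, f5_2, f3_2, f1_2, fm1_2, fm2_1, g2_1, g2_3, g1_3, gm1_2, gm3_2, gm3_1] at H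
                            obtain ⟨⟨-, ⟨h356, h357, h358, h359, h360, -⟩⟩, H⟩ | ⟨⟨⟨h361, -⟩, ⟨h362, h363, h364, h365, -⟩⟩, H⟩ | ⟨⟨⟨h366, h367, -⟩, ⟨h368, h369, h370, -⟩⟩, H⟩ | ⟨⟨⟨h371, h372, h373, -⟩, ⟨h374, h375, -⟩⟩, H⟩ | ⟨⟨⟨h376, h377, h378, h379, -⟩, ⟨h380, -⟩⟩, H⟩ | ⟨⟨⟨h381, h382, h383, h384, h385, -⟩, -⟩, H⟩ | ⟨⟨⟩⟩ := H
                            · clear * - h360 h245; omega
                            · clear * - h364 h245 h223 h221 b6 g1_1 gm1_1 b5 f1_1; omega
                            · clear * - h368 h367; omega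
                            · obtain ⟨⟨-, ⟨h386, h387, h388, h389, h390, -⟩⟩, h416, H⟩ | ⟨⟨⟨h391, -⟩, ⟨h392, h393, h394, h395, -⟩⟩, h416, H⟩ | ⟨⟨⟨h396, h397, -⟩, ⟨h398, h399, h400, -⟩⟩, h416, H⟩ | ⟨⟨⟨h401, h402, h403, -⟩, ⟨h404, h405, -⟩⟩, h416, H⟩ | ⟨⟨⟨h406, h407, h408, h409, -⟩, ⟨h410, -⟩⟩, h416, H⟩ | ⟨⟨⟨h411, h412, h413, h414, h415, -⟩, -⟩, h416, H⟩ | ⟨⟨⟩⟩ := H
                              · clear * - h416 h221 h220 b5 g1_1 f1_1; omega
                              · clear * - h416 h391 h375 h371 h355 h352 h314; omega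
                              · clear * - h416 h396 h221 h220 b5 g1_1 f1_1; omega
                              · clear * - h405 h403; omega
                              · clear * - h416 h410 h355 h354 h316; omega
                              · clear * - h416 h411 h221 h220 b5 g1_1 f1_1; omega
                            · clear * - h379 h355 h353 h223 h221 b2 f0_1 g0_1; omega
                            · clear * - h385 h381; omega
                        · clear * - h322 h321 h319 h314 h307 h306 h223 h221; omega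
                        · clear * - h325 h323 h314 h223 h221 h220; omega
                        · obtain ⟨⟨-, ⟨h417, h418, h419, h420, -⟩⟩, h437, H⟩ | ⟨⟨⟨h421, -⟩, ⟨h422, h423, h424, -⟩⟩, h437, H⟩ | ⟨⟨⟨h425, h426, -⟩, ⟨h427, h428, -⟩⟩, h437, H⟩ | ⟨⟨⟨h429, h430, h431, -⟩, ⟨h432, -⟩⟩, h437, H⟩ | ⟨⟨⟨h433, h434, h435, h436, -⟩, -⟩, h437, H⟩ | ⟨⟨⟩⟩ := H
                          · clear * - h437 h420 h418 h314 h223 h220 b5 g1_1 f1_1; omega
                          · clear * - h437 h314 h305 h245 h226 h225; omega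
                          · clear * - h437 h425 h314 h223 h221 h220 b5 g1_1 f1_1 b2 f0_1 g0_1; omega
                          · clear * - h437 h432 h431 h330 h314 h307; omega
                          · clear * - h437 h314 h223 h221 h220 b2 f0_1 g0_1; omega
                        · clear * - h334 h245; omega
                      · clear * - h309 b6 g1_1 gm1_1 d1; omega
                      · clear * - h314 h311 h245 h223 h221 h199 b5 g1_1 f1_1 b2 f0_1 g0_1 a7; omega
                  · clear * - h228 h227 h223 h221 h70 b6 g1_1 gm1_1 b5 f1_1; omega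
                  · have f3_2 := (C.F 3 2).m2
                      (by clear * - h232 h230 h223 h210; omega) (by clear * - h70 h8; omega) (by clear * - h232 h231 h223 h210; omega)
                    have gm1_2 := (C.G (-1) 2).m3
                      (by clear * - h219 b6 g1_1 gm1_1 d1; omega) (by clear * - h220 h198 b6 g1_1 gm1_1; omega) (by clear * - h232 h231 h223 h221 h219 h210 h198 b6 g1_1 gm1_1; omega)
                    have gm2_1 := (C.G (-2) 1).m3
                      (by clear * - h219 h199 b6 g1_1 gm1_1; omega) (by clear * - h221 h220 h199 b6 g1_1 gm1_1 b5 f1_1 b2 f0_1 g0_1; omega) (by clear * - h232 h231 h223 h221 h219 h210 h199 b6 g1_1 gm1_1; omega)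
                    replace H := C.S _ _ H (List.cons_ne_nil _ _)
                    simp only [Br_cons, Br_nil, Fst, List.nil_append, List.cons_append, List.forall_mem_cons, List.not_mem_nil, false_imp_iff, implies_true, Prod.mk_add_mk, Int.reduceAdd, f3_1, f3_2, f1_2, fm1_1, g2_1, g1_2, gm1_2, gm2_1] at H
                    obtain ⟨⟨-, ⟨h438, h439, h440, -⟩⟩, H⟩ | ⟨⟨⟨h441, -⟩, ⟨h442, h443, -⟩⟩, H⟩ | ⟨⟨⟨h444, h445, -⟩, ⟨h446, -⟩⟩, H⟩ | ⟨⟨⟨h447, h448, h449, -⟩, -⟩, H⟩ | ⟨⟨⟩⟩ := H
                    · obtain ⟨⟨-, ⟨h450, h451, h452, -⟩⟩, h462, H⟩ | ⟨⟨⟨h453, -⟩, ⟨h454, h455, -⟩⟩, h462, H⟩ | ⟨⟨⟨h456, h457, -⟩, ⟨h458, -⟩⟩, h462, H⟩ | ⟨⟨⟨h459, h460, h461, -⟩, -⟩, h462, H⟩ | ⟨⟨⟩⟩ := H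
                      · clear * - h462 h450 h230 h223 c2 a7; omega
                      · have f4_1 := (C.F 4 1).m0
                          (by clear * - h223 h8; omega) (by clear * - h223 c2; omega) (by clear * - h462 h232 h231 h223 h221 h220; omega)
                        have f5_2 := (C.F 5 2).m2
                          (by clear * - h440 h438 h232 h230; omega) (by clear * - h231 h70; omega) (by clear * - h438 h232; omega)
                        have g2_3 := (C.G 2 3).m0
                          (by clear * - h462 h453 h232; omega) (by clear * - h462 h454 h221 h220 b5 g1_1 f1_1; omega) (by clear * - h455 h453 h220 h199; omega)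
                        have g1_3 := (C.G 1 3).m3
                          (by clear * - h453 h440 h223 h221 b5 g1_1 f1_1 c2 b2 f0_1 g0_1; omega) (by clear * - h454 h220 b6 g1_1 gm1_1; omega) (by clear * - h462 h454 h221 h220 b2 f0_1 g0_1; omega)
                        replace H := C.S _ _ H (List.cons_ne_nil _ _)
                        simp only [Br_cons, Br_nil, Fst, List.nil_append, List.cons_append, List.forall_mem_cons, List.not_mem_nil, false_imp_iff, implies_true, Prod.mk_add_mk, Int.reduceAdd, f4_1, f5_2, f3_2, f1_2, fm1_1, g2_1, g2_3, g1_3, gm1_2, gm2_1] at H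
                        obtain ⟨⟨-, ⟨h463, h464, h465, h466, -⟩⟩, H⟩ | ⟨⟨⟨h467, -⟩, ⟨h468, h469, h470, -⟩⟩, H⟩ | ⟨⟨⟨h471, h472, -⟩, ⟨h473, h474, -⟩⟩, H⟩ | ⟨⟨⟨h475, h476, h477, -⟩, ⟨h478, -⟩⟩, H⟩ | ⟨⟨⟨h479, h480, h481, h482, -⟩, -⟩, H⟩ | ⟨⟨⟩⟩ := H
                        · clear * - h466 h462 h223 h220 h199 c2 b2 f0_1 g0_1; omega
                        · clear * - h469 h467 h231 h230 h223; omega
                        · clear * - h473 h472; omega
                        · clear * - h478 h475 h439 h230 h223; omega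
                        · obtain ⟨⟨-, ⟨h483, h484, h485, h486, -⟩⟩, h503, H⟩ | ⟨⟨⟨h487, -⟩, ⟨h488, h489, h490, -⟩⟩, h503, H⟩ | ⟨⟨⟨h491, h492, -⟩, ⟨h493, h494, -⟩⟩, h503, H⟩ | ⟨⟨⟨h495, h496, h497, -⟩, ⟨h498, -⟩⟩, h503, H⟩ | ⟨⟨⟨h499, h500, h501, h502, -⟩, -⟩, h503, H⟩ | ⟨⟨⟩⟩ := H
                          · clear * - h503 h479 h462 h453 h223 h221 h220 b5 g1_1 f1_1; omega
                          · clear * - h503 h487 h479 h462 h232 h230; omega
                          · clear * - h503 h462 h453 h230 h220 b5 g1_1 f1_1 c2 b2 f0_1 g0_1; omega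
                          · clear * - h498 h497 h462 h455 h232; omega
                          · clear * - h503 h479 h462 h223 h221 h220 h199 b2 f0_1 g0_1; omega
                      · clear * - h462 h457 h221 b5 g1_1 f1_1 d3 d1; omega
                      · clear * - h462 h459 h221 h199 b6 g1_1 gm1_1 b5 f1_1; omega
                    · clear * - h442 h441 h232; omega
                    · clear * - h446 h444 h223 h221 h220 h219 b5 g1_1 f1_1 c2; omega
                    · obtain ⟨⟨-, ⟨h504, h505, h506, -⟩⟩, h516, H⟩ | ⟨⟨⟨h507, -⟩, ⟨h508, h509, -⟩⟩, h516, H⟩ | ⟨⟨⟨h510, h511, -⟩, ⟨h512, -⟩⟩, h516, H⟩ | ⟨⟨⟨h513, h514, h515, -⟩, -⟩, h516, H⟩ | ⟨⟨⟩⟩ := H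
                      · clear * - h516 h447 h221 h219 b5 g1_1 f1_1 c2 a7; omega
                      · have fm1_2 := (C.F (-1) 2).m1
                          (by clear * - h449 h232 h230 h223; omega) (by clear * - h449 h447 h230 h223; omega) (by clear * - h449 h230 h223; omega)
                        have fm2_1 := (C.F (-2) 1).m1
                          (by clear * - h449 h232 h230 h223; omega) (by clear * - h447 h232 h230 h223; omega) (by clear * - h449 h230 h223; omega)
                        have g2_3 := (C.G 2 3).m0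
                          (by clear * - h516 h507 h449 h232 h230 h223; omega) (by clear * - h508 h220 h52; omega) (by clear * - h509 h507 h220 h199; omega)
                        obtain ⟨g1_3, h517, h518, h519⟩ | ⟨-, h520, h521, h522⟩ | ⟨-, h523, h524, h525⟩ | ⟨g1_3, h526, h527, h528⟩ := C.G 1 3
                        · replace H := C.S _ _ H (List.cons_ne_nil _ _)
                          simp only [Br_cons, Br_nil, Fst, List.nil_append, List.cons_append, List.forall_mem_cons, List.not_mem_nil, false_imp_iff, implies_true, Prod.mk_add_mk, Int.reduceAdd, f3_1, f3_2, f1_2, fm1_2, fm2_1, g2_1, g2_3, g1_3, gm1_2, gm2_1] at H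
                          obtain ⟨⟨-, ⟨h529, h530, h531, h532, -⟩⟩, H⟩ | ⟨⟨⟨h533, -⟩, ⟨h534, h535, h536, -⟩⟩, H⟩ | ⟨⟨⟨h537, h538, -⟩, ⟨h539, h540, -⟩⟩, H⟩ | ⟨⟨⟨h541, h542, h543, -⟩, ⟨h544, -⟩⟩, H⟩ | ⟨⟨⟨h545, h546, h547, h548, -⟩, -⟩, H⟩ | ⟨⟨⟩⟩ := H
                          · obtain ⟨⟨-, ⟨h549, h550, h551, h552, -⟩⟩, h569, H⟩ | ⟨⟨⟨h553, -⟩, ⟨h554, h555, h556, -⟩⟩, h569, H⟩ | ⟨⟨⟨h557, h558, -⟩, ⟨h559, h560, -⟩⟩, h569, H⟩ | ⟨⟨⟨h561, h562, h563, -⟩, ⟨h564, -⟩⟩, h569, H⟩ | ⟨⟨⟨h565, h566, h567, h568, -⟩, -⟩, h569, H⟩ | ⟨⟨⟩⟩ := H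
                            · clear * - h569 h516 h223 h221 h220 b5 g1_1 f1_1 c2; omega
                            · clear * - h554 h553 h519 h518; omega
                            · clear * - h569 h221 h220 b5 g1_1 f1_1; omega
                            · clear * - h569 h563 h221 b5 g1_1 f1_1 d1; omega
                            · clear * - h569 h567 h565 h530 h519 h516 h447 h221; omega
                          · clear * - h536 h535 h533 h519 h518 h516 h507 h449; omega
                          · clear * - h537 h516 h223 h221 h220 c2; omega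
                          · clear * - h543 h449 h230 h223; omega
                          · clear * - h547 h546 h223; omega
                        · clear * - h520 h516 h449 h447 h221 h220 b6 g1_1 gm1_1; omega
                        · clear * - h523 h508 h220 b6 g1_1 gm1_1; omega
                        · replace H := C.S _ _ H (List.cons_ne_nil _ _)
                          simp only [Br_cons, Br_nil, Fst, List.nil_append, List.cons_append, List.forall_mem_cons, List.not_mem_nil, false_imp_iff, implies_true, Prod.mk_add_mk, Int.reduceAdd, f3_1, f3_2, f1_2, fm1_2, fm2_1, g2_1, g2_3, g1_3, gm1_2, gm2_1] at H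
                          obtain ⟨⟨-, ⟨h570, h571, h572, h573, -⟩⟩, H⟩ | ⟨⟨⟨h574, -⟩, ⟨h575, h576, h577, -⟩⟩, H⟩ | ⟨⟨⟨h578, h579, -⟩, ⟨h580, h581, -⟩⟩, H⟩ | ⟨⟨⟨h582, h583, h584, -⟩, ⟨h585, -⟩⟩, H⟩ | ⟨⟨⟨h586, h587, h588, h589, -⟩, -⟩, H⟩ | ⟨⟨⟩⟩ := H
                          · obtain ⟨⟨-, ⟨h590, h591, h592, h593, -⟩⟩, h610, H⟩ | ⟨⟨⟨h594, -⟩, ⟨h595, h596, h597, -⟩⟩, h610, H⟩ | ⟨⟨⟨h598, h599, -⟩, ⟨h600, h601, -⟩⟩, h610, H⟩ | ⟨⟨⟨h602, h603, h604, -⟩, ⟨h605, -⟩⟩, h610, H⟩ | ⟨⟨⟨h606, h607, h608, h609, -⟩, -⟩, h610, H⟩ | ⟨⟨⟩⟩ := H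
                            · clear * - h610 h516 h223 h221 h220 b5 g1_1 f1_1 c2; omega
                            · clear * - h610 h573 h572 h516 h507 h447; omega
                            · clear * - h610 h526 h221 h220 b5 g1_1 f1_1; omega
                            · clear * - h605 h604 h528; omega
                            · clear * - h610 h516 h449 h221 h199; omega
                          · clear * - h577 h576 h574 h449 h448; omega
                          · clear * - h578 h516 h223 h221 h220 c2; omega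
                          · clear * - h584 h449 h230 h223; omega
                          · clear * - h588 h587 h223; omega
                      · clear * - h516 h512 h511 h447 h230 h223 h221 b5 g1_1 f1_1 d1; omega
                      · clear * - h516 h513 h447 h221 h199 b6 g1_1 gm1_1 b5 f1_1; omega
                  · clear * - h235 h221 h220 h219 b6 g1_1 gm1_1 b5 f1_1; omega
            · clear * - h212 h69 c2; omega
            · obtain ⟨⟨-, ⟨h611, h612, -⟩⟩, h617, H⟩ | ⟨⟨⟨h613, -⟩, ⟨h614, -⟩⟩, h617, H⟩ | ⟨⟨⟨h615, h616, -⟩, -⟩, h617, H⟩ | ⟨⟨⟩⟩ := H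
              · clear * - h617 h213 b5 g1_1 f1_1 d1 b2 f0_1 g0_1; omega
              · clear * - h617 h213 b5 g1_1 f1_1 b1 f0_1 a7; omega
              · have q : (-x1 + y1 + x2 + y2) * (-x1 + y2) = 0 := by
                  have E0 : -x1 + u1 = 0 := by clear * - a7; omega
                  have E1 : -x1 + x2 + y2 + v1 = 0 := by clear * - h617 b2 f0_1 g0_1; omega
                  have E2 : x1 - y1 - y2 + u2 = 0 := by clear * - b5 g1_1 f1_1 a7; omega
                  have E3 : y2 + v2 = 0 := by clear * - b2 f0_1 g0_1; omega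
                  have q : 1 * ((-x1 + y1 + x2 + y2) * (-x1 + y2)) = 0 := by
                    linear_combination (1) * C.k + (-v2) * E0 + (u2) * E1 + (x1 - x2 - y2) * E2 + (-x1) * E3
                  linarith only [q]
                obtain h618 | h618 := mul_eq_zero.mp q
                · refine ⟨-1, 0, 0, 1, -1, -1, by norm_num, by norm_num, by norm_num, Or.inl ⟨
                    by clear * - a7; omega,
                    by clear * - h618 h617 b2 f0_1 g0_1; omega,
                    by clear * - h618 h617 b6 g1_1 gm1_1 b5 f1_1 a7; omega,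
                    by clear * - b2 f0_1 g0_1; omega⟩⟩
                · refine ⟨0, -1, -1, 0, 1, -1, by norm_num, by norm_num, by norm_num, Or.inr ⟨
                    by clear * - h618 h617 b2 f0_1 g0_1; omega,
                    by clear * - h618 a7; omega,
                    by clear * - h618 b2 f0_1 g0_1; omega,
                    by clear * - h618 b5 g1_1 f1_1 a7; omega⟩⟩
          · clear * - h202 h52 d2; omega
          · clear * - h203 h52 d2; omega
          · replace H := C.S _ _ H (List.cons_ne_nil _ _)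
            simp only [Br_cons, Br_nil, Fst, List.nil_append, List.cons_append, List.forall_mem_cons, List.not_mem_nil, false_imp_iff, implies_true, Prod.mk_add_mk, Int.reduceAdd, f2_1, f1_2, fm1_1, g2_1, g1_2, gm1_1] at H
            obtain ⟨⟨-, ⟨h619, h620, -⟩⟩, H⟩ | ⟨⟨⟨h621, -⟩, ⟨h622, -⟩⟩, H⟩ | ⟨⟨⟨h623, h624, -⟩, -⟩, H⟩ | ⟨⟨⟩⟩ := H
            · obtain ⟨⟨-, ⟨h625, h626, -⟩⟩, h631, H⟩ | ⟨⟨⟨h627, -⟩, ⟨h628, -⟩⟩, h631, H⟩ | ⟨⟨⟨h629, h630, -⟩, -⟩, h631, H⟩ | ⟨⟨⟩⟩ := H
              · clear * - h631 h206 b5 g1_1 f1_1 h53 b2 f0_1 g0_1; omega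
              · clear * - h631 h206 b5 g1_1 f1_1 b1 f0_1 a7; omega
              · have q : (-y1) * (-2 * x1 + 2 * y1 + x2 + 2 * y2) = 0 := by
                  have E0 : -x1 + u1 = 0 := by clear * - a7; omega
                  have E1 : -2 * y1 + v1 = 0 := by clear * - h631 b2 f0_1 g0_1; omega
                  have E2 : x1 - y1 - y2 + u2 = 0 := by clear * - b5 g1_1 f1_1 a7; omega
                  have E3 : y2 + v2 = 0 := by clear * - b2 f0_1 g0_1; omega
                  have q : 1 * ((-y1) * (-2 * x1 + 2 * y1 + x2 + 2 * y2)) = 0 := by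
                    linear_combination (1) * C.k + (-v2) * E0 + (u2) * E1 + (2 * y1) * E2 + (-x1) * E3
                  linarith only [q]
                obtain h632 | h632 := mul_eq_zero.mp q
                · clear * - h632 h631 b2 f0_1 g0_1 a6; omega
                · obtain ⟨f3_1, h633, h634, h635⟩ | ⟨-, h636, h637, h638⟩ | ⟨f3_1, h639, h640, h641⟩ | ⟨-, h642, h643, h644⟩ := C.F 3 1
                  · have f3_2 := (C.F 3 2).m2
                      (by clear * - h634 h69; omega) (by clear * - h635 h634 h632 h620; omega) (by clear * - h635 h632 h620 h71; omega)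
                    have gm1_2 := (C.G (-1) 2).m3
                      (by clear * - h629 h206 b6 g1_1 gm1_1; omega) (by clear * - h632 h631 h69 b6 g1_1 gm1_1 b5 f1_1 h53 d2 a7; omega) (by clear * - h631 h208 h71; omega)
                    obtain ⟨-, h645, h646, h647⟩ | ⟨gm2_1, h648, h649, h650⟩ | ⟨-, h651, h652, h653⟩ | ⟨gm2_1, h654, h655, h656⟩ := C.G (-2) 1
                    · clear * - h647 h629 b6 g1_1 gm1_1 h53; omega
                    · replace H := C.S _ _ H (List.cons_ne_nil _ _)
                      simp only [Br_cons, Br_nil, Fst, List.nil_append, List.cons_append, List.forall_mem_cons, List.not_mem_nil, false_imp_iff, implies_true, Prod.mk_add_mk, Int.reduceAdd, f3_1, f3_2, f1_2, fm1_1, g2_1, g1_2, gm1_2, gm2_1] at H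
                      obtain ⟨⟨-, ⟨h657, h658, h659, -⟩⟩, H⟩ | ⟨⟨⟨h660, -⟩, ⟨h661, h662, -⟩⟩, H⟩ | ⟨⟨⟨h663, h664, -⟩, ⟨h665, -⟩⟩, H⟩ | ⟨⟨⟨h666, h667, h668, -⟩, -⟩, H⟩ | ⟨⟨⟩⟩ := H
                      · clear * - h659 h650 h632 h631 b5 g1_1 f1_1 b2 f0_1 g0_1 a7 a6; omega
                      · clear * - h661 h660 h635 h632 h69; omega
                      · clear * - h665 h664 h634 h632 h620; omega
                      · obtain ⟨⟨-, ⟨h669, h670, h671, -⟩⟩, h681, H⟩ | ⟨⟨⟨h672, -⟩, ⟨h673, h674, -⟩⟩, h681, H⟩ | ⟨⟨⟨h675, h676, -⟩, ⟨h677, -⟩⟩, h681, H⟩ | ⟨⟨⟨h678, h679, h680, -⟩, -⟩, h681, H⟩ | ⟨⟨⟩⟩ := H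
                        · clear * - h681 h671 h668 h666 h69 b5 g1_1 f1_1; omega
                        · clear * - h681 h674 h650 h632 h631 h630 b5 g1_1 f1_1 b2 f0_1 g0_1 a7; omega
                        · clear * - h681 h676 h666 h631 h69; omega
                        · have fm1_2 := (C.F (-1) 2).m2
                            (by clear * - h681 h668 h650 h649 h632 h620; omega) (by clear * - h650 h632 h631 b5 g1_1 f1_1 b2 f0_1 g0_1 a7; omega) (by clear * - h681 h668 h650 h649 h620; omega)
                          have fm2_1 := (C.F (-2) 1).m1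
                            (by clear * - h681 h666 h650 h649; omega) (by clear * - h666 h632 h69; omega) (by clear * - h681 h668 h650 h649 h632 h620; omega)
                          have gm3_2 := (C.G (-3) 2).m3
                            (by clear * - h649 h206; omega) (by clear * - h681 h666 h649 h632 b6 g1_1 gm1_1 b5 f1_1 h53; omega) (by clear * - h681 h666 h649 h632 b6 g1_1 gm1_1 b5 f1_1 h53; omega)
                          have gm3_1 := (C.G (-3) 1).m1
                            (by clear * - h678 h650 h649; omega) (by clear * - h649 h53; omega) (by clear * - h680 h678 h650 h649; omega)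
                          replace H := C.S _ _ H (List.cons_ne_nil _ _)
                          simp only [Br_cons, Br_nil, Fst, List.nil_append, List.cons_append, List.forall_mem_cons, List.not_mem_nil, false_imp_iff, implies_true, Prod.mk_add_mk, Int.reduceAdd, f3_1, f3_2, f1_2, fm1_2, fm2_1, g2_1, g1_2, gm1_2, gm3_2, gm3_1] at H
                          obtain ⟨⟨-, ⟨h682, h683, h684, h685, -⟩⟩, H⟩ | ⟨⟨⟨h686, -⟩, ⟨h687, h688, h689, -⟩⟩, H⟩ | ⟨⟨⟨h690, h691, -⟩, ⟨h692, h693, -⟩⟩, H⟩ | ⟨⟨⟨h694, h695, h696, -⟩, ⟨h697, -⟩⟩, H⟩ | ⟨⟨⟨h698, h699, h700, h701, -⟩, -⟩, H⟩ | ⟨⟨⟩⟩ := H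
                          · obtain ⟨⟨-, ⟨h702, h703, h704, h705, -⟩⟩, h722, H⟩ | ⟨⟨⟨h706, -⟩, ⟨h707, h708, h709, -⟩⟩, h722, H⟩ | ⟨⟨⟨h710, h711, -⟩, ⟨h712, h713, -⟩⟩, h722, H⟩ | ⟨⟨⟨h714, h715, h716, -⟩, ⟨h717, -⟩⟩, h722, H⟩ | ⟨⟨⟨h718, h719, h720, h721, -⟩, -⟩, h722, H⟩ | ⟨⟨⟩⟩ := H
                            · have f4_1 := (C.F 4 1).m0
                                (by clear * - h722 h705 h685 h678; omega) (by clear * - h722 h705 h685 h684 h678 h634; omega) (by clear * - h722 h682 h681 h678 h635 h632; omega)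
                              have f5_2 := (C.F 5 2).m0
                                (by clear * - h722 h705 h681 h678; omega) (by clear * - h722 h705 h684 h681 h634 b5 g1_1 f1_1; omega) (by clear * - h722 h705 h682 h681 h678 h635; omega)
                              have g3_1 := (C.G 3 1).m0
                                (by clear * - h705 h678; omega) (by clear * - h705 h679 h678 h650; omega) (by clear * - h722 h704 h684 h681 h632 h631 b5 g1_1 f1_1 h53; omega)
                              have g3_2 := (C.G 3 2).m0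
                                (by clear * - h705 h678; omega) (by clear * - h705 h679 h678 h650; omega) (by clear * - h722 h704 h684 h681 h632 h631 b5 g1_1 f1_1 h53; omega)
                              replace H := C.S _ _ H (List.cons_ne_nil _ _)
                              simp only [Br_cons, Br_nil, Fst, List.nil_append, List.cons_append, List.forall_mem_cons, List.not_mem_nil, false_imp_iff, implies_true, Prod.mk_add_mk, Int.reduceAdd, f4_1, f5_2, f3_2, f1_2, fm1_2, fm2_1, g3_1, g3_2, g1_2, gm1_2, gm3_2, gm3_1] at H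
                              obtain ⟨⟨-, ⟨h723, h724, h725, h726, h727, -⟩⟩, H⟩ | ⟨⟨⟨h728, -⟩, ⟨h729, h730, h731, h732, -⟩⟩, H⟩ | ⟨⟨⟨h733, h734, -⟩, ⟨h735, h736, h737, -⟩⟩, H⟩ | ⟨⟨⟨h738, h739, h740, -⟩, ⟨h741, h742, -⟩⟩, H⟩ | ⟨⟨⟨h743, h744, h745, h746, -⟩, ⟨h747, -⟩⟩, H⟩ | ⟨⟨⟨h748, h749, h750, h751, h752, -⟩, -⟩, H⟩ | ⟨⟨⟩⟩ := H
                              · clear * - h727 h722 h681 h678; omega
                              · clear * - h732 h722 h681 h678; omega
                              · clear * - h736 h722 h681 h69 b5 g1_1 f1_1; omega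
                              · clear * - h741 h740; omega
                              · obtain ⟨⟨-, ⟨h753, h754, h755, h756, h757, -⟩⟩, h783, H⟩ | ⟨⟨⟨h758, -⟩, ⟨h759, h760, h761, h762, -⟩⟩, h783, H⟩ | ⟨⟨⟨h763, h764, -⟩, ⟨h765, h766, h767, -⟩⟩, h783, H⟩ | ⟨⟨⟨h768, h769, h770, -⟩, ⟨h771, h772, -⟩⟩, h783, H⟩ | ⟨⟨⟨h773, h774, h775, h776, -⟩, ⟨h777, -⟩⟩, h783, H⟩ | ⟨⟨⟨h778, h779, h780, h781, h782, -⟩, -⟩, h783, H⟩ | ⟨⟨⟩⟩ := H
                                · clear * - h783 h757 h747 h744 h722; omega
                                · clear * - h783 h744 h722 h681; omega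
                                · clear * - h783 h722 h681 h631 h69 b5 g1_1 f1_1 b2 f0_1 g0_1; omega
                                · clear * - h771 h770; omega
                                · clear * - h783 h722 h681 h631 h69 b5 g1_1 f1_1 h53; omega
                                · clear * - h783 h746 h722 h681 h632; omega
                              · clear * - h752 h750 h632; omega
                            · clear * - h722 h706 h681 a7; omega
                            · clear * - h712 h711; omega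
                            · clear * - h722 h666 h631 h69 b6 g1_1 gm1_1 h53; omega
                            · clear * - h722 h718 h685 h681; omega
                          · clear * - h688 h686 h667 h69; omega
                          · clear * - h692 h691; omega
                          · clear * - h694 h681 h650 h632 h631 b5 g1_1 f1_1 b2 f0_1 g0_1 a7; omega
                          · clear * - h700 h699 h632; omega
                    · clear * - h652 h629 b6 g1_1 gm1_1 h53; omega
                    · replace H := C.S _ _ H (List.cons_ne_nil _ _)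
                      simp only [Br_cons, Br_nil, Fst, List.nil_append, List.cons_append, List.forall_mem_cons, List.not_mem_nil, false_imp_iff, implies_true, Prod.mk_add_mk, Int.reduceAdd, f3_1, f3_2, f1_2, fm1_1, g2_1, g1_2, gm1_2, gm2_1] at H
                      obtain ⟨⟨-, ⟨h784, h785, h786, -⟩⟩, H⟩ | ⟨⟨⟨h787, -⟩, ⟨h788, h789, -⟩⟩, H⟩ | ⟨⟨⟨h790, h791, -⟩, ⟨h792, -⟩⟩, H⟩ | ⟨⟨⟨h793, h794, h795, -⟩, -⟩, H⟩ | ⟨⟨⟩⟩ := H
                      · obtain ⟨⟨-, ⟨h796, h797, h798, -⟩⟩, h808, H⟩ | ⟨⟨⟨h799, -⟩, ⟨h800, h801, -⟩⟩, h808, H⟩ | ⟨⟨⟨h802, h803, -⟩, ⟨h804, -⟩⟩, h808, H⟩ | ⟨⟨⟨h805, h806, h807, -⟩, -⟩, h808, H⟩ | ⟨⟨⟩⟩ := H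
                        · clear * - h798 h631 h629 h206 b5 g1_1 f1_1 b2 f0_1 g0_1; omega
                        · clear * - h808 h786 h632 h206 b5 g1_1 f1_1 a7; omega
                        · clear * - h804 h803 h656; omega
                        · have f4_1 := (C.F 4 1).m0
                            (by clear * - h808 h786 h656; omega) (by clear * - h808 h786 h785 h656 h634; omega) (by clear * - h808 h655 h635 h632 h631 h206 b6 g1_1 gm1_1 b5 f1_1; omega)
                          have f5_2 := (C.F 5 2).m2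
                            (by clear * - h808 h806 h655 h635 h632 h631 h206 b5 g1_1 f1_1; omega) (by clear * - h808 h784 h656 h635 h632; omega) (by clear * - h808 h806 h655 h635 h631 h206 b5 g1_1 f1_1; omega)
                          have gm3_2 := (C.G (-3) 2).m3
                            (by clear * - h654 h206; omega) (by clear * - h807 h805 h656 h655; omega) (by clear * - h807 h656; omega)
                          have gm3_1 := (C.G (-3) 1).m1
                            (by clear * - h808 h786 h654 h634 h632 h631 h206 a7; omega) (by clear * - h808 h654 h634 h631 b6 g1_1 gm1_1 b5 f1_1; omega) (by clear * - h808 h786 b6 g1_1 gm1_1 a7; omega)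
                          replace H := C.S _ _ H (List.cons_ne_nil _ _)
                          simp only [Br_cons, Br_nil, Fst, List.nil_append, List.cons_append, List.forall_mem_cons, List.not_mem_nil, false_imp_iff, implies_true, Prod.mk_add_mk, Int.reduceAdd, f4_1, f5_2, f3_2, f1_2, fm1_1, g2_1, g1_2, gm1_2, gm3_2, gm3_1] at H
                          obtain ⟨⟨-, ⟨h809, h810, h811, h812, -⟩⟩, H⟩ | ⟨⟨⟨h813, -⟩, ⟨h814, h815, h816, -⟩⟩, H⟩ | ⟨⟨⟨h817, h818, -⟩, ⟨h819, h820, -⟩⟩, H⟩ | ⟨⟨⟨h821, h822, h823, -⟩, ⟨h824, -⟩⟩, H⟩ | ⟨⟨⟨h825, h826, h827, h828, -⟩, -⟩, H⟩ | ⟨⟨⟩⟩ := H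
                          · clear * - h812 h808 h655 h634 h632 h631 h629 b6 g1_1 gm1_1 b5 f1_1; omega
                          · clear * - h813 h808 h655 h632 h631 h629 h206 b6 g1_1 gm1_1 b5 f1_1; omega
                          · clear * - h819 h818; omega
                          · clear * - h824 h823 h785 h634 h632; omega
                          · obtain ⟨⟨-, ⟨h829, h830, h831, h832, -⟩⟩, h849, H⟩ | ⟨⟨⟨h833, -⟩, ⟨h834, h835, h836, -⟩⟩, h849, H⟩ | ⟨⟨⟨h837, h838, -⟩, ⟨h839, h840, -⟩⟩, h849, H⟩ | ⟨⟨⟨h841, h842, h843, -⟩, ⟨h844, -⟩⟩, h849, H⟩ | ⟨⟨⟨h845, h846, h847, h848, -⟩, -⟩, h849, H⟩ | ⟨⟨⟩⟩ := H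
                            · clear * - h849 h832 h808 h805 h655 h632 b5 g1_1 f1_1; omega
                            · clear * - h849 h808 h806 h655 h632 h631 h206 b5 g1_1 f1_1 b2 f0_1 g0_1; omega
                            · clear * - h839 h838; omega
                            · clear * - h849 h825 h808 h807; omega
                            · clear * - h849 h808 b6 g1_1 gm1_1 a7 a6; omega
                      · clear * - h789 h787 h655 h654 h632 h631 h629 h206 h69; omega
                      · clear * - h792 h791 h634 h632 h620; omega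
                      · obtain ⟨⟨-, ⟨h850, h851, h852, -⟩⟩, h862, H⟩ | ⟨⟨⟨h853, -⟩, ⟨h854, h855, -⟩⟩, h862, H⟩ | ⟨⟨⟨h856, h857, -⟩, ⟨h858, -⟩⟩, h862, H⟩ | ⟨⟨⟨h859, h860, h861, -⟩, -⟩, h862, H⟩ | ⟨⟨⟩⟩ := H
                        · clear * - h852 h631 h629 h206 b5 g1_1 f1_1 b2 f0_1 g0_1; omega
                        · clear * - h862 h632 h206 b5 g1_1 f1_1 a7; omega
                        · clear * - h858 h857 h656; omega
                        · have fm1_2 := (C.F (-1) 2).m1
                            (by clear * - h862 h656 h620 h69; omega) (by clear * - h655 h632 h631 b5 g1_1 f1_1 b2 f0_1 g0_1 a7; omega) (by clear * - h862 h795 h656 h632 h620; omega)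
                          have fm2_1 := (C.F (-2) 1).m1
                            (by clear * - h862 h793 h656; omega) (by clear * - h862 h861 h656 h632 h631 h69; omega) (by clear * - h862 h795 h656 h632 h620; omega)
                          have gm3_2 := (C.G (-3) 2).m3
                            (by clear * - h654 h206; omega) (by clear * - h861 h859 h656 h655; omega) (by clear * - h861 h656; omega)
                          have gm3_1 := (C.G (-3) 1).m1
                            (by clear * - h862 h859 h632 h631 h206 h69 b5 g1_1 f1_1 b2 f0_1 g0_1; omega) (by clear * - h862 h654 h631 h629 h620; omega) (by clear * - h862 h793 h632 h631 h206 b2 f0_1 g0_1 a7; omega)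
                          replace H := C.S _ _ H (List.cons_ne_nil _ _)
                          simp only [Br_cons, Br_nil, Fst, List.nil_append, List.cons_append, List.forall_mem_cons, List.not_mem_nil, false_imp_iff, implies_true, Prod.mk_add_mk, Int.reduceAdd, f3_1, f3_2, f1_2, fm1_2, fm2_1, g2_1, g1_2, gm1_2, gm3_2, gm3_1] at H
                          obtain ⟨⟨-, ⟨h863, h864, h865, h866, -⟩⟩, H⟩ | ⟨⟨⟨h867, -⟩, ⟨h868, h869, h870, -⟩⟩, H⟩ | ⟨⟨⟨h871, h872, -⟩, ⟨h873, h874, -⟩⟩, H⟩ | ⟨⟨⟨h875, h876, h877, -⟩, ⟨h878, -⟩⟩, H⟩ | ⟨⟨⟨h879, h880, h881, h882, -⟩, -⟩, H⟩ | ⟨⟨⟩⟩ := H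
                          · obtain ⟨⟨-, ⟨h883, h884, h885, h886, -⟩⟩, h903, H⟩ | ⟨⟨⟨h887, -⟩, ⟨h888, h889, h890, -⟩⟩, h903, H⟩ | ⟨⟨⟨h891, h892, -⟩, ⟨h893, h894, -⟩⟩, h903, H⟩ | ⟨⟨⟨h895, h896, h897, -⟩, ⟨h898, -⟩⟩, h903, H⟩ | ⟨⟨⟨h899, h900, h901, h902, -⟩, -⟩, h903, H⟩ | ⟨⟨⟩⟩ := H
                            · clear * - h903 h886 h883 h862 h632 h631 h69 b5 g1_1 f1_1 b2 f0_1 g0_1; omega
                            · have f4_1 := (C.F 4 1).m0
                                (by clear * - h903 h889 h866 h861; omega) (by clear * - h903 h889 h866 h864 h861 h634; omega) (by clear * - h903 h863 h862 h860 h635 h632; omega)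
                              have f5_2 := (C.F 5 2).m0
                                (by clear * - h903 h889 h862 h861; omega) (by clear * - h903 h862 h860 h632 h631 b2 f0_1 g0_1; omega) (by clear * - h903 h863 h862 h861 h635; omega)
                              have g2_3 := (C.G 2 3).m3
                                (by clear * - h903 h890 h862 h860 h632 h631 b5 g1_1 f1_1 b2 f0_1 g0_1; omega) (by clear * - h887 h861 h655; omega) (by clear * - h889 h861; omega)
                              have g1_3 := (C.G 1 3).m3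
                                (by clear * - h890 h889 h861 h206; omega) (by clear * - h887 h861 h655; omega) (by clear * - h889 h861; omega)
                              replace H := C.S _ _ H (List.cons_ne_nil _ _)
                              simp only [Br_cons, Br_nil, Fst, List.nil_append, List.cons_append, List.forall_mem_cons, List.not_mem_nil, false_imp_iff, implies_true, Prod.mk_add_mk, Int.reduceAdd, f4_1, f5_2, f3_2, f1_2, fm1_2, fm2_1, g2_1, g2_3, g1_3, gm1_2, gm3_2, gm3_1] at H
                              obtain ⟨⟨-, ⟨h904, h905, h906, h907, h908, -⟩⟩, H⟩ | ⟨⟨⟨h909, -⟩, ⟨h910, h911, h912, h913, -⟩⟩, H⟩ | ⟨⟨⟨h914, h915, -⟩, ⟨h916, h917, h918, -⟩⟩, H⟩ | ⟨⟨⟨h919, h920, h921, -⟩, ⟨h922, h923, -⟩⟩, H⟩ | ⟨⟨⟨h924, h925, h926, h927, -⟩, ⟨h928, -⟩⟩, H⟩ | ⟨⟨⟨h929, h930, h931, h932, h933, -⟩, -⟩, H⟩ | ⟨⟨⟩⟩ := H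
                              · clear * - h908 h903 h862 h860; omega
                              · clear * - h909 h903 h862 h860; omega
                              · clear * - h917 h916 h903 h863 h862 h860 h631; omega
                              · clear * - h922 h903 h862 h860 h632 h631 b2 f0_1 g0_1; omega
                              · obtain ⟨⟨-, ⟨h934, h935, h936, h937, h938, -⟩⟩, h964, H⟩ | ⟨⟨⟨h939, -⟩, ⟨h940, h941, h942, h943, -⟩⟩, h964, H⟩ | ⟨⟨⟨h944, h945, -⟩, ⟨h946, h947, h948, -⟩⟩, h964, H⟩ | ⟨⟨⟨h949, h950, h951, -⟩, ⟨h952, h953, -⟩⟩, h964, H⟩ | ⟨⟨⟨h954, h955, h956, h957, -⟩, ⟨h958, -⟩⟩, h964, H⟩ | ⟨⟨⟨h959, h960, h961, h962, h963, -⟩, -⟩, h964, H⟩ | ⟨⟨⟩⟩ := H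
                                · clear * - h964 h903 h887 h862 h655 h632 b5 g1_1 f1_1; omega
                                · clear * - h941 h924 h903 h862; omega
                                · clear * - h964 h924 h903 h889; omega
                                · clear * - h964 h927 h903 h862 h632 h631; omega
                                · clear * - h957 h889; omega
                                · clear * - h964 h959 h903 h890 h862 h632 b6 g1_1 gm1_1 b5 f1_1; omega
                              · clear * - h933 h930; omega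
                            · clear * - h893 h892; omega
                            · clear * - h903 h866 h862 h861; omega
                            · clear * - h903 h900 h862 h793 h632 h631 b5 g1_1 f1_1 b2 f0_1 g0_1 a7; omega
                          · clear * - h869 h868 h867 h862 h860 h794 h631; omega
                          · clear * - h873 h871 h632 h620; omega
                          · clear * - h875 h862 h655 h632 b5 g1_1 f1_1 a7; omega
                          · clear * - h882 h793; omega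
                  · clear * - h637 h636 h632 h631 h70 b6 g1_1 gm1_1 b5 f1_1; omega
                  · have f3_2 := (C.F 3 2).m2
                      (by clear * - h641 h639 h632 h620; omega) (by clear * - h70 h8; omega) (by clear * - h641 h640 h632 h620; omega)
                    have gm1_2 := (C.G (-1) 2).m3
                      (by clear * - h629 h206 b6 g1_1 gm1_1; omega) (by clear * - h641 h639 h632 h631 h630 b5 g1_1 f1_1 h53 a7; omega) (by clear * - h641 h640 h632 h631 h630 h620; omega)
                    have gm2_1 := (C.G (-2) 1).m3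
                      (by clear * - h629 b6 g1_1 gm1_1 h53; omega) (by clear * - h641 h639 h632 h631 h630 b5 g1_1 f1_1 h53 a7; omega) (by clear * - h641 h640 h632 h631 h620 b6 g1_1 gm1_1 h53; omega)
                    replace H := C.S _ _ H (List.cons_ne_nil _ _)
                    simp only [Br_cons, Br_nil, Fst, List.nil_append, List.cons_append, List.forall_mem_cons, List.not_mem_nil, false_imp_iff, implies_true, Prod.mk_add_mk, Int.reduceAdd, f3_1, f3_2, f1_2, fm1_1, g2_1, g1_2, gm1_2, gm2_1] at H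
                    obtain ⟨⟨-, ⟨h965, h966, h967, -⟩⟩, H⟩ | ⟨⟨⟨h968, -⟩, ⟨h969, h970, -⟩⟩, H⟩ | ⟨⟨⟨h971, h972, -⟩, ⟨h973, -⟩⟩, H⟩ | ⟨⟨⟨h974, h975, h976, -⟩, -⟩, H⟩ | ⟨⟨⟩⟩ := H
                    · obtain ⟨⟨-, ⟨h977, h978, h979, -⟩⟩, h989, H⟩ | ⟨⟨⟨h980, -⟩, ⟨h981, h982, -⟩⟩, h989, H⟩ | ⟨⟨⟨h983, h984, -⟩, ⟨h985, -⟩⟩, h989, H⟩ | ⟨⟨⟨h986, h987, h988, -⟩, -⟩, h989, H⟩ | ⟨⟨⟩⟩ := H
                      · clear * - h989 h631 h629 h206 b5 g1_1 f1_1 b2 f0_1 g0_1; omega
                      · clear * - h989 h967 h632 h206 b5 g1_1 f1_1 a7; omega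
                      · clear * - h989 h985 h984 h641; omega
                      · clear * - h989 h631 b2 f0_1 g0_1 a6; omega
                    · clear * - h969 h968 h641; omega
                    · clear * - h971 h632 h620 c2; omega
                    · clear * - h974 h639 h632 h631 h206 b5 g1_1 f1_1 b2 f0_1 g0_1 a7; omega
                  · clear * - h642 h632 h631 h70 h69 b6 g1_1 gm1_1 b5 f1_1; omega
            · clear * - h622 h69 c2; omega
            · obtain ⟨⟨-, ⟨h990, h991, -⟩⟩, h996, H⟩ | ⟨⟨⟨h992, -⟩, ⟨h993, -⟩⟩, h996, H⟩ | ⟨⟨⟨h994, h995, -⟩, -⟩, h996, H⟩ | ⟨⟨⟩⟩ := H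
              · clear * - h996 h623 h206 b5 g1_1 f1_1 h53 b2 f0_1 g0_1; omega
              · clear * - h996 h993 h623 h206 h69 b5 g1_1 f1_1 b2 f0_1 g0_1 a7; omega
              · have q : (-x1 + y1 + x2 + y2) * (-x1 + y2) = 0 := by
                  have E0 : -x1 + u1 = 0 := by clear * - a7; omega
                  have E1 : -x1 + x2 + y2 + v1 = 0 := by clear * - h996 b2 f0_1 g0_1; omega
                  have E2 : x1 - y1 - y2 + u2 = 0 := by clear * - b5 g1_1 f1_1 a7; omega
                  have E3 : y2 + v2 = 0 := by clear * - b2 f0_1 g0_1; omega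
                  have q : 1 * ((-x1 + y1 + x2 + y2) * (-x1 + y2)) = 0 := by
                    linear_combination (1) * C.k + (-v2) * E0 + (u2) * E1 + (x1 - x2 - y2) * E2 + (-x1) * E3
                  linarith only [q]
                obtain h997 | h997 := mul_eq_zero.mp q
                · refine ⟨-1, 0, 0, 1, -1, -1, by norm_num, by norm_num, by norm_num, Or.inl ⟨
                    by clear * - a7; omega,
                    by clear * - h997 h996 b2 f0_1 g0_1; omega,
                    by clear * - h997 h996 b6 g1_1 gm1_1 b5 f1_1 a7; omega,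
                    by clear * - b2 f0_1 g0_1; omega⟩⟩
                · clear * - h997 h996 h206 h69 b5 g1_1 f1_1 b2 f0_1 g0_1 a7; omega
        · clear * - h73 h72 b5 g1_1 f1_1 h53 h52 b3 f0_1; omega
      · clear * - h56 d2 a4; omega
      · clear * - h57 d2 a4; omega
      · clear * - b5 g1_1 f1_1 b3 f0_1 b2 g0_1 a6; omega
    · obtain ⟨g1_1, h998, h999, h1000⟩ | ⟨-, h1001, h1002, h1003⟩ | ⟨-, h1004, h1005, h1006⟩ | ⟨g1_1, h1007, h1008, h1009⟩ := C.G 1 1
      · have gm1_1 := (C.G (-1) 1).m3
          (by clear * - h1000 d1; omega) (by clear * - h1000 h46 h7 b2 f0_1 g0_1 a7; omega) (by clear * - b5 g1_1 f1_1 h1000 b4 fm1_1 d3 b2 f0_1 g0_1; omega)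
        have q : (-v1) * (-x1 + y2) = 0 := by
          have E0 : y1 = 0 := by clear * - b4 fm1_1 f1_1 b3 f0_1; omega
          have E1 : -x1 + u1 = 0 := by clear * - a7; omega
          have E2 : x1 - y2 + u2 = 0 := by clear * - b5 g1_1 f1_1 b4 fm1_1 b3 f0_1 a7; omega
          have E3 : y2 + v2 = 0 := by clear * - b2 f0_1 g0_1; omega
          have q : 1 * ((-v1) * (-x1 + y2)) = 0 := by
            linear_combination (1) * C.k + (x2) * E0 + (-v2) * E1 + (v1) * E2 + (-x1) * E3
          linarith only [q]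
        obtain h1010 | h1010 := mul_eq_zero.mp q
        · clear * - h1010 a6; omega
        · clear * - h1010 h46 h7; omega
      · clear * - h1003 d2 a4; omega
      · clear * - h1004 d2 a4; omega
      · clear * - b5 g1_1 f1_1 b3 f0_1 b2 g0_1 a6; omega
    · clear * - h49 c1 a7 a5 a4; omega
  · clear * - h10 c2 a7 a6 a4 a2; omega

end TreeI

end Pool.Agent.P.MP_e311cd_gt
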