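import Pool.Agent.P.MP_e311cd_gt.I.Tr0

/-! Part of the decision tree (generated). -/

namespace Pool.Agent.P.MP_e311cd_gt

namespace TreeI

variable {f g : ℤ × ℤ → ℤ} {x1 y1 x2 y2 u1 v1 u2 v2 : ℤ}

theorem tm00 (C : Ctx (-1) f g x1 y1 x2 y2 u1 v1 u2 v2)
    (c : M0 (f (0, 1)) (0 * x1 + 1 * x2) (0 * y1 + 1 * y2))
    (d : M0 (g (0, 1)) (0 * u1 + 1 * u2) (0 * v1 + 1 * v2)) :
    Same x1 y1 x2 y2 u1 v1 u2 v2 := by
  have H := C.H
  obtain ⟨a1, a2, a3, a4, a5, a6, a7, b1, b2, b3, b4, b5, b6⟩ := C.R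
  obtain ⟨f0_1, c1, c2, c3⟩ := c
  obtain ⟨g0_1, d1, d2, d3⟩ := d
  have f1_1 := (C.F 1 1).m0
    (by clear * - c3 c2 a7 a6 a4; omega) (by clear * - c2 a7 a5 a4; omega) (by clear * - c3 a7 a6 a4 a2; omega)
  obtain ⟨fm1_1, h1, h2, h3⟩ | ⟨-, h4, h5, h6⟩ | ⟨fm1_1, h7, h8, h9⟩ | ⟨fm1_1, h10, h11, h12⟩ := C.F (-1) 1
  · clear * - b4 fm1_1 f1_1 a7 a6 a4; omega
  · clear * - h4 b1 f0_1; omega
  · clear * - b4 fm1_1 f1_1 h7 c2 a2; omega
  · have g1_1 := (C.G 1 1).m0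
      (by clear * - b3 f0_1 f1_1 d3 d2 a7; omega) (by clear * - d2 a4; omega) (by clear * - b3 f0_1 f1_1 d3 a7 a6; omega)
    obtain ⟨gm1_1, h13, h14, h15⟩ | ⟨-, h16, h17, h18⟩ | ⟨-, h19, h20, h21⟩ | ⟨gm1_1, h22, h23, h24⟩ := C.G (-1) 1
    · clear * - b6 g1_1 gm1_1 a6 a4; omega
    · clear * - h16 b5 g1_1 f1_1 b2 f0_1 g0_1 b1; omega
    · clear * - h19 b5 g1_1 f1_1 b4 fm1_1 d2 c3 b2 f0_1 g0_1 a5; omega
    · refine ⟨-1, 0, 0, -1, -1, -1, by norm_num, by norm_num, by norm_num, Or.inl ⟨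
        by clear * - b5 g1_1 f1_1 b2 f0_1 g0_1; omega,
        by clear * - b5 g1_1 f1_1 b4 fm1_1 c3 b2 f0_1 g0_1 a5 a4; omega,
        by clear * - b2 f0_1 g0_1; omega,
        by clear * - b6 g1_1 gm1_1 b5 f1_1 b4 fm1_1 d3 c3 b2 f0_1 g0_1 a5 a4; omega⟩⟩

theorem tm01 (C : Ctx (-1) f g x1 y1 x2 y2 u1 v1 u2 v2)
    (c : M0 (f (0, 1)) (0 * x1 + 1 * x2) (0 * y1 + 1 * y2))
    (d : M1 (g (0, 1)) (0 * u1 + 1 * u2) (0 * v1 + 1 * v2)) :
    Same x1 y1 x2 y2 u1 v1 u2 v2 := by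
  have H := C.H
  obtain ⟨a1, a2, a3, a4, a5, a6, a7, b1, b2, b3, b4, b5, b6⟩ := C.R
  obtain ⟨f0_1, c1, c2, c3⟩ := c
  obtain ⟨g0_1, d1, d2, d3⟩ := d
  have f1_1 := (C.F 1 1).m0
    (by clear * - c3 c2 a7 a6 a4; omega) (by clear * - c2 a7 a5 a4; omega) (by clear * - c3 a7 a6 a4 a2; omega)
  obtain ⟨fm1_1, h1, h2, h3⟩ | ⟨-, h4, h5, h6⟩ | ⟨fm1_1, h7, h8, h9⟩ | ⟨fm1_1, h10, h11, h12⟩ := C.F (-1) 1
  · clear * - b4 fm1_1 f1_1 a7 a6 a4; omega
  · clear * - h4 b1 f0_1; omega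
  · clear * - b4 fm1_1 f1_1 h7 c2 a2; omega
  · obtain ⟨g1_1, h13, h14, h15⟩ | ⟨g1_1, h16, h17, h18⟩ | ⟨g1_1, h19, h20, h21⟩ | ⟨-, h22, h23, h24⟩ := C.G 1 1
    · clear * - b5 g1_1 f1_1 d1 c3 c2 a7; omega
    · clear * - b5 g1_1 f1_1 b3 f0_1 b2 g0_1 a6 a4; omega
    · have gm1_1 := (C.G (-1) 1).m1
        (by clear * - b5 g1_1 f1_1 h20 b2 f0_1 g0_1 b1; omega) (by clear * - h20 d2; omega) (by clear * - d3 a4; omega)
      refine ⟨-1, 0, 0, -1, -1, -1, by norm_num, by norm_num, by norm_num, Or.inr ⟨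
        by clear * - b5 g1_1 f1_1 d2 b2 f0_1 g0_1 a7 a4; omega,
        by clear * - b4 fm1_1 f1_1 c3 a7 a5 a4; omega,
        by clear * - b5 g1_1 f1_1 d2 b2 f0_1 g0_1 a7 a4; omega,
        by clear * - b4 fm1_1 f1_1 c3 b2 f0_1 g0_1 a7 a5 a4; omega⟩⟩
    · clear * - h23 b4 fm1_1 f1_1 d3 c3 a7 a5; omega

theorem tm02 (C : Ctx (-1) f g x1 y1 x2 y2 u1 v1 u2 v2)
    (c : M0 (f (0, 1)) (0 * x1 + 1 * x2) (0 * y1 + 1 * y2))
    (d : M2 (g (0, 1)) (0 * u1 + 1 * u2) (0 * v1 + 1 * v2)) :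
    Same x1 y1 x2 y2 u1 v1 u2 v2 := by
  have H := C.H
  obtain ⟨a1, a2, a3, a4, a5, a6, a7, b1, b2, b3, b4, b5, b6⟩ := C.R
  obtain ⟨f0_1, c1, c2, c3⟩ := c
  obtain ⟨g0_1, d1, d2, d3⟩ := d
  have f1_1 := (C.F 1 1).m0
    (by clear * - c3 c2 a7 a6 a4; omega) (by clear * - c2 a7 a5 a4; omega) (by clear * - c3 a7 a6 a4 a2; omega)
  obtain ⟨fm1_1, h1, h2, h3⟩ | ⟨-, h4, h5, h6⟩ | ⟨fm1_1, h7, h8, h9⟩ | ⟨fm1_1, h10, h11, h12⟩ := C.F (-1) 1
  · clear * - b4 fm1_1 f1_1 a7 a6 a4; omega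
  · clear * - h4 b1 f0_1; omega
  · clear * - b4 fm1_1 f1_1 h7 c2 a2; omega
  · have g1_1 := (C.G 1 1).m2
      (by clear * - b4 fm1_1 f1_1 d1 c3 a7 a5; omega) (by clear * - b3 f0_1 f1_1 d2 a7 a6; omega) (by clear * - d3 a6; omega)
    obtain ⟨-, h13, h14, h15⟩ | ⟨gm1_1, h16, h17, h18⟩ | ⟨gm1_1, h19, h20, h21⟩ | ⟨-, h22, h23, h24⟩ := C.G (-1) 1
    · clear * - h14 b5 g1_1 f1_1 d1 b2 f0_1 g0_1 a7; omega
    · clear * - b6 g1_1 gm1_1 b5 f1_1 d2 b2 f0_1 g0_1 a7; omega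
    · clear * - b6 g1_1 gm1_1 a6; omega
    · clear * - h24 b5 g1_1 f1_1 b2 f0_1 g0_1 b1; omega

theorem tm03 (C : Ctx (-1) f g x1 y1 x2 y2 u1 v1 u2 v2)
    (c : M0 (f (0, 1)) (0 * x1 + 1 * x2) (0 * y1 + 1 * y2))
    (d : M3 (g (0, 1)) (0 * u1 + 1 * u2) (0 * v1 + 1 * v2)) :
    Same x1 y1 x2 y2 u1 v1 u2 v2 := by
  have H := C.H
  obtain ⟨a1, a2, a3, a4, a5, a6, a7, b1, b2, b3, b4, b5, b6⟩ := C.R
  obtain ⟨f0_1, c1, c2, c3⟩ := c
  obtain ⟨g0_1, d1, d2, d3⟩ := d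
  have f1_1 := (C.F 1 1).m0
    (by clear * - c3 c2 a7 a6 a4; omega) (by clear * - c2 a7 a5 a4; omega) (by clear * - c3 a7 a6 a4 a2; omega)
  obtain ⟨fm1_1, h1, h2, h3⟩ | ⟨-, h4, h5, h6⟩ | ⟨fm1_1, h7, h8, h9⟩ | ⟨fm1_1, h10, h11, h12⟩ := C.F (-1) 1
  · clear * - b4 fm1_1 f1_1 a7 a6 a4; omega
  · clear * - h4 b1 f0_1; omega
  · clear * - b4 fm1_1 f1_1 h7 c2 a2; omega
  · obtain ⟨g1_1, h13, h14, h15⟩ | ⟨-, h16, h17, h18⟩ | ⟨-, h19, h20, h21⟩ | ⟨g1_1, h22, h23, h24⟩ := C.G 1 1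
    · clear * - b5 g1_1 f1_1 d1 b2 f0_1 g0_1 a7; omega
    · clear * - h18 d2 a4; omega
    · clear * - h19 d2 a4; omega
    · clear * - b5 g1_1 f1_1 b3 f0_1 b2 g0_1 a6; omega

theorem tm10 (C : Ctx (-1) f g x1 y1 x2 y2 u1 v1 u2 v2)
    (c : M1 (f (0, 1)) (0 * x1 + 1 * x2) (0 * y1 + 1 * y2))
    (d : M0 (g (0, 1)) (0 * u1 + 1 * u2) (0 * v1 + 1 * v2)) :
    Same x1 y1 x2 y2 u1 v1 u2 v2 := by
  have H := C.H
  obtain ⟨a1, a2, a3, a4, a5, a6, a7, b1, b2, b3, b4, b5, b6⟩ := C.R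
  obtain ⟨f0_1, c1, c2, c3⟩ := c
  obtain ⟨g0_1, d1, d2, d3⟩ := d
  obtain ⟨f1_1, h1, h2, h3⟩ | ⟨f1_1, h4, h5, h6⟩ | ⟨f1_1, h7, h8, h9⟩ | ⟨f1_1, h10, h11, h12⟩ := C.F 1 1
  · clear * - b3 f0_1 f1_1 c1 b1; omega
  · clear * - b3 f0_1 f1_1 a7 a6 a4; omega
  · have fm1_1 := (C.F (-1) 1).m1
      (by clear * - h8 c3 c2 a7 a5 a4; omega) (by clear * - h8 c2; omega) (by clear * - c3 a7 a5 a4; omega)
    have g1_1 := (C.G 1 1).m0
      (by clear * - b4 fm1_1 f1_1 b3 f0_1 d3 d2 a7; omega) (by clear * - d2 a4; omega) (by clear * - b4 fm1_1 f1_1 b3 f0_1 d3 a7 a6; omega)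
    obtain ⟨gm1_1, h13, h14, h15⟩ | ⟨-, h16, h17, h18⟩ | ⟨-, h19, h20, h21⟩ | ⟨gm1_1, h22, h23, h24⟩ := C.G (-1) 1
    · clear * - b6 g1_1 gm1_1 b4 fm1_1 f1_1 h8 a7; omega
    · clear * - h16 b5 g1_1 f1_1 b4 fm1_1 b2 f0_1 g0_1 b1; omega
    · clear * - h19 b5 g1_1 f1_1 d2 c2 b2 f0_1 g0_1 a5; omega
    · refine ⟨-1, 0, 0, -1, -1, -1, by norm_num, by norm_num, by norm_num, Or.inr ⟨
        by clear * - b6 g1_1 gm1_1 b5 f1_1 b4 fm1_1 d3 b2 f0_1 g0_1 a7 a4; omega,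
        by clear * - b5 g1_1 f1_1 c2 b2 f0_1 g0_1 a5 a4; omega,
        by clear * - b6 g1_1 gm1_1 d3 b2 f0_1 g0_1 a4; omega,
        by clear * - b5 g1_1 f1_1 c2 b2 f0_1 g0_1 a5 a4; omega⟩⟩
  · have fm1_1 := (C.F (-1) 1).m1
      (by clear * - c3 c2 a7 a6 a4; omega) (by clear * - c2 a7 a6 a4 a2; omega) (by clear * - h11 c3; omega)
    have g1_1 := (C.G 1 1).m0
      (by clear * - b4 fm1_1 f1_1 b3 f0_1 d3 d2 a7; omega) (by clear * - d2 a4; omega) (by clear * - b4 fm1_1 f1_1 b3 f0_1 d3 a7 a6; omega)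
    clear * - b5 g1_1 f1_1 c3 b2 f0_1 g0_1 a6 a4 a2; omega

theorem tm11 (C : Ctx (-1) f g x1 y1 x2 y2 u1 v1 u2 v2)
    (c : M1 (f (0, 1)) (0 * x1 + 1 * x2) (0 * y1 + 1 * y2))
    (d : M1 (g (0, 1)) (0 * u1 + 1 * u2) (0 * v1 + 1 * v2)) :
    Same x1 y1 x2 y2 u1 v1 u2 v2 := by
  have H := C.H
  obtain ⟨a1, a2, a3, a4, a5, a6, a7, b1, b2, b3, b4, b5, b6⟩ := C.R
  obtain ⟨f0_1, c1, c2, c3⟩ := c
  obtain ⟨g0_1, d1, d2, d3⟩ := d
  obtain ⟨f1_1, h1, h2, h3⟩ | ⟨f1_1, h4, h5, h6⟩ | ⟨f1_1, h7, h8, h9⟩ | ⟨f1_1, h10, h11, h12⟩ := C.F 1 1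
  · clear * - b3 f0_1 f1_1 c1 b1; omega
  · clear * - b3 f0_1 f1_1 a7 a6 a4; omega
  · have fm1_1 := (C.F (-1) 1).m1
      (by clear * - h8 c3 c2 a7 a5 a4; omega) (by clear * - h8 c2; omega) (by clear * - c3 a7 a5 a4; omega)
    obtain ⟨g1_1, h13, h14, h15⟩ | ⟨g1_1, h16, h17, h18⟩ | ⟨g1_1, h19, h20, h21⟩ | ⟨g1_1, h22, h23, h24⟩ := C.G 1 1
    · clear * - b5 g1_1 f1_1 h7 b2 f0_1 g0_1 a7; omega
    · clear * - b5 g1_1 f1_1 h8 b2 f0_1 g0_1 a7; omega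
    · have gm1_1 := (C.G (-1) 1).m1
        (by clear * - b5 g1_1 f1_1 h20 b4 fm1_1 b2 f0_1 g0_1 b1; omega) (by clear * - h20 d2; omega) (by clear * - d3 a4; omega)
      have q : (-x2 - y2) * (-x2 - y2) = 0 := by
        have E0 : -x1 + u1 = 0 := by clear * - a7; omega
        have E1 : -x2 + u2 = 0 := by clear * - b2 f0_1 g0_1; omega
        have E2 : -y1 - y2 + v1 + v2 = 0 := by clear * - b5 g1_1 f1_1; omega
        have q : 4 * ((-x1 - x2) * (-x2 - y2)) + 2 * ((-x1 - x2) * (u1 - v1)) + 3 * ((-x1 - x2) * (-y1 + v1)) + 4 * ((-x1 - x2) * (y1 + x2 + y2)) + 2 * ((-x2 - y2) * (-x2 - y2)) + 4 * ((-x2 - y2) * (u1 - v1)) + 4 * ((-x2 - y2) * (-y1 + v1)) + 6 * ((-x2 - y2) * (y1 + x2 + y2)) + 2 * ((u1 - v1) * (u1 - v1)) + 4 * ((u1 - v1) * (-y1 + v1)) + 6 * ((u1 - v1) * (y1 + x2 + y2)) + 2 * ((-y1 + v1) * (-y1 + v1)) + 6 * ((-y1 + v1) * (y1 + x2 + y2)) + 4 * ((y1 + x2 + y2) * (y1 + x2 + y2)) =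 0 := by
          linear_combination (1) * C.k + (2 * y1 + 2 * y2 + 2 * u1 - v2) * E0 + (v1) * E1 + (-x1) * E2
        have p0 : 0 ≤ (-x1 - x2) * (-x2 - y2) :=
          mul_nonneg (by clear * - b1 f0_1; omega) (by clear * - c2; omega)
        have p1 : 0 ≤ (-x1 - x2) * (u1 - v1) :=
          mul_nonneg (by clear * - b1 f0_1; omega) (by clear * - a4; omega)
        have p2 : 0 ≤ (-x1 - x2) * (-y1 + v1) :=
          mul_nonneg (by clear * - b1 f0_1; omega) (by clear * - a5; omega)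
        have p3 : 0 ≤ (-x1 - x2) * (y1 + x2 + y2) :=
          mul_nonneg (by clear * - b1 f0_1; omega) (by clear * - b3 f0_1 f1_1; omega)
        have p4 := mul_self_nonneg (-x2 - y2)
        have p5 : 0 ≤ (-x2 - y2) * (u1 - v1) :=
          mul_nonneg (by clear * - c2; omega) (by clear * - a4; omega)
        have p6 : 0 ≤ (-x2 - y2) * (-y1 + v1) :=
          mul_nonneg (by clear * - c2; omega) (by clear * - a5; omega)
        have p7 : 0 ≤ (-x2 - y2) * (y1 + x2 + y2) :=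
          mul_nonneg (by clear * - c2; omega) (by clear * - b3 f0_1 f1_1; omega)
        have p8 := mul_self_nonneg (u1 - v1)
        have p9 : 0 ≤ (u1 - v1) * (-y1 + v1) :=
          mul_nonneg (by clear * - a4; omega) (by clear * - a5; omega)
        have p10 : 0 ≤ (u1 - v1) * (y1 + x2 + y2) :=
          mul_nonneg (by clear * - a4; omega) (by clear * - b3 f0_1 f1_1; omega)
        have p11 := mul_self_nonneg (-y1 + v1)
        have p12 : 0 ≤ (-y1 + v1) * (y1 + x2 + y2) :=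
          mul_nonneg (by clear * - a5; omega) (by clear * - b3 f0_1 f1_1; omega)
        have p13 := mul_self_nonneg (y1 + x2 + y2)
        linarith only [q, p0, p1, p2, p3, p4, p5, p6, p7, p8, p9, p10, p11, p12, p13]
      have h25 := mul_self_eq_zero.mp q
      have q : (y1) * (y1) = 0 := by
        have E0 : x2 + y2 = 0 := by clear * - h25; omega
        have E1 : -x1 + u1 = 0 := by clear * - a7; omega
        have E2 : -x2 + u2 = 0 := by clear * - b2 f0_1 g0_1; omega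
        have E3 : -y1 + x2 + v1 + v2 = 0 := by clear * - h25 b5 g1_1 f1_1; omega
        have q : 4 * ((y1) * (y1)) + 4 * ((y1) * (-x1 - x2)) + 6 * ((y1) * (u1 - v1)) + 6 * ((y1) * (-u2 - v2)) + 2 * ((-x1 - x2) * (u1 - v1)) + 3 * ((-x1 - x2) * (-u2 - v2)) + 2 * ((u1 - v1) * (u1 - v1)) + 4 * ((u1 - v1) * (-u2 - v2)) + 2 * ((-u2 - v2) * (-u2 - v2)) = 0 := by
          linear_combination (1) * C.k + (-x1) * E0 + (6 * y1 - 2 * x2 + 2 * u1 - 4 * v1 - 4 * u2 - 5 * v2) * E1 + (-x1 - 6 * y1 + 5 * x2 + 5 * v1 + 2 * u2 + 4 * v2) * E2 + (-2 * x1 - 4 * y1 + 5 * x2 + 2 * v1 + 2 * v2) * E3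
        have p0 := mul_self_nonneg (y1)
        have p1 : 0 ≤ (y1) * (-x1 - x2) :=
          mul_nonneg (by clear * - h25 b3 f0_1 f1_1; omega) (by clear * - b1 f0_1; omega)
        have p2 : 0 ≤ (y1) * (u1 - v1) :=
          mul_nonneg (by clear * - h25 b3 f0_1 f1_1; omega) (by clear * - a4; omega)
        have p3 : 0 ≤ (y1) * (-u2 - v2) :=
          mul_nonneg (by clear * - h25 b3 f0_1 f1_1; omega) (by clear * - d2; omega)
        have p4 : 0 ≤ (-x1 - x2) * (u1 - v1) :=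
          mul_nonneg (by clear * - b1 f0_1; omega) (by clear * - a4; omega)
        have p5 : 0 ≤ (-x1 - x2) * (-u2 - v2) :=
          mul_nonneg (by clear * - b1 f0_1; omega) (by clear * - d2; omega)
        have p6 := mul_self_nonneg (u1 - v1)
        have p7 : 0 ≤ (u1 - v1) * (-u2 - v2) :=
          mul_nonneg (by clear * - a4; omega) (by clear * - d2; omega)
        have p8 := mul_self_nonneg (-u2 - v2)
        linarith only [q, p0, p1, p2, p3, p4, p5, p6, p7, p8]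
      have h26 := mul_self_eq_zero.mp q
      have q : (v1) * (v1) = 0 := by
        have E0 : y1 = 0 := by clear * - h26; omega
        have E1 : x2 + y2 = 0 := by clear * - h25; omega
        have E2 : -x1 + u1 = 0 := by clear * - a7; omega
        have E3 : -x2 + u2 = 0 := by clear * - b2 f0_1 g0_1; omega
        have E4 : x2 + v1 + v2 = 0 := by clear * - h26 h25 b5 g1_1 f1_1; omega
        have q : 3 * ((-x1 - x2) * (v1)) + 2 * ((-x1 - x2) * (u1 - v1)) + 2 * ((v1) * (v1)) + 4 * ((v1) * (u1 - v1)) + 2 * ((u1 - v1) * (u1 - v1)) = 0 := by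
          linear_combination (1) * C.k + (x2) * E0 + (-x1) * E1 + (-2 * x2 + 2 * u1 - v2) * E2 + (v1) * E3 + (-x1) * E4
        have p0 : 0 ≤ (-x1 - x2) * (v1) :=
          mul_nonneg (by clear * - b1 f0_1; omega) (by clear * - h26 h25 b5 g1_1 f1_1 d2 b2 f0_1 g0_1; omega)
        have p1 : 0 ≤ (-x1 - x2) * (u1 - v1) :=
          mul_nonneg (by clear * - b1 f0_1; omega) (by clear * - a4; omega)
        have p2 := mul_self_nonneg (v1)
        have p3 : 0 ≤ (v1) * (u1 - v1) :=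
          mul_nonneg (by clear * - h26 h25 b5 g1_1 f1_1 d2 b2 f0_1 g0_1; omega) (by clear * - a4; omega)
        have p4 := mul_self_nonneg (u1 - v1)
        linarith only [q, p0, p1, p2, p3, p4]
      have h27 := mul_self_eq_zero.mp q
      clear * - h27 a6; omega
    · clear * - b5 g1_1 f1_1 b3 f0_1 d3 b2 g0_1 a6; omega
  · have fm1_1 := (C.F (-1) 1).m1
      (by clear * - c3 c2 a7 a6 a4; omega) (by clear * - c2 a7 a6 a4 a2; omega) (by clear * - h11 c3; omega)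
    obtain ⟨g1_1, h28, h29, h30⟩ | ⟨g1_1, h31, h32, h33⟩ | ⟨g1_1, h34, h35, h36⟩ | ⟨g1_1, h37, h38, h39⟩ := C.G 1 1
    · clear * - b5 g1_1 f1_1 h10 b2 f0_1 g0_1 a7; omega
    · clear * - b5 g1_1 f1_1 h11 b2 f0_1 g0_1 a7; omega
    · have gm1_1 := (C.G (-1) 1).m1
        (by clear * - b5 g1_1 f1_1 h35 b4 fm1_1 b2 f0_1 g0_1 b1; omega) (by clear * - h35 d2; omega) (by clear * - d3 a4; omega)
      have q : (v1) * (-x1 - x2) = 0 := by
        have E0 : y1 = 0 := by clear * - b3 f0_1 f1_1 c3 a2; omega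
        have E1 : -x2 + y2 = 0 := by clear * - b3 f0_1 f1_1 c3 a2; omega
        have E2 : -x1 + u1 = 0 := by clear * - a7; omega
        have E3 : -x2 + u2 = 0 := by clear * - b2 f0_1 g0_1; omega
        have E4 : x2 + v1 + v2 = 0 := by clear * - b5 g1_1 f1_1 b3 f0_1 c3 a2; omega
        have q : 1 * ((v1) * (-x1 - x2)) = 0 := by
          linear_combination (1) * C.k + (x2) * E0 + (-x1) * E1 + (-v2) * E2 + (v1) * E3 + (-x1) * E4
        linarith only [q]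
      obtain h40 | h40 := mul_eq_zero.mp q
      · clear * - h40 a6; omega
      · have f2_1 := (C.F 2 1).m0
          (by clear * - h40 b5 g1_1 f1_1 h36 b4 fm1_1; omega) (by clear * - h40 b5 g1_1 f1_1 h36 c3; omega) (by clear * - h40 c3 a2; omega)
        have f1_2 := (C.F 1 2).m3
          (by clear * - h40 b5 g1_1 f1_1 h36 c2; omega) (by clear * - h40 b5 g1_1 f1_1 h36 b3 f0_1 a2; omega) (by clear * - b3 f0_1 f1_1 c2; omega)
        have g2_1 := (C.G 2 1).m2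
          (by clear * - h40 b5 g1_1 f1_1 b3 f0_1 d2 a7; omega) (by clear * - h35 d2; omega) (by clear * - b5 g1_1 f1_1 h36 b3 f0_1 d2 b2 g0_1; omega)
        have g1_2 := (C.G 1 2).m2
          (by clear * - h34 d3; omega) (by clear * - b5 g1_1 f1_1 b3 f0_1 b2 g0_1 a4; omega) (by clear * - b5 g1_1 f1_1 b3 f0_1 d3 b2 g0_1; omega)
        replace H := C.S _ _ H (List.cons_ne_nil _ _)
        simp only [Br_cons, Br_nil, Fst, List.nil_append, List.cons_append, List.forall_mem_cons, List.not_mem_nil, false_imp_iff, implies_true, Prod.mk_add_mk, Int.reduceAdd, f2_1, f1_2, fm1_1, g2_1, g1_2, gm1_1] at H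
        obtain ⟨⟨-, ⟨h41, h42, -⟩⟩, H⟩ | ⟨⟨⟨h43, -⟩, ⟨h44, -⟩⟩, H⟩ | ⟨⟨⟨h45, h46, -⟩, -⟩, H⟩ | ⟨⟨⟩⟩ := H
        · obtain ⟨⟨-, ⟨h47, h48, -⟩⟩, h53, H⟩ | ⟨⟨⟨h49, -⟩, ⟨h50, -⟩⟩, h53, H⟩ | ⟨⟨⟨h51, h52, -⟩, -⟩, h53, H⟩ | ⟨⟨⟩⟩ := H
          · clear * - h53 h40 b5 g1_1 f1_1 b3 f0_1 a6; omega
          · refine ⟨0, -1, -1, 0, 1, 1, by norm_num, by norm_num, by norm_num, Or.inl ⟨
              by clear * - h40 a7; omega,
              by clear * - h53 h40 b5 g1_1 f1_1 b3 f0_1 c3 a7 a4 a2; omega,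
              by clear * - h40 b2 f0_1 g0_1; omega,
              by clear * - h53 h40 b5 g1_1 f1_1 b3 f0_1 c3 a7 a4 a2; omega⟩⟩
          · clear * - h53 h40 b6 g1_1 gm1_1 h35 b2 f0_1 g0_1; omega
        · clear * - h43 h40 b5 g1_1 f1_1 h35 h34 b3 f0_1 a2; omega
        · clear * - h45 h40 b5 g1_1 f1_1 h36 b4 fm1_1; omega
    · clear * - b5 g1_1 f1_1 b3 f0_1 d3 b2 g0_1 a6; omega

theorem tm12 (C : Ctx (-1) f g x1 y1 x2 y2 u1 v1 u2 v2)
    (c : M1 (f (0, 1)) (0 * x1 + 1 * x2) (0 * y1 + 1 * y2))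
    (d : M2 (g (0, 1)) (0 * u1 + 1 * u2) (0 * v1 + 1 * v2)) :
    Same x1 y1 x2 y2 u1 v1 u2 v2 := by
  have H := C.H
  obtain ⟨a1, a2, a3, a4, a5, a6, a7, b1, b2, b3, b4, b5, b6⟩ := C.R
  obtain ⟨f0_1, c1, c2, c3⟩ := c
  obtain ⟨g0_1, d1, d2, d3⟩ := d
  obtain ⟨f1_1, h1, h2, h3⟩ | ⟨f1_1, h4, h5, h6⟩ | ⟨f1_1, h7, h8, h9⟩ | ⟨f1_1, h10, h11, h12⟩ := C.F 1 1
  · clear * - b3 f0_1 f1_1 d2 d1 b2 g0_1 b1; omega
  · clear * - b3 f0_1 f1_1 a7 a6 a4; omega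
  · have fm1_1 := (C.F (-1) 1).m1
      (by clear * - h8 c3 c2 a7 a5 a4; omega) (by clear * - h8 c2; omega) (by clear * - c3 a7 a5 a4; omega)
    obtain ⟨g1_1, h13, h14, h15⟩ | ⟨-, h16, h17, h18⟩ | ⟨g1_1, h19, h20, h21⟩ | ⟨-, h22, h23, h24⟩ := C.G 1 1
    · have gm1_1 := (C.G (-1) 1).m2
        (by clear * - h14 d1; omega) (by clear * - h14 b2 f0_1 g0_1 b1 a7; omega) (by clear * - b5 g1_1 f1_1 h14 b4 fm1_1 b2 f0_1 g0_1 b1; omega)
      clear * - b6 g1_1 gm1_1 b5 f1_1 b3 f0_1 b2 g0_1 a6; omega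
    · clear * - h17 b4 fm1_1 f1_1 h8 d2 a7 a6; omega
    · obtain ⟨-, h25, h26, h27⟩ | ⟨gm1_1, h28, h29, h30⟩ | ⟨gm1_1, h31, h32, h33⟩ | ⟨-, h34, h35, h36⟩ := C.G (-1) 1
      · clear * - h26 b5 g1_1 f1_1 b4 fm1_1 d1 b2 f0_1 g0_1 a7; omega
      · have q : (y1) * (y1) = 0 := by
          have E0 : x2 + y2 = 0 := by clear * - b5 g1_1 f1_1 c2 b2 f0_1 g0_1 a5; omega
          have E1 : -x1 + u1 = 0 := by clear * - a7; omega
          have E2 : -y1 + v1 = 0 := by clear * - b5 g1_1 f1_1 c2 b2 f0_1 g0_1 a5; omega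
          have E3 : x2 + v2 = 0 := by clear * - b2 f0_1 g0_1; omega
          have q : 4 * ((y1) * (y1)) + 4 * ((y1) * (-x1 - x2)) + 5 * ((y1) * (u2 + v2)) + 6 * ((y1) * (u1 - v1 - u2 - v2)) + 2 * ((-x1 - x2) * (u2 + v2)) + 2 * ((-x1 - x2) * (u1 - v1 - u2 - v2)) + 2 * ((u2 + v2) * (u2 + v2)) + 4 * ((u2 + v2) * (u1 - v1 - u2 - v2)) + 2 * ((u1 - v1 - u2 - v2) * (u1 - v1 - u2 - v2)) = 0 := by
            linear_combination (1) * C.k + (-x1) * E0 + (6 * y1 - 2 * x2 + 2 * u1 - 4 * v1 - v2) * E1 + (-2 * x1 - 4 * y1 + 2 * x2 + 2 * v1 + u2) * E2 + (-x1 - y1) * E3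
          have p0 := mul_self_nonneg (y1)
          have p1 : 0 ≤ (y1) * (-x1 - x2) :=
            mul_nonneg (by clear * - b3 f0_1 f1_1 c2; omega) (by clear * - b1 f0_1; omega)
          have p2 : 0 ≤ (y1) * (u2 + v2) :=
            mul_nonneg (by clear * - b3 f0_1 f1_1 c2; omega) (by clear * - d2; omega)
          have p3 : 0 ≤ (y1) * (u1 - v1 - u2 - v2) :=
            mul_nonneg (by clear * - b3 f0_1 f1_1 c2; omega) (by clear * - b6 g1_1 gm1_1; omega)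
          have p4 : 0 ≤ (-x1 - x2) * (u2 + v2) :=
            mul_nonneg (by clear * - b1 f0_1; omega) (by clear * - d2; omega)
          have p5 : 0 ≤ (-x1 - x2) * (u1 - v1 - u2 - v2) :=
            mul_nonneg (by clear * - b1 f0_1; omega) (by clear * - b6 g1_1 gm1_1; omega)
          have p6 := mul_self_nonneg (u2 + v2)
          have p7 : 0 ≤ (u2 + v2) * (u1 - v1 - u2 - v2) :=
            mul_nonneg (by clear * - d2; omega) (by clear * - b6 g1_1 gm1_1; omega)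
          have p8 := mul_self_nonneg (u1 - v1 - u2 - v2)
          linarith only [q, p0, p1, p2, p3, p4, p5, p6, p7, p8]
        have h37 := mul_self_eq_zero.mp q
        clear * - h37 b5 g1_1 f1_1 c2 b2 f0_1 g0_1 a6; omega
      · clear * - b6 g1_1 gm1_1 a6; omega
      · clear * - h35 h34 b5 g1_1 f1_1 b4 fm1_1 b2 f0_1 g0_1 b1; omega
    · clear * - h22 b4 fm1_1 f1_1 h8 d2 a7 a6; omega
  · have fm1_1 := (C.F (-1) 1).m1
      (by clear * - c3 c2 a7 a6 a4; omega) (by clear * - c2 a7 a6 a4 a2; omega) (by clear * - h11 c3; omega)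
    obtain ⟨g1_1, h38, h39, h40⟩ | ⟨-, h41, h42, h43⟩ | ⟨g1_1, h44, h45, h46⟩ | ⟨-, h47, h48, h49⟩ := C.G 1 1
    · clear * - b5 g1_1 f1_1 h39 c3 b2 f0_1 g0_1 a6 a2; omega
    · clear * - h42 b4 fm1_1 f1_1 h11 d2 a7 a6; omega
    · clear * - b5 g1_1 f1_1 c3 b2 f0_1 g0_1 a6 a2; omega
    · clear * - h47 b4 fm1_1 f1_1 h11 d2 a7 a6; omega

theorem tm20 (C : Ctx (-1) f g x1 y1 x2 y2 u1 v1 u2 v2)
    (c : M2 (f (0, 1)) (0 * x1 + 1 * x2) (0 * y1 + 1 * y2))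
    (d : M0 (g (0, 1)) (0 * u1 + 1 * u2) (0 * v1 + 1 * v2)) :
    Same x1 y1 x2 y2 u1 v1 u2 v2 := by
  have H := C.H
  obtain ⟨a1, a2, a3, a4, a5, a6, a7, b1, b2, b3, b4, b5, b6⟩ := C.R
  obtain ⟨f0_1, c1, c2, c3⟩ := c
  obtain ⟨g0_1, d1, d2, d3⟩ := d
  obtain ⟨f1_1, h1, h2, h3⟩ | ⟨-, h4, h5, h6⟩ | ⟨f1_1, h7, h8, h9⟩ | ⟨-, h10, h11, h12⟩ := C.F 1 1
  · have fm1_1 := (C.F (-1) 1).m2
      (by clear * - h2 c1; omega) (by clear * - h2 b1 f0_1; omega) (by clear * - h2 c1 b1 f0_1; omega)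
    have g1_1 := (C.G 1 1).m0
      (by clear * - b3 f0_1 f1_1 d3 d2 c1 a7; omega) (by clear * - d2 a4; omega) (by clear * - b3 f0_1 f1_1 d3 c1 a7 a6; omega)
    clear * - b5 g1_1 f1_1 c1 b2 f0_1 g0_1 a7; omega
  · clear * - h5 c2 a7 a6 a4 a2; omega
  · obtain ⟨-, h13, h14, h15⟩ | ⟨fm1_1, h16, h17, h18⟩ | ⟨fm1_1, h19, h20, h21⟩ | ⟨-, h22, h23, h24⟩ := C.F (-1) 1
    · clear * - h14 c1 a7 a5 a4; omega
    · have g1_1 := (C.G 1 1).m0
        (by clear * - b4 fm1_1 f1_1 h8 d3 d2 a7; omega) (by clear * - d2 a4; omega) (by clear * - b4 fm1_1 f1_1 h8 d3 a7 a6; omega)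
      clear * - b5 g1_1 f1_1 b4 fm1_1 c2 b2 f0_1 g0_1 a7; omega
    · have g1_1 := (C.G 1 1).m0
        (by clear * - h19 h8 b2 f0_1 g0_1 a7; omega) (by clear * - d2 a4; omega) (by clear * - d3 a6 a4; omega)
      clear * - b5 g1_1 f1_1 b4 fm1_1 b2 f0_1 g0_1 a6 a4; omega
    · clear * - h23 h7 a7 a5 a4; omega
  · clear * - h10 c2 a7 a6 a4 a2; omega

theorem tm21 (C : Ctx (-1) f g x1 y1 x2 y2 u1 v1 u2 v2)
    (c : M2 (f (0, 1)) (0 * x1 + 1 * x2) (0 * y1 + 1 * y2))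
    (d : M1 (g (0, 1)) (0 * u1 + 1 * u2) (0 * v1 + 1 * v2)) :
    Same x1 y1 x2 y2 u1 v1 u2 v2 := by
  have H := C.H
  obtain ⟨a1, a2, a3, a4, a5, a6, a7, b1, b2, b3, b4, b5, b6⟩ := C.R
  obtain ⟨f0_1, c1, c2, c3⟩ := c
  obtain ⟨g0_1, d1, d2, d3⟩ := d
  obtain ⟨f1_1, h1, h2, h3⟩ | ⟨-, h4, h5, h6⟩ | ⟨f1_1, h7, h8, h9⟩ | ⟨-, h10, h11, h12⟩ := C.F 1 1
  · have fm1_1 := (C.F (-1) 1).m2
      (by clear * - h2 c1; omega) (by clear * - h2 b1 f0_1; omega) (by clear * - h2 c1 b1 f0_1; omega)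
    obtain ⟨g1_1, h13, h14, h15⟩ | ⟨g1_1, h16, h17, h18⟩ | ⟨g1_1, h19, h20, h21⟩ | ⟨g1_1, h22, h23, h24⟩ := C.G 1 1
    · clear * - b5 g1_1 f1_1 b3 f0_1 d1 b1 a7; omega
    · clear * - b5 g1_1 f1_1 b3 f0_1 c1 b2 g0_1 a7; omega
    · have gm1_1 := (C.G (-1) 1).m1
        (by clear * - b5 g1_1 f1_1 h20 c1 b2 f0_1 g0_1 b1; omega) (by clear * - h20 d2; omega) (by clear * - d3 a4; omega)
      have q : (v1) * (v1) = 0 := by
        have E0 : y1 = 0 := by clear * - b4 fm1_1 f1_1 b3 f0_1 a2; omega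
        have E1 : -x1 - x2 + y2 = 0 := by clear * - b4 fm1_1 f1_1 b3 f0_1 a2; omega
        have E2 : -x1 + u1 = 0 := by clear * - a7; omega
        have E3 : x1 + x2 + u2 = 0 := by clear * - b4 fm1_1 f1_1 b3 f0_1 b2 g0_1 a2; omega
        have E4 : -x1 - x2 + v1 + v2 = 0 := by clear * - b5 g1_1 f1_1; omega
        have q : 3 * ((-x1 + y2) * (v1)) + 2 * ((-x1 + y2) * (u1 - v1)) + 2 * ((v1) * (v1)) + 4 * ((v1) * (u1 - v1)) + 2 * ((u1 - v1) * (u1 - v1)) = 0 := by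
          linear_combination (1) * C.k + (x2) * E0 + (-x1 + 2 * u1 + v1) * E1 + (2 * x1 + 2 * x2 + 2 * u1 - v2) * E2 + (v1) * E3 + (-x1) * E4
        have p0 : 0 ≤ (-x1 + y2) * (v1) :=
          mul_nonneg (by clear * - b1 f0_1; omega) (by clear * - b5 g1_1 f1_1 b3 f0_1 d2 b2 g0_1; omega)
        have p1 : 0 ≤ (-x1 + y2) * (u1 - v1) :=
          mul_nonneg (by clear * - b1 f0_1; omega) (by clear * - a4; omega)
        have p2 := mul_self_nonneg (v1)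
        have p3 : 0 ≤ (v1) * (u1 - v1) :=
          mul_nonneg (by clear * - b5 g1_1 f1_1 b3 f0_1 d2 b2 g0_1; omega) (by clear * - a4; omega)
        have p4 := mul_self_nonneg (u1 - v1)
        linarith only [q, p0, p1, p2, p3, p4]
      have h25 := mul_self_eq_zero.mp q
      clear * - h25 a6; omega
    · clear * - b5 g1_1 f1_1 b3 f0_1 d3 b2 g0_1 a6; omega
  · clear * - h5 c2 a7 a6 a4 a2; omega
  · obtain ⟨-, h26, h27, h28⟩ | ⟨fm1_1, h29, h30, h31⟩ | ⟨fm1_1, h32, h33, h34⟩ | ⟨-, h35, h36, h37⟩ := C.F (-1) 1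
    · clear * - h27 c1 a7 a5 a4; omega
    · obtain ⟨g1_1, h38, h39, h40⟩ | ⟨g1_1, h41, h42, h43⟩ | ⟨g1_1, h44, h45, h46⟩ | ⟨g1_1, h47, h48, h49⟩ := C.G 1 1
      · clear * - b5 g1_1 f1_1 h7 c2 b2 f0_1 g0_1 a7; omega
      · clear * - b5 g1_1 f1_1 h30 c2 b2 f0_1 g0_1 a7; omega
      · have gm1_1 := (C.G (-1) 1).m1
          (by clear * - b5 g1_1 f1_1 h45 b4 fm1_1 c2 b2 f0_1 g0_1 b1; omega) (by clear * - h45 d2; omega) (by clear * - d3 a4; omega)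
        have q : (y1) * (y1) = 0 := by
          have E0 : -x1 + u1 = 0 := by clear * - a7; omega
          have E1 : y2 + u2 = 0 := by clear * - b2 f0_1 g0_1; omega
          have E2 : -y1 - y2 + v1 + v2 = 0 := by clear * - b5 g1_1 f1_1; omega
          have q : 4 * ((y1) * (y1)) + 4 * ((y1) * (-x1 + y2)) + 5 * ((y1) * (u1 - v1)) + 5 * ((y1) * (-u2 - v2)) + 1 * ((y1) * (x1 - y1 - x2 - y2)) + 2 * ((-x1 + y2) * (u1 - v1)) + 3 * ((-x1 + y2) * (-u2 - v2)) + 2 * ((u1 - v1) * (u1 - v1)) + 4 * ((u1 - v1) * (-u2 - v2)) + 2 * ((-u2 - v2) * (-u2 - v2)) = 0 := by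
            linear_combination (1) * C.k + (5 * y1 + 2 * y2 + 2 * u1 - 4 * v1 - 4 * u2 - 5 * v2) * E0 + (-x1 - 5 * y1 - 5 * y2 + 5 * v1 + 2 * u2 + 4 * v2) * E1 + (-2 * x1 - 3 * y1 - 5 * y2 + 2 * v1 + 2 * v2) * E2
          have p0 := mul_self_nonneg (y1)
          have p1 : 0 ≤ (y1) * (-x1 + y2) :=
            mul_nonneg (by clear * - b3 f0_1 f1_1; omega) (by clear * - b1 f0_1; omega)
          have p2 : 0 ≤ (y1) * (u1 - v1) :=
            mul_nonneg (by clear * - b3 f0_1 f1_1; omega) (by clear * - a4; omega)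
          have p3 : 0 ≤ (y1) * (-u2 - v2) :=
            mul_nonneg (by clear * - b3 f0_1 f1_1; omega) (by clear * - d2; omega)
          have p4 : 0 ≤ (y1) * (x1 - y1 - x2 - y2) :=
            mul_nonneg (by clear * - b3 f0_1 f1_1; omega) (by clear * - b4 fm1_1 f1_1; omega)
          have p5 : 0 ≤ (-x1 + y2) * (u1 - v1) :=
            mul_nonneg (by clear * - b1 f0_1; omega) (by clear * - a4; omega)
          have p6 : 0 ≤ (-x1 + y2) * (-u2 - v2) :=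
            mul_nonneg (by clear * - b1 f0_1; omega) (by clear * - d2; omega)
          have p7 := mul_self_nonneg (u1 - v1)
          have p8 : 0 ≤ (u1 - v1) * (-u2 - v2) :=
            mul_nonneg (by clear * - a4; omega) (by clear * - d2; omega)
          have p9 := mul_self_nonneg (-u2 - v2)
          linarith only [q, p0, p1, p2, p3, p4, p5, p6, p7, p8, p9]
        have h50 := mul_self_eq_zero.mp q
        have q : (x2 + y2) * (v1) = 0 := by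
          have E0 : y1 = 0 := by clear * - h50; omega
          have E1 : -x1 + u1 = 0 := by clear * - a7; omega
          have E2 : y2 + u2 = 0 := by clear * - b2 f0_1 g0_1; omega
          have E3 : -y2 + v1 + v2 = 0 := by clear * - h50 b5 g1_1 f1_1; omega
          have q : 3 * ((-x1 + y2) * (v1)) + 2 * ((-x1 + y2) * (u1 - v1)) + 2 * ((x2 + y2) * (v1)) + 2 * ((v1) * (u1 - v1)) + 2 * ((v1) * (x1 + y1 - x2 - y2)) + 2 * ((u1 - v1) * (u1 - v1)) = 0 := by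
            linear_combination (1) * C.k + (x2 + 2 * v1) * E0 + (2 * y2 + 2 * u1 - 2 * v1 - v2) * E1 + (v1) * E2 + (-x1) * E3
          have p0 : 0 ≤ (-x1 + y2) * (v1) :=
            mul_nonneg (by clear * - b1 f0_1; omega) (by clear * - h50 b5 g1_1 f1_1 d2 b2 f0_1 g0_1; omega)
          have p1 : 0 ≤ (-x1 + y2) * (u1 - v1) :=
            mul_nonneg (by clear * - b1 f0_1; omega) (by clear * - a4; omega)
          have p2 : 0 ≤ (x2 + y2) * (v1) :=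
            mul_nonneg (by clear * - c2; omega) (by clear * - h50 b5 g1_1 f1_1 d2 b2 f0_1 g0_1; omega)
          have p3 : 0 ≤ (v1) * (u1 - v1) :=
            mul_nonneg (by clear * - h50 b5 g1_1 f1_1 d2 b2 f0_1 g0_1; omega) (by clear * - a4; omega)
          have p4 : 0 ≤ (v1) * (x1 + y1 - x2 - y2) :=
            mul_nonneg (by clear * - h50 b5 g1_1 f1_1 d2 b2 f0_1 g0_1; omega) (by clear * - h50 b4 fm1_1 f1_1; omega)
          have p5 := mul_self_nonneg (u1 - v1)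
          linarith only [q, p0, p1, p2, p3, p4, p5]
        obtain h51 | h51 := mul_eq_zero.mp q
        · clear * - h51 c2; omega
        · clear * - h51 a6; omega
      · clear * - b5 g1_1 f1_1 b3 f0_1 d3 b2 g0_1 a6; omega
    · obtain ⟨-, h52, h53, h54⟩ | ⟨g1_1, h55, h56, h57⟩ | ⟨g1_1, h58, h59, h60⟩ | ⟨g1_1, h61, h62, h63⟩ := C.G 1 1
      · clear * - h54 h53 h33 h7 b2 f0_1 g0_1 a7; omega
      · clear * - b5 g1_1 f1_1 b3 f0_1 b2 g0_1 a6 a4; omega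
      · have gm1_1 := (C.G (-1) 1).m1
          (by clear * - b5 g1_1 f1_1 h59 b4 fm1_1 d3 d2 b2 f0_1 g0_1; omega) (by clear * - h59 d2; omega) (by clear * - d3 a4; omega)
        have q : (v1) * (v1) = 0 := by
          have E0 : y1 = 0 := by clear * - b4 fm1_1 f1_1 b3 f0_1; omega
          have E1 : -x1 + u1 = 0 := by clear * - a7; omega
          have E2 : y2 + u2 = 0 := by clear * - b2 f0_1 g0_1; omega
          have E3 : -y2 + v1 + v2 = 0 := by clear * - b5 g1_1 f1_1 b4 fm1_1 b3 f0_1; omega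
          have q : 4 * ((v1) * (v1)) + 8 * ((v1) * (u1 - v1)) + 3 * ((v1) * (-x1 + y1 - x2 + y2)) + 3 * ((v1) * (-x1 - y1 + x2 + y2)) + 4 * ((u1 - v1) * (u1 - v1)) + 2 * ((u1 - v1) * (-x1 + y1 - x2 + y2)) + 2 * ((u1 - v1) * (-x1 - y1 + x2 + y2)) = 0 := by
            linear_combination (2) * C.k + (2 * x2) * E0 + (4 * y2 + 4 * u1 - 2 * v2) * E1 + (2 * v1) * E2 + (-2 * x1) * E3
          have p0 := mul_self_nonneg (v1)
          have p1 : 0 ≤ (v1) * (u1 - v1) :=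
            mul_nonneg (by clear * - b5 g1_1 f1_1 b3 f0_1 d2 b2 g0_1; omega) (by clear * - a4; omega)
          have p2 : 0 ≤ (v1) * (-x1 + y1 - x2 + y2) :=
            mul_nonneg (by clear * - b5 g1_1 f1_1 b3 f0_1 d2 b2 g0_1; omega) (by clear * - h7; omega)
          have p3 : 0 ≤ (v1) * (-x1 - y1 + x2 + y2) :=
            mul_nonneg (by clear * - b5 g1_1 f1_1 b3 f0_1 d2 b2 g0_1; omega) (by clear * - h33; omega)
          have p4 := mul_self_nonneg (u1 - v1)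
          have p5 : 0 ≤ (u1 - v1) * (-x1 + y1 - x2 + y2) :=
            mul_nonneg (by clear * - a4; omega) (by clear * - h7; omega)
          have p6 : 0 ≤ (u1 - v1) * (-x1 - y1 + x2 + y2) :=
            mul_nonneg (by clear * - a4; omega) (by clear * - h33; omega)
          linarith only [q, p0, p1, p2, p3, p4, p5, p6]
        have h64 := mul_self_eq_zero.mp q
        clear * - h64 a6; omega
      · clear * - b5 g1_1 f1_1 b3 f0_1 d3 b2 g0_1 a6; omega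
    · clear * - h36 c1 a7 a5 a4; omega
  · clear * - h10 c2 a7 a6 a4 a2; omega

theorem tm22 (C : Ctx (-1) f g x1 y1 x2 y2 u1 v1 u2 v2)
    (c : M2 (f (0, 1)) (0 * x1 + 1 * x2) (0 * y1 + 1 * y2))
    (d : M2 (g (0, 1)) (0 * u1 + 1 * u2) (0 * v1 + 1 * v2)) :
    Same x1 y1 x2 y2 u1 v1 u2 v2 := by
  have H := C.H
  obtain ⟨a1, a2, a3, a4, a5, a6, a7, b1, b2, b3, b4, b5, b6⟩ := C.R
  obtain ⟨f0_1, c1, c2, c3⟩ := c
  obtain ⟨g0_1, d1, d2, d3⟩ := d
  obtain ⟨f1_1, h1, h2, h3⟩ | ⟨-, h4, h5, h6⟩ | ⟨f1_1, h7, h8, h9⟩ | ⟨-, h10, h11, h12⟩ := C.F 1 1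
  · have fm1_1 := (C.F (-1) 1).m2
      (by clear * - h2 c1; omega) (by clear * - h2 b1 f0_1; omega) (by clear * - h2 c1 b1 f0_1; omega)
    obtain ⟨g1_1, h13, h14, h15⟩ | ⟨-, h16, h17, h18⟩ | ⟨g1_1, h19, h20, h21⟩ | ⟨-, h22, h23, h24⟩ := C.G 1 1
    · clear * - b5 g1_1 f1_1 h14 b4 fm1_1 b2 f0_1 g0_1 a6 a2; omega
    · clear * - h17 b3 f0_1 f1_1 d2 c1 a7 a6; omega
    · clear * - b5 g1_1 f1_1 b4 fm1_1 b2 f0_1 g0_1 a6 a2; omega
    · clear * - h22 b3 f0_1 f1_1 d2 c1 a7 a6; omega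
  · clear * - h5 c2 a7 a6 a4 a2; omega
  · obtain ⟨-, h25, h26, h27⟩ | ⟨fm1_1, h28, h29, h30⟩ | ⟨fm1_1, h31, h32, h33⟩ | ⟨-, h34, h35, h36⟩ := C.F (-1) 1
    · clear * - h26 c1 a7 a5 a4; omega
    · obtain ⟨g1_1, h37, h38, h39⟩ | ⟨-, h40, h41, h42⟩ | ⟨g1_1, h43, h44, h45⟩ | ⟨-, h46, h47, h48⟩ := C.G 1 1
      · have gm1_1 := (C.G (-1) 1).m2
          (by clear * - h38 d1; omega) (by clear * - h38 b2 f0_1 g0_1 b1 a7; omega) (by clear * - b5 g1_1 f1_1 h38 b4 fm1_1 c2 b2 f0_1 g0_1 b1; omega)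
        clear * - b6 g1_1 gm1_1 b5 f1_1 b3 f0_1 b2 g0_1 a6; omega
      · clear * - h41 b4 fm1_1 f1_1 b3 f0_1 d2 c2 a7 a6; omega
      · obtain ⟨-, h49, h50, h51⟩ | ⟨gm1_1, h52, h53, h54⟩ | ⟨gm1_1, h55, h56, h57⟩ | ⟨-, h58, h59, h60⟩ := C.G (-1) 1
        · clear * - h50 b5 g1_1 f1_1 b4 fm1_1 d1 c2 b2 f0_1 g0_1 a7; omega
        · have q : (y1) * (y1) = 0 := by
            have E0 : -x1 + u1 = 0 := by clear * - a7; omega
            have E1 : -y1 + v1 = 0 := by clear * - b5 g1_1 f1_1 b2 f0_1 g0_1; omega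
            have E2 : -y2 + v2 = 0 := by clear * - b2 f0_1 g0_1; omega
            have q : 4 * ((y1) * (y1)) + 4 * ((y1) * (-x1 + y2)) + 4 * ((y1) * (x2 + y2)) + 5 * ((y1) * (x1 - y1 - x2 - y2)) + 1 * ((y1) * (u1 - v1 - u2 - v2)) + 2 * ((-x1 + y2) * (x2 + y2)) + 2 * ((-x1 + y2) * (x1 - y1 - x2 - y2)) + 2 * ((x2 + y2) * (x2 + y2)) + 4 * ((x2 + y2) * (x1 - y1 - x2 - y2)) + 2 * ((x1 - y1 - x2 - y2) * (x1 - y1 - x2 - y2)) = 0 := by
              linear_combination (1) * C.k + (y1 - v2) * E0 + (-y1 + u2) * E1 + (-x1 - y1) * E2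
            have p0 := mul_self_nonneg (y1)
            have p1 : 0 ≤ (y1) * (-x1 + y2) :=
              mul_nonneg (by clear * - b3 f0_1 f1_1; omega) (by clear * - b1 f0_1; omega)
            have p2 : 0 ≤ (y1) * (x2 + y2) :=
              mul_nonneg (by clear * - b3 f0_1 f1_1; omega) (by clear * - c2; omega)
            have p3 : 0 ≤ (y1) * (x1 - y1 - x2 - y2) :=
              mul_nonneg (by clear * - b3 f0_1 f1_1; omega) (by clear * - b4 fm1_1 f1_1; omega)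
            have p4 : 0 ≤ (y1) * (u1 - v1 - u2 - v2) :=
              mul_nonneg (by clear * - b3 f0_1 f1_1; omega) (by clear * - b6 g1_1 gm1_1; omega)
            have p5 : 0 ≤ (-x1 + y2) * (x2 + y2) :=
              mul_nonneg (by clear * - b1 f0_1; omega) (by clear * - c2; omega)
            have p6 : 0 ≤ (-x1 + y2) * (x1 - y1 - x2 - y2) :=
              mul_nonneg (by clear * - b1 f0_1; omega) (by clear * - b4 fm1_1 f1_1; omega)
            have p7 := mul_self_nonneg (x2 + y2)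
            have p8 : 0 ≤ (x2 + y2) * (x1 - y1 - x2 - y2) :=
              mul_nonneg (by clear * - c2; omega) (by clear * - b4 fm1_1 f1_1; omega)
            have p9 := mul_self_nonneg (x1 - y1 - x2 - y2)
            linarith only [q, p0, p1, p2, p3, p4, p5, p6, p7, p8, p9]
          have h61 := mul_self_eq_zero.mp q
          clear * - h61 b5 g1_1 f1_1 b2 f0_1 g0_1 a6; omega
        · clear * - b6 g1_1 gm1_1 a6; omega
        · clear * - h59 h58 b5 g1_1 f1_1 b4 fm1_1 c2 b2 f0_1 g0_1 b1; omega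
      · clear * - h46 b4 fm1_1 f1_1 b3 f0_1 d2 c2 a7 a6; omega
    · obtain ⟨g1_1, h62, h63, h64⟩ | ⟨-, h65, h66, h67⟩ | ⟨g1_1, h68, h69, h70⟩ | ⟨-, h71, h72, h73⟩ := C.G 1 1
      · clear * - b5 g1_1 f1_1 h63 b4 fm1_1 b2 f0_1 g0_1 a6; omega
      · clear * - h66 d2 a6 a4; omega
      · clear * - b5 g1_1 f1_1 b4 fm1_1 b2 f0_1 g0_1 a6; omega
      · clear * - h72 h71 d2 d1 a6; omega
    · clear * - h35 c1 a7 a5 a4; omega
  · clear * - h10 c2 a7 a6 a4 a2; omega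

theorem tm30 (C : Ctx (-1) f g x1 y1 x2 y2 u1 v1 u2 v2)
    (c : M3 (f (0, 1)) (0 * x1 + 1 * x2) (0 * y1 + 1 * y2))
    (d : M0 (g (0, 1)) (0 * u1 + 1 * u2) (0 * v1 + 1 * v2)) :
    Same x1 y1 x2 y2 u1 v1 u2 v2 := by
  have H := C.H
  obtain ⟨a1, a2, a3, a4, a5, a6, a7, b1, b2, b3, b4, b5, b6⟩ := C.R
  obtain ⟨f0_1, c1, c2, c3⟩ := c
  obtain ⟨g0_1, d1, d2, d3⟩ := d
  obtain ⟨f1_1, h1, h2, h3⟩ | ⟨-, h4, h5, h6⟩ | ⟨-, h7, h8, h9⟩ | ⟨f1_1, h10, h11, h12⟩ := C.F 1 1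
  · have fm1_1 := (C.F (-1) 1).m3
      (by clear * - h3 c1; omega) (by clear * - h3 b1 f0_1; omega) (by clear * - h3 c1 b1 f0_1; omega)
    have g1_1 := (C.G 1 1).m0
      (by clear * - b3 f0_1 f1_1 d3 d2 c1 a7; omega) (by clear * - d2 a4; omega) (by clear * - b3 f0_1 f1_1 d3 c1 a7 a6; omega)
    clear * - b5 g1_1 f1_1 c1 b2 f0_1 g0_1 a7; omega
  · clear * - h6 c2 a7 a5 a4; omega
  · clear * - h7 c2 a7 a5 a4; omega
  · obtain ⟨-, h13, h14, h15⟩ | ⟨fm1_1, h16, h17, h18⟩ | ⟨-, h19, h20, h21⟩ | ⟨fm1_1, h22, h23, h24⟩ := C.F (-1) 1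
    · clear * - h15 c1 a7 a6 a4 a2; omega
    · have g1_1 := (C.G 1 1).m0
        (by clear * - b4 fm1_1 f1_1 h18 d3 d2 c2 a7; omega) (by clear * - d2 a4; omega) (by clear * - b4 fm1_1 f1_1 h11 d3 a7 a6; omega)
      clear * - b5 g1_1 f1_1 b4 fm1_1 c2 b2 f0_1 g0_1 a7; omega
    · clear * - h20 c1 a7 a6 a4 a2; omega
    · have g1_1 := (C.G 1 1).m0
        (by clear * - h22 h11 b2 f0_1 g0_1 a7; omega) (by clear * - d2 a4; omega) (by clear * - d3 a6 a4; omega)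
      clear * - b5 g1_1 f1_1 b4 fm1_1 b2 f0_1 g0_1 a6 a4; omega

theorem tm31 (C : Ctx (-1) f g x1 y1 x2 y2 u1 v1 u2 v2)
    (c : M3 (f (0, 1)) (0 * x1 + 1 * x2) (0 * y1 + 1 * y2))
    (d : M1 (g (0, 1)) (0 * u1 + 1 * u2) (0 * v1 + 1 * v2)) :
    Same x1 y1 x2 y2 u1 v1 u2 v2 := by
  have H := C.H
  obtain ⟨a1, a2, a3, a4, a5, a6, a7, b1, b2, b3, b4, b5, b6⟩ := C.R
  obtain ⟨f0_1, c1, c2, c3⟩ := c
  obtain ⟨g0_1, d1, d2, d3⟩ := d
  obtain ⟨f1_1, h1, h2, h3⟩ | ⟨-, h4, h5, h6⟩ | ⟨-, h7, h8, h9⟩ | ⟨f1_1, h10, h11, h12⟩ := C.F 1 1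
  · have fm1_1 := (C.F (-1) 1).m3
      (by clear * - h3 c1; omega) (by clear * - h3 b1 f0_1; omega) (by clear * - h3 c1 b1 f0_1; omega)
    obtain ⟨g1_1, h13, h14, h15⟩ | ⟨g1_1, h16, h17, h18⟩ | ⟨g1_1, h19, h20, h21⟩ | ⟨g1_1, h22, h23, h24⟩ := C.G 1 1
    · clear * - b5 g1_1 f1_1 b3 f0_1 d1 b1 a7; omega
    · clear * - b5 g1_1 f1_1 b3 f0_1 c1 b2 g0_1 a7; omega
    · have gm1_1 := (C.G (-1) 1).m1
        (by clear * - b5 g1_1 f1_1 h20 c1 b2 f0_1 g0_1 b1; omega) (by clear * - h20 d2; omega) (by clear * - d3 a4; omega)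
      have q : (-x1 - y2) * (-y1 + v1) = 0 := by
        have E0 : -x1 + u1 = 0 := by clear * - a7; omega
        have E1 : -y2 + u2 = 0 := by clear * - b2 f0_1 g0_1; omega
        have E2 : -x1 - x2 + v1 + v2 = 0 := by clear * - b5 g1_1 f1_1; omega
        have q : 1 * ((-x1 - y2) * (-y1 + v1)) + 1 * ((u1 - v1) * (x1 + x2 + y2)) + 1 * ((-y1 + v1) * (x1 + x2 + y2)) = 0 := by
          linear_combination (1) * C.k + (x1 + x2 + y2 - v2) * E0 + (v1) * E1 + (-x1) * E2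
        have p0 : 0 ≤ (-x1 - y2) * (-y1 + v1) :=
          mul_nonneg (by clear * - b1 f0_1; omega) (by clear * - a5; omega)
        have p1 : 0 ≤ (u1 - v1) * (x1 + x2 + y2) :=
          mul_nonneg (by clear * - a4; omega) (by clear * - b3 f0_1 f1_1; omega)
        have p2 : 0 ≤ (-y1 + v1) * (x1 + x2 + y2) :=
          mul_nonneg (by clear * - a5; omega) (by clear * - b3 f0_1 f1_1; omega)
        linarith only [q, p0, p1, p2]
      obtain h25 | h25 := mul_eq_zero.mp q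
      · have q : (x1 - y1) * (x2) = 0 := by
          have E0 : x1 + y2 = 0 := by clear * - h25; omega
          have E1 : -x1 + u1 = 0 := by clear * - a7; omega
          have E2 : x1 + u2 = 0 := by clear * - h25 b2 f0_1 g0_1; omega
          have E3 : -x1 - x2 + v1 + v2 = 0 := by clear * - b5 g1_1 f1_1; omega
          have q : 1 * ((x1 - y1) * (x2)) = 0 := by
            linear_combination (1) * C.k + (-x1) * E0 + (-v2) * E1 + (v1) * E2 + (-x1) * E3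
          linarith only [q]
        obtain h26 | h26 := mul_eq_zero.mp q
        · refine ⟨-1, 0, 0, -1, -1, -1, by norm_num, by norm_num, by norm_num, Or.inr ⟨
            by clear * - h26 a7 a5 a4; omega,
            by clear * - h26 a7; omega,
            by clear * - h26 b5 g1_1 f1_1 a7 a5 a4; omega,
            by clear * - b2 f0_1 g0_1; omega⟩⟩
        · have f2_1 := (C.F 2 1).m0
            (by clear * - h26 b5 g1_1 f1_1 h21; omega) (by clear * - h2 a7 a5 a4; omega) (by clear * - h26 h25 b5 g1_1 f1_1 h21 b4 fm1_1; omega)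
          have f1_2 := (C.F 1 2).m3
            (by clear * - h26 h25 a7 a5 a4; omega) (by clear * - h25 b5 g1_1 f1_1 h21 h2; omega) (by clear * - h26 h25 h2; omega)
          have g2_1 := (C.G 2 1).m2
            (by clear * - h26 b5 g1_1 f1_1 d2 a7; omega) (by clear * - h20 d2; omega) (by clear * - h26 h25 b5 g1_1 f1_1 h21 d2 b2 f0_1 g0_1; omega)
          have g1_2 := (C.G 1 2).m2
            (by clear * - h19 d3; omega) (by clear * - h26 h25 b5 g1_1 f1_1 b2 f0_1 g0_1 a4; omega) (by clear * - h26 h25 b5 g1_1 f1_1 d3 b2 f0_1 g0_1; omega)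
          replace H := C.S _ _ H (List.cons_ne_nil _ _)
          simp only [Br_cons, Br_nil, Fst, List.nil_append, List.cons_append, List.forall_mem_cons, List.not_mem_nil, false_imp_iff, implies_true, Prod.mk_add_mk, Int.reduceAdd, f2_1, f1_2, fm1_1, g2_1, g1_2, gm1_1] at H
          obtain ⟨⟨-, ⟨h27, h28, -⟩⟩, H⟩ | ⟨⟨⟨h29, -⟩, ⟨h30, -⟩⟩, H⟩ | ⟨⟨⟨h31, h32, -⟩, -⟩, H⟩ | ⟨⟨⟩⟩ := H
          · clear * - h28 h27 h26 h25 b5 g1_1 f1_1 h20 h19; omega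
          · obtain ⟨⟨-, ⟨h33, h34, -⟩⟩, h39, H⟩ | ⟨⟨⟨h35, -⟩, ⟨h36, -⟩⟩, h39, H⟩ | ⟨⟨⟨h37, h38, -⟩, -⟩, h39, H⟩ | ⟨⟨⟩⟩ := H
            · refine ⟨-1, -1, 1, 0, -1, 1, by norm_num, by norm_num, by norm_num, Or.inl ⟨
                by clear * - h26 a7; omega,
                by clear * - h39 h26 h25 b5 g1_1 f1_1; omega,
                by clear * - h25 b2 f0_1 g0_1; omega,
                by clear * - h39 h26 h25 b5 g1_1 f1_1; omega⟩⟩
            · refine ⟨-1, 0, 1, 1, -1, -1, by norm_num, by norm_num, by norm_num, Or.inl ⟨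
                by clear * - a7; omega,
                by clear * - h39 h26 h25 b5 g1_1 f1_1; omega,
                by clear * - h26 h25 b2 f0_1 g0_1; omega,
                by clear * - h39 h26 h25 b5 g1_1 f1_1; omega⟩⟩
            · clear * - h38 h37 h26 h25 b5 g1_1 f1_1 h20 b2 f0_1 g0_1 a7; omega
          · obtain ⟨⟨-, ⟨h40, h41, -⟩⟩, h46, H⟩ | ⟨⟨⟨h42, -⟩, ⟨h43, -⟩⟩, h46, H⟩ | ⟨⟨⟨h44, h45, -⟩, -⟩, h46, H⟩ | ⟨⟨⟩⟩ := H
            · refine ⟨-1, 0, 1, 1, -1, -1, by norm_num, by norm_num, by norm_num, Or.inl ⟨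
                by clear * - a7; omega,
                by clear * - h46 h26 h25 b5 g1_1 f1_1; omega,
                by clear * - h26 h25 b2 f0_1 g0_1; omega,
                by clear * - h46 h26 h25 b5 g1_1 f1_1; omega⟩⟩
            · refine ⟨-1, -1, 1, 0, -1, 1, by norm_num, by norm_num, by norm_num, Or.inl ⟨
                by clear * - h26 a7; omega,
                by clear * - h46 h26 h25 b5 g1_1 f1_1; omega,
                by clear * - h25 b2 f0_1 g0_1; omega,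
                by clear * - h46 h26 h25 b5 g1_1 f1_1; omega⟩⟩
            · clear * - h45 h44 h26 h25 b5 g1_1 f1_1 h20 b2 f0_1 g0_1 a7; omega
      · have q : (x1 - y1) * (x1 + x2 + y2) = 0 := by
          have E0 : -x1 + u1 = 0 := by clear * - a7; omega
          have E1 : -y1 + v1 = 0 := by clear * - h25; omega
          have E2 : -y2 + u2 = 0 := by clear * - b2 f0_1 g0_1; omega
          have E3 : -x1 + y1 - x2 + v2 = 0 := by clear * - h25 b5 g1_1 f1_1; omega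
          have q : 1 * ((x1 - y1) * (x1 + x2 + y2)) = 0 := by
            linear_combination (1) * C.k + (-v2) * E0 + (u2) * E1 + (y1) * E2 + (-x1) * E3
          linarith only [q]
        obtain h47 | h47 := mul_eq_zero.mp q
        · refine ⟨-1, 0, 0, -1, -1, -1, by norm_num, by norm_num, by norm_num, Or.inr ⟨
            by clear * - h47 h25; omega,
            by clear * - h47 a7; omega,
            by clear * - h47 h25 b5 g1_1 f1_1; omega,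
            by clear * - b2 f0_1 g0_1; omega⟩⟩
        · refine ⟨-1, 0, 1, 1, -1, -1, by norm_num, by norm_num, by norm_num, Or.inl ⟨
            by clear * - a7; omega,
            by clear * - h25; omega,
            by clear * - h47 b2 f0_1 g0_1; omega,
            by clear * - h47 h25 b5 g1_1 f1_1; omega⟩⟩
    · clear * - b5 g1_1 f1_1 b3 f0_1 d3 b2 g0_1 a6; omega
  · clear * - h6 c2 a7 a5 a4; omega
  · clear * - h7 c2 a7 a5 a4; omega
  · obtain ⟨-, h48, h49, h50⟩ | ⟨fm1_1, h51, h52, h53⟩ | ⟨-, h54, h55, h56⟩ | ⟨fm1_1, h57, h58, h59⟩ := C.F (-1) 1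
    · clear * - h50 c1 a7 a6 a4 a2; omega
    · obtain ⟨g1_1, h60, h61, h62⟩ | ⟨g1_1, h63, h64, h65⟩ | ⟨g1_1, h66, h67, h68⟩ | ⟨g1_1, h69, h70, h71⟩ := C.G 1 1
      · clear * - b5 g1_1 f1_1 b3 f0_1 d1 b1 a7; omega
      · clear * - b5 g1_1 f1_1 h53 c2 b2 f0_1 g0_1 a7; omega
      · have gm1_1 := (C.G (-1) 1).m1
          (by clear * - b5 g1_1 f1_1 h67 b4 fm1_1 c2 b2 f0_1 g0_1 b1; omega) (by clear * - h67 d2; omega) (by clear * - d3 a4; omega)
        have q : (v1) * (-x1 - y2) = 0 := by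
          have E0 : y1 = 0 := by clear * - b3 f0_1 f1_1 a2; omega
          have E1 : -x1 + u1 = 0 := by clear * - a7; omega
          have E2 : -y2 + u2 = 0 := by clear * - b2 f0_1 g0_1; omega
          have E3 : y2 + v1 + v2 = 0 := by clear * - b5 g1_1 f1_1 b3 f0_1 a2; omega
          have q : 1 * ((v1) * (-x1 - y2)) = 0 := by
            linear_combination (1) * C.k + (x2) * E0 + (-v2) * E1 + (v1) * E2 + (-x1) * E3
          linarith only [q]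
        obtain h72 | h72 := mul_eq_zero.mp q
        · clear * - h72 a6; omega
        · have f2_1 := (C.F 2 1).m0
            (by clear * - h72 h52 h11 c2; omega) (by clear * - h72 b5 g1_1 f1_1 h68 h11; omega) (by clear * - h72 c2 a2; omega)
          have f1_2 := (C.F 1 2).m3
            (by clear * - h72 b5 g1_1 f1_1 h68 b4 fm1_1 h53; omega) (by clear * - h11 c2; omega) (by clear * - h72 b5 g1_1 f1_1 h68 h52 h11; omega)
          have g2_1 := (C.G 2 1).m2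
            (by clear * - h72 b5 g1_1 f1_1 b3 f0_1 d2 a7; omega) (by clear * - h67 d2; omega) (by clear * - b5 g1_1 f1_1 h68 b3 f0_1 d2 b2 g0_1; omega)
          have g1_2 := (C.G 1 2).m2
            (by clear * - h66 d3; omega) (by clear * - b5 g1_1 f1_1 b3 f0_1 b2 g0_1 a4; omega) (by clear * - b5 g1_1 f1_1 b3 f0_1 d3 b2 g0_1; omega)
          replace H := C.S _ _ H (List.cons_ne_nil _ _)
          simp only [Br_cons, Br_nil, Fst, List.nil_append, List.cons_append, List.forall_mem_cons, List.not_mem_nil, false_imp_iff, implies_true, Prod.mk_add_mk, Int.reduceAdd, f2_1, f1_2, fm1_1, g2_1, g1_2, gm1_1] at H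
          obtain ⟨⟨-, ⟨h73, h74, -⟩⟩, H⟩ | ⟨⟨⟨h75, -⟩, ⟨h76, -⟩⟩, H⟩ | ⟨⟨⟨h77, h78, -⟩, -⟩, H⟩ | ⟨⟨⟩⟩ := H
          · obtain ⟨⟨-, ⟨h79, h80, -⟩⟩, h85, H⟩ | ⟨⟨⟨h81, -⟩, ⟨h82, -⟩⟩, h85, H⟩ | ⟨⟨⟨h83, h84, -⟩, -⟩, h85, H⟩ | ⟨⟨⟩⟩ := H
            · refine ⟨-1, -1, 0, 1, -1, 1, by norm_num, by norm_num, by norm_num, Or.inr ⟨
                by clear * - h85 h72 b5 g1_1 f1_1 b3 f0_1 a2; omega,
                by clear * - h72 b3 f0_1 f1_1 a7 a2; omega,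
                by clear * - h85 h72 b5 g1_1 f1_1 b3 f0_1 a2; omega,
                by clear * - b2 f0_1 g0_1; omega⟩⟩
            · refine ⟨0, -1, 1, 1, 1, 1, by norm_num, by norm_num, by norm_num, Or.inr ⟨
                by clear * - h85 h72 b5 g1_1 f1_1 b3 f0_1 a2; omega,
                by clear * - h72 a7; omega,
                by clear * - h85 h72 b5 g1_1 f1_1 b3 f0_1 a2; omega,
                by clear * - b3 f0_1 f1_1 b2 g0_1 a2; omega⟩⟩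
            · clear * - h85 h74 c2 b2 f0_1 g0_1 a7; omega
          · clear * - h75 h72 h53; omega
          · obtain ⟨⟨-, ⟨h86, h87, -⟩⟩, h92, H⟩ | ⟨⟨⟨h88, -⟩, ⟨h89, -⟩⟩, h92, H⟩ | ⟨⟨⟨h90, h91, -⟩, -⟩, h92, H⟩ | ⟨⟨⟩⟩ := H
            · refine ⟨0, -1, 1, 1, 1, 1, by norm_num, by norm_num, by norm_num, Or.inr ⟨
                by clear * - h92 h72 b5 g1_1 f1_1 b3 f0_1 a2; omega,
                by clear * - h72 a7; omega,
                by clear * - h92 h72 b5 g1_1 f1_1 b3 f0_1 a2; omega,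
                by clear * - b3 f0_1 f1_1 b2 g0_1 a2; omega⟩⟩
            · refine ⟨-1, -1, 0, 1, -1, 1, by norm_num, by norm_num, by norm_num, Or.inr ⟨
                by clear * - h92 h72 b5 g1_1 f1_1 b3 f0_1 a2; omega,
                by clear * - h72 b3 f0_1 f1_1 a7 a2; omega,
                by clear * - h92 h72 b5 g1_1 f1_1 b3 f0_1 a2; omega,
                by clear * - b2 f0_1 g0_1; omega⟩⟩
            · clear * - h92 h91 h77 h72 b6 g1_1 gm1_1 d2 b2 f0_1 g0_1 a7; omega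
      · clear * - b5 g1_1 f1_1 b3 f0_1 d3 b2 g0_1 a6; omega
    · clear * - h55 c1 a7 a6 a4 a2; omega
    · obtain ⟨-, h93, h94, h95⟩ | ⟨g1_1, h96, h97, h98⟩ | ⟨g1_1, h99, h100, h101⟩ | ⟨g1_1, h102, h103, h104⟩ := C.G 1 1
      · clear * - h95 h94 h58 h10 b2 f0_1 g0_1 a7; omega
      · clear * - b5 g1_1 f1_1 b3 f0_1 b2 g0_1 a6 a4; omega
      · have gm1_1 := (C.G (-1) 1).m1
          (by clear * - b5 g1_1 f1_1 h100 b4 fm1_1 d3 d2 b2 f0_1 g0_1; omega) (by clear * - h100 d2; omega) (by clear * - d3 a4; omega)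
        have q : (v1) * (-x1 - y2) = 0 := by
          have E0 : y1 = 0 := by clear * - b4 fm1_1 f1_1 b3 f0_1; omega
          have E1 : -x1 + u1 = 0 := by clear * - a7; omega
          have E2 : -y2 + u2 = 0 := by clear * - b2 f0_1 g0_1; omega
          have E3 : y2 + v1 + v2 = 0 := by clear * - b5 g1_1 f1_1 b4 fm1_1 b3 f0_1; omega
          have q : 1 * ((v1) * (-x1 - y2)) = 0 := by
            linear_combination (1) * C.k + (x2) * E0 + (-v2) * E1 + (v1) * E2 + (-x1) * E3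
          linarith only [q]
        obtain h105 | h105 := mul_eq_zero.mp q
        · clear * - h105 a6; omega
        · clear * - h105 h58 h10; omega
      · clear * - b5 g1_1 f1_1 b3 f0_1 d3 b2 g0_1 a6; omega

theorem tm32 (C : Ctx (-1) f g x1 y1 x2 y2 u1 v1 u2 v2)
    (c : M3 (f (0, 1)) (0 * x1 + 1 * x2) (0 * y1 + 1 * y2))
    (d : M2 (g (0, 1)) (0 * u1 + 1 * u2) (0 * v1 + 1 * v2)) :
    Same x1 y1 x2 y2 u1 v1 u2 v2 := by
  have H := C.H
  obtain ⟨a1, a2, a3, a4, a5, a6, a7, b1, b2, b3, b4, b5, b6⟩ := C.R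
  obtain ⟨f0_1, c1, c2, c3⟩ := c
  obtain ⟨g0_1, d1, d2, d3⟩ := d
  obtain ⟨f1_1, h1, h2, h3⟩ | ⟨-, h4, h5, h6⟩ | ⟨-, h7, h8, h9⟩ | ⟨f1_1, h10, h11, h12⟩ := C.F 1 1
  · have fm1_1 := (C.F (-1) 1).m3
      (by clear * - h3 c1; omega) (by clear * - h3 b1 f0_1; omega) (by clear * - h3 c1 b1 f0_1; omega)
    obtain ⟨g1_1, h13, h14, h15⟩ | ⟨-, h16, h17, h18⟩ | ⟨g1_1, h19, h20, h21⟩ | ⟨-, h22, h23, h24⟩ := C.G 1 1
    · have gm1_1 := (C.G (-1) 1).m2
        (by clear * - h14 d1; omega) (by clear * - h14 b2 f0_1 g0_1 b1 a7; omega) (by clear * - b5 g1_1 f1_1 h14 c1 b2 f0_1 g0_1 b1; omega)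
      clear * - b6 g1_1 gm1_1 b5 f1_1 b3 f0_1 b2 g0_1 a6; omega
    · clear * - h17 b3 f0_1 f1_1 d2 c1 a7 a6; omega
    · obtain ⟨-, h25, h26, h27⟩ | ⟨gm1_1, h28, h29, h30⟩ | ⟨gm1_1, h31, h32, h33⟩ | ⟨-, h34, h35, h36⟩ := C.G (-1) 1
      · clear * - h26 b5 g1_1 f1_1 d1 c1 b2 f0_1 g0_1 a7; omega
      · have q : (y1) * (-x2 - u2) = 0 := by
          have E0 : x1 - y1 + x2 + y2 = 0 := by clear * - b5 g1_1 f1_1 b4 fm1_1 b2 f0_1 g0_1 a5; omega
          have E1 : -x1 + u1 = 0 := by clear * - a7; omega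
          have E2 : -y1 + v1 = 0 := by clear * - b5 g1_1 f1_1 b4 fm1_1 b2 f0_1 g0_1 a5; omega
          have E3 : -x1 + y1 - x2 + v2 = 0 := by clear * - b5 g1_1 f1_1 b4 fm1_1 b2 f0_1 g0_1 a5; omega
          have q : 1 * ((y1) * (-x2 - u2)) = 0 := by
            linear_combination (1) * C.k + (-x1) * E0 + (-v2) * E1 + (u2) * E2 + (-x1) * E3
          linarith only [q]
        obtain h37 | h37 := mul_eq_zero.mp q
        · clear * - h37 b5 g1_1 f1_1 b4 fm1_1 b2 f0_1 g0_1 a6; omega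
        · refine ⟨-1, 0, 0, 1, -1, -1, by norm_num, by norm_num, by norm_num, Or.inl ⟨
            by clear * - h37 b6 g1_1 gm1_1 b5 f1_1 a7; omega,
            by clear * - b5 g1_1 f1_1 b4 fm1_1 b2 f0_1 g0_1 a5; omega,
            by clear * - h37; omega,
            by clear * - b2 f0_1 g0_1; omega⟩⟩
      · clear * - b6 g1_1 gm1_1 a6; omega
      · clear * - h35 h34 b5 g1_1 f1_1 c1 b2 f0_1 g0_1 b1; omega
    · clear * - h22 b3 f0_1 f1_1 d2 c1 a7 a6; omega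
  · clear * - h6 c2 a7 a5 a4; omega
  · clear * - h7 c2 a7 a5 a4; omega
  · obtain ⟨-, h38, h39, h40⟩ | ⟨fm1_1, h41, h42, h43⟩ | ⟨-, h44, h45, h46⟩ | ⟨fm1_1, h47, h48, h49⟩ := C.F (-1) 1
    · clear * - h40 c1 a7 a6 a4 a2; omega
    · obtain ⟨g1_1, h50, h51, h52⟩ | ⟨-, h53, h54, h55⟩ | ⟨g1_1, h56, h57, h58⟩ | ⟨-, h59, h60, h61⟩ := C.G 1 1
      · clear * - b5 g1_1 f1_1 h51 b2 f0_1 g0_1 a6 a2; omega
      · clear * - h54 b4 fm1_1 f1_1 h43 d2 c2 a7 a6; omega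
      · clear * - b5 g1_1 f1_1 b2 f0_1 g0_1 a6 a2; omega
      · clear * - h59 b4 fm1_1 f1_1 h43 d2 c2 a7 a6; omega
    · clear * - h45 c1 a7 a6 a4 a2; omega
    · obtain ⟨g1_1, h62, h63, h64⟩ | ⟨-, h65, h66, h67⟩ | ⟨g1_1, h68, h69, h70⟩ | ⟨-, h71, h72, h73⟩ := C.G 1 1
      · clear * - b5 g1_1 f1_1 h63 b4 fm1_1 b2 f0_1 g0_1 a6; omega
      · clear * - h66 d2 a6 a4; omega
      · clear * - b5 g1_1 f1_1 b4 fm1_1 b2 f0_1 g0_1 a6; omega
      · clear * - h72 h71 d2 d1 a6; omega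

theorem tm33 (C : Ctx (-1) f g x1 y1 x2 y2 u1 v1 u2 v2)
    (c : M3 (f (0, 1)) (0 * x1 + 1 * x2) (0 * y1 + 1 * y2))
    (d : M3 (g (0, 1)) (0 * u1 + 1 * u2) (0 * v1 + 1 * v2)) :
    Same x1 y1 x2 y2 u1 v1 u2 v2 := by
  have H := C.H
  obtain ⟨a1, a2, a3, a4, a5, a6, a7, b1, b2, b3, b4, b5, b6⟩ := C.R
  obtain ⟨f0_1, c1, c2, c3⟩ := c
  obtain ⟨g0_1, d1, d2, d3⟩ := d
  obtain ⟨f1_1, h1, h2, h3⟩ | ⟨-, h4, h5, h6⟩ | ⟨-, h7, h8, h9⟩ | ⟨f1_1, h10, h11, h12⟩ := C.F 1 1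
  · have fm1_1 := (C.F (-1) 1).m3
      (by clear * - h3 c1; omega) (by clear * - h3 b1 f0_1; omega) (by clear * - h3 c1 b1 f0_1; omega)
    obtain ⟨g1_1, h13, h14, h15⟩ | ⟨-, h16, h17, h18⟩ | ⟨-, h19, h20, h21⟩ | ⟨g1_1, h22, h23, h24⟩ := C.G 1 1
    · have gm1_1 := (C.G (-1) 1).m3
        (by clear * - h15 d1; omega) (by clear * - h15 b2 f0_1 g0_1 b1 a7; omega) (by clear * - b5 g1_1 f1_1 h15 c1 b2 f0_1 g0_1 b1; omega)
      have q : (u1 - v1) * (u1 - v1) = 0 := by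
        have E0 : -x1 + u1 = 0 := by clear * - a7; omega
        have E1 : -x2 + u2 = 0 := by clear * - b5 g1_1 f1_1 a7; omega
        have E2 : -y2 + v2 = 0 := by clear * - b2 f0_1 g0_1; omega
        have q : 2 * ((-x1 - y2) * (u1 - v1)) + 3 * ((-x1 - y2) * (-y1 + v1)) + 4 * ((-x1 - y2) * (x1 + x2 + y2)) + 4 * ((-x1 - y2) * (-x1 + y1 - x2 - y2)) + 2 * ((u1 - v1) * (u1 - v1)) + 4 * ((u1 - v1) * (-y1 + v1)) + 4 * ((u1 - v1) * (x1 + x2 + y2)) + 4 * ((u1 - v1) * (-x1 + y1 - x2 - y2)) + 2 * ((-y1 + v1) * (-y1 + v1)) + 5 * ((-y1 + v1) * (x1 + x2 + y2)) + 4 * ((-y1 + v1) * (-x1 + y1 - x2 - y2)) + 4 * ((x1 + x2 + y2) * (x1 + x2 + y2)) + 6 * ((x1 + x2 + y2) * (-x1 + y1 - x2 - y2)) + 2 * ((-x1 + y1 - x2 - y2) * (-x1 + y1 - x2 - y2)) = 0 := by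
          linear_combination (-1) * C.k + (-2 * y2 + 2 * u1 + v2) * E0 + (-v1) * E1 + (x1) * E2
        have p0 : 0 ≤ (-x1 - y2) * (u1 - v1) :=
          mul_nonneg (by clear * - b1 f0_1; omega) (by clear * - a4; omega)
        have p1 : 0 ≤ (-x1 - y2) * (-y1 + v1) :=
          mul_nonneg (by clear * - b1 f0_1; omega) (by clear * - a5; omega)
        have p2 : 0 ≤ (-x1 - y2) * (x1 + x2 + y2) :=
          mul_nonneg (by clear * - b1 f0_1; omega) (by clear * - b3 f0_1 f1_1; omega)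
        have p3 : 0 ≤ (-x1 - y2) * (-x1 + y1 - x2 - y2) :=
          mul_nonneg (by clear * - b1 f0_1; omega) (by clear * - b4 fm1_1 f1_1; omega)
        have p4 := mul_self_nonneg (u1 - v1)
        have p5 : 0 ≤ (u1 - v1) * (-y1 + v1) :=
          mul_nonneg (by clear * - a4; omega) (by clear * - a5; omega)
        have p6 : 0 ≤ (u1 - v1) * (x1 + x2 + y2) :=
          mul_nonneg (by clear * - a4; omega) (by clear * - b3 f0_1 f1_1; omega)
        have p7 : 0 ≤ (u1 - v1) * (-x1 + y1 - x2 - y2) :=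
          mul_nonneg (by clear * - a4; omega) (by clear * - b4 fm1_1 f1_1; omega)
        have p8 := mul_self_nonneg (-y1 + v1)
        have p9 : 0 ≤ (-y1 + v1) * (x1 + x2 + y2) :=
          mul_nonneg (by clear * - a5; omega) (by clear * - b3 f0_1 f1_1; omega)
        have p10 : 0 ≤ (-y1 + v1) * (-x1 + y1 - x2 - y2) :=
          mul_nonneg (by clear * - a5; omega) (by clear * - b4 fm1_1 f1_1; omega)
        have p11 := mul_self_nonneg (x1 + x2 + y2)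
        have p12 : 0 ≤ (x1 + x2 + y2) * (-x1 + y1 - x2 - y2) :=
          mul_nonneg (by clear * - b3 f0_1 f1_1; omega) (by clear * - b4 fm1_1 f1_1; omega)
        have p13 := mul_self_nonneg (-x1 + y1 - x2 - y2)
        linarith only [q, p0, p1, p2, p3, p4, p5, p6, p7, p8, p9, p10, p11, p12, p13]
      have h25 := mul_self_eq_zero.mp q
      have q : (x1 - y1) * (x1 - y1) = 0 := by
        have E0 : -x1 + u1 = 0 := by clear * - a7; omega
        have E1 : -x1 + v1 = 0 := by clear * - h25 a7; omega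
        have E2 : -x2 + u2 = 0 := by clear * - b5 g1_1 f1_1 a7; omega
        have E3 : -y2 + v2 = 0 := by clear * - b2 f0_1 g0_1; omega
        have q : 2 * ((x1 - y1) * (x1 - y1)) + 3 * ((x1 - y1) * (-x1 - y2)) + 5 * ((x1 - y1) * (x1 + x2 + y2)) + 4 * ((x1 - y1) * (-x1 + y1 - x2 - y2)) + 4 * ((-x1 - y2) * (x1 + x2 + y2)) + 4 * ((-x1 - y2) * (-x1 + y1 - x2 - y2)) + 4 * ((x1 + x2 + y2) * (x1 + x2 + y2)) + 6 * ((x1 + x2 + y2) * (-x1 + y1 - x2 - y2)) + 2 * ((-x1 + y1 - x2 - y2) * (-x1 + y1 - x2 - y2)) = 0 := by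
          linear_combination (-1) * C.k + (v2) * E0 + (-u2) * E1 + (-x1) * E2 + (x1) * E3
        have p0 := mul_self_nonneg (x1 - y1)
        have p1 : 0 ≤ (x1 - y1) * (-x1 - y2) :=
          mul_nonneg (by clear * - h25 a7 a5; omega) (by clear * - b1 f0_1; omega)
        have p2 : 0 ≤ (x1 - y1) * (x1 + x2 + y2) :=
          mul_nonneg (by clear * - h25 a7 a5; omega) (by clear * - b3 f0_1 f1_1; omega)
        have p3 : 0 ≤ (x1 - y1) * (-x1 + y1 - x2 - y2) :=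
          mul_nonneg (by clear * - h25 a7 a5; omega) (by clear * - b4 fm1_1 f1_1; omega)
        have p4 : 0 ≤ (-x1 - y2) * (x1 + x2 + y2) :=
          mul_nonneg (by clear * - b1 f0_1; omega) (by clear * - b3 f0_1 f1_1; omega)
        have p5 : 0 ≤ (-x1 - y2) * (-x1 + y1 - x2 - y2) :=
          mul_nonneg (by clear * - b1 f0_1; omega) (by clear * - b4 fm1_1 f1_1; omega)
        have p6 := mul_self_nonneg (x1 + x2 + y2)
        have p7 : 0 ≤ (x1 + x2 + y2) * (-x1 + y1 - x2 - y2) :=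
          mul_nonneg (by clear * - b3 f0_1 f1_1; omega) (by clear * - b4 fm1_1 f1_1; omega)
        have p8 := mul_self_nonneg (-x1 + y1 - x2 - y2)
        linarith only [q, p0, p1, p2, p3, p4, p5, p6, p7, p8]
      have h26 := mul_self_eq_zero.mp q
      refine ⟨-1, 0, 0, -1, -1, -1, by norm_num, by norm_num, by norm_num, Or.inl ⟨
        by clear * - a7; omega,
        by clear * - h26 h25 a7; omega,
        by clear * - b5 g1_1 f1_1 a7; omega,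
        by clear * - b2 f0_1 g0_1; omega⟩⟩
    · clear * - h18 d2 a4; omega
    · clear * - h19 d2 a4; omega
    · clear * - b5 g1_1 f1_1 b3 f0_1 b2 g0_1 a6; omega
  · clear * - h6 c2 a7 a5 a4; omega
  · clear * - h7 c2 a7 a5 a4; omega
  · obtain ⟨-, h27, h28, h29⟩ | ⟨fm1_1, h30, h31, h32⟩ | ⟨-, h33, h34, h35⟩ | ⟨fm1_1, h36, h37, h38⟩ := C.F (-1) 1
    · clear * - h29 c1 a7 a6 a4 a2; omega
    · obtain ⟨g1_1, h39, h40, h41⟩ | ⟨-, h42, h43, h44⟩ | ⟨-, h45, h46, h47⟩ | ⟨g1_1, h48, h49, h50⟩ := C.G 1 1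
      · have gm1_1 := (C.G (-1) 1).m3
          (by clear * - h41 d1; omega) (by clear * - h41 b2 f0_1 g0_1 b1 a7; omega) (by clear * - b5 g1_1 f1_1 h41 b4 fm1_1 c2 b2 f0_1 g0_1 b1; omega)
        have q : (x2 - y2) * (v1) = 0 := by
          have E0 : y1 = 0 := by clear * - b3 f0_1 f1_1 a2; omega
          have E1 : -x1 + u1 = 0 := by clear * - a7; omega
          have E2 : x1 + y2 + u2 = 0 := by clear * - b5 g1_1 f1_1 b3 f0_1 a7 a2; omega
          have E3 : -y2 + v2 = 0 := by clear * - b2 f0_1 g0_1; omega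
          have q : 3 * ((-x1 - y2) * (v1)) + 2 * ((-x1 - y2) * (u1 - v1)) + 2 * ((x2 - y2) * (v1)) + 2 * ((v1) * (u1 - v1)) + 2 * ((v1) * (x1 - y1 - x2 + y2)) + 2 * ((u1 - v1) * (u1 - v1)) = 0 := by
            linear_combination (-1) * C.k + (-x2 - 2 * v1) * E0 + (-2 * y2 + 2 * u1 - 2 * v1 + v2) * E1 + (-v1) * E2 + (x1) * E3
          have p0 : 0 ≤ (-x1 - y2) * (v1) :=
            mul_nonneg (by clear * - b1 f0_1; omega) (by clear * - b6 g1_1 gm1_1 h41; omega)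
          have p1 : 0 ≤ (-x1 - y2) * (u1 - v1) :=
            mul_nonneg (by clear * - b1 f0_1; omega) (by clear * - a4; omega)
          have p2 : 0 ≤ (x2 - y2) * (v1) :=
            mul_nonneg (by clear * - c2; omega) (by clear * - b6 g1_1 gm1_1 h41; omega)
          have p3 : 0 ≤ (v1) * (u1 - v1) :=
            mul_nonneg (by clear * - b6 g1_1 gm1_1 h41; omega) (by clear * - a4; omega)
          have p4 : 0 ≤ (v1) * (x1 - y1 - x2 + y2) :=
            mul_nonneg (by clear * - b6 g1_1 gm1_1 h41; omega) (by clear * - h32; omega)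
          have p5 := mul_self_nonneg (u1 - v1)
          linarith only [q, p0, p1, p2, p3, p4, p5]
        obtain h51 | h51 := mul_eq_zero.mp q
        · clear * - h51 c2; omega
        · clear * - h51 a6; omega
      · clear * - h44 d2 a4; omega
      · clear * - h45 d2 a4; omega
      · clear * - b5 g1_1 f1_1 b3 f0_1 b2 g0_1 a6; omega
    · clear * - h34 c1 a7 a6 a4 a2; omega
    · obtain ⟨g1_1, h52, h53, h54⟩ | ⟨-, h55, h56, h57⟩ | ⟨-, h58, h59, h60⟩ | ⟨g1_1, h61, h62, h63⟩ := C.G 1 1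
      · have gm1_1 := (C.G (-1) 1).m3
          (by clear * - h54 d1; omega) (by clear * - h54 h37 h10 b2 f0_1 g0_1 a7; omega) (by clear * - b5 g1_1 f1_1 h54 b4 fm1_1 d3 b2 f0_1 g0_1; omega)
        have q : (v1) * (v1) = 0 := by
          have E0 : y1 = 0 := by clear * - b4 fm1_1 f1_1 b3 f0_1; omega
          have E1 : -x1 + u1 = 0 := by clear * - a7; omega
          have E2 : x1 + y2 + u2 = 0 := by clear * - b5 g1_1 f1_1 b4 fm1_1 b3 f0_1 a7; omega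
          have E3 : -y2 + v2 = 0 := by clear * - b2 f0_1 g0_1; omega
          have q : 4 * ((v1) * (v1)) + 8 * ((v1) * (u1 - v1)) + 3 * ((v1) * (-x1 - y1 - x2 - y2)) + 3 * ((v1) * (-x1 + y1 + x2 - y2)) + 4 * ((u1 - v1) * (u1 - v1)) + 2 * ((u1 - v1) * (-x1 - y1 - x2 - y2)) + 2 * ((u1 - v1) * (-x1 + y1 + x2 - y2)) = 0 := by
            linear_combination (-2) * C.k + (-2 * x2) * E0 + (-4 * y2 + 4 * u1 + 2 * v2) * E1 + (-2 * v1) * E2 + (2 * x1) * E3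
          have p0 := mul_self_nonneg (v1)
          have p1 : 0 ≤ (v1) * (u1 - v1) :=
            mul_nonneg (by clear * - b6 g1_1 gm1_1 h54; omega) (by clear * - a4; omega)
          have p2 : 0 ≤ (v1) * (-x1 - y1 - x2 - y2) :=
            mul_nonneg (by clear * - b6 g1_1 gm1_1 h54; omega) (by clear * - h10; omega)
          have p3 : 0 ≤ (v1) * (-x1 + y1 + x2 - y2) :=
            mul_nonneg (by clear * - b6 g1_1 gm1_1 h54; omega) (by clear * - h37; omega)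
          have p4 := mul_self_nonneg (u1 - v1)
          have p5 : 0 ≤ (u1 - v1) * (-x1 - y1 - x2 - y2) :=
            mul_nonneg (by clear * - a4; omega) (by clear * - h10; omega)
          have p6 : 0 ≤ (u1 - v1) * (-x1 + y1 + x2 - y2) :=
            mul_nonneg (by clear * - a4; omega) (by clear * - h37; omega)
          linarith only [q, p0, p1, p2, p3, p4, p5, p6]
        have h64 := mul_self_eq_zero.mp q
        clear * - h64 a6; omega
      · clear * - h57 d2 a4; omega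
      · clear * - h58 d2 a4; omega
      · clear * - b5 g1_1 f1_1 b3 f0_1 b2 g0_1 a6; omega

end TreeI

end Pool.Agent.P.MP_e311cd_gt
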