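import Pool.Agent.P.MP_e311cd_gt.I.Tr1
import Pool.Agent.P.MP_e311cd_gt.I.Tr2
import Pool.Agent.P.MP_e311cd_gt.I.Tr3
import Pool.Agent.P.MP_e311cd_gt.I.Tr4

/-! The decision tree for planar lattices with equal sup norm spectra. -/

namespace Pool.Agent.P.MP_e311cd_gt

namespace TreeI

variable {f g : ℤ × ℤ → ℤ} {x1 y1 x2 y2 u1 v1 u2 v2 : ℤ}

theorem tp (C : Ctx (1) f g x1 y1 x2 y2 u1 v1 u2 v2) : Same x1 y1 x2 y2 u1 v1 u2 v2 := by
  obtain c | c | c | c := C.F 0 1 <;> obtain d | d | d | d := C.G 0 1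
  · exact tp00 C c d
  · exact tp01 C c d
  · exact tp02 C c d
  · exact tp03 C c d
  · exact tp10 C c d
  · exact tp11 C c d
  · exact tp12 C c d
  · exact tp13 C c d
  · exact tp20 C c d
  · exact tp21 C c d
  · exact tp22 C c d
  · exact tp23 C c d
  · exact tp30 C c d
  · exact tp31 C c d
  · exact tp32 C c d
  · exact tp33 C c d

theorem tm (C : Ctx (-1) f g x1 y1 x2 y2 u1 v1 u2 v2) : Same x1 y1 x2 y2 u1 v1 u2 v2 := by
  obtain c | c | c | c := C.F 0 1 <;> obtain d | d | d | d := C.G 0 1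
  · exact tm00 C c d
  · exact tm01 C c d
  · exact tm02 C c d
  · exact tm03 C c d
  · exact tm10 C c d
  · exact tm11 C c d
  · exact tm12 C c d
  · exact tm13 C c d
  · exact tm20 C c d
  · exact tm21 C c d
  · exact tm22 C c d
  · exact tm23 C c d
  · exact tm30 C c d
  · exact tm31 C c d
  · exact tm32 C c d
  · exact tm33 C c d

end TreeI

open TreeI in
theorem tree (hS : S_Step) (hR : S_Root) : S_Tree := by
  intro x1 y1 x2 y2 u1 v1 u2 v2 hf hg hp hk a1 a2 a3 a4 a5 a6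
  obtain ⟨e1, e2, e3, H⟩ := hR _ _ hf hg hp
  have r1 := hf.r1
  have r2 := hf.r2
  have r3 := hf.r3
  have r4 := hg.r3
  have f10 : Nv x1 y1 x2 y2 (1, 0) = x1 := by simp only [Nv, abs_eq_max_neg]; omega
  have g10 : Nv u1 v1 u2 v2 (1, 0) = u1 := by simp only [Nv, abs_eq_max_neg]; omega
  have C : ∀ s, x1 * y2 - y1 * x2 = s * (u1 * v2 - v1 * u2) →
      Ctx s (Nv x1 y1 x2 y2) (Nv u1 v1 u2 v2) x1 y1 x2 y2 u1 v1 u2 v2 := fun s hs =>
    ⟨fun L L' => hS _ _ L L' hf hg, fun m n => M.mk _ _, fun m n => M.mk _ _, hs, H,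
      a1, a2, a3, a4, a5, a6, by omega, by omega, e2, r2, r3, e3, r4⟩
  rcases abs_eq_abs.mp hk with hk | hk
  · exact tp (C 1 (by rw [hk, one_mul]))
  · exact tm (C (-1) (by rw [hk, neg_one_mul]))

end Pool.Agent.P.MP_e311cd_gt
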