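import Pool.Agent.P.MP_e311cd_gt.I.Asm
import Pool.Agent.P.MP_e311cd_gt.I.Bas
import Pool.Agent.P.MP_e311cd_gt.I.ClsD
import Pool.Agent.P.MP_e311cd_gt.I.ClsI
import Pool.Agent.P.MP_e311cd_gt.I.ClsO
import Pool.Agent.P.MP_e311cd_gt.I.Comp
import Pool.Agent.P.MP_e311cd_gt.I.Crd
import Pool.Agent.P.MP_e311cd_gt.I.Cyc
import Pool.Agent.P.MP_e311cd_gt.I.DP
import Pool.Agent.P.MP_e311cd_gt.I.DP2
import Pool.Agent.P.MP_e311cd_gt.I.Green
import Pool.Agent.P.MP_e311cd_gt.I.Harm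
import Pool.Agent.P.MP_e311cd_gt.I.Harm1
import Pool.Agent.P.MP_e311cd_gt.I.Inv0
import Pool.Agent.P.MP_e311cd_gt.I.Inv1
import Pool.Agent.P.MP_e311cd_gt.I.IsoK
import Pool.Agent.P.MP_e311cd_gt.I.Lens
import Pool.Agent.P.MP_e311cd_gt.I.Loc
import Pool.Agent.P.MP_e311cd_gt.I.Mon
import Pool.Agent.P.MP_e311cd_gt.I.NF
import Pool.Agent.P.MP_e311cd_gt.I.Onb
import Pool.Agent.P.MP_e311cd_gt.I.Orb
import Pool.Agent.P.MP_e311cd_gt.I.Pi
import Pool.Agent.P.MP_e311cd_gt.I.Pole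
import Pool.Agent.P.MP_e311cd_gt.I.Prim
import Pool.Agent.P.MP_e311cd_gt.I.Psi
import Pool.Agent.P.MP_e311cd_gt.I.Pull
import Pool.Agent.P.MP_e311cd_gt.I.Rho
import Pool.Agent.P.MP_e311cd_gt.I.Step
import Pool.Agent.P.MP_e311cd_gt.I.Trace
import Pool.Agent.P.MP_e311cd_gt.I.Tree
import Pool.Agent.P.MP_e311cd_gt.Final

/-! The three dimensional simple groups cover no isospectral pair. -/

namespace Pool.Agent.P.MP_e311cd_gt

theorem ikeda3 (Γ₁ Γ₂ : Subgroup (U × U)) (f₁ : FreeG Γ₁) (f₂ : FreeG Γ₂)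
    (h : ∀ k, mk Γ₁ k = mk Γ₂ k) : Equi Γ₁ Γ₂ :=
  ikeda (nf (pole orb) clsD (clsT crd q8) (clsO crd q8) (clsI crd q8) (cyc (pole orb)) psi nfD
    (nfT crd) nfR) (dp2 dp) (cmpNA inv0 (inv1 crd)) m2 lens1
    (lens lens1 lens2 (lat bas prim (core0 (tree step root) (zero0 root)))) f₁ f₂ h

theorem not_covers {n : ℕ} {K : Subgroup (Matrix.unitaryGroup (Fin n) ℂ)}
    {k : Submodule ℝ (Mat n)} (h : IsSimpleGroup K k) (hd : Module.finrank ℝ k ≤ 3) :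
    ¬Covers K k :=
  asm3 rho pi3 (isoK loc3 idn) lift3 (desc loc3) (harm harm1 (comp3 green))
    (dim3 (harm harm1 (comp3 green)) (trace3 mon)) pull1 (pull2 (comp3 green) onb) ikeda3 h hd

end Pool.Agent.P.MP_e311cd_gt
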