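import Pool.Agent.P.MP_e311cd_gt.I.St

/-! Spherical harmonics on the unit quaternions and the multiplicity formula. -/

namespace Pool.Agent.P.MP_e311cd_gt

open Set

noncomputable section

namespace HarmI

/-- polynomial functions of degree less than `d` -/
def AA (d : ℕ) : Submodule ℂ (U → ℂ) := ⨆ j : Fin d, PP ^ (j : ℕ)

instance (d : ℕ) : FiniteDimensional ℂ ↥(AA d) := Submodule.finiteDimensional_iSup _

theorem le_AA {j d : ℕ} (h : j < d) : PP ^ j ≤ AA d :=
  le_iSup (fun j : Fin d => PP ^ (j : ℕ)) ⟨j, h⟩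

theorem AA_mono {d d' : ℕ} (h : d ≤ d') : AA d ≤ AA d' :=
  iSup_le fun j => le_AA (j.2.trans_le h)

theorem AA_zero : AA 0 = ⊥ := iSup_of_empty _

theorem AA_succ (d : ℕ) : AA (d + 1) ≤ AA d ⊔ PP ^ d := iSup_le fun j => by
  rcases (Nat.lt_succ_iff.1 j.2).lt_or_eq with h | h
  · exact (le_AA h).trans le_sup_left
  · rw [h]
    exact le_sup_right

theorem QQ_le : ∀ k, QQ k ≤ AA k
  | 0 => bot_le
  | 1 => bot_le
  | _ + 2 => le_AA (by omega)

instance : ∀ k, FiniteDimensional ℂ ↥(QQ k)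
  | 0 => inferInstanceAs (FiniteDimensional ℂ ↥(⊥ : Submodule ℂ (U → ℂ)))
  | 1 => inferInstanceAs (FiniteDimensional ℂ ↥(⊥ : Submodule ℂ (U → ℂ)))
  | k + 2 => inferInstanceAs (FiniteDimensional ℂ ↥(PP ^ k))

variable (h1 : S_Harm1)
include h1

theorem stab_AA (d : ℕ) : Stab eq3 (AA d) := Stab.iSup fun _ => h1.1.pow op_eq3 _

theorem stab_QQ : ∀ k, Stab eq3 (QQ k)
  | 0 => Stab.bot
  | 1 => Stab.bot
  | k + 2 => h1.1.pow op_eq3 k

theorem step (d : ℕ) {f : U → ℂ} (hf : f ∈ AA (d + 1)) :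
    Lap eq3 f - ((d * (d + 2) : ℝ) : ℂ) • f ∈ AA d := by
  obtain ⟨a, ha, p, hp, rfl⟩ := Submodule.mem_sup.1 (AA_succ d hf)
  rw [Lap_add ((stab_AA h1 d).c2 ha) ((h1.1.pow op_eq3 d).c2 hp), smul_add, add_sub_add_comm]
  exact add_mem (sub_mem ((stab_AA h1 d).lap_mem ha) (Submodule.smul_mem _ _ ha))
    (QQ_le d (h1.2.2 d p hp).1)

theorem down {k d : ℕ} (hd : d ≠ k) {f : U → ℂ} (hw : f ∈ WE eq3 (k * (k + 2)))
    (hf : f ∈ AA (d + 1)) : f ∈ AA d := by
  have := step h1 d hf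
  rw [hw.2, ← sub_smul] at this
  refine (Submodule.smul_mem_iff _ ?_).1 this
  rw [sub_ne_zero, Ne, Complex.ofReal_inj]
  intro e
  have e' : k * (k + 2) = d * (d + 2) := by exact_mod_cast e
  rcases hd.lt_or_gt with h | h <;> nlinarith

theorem low {k : ℕ} {f : U → ℂ} (hw : f ∈ WE eq3 (k * (k + 2))) :
    ∀ d ≤ k, f ∈ AA d → f = 0
  | 0, _, hf => by simpa [AA_zero] using hf
  | d + 1, h, hf => low hw d (by omega) (down h1 (by omega) hw hf)

theorem high {k : ℕ} {f : U → ℂ} (hw : f ∈ WE eq3 (k * (k + 2))) :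
    ∀ d, f ∈ AA d → f ∈ AA (k + 1)
  | 0, hf => AA_mono (by omega) hf
  | d + 1, hf => by
    by_cases h : d ≤ k
    · exact AA_mono (by omega) hf
    · exact high hw d (down h1 (by omega) hw hf)

theorem inf_le (k : ℕ) : WE eq3 (k * (k + 2)) ⊓ ⨆ d : ℕ, PP ^ d ≤ AA (k + 1) := by
  rintro f ⟨hw, hf⟩
  have : (⨆ d : ℕ, PP ^ d) ≤ ⨆ d, AA d := iSup_le fun d => (le_AA d.lt_succ_self).trans (le_iSup _ _)
  obtain ⟨d, hd⟩ := (Submodule.mem_iSup_of_directed AA
    (Monotone.directed_le fun _ _ => AA_mono)).1 (this hf)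
  exact high h1 hw d hd

theorem split (k : ℕ) {p : U → ℂ} (hp : p ∈ PP ^ k) :
    ∃ q ∈ QQ k, p - q ∈ WE eq3 (k * (k + 2)) := by
  have inj : Function.Injective
      ((stab_QQ h1 k).lapL - ((k * (k + 2) : ℝ) : ℂ) • LinearMap.id : QQ k →ₗ[ℂ] QQ k) := by
    rw [injective_iff_map_eq_zero]
    intro q hq
    exact Subtype.ext (low h1 ⟨(stab_QQ h1 k).c2 q.2, sub_eq_zero.1 (congrArg Subtype.val hq)⟩ k
      le_rfl (QQ_le k q.2))
  obtain ⟨q, hq⟩ := LinearMap.surjective_of_injective inj ⟨_, (h1.2.2 k p hp).1⟩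
  have e : Lap eq3 q - ((k * (k + 2) : ℝ) : ℂ) • q.1 = Lap eq3 p - ((k * (k + 2) : ℝ) : ℂ) • p :=
    congrArg Subtype.val hq
  have c := (h1.1.pow op_eq3 k).c2 (sub_mem hp (h1.2.1 k q.2))
  refine ⟨q, q.2, c, ?_⟩
  have := Lap_add c ((stab_QQ h1 k).c2 q.2)
  rw [sub_add_cancel] at this
  rw [smul_sub]
  linear_combination -e - this

omit h1 in
theorem trace_split {M : Type} [AddCommGroup M] [Module ℂ M] {W Q V : Submodule ℂ M}
    [FiniteDimensional ℂ V] (hi : W ⊓ Q = ⊥) (hs : W ⊔ Q = V) (f : M →ₗ[ℂ] M)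
    (hW : ∀ x ∈ W, f x ∈ W) (hQ : ∀ x ∈ Q, f x ∈ Q) (hV : ∀ x ∈ V, f x ∈ V) :
    LinearMap.trace ℂ _ (f.restrict hV) =
      LinearMap.trace ℂ _ (f.restrict hW) + LinearMap.trace ℂ _ (f.restrict hQ) := by
  have lW : W ≤ V := hs ▸ le_sup_left
  have lQ : Q ≤ V := hs ▸ le_sup_right
  have := Submodule.finiteDimensional_of_le lW
  have := Submodule.finiteDimensional_of_le lQ
  have bij : Function.Bijective ((Submodule.inclusion lW).coprod (Submodule.inclusion lQ)) := by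
    constructor
    · rw [injective_iff_map_eq_zero]
      rintro ⟨w, q⟩ h
      have e : w.1 + q.1 = 0 := congrArg Subtype.val h
      have h0 : w.1 ∈ W ⊓ Q := ⟨w.2, by rw [eq_neg_of_add_eq_zero_left e]; exact neg_mem q.2⟩
      rw [hi, Submodule.mem_bot] at h0
      rw [h0, zero_add] at e
      exact Prod.ext (Subtype.ext h0) (Subtype.ext e)
    · rintro ⟨v, hv⟩
      obtain ⟨w, hw, q, hq, rfl⟩ := Submodule.mem_sup.1 (hs.ge hv)
      exact ⟨(⟨w, hw⟩, ⟨q, hq⟩), rfl⟩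
  rw [← LinearMap.trace_prodMap', ← LinearMap.trace_conj' _ (LinearEquiv.ofBijective _ bij)]
  congr 1
  refine LinearMap.ext fun v => ?_
  obtain ⟨x, rfl⟩ := (LinearEquiv.ofBijective _ bij).surjective v
  rw [LinearEquiv.conj_apply_apply, LinearEquiv.symm_apply_apply]
  exact Subtype.ext (map_add f x.1.1 x.2.1)

omit h1 in
theorem trace_bot {M : Type} [AddCommGroup M] [Module ℂ M] {Q : Submodule ℂ M} (h : Q = ⊥)
    (f : Q →ₗ[ℂ] Q) : LinearMap.trace ℂ Q f = 0 := by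
  subst h
  rw [Subsingleton.elim f 0, map_zero]

end HarmI

open HarmI

theorem harm (h1 : S_Harm1) (hC : S_Comp) : S_Harm := by
  intro k
  have hc := hC U eq3 op_eq3 PP PP_fg h1.1
    (by
      rintro f ⟨l, hl⟩
      exact ⟨Complex.conjLIE.toLinearEquiv.toLinearMap ∘ₗ l, fun x => by simp [hl]⟩)
    (fun x y h => by
      have a := h _ (zH_mem 0)
      have b := h _ (zH_mem 2)
      exact U.ext (congrArg Complex.re a) (congrArg Complex.im a) (congrArg Complex.re b)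
        (congrArg Complex.im b))
    (k * (k + 2)) (Submodule.finiteDimensional_of_le (inf_le h1 k))
  have le : WE eq3 (k * (k + 2)) ≤ PP ^ k := fun f hf => by
    obtain ⟨a, ha, p, hp, rfl⟩ := Submodule.mem_sup.1 (AA_succ k (inf_le h1 k ⟨hf, hc hf⟩))
    obtain ⟨q, hq, e⟩ := split h1 k hp
    have := low h1 (sub_mem hf e) k le_rfl (by
      rw [show a + p - (p - q) = a + q by ring]
      exact add_mem ha (QQ_le k hq))
    rw [sub_eq_zero.1 this]
    exact sub_mem hp (h1.2.1 k hq)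
  refine ⟨eq_bot_iff.2 fun f hf => low h1 hf.1 k le_rfl (QQ_le k hf.2),
    le_antisymm (sup_le le (h1.2.1 k)) fun p hp => ?_, fun p f hf => ⟨?_, ?_⟩⟩
  · obtain ⟨q, hq, e⟩ := split h1 k hp
    exact Submodule.mem_sup.2 ⟨_, e, q, hq, sub_add_cancel p q⟩
  · exact (h1.1.pow op_eq3 k).c2 (act_pow p k f (le hf))
  · rw [(h1.2.2 k f (le hf)).2 p, hf.2, map_smul]

theorem dim3 (hH : S_Harm) (hT : S_Trace) : S_Dim := by
  intro Γ hΓ k
  obtain ⟨hi, hs, ha⟩ := hH k
  have := Fintype.ofFinite Γ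
  have := Submodule.finiteDimensional_of_le (hs ▸ le_sup_left : WE eq3 (k * (k + 2)) ≤ PP ^ k)
  have tr : ∀ p : U × U, LinearMap.trace ℂ _ ((act p).toLinearMap.restrict (ha p)) =
      (chi (c0 p.1) k * chi (c0 p.2) k : ℝ) := fun p => by
    obtain ⟨t0, t1, t2⟩ := hT p
    rcases k with _ | _ | k
    · have := trace_split hi hs (act p).toLinearMap (ha p)
        (fun x hx => by rw [(Submodule.mem_bot ℂ).1 hx]; exact zero_mem _) (act_pow p _)
      rw [trace_bot (Q := QQ _) rfl, add_zero] at this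
      exact (this.symm.trans t0).trans (by simp [chi])
    · have := trace_split hi hs (act p).toLinearMap (ha p)
        (fun x hx => by rw [(Submodule.mem_bot ℂ).1 hx]; exact zero_mem _) (act_pow p _)
      rw [trace_bot (Q := QQ _) rfl, add_zero] at this
      exact this.symm.trans t1
    · have := trace_split hi hs (act p).toLinearMap (ha p) (act_pow p k) (act_pow p _)
      have e := t2 k
      unfold tP at e
      exact add_right_cancel ((this.symm.trans e).trans (add_comm _ _))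
  let ρ : Representation ℂ Γ (WE eq3 (k * (k + 2))) :=
    { toFun := fun p => (act p.1).toLinearMap.restrict (ha p.1)
      map_one' := LinearMap.ext fun f => Subtype.ext (act_one f.1)
      map_mul' := fun p q => LinearMap.ext fun f => Subtype.ext (act_mul p.1 q.1 f.1) }
  have : Invertible (Nat.card Γ : ℂ) := invertibleOfNonzero (by exact_mod_cast Nat.card_pos.ne')
  have av := ρ.card_inv_mul_sum_char_eq_finrank
  have em : ρ.invariants.map (WE eq3 (k * (k + 2))).subtype = WE eq3 (k * (k + 2)) ⊓ InvU Γ := by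
    ext f
    constructor
    · rintro ⟨g, hg, rfl⟩
      exact ⟨g.2, fun p hp => congrArg Subtype.val (hg ⟨p, hp⟩)⟩
    · rintro ⟨h1, h2⟩
      exact ⟨⟨f, h1⟩, fun p => Subtype.ext (h2 p.1 p.2), rfl⟩
  rw [← em, Submodule.finrank_map_subtype_eq, mk, finsum_eq_sum_of_fintype]
  have e : ∑ p : Γ, ρ.character p = ∑ p : Γ, ((chi (c0 p.1.1) k * chi (c0 p.1.2) k : ℝ) : ℂ) :=
    Finset.sum_congr rfl fun p _ => tr p.1
  rw [e] at av
  rw [← Complex.ofReal_inj]
  push_cast at av ⊢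
  rw [← av, div_eq_inv_mul]

end

end Pool.Agent.P.MP_e311cd_gt
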