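import Pool.Agent.P.MP_e311cd_gt.I.St

/-! From the class equation to the five types of finite subgroups. -/

namespace Pool.Agent.P.MP_e311cd_gt

open Set

noncomputable section

namespace PoleI

/-- the stabiliser of a pole -/
def Sb (A : Subgroup U) (u : U) : Subgroup U where
  carrier := {a | a ∈ A ∧ a * u = u * a}
  mul_mem' := fun {a b} ha hb => ⟨A.mul_mem ha.1 hb.1, by
    rw [mul_assoc, hb.2, ← mul_assoc, ha.2, mul_assoc]⟩
  one_mem' := ⟨A.one_mem, by simp⟩
  inv_mem' := fun {a} ha => ⟨A.inv_mem ha.1, (Commute.inv_left ha.2).eq⟩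

theorem card_Sb (A : Subgroup U) (u : U) : Nat.card (Sb A u) = stb A u :=
  Nat.card_coe_set_eq _

theorem pow_stb {A : Subgroup U} {u a : U} (ha : a ∈ A) (h : a * u = u * a) :
    a ^ stb A u = 1 := by
  rw [← card_Sb]
  exact congrArg Subtype.val (pow_card_eq_one' (x := (⟨a, ha, h⟩ : Sb A u)))

theorem stb_conj {A : Subgroup U} {c : U} (hc : c ∈ A) (u : U) :
    stb A (c * u * c⁻¹) = stb A u := by
  unfold stb
  rw [← ncard_image_of_injective {a | a ∈ A ∧ a * u = u * a} (MulAut.conj c).injective]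
  congr 1
  ext a
  constructor
  · rintro ⟨ha, h⟩
    refine ⟨c⁻¹ * a * c, ⟨A.mul_mem (A.mul_mem (A.inv_mem hc) ha) hc, ?_⟩, by
      simp [mul_assoc]⟩
    calc c⁻¹ * a * c * u = c⁻¹ * (a * (c * u * c⁻¹)) * c := by group
      _ = u * (c⁻¹ * a * c) := by rw [h]; group
  · rintro ⟨b, ⟨hb, h⟩, rfl⟩
    refine ⟨A.mul_mem (A.mul_mem hc hb) (A.inv_mem hc), ?_⟩
    rw [MulAut.conj_apply]
    calc c * b * c⁻¹ * (c * u * c⁻¹) = c * (b * u) * c⁻¹ := by group
      _ = c * u * c⁻¹ * (c * b * c⁻¹) := by rw [h]; group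

theorem stb_neg (A : Subgroup U) (u : U) : stb A (-u) = stb A u := by
  unfold stb
  congr 1
  ext a
  simp only [mem_ofPred_eq, mul_neg, neg_mul, neg_inj]

/-- the axis of a non-central element -/
theorem axis {a : U} (ha : c0 a ^ 2 ≠ 1) : ∃ v : U, ∃ t : ℝ, c0 v = 0 ∧ a * v = v * a ∧
    a.1 = c0 a • (1 : H) + t • v.1 := by
  have h1 : imL a.1 ≠ 0 := fun e => by
    obtain ⟨-, e1, e2, e3⟩ := H.eq_iff.mp e
    simp only [imL_apply, c1_mk, c2_mk, c3_mk, c1_zero, c2_zero, c3_zero] at e1 e2 e3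
    have := a.sq
    rw [e1, e2, e3] at this
    exact ha (by linarith)
  obtain ⟨v, r, hr, hv⟩ := exists_unit h1
  refine ⟨v, r⁻¹, by simp [hv], ?_, ?_⟩
  · apply U.ext <;>
      simp only [U.coe_mul, hv, imL_apply, c0_mul, c1_mul, c2_mul, c3_mul, c0_smul, c1_smul,
        c2_smul, c3_smul, c0_mk, c1_mk, c2_mk, c3_mk] <;> ring
  · apply H.ext <;> simp [hv, hr.ne']

/-- two pure elements that commute with a non-central element agree up to sign -/
theorem pm {s u w : U} (hs : c0 s ^ 2 ≠ 1) (hu : c0 u = 0) (hw : c0 w = 0)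
    (h1 : s * u = u * s) (h2 : s * w = w * s) : w = u ∨ w = -u := by
  obtain ⟨c, hc⟩ := conj_of_re (a := u) (b := qi) hu
  set s' := c * s * c⁻¹ with hs'
  set w' := c * w * c⁻¹ with hw'
  have e1 : Circ s' := circ_iff.mpr (by
    rw [← hc, hs']
    calc c * s * c⁻¹ * (c * u * c⁻¹) = c * (s * u) * c⁻¹ := by group
      _ = c * u * c⁻¹ * (c * s * c⁻¹) := by rw [h1]; group)
  have e2 : s' * w' = w' * s' := by
    rw [hs', hw']
    calc c * s * c⁻¹ * (c * w * c⁻¹) = c * (s * w) * c⁻¹ := by group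
      _ = c * w * c⁻¹ * (c * s * c⁻¹) := by rw [h2]; group
  have e3 : c1 s' ≠ 0 := fun e => by
    have := s'.sq
    rw [e, e1.1, e1.2, U.c0_conj] at this
    exact hs (by linarith)
  have e4 : c0 w' = 0 := (U.c0_conj c w).trans hw
  obtain ⟨-, -, f2, f3⟩ := U.eq_iff.mp e2
  simp only [U.coe_mul, c2_mul, c3_mul, e1.1, e1.2, e4] at f2 f3
  have g2 : c2 w' = 0 := by
    have : c1 s' * c2 w' = 0 := by linarith
    exact (mul_eq_zero.mp this).resolve_left e3
  have g3 : c3 w' = 0 := by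
    have : c1 s' * c3 w' = 0 := by linarith
    exact (mul_eq_zero.mp this).resolve_left e3
  have g1 : c1 w' ^ 2 = 1 := by
    have := w'.sq
    rw [e4, g2, g3] at this
    linarith
  have back : ∀ x y : U, c * x * c⁻¹ = c * y * c⁻¹ → x = y := fun x y e =>
    mul_left_cancel (mul_right_cancel e)
  rcases sq_eq_one_iff.mp g1 with g | g
  · left
    refine back _ _ ?_
    rw [hc, ← hw']
    exact U.ext e4 g g2 g3
  · right
    refine back _ _ ?_
    rw [mul_neg, neg_mul, hc, ← hw']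
    exact U.ext (by rw [e4]; simp) (by rw [g]; simp) (by rw [g2]; simp) (by rw [g3]; simp)

/-- the solutions of the class equation -/
theorem arith {a b c N : ℕ} (h0 : 2 ≤ a) (h1 : a ≤ b) (h2 : b ≤ c) (hN : 0 < N)
    (h : (1 / a + 1 / b + 1 / c : ℚ) = 1 + 2 / N) :
    (a = 2 ∧ b = 2 ∧ N = 2 * c) ∨ (a = 2 ∧ b = 3 ∧ c = 3 ∧ N = 12) ∨
      (a = 2 ∧ b = 3 ∧ c = 4 ∧ N = 24) ∨ (a = 2 ∧ b = 3 ∧ c = 5 ∧ N = 60) := by
  have hN' : (0 : ℚ) < N := by exact_mod_cast hN
  have hp : (0 : ℚ) < 2 / N := by positivity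
  have mono : ∀ x y : ℕ, 0 < x → x ≤ y → (1 / y : ℚ) ≤ 1 / x := fun x y hx hxy =>
    one_div_le_one_div_of_le (by exact_mod_cast hx) (by exact_mod_cast hxy)
  have ha : a = 2 := by
    by_contra hne
    have e1 := mono 3 a (by norm_num) (by omega)
    have e2 := mono 3 b (by norm_num) (by omega)
    have e3 := mono 3 c (by norm_num) (by omega)
    push_cast at e1 e2 e3
    linarith
  subst ha
  have hb : b = 2 ∨ b = 3 := by
    by_contra hne
    have e2 := mono 4 b (by norm_num) (by omega)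
    have e3 := mono 4 c (by norm_num) (by omega)
    push_cast at e2 e3 h
    linarith
  have fin : ∀ x : ℕ, (2 / N : ℚ) = 2 / x → 0 < x → N = x := fun x e hx => by
    have hx' : (0 : ℚ) < x := by exact_mod_cast hx
    rw [div_eq_div_iff hN'.ne' hx'.ne'] at e
    have : (N : ℚ) = x := by linarith
    exact_mod_cast this
  rcases hb with rfl | rfl
  · left
    refine ⟨rfl, rfl, fin _ ?_ (by omega)⟩
    have hc : (0 : ℚ) < c := by exact_mod_cast (show 0 < c by omega)
    push_cast at h ⊢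
    have : (2 : ℚ) / (2 * c) = 1 / c := by field_simp
    linarith
  · right
    have hc : c = 3 ∨ c = 4 ∨ c = 5 := by
      by_contra hne
      have e3 := mono 6 c (by norm_num) (by omega)
      push_cast at e3 h
      linarith
    rcases hc with rfl | rfl | rfl
    · exact Or.inl ⟨rfl, rfl, rfl, fin _ (by push_cast at h ⊢; linarith) (by norm_num)⟩
    · exact Or.inr (Or.inl ⟨rfl, rfl, rfl, fin _ (by push_cast at h ⊢; linarith) (by norm_num)⟩)
    · exact Or.inr (Or.inr ⟨rfl, rfl, rfl, fin _ (by push_cast at h ⊢; linarith) (by norm_num)⟩)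

section main

variable {A : Subgroup U} {u : Fin 3 → U} {m : Fin 3 → ℕ}

/-- every non-central element has an order that divides one of the three numbers -/
theorem ord (hs : ∀ i, stb A (u i) = 2 * m i)
    (ho : ∀ v ∈ Pole A, ∃ i, ∃ a ∈ A, v = a * u i * a⁻¹) {a : U} (ha : a ∈ A) :
    c0 a ^ 2 = 1 ∨ ∃ i, a ^ (2 * m i) = 1 := by
  by_cases h : c0 a ^ 2 = 1
  · exact Or.inl h
  obtain ⟨v, -, h0, h1, -⟩ := axis h
  obtain ⟨i, c, hc, e⟩ := ho v ⟨h0, a, ha, h, h1⟩
  refine Or.inr ⟨i, ?_⟩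
  rw [← hs, ← stb_conj hc, ← e]
  exact pow_stb ha h1

/-- reversibility when the three numbers are distinct -/
theorem rev (hp : ∀ i, u i ∈ Pole A) (hs : ∀ i, stb A (u i) = 2 * m i)
    (ho : ∀ v ∈ Pole A, ∃ i, ∃ a ∈ A, v = a * u i * a⁻¹) (hm : Function.Injective m) :
    Rev A := by
  have key : ∀ a ∈ A, c0 a ^ 2 ≠ 1 → ∃ c ∈ A, c0 c = 0 ∧ c0 (a * c).1 = 0 := by
    intro a ha h
    obtain ⟨v, t, h0, h1, h2⟩ := axis h
    obtain ⟨i, c, hc, e⟩ := ho v ⟨h0, a, ha, h, h1⟩
    obtain ⟨j, d, hd, e'⟩ := ho (-v) ⟨by simp [h0], a, ha, h, by rw [mul_neg, neg_mul, h1]⟩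
    have hij : i = j := by
      apply hm
      have e1 : stb A v = 2 * m i := by rw [e, stb_conj hc, hs]
      have e2 : stb A (-v) = 2 * m j := by rw [e', stb_conj hd, hs]
      rw [stb_neg] at e2
      omega
    subst hij
    set g := d * c⁻¹ with hg
    have e3 : g * v = -(v * g) := by
      rw [← neg_mul, e', e, hg]
      group
    have e4 : c0 (v * g).1 = 0 := by
      have := U.c0_comm g v
      rw [e3, U.coe_neg, c0_neg] at this
      linarith
    have e5 : c0 g = 0 := by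
      have e6 : v * g * v⁻¹ = -g := by
        rw [mul_inv_eq_iff_eq_mul, neg_mul, e3, neg_neg]
      have := U.c0_conj v g
      rw [e6, U.coe_neg, c0_neg] at this
      linarith
    refine ⟨g, A.mul_mem hd (A.inv_mem hc), e5, ?_⟩
    rw [U.coe_mul, h2, add_mul, smul_mul_assoc, smul_mul_assoc, one_mul, c0_add, c0_smul, c0_smul,
      e5, ← U.coe_mul, e4]
    ring
  intro a ha
  by_cases h : c0 a ^ 2 = 1
  · obtain ⟨-, b, hb, h1, -⟩ := hp 0
    obtain ⟨c, hc, h2, -⟩ := key b hb h1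
    refine ⟨c, hc, h2, ?_⟩
    rcases U.re_sq_eq_one.mp h with rfl | rfl
    · rw [one_mul, h2]
    · rw [neg_one_mul, U.coe_neg, c0_neg, h2, neg_zero]
  · exact key a ha h

/-- a stabiliser of index two -/
theorem dih [Finite A] {w : U} (hw : w ∈ Pole A) (h : Nat.card A = stb A w * 2) {a : U}
    (ha : a ∈ A) : a * w = w * a ∨ a * w = -(w * a) := by
  obtain ⟨h0, s, hs, h1, h2⟩ := hw
  have hle : Sb A w ≤ A := fun x hx => hx.1
  have e1 : Nat.card ((Sb A w).subgroupOf A) = stb A w := by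
    rw [← card_Sb]
    exact Nat.card_congr (Subgroup.subgroupOfEquivOfLe hle).toEquiv
  have e2 := ((Sb A w).subgroupOf A).card_mul_index
  have e3 : 0 < stb A w := by rw [← e1]; exact Nat.card_pos
  rw [e1, h] at e2
  have e4 : ((Sb A w).subgroupOf A).index = 2 := Nat.eq_of_mul_eq_mul_left e3 e2
  have e5 := Subgroup.normal_of_index_eq_two e4
  have e6 := e5.conj_mem (⟨s, hs⟩ : A) (show s ∈ Sb A w from ⟨hs, h2⟩) (⟨a, ha⟩ : A)⁻¹
  have e7 : a⁻¹ * s * a⁻¹⁻¹ * w = w * (a⁻¹ * s * a⁻¹⁻¹) := e6.2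
  have e8 : s * (a * w * a⁻¹) = a * w * a⁻¹ * s := by
    calc s * (a * w * a⁻¹) = a * (a⁻¹ * s * a⁻¹⁻¹ * w) * a⁻¹ := by group
      _ = a * w * a⁻¹ * s := by rw [e7]; group
  rcases pm h1 h0 ((U.c0_conj a w).trans h0) h2 e8 with e | e
  · left; rw [mul_inv_eq_iff_eq_mul] at e; exact e
  · right; rw [mul_inv_eq_iff_eq_mul, neg_mul] at e; exact e

end main

theorem val2 {a : U} (h : a ^ (2 * 2) = 1) : c0 a ^ 2 = 1 ∨ c0 a = 0 :=
  (U.chi_eq_zero (k := 0) h).imp id fun e => by simp only [chi] at e; linarith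

theorem val3 {a : U} (h : a ^ (2 * 3) = 1) : c0 a ^ 2 = 1 ∨ c0 a ^ 2 = 1 / 4 :=
  (U.chi_eq_zero (k := 1) h).imp id fun e => by simp only [chi] at e; linarith

theorem val4 {a : U} (h : a ^ (2 * 4) = 1) : c0 a ^ 2 = 1 ∨ c0 a = 0 ∨ c0 a ^ 2 = 1 / 2 :=
  (U.chi_eq_zero (k := 2) h).imp id fun e => by
    simp only [chi] at e
    have : c0 a * (c0 a ^ 2 - 1 / 2) = 0 := by linear_combination e / 8
    exact (mul_eq_zero.mp this).imp id fun e' => by linarith

theorem val5 {a : U} (h : a ^ (2 * 5) = 1) :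
    c0 a ^ 2 = 1 ∨ 16 * c0 a ^ 4 - 12 * c0 a ^ 2 + 1 = 0 :=
  (U.chi_eq_zero (k := 3) h).imp id fun e => by
    simp only [chi] at e
    linear_combination e

theorem inj3 {m : Fin 3 → ℕ} (h0 : m 0 < m 1) (h1 : m 1 < m 2) : Function.Injective m := by
  intro i j e
  fin_cases i <;> fin_cases j <;> simp at e ⊢ <;> omega

end PoleI

open PoleI in
theorem pole (h : S_Orb) : S_Pole := by
  intro A hA hn
  rcases h A hA hn with hC | ⟨u, m, N, hp, hs, h0, h1, h2, hc, he, ho⟩
  · exact Or.inl hC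
  have hN : 0 < N := by
    have : 0 < Nat.card A := Nat.card_pos
    omega
  have cases3 : ∀ a ∈ A, c0 a ^ 2 = 1 ∨ a ^ (2 * m 0) = 1 ∨ a ^ (2 * m 1) = 1 ∨
      a ^ (2 * m 2) = 1 := fun a ha => by
    rcases ord hs ho ha with e | ⟨i, e⟩
    · exact Or.inl e
    · fin_cases i
      · exact Or.inr (Or.inl e)
      · exact Or.inr (Or.inr (Or.inl e))
      · exact Or.inr (Or.inr (Or.inr e))
  right
  rcases arith h0 h1 h2 hN he with ⟨e0, e1, e2⟩ | ⟨e0, e1, e2, e3⟩ | ⟨e0, e1, e2, e3⟩ |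
    ⟨e0, e1, e2, e3⟩
  · left
    exact ⟨m 2, by omega, by omega, u 2, (hp 2).1, hs 2, fun a ha =>
      dih (hp 2) (by rw [hs]; omega) ha⟩
  · right; left
    refine ⟨by omega, fun a ha => ?_⟩
    have := cases3 a ha
    rw [e0, e1, e2] at this
    rcases this with e | e | e | e
    · tauto
    · have := val2 e; tauto
    · have := val3 e; tauto
    · have := val3 e; tauto
  · right; right; left
    refine ⟨by omega, rev hp hs ho (inj3 (by omega) (by omega)), fun a ha => ?_⟩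
    have := cases3 a ha
    rw [e0, e1, e2] at this
    rcases this with e | e | e | e
    · tauto
    · have := val2 e; tauto
    · have := val3 e; tauto
    · have := val4 e; tauto
  · right; right; right
    refine ⟨by omega, rev hp hs ho (inj3 (by omega) (by omega)), fun a ha => ?_⟩
    have := cases3 a ha
    rw [e0, e1, e2] at this
    rcases this with e | e | e | e
    · tauto
    · have := val2 e; tauto
    · have := val3 e; tauto
    · have := val5 e; tauto

end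

end Pool.Agent.P.MP_e311cd_gt
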