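import Mathlib

/-! Unit quaternions: toolbox. -/

namespace Pool.Agent.P.MP_e311cd_gt

open Set NormedSpace

noncomputable section

/-- quaternions -/
abbrev H : Type := Quaternion ℝ

/-- unit quaternions -/
abbrev U : Type := unitary H

/-! ### coordinates -/

def c0 (q : H) : ℝ := q.re
def c1 (q : H) : ℝ := q.imI
def c2 (q : H) : ℝ := q.imJ
def c3 (q : H) : ℝ := q.imK
def mkH (x y z w : ℝ) : H := ⟨x, y, z, w⟩

section Coord

variable (a b : H) (r x y z w : ℝ)

@[simp] theorem c0_mk : c0 (mkH x y z w) = x := rfl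
@[simp] theorem c1_mk : c1 (mkH x y z w) = y := rfl
@[simp] theorem c2_mk : c2 (mkH x y z w) = z := rfl
@[simp] theorem c3_mk : c3 (mkH x y z w) = w := rfl
@[simp] theorem c0_zero : c0 0 = 0 := rfl
@[simp] theorem c1_zero : c1 0 = 0 := rfl
@[simp] theorem c2_zero : c2 0 = 0 := rfl
@[simp] theorem c3_zero : c3 0 = 0 := rfl
@[simp] theorem c0_one : c0 1 = 1 := rfl
@[simp] theorem c1_one : c1 1 = 0 := rfl
@[simp] theorem c2_one : c2 1 = 0 := rfl
@[simp] theorem c3_one : c3 1 = 0 := rfl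
@[simp] theorem c0_add : c0 (a + b) = c0 a + c0 b := rfl
@[simp] theorem c1_add : c1 (a + b) = c1 a + c1 b := rfl
@[simp] theorem c2_add : c2 (a + b) = c2 a + c2 b := rfl
@[simp] theorem c3_add : c3 (a + b) = c3 a + c3 b := rfl
@[simp] theorem c0_sub : c0 (a - b) = c0 a - c0 b := Quaternion.re_sub a b
@[simp] theorem c1_sub : c1 (a - b) = c1 a - c1 b := Quaternion.imI_sub a b
@[simp] theorem c2_sub : c2 (a - b) = c2 a - c2 b := Quaternion.imJ_sub a b
@[simp] theorem c3_sub : c3 (a - b) = c3 a - c3 b := Quaternion.imK_sub a b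
@[simp] theorem c0_neg : c0 (-a) = -c0 a := rfl
@[simp] theorem c1_neg : c1 (-a) = -c1 a := rfl
@[simp] theorem c2_neg : c2 (-a) = -c2 a := rfl
@[simp] theorem c3_neg : c3 (-a) = -c3 a := rfl
@[simp] theorem c0_smul : c0 (r • a) = r * c0 a := rfl
@[simp] theorem c1_smul : c1 (r • a) = r * c1 a := rfl
@[simp] theorem c2_smul : c2 (r • a) = r * c2 a := rfl
@[simp] theorem c3_smul : c3 (r • a) = r * c3 a := rfl
@[simp] theorem c0_star : c0 (star a) = c0 a := Quaternion.re_star a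
@[simp] theorem c1_star : c1 (star a) = -c1 a := Quaternion.imI_star a
@[simp] theorem c2_star : c2 (star a) = -c2 a := Quaternion.imJ_star a
@[simp] theorem c3_star : c3 (star a) = -c3 a := Quaternion.imK_star a
@[simp] theorem c0_mul : c0 (a * b) = c0 a * c0 b - c1 a * c1 b - c2 a * c2 b - c3 a * c3 b :=
  Quaternion.re_mul a b
@[simp] theorem c1_mul : c1 (a * b) = c0 a * c1 b + c1 a * c0 b + c2 a * c3 b - c3 a * c2 b :=
  Quaternion.imI_mul a b
@[simp] theorem c2_mul : c2 (a * b) = c0 a * c2 b - c1 a * c3 b + c2 a * c0 b + c3 a * c1 b :=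
  Quaternion.imJ_mul a b
@[simp] theorem c3_mul : c3 (a * b) = c0 a * c3 b + c1 a * c2 b - c2 a * c1 b + c3 a * c0 b :=
  Quaternion.imK_mul a b

variable {a b}

theorem H.ext (h0 : c0 a = c0 b) (h1 : c1 a = c1 b) (h2 : c2 a = c2 b) (h3 : c3 a = c3 b) :
    a = b := Quaternion.ext _ _ h0 h1 h2 h3

theorem H.eq_iff : a = b ↔ c0 a = c0 b ∧ c1 a = c1 b ∧ c2 a = c2 b ∧ c3 a = c3 b :=
  ⟨fun h => by simp [h], fun h => H.ext h.1 h.2.1 h.2.2.1 h.2.2.2⟩

theorem H.norm_sq (a : H) : ‖a‖ ^ 2 = c0 a ^ 2 + c1 a ^ 2 + c2 a ^ 2 + c3 a ^ 2 := by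
  rw [sq, ← Quaternion.normSq_eq_norm_mul_self, Quaternion.normSq_def']
  rfl

theorem continuous_c0 : Continuous c0 := Quaternion.continuous_re
theorem continuous_c1 : Continuous c1 := Quaternion.continuous_imI
theorem continuous_c2 : Continuous c2 := Quaternion.continuous_imJ
theorem continuous_c3 : Continuous c3 := Quaternion.continuous_imK

end Coord

@[simp] theorem U.coe_mul (a b : U) : (a * b).1 = a.1 * b.1 := rfl
@[simp] theorem U.coe_inv (a : U) : (a⁻¹).1 = star a.1 := rfl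
@[simp] theorem U.coe_one : (1 : U).1 = 1 := rfl
@[simp] theorem U.coe_neg (a : U) : (-a).1 = -a.1 := rfl
@[simp] theorem U.coe_pow (a : U) (n : ℕ) : (a ^ n).1 = a.1 ^ n := rfl

theorem U.sq (a : U) : c0 a ^ 2 + c1 a ^ 2 + c2 a ^ 2 + c3 a ^ 2 = 1 := by
  have := congrArg c0 a.2.1
  simp only [c0_mul, c0_star, c1_star, c2_star, c3_star, c0_one] at this
  linarith

theorem U.mem {q : H} (h : c0 q ^ 2 + c1 q ^ 2 + c2 q ^ 2 + c3 q ^ 2 = 1) : q ∈ unitary H := by
  constructor <;> apply H.ext <;> simp <;> linarith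

theorem U.norm (a : U) : ‖a.1‖ = 1 := by
  have h := H.norm_sq a
  rw [a.sq] at h
  nlinarith [norm_nonneg a.1]

theorem U.mem_of_norm {q : H} (h : ‖q‖ = 1) : q ∈ unitary H :=
  U.mem (by rw [← H.norm_sq, h, one_pow])

/-- a unit quaternion from its coordinates -/
def mkU (x y z w : ℝ) (h : x ^ 2 + y ^ 2 + z ^ 2 + w ^ 2 = 1) : U := ⟨mkH x y z w, U.mem h⟩

@[simp] theorem coe_mkU (x y z w : ℝ) (h) : (mkU x y z w h).1 = mkH x y z w := rfl

theorem U.ext {a b : U} (h0 : c0 a = c0 b) (h1 : c1 a = c1 b) (h2 : c2 a = c2 b)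
    (h3 : c3 a = c3 b) : a = b := Subtype.ext (H.ext h0 h1 h2 h3)

theorem U.eq_iff {a b : U} : a = b ↔ c0 a = c0 b ∧ c1 a = c1 b ∧ c2 a = c2 b ∧ c3 a = c3 b :=
  ⟨fun h => by simp [h], fun h => U.ext h.1 h.2.1 h.2.2.1 h.2.2.2⟩

def qi : U := mkU 0 1 0 0 (by norm_num)
def qj : U := mkU 0 0 1 0 (by norm_num)
def qk : U := mkU 0 0 0 1 (by norm_num)
/-- `(1 + i + j + k) / 2` -/
def qw : U := mkU (1 / 2) (1 / 2) (1 / 2) (1 / 2) (by norm_num)
/-- a cube root of unity -/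
def qz : U := mkU (-1 / 2) (√3 / 2) 0 0 (by
  have := Real.sq_sqrt (show (0 : ℝ) ≤ 3 by norm_num)
  nlinarith)

@[simp] theorem coe_qi : qi.1 = mkH 0 1 0 0 := rfl
@[simp] theorem coe_qj : qj.1 = mkH 0 0 1 0 := rfl
@[simp] theorem coe_qk : qk.1 = mkH 0 0 0 1 := rfl
@[simp] theorem coe_qw : qw.1 = mkH (1 / 2) (1 / 2) (1 / 2) (1 / 2) := rfl
@[simp] theorem coe_qz : qz.1 = mkH (-1 / 2) (√3 / 2) 0 0 := rfl

theorem U.neg_ne (a : U) : -a ≠ a := fun h => by
  have := a.sq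
  obtain ⟨h0, h1, h2, h3⟩ := U.eq_iff.mp h
  simp only [U.coe_neg, c0_neg, c1_neg, c2_neg, c3_neg] at h0 h1 h2 h3
  nlinarith

theorem U.re_sq_le (a : U) : c0 a ^ 2 ≤ 1 := by
  nlinarith [a.sq, sq_nonneg (c1 a), sq_nonneg (c2 a), sq_nonneg (c3 a)]

theorem U.im_eq_zero {a : U} (h : c0 a ^ 2 = 1) : c1 a = 0 ∧ c2 a = 0 ∧ c3 a = 0 := by
  have := a.sq
  refine ⟨?_, ?_, ?_⟩ <;> nlinarith [sq_nonneg (c1 a), sq_nonneg (c2 a), sq_nonneg (c3 a)]

theorem U.re_eq_one {a : U} : c0 a = 1 ↔ a = 1 :=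
  ⟨fun h => by
    obtain ⟨h1, h2, h3⟩ := U.im_eq_zero (a := a) (by rw [h, one_pow])
    exact U.ext h h1 h2 h3, fun h => by simp [h]⟩

theorem U.re_eq_neg_one {a : U} : c0 a = -1 ↔ a = -1 :=
  ⟨fun h => by
    obtain ⟨h1, h2, h3⟩ := U.im_eq_zero (a := a) (by rw [h, neg_one_sq])
    apply U.ext <;> simp [*], fun h => by simp [h]⟩

theorem U.re_sq_eq_one {a : U} : c0 a ^ 2 = 1 ↔ a = 1 ∨ a = -1 := by
  rw [sq_eq_one_iff, U.re_eq_one, U.re_eq_neg_one]

/-- Cayley-Hamilton -/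
theorem U.mul_self (a : U) : a.1 * a.1 = (2 * c0 a) • a.1 - 1 := by
  have := a.sq
  apply H.ext <;> simp <;> linarith

theorem U.c0_mul_self (a : U) : c0 (a * a).1 = 2 * c0 a ^ 2 - 1 := by
  rw [U.coe_mul, U.mul_self]
  simp
  ring

theorem U.mul_self_eq_one {a : U} : a * a = 1 ↔ a = 1 ∨ a = -1 := by
  rw [← U.re_eq_one, U.c0_mul_self, ← U.re_sq_eq_one]
  constructor <;> intro h <;> linarith

theorem U.mul_self_eq_neg_one {a : U} : a * a = -1 ↔ c0 a = 0 := by
  rw [← U.re_eq_neg_one, U.c0_mul_self]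
  constructor <;> intro h
  · exact pow_eq_zero_iff two_ne_zero |>.mp (by linarith)
  · rw [h]; norm_num

theorem U.c0_conj (c a : U) : c0 (c * a * c⁻¹).1 = c0 a := by
  have := c.sq
  simp only [U.coe_mul, U.coe_inv, c0_mul, c1_mul, c2_mul, c3_mul, c0_star, c1_star, c2_star,
    c3_star]
  linear_combination (c0 a) * this

theorem U.c0_comm (a b : U) : c0 (a * b).1 = c0 (b * a).1 := by
  simp
  ring

/-! ### conjugation -/

/-- normalisation of a non-zero quaternion -/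
theorem exists_unit {w : H} (hw : w ≠ 0) : ∃ c : U, ∃ r : ℝ, 0 < r ∧ c.1 = r • w :=
  ⟨⟨‖w‖⁻¹ • w, U.mem_of_norm (norm_smul_inv_norm hw)⟩, ‖w‖⁻¹, by positivity, rfl⟩

theorem conj_of_itw {w : H} (hw : w ≠ 0) {a b : U} (h : w * a = b * w) :
    ∃ c : U, c * a * c⁻¹ = b := by
  obtain ⟨c, r, -, hc⟩ := exists_unit hw
  refine ⟨c, mul_inv_eq_iff_eq_mul.mpr (Subtype.ext ?_)⟩
  rw [U.coe_mul, U.coe_mul, hc, smul_mul_assoc, mul_smul_comm, h]

/-- unit quaternions with the same real part are conjugate -/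
theorem conj_of_re {a b : U} (h : c0 a = c0 b) : ∃ c : U, c * a * c⁻¹ = b := by
  have ha := a.sq
  have hb := b.sq
  rw [h] at ha
  by_cases h1 : mkH 0 (c1 a + c1 b) (c2 a + c2 b) (c3 a + c3 b) = 0
  · obtain ⟨-, e1, e2, e3⟩ := H.eq_iff.mp h1
    simp only [c1_mk, c2_mk, c3_mk, c1_zero, c2_zero, c3_zero, add_eq_zero_iff_eq_neg] at e1 e2 e3
    by_cases h2 : mkH 0 0 (c3 b) (-c2 b) = 0
    · obtain ⟨-, -, f2, f3⟩ := H.eq_iff.mp h2
      simp only [c2_mk, c3_mk, c2_zero, c3_zero, neg_eq_zero] at f2 f3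
      exact ⟨qj, by apply U.ext <;> simp [*]⟩
    · exact conj_of_itw h2 (by apply H.ext <;> simp [*] <;> ring)
  · exact conj_of_itw h1 (by apply H.ext <;> simp [h] <;> linarith)

/-- complex numbers of norm one -/
def Circ (a : U) : Prop := c2 a = 0 ∧ c3 a = 0

theorem Circ.one : Circ 1 := ⟨rfl, rfl⟩
theorem Circ.neg {a : U} (h : Circ a) : Circ (-a) := by constructor <;> simp [h.1, h.2]
theorem Circ.inv {a : U} (h : Circ a) : Circ a⁻¹ := by constructor <;> simp [h.1, h.2]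
theorem Circ.mul {a b : U} (h : Circ a) (h' : Circ b) : Circ (a * b) := by
  constructor <;> simp [h.1, h.2, h'.1, h'.2]
theorem Circ.pow {a : U} (h : Circ a) (n : ℕ) : Circ (a ^ n) := by
  induction n with
  | zero => exact Circ.one
  | succ n ih => rw [pow_succ]; exact ih.mul h
theorem Circ.comm {a b : U} (h : Circ a) (h' : Circ b) : Commute a b := by
  apply U.ext <;> simp [h.1, h.2, h'.1, h'.2] <;> ring
theorem circ_qi : Circ qi := ⟨rfl, rfl⟩
theorem circ_qz : Circ qz := ⟨rfl, rfl⟩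
theorem circ_iff {a : U} : Circ a ↔ a * qi = qi * a := by
  rw [U.eq_iff, Circ]
  simp only [U.coe_mul, coe_qi, c0_mul, c1_mul, c2_mul, c3_mul, c0_mk, c1_mk, c2_mk, c3_mk]
  constructor
  · rintro ⟨h2, h3⟩
    simp [h2, h3]
  · rintro ⟨-, -, h2, h3⟩
    constructor <;> linarith
theorem Circ.conj_qj {a : U} (h : Circ a) : qj * a * qj⁻¹ = a⁻¹ := by
  apply U.ext <;> simp [h.1, h.2]
theorem circ_mul_qj {a : U} : Circ (a * qj) ↔ c0 a = 0 ∧ c1 a = 0 := by
  simp [Circ]

theorem exists_conj_circ (a : U) : ∃ c : U, Circ (c * a * c⁻¹) := by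
  have h := Real.sq_sqrt (sub_nonneg.mpr a.re_sq_le)
  obtain ⟨c, hc⟩ := conj_of_re (a := a) (b := mkU (c0 a) (√(1 - c0 a ^ 2)) 0 0 (by linarith)) rfl
  exact ⟨c, hc ▸ ⟨rfl, rfl⟩⟩

theorem exists_sqrt (a : U) : ∃ c : U, c * c = a ∧ (Circ a → Circ c) := by
  by_cases h : a = -1
  · exact ⟨qi, by rw [h, U.mul_self_eq_neg_one]; rfl, fun _ => circ_qi⟩
  have h1 : 1 + a.1 ≠ 0 := fun e => h (Subtype.ext (eq_neg_of_add_eq_zero_right e))
  obtain ⟨c, r, -, hc⟩ := exists_unit h1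
  have h2 := c.sq
  have h3 := a.sq
  rw [hc] at h2
  simp only [c0_smul, c1_smul, c2_smul, c3_smul, c0_add, c1_add, c2_add, c3_add, c0_one, c1_one,
    c2_one, c3_one] at h2
  have h4 : r ^ 2 * (2 + 2 * c0 a) = 1 := by linear_combination h2 - r ^ 2 * h3
  refine ⟨c, ?_, fun ha => by constructor <;> simp [hc, ha.1, ha.2]⟩
  apply U.ext <;> simp [hc]
  · linear_combination (c0 a) * h4 - r ^ 2 * h3
  · linear_combination (c1 a) * h4
  · linear_combination (c2 a) * h4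
  · linear_combination (c3 a) * h4

/-- an orthonormal pair of pure quaternions is conjugate to `i`, `j` -/
theorem frame {u v : U} (hu : c0 u = 0) (hv : c0 v = 0) (h : c0 (u * v).1 = 0) :
    ∃ c : U, c * u * c⁻¹ = qi ∧ c * v * c⁻¹ = qj := by
  obtain ⟨c, hc⟩ := conj_of_re (a := u) (b := qi) hu
  set v' := c * v * c⁻¹ with hv'
  have h0 : c0 v' = 0 := (U.c0_conj c v).trans hv
  have h1 : c1 v' = 0 := by
    have e : qi * v' = c * (u * v) * c⁻¹ := by rw [← hc, hv']; group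
    have := U.c0_conj c (u * v)
    rw [← e, h] at this
    simpa using this
  obtain ⟨d, hd, hd'⟩ := exists_sqrt (qj * v'⁻¹)
  have hd2 := hd' (by constructor <;> simp [h0, h1])
  refine ⟨d * c, ?_, ?_⟩
  · calc d * c * u * (d * c)⁻¹ = d * (c * u * c⁻¹) * d⁻¹ := by group
      _ = qi := by rw [hc, (hd2.comm circ_qi).eq]; group
  · have e : v' * d⁻¹ = d * v' := by apply U.ext <;> simp [h0, h1, hd2.1, hd2.2] <;> ring
    calc d * c * v * (d * c)⁻¹ = d * (v' * d⁻¹) := by rw [hv']; group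
      _ = qj := by rw [e, ← mul_assoc, hd]; group

theorem U.central {a : U} (hi : a * qi = qi * a) (hj : a * qj = qj * a) : a = 1 ∨ a = -1 := by
  obtain ⟨h2, h3⟩ := circ_iff.mpr hi
  have h1 := congrArg (fun x : U => c3 x) hj
  simp at h1
  have := a.sq
  rw [← U.re_sq_eq_one]
  have h4 : c1 a = 0 := by linarith
  rw [h2, h3, h4] at this
  linarith

/-! ### Chebyshev polynomials, powers -/

/-- the character of the representation of dimension `k + 1` as a function of the real part -/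
def chi (s : ℝ) : ℕ → ℝ
  | 0 => 1
  | 1 => 2 * s
  | k + 2 => 2 * s * chi s (k + 1) - chi s k

theorem U.pow_add_two (a : U) (k : ℕ) :
    a.1 ^ (k + 2) = chi (c0 a) (k + 1) • a.1 - chi (c0 a) k • 1 := by
  induction k with
  | zero => rw [pow_two, U.mul_self]; simp [chi]
  | succ k ih =>
    rw [pow_succ, ih, sub_mul, smul_mul_assoc, U.mul_self, chi]
    simp only [smul_mul_assoc, one_mul]
    module

/-- if `a ^ (2 (k + 2)) = 1` then `a = ± 1` or the real part is a root of `chi · (k + 1)` -/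
theorem U.chi_eq_zero {a : U} {k : ℕ} (h : a ^ (2 * (k + 2)) = 1) :
    c0 a ^ 2 = 1 ∨ chi (c0 a) (k + 1) = 0 := by
  rw [two_mul, pow_add, U.mul_self_eq_one, ← U.re_sq_eq_one] at h
  obtain ⟨h1, h2, h3⟩ := U.im_eq_zero h
  rw [U.coe_pow, U.pow_add_two] at h1 h2 h3
  simp only [c1_sub, c2_sub, c3_sub, c1_smul, c2_smul, c3_smul, c1_one, c2_one, c3_one, mul_zero,
    sub_zero, mul_eq_zero] at h1 h2 h3
  by_contra hc
  rw [not_or] at hc
  have := a.sq
  rw [h1.resolve_left hc.2, h2.resolve_left hc.2, h3.resolve_left hc.2] at this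
  exact hc.1 (by linarith)

theorem U.pow_six {a : U} (h : c0 a ^ 2 = 1 / 4) : a ^ 6 = 1 := by
  rw [show 6 = 3 + 3 from rfl, pow_add, U.mul_self_eq_one, ← U.re_sq_eq_one, U.coe_pow,
    U.pow_add_two a 1]
  simp only [chi, c0_sub, c0_smul, c0_one]
  linear_combination (16 * c0 a ^ 4 - 20 * c0 a ^ 2 + 4) * h

/-! ### the circle -/

/-- the complex number of an element of the circle -/
def toC (a : U) : ℂ := ⟨c0 a, c1 a⟩

theorem Circ.toC_mul {a : U} (h : Circ a) (b : U) : toC (a * b) = toC a * toC b := by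
  apply Complex.ext <;> simp [toC, h.1, h.2]
@[simp] theorem toC_one : toC 1 = 1 := rfl
theorem toC_neg (a : U) : toC (-a) = -toC a := rfl
theorem Circ.toC_pow {a : U} (h : Circ a) (n : ℕ) : toC (a ^ n) = toC a ^ n := by
  induction n with
  | zero => rfl
  | succ n ih => rw [pow_succ, pow_succ, (h.pow n).toC_mul, ih]
theorem Circ.toC_inj {a b : U} (h : Circ a) (h' : Circ b) (e : toC a = toC b) : a = b :=
  U.ext (congrArg Complex.re e) (congrArg Complex.im e) (h.1.trans h'.1.symm) (h.2.trans h'.2.symm)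
theorem Circ.normSq_toC {a : U} (h : Circ a) : Complex.normSq (toC a) = 1 := by
  have := a.sq
  rw [h.1, h.2] at this
  simp [toC, Complex.normSq_apply]
  linarith
theorem Circ.toC_ne {a : U} (h : Circ a) : toC a ≠ 0 := fun e => by
  simpa [e] using h.normSq_toC
theorem Circ.toC_inv {a : U} (h : Circ a) : toC a⁻¹ = (toC a)⁻¹ :=
  eq_inv_of_mul_eq_one_left (by rw [← h.inv.toC_mul, inv_mul_cancel, toC_one])
theorem exists_toC {z : ℂ} (h : Complex.normSq z = 1) : ∃ a : U, Circ a ∧ toC a = z :=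
  ⟨mkU z.re z.im 0 0 (by rw [Complex.normSq_apply] at h; linarith), ⟨rfl, rfl⟩, rfl⟩

/-- roots on the circle -/
theorem ncard_root {r : ℕ} (hr : 0 < r) {w : U} (hw : Circ w) :
    {b : U | Circ b ∧ b ^ r = w}.ncard = r := by
  have h1 : toC '' {b : U | Circ b ∧ b ^ r = w} = (Polynomial.nthRootsFinset r (toC w) : Set ℂ) := by
    ext z
    rw [Finset.mem_coe, Polynomial.mem_nthRootsFinset hr]
    constructor
    · rintro ⟨b, ⟨hb, rfl⟩, rfl⟩
      exact (hb.toC_pow r).symm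
    · intro hz
      have h2 := hw.normSq_toC
      rw [← hz, map_pow, pow_eq_one_iff_of_nonneg (Complex.normSq_nonneg z) hr.ne'] at h2
      obtain ⟨b, hb, rfl⟩ := exists_toC h2
      exact ⟨b, ⟨hb, (hb.pow r).toC_inj hw (by rw [hb.toC_pow, hz])⟩, rfl⟩
  rw [← InjOn.ncard_image (f := toC) fun a ha b hb e => ha.1.toC_inj hb.1 e, h1, ncard_coe_finset,
    Polynomial.nthRootsFinset, Multiset.toFinset_card_of_nodup
      ((Complex.isPrimitiveRoot_exp r hr.ne').nthRoots_nodup hw.toC_ne),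
    (Complex.isPrimitiveRoot_exp r hr.ne').card_nthRoots, if_pos]
  exact IsAlgClosed.exists_pow_nat_eq _ hr

theorem finite_root {r : ℕ} (hr : 0 < r) {w : U} (hw : Circ w) :
    {b : U | Circ b ∧ b ^ r = w}.Finite :=
  finite_of_ncard_pos (by rwa [ncard_root hr hw])

/-- a finite subgroup of the circle consists of all roots of unity of its order -/
theorem mem_iff_root {B : Subgroup U} [Finite B] (hB : ∀ b ∈ B, Circ b) {b : U} :
    b ∈ B ↔ Circ b ∧ b ^ Nat.card B = 1 := by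
  have h := eq_of_subset_of_ncard_le (s := (B : Set U))
    (t := {b : U | Circ b ∧ b ^ Nat.card B = 1})
    (fun b hb => ⟨hB b hb, congrArg Subtype.val (pow_card_eq_one' (x := (⟨b, hb⟩ : B)))⟩)
    (by rw [ncard_root Nat.card_pos Circ.one]; rfl) (finite_root Nat.card_pos Circ.one)
  exact Set.ext_iff.mp h b

theorem ncard_circ_re (s : ℝ) : {b : U | Circ b ∧ c0 b = s}.Finite ∧
    {b : U | Circ b ∧ c0 b = s}.ncard ≤ 2 := by
  rcases eq_empty_or_nonempty {b : U | Circ b ∧ c0 b = s} with h | ⟨a, ha, rfl⟩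
  · simp [h]
  have h : {b : U | Circ b ∧ c0 b = c0 a} ⊆ {a, a⁻¹} := by
    rintro b ⟨hb, e⟩
    have h1 := a.sq
    have h2 := b.sq
    rw [ha.1, ha.2] at h1
    rw [hb.1, hb.2, e] at h2
    rcases sq_eq_sq_iff_eq_or_eq_neg.mp (show c1 b ^ 2 = c1 a ^ 2 by linarith) with h | h
    · left; apply U.ext <;> simp [*, ha.1, ha.2, hb.1, hb.2]
    · right; apply U.ext <;> simp [*, ha.1, ha.2, hb.1, hb.2]
  exact ⟨(toFinite _).subset h, (ncard_le_ncard h).trans ((ncard_insert_le _ _).trans (by simp))⟩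

/-! ### topology and the exponential -/

instance : CompactSpace U :=
  isCompact_iff_compactSpace.mp (Metric.isCompact_of_isClosed_isBounded isClosed_unitary
    ((Metric.isBounded_closedBall (x := (0 : H)) (r := 1)).subset fun x hx => by
      rw [mem_closedBall_zero_iff]
      exact (U.norm ⟨x, hx⟩).le))

instance : ConnectedSpace U :=
  isConnected_iff_connectedSpace.mp (by
    have e : (unitary H : Set H) = Metric.sphere 0 1 := by
      ext x
      rw [mem_sphere_zero_iff_norm]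
      exact ⟨fun hx => U.norm ⟨x, hx⟩, U.mem_of_norm⟩
    change IsConnected (unitary H : Set H)
    rw [e]
    exact isConnected_sphere (by rw [Quaternion.rank_eq_four]; norm_num) 0 zero_le_one)

instance : NormedAlgebra ℚ H := NormedAlgebra.restrictScalars ℚ ℝ H

/-- the imaginary part as a linear map -/
def imL : H →ₗ[ℝ] H where
  toFun v := mkH 0 (c1 v) (c2 v) (c3 v)
  map_add' v w := by apply H.ext <;> simp
  map_smul' r v := by apply H.ext <;> simp

@[simp] theorem imL_apply (v : H) : imL v = mkH 0 (c1 v) (c2 v) (c3 v) := rfl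

/-- the exponential of the imaginary part -/
def eU (v : H) : U := ⟨exp (imL v), U.mem_of_norm (by
  rw [Quaternion.norm_exp]
  change ‖exp (0 : ℝ)‖ = 1
  simp)⟩

theorem coe_eU (v : H) : (eU v).1 = exp (imL v) := rfl

theorem coe_eU_smul (t : ℝ) {u : U} (hu : c0 u = 0) :
    (eU (t • u.1)).1 = Real.cos t • 1 + Real.sin t • u.1 := by
  have e : imL (t • u.1) = t • u.1 := by apply H.ext <;> simp [hu]
  rw [coe_eU, e, Quaternion.exp_of_re_eq_zero _ (show c0 _ = 0 by simp [hu]), norm_smul, U.norm,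
    mul_one, Real.norm_eq_abs, Real.cos_abs, smul_smul]
  congr 1
  · apply H.ext <;> simp <;> rfl
  · congr 1
    rcases eq_or_ne t 0 with rfl | h
    · simp
    · rcases abs_cases t with h1 | h1 <;> rw [h1.1] <;> simp [h]

/-- the basis `i`, `j`, `k` -/
def bq : Fin 3 → U := ![qi, qj, qk]

theorem c0_bq (i : Fin 3) : c0 (bq i) = 0 := by fin_cases i <;> rfl

/-- the three one-parameter groups -/
def eq3 (i : Fin 3) (t : ℝ) : U := eU (t • (bq i).1)

theorem coe_eq3 (i : Fin 3) (t : ℝ) : (eq3 i t).1 = Real.cos t • 1 + Real.sin t • (bq i).1 :=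
  coe_eU_smul t (c0_bq i)

end

end Pool.Agent.P.MP_e311cd_gt
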