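import Pool.Agent.P.MP_e311cd_gt.St
import Pool.Agent.P.MP_e311cd_gt.I.An

/-! Statements of the packages for the three dimensional case. -/

namespace Pool.Agent.P.MP_e311cd_gt

open Set NormedSpace MeasureTheory
open scoped RealInnerProductSpace

noncomputable section

/-! ### finite groups acting freely on the three-sphere -/

/-- a finite group of pairs `(a, b)` such that the maps `x ↦ a x b⁻¹` act freely -/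
structure FreeG (Γ : Subgroup (U × U)) : Prop where
  fin : Finite Γ
  neg : ((-1 : U), (-1 : U)) ∈ Γ
  free : ∀ a b : U, (a, b) ∈ Γ → c0 a = c0 b → a = b ∧ (a = 1 ∨ a = -1)

/-- conjugacy in `O(4)` -/
def Equi (Γ₁ Γ₂ : Subgroup (U × U)) : Prop :=
  ∃ c d : U, (∀ a b, (a, b) ∈ Γ₁ ↔ (c * a * c⁻¹, d * b * d⁻¹) ∈ Γ₂) ∨
    ∀ a b, (a, b) ∈ Γ₁ ↔ (d * b * d⁻¹, c * a * c⁻¹) ∈ Γ₂

/-- the multiplicity of the eigenvalue `k (k + 2)` -/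
def mk (Γ : Subgroup (U × U)) (k : ℕ) : ℝ :=
  (∑ᶠ p : Γ, chi (c0 p.1.1) k * chi (c0 p.1.2) k) / Nat.card Γ

/-- left multiplications -/
def GaL (Γ : Subgroup (U × U)) : Subgroup U := Γ.comap (MonoidHom.inl U U)
/-- right multiplications -/
def GaR (Γ : Subgroup (U × U)) : Subgroup U := Γ.comap (MonoidHom.inr U U)
/-- first projection -/
def PL (Γ : Subgroup (U × U)) : Subgroup U := Γ.map (MonoidHom.fst U U)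
/-- second projection -/
def PR (Γ : Subgroup (U × U)) : Subgroup U := Γ.map (MonoidHom.snd U U)

theorem mem_GaL {Γ : Subgroup (U × U)} {a : U} : a ∈ GaL Γ ↔ (a, 1) ∈ Γ := Iff.rfl
theorem mem_GaR {Γ : Subgroup (U × U)} {b : U} : b ∈ GaR Γ ↔ (1, b) ∈ Γ := Iff.rfl
theorem mem_PL {Γ : Subgroup (U × U)} {a : U} : a ∈ PL Γ ↔ ∃ b, (a, b) ∈ Γ :=
  ⟨fun ⟨p, hp, e⟩ => ⟨p.2, e ▸ hp⟩, fun ⟨_, h⟩ => ⟨_, h, rfl⟩⟩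
theorem mem_PR {Γ : Subgroup (U × U)} {b : U} : b ∈ PR Γ ↔ ∃ a, (a, b) ∈ Γ :=
  ⟨fun ⟨p, hp, e⟩ => ⟨p.1, e ▸ hp⟩, fun ⟨_, h⟩ => ⟨_, h, rfl⟩⟩

/-- the number of elements with a double eigenvalue of real part `c` -/
def dbl (Γ : Subgroup (U × U)) (c : ℝ) : ℕ :=
  {p : U × U | p ∈ Γ ∧ (c0 p.1 ^ 2 = 1 ∨ c0 p.2 ^ 2 = 1) ∧ c0 p.1 * c0 p.2 = c}.ncard

/-- the number of left or right multiplications of real part `c` -/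
def dd (Γ : Subgroup (U × U)) (c : ℝ) : ℕ :=
  {a : U | (a, 1) ∈ Γ ∧ c0 a = c}.ncard + {b : U | (1, b) ∈ Γ ∧ c0 b = c}.ncard

/-- the number of left multiplications plus the number of right multiplications -/
def sg (Γ : Subgroup (U × U)) : ℕ := Nat.card (GaL Γ) + Nat.card (GaR Γ)

theorem Equi.refl (Γ : Subgroup (U × U)) : Equi Γ Γ := ⟨1, 1, Or.inl fun a b => by simp⟩

theorem Equi.symm {Γ₁ Γ₂ : Subgroup (U × U)} : Equi Γ₁ Γ₂ → Equi Γ₂ Γ₁ := by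
  rintro ⟨c, d, h | h⟩
  · exact ⟨c⁻¹, d⁻¹, Or.inl fun a b => by rw [h]; simp [mul_assoc]⟩
  · exact ⟨d⁻¹, c⁻¹, Or.inr fun a b => by rw [h]; simp [mul_assoc]⟩

theorem Equi.trans {Γ₁ Γ₂ Γ₃ : Subgroup (U × U)} : Equi Γ₁ Γ₂ → Equi Γ₂ Γ₃ → Equi Γ₁ Γ₃ := by
  rintro ⟨c, d, h | h⟩ ⟨c', d', h' | h'⟩
  · exact ⟨c' * c, d' * d, Or.inl fun a b => by rw [h, h']; simp [mul_assoc]⟩
  · exact ⟨c' * c, d' * d, Or.inr fun a b => by rw [h, h']; simp [mul_assoc]⟩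
  · exact ⟨d' * c, c' * d, Or.inr fun a b => by rw [h, h']; simp [mul_assoc]⟩
  · exact ⟨d' * c, c' * d, Or.inl fun a b => by rw [h, h']; simp [mul_assoc]⟩

theorem exists_conj (Γ : Subgroup (U × U)) (c d : U) :
    ∃ Γ' : Subgroup (U × U), ∀ a b, (a, b) ∈ Γ ↔ (c * a * c⁻¹, d * b * d⁻¹) ∈ Γ' :=
  ⟨Γ.comap (MulAut.conj (c, d)⁻¹).toMonoidHom, fun a b => by simp [mul_assoc]⟩

theorem exists_swap (Γ : Subgroup (U × U)) :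
    ∃ Γ' : Subgroup (U × U), Equi Γ Γ' ∧ ∀ a b, (a, b) ∈ Γ ↔ (b, a) ∈ Γ' :=
  ⟨Γ.comap (MulEquiv.prodComm (M := U) (N := U)).toMonoidHom,
    ⟨1, 1, Or.inr fun a b => by simp⟩, fun a b => by simp⟩

theorem Equi.equiv {Γ₁ Γ₂ : Subgroup (U × U)} (h : Equi Γ₁ Γ₂) : ∃ φ : U × U ≃* U × U,
    (∀ p, p ∈ Γ₁ ↔ φ p ∈ Γ₂) ∧ φ (-1, -1) = (-1, -1) ∧ φ (1, 1) = (1, 1) ∧
      ((∀ p, c0 (φ p).1 = c0 p.1 ∧ c0 (φ p).2 = c0 p.2) ∨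
        ∀ p, c0 (φ p).1 = c0 p.2 ∧ c0 (φ p).2 = c0 p.1) := by
  obtain ⟨c, d, h | h⟩ := h
  · exact ⟨MulAut.conj (c, d), fun p => h p.1 p.2, by simp, by simp,
      Or.inl fun p => ⟨U.c0_conj c p.1, U.c0_conj d p.2⟩⟩
  · exact ⟨(MulAut.conj (c, d)).trans MulEquiv.prodComm, fun p => h p.1 p.2, by simp, by simp,
      Or.inr fun p => ⟨U.c0_conj d p.2, U.c0_conj c p.1⟩⟩

theorem Equi.mk_eq {Γ₁ Γ₂ : Subgroup (U × U)} (h : Equi Γ₁ Γ₂) (k : ℕ) : mk Γ₁ k = mk Γ₂ k := by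
  obtain ⟨φ, h1, -, -, h2⟩ := h.equiv
  have e := φ.toEquiv.subtypeEquiv (p := (· ∈ Γ₁)) (q := (· ∈ Γ₂)) h1
  unfold mk
  rw [Nat.card_congr (φ.toEquiv.subtypeEquiv (p := (· ∈ Γ₁)) (q := (· ∈ Γ₂)) h1),
    ← finsum_comp_equiv (φ.toEquiv.subtypeEquiv (p := (· ∈ Γ₁)) (q := (· ∈ Γ₂)) h1)]
  congr 2
  funext p
  rcases h2 with h2 | h2
  · rw [← (h2 p).1, ← (h2 p).2]; rfl
  · rw [← (h2 p).1, ← (h2 p).2, mul_comm]; rfl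

theorem Equi.freeG {Γ₁ Γ₂ : Subgroup (U × U)} (h : Equi Γ₁ Γ₂) (f : FreeG Γ₁) : FreeG Γ₂ := by
  obtain ⟨φ, h1, h2, h3, h4⟩ := h.equiv
  have := f.fin
  refine ⟨Finite.of_equiv _ (φ.toEquiv.subtypeEquiv (p := (· ∈ Γ₁)) (q := (· ∈ Γ₂)) h1),
    h2 ▸ (h1 _).mp f.neg, fun a b hab e => ?_⟩
  obtain ⟨⟨a', b'⟩, e'⟩ := φ.surjective (a, b)
  have h5 : c0 a'.1 = c0 b'.1 := by
    rcases h4 with h4 | h4 <;> have := h4 (a', b') <;> rw [e'] at this <;> linarith [this.1, this.2]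
  obtain ⟨rfl, rfl | rfl⟩ := f.free a' b' ((h1 _).mpr (e' ▸ hab)) h5
  · rw [h3, Prod.mk.injEq] at e'
    exact ⟨e'.1.symm.trans e'.2, Or.inl e'.1.symm⟩
  · rw [h2, Prod.mk.injEq] at e'
    exact ⟨e'.1.symm.trans e'.2, Or.inr e'.1.symm⟩

/-! ### finite subgroups of the unit quaternions -/

/-- every element is a product of two pure elements -/
def Rev (A : Subgroup U) : Prop := ∀ a ∈ A, ∃ c ∈ A, c0 c = 0 ∧ c0 (a * c).1 = 0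

/-- the binary dihedral group of order `4 n` -/
def SD (n : ℕ) : Set U :=
  {a | (Circ a ∧ a ^ (2 * n) = 1) ∨ (Circ (a * qj) ∧ (a * qj) ^ (2 * n) = 1)}

/-- the quaternion group -/
def SQ : Set U := {a | c0 a ^ 2 = 1 ∨ c1 a ^ 2 = 1 ∨ c2 a ^ 2 = 1 ∨ c3 a ^ 2 = 1}

/-- the binary tetrahedral group -/
def ST : Set U :=
  SQ ∪ {a | c0 a ^ 2 = 1 / 4 ∧ c1 a ^ 2 = 1 / 4 ∧ c2 a ^ 2 = 1 / 4 ∧ c3 a ^ 2 = 1 / 4}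

/-- the binary octahedral group -/
def SO : Set U := ST ∪ {a | (c0 a ^ 2 = 1 / 2 ∧ c1 a ^ 2 = 1 / 2) ∨
  (c0 a ^ 2 = 1 / 2 ∧ c2 a ^ 2 = 1 / 2) ∨ (c0 a ^ 2 = 1 / 2 ∧ c3 a ^ 2 = 1 / 2) ∨
  (c1 a ^ 2 = 1 / 2 ∧ c2 a ^ 2 = 1 / 2) ∨ (c1 a ^ 2 = 1 / 2 ∧ c3 a ^ 2 = 1 / 2) ∨
  (c2 a ^ 2 = 1 / 2 ∧ c3 a ^ 2 = 1 / 2)}

/-- the squares are a cyclic permutation of `1 / 4`, `φ² / 4`, `φ⁻² / 4` -/
def Cy (x y z : ℝ) : Prop :=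
  (x ^ 2 = 1 / 4 ∧ y ^ 2 = (3 + √5) / 8 ∧ z ^ 2 = (3 - √5) / 8) ∨
    (y ^ 2 = 1 / 4 ∧ z ^ 2 = (3 + √5) / 8 ∧ x ^ 2 = (3 - √5) / 8) ∨
    (z ^ 2 = 1 / 4 ∧ x ^ 2 = (3 + √5) / 8 ∧ y ^ 2 = (3 - √5) / 8)

/-- the binary icosahedral group -/
def SI : Set U := ST ∪ {a | (c0 a = 0 ∧ Cy (c1 a) (c2 a) (c3 a)) ∨
  (c1 a = 0 ∧ Cy (c0 a) (c3 a) (c2 a)) ∨ (c2 a = 0 ∧ Cy (c3 a) (c0 a) (c1 a)) ∨
  (c3 a = 0 ∧ Cy (c2 a) (c1 a) (c0 a))}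

/-- `A` is conjugate to `S` -/
def CjTo (A : Subgroup U) (S : Set U) : Prop := ∃ c : U, ∀ a, a ∈ A ↔ c * a * c⁻¹ ∈ S

def TyC (A : Subgroup U) : Prop := ∃ u : U, c0 u = 0 ∧ ∀ a ∈ A, a * u = u * a
def TyD (A : Subgroup U) (n : ℕ) : Prop := 2 ≤ n ∧ Nat.card A = 4 * n ∧ ∃ u : U, c0 u = 0 ∧
  {a | a ∈ A ∧ a * u = u * a}.ncard = 2 * n ∧ ∀ a ∈ A, a * u = u * a ∨ a * u = -(u * a)
def TyT (A : Subgroup U) : Prop :=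
  Nat.card A = 24 ∧ ∀ a ∈ A, c0 a = 0 ∨ c0 a ^ 2 = 1 / 4 ∨ c0 a ^ 2 = 1
def TyO (A : Subgroup U) : Prop :=
  Nat.card A = 48 ∧ Rev A ∧ ∀ a ∈ A, c0 a = 0 ∨ c0 a ^ 2 = 1 / 4 ∨ c0 a ^ 2 = 1 / 2 ∨ c0 a ^ 2 = 1
def TyI (A : Subgroup U) : Prop :=
  Nat.card A = 120 ∧ Rev A ∧ ∀ a ∈ A, c0 a = 0 ∨ c0 a ^ 2 = 1 / 4 ∨ c0 a ^ 2 = 1 ∨
    16 * c0 a ^ 4 - 12 * c0 a ^ 2 + 1 = 0

/-- the poles of `A` -/
def Pole (A : Subgroup U) : Set U := {u | c0 u = 0 ∧ ∃ a ∈ A, c0 a ^ 2 ≠ 1 ∧ a * u = u * a}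

/-- the order of the stabiliser of a pole -/
def stb (A : Subgroup U) (u : U) : ℕ := {a | a ∈ A ∧ a * u = u * a}.ncard

/-- the class equation: at most three orbits of poles -/
def S_Orb : Prop := ∀ A : Subgroup U, Finite A → -1 ∈ A → TyC A ∨
  ∃ (u : Fin 3 → U) (m : Fin 3 → ℕ) (N : ℕ), (∀ i, u i ∈ Pole A) ∧ (∀ i, stb A (u i) = 2 * m i) ∧
    2 ≤ m 0 ∧ m 0 ≤ m 1 ∧ m 1 ≤ m 2 ∧ Nat.card A = 2 * N ∧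
    (1 / m 0 + 1 / m 1 + 1 / m 2 : ℚ) = 1 + 2 / N ∧
    ∀ v ∈ Pole A, ∃ i, ∃ a ∈ A, v = a * u i * a⁻¹

def S_Pole : Prop := ∀ A : Subgroup U, Finite A → -1 ∈ A →
  TyC A ∨ (∃ n, TyD A n) ∨ TyT A ∨ TyO A ∨ TyI A

def S_ClsD : Prop := ∀ (A : Subgroup U) (n : ℕ), TyD A n → CjTo A (SD n)
def S_ClsT : Prop := ∀ A : Subgroup U, TyT A → CjTo A ST
def S_ClsO : Prop := ∀ A : Subgroup U, TyO A → CjTo A SO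
def S_ClsI : Prop := ∀ A : Subgroup U, TyI A → CjTo A SI

/-- upper bounds for the sizes of the explicit sets -/
def S_Crd : Prop := (SQ.Finite ∧ SQ.ncard = 8) ∧ (ST.Finite ∧ ST.ncard ≤ 24) ∧
  (SO.Finite ∧ SO.ncard ≤ 48) ∧ (SI.Finite ∧ SI.ncard ≤ 120) ∧
  (∀ a ∈ ST, ∃ q ∈ SQ, ∃ e < 3, a = q * qw ^ e) ∧
  {a : U | ∃ q ∈ SQ, ∃ e < 3, a = q * qw ^ e} ⊆ ST ∧
  ∀ q ∈ SQ, ∀ q' ∈ SQ, ∀ e < 3, ∀ e' < 3, q * qw ^ e = q' * qw ^ e' → e = e'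

/-- a subgroup of order eight without elements of order eight gives a frame -/
def S_Q8 : Prop := ∀ A : Subgroup U, Finite A → 8 ∣ Nat.card A → (∀ a ∈ A, c0 a ^ 2 ≠ 1 / 2) →
  ∃ u ∈ A, ∃ v ∈ A, c0 u = 0 ∧ c0 v = 0 ∧ c0 (u * v).1 = 0

/-- one of the two projections lies in a torus -/
def S_Cyc : Prop := ∀ Γ, FreeG Γ → TyC (PL Γ) ∨ TyC (PR Γ)

/-! ### normal forms -/

/-- product type -/
def NP (S : Set U) (m : ℕ) (Γ : Subgroup (U × U)) : Prop :=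
  Odd m ∧ ∀ a b, (a, b) ∈ Γ ↔ a ∈ S ∧ Circ b ∧ b ^ (2 * m) = 1

def N0 (n m : ℕ) (Γ : Subgroup (U × U)) : Prop := 2 ≤ n ∧ NP (SD n) m Γ
def N1 (n m : ℕ) (Γ : Subgroup (U × U)) : Prop := 3 ≤ n ∧ Odd n ∧ Even m ∧ 0 < m ∧
  ∀ a b, (a, b) ∈ Γ ↔ Circ b ∧ ((Circ a ∧ a ^ (2 * n) = 1 ∧ b ^ (2 * m) = 1) ∨
    (Circ (a * qj) ∧ (a * qj) ^ (2 * n) = 1 ∧ b ^ (2 * m) = -1))
def N2 (m : ℕ) (Γ : Subgroup (U × U)) : Prop := ST.ncard = 24 ∧ NP ST m Γ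
def N3 (m : ℕ) (Γ : Subgroup (U × U)) : Prop := Odd m ∧ 1 < m ∧
  ∀ a b, (a, b) ∈ Γ ↔ Circ b ∧ ∃ q ∈ SQ, ∃ e < 3, a = q * qw ^ e ∧ b ^ (2 * m) = qz ^ e
def N4 (m : ℕ) (Γ : Subgroup (U × U)) : Prop := SO.ncard = 48 ∧ NP SO m Γ
def N5 (m : ℕ) (Γ : Subgroup (U × U)) : Prop := SI.ncard = 120 ∧ NP SI m Γ

/-- non-abelian normal forms -/
def NA (Γ : Subgroup (U × U)) : Prop :=
  ∃ n m, N0 n m Γ ∨ N1 n m Γ ∨ N2 m Γ ∨ N3 m Γ ∨ N4 m Γ ∨ N5 m Γ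

/-- abelian normal form -/
def Ab (Γ : Subgroup (U × U)) : Prop := ∀ a b, (a, b) ∈ Γ → Circ a ∧ Circ b

/-- the character attached to a group whose second projection lies in the circle -/
structure Psi (Γ : Subgroup (U × U)) (m : ℕ) (ψ : U → U) : Prop where
  pos : 0 < m
  circ : ∀ a ∈ PL Γ, Circ (ψ a)
  mul : ∀ a ∈ PL Γ, ∀ a' ∈ PL Γ, ψ (a * a') = ψ a * ψ a'
  neg : ψ (-1) = 1
  mem : ∀ a b, (a, b) ∈ Γ ↔ a ∈ PL Γ ∧ Circ b ∧ b ^ (2 * m) = ψ a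
  pure : ∀ a ∈ PL Γ, c0 a = 0 → (ψ a = 1 ∧ Odd m) ∨ (ψ a = -1 ∧ Even m)

def S_Psi : Prop := ∀ Γ, FreeG Γ → (∀ a b, (a, b) ∈ Γ → Circ b) → (∃ a ∈ PL Γ, c0 a = 0) →
  ∃ m ψ, Psi Γ m ψ

def S_NFD : Prop := ∀ Γ m ψ n, FreeG Γ → Psi Γ m ψ → 2 ≤ n → (PL Γ : Set U) = SD n →
  N0 n m Γ ∨ N1 n m Γ

def S_NFT : Prop := ∀ Γ m ψ, FreeG Γ → Psi Γ m ψ → (PL Γ : Set U) = ST → ST.ncard = 24 →
  N2 m Γ ∨ ∃ Γ', Equi Γ Γ' ∧ N3 m Γ'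

def S_NFR : Prop := ∀ Γ m ψ, Psi Γ m ψ → qi ∈ PL Γ → qj ∈ PL Γ → Rev (PL Γ) → NP (PL Γ) m Γ

def S_NF : Prop := ∀ Γ, FreeG Γ → ∃ Γ', Equi Γ Γ' ∧ (Ab Γ' ∨ NA Γ')

def S_Inv0 : Prop := ∀ Γ n m, FreeG Γ →
  (N0 n m Γ → Nat.card Γ = 8 * n * m ∧ sg Γ = 4 * n + 2 * m ∧ 2 * n ≤ dd Γ 0 ∧ dd Γ (1 / 2) ≤ 2) ∧
  (N1 n m Γ → Nat.card Γ = 8 * n * m ∧ sg Γ = 2 * n + 2 * m ∧ dd Γ 0 ≤ 2 ∧ dd Γ (1 / 2) ≤ 2)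

def S_Inv1 : Prop := ∀ Γ m, FreeG Γ →
  (∀ S s, NP S m Γ → S.ncard = s → 0 < s → ST ⊆ S →
    Nat.card Γ = s * (2 * m) ∧ sg Γ = s + 2 * m ∧ 3 ≤ dd Γ (1 / 2)) ∧
  (N3 m Γ → Nat.card Γ = 48 * m ∧ sg Γ = 8 + 2 * m ∧ 3 ≤ dd Γ 0 ∧ dd Γ 0 ≤ 6 ∧ dd Γ (1 / 2) ≤ 2)

def S_Cmp : Prop := ∀ Γ₁ Γ₂, FreeG Γ₁ → FreeG Γ₂ → NA Γ₁ → NA Γ₂ → Nat.card Γ₁ = Nat.card Γ₂ →
  sg Γ₁ = sg Γ₂ → dd Γ₁ 0 = dd Γ₂ 0 → dd Γ₁ (1 / 2) = dd Γ₂ (1 / 2) → Γ₁ = Γ₂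

/-- double poles of the generating function -/
def S_DP : Prop := ∀ Γ₁ Γ₂ : Subgroup (U × U), Finite Γ₁ → Finite Γ₂ → (∀ k, mk Γ₁ k = mk Γ₂ k) →
  ∀ c, dbl Γ₁ c * Nat.card Γ₂ = dbl Γ₂ c * Nat.card Γ₁

def S_DP2 : Prop := ∀ Γ₁ Γ₂, FreeG Γ₁ → FreeG Γ₂ → (∀ k, mk Γ₁ k = mk Γ₂ k) →
  Nat.card Γ₁ = Nat.card Γ₂ ∧ sg Γ₁ = sg Γ₂ ∧ ∀ c, c ^ 2 ≠ 1 → dd Γ₁ c = dd Γ₂ c

def S_M2 : Prop := ∀ Γ, FreeG Γ → NA Γ → mk Γ 2 = 0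

/-! ### lens spaces -/

/-- the sup norm -/
def sup2 (v : ℤ × ℤ) : ℤ := max |v.1| |v.2|

/-- the lattice of the characters that are trivial on `Γ` -/
def Lam (Γ : Subgroup (U × U)) : Set (ℤ × ℤ) :=
  {v | ∀ a b, (a, b) ∈ Γ → toC a ^ v.1 * toC b ^ v.2 = 1}

def S_Lens1 : Prop := ∀ Γ : Subgroup (U × U), Finite Γ → Ab Γ → ∀ k : ℕ, mk Γ k =
  {v : ℤ × ℤ | v ∈ Lam Γ ∧ sup2 v ≤ k ∧ Even (v.1 - k) ∧ Even (v.2 - k)}.ncard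

def S_Lens2 : Prop := ∀ Γ : Subgroup (U × U), Finite Γ → Ab Γ →
  (∃ Λ : AddSubgroup (ℤ × ℤ), (Λ : Set (ℤ × ℤ)) = Lam Γ ∧ Λ.index = Nat.card Γ) ∧
    ∀ Γ' : Subgroup (U × U), Finite Γ' → Ab Γ' → Lam Γ = Lam Γ' → Γ = Γ'

/-- a planar lattice is determined by its index and its sup norm spectrum -/
def S_Lat : Prop := ∀ Λ₁ Λ₂ : AddSubgroup (ℤ × ℤ), Λ₁.index ≠ 0 → Λ₁.index = Λ₂.index →
  (∀ t, {v | v ∈ Λ₁ ∧ sup2 v = t}.ncard = {v | v ∈ Λ₂ ∧ sup2 v = t}.ncard) →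
  ∃ s₁ s₂ : ℤ, (s₁ = 1 ∨ s₁ = -1) ∧ (s₂ = 1 ∨ s₂ = -1) ∧
    ((∀ j l, (j, l) ∈ Λ₁ ↔ (s₁ * j, s₂ * l) ∈ Λ₂) ∨ ∀ j l, (j, l) ∈ Λ₁ ↔ (s₂ * l, s₁ * j) ∈ Λ₂)

def S_Lens : Prop := ∀ Γ₁ Γ₂, FreeG Γ₁ → FreeG Γ₂ → Ab Γ₁ → Ab Γ₂ → (∀ k, mk Γ₁ k = mk Γ₂ k) →
  Nat.card Γ₁ = Nat.card Γ₂ → Equi Γ₁ Γ₂

/-- the sup norm of `m v₁ + n v₂` -/
def Nv (x₁ y₁ x₂ y₂ : ℤ) (w : ℤ × ℤ) : ℤ := max |w.1 * x₁ + w.2 * x₂| |w.1 * y₁ + w.2 * y₂|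

/-- a norm on `ℤ²` with a reduced standard basis -/
structure Nm (f : ℤ × ℤ → ℤ) : Prop where
  add : ∀ u v, f (u + v) ≤ f u + f v
  smul : ∀ (k : ℤ) (v : ℤ × ℤ), f (k • v) = |k| * f v
  fin : ∀ t, {v | f v = t}.Finite
  r1 : f (1, 0) ≤ f (0, 1)
  r2 : f (0, 1) ≤ f (1, 1)
  r3 : f (1, 1) ≤ f (-1, 1)

/-- equal spectra -/
def Spc (f g : ℤ × ℤ → ℤ) : Prop := ∀ t, {v | f v = t}.ncard = {v | g v = t}.ncard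

/-- equal spectra of primitive vectors -/
def PSpc (f g : ℤ × ℤ → ℤ) : Prop := ∀ t,
  {v : ℤ × ℤ | IsCoprime v.1 v.2 ∧ f v = t}.ncard = {v : ℤ × ℤ | IsCoprime v.1 v.2 ∧ g v = t}.ncard

/-- an edge of the Farey tessellation -/
abbrev Edge : Type := (ℤ × ℤ) × (ℤ × ℤ)

/-- the number of primitive vectors of norm `t` in the open cone over an edge -/
def cnt (f : ℤ × ℤ → ℤ) (e : Edge) (t : ℤ) : ℕ :=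
  {w : ℤ × ℤ | 0 < w.1 ∧ 0 < w.2 ∧ IsCoprime w.1 w.2 ∧ f (w.1 • e.1 + w.2 • e.2) = t}.ncard

/-- an edge across which the norm increases -/
def Up (f : ℤ × ℤ → ℤ) (e : Edge) : Prop :=
  e.1.1 * e.2.2 - e.1.2 * e.2.1 = 1 ∧ f e.1 ≤ f (e.1 + e.2) ∧ f e.2 ≤ f (e.1 + e.2)

/-- two families of cones with the same spectrum -/
def Con (f g : ℤ × ℤ → ℤ) (L L' : List Edge) : Prop :=
  (∀ e ∈ L, Up f e) ∧ (∀ e ∈ L', Up g e) ∧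
    ∀ t, (L.map fun e => cnt f e t).sum = (L'.map fun e => cnt g e t).sum

/-- a disjunction over the ways to mark one entry of a list -/
def Br (P : List Edge → Edge → List Edge → Prop) (A B : List Edge) : Prop :=
  List.rec (motive := fun _ => List Edge → Prop) (fun _ => False)
    (fun e B ih A => P A e B ∨ ih (A ++ [e])) B A

theorem Br_nil (P) (A : List Edge) : Br P A [] = False := rfl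
theorem Br_cons (P) (A : List Edge) (e : Edge) (B : List Edge) :
    Br P A (e :: B) = (P A e B ∨ Br P (A ++ [e]) B) := rfl

/-- the marked entry is the first one with the least top value -/
def Fst (f : ℤ × ℤ → ℤ) (A : List Edge) (e : Edge) (B : List Edge) : Prop :=
  (∀ d ∈ A, f (e.1 + e.2) < f (d.1 + d.2)) ∧ ∀ d ∈ B, f (e.1 + e.2) ≤ f (d.1 + d.2)

def S_Prim : Prop := ∀ f g, Nm f → Nm g → Spc f g → PSpc f g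

def S_Step : Prop := ∀ f g L L', Nm f → Nm g → Con f g L L' → L ≠ [] →
  Br (fun A e B => Fst f A e B ∧ Br (fun A' e' B' => Fst g A' e' B' ∧
    f (e.1 + e.2) = g (e'.1 + e'.2) ∧
    Con f g (A ++ (e.1, e.1 + e.2) :: (e.1 + e.2, e.2) :: B)
      (A' ++ (e'.1, e'.1 + e'.2) :: (e'.1 + e'.2, e'.2) :: B')) [] L') [] L

def S_Root : Prop := ∀ f g, Nm f → Nm g → PSpc f g →
  f (1, 0) = g (1, 0) ∧ f (0, 1) = g (0, 1) ∧ f (1, 1) = g (1, 1) ∧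
    Con f g [((1, 0), (1, 1)), ((1, 1), (0, 1)), ((0, 1), (-1, 0))]
      [((1, 0), (1, 1)), ((1, 1), (0, 1)), ((0, 1), (-1, 0))]

/-- the two bases generate the same lattice up to a symmetry of the square -/
def Same (x₁ y₁ x₂ y₂ x₁' y₁' x₂' y₂' : ℤ) : Prop :=
  ∃ a b c d s t : ℤ, (a * d - b * c = 1 ∨ a * d - b * c = -1) ∧ (s = 1 ∨ s = -1) ∧
    (t = 1 ∨ t = -1) ∧
    ((x₁' = s * (a * x₁ + b * x₂) ∧ y₁' = t * (a * y₁ + b * y₂) ∧ x₂' = s * (c * x₁ + d * x₂) ∧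
      y₂' = t * (c * y₁ + d * y₂)) ∨
    (y₁' = s * (a * x₁ + b * x₂) ∧ x₁' = t * (a * y₁ + b * y₂) ∧ y₂' = s * (c * x₁ + d * x₂) ∧
      x₂' = t * (c * y₁ + d * y₂)))

def S_Tree : Prop := ∀ x₁ y₁ x₂ y₂ x₁' y₁' x₂' y₂' : ℤ, Nm (Nv x₁ y₁ x₂ y₂) →
  Nm (Nv x₁' y₁' x₂' y₂') → PSpc (Nv x₁ y₁ x₂ y₂) (Nv x₁' y₁' x₂' y₂') →
  |x₁ * y₂ - y₁ * x₂| = |x₁' * y₂' - y₁' * x₂'| → 0 < x₁ → 0 ≤ y₁ → y₁ ≤ x₁ → y₁' ≤ x₁' →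
  y₁ ≤ y₁' → 0 < y₁' → Same x₁ y₁ x₂ y₂ x₁' y₁' x₂' y₂'

def S_Zero : Prop := ∀ x₁ x₂ y₂ x₁' x₂' y₂' : ℤ, Nm (Nv x₁ 0 x₂ y₂) →
  Nm (Nv x₁' 0 x₂' y₂') → PSpc (Nv x₁ 0 x₂ y₂) (Nv x₁' 0 x₂' y₂') → 0 < x₁ → 0 < x₁' →
  Same x₁ 0 x₂ y₂ x₁' 0 x₂' y₂'

def S_Core : Prop := ∀ x₁ y₁ x₂ y₂ x₁' y₁' x₂' y₂' : ℤ, Nm (Nv x₁ y₁ x₂ y₂) →
  Nm (Nv x₁' y₁' x₂' y₂') → PSpc (Nv x₁ y₁ x₂ y₂) (Nv x₁' y₁' x₂' y₂') →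
  |x₁ * y₂ - y₁ * x₂| = |x₁' * y₂' - y₁' * x₂'| → Same x₁ y₁ x₂ y₂ x₁' y₁' x₂' y₂'

/-- reduced bases -/
def S_Bas : Prop := ∀ Λ : AddSubgroup (ℤ × ℤ), Λ.index ≠ 0 → ∃ x₁ y₁ x₂ y₂ : ℤ,
  (∀ v, v ∈ Λ ↔ ∃ m n : ℤ, v = (m * x₁ + n * x₂, m * y₁ + n * y₂)) ∧
    |x₁ * y₂ - y₁ * x₂| = Λ.index ∧ Nm (Nv x₁ y₁ x₂ y₂)

/-! ### the group side -/

/-- an isomorphism from the pure quaternions onto `k` -/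
structure Rho {A : Type} [HS A] (k : Submodule ℝ A) (ρ : H →ₗ[ℝ] A) (c : ℝ) : Prop where
  pos : 0 < c
  one : ρ 1 = 0
  mem : ∀ v, ρ v ∈ k
  onto : ∀ X ∈ k, ∃ v, ρ v = X
  inner : ∀ v w, ⟪ρ v, ρ w⟫ = c ^ 2 * (c1 v * c1 w + c2 v * c2 w + c3 v * c3 w)
  map_br : ∀ v w, ρ (v * w - w * v) = br (ρ v) (ρ w)

variable {n : ℕ} {K : Subgroup (Matrix.unitaryGroup (Fin n) ℂ)}

/-- the covering of `K` by the unit quaternions -/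
structure Cov (k : Submodule ℝ (Mat n)) (π : U →* K) (ρ : H →ₗ[ℝ] Mat n) (c : ℝ) : Prop
    extends Rho k ρ c where
  cont : Continuous π
  surj : Function.Surjective π
  ker : ∀ a, π a = 1 → a = 1 ∨ a = -1
  map_exp : ∀ v, mat (π (eU v)) = exp (ρ v)
  map_Ad : ∀ (a : U) (v : H), Ad (mat (π a)) (ρ v) = ρ (a * v * star a)

/-- the action `x ↦ π a * x * (π b)⁻¹` -/
def Phi {G : Type} [Group G] (π : U →* G) : U × U →* Equiv.Perm G where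
  toFun p := (Equiv.mulLeft (π p.1)).trans (Equiv.mulRight (π p.2)⁻¹)
  map_one' := by ext; simp
  map_mul' p q := by ext; simp [mul_assoc]

theorem Phi_apply {G : Type} [Group G] (π : U →* G) (p : U × U) (x : G) :
    Phi π p x = π p.1 * x * (π p.2)⁻¹ := rfl

def S_Rho : Prop := ∀ (A : Type) [HS A] (k : Submodule ℝ A), SA k → Module.finrank ℝ k ≤ 3 →
  ∃ ρ c, Rho k ρ c

def S_Pi : Prop := ∀ (n : ℕ) (K : Subgroup (Matrix.unitaryGroup (Fin n) ℂ))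
  (k : Submodule ℝ (Mat n)), IsSimpleGroup K k → ∀ ρ c, Rho k ρ c → ∃ π : U →* K, Cov k π ρ c

/-- an isometry that is the identity near `1` is the identity -/
def S_Idn : Prop := ∀ (A : Type) [HS A] (K : Set A) (k : Submodule ℝ A), CG K k → SA k →
  ∀ g : A → A, (∀ x ∈ K, g x ∈ K) → (∀ x ∈ K, ∀ y ∈ K, cd K (g x) (g y) = cd K x y) →
    (∃ ε > 0, ∀ ξ ∈ k, ‖ξ‖ < ε → g (exp ξ) = exp ξ) → ∀ x ∈ K, g x = x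

/-- the local form of an isometry, and inversion -/
def S_Loc : Prop := ∀ (A : Type) [HS A] (K : Set A) (k : Submodule ℝ A), CG K k → SA k →
  (∀ x y, cd K (star x) (star y) = cd K x y) ∧
  ∀ g : A → A, (∀ x ∈ K, g x ∈ K) → (∀ x ∈ K, ∀ y ∈ K, cd K (g x) (g y) = cd K x y) →
    ∃ θ : A →ₗ[ℝ] A, Aut k θ ∧ ∃ ε > 0, (∀ ξ ∈ k, ‖ξ‖ < ε → g (exp ξ) = g 1 * exp (θ ξ)) ∨
      ∀ ξ ∈ k, ‖ξ‖ < ε → g (exp (-ξ)) = g 1 * exp (θ ξ)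

def S_IsoK : Prop := ∀ (n : ℕ) (K : Subgroup (Matrix.unitaryGroup (Fin n) ℂ))
  (k : Submodule ℝ (Mat n)), IsSimpleGroup K k → ∀ (π : U →* K) ρ c, Cov k π ρ c →
    ∀ g : Equiv.Perm K, (∀ x y, gdist (g x) (g y) = gdist x y) →
      ∃ p, (∀ x, g x = Phi π p x) ∨ ∀ x, g x = Phi π p x⁻¹

def S_Lift : Prop := ∀ (G : Type) [Group G] (π : U →* G), Function.Surjective π →
  (∀ a, π a = 1 → a = 1 ∨ a = -1) → ∀ Γ : Subgroup (Equiv.Perm G), Finite Γ →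
    (∀ g ∈ Γ, ∀ x, g x = x → g = 1) →
    (∀ g ∈ Γ, ∃ p, (∀ x, g x = Phi π p x) ∨ ∀ x, g x = Phi π p x⁻¹) →
    FreeG (Γ.comap (Phi π)) ∧ ∀ g ∈ Γ, ∃ p, g = Phi π p

def S_Desc : Prop := ∀ (n : ℕ) (K : Subgroup (Matrix.unitaryGroup (Fin n) ℂ))
  (k : Submodule ℝ (Mat n)), IsSimpleGroup K k → ∀ (π : U →* K)
    (Γ₁ Γ₂ : Subgroup (Equiv.Perm K)), (∀ g ∈ Γ₁, ∃ p, g = Phi π p) →
    (∀ g ∈ Γ₂, ∃ p, g = Phi π p) → Equi (Γ₁.comap (Phi π)) (Γ₂.comap (Phi π)) → Isometric Γ₁ Γ₂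

/-! ### the spectrum -/

/-- Green's formula -/
def S_Green : Prop := ∀ (G : Type) [Group G] [TopologicalSpace G] [IsTopologicalGroup G]
  [CompactSpace G] [MeasurableSpace G] [BorelSpace G] (μ : Measure G) [IsFiniteMeasure μ]
  [μ.IsMulRightInvariant] (e : Fin 3 → ℝ → G), OP e → ∀ f g : G → ℂ, C2 e f → C2 e g →
    ∫ x, Lap e f x * star (g x) ∂μ = ∫ x, f x * star (Lap e g x) ∂μ

/-- completeness of the polynomial eigenfunctions -/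
def S_Comp : Prop := ∀ (G : Type) [Group G] [TopologicalSpace G] [IsTopologicalGroup G]
  [CompactSpace G] [T2Space G] (e : Fin 3 → ℝ → G), OP e → ∀ V : Submodule ℂ (G → ℂ), V.FG →
    Stab e V → (∀ f ∈ V, star f ∈ V) → (∀ x y, (∀ f ∈ V, f x = f y) → x = y) →
    ∀ μ : ℝ, FiniteDimensional ℂ ↥(WE e μ ⊓ ⨆ d : ℕ, V ^ d) → WE e μ ≤ ⨆ d : ℕ, V ^ d

def S_Harm1 : Prop := Stab eq3 PP ∧ (∀ k, QQ k ≤ PP ^ k) ∧ ∀ k : ℕ, ∀ f ∈ PP ^ k,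
  Lap eq3 f - ((k * (k + 2) : ℝ) : ℂ) • f ∈ QQ k ∧ ∀ p, Lap eq3 (act p f) = act p (Lap eq3 f)

def S_Harm : Prop := ∀ k : ℕ, WE eq3 (k * (k + 2)) ⊓ QQ k = ⊥ ∧
  WE eq3 (k * (k + 2)) ⊔ QQ k = PP ^ k ∧ ∀ p, ∀ f ∈ WE eq3 (k * (k + 2)),
    act p f ∈ WE eq3 (k * (k + 2))

/-- monomials of a given degree are linearly independent on the sphere -/
def S_Mon : Prop := ∀ k : ℕ, ∃ b : Module.Basis {d : Fin 4 →₀ ℕ // d.degree = k} ℂ ↥(PP ^ k),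
  ∀ d (x : U), (b d).1 x = ∏ a, zH a x ^ d.1 a

def S_Trace : Prop := ∀ p : U × U, tP 0 p = 1 ∧ tP 1 p = (chi (c0 p.1) 1 * chi (c0 p.2) 1 : ℝ) ∧
  ∀ k, tP (k + 2) p = tP k p + (chi (c0 p.1) (k + 2) * chi (c0 p.2) (k + 2) : ℝ)

def S_Dim : Prop := ∀ Γ : Subgroup (U × U), Finite Γ → ∀ k : ℕ,
  (Module.finrank ℂ ↥(WE eq3 (k * (k + 2)) ⊓ InvU Γ) : ℝ) = mk Γ k

def S_Pull1 : Prop := ∀ (G : Type) [Group G] [TopologicalSpace G] [T2Space G] (π : U →* G),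
  Continuous π → Function.Surjective π → ∀ Γ : Subgroup (Equiv.Perm G),
    (∀ g ∈ Γ, ∃ p, g = Phi π p) → ∀ μ : ℝ,
    Nonempty (↥(WE (fun i t => π (eq3 i t)) μ ⊓ Inv Γ) ≃ₗ[ℂ]
      ↥(WE eq3 μ ⊓ InvU (Γ.comap (Phi π))))

/-- the Laplacian of a smooth function does not depend on the orthonormal basis -/
def S_Onb : Prop := ∀ (n : ℕ) (K : Subgroup (Matrix.unitaryGroup (Fin n) ℂ))
  (k : Submodule ℝ (Mat n)) (π : U →* K) ρ c, Cov k π ρ c → ∀ F : Mat n → ℂ,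
    ContDiff ℝ (⊤ : ℕ∞) F → C2 (fun i t => π (eq3 i t)) (fun x : K => F (mat x)) ∧
      IsONB k (fun i : Fin 3 => c⁻¹ • ρ (bq i)) ∧
      ∀ (m : ℕ) (X : Fin m → Mat n), IsONB k X → ∀ x : K,
        (c ^ 2 : ℂ) * -∑ i, iteratedDeriv 2 (fun t : ℝ => F (mat x * exp (t • X i))) 0 =
          Lap (fun i t => π (eq3 i t)) (fun x : K => F (mat x)) x

def S_Pull2 : Prop := ∀ (n : ℕ) (K : Subgroup (Matrix.unitaryGroup (Fin n) ℂ))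
  (k : Submodule ℝ (Mat n)), IsSimpleGroup K k → ∀ (π : U →* K) ρ c, Cov k π ρ c → ∀ μ : ℝ,
    FiniteDimensional ℂ ↥(WE (fun i t => π (eq3 i t)) μ) → ∀ Γ : Subgroup (Equiv.Perm K),
      Eig k Γ (μ / c ^ 2) = WE (fun i t => π (eq3 i t)) μ ⊓ Inv Γ

end

end Pool.Agent.P.MP_e311cd_gt
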