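import Pool.Agent.P.MP_e311cd_gt.I.St

/-! Setting for the decision tree for planar lattices with equal sup norm spectra. -/

namespace Pool.Agent.P.MP_e311cd_gt

namespace TreeI

def M0 (v X Y : ℤ) : Prop := v = X ∧ -X ≤ X ∧ Y ≤ X ∧ -Y ≤ X
def M1 (v X Y : ℤ) : Prop := v = -X ∧ X < -X ∧ Y ≤ -X ∧ -Y ≤ -X
def M2 (v X Y : ℤ) : Prop := v = Y ∧ X < Y ∧ -X < Y ∧ -Y ≤ Y
def M3 (v X Y : ℤ) : Prop := v = -Y ∧ X < -Y ∧ -X < -Y ∧ Y < -Y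
/-- `v = max |X| |Y|`, by cases -/
def M (v X Y : ℤ) : Prop := M0 v X Y ∨ M1 v X Y ∨ M2 v X Y ∨ M3 v X Y

theorem M.mk (X Y : ℤ) : M (max |X| |Y|) X Y := by
  simp only [M, M0, M1, M2, M3, abs_eq_max_neg]; omega

theorem M.m0 {v X Y : ℤ} (h : M v X Y) (_ : -X ≤ X) (_ : Y ≤ X) (_ : -Y ≤ X) : v = X := by
  simp only [M, M0, M1, M2, M3] at h; omega
theorem M.m1 {v X Y : ℤ} (h : M v X Y) (_ : X ≤ -X) (_ : Y ≤ -X) (_ : -Y ≤ -X) : v = -X := by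
  simp only [M, M0, M1, M2, M3] at h; omega
theorem M.m2 {v X Y : ℤ} (h : M v X Y) (_ : X ≤ Y) (_ : -X ≤ Y) (_ : -Y ≤ Y) : v = Y := by
  simp only [M, M0, M1, M2, M3] at h; omega
theorem M.m3 {v X Y : ℤ} (h : M v X Y) (_ : X ≤ -Y) (_ : -X ≤ -Y) (_ : Y ≤ -Y) : v = -Y := by
  simp only [M, M0, M1, M2, M3] at h; omega

structure Ctx (s : ℤ) (f g : ℤ × ℤ → ℤ) (x1 y1 x2 y2 u1 v1 u2 v2 : ℤ) : Prop where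
  S : ∀ L L', Con f g L L' → L ≠ [] →
    Br (fun A e B => Fst f A e B ∧ Br (fun A' e' B' => Fst g A' e' B' ∧
      f (e.1 + e.2) = g (e'.1 + e'.2) ∧
      Con f g (A ++ (e.1, e.1 + e.2) :: (e.1 + e.2, e.2) :: B)
        (A' ++ (e'.1, e'.1 + e'.2) :: (e'.1 + e'.2, e'.2) :: B')) [] L') [] L
  F : ∀ m n : ℤ, M (f (m, n)) (m * x1 + n * x2) (m * y1 + n * y2)
  G : ∀ m n : ℤ, M (g (m, n)) (m * u1 + n * u2) (m * v1 + n * v2)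
  k : x1 * y2 - y1 * x2 = s * (u1 * v2 - v1 * u2)
  H : Con f g [((1, 0), (1, 1)), ((1, 1), (0, 1)), ((0, 1), (-1, 0))]
    [((1, 0), (1, 1)), ((1, 1), (0, 1)), ((0, 1), (-1, 0))]
  R : 0 < x1 ∧ 0 ≤ y1 ∧ y1 ≤ x1 ∧ v1 ≤ u1 ∧ y1 ≤ v1 ∧ 0 < v1 ∧ x1 = u1 ∧ x1 ≤ f (0, 1) ∧
    f (0, 1) = g (0, 1) ∧ f (0, 1) ≤ f (1, 1) ∧ f (1, 1) ≤ f (-1, 1) ∧ f (1, 1) = g (1, 1) ∧
    g (1, 1) ≤ g (-1, 1)

end TreeI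

end Pool.Agent.P.MP_e311cd_gt
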