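import Pool.Agent.P.MP_e311cd_gt.I.Tr0

/-! Part of the decision tree (generated). -/

namespace Pool.Agent.P.MP_e311cd_gt

namespace TreeI

variable {f g : ℤ × ℤ → ℤ} {x1 y1 x2 y2 u1 v1 u2 v2 : ℤ}

theorem tp00 (C : Ctx (1) f g x1 y1 x2 y2 u1 v1 u2 v2)
    (c : M0 (f (0, 1)) (0 * x1 + 1 * x2) (0 * y1 + 1 * y2))
    (d : M0 (g (0, 1)) (0 * u1 + 1 * u2) (0 * v1 + 1 * v2)) :
    Same x1 y1 x2 y2 u1 v1 u2 v2 := by
  have H := C.H
  obtain ⟨a1, a2, a3, a4, a5, a6, a7, b1, b2, b3, b4, b5, b6⟩ := C.R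
  obtain ⟨f0_1, c1, c2, c3⟩ := c
  obtain ⟨g0_1, d1, d2, d3⟩ := d
  have f1_1 := (C.F 1 1).m0
    (by clear * - c3 c2 a7 a6 a4; omega) (by clear * - c2 a7 a5 a4; omega) (by clear * - c3 a7 a6 a4 a2; omega)
  obtain ⟨fm1_1, h1, h2, h3⟩ | ⟨-, h4, h5, h6⟩ | ⟨fm1_1, h7, h8, h9⟩ | ⟨fm1_1, h10, h11, h12⟩ := C.F (-1) 1
  · clear * - b4 fm1_1 f1_1 a7 a6 a4; omega
  · clear * - h4 b1 f0_1; omega
  · clear * - b4 fm1_1 f1_1 h7 c2 a2; omega
  · have g1_1 := (C.G 1 1).m0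
      (by clear * - b3 f0_1 f1_1 d3 d2 a7; omega) (by clear * - d2 a4; omega) (by clear * - b3 f0_1 f1_1 d3 a7 a6; omega)
    obtain ⟨gm1_1, h13, h14, h15⟩ | ⟨-, h16, h17, h18⟩ | ⟨-, h19, h20, h21⟩ | ⟨gm1_1, h22, h23, h24⟩ := C.G (-1) 1
    · clear * - b6 g1_1 gm1_1 a6 a4; omega
    · clear * - h16 b5 g1_1 f1_1 b2 f0_1 g0_1 b1; omega
    · clear * - h19 b5 g1_1 f1_1 b4 fm1_1 d2 c3 b2 f0_1 g0_1 a5; omega
    · refine ⟨-1, 0, 0, -1, -1, -1, by norm_num, by norm_num, by norm_num, Or.inl ⟨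
        by clear * - b5 g1_1 f1_1 b2 f0_1 g0_1; omega,
        by clear * - b5 g1_1 f1_1 b4 fm1_1 c3 b2 f0_1 g0_1 a5 a4; omega,
        by clear * - b2 f0_1 g0_1; omega,
        by clear * - b6 g1_1 gm1_1 b5 f1_1 b4 fm1_1 d3 c3 b2 f0_1 g0_1 a5 a4; omega⟩⟩

theorem tp01 (C : Ctx (1) f g x1 y1 x2 y2 u1 v1 u2 v2)
    (c : M0 (f (0, 1)) (0 * x1 + 1 * x2) (0 * y1 + 1 * y2))
    (d : M1 (g (0, 1)) (0 * u1 + 1 * u2) (0 * v1 + 1 * v2)) :
    Same x1 y1 x2 y2 u1 v1 u2 v2 := by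
  have H := C.H
  obtain ⟨a1, a2, a3, a4, a5, a6, a7, b1, b2, b3, b4, b5, b6⟩ := C.R
  obtain ⟨f0_1, c1, c2, c3⟩ := c
  obtain ⟨g0_1, d1, d2, d3⟩ := d
  have f1_1 := (C.F 1 1).m0
    (by clear * - c3 c2 a7 a6 a4; omega) (by clear * - c2 a7 a5 a4; omega) (by clear * - c3 a7 a6 a4 a2; omega)
  obtain ⟨fm1_1, h1, h2, h3⟩ | ⟨-, h4, h5, h6⟩ | ⟨fm1_1, h7, h8, h9⟩ | ⟨fm1_1, h10, h11, h12⟩ := C.F (-1) 1
  · clear * - b4 fm1_1 f1_1 a7 a6 a4; omega
  · clear * - h4 b1 f0_1; omega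
  · clear * - b4 fm1_1 f1_1 h7 c2 a2; omega
  · obtain ⟨g1_1, h13, h14, h15⟩ | ⟨g1_1, h16, h17, h18⟩ | ⟨g1_1, h19, h20, h21⟩ | ⟨-, h22, h23, h24⟩ := C.G 1 1
    · clear * - b5 g1_1 f1_1 d1 c3 c2 a7; omega
    · clear * - b5 g1_1 f1_1 b3 f0_1 b2 g0_1 a6 a4; omega
    · have gm1_1 := (C.G (-1) 1).m1
        (by clear * - b5 g1_1 f1_1 h20 b2 f0_1 g0_1 b1; omega) (by clear * - h20 d2; omega) (by clear * - d3 a4; omega)
      refine ⟨-1, 0, 0, -1, -1, -1, by norm_num, by norm_num, by norm_num, Or.inr ⟨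
        by clear * - b5 g1_1 f1_1 d2 b2 f0_1 g0_1 a7 a4; omega,
        by clear * - b4 fm1_1 f1_1 c3 a7 a5 a4; omega,
        by clear * - b5 g1_1 f1_1 d2 b2 f0_1 g0_1 a7 a4; omega,
        by clear * - b4 fm1_1 f1_1 c3 b2 f0_1 g0_1 a7 a5 a4; omega⟩⟩
    · clear * - h23 b4 fm1_1 f1_1 d3 c3 a7 a5; omega

theorem tp02 (C : Ctx (1) f g x1 y1 x2 y2 u1 v1 u2 v2)
    (c : M0 (f (0, 1)) (0 * x1 + 1 * x2) (0 * y1 + 1 * y2))
    (d : M2 (g (0, 1)) (0 * u1 + 1 * u2) (0 * v1 + 1 * v2)) :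
    Same x1 y1 x2 y2 u1 v1 u2 v2 := by
  have H := C.H
  obtain ⟨a1, a2, a3, a4, a5, a6, a7, b1, b2, b3, b4, b5, b6⟩ := C.R
  obtain ⟨f0_1, c1, c2, c3⟩ := c
  obtain ⟨g0_1, d1, d2, d3⟩ := d
  have f1_1 := (C.F 1 1).m0
    (by clear * - c3 c2 a7 a6 a4; omega) (by clear * - c2 a7 a5 a4; omega) (by clear * - c3 a7 a6 a4 a2; omega)
  obtain ⟨fm1_1, h1, h2, h3⟩ | ⟨-, h4, h5, h6⟩ | ⟨fm1_1, h7, h8, h9⟩ | ⟨fm1_1, h10, h11, h12⟩ := C.F (-1) 1
  · clear * - b4 fm1_1 f1_1 a7 a6 a4; omega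
  · clear * - h4 b1 f0_1; omega
  · clear * - b4 fm1_1 f1_1 h7 c2 a2; omega
  · have g1_1 := (C.G 1 1).m2
      (by clear * - b4 fm1_1 f1_1 d1 c3 a7 a5; omega) (by clear * - b3 f0_1 f1_1 d2 a7 a6; omega) (by clear * - d3 a6; omega)
    obtain ⟨-, h13, h14, h15⟩ | ⟨gm1_1, h16, h17, h18⟩ | ⟨gm1_1, h19, h20, h21⟩ | ⟨-, h22, h23, h24⟩ := C.G (-1) 1
    · clear * - h14 b5 g1_1 f1_1 d1 b2 f0_1 g0_1 a7; omega
    · clear * - b6 g1_1 gm1_1 b5 f1_1 d2 b2 f0_1 g0_1 a7; omega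
    · clear * - b6 g1_1 gm1_1 a6; omega
    · clear * - h24 b5 g1_1 f1_1 b2 f0_1 g0_1 b1; omega

theorem tp03 (C : Ctx (1) f g x1 y1 x2 y2 u1 v1 u2 v2)
    (c : M0 (f (0, 1)) (0 * x1 + 1 * x2) (0 * y1 + 1 * y2))
    (d : M3 (g (0, 1)) (0 * u1 + 1 * u2) (0 * v1 + 1 * v2)) :
    Same x1 y1 x2 y2 u1 v1 u2 v2 := by
  have H := C.H
  obtain ⟨a1, a2, a3, a4, a5, a6, a7, b1, b2, b3, b4, b5, b6⟩ := C.R
  obtain ⟨f0_1, c1, c2, c3⟩ := c
  obtain ⟨g0_1, d1, d2, d3⟩ := d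
  have f1_1 := (C.F 1 1).m0
    (by clear * - c3 c2 a7 a6 a4; omega) (by clear * - c2 a7 a5 a4; omega) (by clear * - c3 a7 a6 a4 a2; omega)
  obtain ⟨fm1_1, h1, h2, h3⟩ | ⟨-, h4, h5, h6⟩ | ⟨fm1_1, h7, h8, h9⟩ | ⟨fm1_1, h10, h11, h12⟩ := C.F (-1) 1
  · clear * - b4 fm1_1 f1_1 a7 a6 a4; omega
  · clear * - h4 b1 f0_1; omega
  · clear * - b4 fm1_1 f1_1 h7 c2 a2; omega
  · obtain ⟨g1_1, h13, h14, h15⟩ | ⟨-, h16, h17, h18⟩ | ⟨-, h19, h20, h21⟩ | ⟨g1_1, h22, h23, h24⟩ := C.G 1 1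
    · clear * - b5 g1_1 f1_1 d1 b2 f0_1 g0_1 a7; omega
    · clear * - h18 d2 a4; omega
    · clear * - h19 d2 a4; omega
    · clear * - b5 g1_1 f1_1 b3 f0_1 b2 g0_1 a6; omega

theorem tp10 (C : Ctx (1) f g x1 y1 x2 y2 u1 v1 u2 v2)
    (c : M1 (f (0, 1)) (0 * x1 + 1 * x2) (0 * y1 + 1 * y2))
    (d : M0 (g (0, 1)) (0 * u1 + 1 * u2) (0 * v1 + 1 * v2)) :
    Same x1 y1 x2 y2 u1 v1 u2 v2 := by
  have H := C.H
  obtain ⟨a1, a2, a3, a4, a5, a6, a7, b1, b2, b3, b4, b5, b6⟩ := C.R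
  obtain ⟨f0_1, c1, c2, c3⟩ := c
  obtain ⟨g0_1, d1, d2, d3⟩ := d
  obtain ⟨f1_1, h1, h2, h3⟩ | ⟨f1_1, h4, h5, h6⟩ | ⟨f1_1, h7, h8, h9⟩ | ⟨f1_1, h10, h11, h12⟩ := C.F 1 1
  · clear * - b3 f0_1 f1_1 c1 b1; omega
  · clear * - b3 f0_1 f1_1 a7 a6 a4; omega
  · have fm1_1 := (C.F (-1) 1).m1
      (by clear * - h8 c3 c2 a7 a5 a4; omega) (by clear * - h8 c2; omega) (by clear * - c3 a7 a5 a4; omega)
    have g1_1 := (C.G 1 1).m0
      (by clear * - b4 fm1_1 f1_1 b3 f0_1 d3 d2 a7; omega) (by clear * - d2 a4; omega) (by clear * - b4 fm1_1 f1_1 b3 f0_1 d3 a7 a6; omega)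
    obtain ⟨gm1_1, h13, h14, h15⟩ | ⟨-, h16, h17, h18⟩ | ⟨-, h19, h20, h21⟩ | ⟨gm1_1, h22, h23, h24⟩ := C.G (-1) 1
    · clear * - b6 g1_1 gm1_1 b4 fm1_1 f1_1 h8 a7; omega
    · clear * - h16 b5 g1_1 f1_1 b4 fm1_1 b2 f0_1 g0_1 b1; omega
    · clear * - h19 b5 g1_1 f1_1 d2 c2 b2 f0_1 g0_1 a5; omega
    · refine ⟨-1, 0, 0, -1, -1, -1, by norm_num, by norm_num, by norm_num, Or.inr ⟨
        by clear * - b6 g1_1 gm1_1 b5 f1_1 b4 fm1_1 d3 b2 f0_1 g0_1 a7 a4; omega,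
        by clear * - b5 g1_1 f1_1 c2 b2 f0_1 g0_1 a5 a4; omega,
        by clear * - b6 g1_1 gm1_1 d3 b2 f0_1 g0_1 a4; omega,
        by clear * - b5 g1_1 f1_1 c2 b2 f0_1 g0_1 a5 a4; omega⟩⟩
  · have fm1_1 := (C.F (-1) 1).m1
      (by clear * - c3 c2 a7 a6 a4; omega) (by clear * - c2 a7 a6 a4 a2; omega) (by clear * - h11 c3; omega)
    have g1_1 := (C.G 1 1).m0
      (by clear * - b4 fm1_1 f1_1 b3 f0_1 d3 d2 a7; omega) (by clear * - d2 a4; omega) (by clear * - b4 fm1_1 f1_1 b3 f0_1 d3 a7 a6; omega)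
    clear * - b5 g1_1 f1_1 c3 b2 f0_1 g0_1 a6 a4 a2; omega

theorem tp11 (C : Ctx (1) f g x1 y1 x2 y2 u1 v1 u2 v2)
    (c : M1 (f (0, 1)) (0 * x1 + 1 * x2) (0 * y1 + 1 * y2))
    (d : M1 (g (0, 1)) (0 * u1 + 1 * u2) (0 * v1 + 1 * v2)) :
    Same x1 y1 x2 y2 u1 v1 u2 v2 := by
  have H := C.H
  obtain ⟨a1, a2, a3, a4, a5, a6, a7, b1, b2, b3, b4, b5, b6⟩ := C.R
  obtain ⟨f0_1, c1, c2, c3⟩ := c
  obtain ⟨g0_1, d1, d2, d3⟩ := d
  obtain ⟨f1_1, h1, h2, h3⟩ | ⟨f1_1, h4, h5, h6⟩ | ⟨f1_1, h7, h8, h9⟩ | ⟨f1_1, h10, h11, h12⟩ := C.F 1 1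
  · clear * - b3 f0_1 f1_1 c1 b1; omega
  · clear * - b3 f0_1 f1_1 a7 a6 a4; omega
  · have fm1_1 := (C.F (-1) 1).m1
      (by clear * - h8 c3 c2 a7 a5 a4; omega) (by clear * - h8 c2; omega) (by clear * - c3 a7 a5 a4; omega)
    obtain ⟨g1_1, h13, h14, h15⟩ | ⟨g1_1, h16, h17, h18⟩ | ⟨g1_1, h19, h20, h21⟩ | ⟨g1_1, h22, h23, h24⟩ := C.G 1 1
    · clear * - b5 g1_1 f1_1 h7 b2 f0_1 g0_1 a7; omega
    · clear * - b5 g1_1 f1_1 h8 b2 f0_1 g0_1 a7; omega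
    · have gm1_1 := (C.G (-1) 1).m1
        (by clear * - b5 g1_1 f1_1 h20 b4 fm1_1 b2 f0_1 g0_1 b1; omega) (by clear * - h20 d2; omega) (by clear * - d3 a4; omega)
      have q : (y1 - v1) * (-x1 - x2) = 0 := by
        have E0 : -x1 + u1 = 0 := by clear * - a7; omega
        have E1 : -x2 + u2 = 0 := by clear * - b2 f0_1 g0_1; omega
        have E2 : -y1 - y2 + v1 + v2 = 0 := by clear * - b5 g1_1 f1_1; omega
        have q : 1 * ((y1 - v1) * (-x1 - x2)) = 0 := by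
          linear_combination (1) * C.k + (v2) * E0 + (-v1) * E1 + (x1) * E2
        linarith only [q]
      obtain h25 | h25 := mul_eq_zero.mp q
      · refine ⟨-1, 0, 0, -1, -1, -1, by norm_num, by norm_num, by norm_num, Or.inl ⟨
          by clear * - a7; omega,
          by clear * - h25; omega,
          by clear * - b2 f0_1 g0_1; omega,
          by clear * - h25 b5 g1_1 f1_1; omega⟩⟩
      · have f2_1 := (C.F 2 1).m2
          (by clear * - h25 b3 f0_1 f1_1 c2; omega) (by clear * - h25 b5 g1_1 f1_1 h21 c2; omega) (by clear * - b5 g1_1 f1_1 h21 b3 f0_1 c2; omega)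
        have f1_2 := (C.F 1 2).m2
          (by clear * - h25 b5 g1_1 f1_1 h21 c3; omega) (by clear * - b3 f0_1 f1_1 a7 a5 a4; omega) (by clear * - b3 f0_1 f1_1 c3; omega)
        have g2_1 := (C.G 2 1).m2
          (by clear * - h25 b5 g1_1 f1_1 b3 f0_1 d2 a7; omega) (by clear * - h20 d2; omega) (by clear * - b5 g1_1 f1_1 h21 b3 f0_1 d2 b2 g0_1; omega)
        have g1_2 := (C.G 1 2).m2
          (by clear * - h19 d3; omega) (by clear * - b5 g1_1 f1_1 b3 f0_1 b2 g0_1 a4; omega) (by clear * - b5 g1_1 f1_1 b3 f0_1 d3 b2 g0_1; omega)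
        replace H := C.S _ _ H (List.cons_ne_nil _ _)
        simp only [Br_cons, Br_nil, Fst, List.nil_append, List.cons_append, List.forall_mem_cons, List.not_mem_nil, false_imp_iff, implies_true, Prod.mk_add_mk, Int.reduceAdd, f2_1, f1_2, fm1_1, g2_1, g1_2, gm1_1] at H
        obtain ⟨⟨-, ⟨h26, h27, -⟩⟩, H⟩ | ⟨⟨⟨h28, -⟩, ⟨h29, -⟩⟩, H⟩ | ⟨⟨⟨h30, h31, -⟩, -⟩, H⟩ | ⟨⟨⟩⟩ := H
        · obtain ⟨⟨-, ⟨h32, h33, -⟩⟩, h38, H⟩ | ⟨⟨⟨h34, -⟩, ⟨h35, -⟩⟩, h38, H⟩ | ⟨⟨⟨h36, h37, -⟩, -⟩, h38, H⟩ | ⟨⟨⟩⟩ := H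
          · refine ⟨-1, 0, 0, -1, -1, -1, by norm_num, by norm_num, by norm_num, Or.inl ⟨
              by clear * - a7; omega,
              by clear * - h38 b5 g1_1 f1_1; omega,
              by clear * - b2 f0_1 g0_1; omega,
              by clear * - h38 b5 g1_1 f1_1; omega⟩⟩
          · refine ⟨0, -1, -1, 0, 1, -1, by norm_num, by norm_num, by norm_num, Or.inl ⟨
              by clear * - h25 a7; omega,
              by clear * - h38 b5 g1_1 f1_1; omega,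
              by clear * - h25 b2 f0_1 g0_1; omega,
              by clear * - h38 b5 g1_1 f1_1; omega⟩⟩
          · have f3_1 := (C.F 3 1).m2
              (by clear * - h38 h25 b6 g1_1 gm1_1 b5 f1_1 b2 f0_1 g0_1 a7; omega) (by clear * - h38 h37 h36 h27 h25 b6 g1_1 gm1_1 b5 f1_1; omega) (by clear * - h38 h37 h36 b6 g1_1 gm1_1 b5 f1_1; omega)
            have f3_2 := (C.F 3 2).m2
              (by clear * - h38 h37 h36 h25 b6 g1_1 gm1_1 b3 f0_1 f1_1; omega) (by clear * - h38 h37 h36 h27 h26 h25 b6 g1_1 gm1_1; omega) (by clear * - h38 h37 h36 h26 b6 g1_1 gm1_1; omega)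
            have gm1_2 := (C.G (-1) 2).m1
              (by clear * - h37 h36 b6 g1_1 gm1_1 h19; omega) (by clear * - h36 b6 g1_1 gm1_1 d2; omega) (by clear * - h37 b6 g1_1 gm1_1 h19; omega)
            have gm2_1 := (C.G (-2) 1).m1
              (by clear * - h37 h36 b6 g1_1 gm1_1 h20; omega) (by clear * - h36 b6 g1_1 gm1_1 h20; omega) (by clear * - h38 h37 h25 b6 g1_1 gm1_1 b5 f1_1 c2 a7; omega)
            replace H := C.S _ _ H (List.cons_ne_nil _ _)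
            simp only [Br_cons, Br_nil, Fst, List.nil_append, List.cons_append, List.forall_mem_cons, List.not_mem_nil, false_imp_iff, implies_true, Prod.mk_add_mk, Int.reduceAdd, f3_1, f3_2, f1_2, fm1_1, g2_1, g1_2, gm1_2, gm2_1] at H
            obtain ⟨⟨-, ⟨h39, h40, h41, -⟩⟩, H⟩ | ⟨⟨⟨h42, -⟩, ⟨h43, h44, -⟩⟩, H⟩ | ⟨⟨⟨h45, h46, -⟩, ⟨h47, -⟩⟩, H⟩ | ⟨⟨⟨h48, h49, h50, -⟩, -⟩, H⟩ | ⟨⟨⟩⟩ := H
            · clear * - h41 h38 b5 g1_1 f1_1 h20 c2 b2 f0_1 g0_1 a7; omega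
            · clear * - h43 h42 h38 h37 h36 b6 g1_1 gm1_1; omega
            · clear * - h47 h38 h37 h36 b5 g1_1 f1_1 b2 f0_1 g0_1 a7; omega
            · obtain ⟨⟨-, ⟨h51, h52, h53, -⟩⟩, h63, H⟩ | ⟨⟨⟨h54, -⟩, ⟨h55, h56, -⟩⟩, h63, H⟩ | ⟨⟨⟨h57, h58, -⟩, ⟨h59, -⟩⟩, h63, H⟩ | ⟨⟨⟨h60, h61, h62, -⟩, -⟩, h63, H⟩ | ⟨⟨⟩⟩ := H
              · clear * - h63 h36 b2 f0_1 g0_1 a7; omega
              · clear * - h63 h37 b2 f0_1 g0_1 a7; omega
              · clear * - h63 h58 h48 h38 b5 g1_1 f1_1 h19 d2; omega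
              · clear * - h63 h61 h60 h38 h25 b5 g1_1 f1_1 h20 c2 b2 f0_1 g0_1; omega
        · obtain ⟨⟨-, ⟨h64, h65, -⟩⟩, h70, H⟩ | ⟨⟨⟨h66, -⟩, ⟨h67, -⟩⟩, h70, H⟩ | ⟨⟨⟨h68, h69, -⟩, -⟩, h70, H⟩ | ⟨⟨⟩⟩ := H
          · clear * - h70 h28 b5 g1_1 f1_1 a5; omega
          · refine ⟨-1, 0, 0, -1, -1, -1, by norm_num, by norm_num, by norm_num, Or.inl ⟨
              by clear * - a7; omega,
              by clear * - h70 b5 g1_1 f1_1; omega,
              by clear * - b2 f0_1 g0_1; omega,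
              by clear * - h70 b5 g1_1 f1_1; omega⟩⟩
          · clear * - h70 h69 b5 g1_1 f1_1 a5; omega
        · obtain ⟨⟨-, ⟨h71, h72, -⟩⟩, h77, H⟩ | ⟨⟨⟨h73, -⟩, ⟨h74, -⟩⟩, h77, H⟩ | ⟨⟨⟨h75, h76, -⟩, -⟩, h77, H⟩ | ⟨⟨⟩⟩ := H
          · clear * - h77 h30 b5 g1_1 f1_1 a5; omega
          · have fm1_2 := (C.F (-1) 2).m1
              (by clear * - h31 h30 h25 b4 fm1_1 f1_1; omega) (by clear * - h30 b4 fm1_1 f1_1 c2; omega) (by clear * - h31 h30 h25 b4 fm1_1 f1_1; omega)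
            have fm2_1 := (C.F (-2) 1).m1
              (by clear * - h31 h30 h25 b4 fm1_1 f1_1; omega) (by clear * - h31 h30 h25 b4 fm1_1 f1_1; omega) (by clear * - h77 h31 b5 g1_1 f1_1 b4 fm1_1 a7 a4; omega)
            have g2_3 := (C.G 2 3).m2
              (by clear * - h77 b6 g1_1 gm1_1 b5 f1_1 h19 b4 fm1_1; omega) (by clear * - h77 h25 b6 g1_1 gm1_1 h20 b2 f0_1 g0_1; omega) (by clear * - h77 h31 h30 h21 b4 fm1_1 f1_1; omega)
            have g1_3 := (C.G 1 3).m2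
              (by clear * - h77 b6 g1_1 gm1_1 b5 f1_1 h19 b4 fm1_1; omega) (by clear * - h77 h25 b6 g1_1 gm1_1 b2 f0_1 g0_1; omega) (by clear * - h77 h31 h30 b5 g1_1 f1_1 b4 fm1_1; omega)
            replace H := C.S _ _ H (List.cons_ne_nil _ _)
            simp only [Br_cons, Br_nil, Fst, List.nil_append, List.cons_append, List.forall_mem_cons, List.not_mem_nil, false_imp_iff, implies_true, Prod.mk_add_mk, Int.reduceAdd, f2_1, f1_2, fm1_2, fm2_1, g2_1, g2_3, g1_3, gm1_1] at H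
            obtain ⟨⟨-, ⟨h78, h79, h80, -⟩⟩, H⟩ | ⟨⟨⟨h81, -⟩, ⟨h82, h83, -⟩⟩, H⟩ | ⟨⟨⟨h84, h85, -⟩, ⟨h86, -⟩⟩, H⟩ | ⟨⟨⟨h87, h88, h89, -⟩, -⟩, H⟩ | ⟨⟨⟩⟩ := H
            · obtain ⟨⟨-, ⟨h90, h91, h92, -⟩⟩, h102, H⟩ | ⟨⟨⟨h93, -⟩, ⟨h94, h95, -⟩⟩, h102, H⟩ | ⟨⟨⟨h96, h97, -⟩, ⟨h98, -⟩⟩, h102, H⟩ | ⟨⟨⟨h99, h100, h101, -⟩, -⟩, h102, H⟩ | ⟨⟨⟩⟩ := H
              · clear * - h102 h78 h73 b5 g1_1 f1_1; omega
              · clear * - h102 h94 h93 h80 h79 h30; omega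
              · clear * - h102 h98 h30 b2 f0_1 g0_1 a7; omega
              · clear * - h102 h30 b2 f0_1 g0_1 a7; omega
            · obtain ⟨⟨-, ⟨h103, h104, h105, -⟩⟩, h115, H⟩ | ⟨⟨⟨h106, -⟩, ⟨h107, h108, -⟩⟩, h115, H⟩ | ⟨⟨⟨h109, h110, -⟩, ⟨h111, -⟩⟩, h115, H⟩ | ⟨⟨⟨h112, h113, h114, -⟩, -⟩, h115, H⟩ | ⟨⟨⟩⟩ := H
              · clear * - h115 h81 h73 b5 g1_1 f1_1; omega
              · clear * - h115 h107 h83 h82 h73 h31; omega
              · clear * - h115 h111 h31 b2 f0_1 g0_1 a7; omega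
              · clear * - h115 h31 b2 f0_1 g0_1 a7; omega
            · clear * - h85 h84 h25 b4 fm1_1 f1_1; omega
            · clear * - h89 h25; omega
          · have fm1_2 := (C.F (-1) 2).m1
              (by clear * - h77 h76 h75 h25 b6 g1_1 gm1_1; omega) (by clear * - h77 h30 b6 g1_1 gm1_1 b5 f1_1 c2; omega) (by clear * - h77 h76 h75 h31 h25 b6 g1_1 gm1_1 b5 f1_1; omega)
            have fm2_1 := (C.F (-2) 1).m1
              (by clear * - h77 h76 h75 h25 b6 g1_1 gm1_1; omega) (by clear * - h77 h76 h75 h30 h25 b6 g1_1 gm1_1 b5 f1_1; omega) (by clear * - h77 h31 b6 g1_1 gm1_1 b5 f1_1 b2 f0_1 g0_1 a5 a4; omega)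
            have gm1_2 := (C.G (-1) 2).m1
              (by clear * - h76 h75 b6 g1_1 gm1_1 h19; omega) (by clear * - h75 b6 g1_1 gm1_1 d2; omega) (by clear * - h76 b6 g1_1 gm1_1 h19; omega)
            have gm2_1 := (C.G (-2) 1).m1
              (by clear * - h76 h75 b6 g1_1 gm1_1 h20; omega) (by clear * - h75 b6 g1_1 gm1_1 h20; omega) (by clear * - h76 b6 g1_1 gm1_1 a4; omega)
            replace H := C.S _ _ H (List.cons_ne_nil _ _)
            simp only [Br_cons, Br_nil, Fst, List.nil_append, List.cons_append, List.forall_mem_cons, List.not_mem_nil, false_imp_iff, implies_true, Prod.mk_add_mk, Int.reduceAdd, f2_1, f1_2, fm1_2, fm2_1, g2_1, g1_2, gm1_2, gm2_1] at H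
            obtain ⟨⟨-, ⟨h116, h117, h118, -⟩⟩, H⟩ | ⟨⟨⟨h119, -⟩, ⟨h120, h121, -⟩⟩, H⟩ | ⟨⟨⟨h122, h123, -⟩, ⟨h124, -⟩⟩, H⟩ | ⟨⟨⟨h125, h126, h127, -⟩, -⟩, H⟩ | ⟨⟨⟩⟩ := H
            · obtain ⟨⟨-, ⟨h128, h129, h130, -⟩⟩, h140, H⟩ | ⟨⟨⟨h131, -⟩, ⟨h132, h133, -⟩⟩, h140, H⟩ | ⟨⟨⟨h134, h135, -⟩, ⟨h136, -⟩⟩, h140, H⟩ | ⟨⟨⟨h137, h138, h139, -⟩, -⟩, h140, H⟩ | ⟨⟨⟩⟩ := H
              · refine ⟨-1, 0, 0, -1, -1, -1, by norm_num, by norm_num, by norm_num, Or.inl ⟨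
                  by clear * - h77 b2 f0_1 g0_1; omega,
                  by clear * - h140 b5 g1_1 f1_1; omega,
                  by clear * - b2 f0_1 g0_1; omega,
                  by clear * - h140 b5 g1_1 f1_1; omega⟩⟩
              · refine ⟨0, -1, -1, 0, 1, -1, by norm_num, by norm_num, by norm_num, Or.inl ⟨
                  by clear * - h77 h25 b2 f0_1 g0_1; omega,
                  by clear * - h140 b5 g1_1 f1_1; omega,
                  by clear * - h25 b2 f0_1 g0_1; omega,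
                  by clear * - h140 b5 g1_1 f1_1; omega⟩⟩
              · clear * - h135 b6 g1_1 gm1_1 d2; omega
              · clear * - h140 h138 h137 h77 h25 b5 g1_1 f1_1 c2 b2 f0_1 g0_1; omega
            · obtain ⟨⟨-, ⟨h141, h142, h143, -⟩⟩, h153, H⟩ | ⟨⟨⟨h144, -⟩, ⟨h145, h146, -⟩⟩, h153, H⟩ | ⟨⟨⟨h147, h148, -⟩, ⟨h149, -⟩⟩, h153, H⟩ | ⟨⟨⟨h150, h151, h152, -⟩, -⟩, h153, H⟩ | ⟨⟨⟩⟩ := H
              · clear * - h153 h119 b5 g1_1 f1_1 a5; omega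
              · refine ⟨-1, 0, 0, -1, -1, -1, by norm_num, by norm_num, by norm_num, Or.inl ⟨
                  by clear * - h77 b2 f0_1 g0_1; omega,
                  by clear * - h153 b5 g1_1 f1_1; omega,
                  by clear * - b2 f0_1 g0_1; omega,
                  by clear * - h153 b5 g1_1 f1_1; omega⟩⟩
              · clear * - h148 b6 g1_1 gm1_1 d2; omega
              · clear * - h151 h150 h77 h25 b6 g1_1 gm1_1 b2 f0_1 g0_1; omega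
            · clear * - h123 h122 h77 h25 b6 g1_1 gm1_1 b5 f1_1; omega
            · clear * - h127 h25; omega
    · clear * - b5 g1_1 f1_1 b3 f0_1 d3 b2 g0_1 a6; omega
  · have fm1_1 := (C.F (-1) 1).m1
      (by clear * - c3 c2 a7 a6 a4; omega) (by clear * - c2 a7 a6 a4 a2; omega) (by clear * - h11 c3; omega)
    obtain ⟨g1_1, h154, h155, h156⟩ | ⟨g1_1, h157, h158, h159⟩ | ⟨g1_1, h160, h161, h162⟩ | ⟨g1_1, h163, h164, h165⟩ := C.G 1 1
    · clear * - b5 g1_1 f1_1 h10 b2 f0_1 g0_1 a7; omega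
    · clear * - b5 g1_1 f1_1 h11 b2 f0_1 g0_1 a7; omega
    · have gm1_1 := (C.G (-1) 1).m1
        (by clear * - b5 g1_1 f1_1 h161 b4 fm1_1 b2 f0_1 g0_1 b1; omega) (by clear * - h161 d2; omega) (by clear * - d3 a4; omega)
      have q : (v1) * (v1) = 0 := by
        have E0 : y1 = 0 := by clear * - b3 f0_1 f1_1 c3 a2; omega
        have E1 : -x2 + y2 = 0 := by clear * - b3 f0_1 f1_1 c3 a2; omega
        have E2 : -x1 + u1 = 0 := by clear * - a7; omega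
        have E3 : -x2 + u2 = 0 := by clear * - b2 f0_1 g0_1; omega
        have E4 : x2 + v1 + v2 = 0 := by clear * - b5 g1_1 f1_1 b3 f0_1 c3 a2; omega
        have q : 3 * ((-x1 - x2) * (v1)) + 2 * ((-x1 - x2) * (u1 - v1)) + 2 * ((v1) * (v1)) + 4 * ((v1) * (u1 - v1)) + 2 * ((u1 - v1) * (u1 - v1)) = 0 := by
          linear_combination (-1) * C.k + (-x2) * E0 + (x1) * E1 + (-2 * x2 + 2 * u1 - v2) * E2 + (v1) * E3 + (-x1) * E4
        have p0 : 0 ≤ (-x1 - x2) * (v1) :=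
          mul_nonneg (by clear * - b1 f0_1; omega) (by clear * - b5 g1_1 f1_1 b3 f0_1 d2 b2 g0_1; omega)
        have p1 : 0 ≤ (-x1 - x2) * (u1 - v1) :=
          mul_nonneg (by clear * - b1 f0_1; omega) (by clear * - a4; omega)
        have p2 := mul_self_nonneg (v1)
        have p3 : 0 ≤ (v1) * (u1 - v1) :=
          mul_nonneg (by clear * - b5 g1_1 f1_1 b3 f0_1 d2 b2 g0_1; omega) (by clear * - a4; omega)
        have p4 := mul_self_nonneg (u1 - v1)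
        linarith only [q, p0, p1, p2, p3, p4]
      have h166 := mul_self_eq_zero.mp q
      clear * - h166 a6; omega
    · clear * - b5 g1_1 f1_1 b3 f0_1 d3 b2 g0_1 a6; omega

theorem tp12 (C : Ctx (1) f g x1 y1 x2 y2 u1 v1 u2 v2)
    (c : M1 (f (0, 1)) (0 * x1 + 1 * x2) (0 * y1 + 1 * y2))
    (d : M2 (g (0, 1)) (0 * u1 + 1 * u2) (0 * v1 + 1 * v2)) :
    Same x1 y1 x2 y2 u1 v1 u2 v2 := by
  have H := C.H
  obtain ⟨a1, a2, a3, a4, a5, a6, a7, b1, b2, b3, b4, b5, b6⟩ := C.R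
  obtain ⟨f0_1, c1, c2, c3⟩ := c
  obtain ⟨g0_1, d1, d2, d3⟩ := d
  obtain ⟨f1_1, h1, h2, h3⟩ | ⟨f1_1, h4, h5, h6⟩ | ⟨f1_1, h7, h8, h9⟩ | ⟨f1_1, h10, h11, h12⟩ := C.F 1 1
  · clear * - b3 f0_1 f1_1 d2 d1 b2 g0_1 b1; omega
  · clear * - b3 f0_1 f1_1 a7 a6 a4; omega
  · have fm1_1 := (C.F (-1) 1).m1
      (by clear * - h8 c3 c2 a7 a5 a4; omega) (by clear * - h8 c2; omega) (by clear * - c3 a7 a5 a4; omega)
    obtain ⟨g1_1, h13, h14, h15⟩ | ⟨-, h16, h17, h18⟩ | ⟨g1_1, h19, h20, h21⟩ | ⟨-, h22, h23, h24⟩ := C.G 1 1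
    · have gm1_1 := (C.G (-1) 1).m2
        (by clear * - h14 d1; omega) (by clear * - h14 b2 f0_1 g0_1 b1 a7; omega) (by clear * - b5 g1_1 f1_1 h14 b4 fm1_1 b2 f0_1 g0_1 b1; omega)
      clear * - b6 g1_1 gm1_1 b5 f1_1 b3 f0_1 b2 g0_1 a6; omega
    · clear * - h17 b4 fm1_1 f1_1 h8 d2 a7 a6; omega
    · obtain ⟨-, h25, h26, h27⟩ | ⟨gm1_1, h28, h29, h30⟩ | ⟨gm1_1, h31, h32, h33⟩ | ⟨-, h34, h35, h36⟩ := C.G (-1) 1
      · clear * - h26 b5 g1_1 f1_1 b4 fm1_1 d1 b2 f0_1 g0_1 a7; omega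
      · have q : (-x2 + u2) * (y1) = 0 := by
          have E0 : x2 + y2 = 0 := by clear * - b5 g1_1 f1_1 c2 b2 f0_1 g0_1 a5; omega
          have E1 : -x1 + u1 = 0 := by clear * - a7; omega
          have E2 : -y1 + v1 = 0 := by clear * - b5 g1_1 f1_1 c2 b2 f0_1 g0_1 a5; omega
          have E3 : x2 + v2 = 0 := by clear * - b2 f0_1 g0_1; omega
          have q : 1 * ((-x2 + u2) * (y1)) = 0 := by
            linear_combination (1) * C.k + (-x1) * E0 + (v2) * E1 + (-u2) * E2 + (x1) * E3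
          linarith only [q]
        obtain h37 | h37 := mul_eq_zero.mp q
        · clear * - h37 d2 b2 f0_1 g0_1; omega
        · clear * - h37 b5 g1_1 f1_1 c2 b2 f0_1 g0_1 a6; omega
      · clear * - b6 g1_1 gm1_1 a6; omega
      · clear * - h35 h34 b5 g1_1 f1_1 b4 fm1_1 b2 f0_1 g0_1 b1; omega
    · clear * - h22 b4 fm1_1 f1_1 h8 d2 a7 a6; omega
  · have fm1_1 := (C.F (-1) 1).m1
      (by clear * - c3 c2 a7 a6 a4; omega) (by clear * - c2 a7 a6 a4 a2; omega) (by clear * - h11 c3; omega)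
    obtain ⟨g1_1, h38, h39, h40⟩ | ⟨-, h41, h42, h43⟩ | ⟨g1_1, h44, h45, h46⟩ | ⟨-, h47, h48, h49⟩ := C.G 1 1
    · clear * - b5 g1_1 f1_1 h39 c3 b2 f0_1 g0_1 a6 a2; omega
    · clear * - h42 b4 fm1_1 f1_1 h11 d2 a7 a6; omega
    · clear * - b5 g1_1 f1_1 c3 b2 f0_1 g0_1 a6 a2; omega
    · clear * - h47 b4 fm1_1 f1_1 h11 d2 a7 a6; omega

theorem tp13 (C : Ctx (1) f g x1 y1 x2 y2 u1 v1 u2 v2)
    (c : M1 (f (0, 1)) (0 * x1 + 1 * x2) (0 * y1 + 1 * y2))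
    (d : M3 (g (0, 1)) (0 * u1 + 1 * u2) (0 * v1 + 1 * v2)) :
    Same x1 y1 x2 y2 u1 v1 u2 v2 := by
  have H := C.H
  obtain ⟨a1, a2, a3, a4, a5, a6, a7, b1, b2, b3, b4, b5, b6⟩ := C.R
  obtain ⟨f0_1, c1, c2, c3⟩ := c
  obtain ⟨g0_1, d1, d2, d3⟩ := d
  obtain ⟨f1_1, h1, h2, h3⟩ | ⟨f1_1, h4, h5, h6⟩ | ⟨f1_1, h7, h8, h9⟩ | ⟨f1_1, h10, h11, h12⟩ := C.F 1 1
  · clear * - b3 f0_1 f1_1 c1 b1; omega
  · clear * - b3 f0_1 f1_1 a7 a6 a4; omega
  · have fm1_1 := (C.F (-1) 1).m1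
      (by clear * - h8 c3 c2 a7 a5 a4; omega) (by clear * - h8 c2; omega) (by clear * - c3 a7 a5 a4; omega)
    obtain ⟨g1_1, h13, h14, h15⟩ | ⟨-, h16, h17, h18⟩ | ⟨-, h19, h20, h21⟩ | ⟨g1_1, h22, h23, h24⟩ := C.G 1 1
    · have gm1_1 := (C.G (-1) 1).m3
        (by clear * - h15 d1; omega) (by clear * - h15 b2 f0_1 g0_1 b1 a7; omega) (by clear * - b5 g1_1 f1_1 h15 b4 fm1_1 b2 f0_1 g0_1 b1; omega)
      have q : (-x2 - y2) * (-x2 - y2) = 0 := by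
        have E0 : -x1 + u1 = 0 := by clear * - a7; omega
        have E1 : x1 - y1 - y2 + u2 = 0 := by clear * - b5 g1_1 f1_1 a7; omega
        have E2 : -x2 + v2 = 0 := by clear * - b2 f0_1 g0_1; omega
        have q : 4 * ((-x1 - x2) * (-x2 - y2)) + 2 * ((-x1 - x2) * (u1 - v1)) + 3 * ((-x1 - x2) * (-y1 + v1)) + 4 * ((-x1 - x2) * (y1 + x2 + y2)) + 2 * ((-x2 - y2) * (-x2 - y2)) + 4 * ((-x2 - y2) * (u1 - v1)) + 4 * ((-x2 - y2) * (-y1 + v1)) + 6 * ((-x2 - y2) * (y1 + x2 + y2)) + 2 * ((u1 - v1) * (u1 - v1)) + 4 * ((u1 - v1) * (-y1 + v1)) + 5 * ((u1 - v1) * (y1 + x2 + y2)) + 2 * ((-y1 + v1) * (-y1 + v1)) + 6 * ((-y1 + v1) * (y1 + x2 + y2)) + 4 * ((y1 + x2 + y2) * (y1 + x2 + y2)) = 0 := by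
          linear_combination (1) * C.k + (y1 - x2 + y2 + 2 * u1 + v2) * E0 + (-v1) * E1 + (x1) * E2
        have p0 : 0 ≤ (-x1 - x2) * (-x2 - y2) :=
          mul_nonneg (by clear * - b1 f0_1; omega) (by clear * - c2; omega)
        have p1 : 0 ≤ (-x1 - x2) * (u1 - v1) :=
          mul_nonneg (by clear * - b1 f0_1; omega) (by clear * - a4; omega)
        have p2 : 0 ≤ (-x1 - x2) * (-y1 + v1) :=
          mul_nonneg (by clear * - b1 f0_1; omega) (by clear * - a5; omega)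
        have p3 : 0 ≤ (-x1 - x2) * (y1 + x2 + y2) :=
          mul_nonneg (by clear * - b1 f0_1; omega) (by clear * - b3 f0_1 f1_1; omega)
        have p4 := mul_self_nonneg (-x2 - y2)
        have p5 : 0 ≤ (-x2 - y2) * (u1 - v1) :=
          mul_nonneg (by clear * - c2; omega) (by clear * - a4; omega)
        have p6 : 0 ≤ (-x2 - y2) * (-y1 + v1) :=
          mul_nonneg (by clear * - c2; omega) (by clear * - a5; omega)
        have p7 : 0 ≤ (-x2 - y2) * (y1 + x2 + y2) :=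
          mul_nonneg (by clear * - c2; omega) (by clear * - b3 f0_1 f1_1; omega)
        have p8 := mul_self_nonneg (u1 - v1)
        have p9 : 0 ≤ (u1 - v1) * (-y1 + v1) :=
          mul_nonneg (by clear * - a4; omega) (by clear * - a5; omega)
        have p10 : 0 ≤ (u1 - v1) * (y1 + x2 + y2) :=
          mul_nonneg (by clear * - a4; omega) (by clear * - b3 f0_1 f1_1; omega)
        have p11 := mul_self_nonneg (-y1 + v1)
        have p12 : 0 ≤ (-y1 + v1) * (y1 + x2 + y2) :=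
          mul_nonneg (by clear * - a5; omega) (by clear * - b3 f0_1 f1_1; omega)
        have p13 := mul_self_nonneg (y1 + x2 + y2)
        linarith only [q, p0, p1, p2, p3, p4, p5, p6, p7, p8, p9, p10, p11, p12, p13]
      have h25 := mul_self_eq_zero.mp q
      have q : (y1) * (y1) = 0 := by
        have E0 : x2 + y2 = 0 := by clear * - h25; omega
        have E1 : -x1 + u1 = 0 := by clear * - a7; omega
        have E2 : x1 - y1 + x2 + u2 = 0 := by clear * - h25 b5 g1_1 f1_1 a7; omega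
        have E3 : -x2 + v2 = 0 := by clear * - b2 f0_1 g0_1; omega
        have q : 4 * ((y1) * (y1)) + 4 * ((y1) * (-x1 - x2)) + 5 * ((y1) * (u1 - v1)) + 6 * ((y1) * (-y1 + v1)) + 2 * ((-x1 - x2) * (u1 - v1)) + 3 * ((-x1 - x2) * (-y1 + v1)) + 2 * ((u1 - v1) * (u1 - v1)) + 4 * ((u1 - v1) * (-y1 + v1)) + 2 * ((-y1 + v1) * (-y1 + v1)) = 0 := by
          linear_combination (1) * C.k + (-x1) * E0 + (y1 - 2 * x2 + 2 * u1 + v2) * E1 + (-v1) * E2 + (x1) * E3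
        have p0 := mul_self_nonneg (y1)
        have p1 : 0 ≤ (y1) * (-x1 - x2) :=
          mul_nonneg (by clear * - h25 b3 f0_1 f1_1; omega) (by clear * - b1 f0_1; omega)
        have p2 : 0 ≤ (y1) * (u1 - v1) :=
          mul_nonneg (by clear * - h25 b3 f0_1 f1_1; omega) (by clear * - a4; omega)
        have p3 : 0 ≤ (y1) * (-y1 + v1) :=
          mul_nonneg (by clear * - h25 b3 f0_1 f1_1; omega) (by clear * - h25 b6 g1_1 gm1_1 b5 f1_1 b2 f0_1 g0_1; omega)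
        have p4 : 0 ≤ (-x1 - x2) * (u1 - v1) :=
          mul_nonneg (by clear * - b1 f0_1; omega) (by clear * - a4; omega)
        have p5 : 0 ≤ (-x1 - x2) * (-y1 + v1) :=
          mul_nonneg (by clear * - b1 f0_1; omega) (by clear * - h25 b6 g1_1 gm1_1 b5 f1_1 b2 f0_1 g0_1; omega)
        have p6 := mul_self_nonneg (u1 - v1)
        have p7 : 0 ≤ (u1 - v1) * (-y1 + v1) :=
          mul_nonneg (by clear * - a4; omega) (by clear * - h25 b6 g1_1 gm1_1 b5 f1_1 b2 f0_1 g0_1; omega)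
        have p8 := mul_self_nonneg (-y1 + v1)
        linarith only [q, p0, p1, p2, p3, p4, p5, p6, p7, p8]
      have h26 := mul_self_eq_zero.mp q
      have q : (v1) * (v1) = 0 := by
        have E0 : y1 = 0 := by clear * - h26; omega
        have E1 : x2 + y2 = 0 := by clear * - h25; omega
        have E2 : -x1 + u1 = 0 := by clear * - a7; omega
        have E3 : x1 + x2 + u2 = 0 := by clear * - h26 h25 b5 g1_1 f1_1 a7; omega
        have E4 : -x2 + v2 = 0 := by clear * - b2 f0_1 g0_1; omega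
        have q : 3 * ((-x1 - x2) * (v1)) + 2 * ((-x1 - x2) * (u1 - v1)) + 2 * ((v1) * (v1)) + 4 * ((v1) * (u1 - v1)) + 2 * ((u1 - v1) * (u1 - v1)) = 0 := by
          linear_combination (1) * C.k + (x2) * E0 + (-x1) * E1 + (-2 * x2 + 2 * u1 + v2) * E2 + (-v1) * E3 + (x1) * E4
        have p0 : 0 ≤ (-x1 - x2) * (v1) :=
          mul_nonneg (by clear * - b1 f0_1; omega) (by clear * - b6 g1_1 gm1_1 h15; omega)
        have p1 : 0 ≤ (-x1 - x2) * (u1 - v1) :=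
          mul_nonneg (by clear * - b1 f0_1; omega) (by clear * - a4; omega)
        have p2 := mul_self_nonneg (v1)
        have p3 : 0 ≤ (v1) * (u1 - v1) :=
          mul_nonneg (by clear * - b6 g1_1 gm1_1 h15; omega) (by clear * - a4; omega)
        have p4 := mul_self_nonneg (u1 - v1)
        linarith only [q, p0, p1, p2, p3, p4]
      have h27 := mul_self_eq_zero.mp q
      clear * - h27 a6; omega
    · clear * - h18 d2 a4; omega
    · clear * - h19 d2 a4; omega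
    · clear * - b5 g1_1 f1_1 b3 f0_1 b2 g0_1 a6; omega
  · have fm1_1 := (C.F (-1) 1).m1
      (by clear * - c3 c2 a7 a6 a4; omega) (by clear * - c2 a7 a6 a4 a2; omega) (by clear * - h11 c3; omega)
    obtain ⟨g1_1, h28, h29, h30⟩ | ⟨-, h31, h32, h33⟩ | ⟨-, h34, h35, h36⟩ | ⟨g1_1, h37, h38, h39⟩ := C.G 1 1
    · have gm1_1 := (C.G (-1) 1).m3
        (by clear * - h30 d1; omega) (by clear * - h30 b2 f0_1 g0_1 b1 a7; omega) (by clear * - b5 g1_1 f1_1 h30 b4 fm1_1 b2 f0_1 g0_1 b1; omega)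
      have q : (v1) * (-x1 - x2) = 0 := by
        have E0 : y1 = 0 := by clear * - b3 f0_1 f1_1 c3 a2; omega
        have E1 : -x2 + y2 = 0 := by clear * - b3 f0_1 f1_1 c3 a2; omega
        have E2 : -x1 + u1 = 0 := by clear * - a7; omega
        have E3 : x1 + x2 + u2 = 0 := by clear * - b5 g1_1 f1_1 b3 f0_1 c3 a7 a2; omega
        have E4 : -x2 + v2 = 0 := by clear * - b2 f0_1 g0_1; omega
        have q : 1 * ((v1) * (-x1 - x2)) = 0 := by
          linear_combination (1) * C.k + (x2) * E0 + (-x1) * E1 + (v2) * E2 + (-v1) * E3 + (x1) * E4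
        linarith only [q]
      obtain h40 | h40 := mul_eq_zero.mp q
      · clear * - h40 a6; omega
      · have f2_1 := (C.F 2 1).m0
          (by clear * - h40 b5 g1_1 f1_1 h30 h29 b4 fm1_1; omega) (by clear * - h40 b5 g1_1 f1_1 h30 h29 c3; omega) (by clear * - h40 c3 a2; omega)
        have f1_2 := (C.F 1 2).m3
          (by clear * - h40 b5 g1_1 f1_1 h30 h29 c2; omega) (by clear * - b6 g1_1 gm1_1 h30 b3 f0_1 f1_1 a7 a4 a2; omega) (by clear * - b3 f0_1 f1_1 c2; omega)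
        have g2_1 := (C.G 2 1).m0
          (by clear * - b5 g1_1 f1_1 h30 h29 b3 f0_1 d1 b2 g0_1; omega) (by clear * - h29 a4; omega) (by clear * - h30 d1; omega)
        have g1_2 := (C.G 1 2).m3
          (by clear * - b5 g1_1 f1_1 c3 b2 f0_1 g0_1 a4 a2; omega) (by clear * - h29 d2; omega) (by clear * - h40 b5 g1_1 f1_1 h29 b4 fm1_1 b2 f0_1 g0_1 a7 a4; omega)
        replace H := C.S _ _ H (List.cons_ne_nil _ _)
        simp only [Br_cons, Br_nil, Fst, List.nil_append, List.cons_append, List.forall_mem_cons, List.not_mem_nil, false_imp_iff, implies_true, Prod.mk_add_mk, Int.reduceAdd, f2_1, f1_2, fm1_1, g2_1, g1_2, gm1_1] at H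
        obtain ⟨⟨-, ⟨h41, h42, -⟩⟩, H⟩ | ⟨⟨⟨h43, -⟩, ⟨h44, -⟩⟩, H⟩ | ⟨⟨⟨h45, h46, -⟩, -⟩, H⟩ | ⟨⟨⟩⟩ := H
        · obtain ⟨⟨-, ⟨h47, h48, -⟩⟩, h53, H⟩ | ⟨⟨⟨h49, -⟩, ⟨h50, -⟩⟩, h53, H⟩ | ⟨⟨⟨h51, h52, -⟩, -⟩, h53, H⟩ | ⟨⟨⟩⟩ := H
          · clear * - h53 h40 b5 g1_1 f1_1 b3 f0_1 d1 b2 g0_1; omega
          · refine ⟨0, -1, -1, 0, 1, 1, by norm_num, by norm_num, by norm_num, Or.inr ⟨
              by clear * - h53 h40 b2 f0_1 g0_1; omega,
              by clear * - h40 b3 f0_1 f1_1 c3 a7 a2; omega,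
              by clear * - h40 b2 f0_1 g0_1; omega,
              by clear * - h40 b5 g1_1 f1_1 b3 f0_1 c3 a7 a2; omega⟩⟩
          · clear * - h53 h40 b2 f0_1 g0_1 a6; omega
        · clear * - h43 h40 b5 g1_1 f1_1 h30 b3 f0_1 d2 a4 a2; omega
        · clear * - h45 h40 b5 g1_1 f1_1 h30 h29 b4 fm1_1; omega
    · clear * - h33 d2 a4; omega
    · clear * - h34 d2 a4; omega
    · clear * - b5 g1_1 f1_1 b3 f0_1 b2 g0_1 a6; omega

theorem tp20 (C : Ctx (1) f g x1 y1 x2 y2 u1 v1 u2 v2)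
    (c : M2 (f (0, 1)) (0 * x1 + 1 * x2) (0 * y1 + 1 * y2))
    (d : M0 (g (0, 1)) (0 * u1 + 1 * u2) (0 * v1 + 1 * v2)) :
    Same x1 y1 x2 y2 u1 v1 u2 v2 := by
  have H := C.H
  obtain ⟨a1, a2, a3, a4, a5, a6, a7, b1, b2, b3, b4, b5, b6⟩ := C.R
  obtain ⟨f0_1, c1, c2, c3⟩ := c
  obtain ⟨g0_1, d1, d2, d3⟩ := d
  obtain ⟨f1_1, h1, h2, h3⟩ | ⟨-, h4, h5, h6⟩ | ⟨f1_1, h7, h8, h9⟩ | ⟨-, h10, h11, h12⟩ := C.F 1 1
  · have fm1_1 := (C.F (-1) 1).m2
      (by clear * - h2 c1; omega) (by clear * - h2 b1 f0_1; omega) (by clear * - h2 c1 b1 f0_1; omega)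
    have g1_1 := (C.G 1 1).m0
      (by clear * - b3 f0_1 f1_1 d3 d2 c1 a7; omega) (by clear * - d2 a4; omega) (by clear * - b3 f0_1 f1_1 d3 c1 a7 a6; omega)
    clear * - b5 g1_1 f1_1 c1 b2 f0_1 g0_1 a7; omega
  · clear * - h5 c2 a7 a6 a4 a2; omega
  · obtain ⟨-, h13, h14, h15⟩ | ⟨fm1_1, h16, h17, h18⟩ | ⟨fm1_1, h19, h20, h21⟩ | ⟨-, h22, h23, h24⟩ := C.F (-1) 1
    · clear * - h14 c1 a7 a5 a4; omega
    · have g1_1 := (C.G 1 1).m0
        (by clear * - b4 fm1_1 f1_1 h8 d3 d2 a7; omega) (by clear * - d2 a4; omega) (by clear * - b4 fm1_1 f1_1 h8 d3 a7 a6; omega)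
      clear * - b5 g1_1 f1_1 b4 fm1_1 c2 b2 f0_1 g0_1 a7; omega
    · have g1_1 := (C.G 1 1).m0
        (by clear * - h19 h8 b2 f0_1 g0_1 a7; omega) (by clear * - d2 a4; omega) (by clear * - d3 a6 a4; omega)
      clear * - b5 g1_1 f1_1 b4 fm1_1 b2 f0_1 g0_1 a6 a4; omega
    · clear * - h23 h7 a7 a5 a4; omega
  · clear * - h10 c2 a7 a6 a4 a2; omega

theorem tp21 (C : Ctx (1) f g x1 y1 x2 y2 u1 v1 u2 v2)
    (c : M2 (f (0, 1)) (0 * x1 + 1 * x2) (0 * y1 + 1 * y2))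
    (d : M1 (g (0, 1)) (0 * u1 + 1 * u2) (0 * v1 + 1 * v2)) :
    Same x1 y1 x2 y2 u1 v1 u2 v2 := by
  have H := C.H
  obtain ⟨a1, a2, a3, a4, a5, a6, a7, b1, b2, b3, b4, b5, b6⟩ := C.R
  obtain ⟨f0_1, c1, c2, c3⟩ := c
  obtain ⟨g0_1, d1, d2, d3⟩ := d
  obtain ⟨f1_1, h1, h2, h3⟩ | ⟨-, h4, h5, h6⟩ | ⟨f1_1, h7, h8, h9⟩ | ⟨-, h10, h11, h12⟩ := C.F 1 1
  · have fm1_1 := (C.F (-1) 1).m2
      (by clear * - h2 c1; omega) (by clear * - h2 b1 f0_1; omega) (by clear * - h2 c1 b1 f0_1; omega)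
    obtain ⟨g1_1, h13, h14, h15⟩ | ⟨g1_1, h16, h17, h18⟩ | ⟨g1_1, h19, h20, h21⟩ | ⟨g1_1, h22, h23, h24⟩ := C.G 1 1
    · clear * - b5 g1_1 f1_1 b3 f0_1 d1 b1 a7; omega
    · clear * - b5 g1_1 f1_1 b3 f0_1 c1 b2 g0_1 a7; omega
    · have gm1_1 := (C.G (-1) 1).m1
        (by clear * - b5 g1_1 f1_1 h20 c1 b2 f0_1 g0_1 b1; omega) (by clear * - h20 d2; omega) (by clear * - d3 a4; omega)
      have q : (-v1) * (x2) = 0 := by
        have E0 : y1 = 0 := by clear * - b4 fm1_1 f1_1 b3 f0_1 a2; omega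
        have E1 : -x1 - x2 + y2 = 0 := by clear * - b4 fm1_1 f1_1 b3 f0_1 a2; omega
        have E2 : -x1 + u1 = 0 := by clear * - a7; omega
        have E3 : x1 + x2 + u2 = 0 := by clear * - b4 fm1_1 f1_1 b3 f0_1 b2 g0_1 a2; omega
        have E4 : -x1 - x2 + v1 + v2 = 0 := by clear * - b5 g1_1 f1_1; omega
        have q : 1 * ((-v1) * (x2)) = 0 := by
          linear_combination (1) * C.k + (x2) * E0 + (-x1) * E1 + (v2) * E2 + (-v1) * E3 + (x1) * E4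
        linarith only [q]
      obtain h25 | h25 := mul_eq_zero.mp q
      · clear * - h25 a6; omega
      · have f2_1 := (C.F 2 1).m0
          (by clear * - h25 b5 g1_1 f1_1 h21; omega) (by clear * - h25 b5 g1_1 f1_1 h21 b4 fm1_1 b3 f0_1; omega) (by clear * - h25 b3 f0_1 f1_1 h3 a2; omega)
        have f1_2 := (C.F 1 2).m2
          (by clear * - h25 h3 b1 f0_1 a2; omega) (by clear * - h25 b4 fm1_1 f1_1 h3; omega) (by clear * - h25 h3 b1 f0_1; omega)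
        have g2_1 := (C.G 2 1).m2
          (by clear * - h25 b5 g1_1 f1_1 d2 a7; omega) (by clear * - h20 d2; omega) (by clear * - b5 g1_1 f1_1 h21 b3 f0_1 d2 b2 g0_1; omega)
        have g1_2 := (C.G 1 2).m2
          (by clear * - h19 d3; omega) (by clear * - b5 g1_1 f1_1 b3 f0_1 b2 g0_1 a4; omega) (by clear * - b5 g1_1 f1_1 b3 f0_1 d3 b2 g0_1; omega)
        replace H := C.S _ _ H (List.cons_ne_nil _ _)
        simp only [Br_cons, Br_nil, Fst, List.nil_append, List.cons_append, List.forall_mem_cons, List.not_mem_nil, false_imp_iff, implies_true, Prod.mk_add_mk, Int.reduceAdd, f2_1, f1_2, fm1_1, g2_1, g1_2, gm1_1] at H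
        obtain ⟨⟨-, ⟨h26, h27, -⟩⟩, H⟩ | ⟨⟨⟨h28, -⟩, ⟨h29, -⟩⟩, H⟩ | ⟨⟨⟨h30, h31, -⟩, -⟩, H⟩ | ⟨⟨⟩⟩ := H
        · clear * - h27 h26 h25 b5 g1_1 f1_1 h20 h19 b3 f0_1; omega
        · clear * - h29 h25 c2 a2; omega
        · obtain ⟨⟨-, ⟨h32, h33, -⟩⟩, h38, H⟩ | ⟨⟨⟨h34, -⟩, ⟨h35, -⟩⟩, h38, H⟩ | ⟨⟨⟨h36, h37, -⟩, -⟩, h38, H⟩ | ⟨⟨⟩⟩ := H
          · clear * - h38 b5 g1_1 f1_1 b3 f0_1 a6 a2; omega
          · refine ⟨-1, -1, 0, 1, -1, -1, by norm_num, by norm_num, by norm_num, Or.inr ⟨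
              by clear * - h38 b5 g1_1 f1_1 b4 fm1_1 b3 f0_1 a2; omega,
              by clear * - h25 b4 fm1_1 f1_1 b3 f0_1 b1 a7 a2; omega,
              by clear * - h38 h25 b5 g1_1 f1_1 b4 fm1_1 b3 f0_1 a2; omega,
              by clear * - b2 f0_1 g0_1; omega⟩⟩
          · clear * - h37 h36 h25 b5 g1_1 f1_1 h20 b2 f0_1 g0_1 b1 a7; omega
    · clear * - b5 g1_1 f1_1 b3 f0_1 d3 b2 g0_1 a6; omega
  · clear * - h5 c2 a7 a6 a4 a2; omega
  · obtain ⟨-, h39, h40, h41⟩ | ⟨fm1_1, h42, h43, h44⟩ | ⟨fm1_1, h45, h46, h47⟩ | ⟨-, h48, h49, h50⟩ := C.F (-1) 1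
    · clear * - h40 c1 a7 a5 a4; omega
    · obtain ⟨g1_1, h51, h52, h53⟩ | ⟨g1_1, h54, h55, h56⟩ | ⟨g1_1, h57, h58, h59⟩ | ⟨g1_1, h60, h61, h62⟩ := C.G 1 1
      · clear * - b5 g1_1 f1_1 h7 c2 b2 f0_1 g0_1 a7; omega
      · clear * - b5 g1_1 f1_1 h43 c2 b2 f0_1 g0_1 a7; omega
      · have gm1_1 := (C.G (-1) 1).m1
          (by clear * - b5 g1_1 f1_1 h58 b4 fm1_1 c2 b2 f0_1 g0_1 b1; omega) (by clear * - h58 d2; omega) (by clear * - d3 a4; omega)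
        have q : (y1) * (x2 + y2) = 0 := by
          have E0 : -x1 + u1 = 0 := by clear * - a7; omega
          have E1 : y2 + u2 = 0 := by clear * - b2 f0_1 g0_1; omega
          have E2 : -y1 - y2 + v1 + v2 = 0 := by clear * - b5 g1_1 f1_1; omega
          have q : 1 * ((y1) * (x2 + y2)) + 1 * ((-x1 + y2) * (-u2 - v2)) = 0 := by
            linear_combination (-1) * C.k + (-v2) * E0 + (x1 - y2 + v1) * E1 + (-y2) * E2
          have p0 : 0 ≤ (y1) * (x2 + y2) :=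
            mul_nonneg (by clear * - b3 f0_1 f1_1; omega) (by clear * - c2; omega)
          have p1 : 0 ≤ (-x1 + y2) * (-u2 - v2) :=
            mul_nonneg (by clear * - b1 f0_1; omega) (by clear * - d2; omega)
          linarith only [q, p0, p1]
        obtain h63 | h63 := mul_eq_zero.mp q
        · have q : (-v1) * (-x1 + y2) = 0 := by
            have E0 : y1 = 0 := by clear * - h63; omega
            have E1 : -x1 + u1 = 0 := by clear * - a7; omega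
            have E2 : y2 + u2 = 0 := by clear * - b2 f0_1 g0_1; omega
            have E3 : -y2 + v1 + v2 = 0 := by clear * - h63 b5 g1_1 f1_1; omega
            have q : 1 * ((-v1) * (-x1 + y2)) = 0 := by
              linear_combination (1) * C.k + (x2) * E0 + (v2) * E1 + (-v1) * E2 + (x1) * E3
            linarith only [q]
          obtain h64 | h64 := mul_eq_zero.mp q
          · clear * - h64 a6; omega
          · have f2_1 := (C.F 2 1).m0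
              (by clear * - h64 h63 h8; omega) (by clear * - h64 h63 c2; omega) (by clear * - h64 b5 g1_1 f1_1 h59 h8; omega)
            have f1_2 := (C.F 1 2).m2
              (by clear * - h64 h63 b5 g1_1 f1_1 h59 b4 fm1_1; omega) (by clear * - h8 c2; omega) (by clear * - h63 b5 g1_1 f1_1 h59; omega)
            have g2_1 := (C.G 2 1).m2
              (by clear * - h64 h63 b5 g1_1 f1_1 d2 a7; omega) (by clear * - h58 d2; omega) (by clear * - h63 b5 g1_1 f1_1 h59 d2 b2 f0_1 g0_1; omega)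
            have g1_2 := (C.G 1 2).m2
              (by clear * - h57 d3; omega) (by clear * - h63 b5 g1_1 f1_1 b2 f0_1 g0_1 a4; omega) (by clear * - h63 b5 g1_1 f1_1 d3 b2 f0_1 g0_1; omega)
            replace H := C.S _ _ H (List.cons_ne_nil _ _)
            simp only [Br_cons, Br_nil, Fst, List.nil_append, List.cons_append, List.forall_mem_cons, List.not_mem_nil, false_imp_iff, implies_true, Prod.mk_add_mk, Int.reduceAdd, f2_1, f1_2, fm1_1, g2_1, g1_2, gm1_1] at H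
            obtain ⟨⟨-, ⟨h65, h66, -⟩⟩, H⟩ | ⟨⟨⟨h67, -⟩, ⟨h68, -⟩⟩, H⟩ | ⟨⟨⟨h69, h70, -⟩, -⟩, H⟩ | ⟨⟨⟩⟩ := H
            · obtain ⟨⟨-, ⟨h71, h72, -⟩⟩, h77, H⟩ | ⟨⟨⟨h73, -⟩, ⟨h74, -⟩⟩, h77, H⟩ | ⟨⟨⟨h75, h76, -⟩, -⟩, h77, H⟩ | ⟨⟨⟩⟩ := H
              · refine ⟨-1, -1, 0, 1, -1, -1, by norm_num, by norm_num, by norm_num, Or.inr ⟨
                  by clear * - h77 h64 h63 b5 g1_1 f1_1; omega,
                  by clear * - h64 h63 a7; omega,
                  by clear * - h77 h64 h63 b5 g1_1 f1_1; omega,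
                  by clear * - b2 f0_1 g0_1; omega⟩⟩
              · refine ⟨0, -1, 1, 1, 1, -1, by norm_num, by norm_num, by norm_num, Or.inr ⟨
                  by clear * - h77 h64 h63 b5 g1_1 f1_1; omega,
                  by clear * - h64 a7; omega,
                  by clear * - h77 h64 h63 b5 g1_1 f1_1; omega,
                  by clear * - h63 b2 f0_1 g0_1; omega⟩⟩
              · clear * - h77 h76 h75 h64 h63 b5 g1_1 f1_1 c2 b2 f0_1 g0_1 a7; omega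
            · clear * - h68 h67 h64 h63 b5 g1_1 f1_1 h59; omega
            · obtain ⟨⟨-, ⟨h78, h79, -⟩⟩, h84, H⟩ | ⟨⟨⟨h80, -⟩, ⟨h81, -⟩⟩, h84, H⟩ | ⟨⟨⟨h82, h83, -⟩, -⟩, h84, H⟩ | ⟨⟨⟩⟩ := H
              · refine ⟨0, -1, 1, 1, 1, -1, by norm_num, by norm_num, by norm_num, Or.inr ⟨
                  by clear * - h84 h64 h63 b5 g1_1 f1_1; omega,
                  by clear * - h64 a7; omega,
                  by clear * - h84 h64 h63 b5 g1_1 f1_1; omega,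
                  by clear * - h63 b2 f0_1 g0_1; omega⟩⟩
              · refine ⟨-1, -1, 0, 1, -1, -1, by norm_num, by norm_num, by norm_num, Or.inr ⟨
                  by clear * - h84 h64 h63 b5 g1_1 f1_1; omega,
                  by clear * - h64 h63 a7; omega,
                  by clear * - h84 h64 h63 b5 g1_1 f1_1; omega,
                  by clear * - b2 f0_1 g0_1; omega⟩⟩
              · clear * - h84 h83 h82 h64 h63 b5 g1_1 f1_1 h7 b2 f0_1 g0_1 a7; omega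
        · clear * - h63 c2; omega
      · clear * - b5 g1_1 f1_1 b3 f0_1 d3 b2 g0_1 a6; omega
    · obtain ⟨-, h85, h86, h87⟩ | ⟨g1_1, h88, h89, h90⟩ | ⟨g1_1, h91, h92, h93⟩ | ⟨g1_1, h94, h95, h96⟩ := C.G 1 1
      · clear * - h87 h86 h46 h7 b2 f0_1 g0_1 a7; omega
      · clear * - b5 g1_1 f1_1 b3 f0_1 b2 g0_1 a6 a4; omega
      · have gm1_1 := (C.G (-1) 1).m1
          (by clear * - b5 g1_1 f1_1 h92 b4 fm1_1 d3 d2 b2 f0_1 g0_1; omega) (by clear * - h92 d2; omega) (by clear * - d3 a4; omega)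
        have q : (-v1) * (-x1 + y2) = 0 := by
          have E0 : y1 = 0 := by clear * - b4 fm1_1 f1_1 b3 f0_1; omega
          have E1 : -x1 + u1 = 0 := by clear * - a7; omega
          have E2 : y2 + u2 = 0 := by clear * - b2 f0_1 g0_1; omega
          have E3 : -y2 + v1 + v2 = 0 := by clear * - b5 g1_1 f1_1 b4 fm1_1 b3 f0_1; omega
          have q : 1 * ((-v1) * (-x1 + y2)) = 0 := by
            linear_combination (1) * C.k + (x2) * E0 + (v2) * E1 + (-v1) * E2 + (x1) * E3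
          linarith only [q]
        obtain h97 | h97 := mul_eq_zero.mp q
        · clear * - h97 a6; omega
        · clear * - h97 h46 h7; omega
      · clear * - b5 g1_1 f1_1 b3 f0_1 d3 b2 g0_1 a6; omega
    · clear * - h49 c1 a7 a5 a4; omega
  · clear * - h10 c2 a7 a6 a4 a2; omega

theorem tp22 (C : Ctx (1) f g x1 y1 x2 y2 u1 v1 u2 v2)
    (c : M2 (f (0, 1)) (0 * x1 + 1 * x2) (0 * y1 + 1 * y2))
    (d : M2 (g (0, 1)) (0 * u1 + 1 * u2) (0 * v1 + 1 * v2)) :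
    Same x1 y1 x2 y2 u1 v1 u2 v2 := by
  have H := C.H
  obtain ⟨a1, a2, a3, a4, a5, a6, a7, b1, b2, b3, b4, b5, b6⟩ := C.R
  obtain ⟨f0_1, c1, c2, c3⟩ := c
  obtain ⟨g0_1, d1, d2, d3⟩ := d
  obtain ⟨f1_1, h1, h2, h3⟩ | ⟨-, h4, h5, h6⟩ | ⟨f1_1, h7, h8, h9⟩ | ⟨-, h10, h11, h12⟩ := C.F 1 1
  · have fm1_1 := (C.F (-1) 1).m2
      (by clear * - h2 c1; omega) (by clear * - h2 b1 f0_1; omega) (by clear * - h2 c1 b1 f0_1; omega)
    obtain ⟨g1_1, h13, h14, h15⟩ | ⟨-, h16, h17, h18⟩ | ⟨g1_1, h19, h20, h21⟩ | ⟨-, h22, h23, h24⟩ := C.G 1 1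
    · clear * - b5 g1_1 f1_1 h14 b4 fm1_1 b2 f0_1 g0_1 a6 a2; omega
    · clear * - h17 b3 f0_1 f1_1 d2 c1 a7 a6; omega
    · clear * - b5 g1_1 f1_1 b4 fm1_1 b2 f0_1 g0_1 a6 a2; omega
    · clear * - h22 b3 f0_1 f1_1 d2 c1 a7 a6; omega
  · clear * - h5 c2 a7 a6 a4 a2; omega
  · obtain ⟨-, h25, h26, h27⟩ | ⟨fm1_1, h28, h29, h30⟩ | ⟨fm1_1, h31, h32, h33⟩ | ⟨-, h34, h35, h36⟩ := C.F (-1) 1
    · clear * - h26 c1 a7 a5 a4; omega
    · obtain ⟨g1_1, h37, h38, h39⟩ | ⟨-, h40, h41, h42⟩ | ⟨g1_1, h43, h44, h45⟩ | ⟨-, h46, h47, h48⟩ := C.G 1 1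
      · have gm1_1 := (C.G (-1) 1).m2
          (by clear * - h38 d1; omega) (by clear * - h38 b2 f0_1 g0_1 b1 a7; omega) (by clear * - b5 g1_1 f1_1 h38 b4 fm1_1 c2 b2 f0_1 g0_1 b1; omega)
        clear * - b6 g1_1 gm1_1 b5 f1_1 b3 f0_1 b2 g0_1 a6; omega
      · clear * - h41 b4 fm1_1 f1_1 b3 f0_1 d2 c2 a7 a6; omega
      · obtain ⟨-, h49, h50, h51⟩ | ⟨gm1_1, h52, h53, h54⟩ | ⟨gm1_1, h55, h56, h57⟩ | ⟨-, h58, h59, h60⟩ := C.G (-1) 1
        · clear * - h50 b5 g1_1 f1_1 b4 fm1_1 d1 c2 b2 f0_1 g0_1 a7; omega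
        · have q : (-y1) * (x2 - u2) = 0 := by
            have E0 : -x1 + u1 = 0 := by clear * - a7; omega
            have E1 : -y1 + v1 = 0 := by clear * - b5 g1_1 f1_1 b2 f0_1 g0_1; omega
            have E2 : -y2 + v2 = 0 := by clear * - b2 f0_1 g0_1; omega
            have q : 1 * ((-y1) * (x2 - u2)) = 0 := by
              linear_combination (1) * C.k + (v2) * E0 + (-u2) * E1 + (x1) * E2
            linarith only [q]
          obtain h61 | h61 := mul_eq_zero.mp q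
          · clear * - h61 b5 g1_1 f1_1 b2 f0_1 g0_1 a6; omega
          · refine ⟨-1, 0, 0, -1, -1, -1, by norm_num, by norm_num, by norm_num, Or.inl ⟨
              by clear * - a7; omega,
              by clear * - b5 g1_1 f1_1 b2 f0_1 g0_1; omega,
              by clear * - h61; omega,
              by clear * - b2 f0_1 g0_1; omega⟩⟩
        · clear * - b6 g1_1 gm1_1 a6; omega
        · clear * - h59 h58 b5 g1_1 f1_1 b4 fm1_1 c2 b2 f0_1 g0_1 b1; omega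
      · clear * - h46 b4 fm1_1 f1_1 b3 f0_1 d2 c2 a7 a6; omega
    · obtain ⟨g1_1, h62, h63, h64⟩ | ⟨-, h65, h66, h67⟩ | ⟨g1_1, h68, h69, h70⟩ | ⟨-, h71, h72, h73⟩ := C.G 1 1
      · clear * - b5 g1_1 f1_1 h63 b4 fm1_1 b2 f0_1 g0_1 a6; omega
      · clear * - h66 d2 a6 a4; omega
      · clear * - b5 g1_1 f1_1 b4 fm1_1 b2 f0_1 g0_1 a6; omega
      · clear * - h72 h71 d2 d1 a6; omega
    · clear * - h35 c1 a7 a5 a4; omega
  · clear * - h10 c2 a7 a6 a4 a2; omega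

theorem tp23 (C : Ctx (1) f g x1 y1 x2 y2 u1 v1 u2 v2)
    (c : M2 (f (0, 1)) (0 * x1 + 1 * x2) (0 * y1 + 1 * y2))
    (d : M3 (g (0, 1)) (0 * u1 + 1 * u2) (0 * v1 + 1 * v2)) :
    Same x1 y1 x2 y2 u1 v1 u2 v2 := by
  have H := C.H
  obtain ⟨a1, a2, a3, a4, a5, a6, a7, b1, b2, b3, b4, b5, b6⟩ := C.R
  obtain ⟨f0_1, c1, c2, c3⟩ := c
  obtain ⟨g0_1, d1, d2, d3⟩ := d
  obtain ⟨f1_1, h1, h2, h3⟩ | ⟨-, h4, h5, h6⟩ | ⟨f1_1, h7, h8, h9⟩ | ⟨-, h10, h11, h12⟩ := C.F 1 1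
  · have fm1_1 := (C.F (-1) 1).m2
      (by clear * - h2 c1; omega) (by clear * - h2 b1 f0_1; omega) (by clear * - h2 c1 b1 f0_1; omega)
    obtain ⟨g1_1, h13, h14, h15⟩ | ⟨-, h16, h17, h18⟩ | ⟨-, h19, h20, h21⟩ | ⟨g1_1, h22, h23, h24⟩ := C.G 1 1
    · have gm1_1 := (C.G (-1) 1).m3
        (by clear * - h15 d1; omega) (by clear * - h15 b2 f0_1 g0_1 b1 a7; omega) (by clear * - b5 g1_1 f1_1 h15 c1 b2 f0_1 g0_1 b1; omega)
      have q : (v1) * (v1) = 0 := by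
        have E0 : y1 = 0 := by clear * - b4 fm1_1 f1_1 b3 f0_1 a2; omega
        have E1 : -x1 - x2 + y2 = 0 := by clear * - b4 fm1_1 f1_1 b3 f0_1 a2; omega
        have E2 : -x1 + u1 = 0 := by clear * - a7; omega
        have E3 : -x2 + u2 = 0 := by clear * - b5 g1_1 f1_1 a7; omega
        have E4 : x1 + x2 + v2 = 0 := by clear * - b4 fm1_1 f1_1 b3 f0_1 b2 g0_1 a2; omega
        have q : 3 * ((-x1 + y2) * (v1)) + 2 * ((-x1 + y2) * (u1 - v1)) + 2 * ((v1) * (v1)) + 4 * ((v1) * (u1 - v1)) + 2 * ((u1 - v1) * (u1 - v1)) = 0 := by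
          linear_combination (1) * C.k + (x2) * E0 + (-x1 + 2 * u1 + v1) * E1 + (2 * x1 + 2 * x2 + 2 * u1 + v2) * E2 + (-v1) * E3 + (x1) * E4
        have p0 : 0 ≤ (-x1 + y2) * (v1) :=
          mul_nonneg (by clear * - b1 f0_1; omega) (by clear * - b6 g1_1 gm1_1 h15; omega)
        have p1 : 0 ≤ (-x1 + y2) * (u1 - v1) :=
          mul_nonneg (by clear * - b1 f0_1; omega) (by clear * - a4; omega)
        have p2 := mul_self_nonneg (v1)
        have p3 : 0 ≤ (v1) * (u1 - v1) :=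
          mul_nonneg (by clear * - b6 g1_1 gm1_1 h15; omega) (by clear * - a4; omega)
        have p4 := mul_self_nonneg (u1 - v1)
        linarith only [q, p0, p1, p2, p3, p4]
      have h25 := mul_self_eq_zero.mp q
      clear * - h25 a6; omega
    · clear * - h18 d2 a4; omega
    · clear * - h19 d2 a4; omega
    · clear * - b5 g1_1 f1_1 b3 f0_1 b2 g0_1 a6; omega
  · clear * - h5 c2 a7 a6 a4 a2; omega
  · obtain ⟨-, h26, h27, h28⟩ | ⟨fm1_1, h29, h30, h31⟩ | ⟨fm1_1, h32, h33, h34⟩ | ⟨-, h35, h36, h37⟩ := C.F (-1) 1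
    · clear * - h27 c1 a7 a5 a4; omega
    · obtain ⟨g1_1, h38, h39, h40⟩ | ⟨-, h41, h42, h43⟩ | ⟨-, h44, h45, h46⟩ | ⟨g1_1, h47, h48, h49⟩ := C.G 1 1
      · have gm1_1 := (C.G (-1) 1).m3
          (by clear * - h40 d1; omega) (by clear * - h40 b2 f0_1 g0_1 b1 a7; omega) (by clear * - b5 g1_1 f1_1 h40 b4 fm1_1 c2 b2 f0_1 g0_1 b1; omega)
        have q : (y1) * (y1) = 0 := by
          have E0 : -x1 + u1 = 0 := by clear * - a7; omega
          have E1 : x1 - y1 - y2 + u2 = 0 := by clear * - b5 g1_1 f1_1 a7; omega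
          have E2 : y2 + v2 = 0 := by clear * - b2 f0_1 g0_1; omega
          have q : 4 * ((y1) * (y1)) + 4 * ((y1) * (-x1 + y2)) + 4 * ((y1) * (u1 - v1)) + 5 * ((y1) * (-y1 + v1)) + 1 * ((y1) * (x1 - y1 - x2 - y2)) + 2 * ((-x1 + y2) * (u1 - v1)) + 3 * ((-x1 + y2) * (-y1 + v1)) + 2 * ((u1 - v1) * (u1 - v1)) + 4 * ((u1 - v1) * (-y1 + v1)) + 2 * ((-y1 + v1) * (-y1 + v1)) = 0 := by
            linear_combination (1) * C.k + (2 * y2 + 2 * u1 + v2) * E0 + (-v1) * E1 + (x1) * E2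
          have p0 := mul_self_nonneg (y1)
          have p1 : 0 ≤ (y1) * (-x1 + y2) :=
            mul_nonneg (by clear * - b3 f0_1 f1_1; omega) (by clear * - b1 f0_1; omega)
          have p2 : 0 ≤ (y1) * (u1 - v1) :=
            mul_nonneg (by clear * - b3 f0_1 f1_1; omega) (by clear * - a4; omega)
          have p3 : 0 ≤ (y1) * (-y1 + v1) :=
            mul_nonneg (by clear * - b3 f0_1 f1_1; omega) (by clear * - b6 g1_1 gm1_1 b5 f1_1 b2 f0_1 g0_1; omega)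
          have p4 : 0 ≤ (y1) * (x1 - y1 - x2 - y2) :=
            mul_nonneg (by clear * - b3 f0_1 f1_1; omega) (by clear * - b4 fm1_1 f1_1; omega)
          have p5 : 0 ≤ (-x1 + y2) * (u1 - v1) :=
            mul_nonneg (by clear * - b1 f0_1; omega) (by clear * - a4; omega)
          have p6 : 0 ≤ (-x1 + y2) * (-y1 + v1) :=
            mul_nonneg (by clear * - b1 f0_1; omega) (by clear * - b6 g1_1 gm1_1 b5 f1_1 b2 f0_1 g0_1; omega)
          have p7 := mul_self_nonneg (u1 - v1)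
          have p8 : 0 ≤ (u1 - v1) * (-y1 + v1) :=
            mul_nonneg (by clear * - a4; omega) (by clear * - b6 g1_1 gm1_1 b5 f1_1 b2 f0_1 g0_1; omega)
          have p9 := mul_self_nonneg (-y1 + v1)
          linarith only [q, p0, p1, p2, p3, p4, p5, p6, p7, p8, p9]
        have h50 := mul_self_eq_zero.mp q
        have q : (x2 + y2) * (v1) = 0 := by
          have E0 : y1 = 0 := by clear * - h50; omega
          have E1 : -x1 + u1 = 0 := by clear * - a7; omega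
          have E2 : x1 - y2 + u2 = 0 := by clear * - h50 b5 g1_1 f1_1 a7; omega
          have E3 : y2 + v2 = 0 := by clear * - b2 f0_1 g0_1; omega
          have q : 3 * ((-x1 + y2) * (v1)) + 2 * ((-x1 + y2) * (u1 - v1)) + 2 * ((x2 + y2) * (v1)) + 2 * ((v1) * (u1 - v1)) + 2 * ((v1) * (x1 + y1 - x2 - y2)) + 2 * ((u1 - v1) * (u1 - v1)) = 0 := by
            linear_combination (1) * C.k + (x2 + 2 * v1) * E0 + (2 * y2 + 2 * u1 - 2 * v1 + v2) * E1 + (-v1) * E2 + (x1) * E3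
          have p0 : 0 ≤ (-x1 + y2) * (v1) :=
            mul_nonneg (by clear * - b1 f0_1; omega) (by clear * - b6 g1_1 gm1_1 h40; omega)
          have p1 : 0 ≤ (-x1 + y2) * (u1 - v1) :=
            mul_nonneg (by clear * - b1 f0_1; omega) (by clear * - a4; omega)
          have p2 : 0 ≤ (x2 + y2) * (v1) :=
            mul_nonneg (by clear * - c2; omega) (by clear * - b6 g1_1 gm1_1 h40; omega)
          have p3 : 0 ≤ (v1) * (u1 - v1) :=
            mul_nonneg (by clear * - b6 g1_1 gm1_1 h40; omega) (by clear * - a4; omega)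
          have p4 : 0 ≤ (v1) * (x1 + y1 - x2 - y2) :=
            mul_nonneg (by clear * - b6 g1_1 gm1_1 h40; omega) (by clear * - h50 b4 fm1_1 f1_1; omega)
          have p5 := mul_self_nonneg (u1 - v1)
          linarith only [q, p0, p1, p2, p3, p4, p5]
        obtain h51 | h51 := mul_eq_zero.mp q
        · clear * - h51 c2; omega
        · clear * - h51 a6; omega
      · clear * - h43 d2 a4; omega
      · clear * - h44 d2 a4; omega
      · clear * - b5 g1_1 f1_1 b3 f0_1 b2 g0_1 a6; omega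
    · obtain ⟨g1_1, h52, h53, h54⟩ | ⟨-, h55, h56, h57⟩ | ⟨-, h58, h59, h60⟩ | ⟨g1_1, h61, h62, h63⟩ := C.G 1 1
      · have gm1_1 := (C.G (-1) 1).m3
          (by clear * - h54 d1; omega) (by clear * - h54 h33 h7 b2 f0_1 g0_1 a7; omega) (by clear * - b5 g1_1 f1_1 h54 b4 fm1_1 d3 b2 f0_1 g0_1; omega)
        have q : (v1) * (v1) = 0 := by
          have E0 : y1 = 0 := by clear * - b4 fm1_1 f1_1 b3 f0_1; omega
          have E1 : -x1 + u1 = 0 := by clear * - a7; omega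
          have E2 : x1 - y2 + u2 = 0 := by clear * - b5 g1_1 f1_1 b4 fm1_1 b3 f0_1 a7; omega
          have E3 : y2 + v2 = 0 := by clear * - b2 f0_1 g0_1; omega
          have q : 4 * ((v1) * (v1)) + 8 * ((v1) * (u1 - v1)) + 3 * ((v1) * (-x1 + y1 - x2 + y2)) + 3 * ((v1) * (-x1 - y1 + x2 + y2)) + 4 * ((u1 - v1) * (u1 - v1)) + 2 * ((u1 - v1) * (-x1 + y1 - x2 + y2)) + 2 * ((u1 - v1) * (-x1 - y1 + x2 + y2)) = 0 := by
            linear_combination (2) * C.k + (2 * x2) * E0 + (4 * y2 + 4 * u1 + 2 * v2) * E1 + (-2 * v1) * E2 + (2 * x1) * E3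
          have p0 := mul_self_nonneg (v1)
          have p1 : 0 ≤ (v1) * (u1 - v1) :=
            mul_nonneg (by clear * - b6 g1_1 gm1_1 h54; omega) (by clear * - a4; omega)
          have p2 : 0 ≤ (v1) * (-x1 + y1 - x2 + y2) :=
            mul_nonneg (by clear * - b6 g1_1 gm1_1 h54; omega) (by clear * - h7; omega)
          have p3 : 0 ≤ (v1) * (-x1 - y1 + x2 + y2) :=
            mul_nonneg (by clear * - b6 g1_1 gm1_1 h54; omega) (by clear * - h33; omega)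
          have p4 := mul_self_nonneg (u1 - v1)
          have p5 : 0 ≤ (u1 - v1) * (-x1 + y1 - x2 + y2) :=
            mul_nonneg (by clear * - a4; omega) (by clear * - h7; omega)
          have p6 : 0 ≤ (u1 - v1) * (-x1 - y1 + x2 + y2) :=
            mul_nonneg (by clear * - a4; omega) (by clear * - h33; omega)
          linarith only [q, p0, p1, p2, p3, p4, p5, p6]
        have h64 := mul_self_eq_zero.mp q
        clear * - h64 a6; omega
      · clear * - h57 d2 a4; omega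
      · clear * - h58 d2 a4; omega
      · clear * - b5 g1_1 f1_1 b3 f0_1 b2 g0_1 a6; omega
    · clear * - h36 c1 a7 a5 a4; omega
  · clear * - h10 c2 a7 a6 a4 a2; omega

theorem tp30 (C : Ctx (1) f g x1 y1 x2 y2 u1 v1 u2 v2)
    (c : M3 (f (0, 1)) (0 * x1 + 1 * x2) (0 * y1 + 1 * y2))
    (d : M0 (g (0, 1)) (0 * u1 + 1 * u2) (0 * v1 + 1 * v2)) :
    Same x1 y1 x2 y2 u1 v1 u2 v2 := by
  have H := C.H
  obtain ⟨a1, a2, a3, a4, a5, a6, a7, b1, b2, b3, b4, b5, b6⟩ := C.R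
  obtain ⟨f0_1, c1, c2, c3⟩ := c
  obtain ⟨g0_1, d1, d2, d3⟩ := d
  obtain ⟨f1_1, h1, h2, h3⟩ | ⟨-, h4, h5, h6⟩ | ⟨-, h7, h8, h9⟩ | ⟨f1_1, h10, h11, h12⟩ := C.F 1 1
  · have fm1_1 := (C.F (-1) 1).m3
      (by clear * - h3 c1; omega) (by clear * - h3 b1 f0_1; omega) (by clear * - h3 c1 b1 f0_1; omega)
    have g1_1 := (C.G 1 1).m0
      (by clear * - b3 f0_1 f1_1 d3 d2 c1 a7; omega) (by clear * - d2 a4; omega) (by clear * - b3 f0_1 f1_1 d3 c1 a7 a6; omega)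
    clear * - b5 g1_1 f1_1 c1 b2 f0_1 g0_1 a7; omega
  · clear * - h6 c2 a7 a5 a4; omega
  · clear * - h7 c2 a7 a5 a4; omega
  · obtain ⟨-, h13, h14, h15⟩ | ⟨fm1_1, h16, h17, h18⟩ | ⟨-, h19, h20, h21⟩ | ⟨fm1_1, h22, h23, h24⟩ := C.F (-1) 1
    · clear * - h15 c1 a7 a6 a4 a2; omega
    · have g1_1 := (C.G 1 1).m0
        (by clear * - b4 fm1_1 f1_1 h18 d3 d2 c2 a7; omega) (by clear * - d2 a4; omega) (by clear * - b4 fm1_1 f1_1 h11 d3 a7 a6; omega)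
      clear * - b5 g1_1 f1_1 b4 fm1_1 c2 b2 f0_1 g0_1 a7; omega
    · clear * - h20 c1 a7 a6 a4 a2; omega
    · have g1_1 := (C.G 1 1).m0
        (by clear * - h22 h11 b2 f0_1 g0_1 a7; omega) (by clear * - d2 a4; omega) (by clear * - d3 a6 a4; omega)
      clear * - b5 g1_1 f1_1 b4 fm1_1 b2 f0_1 g0_1 a6 a4; omega

theorem tp31 (C : Ctx (1) f g x1 y1 x2 y2 u1 v1 u2 v2)
    (c : M3 (f (0, 1)) (0 * x1 + 1 * x2) (0 * y1 + 1 * y2))
    (d : M1 (g (0, 1)) (0 * u1 + 1 * u2) (0 * v1 + 1 * v2)) :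
    Same x1 y1 x2 y2 u1 v1 u2 v2 := by
  have H := C.H
  obtain ⟨a1, a2, a3, a4, a5, a6, a7, b1, b2, b3, b4, b5, b6⟩ := C.R
  obtain ⟨f0_1, c1, c2, c3⟩ := c
  obtain ⟨g0_1, d1, d2, d3⟩ := d
  obtain ⟨f1_1, h1, h2, h3⟩ | ⟨-, h4, h5, h6⟩ | ⟨-, h7, h8, h9⟩ | ⟨f1_1, h10, h11, h12⟩ := C.F 1 1
  · have fm1_1 := (C.F (-1) 1).m3
      (by clear * - h3 c1; omega) (by clear * - h3 b1 f0_1; omega) (by clear * - h3 c1 b1 f0_1; omega)
    obtain ⟨g1_1, h13, h14, h15⟩ | ⟨g1_1, h16, h17, h18⟩ | ⟨g1_1, h19, h20, h21⟩ | ⟨g1_1, h22, h23, h24⟩ := C.G 1 1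
    · clear * - b5 g1_1 f1_1 b3 f0_1 d1 b1 a7; omega
    · clear * - b5 g1_1 f1_1 b3 f0_1 c1 b2 g0_1 a7; omega
    · have gm1_1 := (C.G (-1) 1).m1
        (by clear * - b5 g1_1 f1_1 h20 c1 b2 f0_1 g0_1 b1; omega) (by clear * - h20 d2; omega) (by clear * - d3 a4; omega)
      have q : (u1 - v1) * (u1 - v1) = 0 := by
        have E0 : -x1 + u1 = 0 := by clear * - a7; omega
        have E1 : -y2 + u2 = 0 := by clear * - b2 f0_1 g0_1; omega
        have E2 : -x1 - x2 + v1 + v2 = 0 := by clear * - b5 g1_1 f1_1; omega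
        have q : 2 * ((-x1 - y2) * (u1 - v1)) + 3 * ((-x1 - y2) * (-y1 + v1)) + 4 * ((-x1 - y2) * (x1 + x2 + y2)) + 4 * ((-x1 - y2) * (-x1 + y1 - x2 - y2)) + 2 * ((u1 - v1) * (u1 - v1)) + 4 * ((u1 - v1) * (-y1 + v1)) + 5 * ((u1 - v1) * (x1 + x2 + y2)) + 4 * ((u1 - v1) * (-x1 + y1 - x2 - y2)) + 2 * ((-y1 + v1) * (-y1 + v1)) + 5 * ((-y1 + v1) * (x1 + x2 + y2)) + 4 * ((-y1 + v1) * (-x1 + y1 - x2 - y2)) + 4 * ((x1 + x2 + y2) * (x1 + x2 + y2)) + 6 * ((x1 + x2 + y2) * (-x1 + y1 - x2 - y2)) + 2 * ((-x1 + y1 - x2 - y2) * (-x1 + y1 - x2 - y2)) = 0 := by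
          linear_combination (-1) * C.k + (x1 + x2 - y2 + 2 * u1 - v2) * E0 + (v1) * E1 + (-x1) * E2
        have p0 : 0 ≤ (-x1 - y2) * (u1 - v1) :=
          mul_nonneg (by clear * - b1 f0_1; omega) (by clear * - a4; omega)
        have p1 : 0 ≤ (-x1 - y2) * (-y1 + v1) :=
          mul_nonneg (by clear * - b1 f0_1; omega) (by clear * - a5; omega)
        have p2 : 0 ≤ (-x1 - y2) * (x1 + x2 + y2) :=
          mul_nonneg (by clear * - b1 f0_1; omega) (by clear * - b3 f0_1 f1_1; omega)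
        have p3 : 0 ≤ (-x1 - y2) * (-x1 + y1 - x2 - y2) :=
          mul_nonneg (by clear * - b1 f0_1; omega) (by clear * - b4 fm1_1 f1_1; omega)
        have p4 := mul_self_nonneg (u1 - v1)
        have p5 : 0 ≤ (u1 - v1) * (-y1 + v1) :=
          mul_nonneg (by clear * - a4; omega) (by clear * - a5; omega)
        have p6 : 0 ≤ (u1 - v1) * (x1 + x2 + y2) :=
          mul_nonneg (by clear * - a4; omega) (by clear * - b3 f0_1 f1_1; omega)
        have p7 : 0 ≤ (u1 - v1) * (-x1 + y1 - x2 - y2) :=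
          mul_nonneg (by clear * - a4; omega) (by clear * - b4 fm1_1 f1_1; omega)
        have p8 := mul_self_nonneg (-y1 + v1)
        have p9 : 0 ≤ (-y1 + v1) * (x1 + x2 + y2) :=
          mul_nonneg (by clear * - a5; omega) (by clear * - b3 f0_1 f1_1; omega)
        have p10 : 0 ≤ (-y1 + v1) * (-x1 + y1 - x2 - y2) :=
          mul_nonneg (by clear * - a5; omega) (by clear * - b4 fm1_1 f1_1; omega)
        have p11 := mul_self_nonneg (x1 + x2 + y2)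
        have p12 : 0 ≤ (x1 + x2 + y2) * (-x1 + y1 - x2 - y2) :=
          mul_nonneg (by clear * - b3 f0_1 f1_1; omega) (by clear * - b4 fm1_1 f1_1; omega)
        have p13 := mul_self_nonneg (-x1 + y1 - x2 - y2)
        linarith only [q, p0, p1, p2, p3, p4, p5, p6, p7, p8, p9, p10, p11, p12, p13]
      have h25 := mul_self_eq_zero.mp q
      have q : (x1 - y1) * (x1 - y1) = 0 := by
        have E0 : -x1 + u1 = 0 := by clear * - a7; omega
        have E1 : -x1 + v1 = 0 := by clear * - h25 a7; omega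
        have E2 : -y2 + u2 = 0 := by clear * - b2 f0_1 g0_1; omega
        have E3 : -x2 + v2 = 0 := by clear * - h25 b5 g1_1 f1_1 a7; omega
        have q : 2 * ((x1 - y1) * (x1 - y1)) + 3 * ((x1 - y1) * (-x1 - y2)) + 5 * ((x1 - y1) * (x1 + x2 + y2)) + 4 * ((x1 - y1) * (-x1 + y1 - x2 - y2)) + 4 * ((-x1 - y2) * (x1 + x2 + y2)) + 4 * ((-x1 - y2) * (-x1 + y1 - x2 - y2)) + 4 * ((x1 + x2 + y2) * (x1 + x2 + y2)) + 6 * ((x1 + x2 + y2) * (-x1 + y1 - x2 - y2)) + 2 * ((-x1 + y1 - x2 - y2) * (-x1 + y1 - x2 - y2)) = 0 := by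
          linear_combination (-1) * C.k + (-v2) * E0 + (u2) * E1 + (x1) * E2 + (-x1) * E3
        have p0 := mul_self_nonneg (x1 - y1)
        have p1 : 0 ≤ (x1 - y1) * (-x1 - y2) :=
          mul_nonneg (by clear * - h25 a7 a5; omega) (by clear * - b1 f0_1; omega)
        have p2 : 0 ≤ (x1 - y1) * (x1 + x2 + y2) :=
          mul_nonneg (by clear * - h25 a7 a5; omega) (by clear * - b3 f0_1 f1_1; omega)
        have p3 : 0 ≤ (x1 - y1) * (-x1 + y1 - x2 - y2) :=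
          mul_nonneg (by clear * - h25 a7 a5; omega) (by clear * - b4 fm1_1 f1_1; omega)
        have p4 : 0 ≤ (-x1 - y2) * (x1 + x2 + y2) :=
          mul_nonneg (by clear * - b1 f0_1; omega) (by clear * - b3 f0_1 f1_1; omega)
        have p5 : 0 ≤ (-x1 - y2) * (-x1 + y1 - x2 - y2) :=
          mul_nonneg (by clear * - b1 f0_1; omega) (by clear * - b4 fm1_1 f1_1; omega)
        have p6 := mul_self_nonneg (x1 + x2 + y2)
        have p7 : 0 ≤ (x1 + x2 + y2) * (-x1 + y1 - x2 - y2) :=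
          mul_nonneg (by clear * - b3 f0_1 f1_1; omega) (by clear * - b4 fm1_1 f1_1; omega)
        have p8 := mul_self_nonneg (-x1 + y1 - x2 - y2)
        linarith only [q, p0, p1, p2, p3, p4, p5, p6, p7, p8]
      have h26 := mul_self_eq_zero.mp q
      refine ⟨-1, 0, 0, -1, -1, -1, by norm_num, by norm_num, by norm_num, Or.inr ⟨
        by clear * - h25 a7; omega,
        by clear * - h26 a7; omega,
        by clear * - h25 b5 g1_1 f1_1 a7; omega,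
        by clear * - b2 f0_1 g0_1; omega⟩⟩
    · clear * - b5 g1_1 f1_1 b3 f0_1 d3 b2 g0_1 a6; omega
  · clear * - h6 c2 a7 a5 a4; omega
  · clear * - h7 c2 a7 a5 a4; omega
  · obtain ⟨-, h27, h28, h29⟩ | ⟨fm1_1, h30, h31, h32⟩ | ⟨-, h33, h34, h35⟩ | ⟨fm1_1, h36, h37, h38⟩ := C.F (-1) 1
    · clear * - h29 c1 a7 a6 a4 a2; omega
    · obtain ⟨g1_1, h39, h40, h41⟩ | ⟨g1_1, h42, h43, h44⟩ | ⟨g1_1, h45, h46, h47⟩ | ⟨g1_1, h48, h49, h50⟩ := C.G 1 1
      · clear * - b5 g1_1 f1_1 b3 f0_1 d1 b1 a7; omega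
      · clear * - b5 g1_1 f1_1 h32 c2 b2 f0_1 g0_1 a7; omega
      · have gm1_1 := (C.G (-1) 1).m1
          (by clear * - b5 g1_1 f1_1 h46 b4 fm1_1 c2 b2 f0_1 g0_1 b1; omega) (by clear * - h46 d2; omega) (by clear * - d3 a4; omega)
        have q : (x2 - y2) * (v1) = 0 := by
          have E0 : y1 = 0 := by clear * - b3 f0_1 f1_1 a2; omega
          have E1 : -x1 + u1 = 0 := by clear * - a7; omega
          have E2 : -y2 + u2 = 0 := by clear * - b2 f0_1 g0_1; omega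
          have E3 : y2 + v1 + v2 = 0 := by clear * - b5 g1_1 f1_1 b3 f0_1 a2; omega
          have q : 3 * ((-x1 - y2) * (v1)) + 2 * ((-x1 - y2) * (u1 - v1)) + 2 * ((x2 - y2) * (v1)) + 2 * ((v1) * (u1 - v1)) + 2 * ((v1) * (x1 - y1 - x2 + y2)) + 2 * ((u1 - v1) * (u1 - v1)) = 0 := by
            linear_combination (-1) * C.k + (-x2 - 2 * v1) * E0 + (-2 * y2 + 2 * u1 - 2 * v1 - v2) * E1 + (v1) * E2 + (-x1) * E3
          have p0 : 0 ≤ (-x1 - y2) * (v1) :=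
            mul_nonneg (by clear * - b1 f0_1; omega) (by clear * - b5 g1_1 f1_1 b3 f0_1 d2 b2 g0_1; omega)
          have p1 : 0 ≤ (-x1 - y2) * (u1 - v1) :=
            mul_nonneg (by clear * - b1 f0_1; omega) (by clear * - a4; omega)
          have p2 : 0 ≤ (x2 - y2) * (v1) :=
            mul_nonneg (by clear * - c2; omega) (by clear * - b5 g1_1 f1_1 b3 f0_1 d2 b2 g0_1; omega)
          have p3 : 0 ≤ (v1) * (u1 - v1) :=
            mul_nonneg (by clear * - b5 g1_1 f1_1 b3 f0_1 d2 b2 g0_1; omega) (by clear * - a4; omega)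
          have p4 : 0 ≤ (v1) * (x1 - y1 - x2 + y2) :=
            mul_nonneg (by clear * - b5 g1_1 f1_1 b3 f0_1 d2 b2 g0_1; omega) (by clear * - h32; omega)
          have p5 := mul_self_nonneg (u1 - v1)
          linarith only [q, p0, p1, p2, p3, p4, p5]
        obtain h51 | h51 := mul_eq_zero.mp q
        · clear * - h51 c2; omega
        · clear * - h51 a6; omega
      · clear * - b5 g1_1 f1_1 b3 f0_1 d3 b2 g0_1 a6; omega
    · clear * - h34 c1 a7 a6 a4 a2; omega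
    · obtain ⟨-, h52, h53, h54⟩ | ⟨g1_1, h55, h56, h57⟩ | ⟨g1_1, h58, h59, h60⟩ | ⟨g1_1, h61, h62, h63⟩ := C.G 1 1
      · clear * - h54 h53 h37 h10 b2 f0_1 g0_1 a7; omega
      · clear * - b5 g1_1 f1_1 b3 f0_1 b2 g0_1 a6 a4; omega
      · have gm1_1 := (C.G (-1) 1).m1
          (by clear * - b5 g1_1 f1_1 h59 b4 fm1_1 d3 d2 b2 f0_1 g0_1; omega) (by clear * - h59 d2; omega) (by clear * - d3 a4; omega)
        have q : (v1) * (v1) = 0 := by
          have E0 : y1 = 0 := by clear * - b4 fm1_1 f1_1 b3 f0_1; omega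
          have E1 : -x1 + u1 = 0 := by clear * - a7; omega
          have E2 : -y2 + u2 = 0 := by clear * - b2 f0_1 g0_1; omega
          have E3 : y2 + v1 + v2 = 0 := by clear * - b5 g1_1 f1_1 b4 fm1_1 b3 f0_1; omega
          have q : 4 * ((v1) * (v1)) + 8 * ((v1) * (u1 - v1)) + 3 * ((v1) * (-x1 - y1 - x2 - y2)) + 3 * ((v1) * (-x1 + y1 + x2 - y2)) + 4 * ((u1 - v1) * (u1 - v1)) + 2 * ((u1 - v1) * (-x1 - y1 - x2 - y2)) + 2 * ((u1 - v1) * (-x1 + y1 + x2 - y2)) = 0 := by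
            linear_combination (-2) * C.k + (-2 * x2) * E0 + (-4 * y2 + 4 * u1 - 2 * v2) * E1 + (2 * v1) * E2 + (-2 * x1) * E3
          have p0 := mul_self_nonneg (v1)
          have p1 : 0 ≤ (v1) * (u1 - v1) :=
            mul_nonneg (by clear * - b5 g1_1 f1_1 b3 f0_1 d2 b2 g0_1; omega) (by clear * - a4; omega)
          have p2 : 0 ≤ (v1) * (-x1 - y1 - x2 - y2) :=
            mul_nonneg (by clear * - b5 g1_1 f1_1 b3 f0_1 d2 b2 g0_1; omega) (by clear * - h10; omega)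
          have p3 : 0 ≤ (v1) * (-x1 + y1 + x2 - y2) :=
            mul_nonneg (by clear * - b5 g1_1 f1_1 b3 f0_1 d2 b2 g0_1; omega) (by clear * - h37; omega)
          have p4 := mul_self_nonneg (u1 - v1)
          have p5 : 0 ≤ (u1 - v1) * (-x1 - y1 - x2 - y2) :=
            mul_nonneg (by clear * - a4; omega) (by clear * - h10; omega)
          have p6 : 0 ≤ (u1 - v1) * (-x1 + y1 + x2 - y2) :=
            mul_nonneg (by clear * - a4; omega) (by clear * - h37; omega)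
          linarith only [q, p0, p1, p2, p3, p4, p5, p6]
        have h64 := mul_self_eq_zero.mp q
        clear * - h64 a6; omega
      · clear * - b5 g1_1 f1_1 b3 f0_1 d3 b2 g0_1 a6; omega

theorem tp32 (C : Ctx (1) f g x1 y1 x2 y2 u1 v1 u2 v2)
    (c : M3 (f (0, 1)) (0 * x1 + 1 * x2) (0 * y1 + 1 * y2))
    (d : M2 (g (0, 1)) (0 * u1 + 1 * u2) (0 * v1 + 1 * v2)) :
    Same x1 y1 x2 y2 u1 v1 u2 v2 := by
  have H := C.H
  obtain ⟨a1, a2, a3, a4, a5, a6, a7, b1, b2, b3, b4, b5, b6⟩ := C.R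
  obtain ⟨f0_1, c1, c2, c3⟩ := c
  obtain ⟨g0_1, d1, d2, d3⟩ := d
  obtain ⟨f1_1, h1, h2, h3⟩ | ⟨-, h4, h5, h6⟩ | ⟨-, h7, h8, h9⟩ | ⟨f1_1, h10, h11, h12⟩ := C.F 1 1
  · have fm1_1 := (C.F (-1) 1).m3
      (by clear * - h3 c1; omega) (by clear * - h3 b1 f0_1; omega) (by clear * - h3 c1 b1 f0_1; omega)
    obtain ⟨g1_1, h13, h14, h15⟩ | ⟨-, h16, h17, h18⟩ | ⟨g1_1, h19, h20, h21⟩ | ⟨-, h22, h23, h24⟩ := C.G 1 1
    · have gm1_1 := (C.G (-1) 1).m2
        (by clear * - h14 d1; omega) (by clear * - h14 b2 f0_1 g0_1 b1 a7; omega) (by clear * - b5 g1_1 f1_1 h14 c1 b2 f0_1 g0_1 b1; omega)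
      clear * - b6 g1_1 gm1_1 b5 f1_1 b3 f0_1 b2 g0_1 a6; omega
    · clear * - h17 b3 f0_1 f1_1 d2 c1 a7 a6; omega
    · obtain ⟨-, h25, h26, h27⟩ | ⟨gm1_1, h28, h29, h30⟩ | ⟨gm1_1, h31, h32, h33⟩ | ⟨-, h34, h35, h36⟩ := C.G (-1) 1
      · clear * - h26 b5 g1_1 f1_1 d1 c1 b2 f0_1 g0_1 a7; omega
      · have q : (y1) * (y1) = 0 := by
          have E0 : x1 - y1 + x2 + y2 = 0 := by clear * - b5 g1_1 f1_1 b4 fm1_1 b2 f0_1 g0_1 a5; omega
          have E1 : -x1 + u1 = 0 := by clear * - a7; omega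
          have E2 : -y1 + v1 = 0 := by clear * - b5 g1_1 f1_1 b4 fm1_1 b2 f0_1 g0_1 a5; omega
          have E3 : -x1 + y1 - x2 + v2 = 0 := by clear * - b5 g1_1 f1_1 b4 fm1_1 b2 f0_1 g0_1 a5; omega
          have q : 4 * ((y1) * (y1)) + 4 * ((y1) * (-x1 - y2)) + 4 * ((y1) * (u2 + v2)) + 5 * ((y1) * (u1 - v1 - u2 - v2)) + 2 * ((-x1 - y2) * (u2 + v2)) + 2 * ((-x1 - y2) * (u1 - v1 - u2 - v2)) + 2 * ((u2 + v2) * (u2 + v2)) + 4 * ((u2 + v2) * (u1 - v1 - u2 - v2)) + 2 * ((u1 - v1 - u2 - v2) * (u1 - v1 - u2 - v2)) = 0 := by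
            linear_combination (-1) * C.k + (x1 - 4 * y1 - 2 * u1 + 2 * v1) * E0 + (2 * x1 + 3 * y1 + 2 * x2 + 2 * u1 - 4 * v1 - v2) * E1 + (-4 * x1 - y1 - 2 * x2 + 2 * v1 + u2) * E2 + (-x1 - y1) * E3
          have p0 := mul_self_nonneg (y1)
          have p1 : 0 ≤ (y1) * (-x1 - y2) :=
            mul_nonneg (by clear * - b4 fm1_1 f1_1 b3 f0_1; omega) (by clear * - b1 f0_1; omega)
          have p2 : 0 ≤ (y1) * (u2 + v2) :=
            mul_nonneg (by clear * - b4 fm1_1 f1_1 b3 f0_1; omega) (by clear * - d2; omega)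
          have p3 : 0 ≤ (y1) * (u1 - v1 - u2 - v2) :=
            mul_nonneg (by clear * - b4 fm1_1 f1_1 b3 f0_1; omega) (by clear * - b6 g1_1 gm1_1; omega)
          have p4 : 0 ≤ (-x1 - y2) * (u2 + v2) :=
            mul_nonneg (by clear * - b1 f0_1; omega) (by clear * - d2; omega)
          have p5 : 0 ≤ (-x1 - y2) * (u1 - v1 - u2 - v2) :=
            mul_nonneg (by clear * - b1 f0_1; omega) (by clear * - b6 g1_1 gm1_1; omega)
          have p6 := mul_self_nonneg (u2 + v2)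
          have p7 : 0 ≤ (u2 + v2) * (u1 - v1 - u2 - v2) :=
            mul_nonneg (by clear * - d2; omega) (by clear * - b6 g1_1 gm1_1; omega)
          have p8 := mul_self_nonneg (u1 - v1 - u2 - v2)
          linarith only [q, p0, p1, p2, p3, p4, p5, p6, p7, p8]
        have h37 := mul_self_eq_zero.mp q
        clear * - h37 b5 g1_1 f1_1 b4 fm1_1 b2 f0_1 g0_1 a6; omega
      · clear * - b6 g1_1 gm1_1 a6; omega
      · clear * - h35 h34 b5 g1_1 f1_1 c1 b2 f0_1 g0_1 b1; omega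
    · clear * - h22 b3 f0_1 f1_1 d2 c1 a7 a6; omega
  · clear * - h6 c2 a7 a5 a4; omega
  · clear * - h7 c2 a7 a5 a4; omega
  · obtain ⟨-, h38, h39, h40⟩ | ⟨fm1_1, h41, h42, h43⟩ | ⟨-, h44, h45, h46⟩ | ⟨fm1_1, h47, h48, h49⟩ := C.F (-1) 1
    · clear * - h40 c1 a7 a6 a4 a2; omega
    · obtain ⟨g1_1, h50, h51, h52⟩ | ⟨-, h53, h54, h55⟩ | ⟨g1_1, h56, h57, h58⟩ | ⟨-, h59, h60, h61⟩ := C.G 1 1
      · clear * - b5 g1_1 f1_1 h51 b2 f0_1 g0_1 a6 a2; omega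
      · clear * - h54 b4 fm1_1 f1_1 h43 d2 c2 a7 a6; omega
      · clear * - b5 g1_1 f1_1 b2 f0_1 g0_1 a6 a2; omega
      · clear * - h59 b4 fm1_1 f1_1 h43 d2 c2 a7 a6; omega
    · clear * - h45 c1 a7 a6 a4 a2; omega
    · obtain ⟨g1_1, h62, h63, h64⟩ | ⟨-, h65, h66, h67⟩ | ⟨g1_1, h68, h69, h70⟩ | ⟨-, h71, h72, h73⟩ := C.G 1 1
      · clear * - b5 g1_1 f1_1 h63 b4 fm1_1 b2 f0_1 g0_1 a6; omega
      · clear * - h66 d2 a6 a4; omega
      · clear * - b5 g1_1 f1_1 b4 fm1_1 b2 f0_1 g0_1 a6; omega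
      · clear * - h72 h71 d2 d1 a6; omega

theorem tp33 (C : Ctx (1) f g x1 y1 x2 y2 u1 v1 u2 v2)
    (c : M3 (f (0, 1)) (0 * x1 + 1 * x2) (0 * y1 + 1 * y2))
    (d : M3 (g (0, 1)) (0 * u1 + 1 * u2) (0 * v1 + 1 * v2)) :
    Same x1 y1 x2 y2 u1 v1 u2 v2 := by
  have H := C.H
  obtain ⟨a1, a2, a3, a4, a5, a6, a7, b1, b2, b3, b4, b5, b6⟩ := C.R
  obtain ⟨f0_1, c1, c2, c3⟩ := c
  obtain ⟨g0_1, d1, d2, d3⟩ := d
  obtain ⟨f1_1, h1, h2, h3⟩ | ⟨-, h4, h5, h6⟩ | ⟨-, h7, h8, h9⟩ | ⟨f1_1, h10, h11, h12⟩ := C.F 1 1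
  · have fm1_1 := (C.F (-1) 1).m3
      (by clear * - h3 c1; omega) (by clear * - h3 b1 f0_1; omega) (by clear * - h3 c1 b1 f0_1; omega)
    obtain ⟨g1_1, h13, h14, h15⟩ | ⟨-, h16, h17, h18⟩ | ⟨-, h19, h20, h21⟩ | ⟨g1_1, h22, h23, h24⟩ := C.G 1 1
    · have gm1_1 := (C.G (-1) 1).m3
        (by clear * - h15 d1; omega) (by clear * - h15 b2 f0_1 g0_1 b1 a7; omega) (by clear * - b5 g1_1 f1_1 h15 c1 b2 f0_1 g0_1 b1; omega)
      have q : (-y1 + v1) * (x2) = 0 := by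
        have E0 : -x1 + u1 = 0 := by clear * - a7; omega
        have E1 : -x2 + u2 = 0 := by clear * - b5 g1_1 f1_1 a7; omega
        have E2 : -y2 + v2 = 0 := by clear * - b2 f0_1 g0_1; omega
        have q : 1 * ((-y1 + v1) * (x2)) = 0 := by
          linear_combination (1) * C.k + (v2) * E0 + (-v1) * E1 + (x1) * E2
        linarith only [q]
      obtain h25 | h25 := mul_eq_zero.mp q
      · refine ⟨-1, 0, 0, -1, -1, -1, by norm_num, by norm_num, by norm_num, Or.inl ⟨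
          by clear * - a7; omega,
          by clear * - h25; omega,
          by clear * - b5 g1_1 f1_1 a7; omega,
          by clear * - b2 f0_1 g0_1; omega⟩⟩
      · have f2_1 := (C.F 2 1).m0
          (by clear * - h25 b5 g1_1 f1_1 h15 h14; omega) (by clear * - h2 a7 a5 a4; omega) (by clear * - h25 b5 g1_1 f1_1 h15 h14 b4 fm1_1 b3 f0_1; omega)
        have f1_2 := (C.F 1 2).m3
          (by clear * - h25 b1 f0_1 a7 a5 a4; omega) (by clear * - h25 b4 fm1_1 f1_1 h2; omega) (by clear * - h25 h2 b1 f0_1; omega)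
        have g2_1 := (C.G 2 1).m0
          (by clear * - b5 g1_1 f1_1 h15 h14 b3 f0_1 d1 b2 g0_1; omega) (by clear * - h14 a4; omega) (by clear * - h15 d1; omega)
        have g1_2 := (C.G 1 2).m3
          (by clear * - h25 b5 g1_1 f1_1 b2 f0_1 g0_1 b1 a4; omega) (by clear * - h14 d2; omega) (by clear * - h25 b5 g1_1 f1_1 h14 b2 f0_1 g0_1 b1; omega)
        replace H := C.S _ _ H (List.cons_ne_nil _ _)
        simp only [Br_cons, Br_nil, Fst, List.nil_append, List.cons_append, List.forall_mem_cons, List.not_mem_nil, false_imp_iff, implies_true, Prod.mk_add_mk, Int.reduceAdd, f2_1, f1_2, fm1_1, g2_1, g1_2, gm1_1] at H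
        obtain ⟨⟨-, ⟨h26, h27, -⟩⟩, H⟩ | ⟨⟨⟨h28, -⟩, ⟨h29, -⟩⟩, H⟩ | ⟨⟨⟨h30, h31, -⟩, -⟩, H⟩ | ⟨⟨⟩⟩ := H
        · clear * - h27 h26 h25 b3 f0_1 f1_1 c3; omega
        · obtain ⟨⟨-, ⟨h32, h33, -⟩⟩, h38, H⟩ | ⟨⟨⟨h34, -⟩, ⟨h35, -⟩⟩, h38, H⟩ | ⟨⟨⟨h36, h37, -⟩, -⟩, h38, H⟩ | ⟨⟨⟩⟩ := H
          · clear * - h38 h28 b5 g1_1 f1_1 a7; omega
          · refine ⟨-1, 0, 0, -1, -1, -1, by norm_num, by norm_num, by norm_num, Or.inl ⟨
              by clear * - a7; omega,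
              by clear * - h38 b2 f0_1 g0_1; omega,
              by clear * - b5 g1_1 f1_1 a7; omega,
              by clear * - b2 f0_1 g0_1; omega⟩⟩
          · clear * - h38 h37 h29 a5; omega
        · obtain ⟨⟨-, ⟨h39, h40, -⟩⟩, h45, H⟩ | ⟨⟨⟨h41, -⟩, ⟨h42, -⟩⟩, h45, H⟩ | ⟨⟨⟨h43, h44, -⟩, -⟩, h45, H⟩ | ⟨⟨⟩⟩ := H
          · clear * - h45 h30 b5 g1_1 f1_1 a7; omega
          · refine ⟨-1, -1, 0, 1, -1, 1, by norm_num, by norm_num, by norm_num, Or.inl ⟨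
              by clear * - h25 a7; omega,
              by clear * - h45 b2 f0_1 g0_1; omega,
              by clear * - h25 b5 g1_1 f1_1 a7; omega,
              by clear * - b2 f0_1 g0_1; omega⟩⟩
          · refine ⟨-1, 0, 0, -1, -1, -1, by norm_num, by norm_num, by norm_num, Or.inl ⟨
              by clear * - a7; omega,
              by clear * - h45 b2 f0_1 g0_1; omega,
              by clear * - b5 g1_1 f1_1 a7; omega,
              by clear * - b2 f0_1 g0_1; omega⟩⟩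
    · clear * - h18 d2 a4; omega
    · clear * - h19 d2 a4; omega
    · clear * - b5 g1_1 f1_1 b3 f0_1 b2 g0_1 a6; omega
  · clear * - h6 c2 a7 a5 a4; omega
  · clear * - h7 c2 a7 a5 a4; omega
  · obtain ⟨-, h46, h47, h48⟩ | ⟨fm1_1, h49, h50, h51⟩ | ⟨-, h52, h53, h54⟩ | ⟨fm1_1, h55, h56, h57⟩ := C.F (-1) 1
    · clear * - h48 c1 a7 a6 a4 a2; omega
    · obtain ⟨g1_1, h58, h59, h60⟩ | ⟨-, h61, h62, h63⟩ | ⟨-, h64, h65, h66⟩ | ⟨g1_1, h67, h68, h69⟩ := C.G 1 1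
      · have gm1_1 := (C.G (-1) 1).m3
          (by clear * - h60 d1; omega) (by clear * - h60 b2 f0_1 g0_1 b1 a7; omega) (by clear * - b5 g1_1 f1_1 h60 b4 fm1_1 c2 b2 f0_1 g0_1 b1; omega)
        have q : (v1) * (-x1 - y2) = 0 := by
          have E0 : y1 = 0 := by clear * - b3 f0_1 f1_1 a2; omega
          have E1 : -x1 + u1 = 0 := by clear * - a7; omega
          have E2 : x1 + y2 + u2 = 0 := by clear * - b5 g1_1 f1_1 b3 f0_1 a7 a2; omega
          have E3 : -y2 + v2 = 0 := by clear * - b2 f0_1 g0_1; omega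
          have q : 1 * ((v1) * (-x1 - y2)) = 0 := by
            linear_combination (1) * C.k + (x2) * E0 + (v2) * E1 + (-v1) * E2 + (x1) * E3
          linarith only [q]
        obtain h70 | h70 := mul_eq_zero.mp q
        · clear * - h70 a6; omega
        · have f2_1 := (C.F 2 1).m0
            (by clear * - h70 h50 h11 c2; omega) (by clear * - h70 b5 g1_1 f1_1 h60 h59 h11; omega) (by clear * - h70 c2 a2; omega)
          have f1_2 := (C.F 1 2).m3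
            (by clear * - h70 b5 g1_1 f1_1 h60 h59 b4 fm1_1 h51; omega) (by clear * - h11 c2; omega) (by clear * - h70 b5 g1_1 f1_1 h60 h59 h50 h11; omega)
          have g2_1 := (C.G 2 1).m0
            (by clear * - b5 g1_1 f1_1 h60 h59 b3 f0_1 d1 b2 g0_1; omega) (by clear * - h59 a4; omega) (by clear * - h60 d1; omega)
          have g1_2 := (C.G 1 2).m3
            (by clear * - b5 g1_1 f1_1 b2 f0_1 g0_1 a4 a2; omega) (by clear * - h59 d2; omega) (by clear * - h70 b5 g1_1 f1_1 h59 b4 fm1_1 c2 b2 f0_1 g0_1 a7 a4; omega)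
          replace H := C.S _ _ H (List.cons_ne_nil _ _)
          simp only [Br_cons, Br_nil, Fst, List.nil_append, List.cons_append, List.forall_mem_cons, List.not_mem_nil, false_imp_iff, implies_true, Prod.mk_add_mk, Int.reduceAdd, f2_1, f1_2, fm1_1, g2_1, g1_2, gm1_1] at H
          obtain ⟨⟨-, ⟨h71, h72, -⟩⟩, H⟩ | ⟨⟨⟨h73, -⟩, ⟨h74, -⟩⟩, H⟩ | ⟨⟨⟨h75, h76, -⟩, -⟩, H⟩ | ⟨⟨⟩⟩ := H
          · obtain ⟨⟨-, ⟨h77, h78, -⟩⟩, h83, H⟩ | ⟨⟨⟨h79, -⟩, ⟨h80, -⟩⟩, h83, H⟩ | ⟨⟨⟨h81, h82, -⟩, -⟩, h83, H⟩ | ⟨⟨⟩⟩ := H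
            · clear * - h83 b5 g1_1 f1_1 h10 a7; omega
            · refine ⟨0, -1, -1, 0, 1, 1, by norm_num, by norm_num, by norm_num, Or.inr ⟨
                by clear * - h83 h70 b2 f0_1 g0_1; omega,
                by clear * - h70 a7; omega,
                by clear * - h70 b2 f0_1 g0_1; omega,
                by clear * - h70 b5 g1_1 f1_1 a7; omega⟩⟩
            · refine ⟨-1, -1, 1, 0, -1, 1, by norm_num, by norm_num, by norm_num, Or.inr ⟨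
                by clear * - h83 h70 b2 f0_1 g0_1; omega,
                by clear * - h70 b3 f0_1 f1_1 a7 a2; omega,
                by clear * - h70 b2 f0_1 g0_1; omega,
                by clear * - h70 b5 g1_1 f1_1 b3 f0_1 a7 a2; omega⟩⟩
          · clear * - h73 h70 h51; omega
          · obtain ⟨⟨-, ⟨h84, h85, -⟩⟩, h90, H⟩ | ⟨⟨⟨h86, -⟩, ⟨h87, -⟩⟩, h90, H⟩ | ⟨⟨⟨h88, h89, -⟩, -⟩, h90, H⟩ | ⟨⟨⟩⟩ := H
            · clear * - h90 h75 b5 g1_1 f1_1 h10 a7; omega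
            · refine ⟨-1, -1, 1, 0, -1, 1, by norm_num, by norm_num, by norm_num, Or.inr ⟨
                by clear * - h90 h70 b2 f0_1 g0_1; omega,
                by clear * - h70 b3 f0_1 f1_1 a7 a2; omega,
                by clear * - h70 b2 f0_1 g0_1; omega,
                by clear * - h70 b5 g1_1 f1_1 b3 f0_1 a7 a2; omega⟩⟩
            · refine ⟨0, -1, -1, 0, 1, 1, by norm_num, by norm_num, by norm_num, Or.inr ⟨
                by clear * - h90 h70 b2 f0_1 g0_1; omega,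
                by clear * - h70 a7; omega,
                by clear * - h70 b2 f0_1 g0_1; omega,
                by clear * - h70 b5 g1_1 f1_1 a7; omega⟩⟩
      · clear * - h63 d2 a4; omega
      · clear * - h64 d2 a4; omega
      · clear * - b5 g1_1 f1_1 b3 f0_1 b2 g0_1 a6; omega
    · clear * - h53 c1 a7 a6 a4 a2; omega
    · obtain ⟨g1_1, h91, h92, h93⟩ | ⟨-, h94, h95, h96⟩ | ⟨-, h97, h98, h99⟩ | ⟨g1_1, h100, h101, h102⟩ := C.G 1 1
      · have gm1_1 := (C.G (-1) 1).m3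
          (by clear * - h93 d1; omega) (by clear * - h93 h56 h10 b2 f0_1 g0_1 a7; omega) (by clear * - b5 g1_1 f1_1 h93 b4 fm1_1 d3 b2 f0_1 g0_1; omega)
        have q : (v1) * (-x1 - y2) = 0 := by
          have E0 : y1 = 0 := by clear * - b4 fm1_1 f1_1 b3 f0_1; omega
          have E1 : -x1 + u1 = 0 := by clear * - a7; omega
          have E2 : x1 + y2 + u2 = 0 := by clear * - b5 g1_1 f1_1 b4 fm1_1 b3 f0_1 a7; omega
          have E3 : -y2 + v2 = 0 := by clear * - b2 f0_1 g0_1; omega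
          have q : 1 * ((v1) * (-x1 - y2)) = 0 := by
            linear_combination (1) * C.k + (x2) * E0 + (v2) * E1 + (-v1) * E2 + (x1) * E3
          linarith only [q]
        obtain h103 | h103 := mul_eq_zero.mp q
        · clear * - h103 a6; omega
        · clear * - h103 h56 h10; omega
      · clear * - h96 d2 a4; omega
      · clear * - h97 d2 a4; omega
      · clear * - b5 g1_1 f1_1 b3 f0_1 b2 g0_1 a6; omega

end TreeI

end Pool.Agent.P.MP_e311cd_gt
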